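import Pool.Agent.Lib.MP_a7b2aa_an.SHD.Stmts4_25

/-!
SHD4, helper46: module CROSS (the correlation of the rows).
-/

set_option autoImplicit false

namespace Pool.Agent.SHD

open Finset Pool.Agent.SB3 Pool.Agent.SBT Pool.Agent.SBD

/-! ### the pointwise identity -/

theorem incl46 {ι : Type} [DecidableEq ι] (I : Finset ι) (P : ι → Prop) [DecidablePred P] :
    (if ∀ e ∈ I, ¬ P e then (1 : ℝ) else 0) =
      ∑ T ∈ I.powerset, (-1 : ℝ) ^ T.card * (if ∀ e ∈ T, P e then 1 else 0) := by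
  have h1 : (if ∀ e ∈ I, ¬ P e then (1 : ℝ) else 0) = ∏ e ∈ I, (if ¬ P e then (1 : ℝ) else 0) :=
    (prod_boole).symm
  have h2 : ∏ e ∈ I, (if ¬ P e then (1 : ℝ) else 0) =
      ∏ e ∈ I, (1 + -(if P e then (1 : ℝ) else 0)) := by
    refine prod_congr rfl fun e _ => ?_
    by_cases h : P e
    · simp [h]
    · simp [h]
  rw [h1, h2, prod_one_add]
  refine sum_congr rfl fun T _ => ?_
  rw [prod_neg, prod_boole]

theorem pair46 {m : ℕ} (p q : Fin (m + 1) → ℕ) (h0 : q 0 = p 0) :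
    (1 : ℝ) = (if q = p then 1 else 0) + (if (∀ e, q e ≤ p e) ∧ q ≠ p then 1 else 0) -
      ∑ T ∈ (Inn m).powerset.erase ∅,
        (-1 : ℝ) ^ T.card * (if ∀ e ∈ T, p e < q e then 1 else 0) := by
  have h1 : (if ∀ e ∈ Inn m, ¬ p e < q e then (1 : ℝ) else 0) =
      ∑ T ∈ (Inn m).powerset, (-1 : ℝ) ^ T.card * (if ∀ e ∈ T, p e < q e then 1 else 0) := by
    convert incl46 (Inn m) (fun e => p e < q e)
  have h2 : (∀ e ∈ Inn m, ¬ p e < q e) ↔ ∀ e, q e ≤ p e := by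
    constructor
    · intro h e
      by_cases he : e = 0
      · rw [he, h0]
      · exact not_lt.1 (h e (by simp [Inn, he]))
    · intro h e _
      exact not_lt.2 (h e)
  have h3 : (if ∀ e ∈ Inn m, ¬ p e < q e then (1 : ℝ) else 0) =
      (if q = p then 1 else 0) + (if (∀ e, q e ≤ p e) ∧ q ≠ p then 1 else 0) := by
    simp only [h2]
    by_cases hqp : q = p
    · simp [hqp]
    · simp [hqp]
  have h4 : ∑ T ∈ (Inn m).powerset, (-1 : ℝ) ^ T.card * (if ∀ e ∈ T, p e < q e then 1 else 0) =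
      1 + ∑ T ∈ (Inn m).powerset.erase ∅,
        (-1 : ℝ) ^ T.card * (if ∀ e ∈ T, p e < q e then 1 else 0) := by
    rw [← add_sum_erase (Inn m).powerset _ (empty_mem_powerset (Inn m))]
    simp
  linarith

/-- the remaining pairs -/
noncomputable def ne46 {m L : ℕ} (u v : (Fin (m + 1) → ℕ) → Pt m L → ℝ) (j : ℕ) (ω : Pt m L) : ℝ :=
  ∑ p ∈ fr L (Inn m) (fun _ => j), ∑ q ∈ fr L (Inn m) (fun _ => j),
    if (∀ e, q e ≤ p e) ∧ q ≠ p then
      (ps (Inn m) q ω * u q ω) * (ps (Inn m) p ω * v p ω) else 0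

theorem row_lt46 {m L j : ℕ} (hj : j < L) {p : Fin (m + 1) → ℕ}
    (hp : p ∈ fr L (Inn m) (fun _ => j)) : (∀ e, p e < L) ∧ p 0 = j := by
  rw [mem_fr] at hp
  have h0 : p 0 = j := hp.2 0 (by simp [Inn])
  refine ⟨fun e => ?_, h0⟩
  by_cases he : e = 0
  · rw [he, h0]
    exact hj
  · exact hp.1 e (by simp [Inn, he])

theorem box46 {m L j : ℕ} (u v : (Fin (m + 1) → ℕ) → Pt m L → ℝ)
    (T : Finset (Fin (m + 1))) (κ α : Fin (m + 1) → ℕ) (ω : Pt m L) :
    ∑ x ∈ fr L (Inn m) (fun _ => j) ×ˢ fr L (Inn m) (fun _ => j),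
      ((ps (Inn m) x.2 ω * u x.2 ω) * (ps (Inn m) x.1 ω * v x.1 ω)) *
        (if (∀ e, loL T κ α e ≤ x.1 e ∧ x.1 e < hiL L T κ α e) ∧
          (∀ e, loR T κ α e ≤ x.2 e ∧ x.2 e < hiR L T κ α e) then 1 else 0) =
      XX (cR T κ α u) j ω * XX (cL T κ α v) j ω := by
  rw [sum_product]
  unfold XX
  rw [mul_comm, sum_mul_sum]
  refine sum_congr rfl fun p _ => sum_congr rfl fun q _ => ?_
  unfold cL cR cut
  by_cases h1 : ∀ e, loL T κ α e ≤ p e ∧ p e < hiL L T κ α e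
  · by_cases h2 : ∀ e, loR T κ α e ≤ q e ∧ q e < hiR L T κ α e
    · rw [if_pos ⟨h1, h2⟩, if_pos h1, if_pos h2]
      ring
    · rw [if_neg (fun h => h2 h.2), if_neg h2]
      ring
  · rw [if_neg (fun h => h1 h.1), if_neg h1]
    ring

theorem pw46 (hD : StDyab) {m L j : ℕ} (hj : j < L) (u v : (Fin (m + 1) → ℕ) → Pt m L → ℝ)
    (ω : Pt m L) :
    XX u j ω * XX v j ω = ∑ p ∈ fr L (Inn m) (fun _ => j), u p ω * v p ω + ne46 u v j ω -
      ∑ T ∈ (Inn m).powerset.erase ∅, (-1 : ℝ) ^ T.card * ∑ κ ∈ Sc L T, ∑ α ∈ Lb L T,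
        XX (cR T κ α u) j ω * XX (cL T κ α v) j ω := by
  set Rj := fr L (Inn m) (fun _ => j) with hR
  have e1 : XX u j ω * XX v j ω = ∑ x ∈ Rj ×ˢ Rj,
      (ps (Inn m) x.2 ω * u x.2 ω) * (ps (Inn m) x.1 ω * v x.1 ω) := by
    rw [sum_product]
    unfold XX
    rw [mul_comm, sum_mul_sum]
    refine sum_congr rfl fun p _ => sum_congr rfl fun q _ => ?_
    ring
  have e2 : ∀ x ∈ Rj ×ˢ Rj, (ps (Inn m) x.2 ω * u x.2 ω) * (ps (Inn m) x.1 ω * v x.1 ω) =
      (if x.2 = x.1 then (ps (Inn m) x.2 ω * u x.2 ω) * (ps (Inn m) x.1 ω * v x.1 ω) else 0) +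
      (if (∀ e, x.2 e ≤ x.1 e) ∧ x.2 ≠ x.1 then
        (ps (Inn m) x.2 ω * u x.2 ω) * (ps (Inn m) x.1 ω * v x.1 ω) else 0) -
      ∑ T ∈ (Inn m).powerset.erase ∅, (-1 : ℝ) ^ T.card * ∑ κ ∈ Sc L T, ∑ α ∈ Lb L T,
        ((ps (Inn m) x.2 ω * u x.2 ω) * (ps (Inn m) x.1 ω * v x.1 ω)) *
        (if (∀ e, loL T κ α e ≤ x.1 e ∧ x.1 e < hiL L T κ α e) ∧
          (∀ e, loR T κ α e ≤ x.2 e ∧ x.2 e < hiR L T κ α e) then 1 else 0) := by
    intro x hx
    rw [mem_product] at hx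
    obtain ⟨hp1, hp0⟩ := row_lt46 hj hx.1
    obtain ⟨hq1, hq0⟩ := row_lt46 hj hx.2
    have h := pair46 x.1 x.2 (by rw [hq0, hp0])
    set a : ℝ := (ps (Inn m) x.2 ω * u x.2 ω) * (ps (Inn m) x.1 ω * v x.1 ω) with ha
    have h5 : ∀ T : Finset (Fin (m + 1)), a * (if ∀ e ∈ T, x.1 e < x.2 e then (1 : ℝ) else 0) =
        ∑ κ ∈ Sc L T, ∑ α ∈ Lb L T, a *
          (if (∀ e, loL T κ α e ≤ x.1 e ∧ x.1 e < hiL L T κ α e) ∧
          (∀ e, loR T κ α e ≤ x.2 e ∧ x.2 e < hiR L T κ α e) then 1 else 0) := by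
      intro T
      rw [hD m L T x.1 x.2 hp1 hq1, mul_sum]
      refine sum_congr rfl fun κ _ => ?_
      rw [mul_sum]
    have h6 : a = a * (if x.2 = x.1 then 1 else 0) +
        a * (if (∀ e, x.2 e ≤ x.1 e) ∧ x.2 ≠ x.1 then 1 else 0) -
        ∑ T ∈ (Inn m).powerset.erase ∅,
          (-1 : ℝ) ^ T.card * (a * (if ∀ e ∈ T, x.1 e < x.2 e then 1 else 0)) := by
      have h7 : ∑ T ∈ (Inn m).powerset.erase ∅,
          (-1 : ℝ) ^ T.card * (a * (if ∀ e ∈ T, x.1 e < x.2 e then 1 else 0)) =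
          a * ∑ T ∈ (Inn m).powerset.erase ∅,
          (-1 : ℝ) ^ T.card * (if ∀ e ∈ T, x.1 e < x.2 e then 1 else 0) := by
        rw [mul_sum]
        refine sum_congr rfl fun T _ => ?_
        ring
      rw [h7, ← mul_add, ← mul_sub, ← h, mul_one]
    have hA : (if x.2 = x.1 then a else 0) = a * (if x.2 = x.1 then 1 else 0) := by
      split_ifs <;> ring
    have hB : (if (∀ e, x.2 e ≤ x.1 e) ∧ x.2 ≠ x.1 then a else 0) =
        a * (if (∀ e, x.2 e ≤ x.1 e) ∧ x.2 ≠ x.1 then 1 else 0) := by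
      split_ifs <;> ring
    rw [hA, hB]
    refine h6.trans ?_
    congr 1
    exact sum_congr rfl fun T _ => by rw [h5 T]
  rw [e1, sum_congr rfl e2, sum_sub_distrib, sum_add_distrib]
  congr 1
  · congr 1
    · rw [sum_product]
      refine sum_congr rfl fun p hp => ?_
      rw [sum_eq_single_of_mem p hp]
      · rw [if_pos rfl]
        have := ps_sq (Inn m) p ω
        linear_combination (u p ω * v p ω) * this
      · intro q _ hq
        rw [if_neg hq]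
    · rw [sum_product]
      rfl
  · rw [sum_comm]
    refine sum_congr rfl fun T _ => ?_
    rw [← mul_sum, sum_comm]
    congr 1
    refine sum_congr rfl fun κ _ => ?_
    rw [sum_comm]
    refine sum_congr rfl fun α _ => ?_
    exact box46 u v T κ α ω

/-! ### sums over labels -/

theorem card_Sc46 {m L : ℕ} (T : Finset (Fin (m + 1))) (hT : T ⊆ Inn m) :
    ((Sc L T).card : ℝ) ≤ lg L ^ m := by
  unfold Sc
  rw [Fintype.card_piFinset]
  have h1 : ∀ e : Fin (m + 1), (if e ∈ T then range (Nat.log 2 L + 1) else {0}).card =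
      if e ∈ T then Nat.log 2 L + 1 else 1 := by
    intro e
    by_cases he : e ∈ T <;> simp [he]
  simp_rw [h1]
  rw [prod_ite]
  simp only [prod_const, one_pow, mul_one]
  have h2 : (univ.filter (fun e : Fin (m + 1) => e ∈ T)) = T := by
    ext e
    simp
  rw [h2]
  have h3 : T.card ≤ m := by
    refine (card_le_card hT).trans ?_
    simp [Inn]
  push_cast
  unfold lg
  refine pow_le_pow_right₀ ?_ h3
  have : (0 : ℝ) ≤ (Nat.log 2 L : ℝ) := Nat.cast_nonneg _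
  linarith

theorem card_Lb46 {m L : ℕ} (hL : 1 ≤ L) (T : Finset (Fin (m + 1))) (hT : T ⊆ Inn m) :
    ((Lb L T).card : ℝ) ≤ (L : ℝ) ^ m := by
  unfold Lb
  rw [Fintype.card_piFinset]
  have h1 : ∀ e : Fin (m + 1), (if e ∈ T then (range L).filter (fun t => t % 2 = 0) else
      ({0} : Finset ℕ)).card ≤ if e ∈ T then L else 1 := by
    intro e
    by_cases he : e ∈ T
    · simp only [he, if_true]
      exact (card_filter_le _ _).trans (by simp)
    · simp [he]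
  have h2 : ∏ e : Fin (m + 1), (if e ∈ T then (range L).filter (fun t => t % 2 = 0) else
      ({0} : Finset ℕ)).card ≤ ∏ e : Fin (m + 1), if e ∈ T then L else 1 :=
    prod_le_prod (fun _ _ => Nat.zero_le _) fun e _ => h1 e
  have h3 : (∏ e : Fin (m + 1), if e ∈ T then L else 1) = L ^ T.card := by
    rw [prod_ite]
    simp
  have h4 : T.card ≤ m := by
    refine (card_le_card hT).trans ?_
    simp [Inn]
  rw [h3] at h2
  have h5 : L ^ T.card ≤ L ^ m := Nat.pow_le_pow_right hL h4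
  exact_mod_cast h2.trans h5

/-- the left blocks are disjoint -/
theorem disj46 {m L : ℕ} (T : Finset (Fin (m + 1))) (κ q : Fin (m + 1) → ℕ)
    (v : (Fin (m + 1) → ℕ) → Pt m L → ℝ) (ω : Pt m L) :
    ∑ α ∈ Lb L T, cL T κ α v q ω ^ 2 ≤ v q ω ^ 2 := by
  have h1 : ∀ α ∈ Lb L T, cL T κ α v q ω ^ 2 ≤
      if α = (fun e => if e ∈ T then q e / 2 ^ κ e else 0) then v q ω ^ 2 else 0 := by
    intro α hα
    unfold cL cut
    by_cases h : ∀ e, loL T κ α e ≤ q e ∧ q e < hiL L T κ α e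
    · rw [if_pos h, if_pos]
      funext e
      have he := h e
      unfold loL hiL at he
      by_cases heT : e ∈ T
      · rw [if_pos heT, if_pos heT] at he
        rw [if_pos heT]
        have h2 := lt_of_lt_of_le he.2 (min_le_right _ _)
        symm
        rw [Nat.div_eq_iff (Nat.two_pow_pos _)]
        constructor
        · exact he.1
        · have : (α e + 1) * 2 ^ κ e = α e * 2 ^ κ e + 2 ^ κ e := by ring
          omega
      · rw [if_neg heT]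
        unfold Lb at hα
        rw [Fintype.mem_piFinset] at hα
        have := hα e
        rw [if_neg heT] at this
        exact mem_singleton.1 this
    · rw [if_neg h]
      split_ifs
      · have := sq_nonneg (v q ω)
        linarith [sq_nonneg (v q ω)]
      · simp
  refine (sum_le_sum h1).trans ?_
  rw [sum_ite_eq' (Lb L T)]
  split_ifs
  · exact le_rfl
  · exact sq_nonneg _

theorem rows46 {m L : ℕ} (f : (Fin (m + 1) → ℕ) → ℝ) :
    ∑ j ∈ range L, ∑ p ∈ fr L (Inn m) (fun _ => j), f p = ∑ p ∈ All m L, f p := by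
  unfold All
  have h0 : (univ : Finset (Fin (m + 1))) = insert 0 (Inn m) := by
    unfold Inn
    rw [insert_erase (mem_univ _)]
  rw [h0, sum_fr_insert (by simp [Inn])]
  refine sum_congr rfl fun j _ => ?_
  rw [fr_congr (q' := Function.update (fun _ => 0) 0 j)]
  intro a ha
  have : a = 0 := by
    by_contra h
    exact ha (by simp [Inn, h])
  rw [this]
  simp

/-! ### expectations -/

/-- the coupled term -/
noncomputable def xt46 {m L : ℕ} (ρ : Pt m L → ℝ) (g : ℕ → Pt m L → ℝ)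
    (u v : (Fin (m + 1) → ℕ) → Pt m L → ℝ) (T : Finset (Fin (m + 1))) (κ : Fin (m + 1) → ℕ) : ℝ :=
  ∑ j ∈ range L, ∑ α ∈ Lb L T, Ex ρ (fun ω => g j ω *
    (XX (cR T κ α u) j ω * XX (cL T κ α v) j ω))

theorem ident46 (hD : StDyab) {m L : ℕ} (ρ : Pt m L → ℝ) (g : ℕ → Pt m L → ℝ)
    (u v : (Fin (m + 1) → ℕ) → Pt m L → ℝ) :
    ∑ j ∈ range L, Ex ρ (fun ω => g j ω * (XX u j ω * XX v j ω)) -
      ∑ j ∈ range L, ∑ p ∈ fr L (Inn m) (fun _ => j), Ex ρ (fun ω => g j ω * (u p ω * v p ω)) =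
    ∑ j ∈ range L, Ex ρ (fun ω => g j ω * ne46 u v j ω) -
      ∑ T ∈ (Inn m).powerset.erase ∅, (-1 : ℝ) ^ T.card * ∑ κ ∈ Sc L T, xt46 ρ g u v T κ := by
  have h1 : ∀ j ∈ range L, Ex ρ (fun ω => g j ω * (XX u j ω * XX v j ω)) =
      ∑ p ∈ fr L (Inn m) (fun _ => j), Ex ρ (fun ω => g j ω * (u p ω * v p ω)) +
      Ex ρ (fun ω => g j ω * ne46 u v j ω) -
      ∑ T ∈ (Inn m).powerset.erase ∅, (-1 : ℝ) ^ T.card * ∑ κ ∈ Sc L T, ∑ α ∈ Lb L T,
        Ex ρ (fun ω => g j ω * (XX (cR T κ α u) j ω * XX (cL T κ α v) j ω)) := by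
    intro j hj
    have e1 : (fun ω => g j ω * (XX u j ω * XX v j ω)) = fun ω =>
        (∑ p ∈ fr L (Inn m) (fun _ => j), g j ω * (u p ω * v p ω) + g j ω * ne46 u v j ω) -
        ∑ T ∈ (Inn m).powerset.erase ∅, (-1 : ℝ) ^ T.card * ∑ κ ∈ Sc L T, ∑ α ∈ Lb L T,
          g j ω * (XX (cR T κ α u) j ω * XX (cL T κ α v) j ω) := by
      funext ω
      rw [pw46 hD (mem_range.1 hj) u v ω, mul_sub, mul_add, mul_sum, mul_sum]
      congr 1
      refine sum_congr rfl fun T _ => ?_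
      rw [mul_left_comm, mul_sum]
      congr 1
      refine sum_congr rfl fun κ _ => ?_
      rw [mul_sum]
    rw [e1, Ex_sub, Ex_add, Ex_sum, Ex_sum]
    congr 1
    refine sum_congr rfl fun T _ => ?_
    rw [Ex_smul, Ex_sum]
    congr 1
    refine sum_congr rfl fun κ _ => ?_
    rw [Ex_sum]
  rw [sum_congr rfl h1, sum_sub_distrib, sum_add_distrib]
  have h2 : ∑ j ∈ range L, ∑ T ∈ (Inn m).powerset.erase ∅, (-1 : ℝ) ^ T.card *
      ∑ κ ∈ Sc L T, ∑ α ∈ Lb L T,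
        Ex ρ (fun ω => g j ω * (XX (cR T κ α u) j ω * XX (cL T κ α v) j ω)) =
      ∑ T ∈ (Inn m).powerset.erase ∅, (-1 : ℝ) ^ T.card * ∑ κ ∈ Sc L T, xt46 ρ g u v T κ := by
    rw [sum_comm]
    refine sum_congr rfl fun T _ => ?_
    rw [← mul_sum, sum_comm]
    rfl
  rw [h2]
  ring

theorem cL_ms46 {m L : ℕ} (T : Finset (Fin (m + 1))) (κ α : Fin (m + 1) → ℕ)
    (v : (Fin (m + 1) → ℕ) → Pt m L → ℝ) (hv : ∀ q, Ms q (v q)) (q : Fin (m + 1) → ℕ) :
    Ms q (cL T κ α v q) := by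
  intro ω ω' h
  unfold cL cut
  rw [hv q ω ω' h]

theorem cL_abs46 {m L : ℕ} (T : Finset (Fin (m + 1))) (κ α : Fin (m + 1) → ℕ)
    (v : (Fin (m + 1) → ℕ) → Pt m L → ℝ) {B : ℝ} (hB : 0 ≤ B) (hv : ∀ q ω, |v q ω| ≤ B)
    (q : Fin (m + 1) → ℕ) (ω : Pt m L) : |cL T κ α v q ω| ≤ B := by
  unfold cL cut
  split_ifs
  · exact hv q ω
  · rw [abs_zero]
    exact hB

theorem cL_bd46 {m L N R : ℕ} (T : Finset (Fin (m + 1))) (κ α : Fin (m + 1) → ℕ)
    (v : (Fin (m + 1) → ℕ) → Pt m L → ℝ) (hv : ∀ q ω, R < dst (∑ a, q a) N → v q ω = 0)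
    (q : Fin (m + 1) → ℕ) (ω : Pt m L) (h : R < dst (∑ a, q a) N) : cL T κ α v q ω = 0 := by
  unfold cL cut
  rw [hv q ω h, ite_self]

theorem sq_sum46 {ι : Type} (s : Finset ι) (c f : ι → ℝ) (hc : ∀ i ∈ s, c i ^ 2 = 1) {b X : ℝ}
    (hs : (s.card : ℝ) ≤ b) (hf : ∀ i ∈ s, f i ^ 2 ≤ X) (hX : 0 ≤ X) :
    (∑ i ∈ s, c i * f i) ^ 2 ≤ b * (b * X) := by
  have hb : 0 ≤ b := (Nat.cast_nonneg _).trans hs
  calc (∑ i ∈ s, c i * f i) ^ 2 ≤ s.card * ∑ i ∈ s, (c i * f i) ^ 2 := sq_sum_le_card_mul_sum_sq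
    _ ≤ s.card * ∑ i ∈ s, X := by
        refine mul_le_mul_of_nonneg_left (sum_le_sum fun i hi => ?_) (Nat.cast_nonneg _)
        rw [mul_pow, hc i hi, one_mul]
        exact hf i hi
    _ = s.card * (s.card * X) := by rw [sum_const, nsmul_eq_mul]
    _ ≤ b * (b * X) := by
        refine mul_le_mul hs (mul_le_mul_of_nonneg_right hs hX)
          (mul_nonneg (Nat.cast_nonneg _) hX) hb

theorem cross_46 (hD : StDyab) (hX : StTopx) (hN : StNeq) (hQ : StQis) : StCross := by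
  intro m hm
  obtain ⟨e, he⟩ := hQ m hm
  obtain ⟨CX, hCX1, hCX⟩ := hX m hm
  obtain ⟨CN, hCN1, hCN⟩ := hN m hm
  refine ⟨e + (m + 1), fun n => ?_⟩
  obtain ⟨CQ, hCQ1, hCQ⟩ := he n
  have hCpos : (0 : ℝ) ≤ 4 ^ m * CX * CQ := by positivity
  refine ⟨2 * CN + 2 * (4 ^ m * CX * CQ), by linarith, ?_⟩
  intro L N R k lam β S δ A g u v hL hk hlam hβ hS hδ hu hv hT hA1 hA2 hA3 hA4
  set ρ := qq (tg lam g u) with hρ
  have hlaw : Law k ρ := hT.law
  have hA : 1 ≤ A := by linarith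
  have hA0 : 0 ≤ A ^ m := by positivity
  set K := k + Real.log (L + 1) with hK
  have hlog : 0 ≤ Real.log ((L : ℝ) + 1) := Real.log_nonneg (by
    have : (0 : ℝ) ≤ L := Nat.cast_nonneg L
    linarith)
  have hK0 : 0 ≤ K := by
    rw [hK]
    linarith
  have hg01 : ∀ j ω, 0 ≤ g j ω ∧ g j ω ≤ 1 := by
    intro j ω
    rcases hT.gate.zo j ω with h | h <;> rw [h] <;> norm_num
  set E2 := ∑ p ∈ All m L, Ex ρ (fun ω => v p ω ^ 2) with hE2
  have hE20 : 0 ≤ E2 := sum_nonneg fun p _ => Ex_nonneg hlaw fun ω => sq_nonneg _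
  set N0 : ℝ := (1 + lam ^ 2 + lam ^ 2 * β) * ((L : ℝ) + 1) ^ e * (δ + 1 / (L + 1) ^ n) with hN0
  set N1 : ℝ := (1 + lam ^ 2 + lam ^ 2 * β) * ((L : ℝ) + 1) ^ (e + (m + 1)) *
    (δ + 1 / (L + 1) ^ n) with hN1
  have hN00 : 0 ≤ N0 := by positivity
  have hN10 : 0 ≤ N1 := by positivity
  have hN01 : (L : ℝ) ^ (m + 1) * N0 ≤ N1 := by
    have h1 : (L : ℝ) ^ (m + 1) ≤ ((L : ℝ) + 1) ^ (m + 1) :=
      pow_le_pow_left₀ (Nat.cast_nonneg L) (by linarith) _
    refine (mul_le_mul_of_nonneg_right h1 hN00).trans (le_of_eq ?_)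
    rw [hN0, hN1, pow_add ((L : ℝ) + 1) e (m + 1)]
    ring
  -- the coupled terms
  set Xm : ℝ := CX * K * (β * (L : ℝ) ^ (m - 1)) * (CQ * A ^ m * (E2 + N1)) with hXm
  have hXm0 : 0 ≤ Xm := by positivity
  have hXT : ∀ T ∈ (Inn m).powerset.erase ∅, ∀ κ ∈ Sc L T, xt46 ρ g u v T κ ^ 2 ≤ Xm := by
    intro T hTm κ hκ
    rw [mem_erase, mem_powerset] at hTm
    obtain ⟨c, hc⟩ := nonempty_iff_ne_empty.2 hTm.1
    have h1 := hCX L k β ρ g u v T κ c hL (by linarith) hβ hlaw hT.gate hu.dep hv.dep hT.nat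
      hTm.2 hc hκ
    have h2 : ∑ j ∈ range L, ∑ α ∈ Lb L T, Ex ρ (fun ω => g j ω * XX (cL T κ α v) j ω ^ 2) ≤
        CQ * A ^ m * (E2 + N1) := by
      have h3 : ∀ j ∈ range L, ∀ α ∈ Lb L T,
          Ex ρ (fun ω => g j ω * XX (cL T κ α v) j ω ^ 2) ≤
          CQ * A ^ m * (∑ q ∈ fr L (Inn m) (fun _ => j), Ex ρ (fun ω => cL T κ α v q ω ^ 2) +
            N0) := by
        intro j hj α _
        have h4 := hCQ L N R j k lam β S δ A 1 g u (cL T κ α v) hL (mem_range.1 hj) hk hlam hβ hS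
          hδ zero_le_one hu hT (cL_ms46 T κ α v hv.dep) (cL_abs46 T κ α v zero_le_one hv.abs)
          (cL_bd46 T κ α v hv.bd) hA1 hA2 hA3 hA4
        have h5 : Ex ρ (fun ω => g j ω * XX (cL T κ α v) j ω ^ 2) ≤
            Ex ρ (fun ω => XX (cL T κ α v) j ω ^ 2) := by
          refine Ex_mono hlaw fun ω => ?_
          have := mul_le_mul_of_nonneg_right (hg01 j ω).2 (sq_nonneg (XX (cL T κ α v) j ω))
          linarith
        refine h5.trans (h4.trans (le_of_eq ?_))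
        rw [hN0]
        ring
      have h6 : ∀ j ∈ range L, ∑ α ∈ Lb L T, Ex ρ (fun ω => g j ω * XX (cL T κ α v) j ω ^ 2) ≤
          CQ * A ^ m * (∑ q ∈ fr L (Inn m) (fun _ => j), Ex ρ (fun ω => v q ω ^ 2) +
            (L : ℝ) ^ m * N0) := by
        intro j hj
        refine (sum_le_sum fun α hα => h3 j hj α hα).trans ?_
        rw [← mul_sum]
        refine mul_le_mul_of_nonneg_left ?_ (by positivity)
        rw [sum_add_distrib, sum_const, nsmul_eq_mul]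
        refine add_le_add ?_ (mul_le_mul_of_nonneg_right (card_Lb46 hL T hTm.2) hN00)
        rw [sum_comm]
        refine sum_le_sum fun q _ => ?_
        rw [← Ex_sum]
        exact Ex_mono hlaw fun ω => disj46 T κ q v ω
      refine (sum_le_sum h6).trans ?_
      rw [← mul_sum]
      refine mul_le_mul_of_nonneg_left ?_ (by positivity)
      rw [sum_add_distrib, sum_const, nsmul_eq_mul, card_range, rows46]
      refine add_le_add le_rfl ?_
      refine le_trans (le_of_eq ?_) hN01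
      ring
    refine h1.trans ?_
    rw [hXm]
    exact mul_le_mul_of_nonneg_left h2 (by positivity)
  have hlg0 : 0 ≤ lg L := by
    unfold lg
    positivity
  have hQ2 : (∑ T ∈ (Inn m).powerset.erase ∅, (-1 : ℝ) ^ T.card *
      ∑ κ ∈ Sc L T, xt46 ρ g u v T κ) ^ 2 ≤ 2 ^ m * (2 ^ m * (lg L ^ m * (lg L ^ m * Xm))) := by
    refine sq_sum46 _ _ _ ?_ ?_ ?_ (by positivity)
    · intro T _
      rw [← pow_mul, mul_comm, pow_mul]
      norm_num
    · have h1 : ((Inn m).powerset.erase ∅).card ≤ 2 ^ m := by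
        refine (card_le_card (erase_subset _ _)).trans ?_
        rw [card_powerset]
        simp [Inn]
      exact_mod_cast h1
    · intro T hTm
      have hT' : T ⊆ Inn m := by
        rw [mem_erase, mem_powerset] at hTm
        exact hTm.2
      have := sq_sum46 (Sc L T) (fun _ => 1) (fun κ => xt46 ρ g u v T κ) (by simp)
        (card_Sc46 T hT') (hXT T hTm) hXm0
      simpa using this
  -- the near pairs
  have hP2 : (∑ j ∈ range L, Ex ρ (fun ω => g j ω * ne46 u v j ω)) ^ 2 ≤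
      CN * K * (((R : ℝ) + 1) ^ (2 * m + 4) * (L : ℝ) ^ (m - 1)) * E2 := by
    have h1 := hCN L N R k ρ g u v hL (by linarith) hlaw hT.gate hu hv.dep hv.bd
    refine h1.trans ?_
    refine mul_le_mul_of_nonneg_left ?_ (by positivity)
    rw [hE2, ← rows46]
    refine sum_le_sum fun j _ => sum_le_sum fun p _ => ?_
    refine Ex_mono hlaw fun ω => ?_
    have := mul_le_mul_of_nonneg_right (hg01 j ω).2 (sq_nonneg (v p ω))
    linarith
  rw [ident46 hD ρ g u v]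
  set P := ∑ j ∈ range L, Ex ρ (fun ω => g j ω * ne46 u v j ω) with hP
  set Q := ∑ T ∈ (Inn m).powerset.erase ∅, (-1 : ℝ) ^ T.card *
      ∑ κ ∈ Sc L T, xt46 ρ g u v T κ with hQd
  have h1 : (P - Q) ^ 2 ≤ 2 * P ^ 2 + 2 * Q ^ 2 := by
    have e1 : (P - Q) ^ 2 = 2 * P ^ 2 + 2 * Q ^ 2 - (P + Q) ^ 2 := by ring
    rw [e1]
    exact sub_le_self _ (sq_nonneg _)
  have h2 : 2 * P ^ 2 ≤ 2 * (CN * K * (((R : ℝ) + 1) ^ (2 * m + 4) * (L : ℝ) ^ (m - 1)) *
      (E2 + N1)) := by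
    refine mul_le_mul_of_nonneg_left (hP2.trans ?_) (by norm_num)
    exact mul_le_mul_of_nonneg_left (by linarith) (by positivity)
  have h4m : (4 : ℝ) ^ m = 2 ^ m * 2 ^ m := by
    rw [← mul_pow]
    norm_num
  have hlg2 : lg L ^ (2 * m) = lg L ^ m * lg L ^ m := by
    rw [two_mul, pow_add]
  set r : ℝ := ((R : ℝ) + 1) ^ (2 * m + 4) with hr
  set Z : ℝ := E2 + N1 with hZ
  set W : ℝ := K * (L : ℝ) ^ (m - 1) with hW
  have hr0 : 0 ≤ r := by positivity
  have hZ0 : 0 ≤ Z := by positivity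
  have hW0 : 0 ≤ W := by positivity
  set a : ℝ := β * lg L ^ (2 * m) * A ^ m with ha
  have ha0 : 0 ≤ a := by positivity
  have h3 : 2 * Q ^ 2 ≤ 2 * (4 ^ m * CX * CQ) * (W * a * Z) := by
    refine (mul_le_mul_of_nonneg_left hQ2 (by norm_num : (0 : ℝ) ≤ 2)).trans (le_of_eq ?_)
    rw [hXm, h4m, ha, hW, hlg2]
    ring
  have h2' : 2 * P ^ 2 ≤ 2 * CN * (W * r * Z) := by
    refine h2.trans (le_of_eq ?_)
    rw [hW]
    ring
  have h5 : 0 ≤ CN * (W * a * Z) := by positivity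
  have h6 : 0 ≤ (4 ^ m * CX * CQ) * (W * r * Z) := by positivity
  have h7 : (2 * CN + 2 * (4 ^ m * CX * CQ)) * (W * (a + r) * Z) =
      (2 * CN * (W * r * Z) + 2 * (4 ^ m * CX * CQ) * (W * a * Z)) +
      (2 * (CN * (W * a * Z)) + 2 * ((4 ^ m * CX * CQ) * (W * r * Z))) := by ring
  calc (P - Q) ^ 2 ≤ 2 * CN * (W * r * Z) + 2 * (4 ^ m * CX * CQ) * (W * a * Z) :=
        h1.trans (add_le_add h2' h3)
    _ ≤ (2 * CN + 2 * (4 ^ m * CX * CQ)) * (W * (a + r) * Z) := by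
        rw [h7]
        exact le_add_of_nonneg_right (add_nonneg (mul_nonneg (by norm_num) h5)
          (mul_nonneg (by norm_num) h6))
    _ = (2 * CN + 2 * (4 ^ m * CX * CQ)) * K * (L : ℝ) ^ (m - 1) * (a + r) * Z := by
        rw [hW]
        ring

end Pool.Agent.SHD
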