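import Pool.Agent.Lib.MP_a7b2aa_an.SHD.Stmts4_25

/-!
SHD4, module DYAB (helper25): dyadic decomposition of the couplings.
-/

set_option autoImplicit false

namespace Pool.Agent.SHD

open Finset Pool.Agent.SB3 Pool.Agent.SBT Pool.Agent.SBD

/-- one dimension -/
theorem dy1_25 (L p q : ℕ) (hp : p < L) (hq : q < L) :
    (if p < q then (1 : ℝ) else 0) = ∑ κ ∈ range (Nat.log 2 L + 1),
      ∑ a ∈ (range L).filter (fun t => t % 2 = 0),
        if (a * 2 ^ κ ≤ p ∧ p < min L ((a + 1) * 2 ^ κ)) ∧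
          ((a + 1) * 2 ^ κ ≤ q ∧ q < min L ((a + 2) * 2 ^ κ)) then 1 else 0 := by
  classical
  -- the inner sum
  have h1 : ∀ κ, ∑ a ∈ (range L).filter (fun t => t % 2 = 0),
      (if (a * 2 ^ κ ≤ p ∧ p < min L ((a + 1) * 2 ^ κ)) ∧
        ((a + 1) * 2 ^ κ ≤ q ∧ q < min L ((a + 2) * 2 ^ κ)) then (1 : ℝ) else 0) =
      if (p / 2 ^ κ) % 2 = 0 ∧ q / 2 ^ κ = p / 2 ^ κ + 1 then 1 else 0 := by
    intro κ
    have hpos : 0 < 2 ^ κ := by positivity
    by_cases hc : (p / 2 ^ κ) % 2 = 0 ∧ q / 2 ^ κ = p / 2 ^ κ + 1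
    · rw [if_pos hc, sum_eq_single (p / 2 ^ κ)]
      · rw [if_pos]
        refine ⟨⟨Nat.div_mul_le_self _ _, lt_min hp ?_⟩, ?_, lt_min hq ?_⟩
        · exact (Nat.div_lt_iff_lt_mul hpos).1 (Nat.lt_succ_self _)
        · rw [← hc.2]
          exact Nat.div_mul_le_self _ _
        · exact (Nat.div_lt_iff_lt_mul hpos).1 (by omega)
      · intro a _ ha
        rw [if_neg]
        rintro ⟨⟨h1, h2⟩, _⟩
        exact ha (Nat.div_eq_of_lt_le h1 (lt_of_lt_of_le h2 (min_le_right _ _))).symm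
      · intro hn
        exfalso
        apply hn
        rw [mem_filter, mem_range]
        exact ⟨lt_of_le_of_lt (Nat.div_le_self _ _) hp, hc.1⟩
    · rw [if_neg hc]
      refine sum_eq_zero fun a ha => ?_
      rw [mem_filter] at ha
      rw [if_neg]
      rintro ⟨⟨h1, h2⟩, h3, h4⟩
      have e1 : p / 2 ^ κ = a := Nat.div_eq_of_lt_le h1 (lt_of_lt_of_le h2 (min_le_right _ _))
      have e2 : q / 2 ^ κ = a + 1 := Nat.div_eq_of_lt_le h3 (lt_of_lt_of_le h4 (min_le_right _ _))
      exact hc ⟨by rw [e1]; exact ha.2, by rw [e1, e2]⟩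
  rw [sum_congr rfl fun κ _ => h1 κ]
  have hdd : ∀ x κ : ℕ, x / 2 ^ (κ + 1) = x / 2 ^ κ / 2 := fun x κ => by
    rw [pow_succ, Nat.div_div_eq_div_mul]
  -- general number of scales
  have h2 : ∀ K, p / 2 ^ K = q / 2 ^ K →
      (if p < q then (1 : ℝ) else 0) = ∑ κ ∈ range K,
        if (p / 2 ^ κ) % 2 = 0 ∧ q / 2 ^ κ = p / 2 ^ κ + 1 then 1 else 0 := by
    intro K hK
    have h3 : ∀ j ≤ K, ∑ κ ∈ Finset.Ico (K - j) K,
        (if (p / 2 ^ κ) % 2 = 0 ∧ q / 2 ^ κ = p / 2 ^ κ + 1 then (1 : ℝ) else 0) =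
        if p / 2 ^ (K - j) < q / 2 ^ (K - j) then 1 else 0 := by
      intro j
      induction j with
      | zero =>
        intro _
        rw [Nat.sub_zero, Finset.Ico_self, sum_empty, hK, if_neg (lt_irrefl _)]
      | succ j ih =>
        intro hj
        have e1 : K - j = K - (j + 1) + 1 := by omega
        rw [← Finset.sum_Ioo_add_eq_sum_Ico (by omega)]
        have e2 : Finset.Ioo (K - (j + 1)) K = Finset.Ico (K - j) K := by
          ext x
          simp only [Finset.mem_Ioo, Finset.mem_Ico]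
          omega
        rw [e2, ih (by omega), e1, hdd p, hdd q]
        set x := p / 2 ^ (K - (j + 1))
        set y := q / 2 ^ (K - (j + 1))
        by_cases hxy : x < y
        · rw [if_pos hxy]
          by_cases h5 : x / 2 < y / 2
          · rw [if_pos h5, if_neg (by omega), add_zero]
          · rw [if_neg h5, if_pos (by omega), zero_add]
        · rw [if_neg hxy, if_neg (by omega), if_neg (by omega), add_zero]
    have h4 := h3 K le_rfl
    rw [Nat.sub_self] at h4
    rw [Finset.range_eq_Ico, h4]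
    simp
  refine h2 _ ?_
  have h5 : L < 2 ^ (Nat.log 2 L + 1) := Nat.lt_pow_succ_log_self (by norm_num) L
  rw [Nat.div_eq_of_lt (by omega), Nat.div_eq_of_lt (by omega)]

theorem dyab_25 : StDyab := by
  classical
  intro m L T p q hp hq
  -- product form
  set F : Fin (m + 1) → ℕ → ℕ → ℝ := fun e k a =>
    if e ∈ T then (if (a * 2 ^ k ≤ p e ∧ p e < min L ((a + 1) * 2 ^ k)) ∧
      ((a + 1) * 2 ^ k ≤ q e ∧ q e < min L ((a + 2) * 2 ^ k)) then 1 else 0) else 1 with hF
  have h1 : ∀ κ α : Fin (m + 1) → ℕ,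
      (if (∀ e, loL T κ α e ≤ p e ∧ p e < hiL L T κ α e) ∧
        (∀ e, loR T κ α e ≤ q e ∧ q e < hiR L T κ α e) then (1 : ℝ) else 0) =
      ∏ e, F e (κ e) (α e) := by
    intro κ α
    have h2 : ∀ e, F e (κ e) (α e) = if (loL T κ α e ≤ p e ∧ p e < hiL L T κ α e) ∧
        (loR T κ α e ≤ q e ∧ q e < hiR L T κ α e) then 1 else 0 := by
      intro e
      simp only [hF]
      unfold loL hiL loR hiR
      by_cases he : e ∈ T
      · simp only [if_pos he]
      · simp only [if_neg he]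
        rw [if_pos]
        exact ⟨⟨Nat.zero_le _, hp e⟩, Nat.zero_le _, hq e⟩
    rw [prod_congr rfl fun e _ => h2 e, Finset.prod_ite_zero]
    · simp only [prod_const_one]
      refine if_congr ?_ rfl rfl
      constructor
      · rintro ⟨h3, h4⟩ e _
        exact ⟨h3 e, h4 e⟩
      · intro h
        exact ⟨fun e => (h e (mem_univ e)).1, fun e => (h e (mem_univ e)).2⟩
  have h3 : ∀ κ ∈ Sc L T, ∑ α ∈ Lb L T,
      (if (∀ e, loL T κ α e ≤ p e ∧ p e < hiL L T κ α e) ∧
        (∀ e, loR T κ α e ≤ q e ∧ q e < hiR L T κ α e) then (1 : ℝ) else 0) =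
      ∏ e, ∑ a ∈ (if e ∈ T then (range L).filter (fun t => t % 2 = 0) else {0}),
        F e (κ e) a := by
    intro κ _
    rw [sum_congr rfl fun α _ => h1 κ α]
    unfold Lb
    rw [← Finset.prod_univ_sum]
  rw [sum_congr rfl h3]
  unfold Sc
  rw [← Finset.prod_univ_sum (t := fun e => if e ∈ T then range (Nat.log 2 L + 1) else {0})
    (f := fun e k => ∑ a ∈ (if e ∈ T then (range L).filter (fun t => t % 2 = 0) else {0}),
      F e k a)]
  have h4 : ∀ e, (∑ k ∈ (if e ∈ T then range (Nat.log 2 L + 1) else {0}),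
      ∑ a ∈ (if e ∈ T then (range L).filter (fun t => t % 2 = 0) else {0}), F e k a) =
      if e ∈ T → p e < q e then 1 else 0 := by
    intro e
    by_cases he : e ∈ T
    · simp only [if_pos he, hF]
      rw [← dy1_25 L (p e) (q e) (hp e) (hq e)]
      simp [he]
    · simp only [if_neg he, hF, sum_singleton]
      simp [he]
  rw [prod_congr rfl fun e _ => h4 e, Finset.prod_ite_zero]
  simp only [prod_const_one]
  refine if_congr ?_ rfl rfl
  constructor
  · intro h e _ he
    exact h e he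
  · intro h e he
    exact h e (mem_univ e) he

end Pool.Agent.SHD
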