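import Pool.Agent.Lib.MP_a7b2aa_an.SHD.Stmts65
import Pool.Agent.Lib.MP_a7b2aa_an.SBD.EEB36

/-!
SHD, module GRIDK: the theorem on the grid, real parts of the interior blocks.
-/

set_option autoImplicit false

namespace Pool.Agent.SHD

open Finset Pool.Agent.SB3 Pool.Agent.SBT Pool.Agent.SBD

theorem insert_Inn33 (m : ℕ) : insert (0 : Fin (m + 1)) (Inn m) = Finset.univ := by
  unfold Inn
  exact Finset.insert_erase (Finset.mem_univ 0)

/-- `HH` as one sum over all cells -/
theorem HH_eq33 {m L : ℕ} (v : (Fin (m + 1) → ℕ) → Pt m L → ℝ) (ω : Pt m L) :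
    HH v ω = ∑ q ∈ All m L, ps Finset.univ q ω * v q ω := by
  have h0 : (0 : Fin (m + 1)) ∉ Inn m := by
    unfold Inn
    exact Finset.notMem_erase 0 _
  unfold HH All XX
  rw [← insert_Inn33 m, sum_fr_insert h0]
  refine Finset.sum_congr rfl fun i _ => ?_
  rw [Finset.mul_sum]
  have h1 : fr L (Inn m) (fun _ => i) =
      fr L (Inn m) (Function.update (fun _ => 0) (0 : Fin (m + 1)) i) := by
    refine fr_congr fun a ha => ?_
    have : a = 0 := by
      by_contra hne
      exact ha (Finset.mem_erase.2 ⟨hne, Finset.mem_univ a⟩)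
    subst this
    simp
  rw [h1]
  refine Finset.sum_congr rfl fun q hq => ?_
  rw [mem_fr] at hq
  have h2 : q 0 = i := by
    have := hq.2 0 h0
    simpa using this
  rw [ps_insert h0, h2, mul_assoc]

theorem kap_pos33 {d : ℕ} (N : ℕ) (q : Fin d → ℕ) : 0 < kap N q := by
  unfold kap
  positivity

theorem cf_sum33 {m L : ℕ} {ι : Type*} (s : Finset ι) (φ : ι → Pt m L → ℝ)
    (q : Fin (m + 1) → ℕ) (ω : Pt m L) :
    cf (fun ω => ∑ l ∈ s, φ l ω) q ω = ∑ l ∈ s, cf (φ l) q ω := by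
  unfold SBD.cf EE
  rw [← Finset.sum_div]
  congr 1
  rw [Finset.sum_comm]
  refine Finset.sum_congr rfl fun ω' _ => ?_
  split_ifs
  · exact Finset.mul_sum _ _ _
  · simp

theorem gridk_33 (hH : StHaarK) (hC : StCfeK) (hB : StBlkb) (hN : StNumK) (hG : StBgb) :
    StGridK := by
  intro m ε hm hε
  obtain ⟨C1, hC1, hH⟩ := hH m ε hm hε
  obtain ⟨C2, hC2, hB⟩ := hB m
  obtain ⟨C3, hC3, hN⟩ := hN (m + 1)
  set p : ℝ := (m : ℝ) / 2 - 1 / (2 * ((m : ℝ) + 1)) + ε with hp
  have hm' : (1 : ℝ) ≤ m := by exact_mod_cast hm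
  have hp0 : 0 ≤ p := by
    have h1 : 1 / (2 * ((m : ℝ) + 1)) ≤ 1 / 2 := by
      apply one_div_le_one_div_of_le (by norm_num)
      nlinarith
    rw [hp]
    linarith
  refine ⟨C1 * C2 * C3 * 2 ^ p, by positivity, ?_⟩
  intro n c A M hn hA hM hbl hsum
  have hEeb : Eeb m (2 * n + 2) := eeb_36 m (2 * n + 2)
  have hn' : (1 : ℝ) ≤ n := by exact_mod_cast hn
  -- facts on the positions
  have hpos : ∀ l ∈ inl (m + 1) n, (∀ a, 1 ≤ 2 * l a) ∧ ∀ a, 2 * l a + 2 ≤ 2 * n + 2 := by
    intro l hl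
    unfold inl at hl
    rw [Finset.mem_filter, Finset.Nat.mem_antidiagonalTuple] at hl
    refine ⟨fun a => ?_, fun a => ?_⟩
    · have := hl.2 a
      omega
    · have := Finset.single_le_sum (f := l) (fun i _ => Nat.zero_le _) (Finset.mem_univ a)
      omega
  set H : Pt m (2 * n + 2) → ℝ := fun ω => ∑ l ∈ inl (m + 1) n, bg c l ω with hHdef
  have hcf : ∀ q : Fin (m + 1) → ℕ, (∀ a, q a < 2 * n + 2) → ∀ ω,
      |cf H q ω| ≤ C2 * C3 * A * kap (2 * n) q := by
    intro q hq ω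
    rw [hHdef, cf_sum33]
    refine (Finset.abs_sum_le_sum_abs _ _).trans ?_
    have h1 : ∀ l ∈ inl (m + 1) n, |cf (bg c l) q ω| ≤
        C2 * (∏ a, (1 / 2 : ℝ) ^ dst (q a) (2 * l a)) * A := by
      intro l hl
      exact hB (2 * n + 2) (fun a => 2 * l a) q (bg c l) A (hpos l hl).1 (hpos l hl).2 hq
        (hG m n (2 * n + 2) c l hl le_rfl).1 (hbl l hl) ω
    refine (Finset.sum_le_sum h1).trans ?_
    have h2 : ∑ l ∈ inl (m + 1) n, C2 * (∏ a, (1 / 2 : ℝ) ^ dst (q a) (2 * l a)) * A =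
        C2 * A * ∑ l ∈ inl (m + 1) n, ∏ a, (1 / 2 : ℝ) ^ dst (q a) (2 * l a) := by
      rw [Finset.mul_sum]
      refine Finset.sum_congr rfl fun l _ => ?_
      ring
    rw [h2]
    have h3 : ∑ l ∈ inl (m + 1) n, ∏ a, (1 / 2 : ℝ) ^ dst (q a) (2 * l a) ≤
        C3 * kap (2 * n) q := by
      refine le_trans ?_ (hN n q)
      unfold inl
      exact Finset.sum_le_sum_of_subset_of_nonneg (Finset.filter_subset _ _)
        fun l _ _ => by positivity
    calc C2 * A * ∑ l ∈ inl (m + 1) n, ∏ a, (1 / 2 : ℝ) ^ dst (q a) (2 * l a)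
        ≤ C2 * A * (C3 * kap (2 * n) q) := by gcongr
      _ = C2 * C3 * A * kap (2 * n) q := by ring
  -- the case A = 0
  rcases hA.eq_or_lt with hA0 | hA0
  · have h1 : ∀ ω, H ω = 0 := by
      intro ω
      rw [hHdef]
      refine Finset.sum_eq_zero fun l hl => ?_
      have := hbl l hl ω
      rw [← hA0] at this
      exact abs_nonpos_iff.1 this
    have h2 : (fun ω : Pt m (2 * n + 2) => H ω ^ 2) = fun _ => 0 := by
      funext ω
      rw [h1]
      ring
    have h3 : Av (fun ω : Pt m (2 * n + 2) => H ω ^ 2) = 0 := by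
      rw [h2, Av_const]
    have h4 : Av (fun ω : Pt m (2 * n + 2) => (∑ l ∈ inl (m + 1) n, bg c l ω) ^ 2) = 0 := h3
    rw [h4]
    positivity
  set B : ℝ := C2 * C3 * A with hBdef
  have hB0 : 0 < B := by positivity
  classical
  set v : (Fin (m + 1) → ℕ) → Pt m (2 * n + 2) → ℝ := fun q ω =>
    if ∀ a, q a < 2 * n + 2 then cf H q ω / B else 0 with hv
  have hArK : ArK (2 * n) v := by
    constructor
    · intro q ω
      rw [hv]
      dsimp only
      split_ifs with h
      · rw [abs_div, abs_of_pos hB0, div_le_iff₀ hB0, mul_comm (kap _ _)]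
        exact hcf q h ω
      · rw [abs_zero]
        exact (kap_pos33 _ _).le
    · intro q
      rw [hv]
      dsimp only
      by_cases h : ∀ a, q a < 2 * n + 2
      · simp only [h, implies_true, if_true]
        exact Ms.comp (hEeb.ms q _) (fun x => x / B)
      · simp only [h, if_false]
        exact Ms.cst q 0
  have hmem : ∀ q ∈ All m (2 * n + 2), ∀ a, q a < 2 * n + 2 := by
    intro q hq a
    unfold All at hq
    rw [mem_fr] at hq
    exact hq.1 a (Finset.mem_univ a)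
  have hEE0 : ∀ a ω, EE (one (2 * n + 2) a 0) H ω = 0 := by
    intro a ω
    have h1 : EE (one (2 * n + 2) a 0) H ω =
        ∑ l ∈ inl (m + 1) n, EE (one (2 * n + 2) a 0) (bg c l) ω := by
      rw [hHdef]
      unfold EE
      rw [← Finset.sum_div]
      congr 1
      rw [Finset.sum_comm]
      refine Finset.sum_congr rfl fun ω' _ => ?_
      split_ifs
      · rfl
      · simp
    rw [h1]
    exact Finset.sum_eq_zero fun l hl => (hG m n (2 * n + 2) c l hl le_rfl).2 a ω
  obtain ⟨hexp, hpars⟩ := hC m (2 * n + 2) H hEE0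
  have hHH : ∀ ω, HH v ω = H ω / B := by
    intro ω
    rw [HH_eq33, hexp ω, Finset.sum_div]
    refine Finset.sum_congr rfl fun q hq => ?_
    rw [hv]
    dsimp only
    rw [if_pos (hmem q hq), mul_div_assoc]
  have hmass : mass v = Av (fun ω => H ω ^ 2) / B ^ 2 := by
    rw [hpars, Finset.sum_div]
    unfold mass
    refine Finset.sum_congr rfl fun q hq => ?_
    have h1 : (fun ω => v q ω ^ 2) = fun ω => (1 / B ^ 2) * (cf H q ω) ^ 2 := by
      funext ω
      rw [hv]
      dsimp only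
      rw [if_pos (hmem q hq), div_pow]
      ring
    rw [h1, Av_smul]
    ring
  have hAvH : Av (fun ω => H ω ^ 2) ≤ M ^ 2 := by
    have h1 : Av (fun ω : Pt m (2 * n + 2) => H ω ^ 2) ≤
        Av (fun _ : Pt m (2 * n + 2) => M ^ 2) := by
      refine Av_mono fun ω => ?_
      rw [← sq_abs]
      exact pow_le_pow_left₀ (abs_nonneg _) (hsum ω) 2
    rwa [Av_const] at h1
  have hfin := hH (2 * n + 2) (2 * n) (M / B) v (by omega) hArK (by positivity)
    (fun ω => by
      rw [hHH, abs_div, abs_of_pos hB0]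
      gcongr
      exact hsum ω)
    (by
      rw [hmass, div_pow]
      gcongr)
  rw [hmass] at hfin
  rw [div_le_iff₀ (by positivity)] at hfin
  have hL : (((2 * n + 2 : ℕ) : ℝ)) ^ p ≤ 2 ^ p * (((2 * n : ℕ) : ℝ)) ^ p := by
    rw [← Real.mul_rpow (by norm_num) (by positivity)]
    refine Real.rpow_le_rpow (by positivity) ?_ hp0
    push_cast
    linarith
  calc Av (fun ω : Pt m (2 * n + 2) => (∑ l ∈ inl (m + 1) n, bg c l ω) ^ 2)
      = Av (fun ω => H ω ^ 2) := rfl
    _ ≤ C1 * ((2 * n + 2 : ℕ) : ℝ) ^ p * (M / B) * B ^ 2 := hfin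
    _ = C1 * ((2 * n + 2 : ℕ) : ℝ) ^ p * M * B := by
        field_simp
    _ ≤ C1 * (2 ^ p * ((2 * n : ℕ) : ℝ) ^ p) * M * B := by
        gcongr
    _ = C1 * C2 * C3 * 2 ^ p * ((2 * n : ℕ) : ℝ) ^ p * A * M := by
        rw [hBdef]
        ring

end Pool.Agent.SHD
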