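import Pool.Agent.Lib.MP_a7b2aa_an.SHD.Stmts2_65
import Pool.Agent.Lib.MP_a7b2aa_an.SHD.GridK33

/-!
SHD2, module HAARG (helper33): from band arrays to all arrays, every exponent.
-/

set_option autoImplicit false

namespace Pool.Agent.SHD

open Finset Pool.Agent.SB3 Pool.Agent.SBT Pool.Agent.SBD

theorem card_All33 (m L : ℕ) : (All m L).card = L ^ (m + 1) := by
  unfold All
  rw [card_fr, card_univ, Fintype.card_fin]

/-- the weights outside of the band -/
theorem tail33 {m L N R : ℕ} (hR : ((m : ℝ) + 1) / Real.log (4 / 3) * Real.log (L + 1) ≤ R) :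
    ∑ q ∈ All m L, (if dst (∑ a, q a) N ≤ R then 0 else kap N q) ≤ 1 := by
  have hl : 0 < Real.log (4 / 3) := Real.log_pos (by norm_num)
  have hL0 : (0 : ℝ) < (L : ℝ) + 1 := by positivity
  have h1 : ((3 : ℝ) / 4) ^ R ≤ 1 / ((L : ℝ) + 1) ^ (m + 1) := by
    rw [div_mul_eq_mul_div, div_le_iff₀ hl] at hR
    have e1 : ((3 : ℝ) / 4) ^ R = Real.exp (-(R * Real.log (4 / 3))) := by
      rw [← Real.rpow_natCast, Real.rpow_def_of_pos (by norm_num)]
      congr 1
      have : Real.log (3 / 4) = - Real.log (4 / 3) := by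
        rw [← Real.log_inv]
        norm_num
      rw [this]
      ring
    have e2 : 1 / ((L : ℝ) + 1) ^ (m + 1) = Real.exp (-(((m : ℝ) + 1) * Real.log (L + 1))) := by
      rw [Real.exp_neg, one_div]
      congr 1
      rw [mul_comm, Real.exp_mul, Real.exp_log hL0]
      have : ((m : ℝ) + 1) = ((m + 1 : ℕ) : ℝ) := by push_cast; ring
      rw [this, Real.rpow_natCast]
    rw [e1, e2]
    exact Real.exp_le_exp.2 (by linarith)
  calc ∑ q ∈ All m L, (if dst (∑ a, q a) N ≤ R then 0 else kap N q)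
      ≤ ∑ _q ∈ All m L, 1 / ((L : ℝ) + 1) ^ (m + 1) := by
        refine sum_le_sum fun q _ => ?_
        split_ifs with h
        · positivity
        · refine le_trans ?_ h1
          unfold kap
          exact pow_le_pow_of_le_one (by norm_num) (by norm_num) (not_le.1 h).le
    _ = ((L : ℝ) / ((L : ℝ) + 1)) ^ (m + 1) := by
        rw [sum_const, card_All33, nsmul_eq_mul, div_pow]
        push_cast
        ring
    _ ≤ 1 := by
        refine pow_le_one₀ (by positivity) ?_
        rw [div_le_one hL0]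
        linarith

/-- the theorem for band arrays implies the theorem for all arrays, exponent `p ≥ 0` -/
theorem haargen_33 (m : ℕ) (p : ℝ) (hp0 : 0 ≤ p)
    (hB : ∀ K : ℝ, 0 < K → ∃ C : ℝ, 0 < C ∧
      ∀ (L N R : ℕ) (M : ℝ) (v : (Fin (m + 1) → ℕ) → Pt m L → ℝ), 1 ≤ L →
        (R : ℝ) ≤ K * Real.log (L + 1) + 1 → ArB N R v → 0 ≤ M →
        (∀ ω, |HH v ω| ≤ M) → mass v ≤ M ^ 2 → mass v ≤ C * (L : ℝ) ^ p * M) :
    ∃ C : ℝ, 0 < C ∧ ∀ (L N : ℕ) (M : ℝ) (v : (Fin (m + 1) → ℕ) → Pt m L → ℝ), 1 ≤ L →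
      ArK N v → 0 ≤ M → (∀ ω, |HH v ω| ≤ M) → mass v ≤ M ^ 2 → mass v ≤ C * (L : ℝ) ^ p * M := by
  have hl : 0 < Real.log (4 / 3) := Real.log_pos (by norm_num)
  obtain ⟨C, hC, hB⟩ := hB (((m : ℝ) + 1) / Real.log (4 / 3)) (by positivity)
  refine ⟨2 * C + 1, by linarith, ?_⟩
  intro L N M v hL hv hM hH hmass
  have hLp : 1 ≤ (L : ℝ) ^ p := Real.one_le_rpow (by exact_mod_cast hL) hp0
  rcases lt_or_ge M 1 with hM1 | hM1
  · calc mass v ≤ M ^ 2 := hmass
      _ ≤ M := by nlinarith
      _ ≤ (L : ℝ) ^ p * M := le_mul_of_one_le_left hM hLp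
      _ ≤ (2 * C + 1) * (L : ℝ) ^ p * M := by
          rw [mul_assoc]
          refine le_mul_of_one_le_left (by positivity) (by linarith)
  set x : ℝ := ((m : ℝ) + 1) / Real.log (4 / 3) * Real.log (L + 1) with hx
  have hx0 : 0 ≤ x := by
    have : 0 ≤ Real.log ((L : ℝ) + 1) := Real.log_nonneg (by
      have : (0 : ℝ) ≤ L := Nat.cast_nonneg _
      linarith)
    positivity
  set R : ℕ := ⌈x⌉₊ with hR
  have hR1 : x ≤ R := Nat.le_ceil x
  have hR2 : (R : ℝ) ≤ x + 1 := (Nat.ceil_lt_add_one hx0).le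
  have htail := tail33 (m := m) (L := L) (N := N) (R := R) hR1
  set v' : (Fin (m + 1) → ℕ) → Pt m L → ℝ := fun q ω =>
    if dst (∑ a, q a) N ≤ R then v q ω else 0 with hv'
  have hB' : ArB N R v' := by
    refine ⟨⟨fun q ω => ?_, fun q => ?_⟩, fun q ω h => ?_⟩
    · rw [hv']
      dsimp only
      split_ifs
      · exact hv.abs q ω
      · rw [abs_zero]
        exact (kap_pos33 _ _).le
    · rw [hv']
      by_cases h : dst (∑ a, q a) N ≤ R
      · simp only [h, if_true]
        exact hv.dep q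
      · simp only [h, if_false]
        exact Ms.cst q 0
    · rw [hv']
      dsimp only
      rw [if_neg (by omega)]
  have hdiff : ∀ ω, |HH v' ω| ≤ M + 1 := by
    intro ω
    have e : HH v ω - HH v' ω = ∑ q ∈ All m L, ps Finset.univ q ω *
        (if dst (∑ a, q a) N ≤ R then 0 else v q ω) := by
      rw [HH_eq33, HH_eq33, ← sum_sub_distrib]
      refine sum_congr rfl fun q _ => ?_
      rw [hv']
      dsimp only
      split_ifs
      · ring
      · ring
    have h1 : |HH v ω - HH v' ω| ≤ 1 := by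
      rw [e]
      refine (abs_sum_le_sum_abs _ _).trans (le_trans (sum_le_sum fun q _ => ?_) htail)
      rw [abs_mul, ps_abs, one_mul]
      split_ifs
      · rw [abs_zero]
      · exact hv.abs q ω
    have h2 := abs_sub_abs_le_abs_sub (HH v' ω) (HH v ω)
    rw [abs_sub_comm] at h2
    linarith [hH ω]
  have hm1 : mass v' ≤ mass v := by
    unfold mass
    refine sum_le_sum fun q _ => Av_mono fun ω => ?_
    rw [hv']
    dsimp only
    split_ifs
    · exact le_rfl
    · nlinarith [sq_nonneg (v q ω)]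
  have hm2 : mass v ≤ mass v' + 1 := by
    have h1 : mass v ≤ mass v' + ∑ q ∈ All m L, (if dst (∑ a, q a) N ≤ R then 0 else kap N q) := by
      unfold mass
      rw [← sum_add_distrib]
      refine sum_le_sum fun q _ => ?_
      rw [hv']
      dsimp only
      split_ifs
      · linarith
      · have h2 : Av (fun ω => v q ω ^ 2) ≤ kap N q := by
          have h3 : Av (fun ω => v q ω ^ 2) ≤ Av (fun _ : Pt m L => kap N q) := by
            refine Av_mono fun ω => ?_
            have h4 := hv.abs q ω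
            have h5 : kap N q ≤ 1 := by
              unfold kap
              exact pow_le_one₀ (by norm_num) (by norm_num)
            have h6 := abs_nonneg (v q ω)
            rw [← sq_abs]
            nlinarith
          rwa [Av_const] at h3
        have h3 : 0 ≤ Av (fun _ : Pt m L => (0 : ℝ) ^ 2) := by
          rw [Av_const]
          norm_num
        linarith
    linarith
  have hfin := hB L N R (2 * M) v' hL (by linarith) hB' (by linarith)
    (fun ω => (hdiff ω).trans (by linarith)) (by nlinarith)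
  calc mass v ≤ mass v' + 1 := hm2
    _ ≤ C * (L : ℝ) ^ p * (2 * M) + (L : ℝ) ^ p * M := by
        have : 1 ≤ (L : ℝ) ^ p * M := by nlinarith
        linarith
    _ = (2 * C + 1) * (L : ℝ) ^ p * M := by ring

theorem haarg_33 (hB : StHaarB) : StHaarG := by
  intro m ε hm hε
  refine haargen_33 m _ ?_ (fun K hK => hB m ε K hm hε hK)
  have hm' : (1 : ℝ) ≤ m := by exact_mod_cast hm
  have h1 : (m : ℝ) / (2 * (3 * (m : ℝ) - 1)) ≤ (m : ℝ) / 2 := by
    apply div_le_div_of_nonneg_left (by linarith) (by norm_num)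
    linarith
  linarith

end Pool.Agent.SHD
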