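import Pool.Agent.Lib.MP_a7b2aa_an.SHD.Stmts4_25
import Pool.Agent.Lib.MP_a7b2aa_an.SHD.HaarG33

/-!
SHD4, module ENDL (helper25): from band arrays to all arrays.
-/

set_option autoImplicit false

namespace Pool.Agent.SHD

open Finset Pool.Agent.SB3 Pool.Agent.SBT Pool.Agent.SBD

theorem endl_25 (hB : StBandL) : StEndLAll := by
  intro m ε hm hε
  have hl : 0 < Real.log (4 / 3) := Real.log_pos (by norm_num)
  obtain ⟨C, hC, hB⟩ := hB m ε (((m : ℝ) + 1) / Real.log (4 / 3)) hm hε (by positivity)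
  set p : ℝ := (m : ℝ) / 2 - 1 / 4 + ε with hp
  have hm' : (2 : ℝ) ≤ m := by exact_mod_cast hm
  have hp0 : 0 ≤ p := by rw [hp]; linarith
  refine ⟨C + 1, by linarith, ?_⟩
  intro L N v hL hv hH
  have hLp : 1 ≤ (L : ℝ) ^ p := Real.one_le_rpow (by exact_mod_cast hL) hp0
  set x : ℝ := ((m : ℝ) + 1) / Real.log (4 / 3) * Real.log (L + 1) with hx
  have hx0 : 0 ≤ x := by
    have : 0 ≤ Real.log ((L : ℝ) + 1) := Real.log_nonneg (by
      have : (0 : ℝ) ≤ L := Nat.cast_nonneg _
      linarith)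
    positivity
  set R : ℕ := ⌈x⌉₊ with hR
  have hR1 : x ≤ R := Nat.le_ceil x
  have hR2 : (R : ℝ) ≤ x + 1 := (Nat.ceil_lt_add_one hx0).le
  have htail := tail33 (m := m) (L := L) (N := N) (R := R) hR1
  set v' : (Fin (m + 1) → ℕ) → Pt m L → ℝ := fun q ω =>
    if dst (∑ a, q a) N ≤ R then v q ω else 0 with hv'
  have hkap : ∀ q : Fin (m + 1) → ℕ, kap N q ≤ 1 := fun q => by
    unfold kap
    exact pow_le_one₀ (by norm_num) (by norm_num)
  have hF : ArF N R v' := by
    refine ⟨fun q ω => ?_, fun q => ?_, fun q ω h => ?_⟩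
    · rw [hv']
      dsimp only
      split_ifs
      · exact (hv.abs q ω).trans (hkap q)
      · rw [abs_zero]
        exact zero_le_one
    · rw [hv']
      by_cases h : dst (∑ a, q a) N ≤ R
      · simp only [h, if_true]
        exact hv.dep q
      · simp only [h, if_false]
        exact Ms.cst q 0
    · rw [hv']
      dsimp only
      rw [if_neg (by omega)]
  have hdiff : ∀ ω, |HH v' ω| ≤ 2 := by
    intro ω
    have e : HH v ω - HH v' ω = ∑ q ∈ All m L, ps Finset.univ q ω *
        (if dst (∑ a, q a) N ≤ R then 0 else v q ω) := by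
      rw [HH_eq33, HH_eq33, ← sum_sub_distrib]
      refine sum_congr rfl fun q _ => ?_
      rw [hv']
      dsimp only
      split_ifs
      · ring
      · ring
    have h1 : |HH v ω - HH v' ω| ≤ 1 := by
      rw [e]
      refine (abs_sum_le_sum_abs _ _).trans (le_trans (sum_le_sum fun q _ => ?_) htail)
      rw [abs_mul, ps_abs, one_mul]
      split_ifs
      · rw [abs_zero]
      · exact hv.abs q ω
    have h2 := abs_sub_abs_le_abs_sub (HH v' ω) (HH v ω)
    rw [abs_sub_comm] at h2
    linarith [hH ω]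
  have hm2 : ∑ q ∈ All m L, Av (fun ω => |v q ω|) ≤ ∑ q ∈ All m L, Av (fun ω => |v' q ω|) +
      ∑ q ∈ All m L, (if dst (∑ a, q a) N ≤ R then 0 else kap N q) := by
    rw [← sum_add_distrib]
    refine sum_le_sum fun q _ => ?_
    rw [hv']
    dsimp only
    split_ifs
    · linarith
    · have h2 : Av (fun ω => |v q ω|) ≤ kap N q := by
        have h3 : Av (fun ω => |v q ω|) ≤ Av (fun _ : Pt m L => kap N q) :=
          Av_mono fun ω => hv.abs q ω
        rwa [Av_const] at h3
      have h3 : 0 ≤ Av (fun _ : Pt m L => |(0 : ℝ)|) := by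
        rw [Av_const]
        norm_num
      linarith
  have hfin := hB L N R v' hL hR2 hF hdiff
  calc ∑ q ∈ All m L, Av (fun ω => |v q ω|) ≤ C * (L : ℝ) ^ p + 1 := by linarith
    _ ≤ C * (L : ℝ) ^ p + (L : ℝ) ^ p := by linarith
    _ = (C + 1) * (L : ℝ) ^ p := by ring

end Pool.Agent.SHD
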