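import Pool.Agent.Lib.MP_a7b2aa_an.SHD.TiltK65

/-!
SHD2 (helper65): modules CMNG, DENG.
-/

set_option autoImplicit false

namespace Pool.Agent.SHD

open Finset Pool.Agent.SB3 Pool.Agent.SBT Pool.Agent.SBD

section cmn

variable {m L : ℕ}

/-- restrictions beyond `L` do not matter -/
theorem EE_congr65 {q q' : Fin (m + 1) → ℕ} (h : ∀ a, q a = q' a ∨ (L ≤ q a ∧ L ≤ q' a))
    (φ : Pt m L → ℝ) (ω : Pt m L) : EE q φ ω = EE q' φ ω := by
  unfold EE
  have h1 : ∀ ω' : Pt m L, cl q ω' ω ↔ cl q' ω' ω := fun ω' =>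
    ⟨fun hc => cl_mono (fun a => by rcases h a with h | h <;> omega) hc,
     fun hc => cl_mono (fun a => by rcases h a with h | h <;> omega) hc⟩
  have h2 : ∑ a, (L - q a) = ∑ a, (L - q' a) := by
    refine sum_congr rfl fun a _ => ?_
    rcases h a with h | h <;> omega
  rw [h2]
  congr 1
  refine sum_congr rfl fun ω' _ => ?_
  by_cases hc : cl q ω' ω
  · rw [if_pos hc, if_pos ((h1 ω').1 hc)]
  · rw [if_neg hc, if_neg (fun hc' => hc ((h1 ω').2 hc'))]

/-- `EE p' (EE p φ) = EE p' φ` if `p' ≤ p` -/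
theorem EE_tower65 (hE : Eeb m L) {p' p : Fin (m + 1) → ℕ} (h : ∀ a, p' a ≤ p a ∨ L ≤ p a)
    (φ : Pt m L → ℝ) (ω : Pt m L) : EE p' (EE p φ) ω = EE p' φ ω := by
  rw [hE.comp]
  refine EE_congr65 (fun a => ?_) φ ω
  rcases h a with h | h <;> omega

theorem EE_zero65 {ρ : Pt m L → ℝ} (hρ : ∀ ω, 0 ≤ ρ ω) {p : Fin (m + 1) → ℕ} {ω : Pt m L}
    (h : EE p ρ ω = 0) (φ : Pt m L → ℝ) : EE p (fun ω' => ρ ω' * φ ω') ω = 0 := by
  unfold EE at h ⊢
  have h1 : ∑ ω' : Pt m L, (if cl p ω' ω then ρ ω' else 0) = 0 := by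
    rcases div_eq_zero_iff.1 h with h2 | h2
    · exact h2
    · exact absurd h2 (by positivity)
  have h3 : ∀ ω' ∈ (univ : Finset (Pt m L)), (if cl p ω' ω then ρ ω' else 0) = 0 := by
    refine (sum_eq_zero_iff_of_nonneg fun ω' _ => ?_).1 h1
    split_ifs
    · exact hρ ω'
    · exact le_rfl
  have h4 : ∑ ω' : Pt m L, (if cl p ω' ω then ρ ω' * φ ω' else 0) = 0 := by
    refine sum_eq_zero fun ω' _ => ?_
    have h5 := h3 ω' (mem_univ _)
    split_ifs at h5 ⊢ with h6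
    · rw [h5, zero_mul]
    · rfl
  rw [h4, zero_div]

/-- the conditional mean times the density -/
theorem cmn_mul65 {ρ : Pt m L → ℝ} (hρ : ∀ ω, 0 ≤ ρ ω) (φ : Pt m L → ℝ)
    (p : Fin (m + 1) → ℕ) (ω : Pt m L) :
    cmn ρ φ p ω * EE p ρ ω = EE p (fun ω' => ρ ω' * φ ω') ω := by
  unfold cmn
  by_cases h : EE p ρ ω = 0
  · rw [h, EE_zero65 hρ h φ]
    simp
  · rw [div_mul_cancel₀ _ h]

theorem EE_nonneg65 (hE : Eeb m L) {ρ : Pt m L → ℝ} (hρ : ∀ ω, 0 ≤ ρ ω)
    (p : Fin (m + 1) → ℕ) (ω : Pt m L) : 0 ≤ EE p ρ ω := by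
  have := hE.mono p (fun _ => 0) ρ hρ ω
  rwa [hE.const] at this

end cmn

/-- CMNG -/
theorem cmng_65 (hEB : StEeb) : StCmnG := by
  intro m L ρ φ p hρ
  have hE := hEB m L
  have hms : Ms p (cmn ρ φ p) := by
    unfold cmn
    exact (hE.ms p _).comp2 (hE.ms p ρ) (fun x y => x / y)
  refine ⟨hms, fun B hB hφ ω => ?_, fun p' X ω hp hX => ?_⟩
  · have h1 : |EE p (fun ω' => ρ ω' * φ ω') ω| ≤ B * EE p ρ ω := by
      refine (hE.abs p _ ω).trans ?_
      have h2 := hE.mono p (fun ω' => |ρ ω' * φ ω'|) (fun ω' => B * ρ ω') (fun ω' => by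
        rw [abs_mul, abs_of_nonneg (hρ ω'), mul_comm]
        exact mul_le_mul_of_nonneg_right (hφ ω') (hρ ω')) ω
      rwa [hE.smul] at h2
    have h3 := EE_nonneg65 hE hρ p ω
    unfold cmn
    rw [abs_div, abs_of_nonneg h3]
    rcases h3.eq_or_lt with h4 | h4
    · rw [← h4]
      simpa using hB
    · rw [div_le_iff₀ h4]
      exact h1
  · have h1 : EE p' (fun ω' => ρ ω' * (φ ω' * X ω')) ω =
        EE p' (EE p (fun ω' => ρ ω' * (φ ω' * X ω'))) ω :=
      (EE_tower65 hE (fun a => Or.inl (hp a)) _ ω).symm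
    have h2 : EE p' (fun ω' => ρ ω' * (cmn ρ φ p ω' * X ω')) ω =
        EE p' (EE p (fun ω' => ρ ω' * (cmn ρ φ p ω' * X ω'))) ω :=
      (EE_tower65 hE (fun a => Or.inl (hp a)) _ ω).symm
    rw [h1, h2]
    congr 1
    funext ω'
    have h3 : (fun ω' => ρ ω' * (φ ω' * X ω')) = fun ω' => X ω' * (fun ω'' => ρ ω'' * φ ω'') ω' := by
      funext ω''
      ring
    have h4 : (fun ω' => ρ ω' * (cmn ρ φ p ω' * X ω')) =
        fun ω' => (fun ω'' => cmn ρ φ p ω'' * X ω'') ω' * ρ ω' := by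
      funext ω''
      ring
    rw [h3, h4, hE.pull p X _ hX, hE.pull p (fun ω'' => cmn ρ φ p ω'' * X ω'') ρ
      (hms.comp2 hX (fun x y => x * y)), ← cmn_mul65 hρ φ p ω']
    ring

/-- conditional bias of the tilt -/
theorem EE_PGs65 {m L : ℕ} (hE : Eeb m L) {a : Fin (m + 1)} {γ : ℕ → Pt m L → ℝ}
    (hγ : ∀ i, Ms (one L a i) (γ i)) {i : ℕ} (hi : i < L) (ω : Pt m L) :
    EE (one L a i) (fun ω' => PG65 a γ L ω' * sb a i ω') ω =
      EE (one L a i) (fun ω' => PG65 a γ L ω' * γ i ω') ω := by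
  have h0 : ∀ b, one L a i b ≤ one L a (i + 1) b ∨ L ≤ one L a (i + 1) b := by
    intro b
    by_cases hb : b = a
    · subst hb
      left
      rw [one_self65, one_self65]
      omega
    · left
      unfold one
      rw [Function.update_of_ne hb, Function.update_of_ne hb]
  have h1 : EE (one L a i) (fun ω' => PG65 a γ L ω' * sb a i ω') ω =
      EE (one L a i) (fun ω' => PG65 a γ i ω' * sb a i ω' + PG65 a γ i ω' * γ i ω') ω := by
    rw [← EE_tower65 hE h0]
    congr 1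
    funext ω'
    have h2 : (fun ω' => PG65 a γ L ω' * sb a i ω') =
        fun ω' => sb a i ω' * PG65 a γ L ω' := by
      funext ω''
      ring
    rw [h2, hE.pull _ _ _ (sb_ms65 a (Nat.lt_succ_self i)), EE_PG65 hE hγ (by omega) le_rfl,
      PG_succ65]
    have h3 := sb_sq a i ω'
    linear_combination (PG65 a γ i ω' * γ i ω') * h3
  have h4 : EE (one L a i) (fun ω' => PG65 a γ L ω' * γ i ω') ω =
      EE (one L a i) (fun ω' => PG65 a γ i ω' * γ i ω') ω := by
    have h5 : (fun ω' => PG65 a γ L ω' * γ i ω') = fun ω' => γ i ω' * PG65 a γ L ω' := by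
      funext ω''
      ring
    have h6 : (fun ω' => PG65 a γ i ω' * γ i ω') = fun ω' => γ i ω' * PG65 a γ i ω' := by
      funext ω''
      ring
    rw [h5, h6, hE.pull _ _ _ (hγ i), hE.pull _ _ _ (hγ i), EE_PG65 hE hγ hi.le le_rfl,
      hE.idem _ _ (PG_ms65 hγ i)]
  rw [h1, h4, hE.add (one L a i) (fun ω' => PG65 a γ i ω' * sb a i ω')
    (fun ω' => PG65 a γ i ω' * γ i ω') ω,
    hE.pull _ _ _ (PG_ms65 hγ i), ee_sb_21 hE a i hi, mul_zero, zero_add]

/-- DENG -/
theorem deng_65 (hEB : StEeb) : StDenG := by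
  intro m L θ h hθ hh
  have hE := hEB m L
  have hPG : ∀ ω, 0 ≤ PG65 0 θ L ω := fun ω => PG_nonneg65 hθ.abs L ω
  have htw : ∀ (j : ℕ) (φ : Pt m L → ℝ) (ω : Pt m L),
      EE (Function.update h 0 j) (EE (one L 0 j) φ) ω = EE (Function.update h 0 j) φ ω := by
    intro j φ ω
    refine EE_tower65 hE (fun a => ?_) φ ω
    by_cases ha : a = 0
    · subst ha
      left
      rw [Function.update_self, one_self65]
    · right
      unfold one
      rw [Function.update_of_ne ha]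
  constructor
  · intro ω
    unfold fd
    rw [← htw, qq_eq65]
    have h1 : EE (one L 0 0) (PG65 0 θ L) = fun _ => (1 : ℝ) := by
      funext ω'
      rw [EE_PG65 hE hθ.dep (Nat.zero_le L) le_rfl]
      unfold PG65
      simp
    rw [h1, hE.const]
  · intro j ω hj
    have hjL : j < L := lt_of_lt_of_le hj hh
    have h1 := hE.step (Function.update h 0 j) 0 (qq θ) ω (by
      rw [Function.update_self]
      exact hjL)
    rw [Function.update_self, Function.update_idem] at h1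
    have h2 : EE (Function.update h 0 j) (fun ω' => sb 0 j ω' * qq θ ω') ω =
        EE (Function.update h 0 j) (fun ω' => qq θ ω' * θ j ω') ω := by
      rw [← htw j (fun ω' => sb 0 j ω' * qq θ ω'), ← htw j (fun ω' => qq θ ω' * θ j ω')]
      congr 1
      funext ω'
      have h3 : (fun ω' => sb 0 j ω' * qq θ ω') = fun ω' => PG65 0 θ L ω' * sb 0 j ω' := by
        funext ω''
        rw [qq_eq65]
        ring
      rw [h3, EE_PGs65 hE hθ.dep hjL ω', qq_eq65]
    have h4 := cmn_mul65 (ρ := qq θ) (fun ω => by rw [qq_eq65]; exact hPG ω) (θ j)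
      (Function.update h 0 j) ω
    unfold fd ad
    rw [h2, ← h4] at h1
    linarith

end Pool.Agent.SHD
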