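import Pool.Agent.Lib.MP_a7b2aa_an.SBD.Base30
import Pool.Agent.Lib.MP_a7b2aa_an.SBD.EEB36
import Pool.Agent.Lib.MP_a7b2aa_an.SBD.Alf74

/-!
SHN, module KLX (helper66): the relative entropy of a law controls the biases of one string.
-/

set_option autoImplicit false

namespace Pool.Agent.SHD

open Finset Pool.Agent.SB3 Pool.Agent.SBT Pool.Agent.SBD

namespace K66

/-! ### two points -/

theorem kl_aux {a t : ℝ} (ha : |a| < 1) (ht : |t| < 1) :
    (a - t) ^ 2 / 2 ≤ (1 + a) / 2 * (Real.log (1 + a) - Real.log (1 + t)) +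
      (1 - a) / 2 * (Real.log (1 - a) - Real.log (1 - t)) := by
  obtain ⟨ha1, ha2⟩ := abs_lt.1 ha
  obtain ⟨ht1, ht2⟩ := abs_lt.1 ht
  set G : ℝ → ℝ := fun x => -((1 + a) / 2 * Real.log (1 + x)) - (1 - a) / 2 * Real.log (1 - x) -
    (a - x) ^ 2 / 2 with hG
  have hd : ∀ x, -1 < x → x < 1 → HasDerivAt G ((x - a) * (x ^ 2 / ((1 + x) * (1 - x)))) x := by
    intro x hx1 hx2
    have h1 : HasDerivAt (fun x : ℝ => 1 + x) 1 x := by
      simpa using (hasDerivAt_id x).const_add 1
    have h2 : HasDerivAt (fun x : ℝ => 1 - x) (-1) x := by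
      simpa using (hasDerivAt_id x).const_sub 1
    have h3 := (h1.log (by linarith)).const_mul ((1 + a) / 2)
    have h4 := (h2.log (by linarith)).const_mul ((1 - a) / 2)
    have h5 : HasDerivAt (fun x : ℝ => (a - x) ^ 2 / 2) (-(a - x)) x := by
      have h6 : HasDerivAt (fun x : ℝ => a - x) (-1) x := by
        simpa using (hasDerivAt_id x).const_sub a
      have h7 := (h6.fun_pow 2).div_const 2
      have e7 : ((2 : ℕ) : ℝ) * (a - x) ^ (2 - 1) * -1 / 2 = -(a - x) := by
        norm_num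
        ring
      rw [e7] at h7
      exact h7
    have h8 := (h3.fun_neg.fun_sub h4).fun_sub h5
    have e1 : 1 + x ≠ 0 := by linarith
    have e2 : 1 - x ≠ 0 := by linarith
    have e8 : -((1 + a) / 2 * (1 / (1 + x))) - (1 - a) / 2 * (-1 / (1 - x)) - -(a - x) =
        (x - a) * (x ^ 2 / ((1 + x) * (1 - x))) := by
      field_simp
      ring
    rw [e8] at h8
    exact h8
  have key : G a ≤ G t := by
    rcases le_total t a with h | h
    · have hA : AntitoneOn G (Set.Icc t a) := by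
        refine antitoneOn_of_deriv_nonpos (convex_Icc t a) ?_ ?_ ?_
        · intro x hx
          exact (hd x (by linarith [hx.1]) (by linarith [hx.2])).continuousAt.continuousWithinAt
        · intro x hx
          rw [interior_Icc] at hx
          exact (hd x (by linarith [hx.1]) (by linarith [hx.2])).differentiableAt.differentiableWithinAt
        · intro x hx
          rw [interior_Icc] at hx
          rw [(hd x (by linarith [hx.1]) (by linarith [hx.2])).deriv]
          have e1 : 0 < (1 + x) * (1 - x) := mul_pos (by linarith [hx.1]) (by linarith [hx.2])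
          exact mul_nonpos_of_nonpos_of_nonneg (by linarith [hx.2]) (by positivity)
      exact hA ⟨le_rfl, h⟩ ⟨h, le_rfl⟩ h
    · have hA : MonotoneOn G (Set.Icc a t) := by
        refine monotoneOn_of_deriv_nonneg (convex_Icc a t) ?_ ?_ ?_
        · intro x hx
          exact (hd x (by linarith [hx.1]) (by linarith [hx.2])).continuousAt.continuousWithinAt
        · intro x hx
          rw [interior_Icc] at hx
          exact (hd x (by linarith [hx.1]) (by linarith [hx.2])).differentiableAt.differentiableWithinAt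
        · intro x hx
          rw [interior_Icc] at hx
          rw [(hd x (by linarith [hx.1]) (by linarith [hx.2])).deriv]
          have e1 : 0 < (1 + x) * (1 - x) := mul_pos (by linarith [hx.1]) (by linarith [hx.2])
          exact mul_nonneg (by linarith [hx.1]) (by positivity)
      exact hA ⟨le_rfl, h⟩ ⟨h, le_rfl⟩ h
  simp only [hG] at key
  nlinarith [key]

theorem kl_scalar {a t : ℝ} (ha : |a| ≤ 1) (ht : |t| < 1) :
    (a - t) ^ 2 / 2 ≤ (1 + a) / 2 * (Real.log (1 + a) - Real.log (1 + t)) +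
      (1 - a) / 2 * (Real.log (1 - a) - Real.log (1 - t)) := by
  have hc : IsClosed {a : ℝ | (a - t) ^ 2 / 2 ≤
      ((1 + a) * Real.log (1 + a)) / 2 - (1 + a) / 2 * Real.log (1 + t) +
      (((1 - a) * Real.log (1 - a)) / 2 - (1 - a) / 2 * Real.log (1 - t))} := by
    refine isClosed_le (by fun_prop) ?_
    have c1 : Continuous fun a : ℝ => (1 + a) * Real.log (1 + a) :=
      Real.continuous_mul_log.comp (continuous_const.add continuous_id)
    have c2 : Continuous fun a : ℝ => (1 - a) * Real.log (1 - a) :=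
      Real.continuous_mul_log.comp (continuous_const.sub continuous_id)
    exact ((c1.div_const 2).sub (by fun_prop)).add ((c2.div_const 2).sub (by fun_prop))
  have hs : closure (Set.Ioo (-1 : ℝ) 1) ⊆ {a : ℝ | (a - t) ^ 2 / 2 ≤
      ((1 + a) * Real.log (1 + a)) / 2 - (1 + a) / 2 * Real.log (1 + t) +
      (((1 - a) * Real.log (1 - a)) / 2 - (1 - a) / 2 * Real.log (1 - t))} := by
    refine closure_minimal ?_ hc
    intro x hx
    have := kl_aux (a := x) (t := t) (abs_lt.2 ⟨hx.1, hx.2⟩) ht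
    simp only [Set.mem_ofPred_eq]
    linarith
  rw [closure_Ioo (by norm_num)] at hs
  have := hs (abs_le.1 ha)
  simp only [Set.mem_ofPred_eq] at this
  linarith

/-- `u log (u / r) ≥ u - r` -/
theorem log_jensen {u r : ℝ} (hu : 0 ≤ u) (hr : 0 < r) :
    u - r ≤ u * (Real.log u - Real.log r) := by
  rcases hu.eq_or_lt with h | h
  · rw [← h]
    linarith
  · have h1 := Real.log_le_sub_one_of_pos (div_pos hr h)
    rw [Real.log_div hr.ne' h.ne'] at h1
    have h2 := mul_le_mul_of_nonneg_left h1 h.le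
    have h3 : u * (r / u - 1) = r - u := by field_simp
    rw [h3] at h2
    linarith

/-! ### the martingale of the density -/

section

variable {m L : ℕ}

theorem EE_full (b : Fin (m + 1)) (φ : Pt m L → ℝ) (ω : Pt m L) : EE (one L b L) φ ω = φ ω := by
  refine (eeb_36 m L).idem _ _ ?_ ω
  intro ω ω' h
  rw [cl_one_iff] at h
  have : ω' = ω := by
    funext c
    by_cases hc : c = b
    · subst hc
      exact pre_top33 le_rfl h.1
    · exact h.2 c hc
  rw [this]

theorem one_succ (b : Fin (m + 1)) (t : ℕ) :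
    Function.update (one L b t) b (one L b t b + 1) = one L b (t + 1) := by
  unfold one
  rw [Function.update_self, Function.update_idem]

/-- one step -/
theorem EE_step {ρ : Pt m L → ℝ} (hρ : ∀ ω, 0 ≤ ρ ω) (b : Fin (m + 1)) {t : ℕ} (ht : t < L)
    (ω : Pt m L) :
    EE (one L b (t + 1)) ρ ω = EE (one L b t) ρ ω * (1 + sb b t ω * al ρ b t ω) := by
  have hE := eeb_36 m L
  have h0 : one L b t b = t := by simp [one]
  have h1 := hE.step (one L b t) b ρ ω (by rw [h0]; exact ht)
  rw [one_succ, h0] at h1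
  have h2 : EE (one L b t) (fun ω' => sb b t ω' * ρ ω') ω =
      al ρ b t ω * EE (one L b t) ρ ω := by
    have e : (fun ω' => sb b t ω' * ρ ω') = fun ω' => ρ ω' * sb b t ω' := by
      funext ω'
      ring
    rw [e]
    unfold al
    by_cases hz : EE (one L b t) ρ ω = 0
    · have h3 := hE.abs (one L b t) (fun ω' => ρ ω' * sb b t ω') ω
      have h4 : (fun ω' => |ρ ω' * sb b t ω'|) = ρ := by
        funext ω'
        rw [abs_mul, sb_abs, mul_one, abs_of_nonneg (hρ ω')]
      rw [h4, hz] at h3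
      rw [abs_nonpos_iff.1 h3, hz]
      simp
    · rw [div_mul_cancel₀ _ hz]
  rw [h2] at h1
  linarith

/-- the marginal densities are positive on the support -/
theorem EE_pos {ρ : Pt m L → ℝ} (hρ : ∀ ω, 0 ≤ ρ ω) (b : Fin (m + 1)) (t : ℕ) {ω : Pt m L}
    (hω : ρ ω ≠ 0) : 0 < EE (one L b t) ρ ω := by
  have h1 : 0 < ρ ω := lt_of_le_of_ne (hρ ω) (Ne.symm hω)
  rw [EE_eq36]
  refine lt_of_lt_of_le ?_ (Finset.single_le_sum (f := fun ω' => KK36 (one L b t) ω' ω * ρ ω')
    (fun ω' _ => mul_nonneg (KK36_nonneg _ _ _) (hρ ω')) (mem_univ ω))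
  refine mul_pos ?_ h1
  rw [KK36_eq, if_pos (cl_refl _ _)]
  positivity

theorem one_add_pos {ρ : Pt m L → ℝ} (hρ : ∀ ω, 0 ≤ ρ ω) (b : Fin (m + 1)) {t : ℕ} (ht : t < L)
    {ω : Pt m L} (hω : ρ ω ≠ 0) : 0 < 1 + sb b t ω * al ρ b t ω := by
  have h1 := EE_step hρ b ht ω
  have h2 := EE_pos hρ b (t + 1) hω
  have h3 := EE_pos hρ b t hω
  rw [h1] at h2
  exact pos_of_mul_pos_left (by linarith) h3.le

/-- the logarithm of the density along the string `b` -/
theorem log_eq {ρ : Pt m L → ℝ} (hρ : ∀ ω, 0 ≤ ρ ω) (b : Fin (m + 1)) {ω : Pt m L}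
    (hω : ρ ω ≠ 0) :
    Real.log (ρ ω) = Real.log (EE (one L b 0) ρ ω) +
      ∑ t ∈ range L, Real.log (1 + sb b t ω * al ρ b t ω) := by
  have key : ∀ t ≤ L, Real.log (EE (one L b t) ρ ω) = Real.log (EE (one L b 0) ρ ω) +
      ∑ r ∈ range t, Real.log (1 + sb b r ω * al ρ b r ω) := by
    intro t
    induction t with
    | zero => intro _; simp
    | succ t ih =>
      intro ht
      rw [EE_step hρ b (by omega) ω, Real.log_mul (EE_pos hρ b t hω).ne'
        (one_add_pos hρ b (by omega) hω).ne', ih (by omega), sum_range_succ, add_assoc]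
  have := key L le_rfl
  rw [EE_full] at this
  exact this

theorem sb_or (a : Fin (m + 1)) (t : ℕ) (ω : Pt m L) : sb a t ω = 1 ∨ sb a t ω = -1 := by
  unfold sb
  cases bit (ω a) t <;> simp [sgr]

theorem log_sgn {s x : ℝ} (hs : s = 1 ∨ s = -1) :
    Real.log (1 + s * x) = (Real.log (1 + x) + Real.log (1 - x)) / 2 +
      s * ((Real.log (1 + x) - Real.log (1 - x)) / 2) := by
  rcases hs with h | h
  · rw [h, one_mul]
    ring
  · rw [h]
    have : 1 + -1 * x = 1 - x := by ring
    rw [this]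
    ring

end

end K66

open K66

/-- KLX: the relative entropy with respect to a law whose string `b` has the biases `γ` -/
theorem klx_66 {m L : ℕ} {k : ℝ} {ρ : Pt m L → ℝ} (hρ : Law k ρ) (b : Fin (m + 1))
    (γ : ℕ → Pt m L → ℝ) (hγ : ∀ r, Ms (one L b r) (γ r)) (hγ1 : ∀ r ω, |γ r ω| < 1)
    (R0 : Pt m L → ℝ) (h0 : Ms (one L b 0) R0) (h0p : ∀ ω, 0 < R0 ω) (h0m : Av R0 ≤ 1) :
    ∑ r ∈ range L, Ex ρ (fun ω => (al ρ b r ω - γ r ω) ^ 2) ≤
      2 * Ex ρ (fun ω => Real.log (ρ ω) - Real.log (R0 ω) -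
        ∑ r ∈ range L, Real.log (1 + sb b r ω * γ r ω)) := by
  have hE := eeb_36 m L
  have hA := alf_74 eeb_36 m L k ρ hρ
  have e1 : Ex ρ (fun ω => Real.log (ρ ω) - Real.log (R0 ω) -
      ∑ r ∈ range L, Real.log (1 + sb b r ω * γ r ω)) =
      Ex ρ (fun ω => Real.log (EE (one L b 0) ρ ω) - Real.log (R0 ω)) +
      ∑ r ∈ range L, Ex ρ (fun ω => Real.log (1 + sb b r ω * al ρ b r ω) -
        Real.log (1 + sb b r ω * γ r ω)) := by
    rw [← Ex_sum, ← Ex_add]
    unfold Ex
    congr 1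
    funext ω
    by_cases hω : ρ ω = 0
    · rw [hω]
      ring
    · beta_reduce
      rw [log_eq hρ.nonneg b hω, sum_sub_distrib]
      ring
  have e2 : 0 ≤ Ex ρ (fun ω => Real.log (EE (one L b 0) ρ ω) - Real.log (R0 ω)) := by
    have hm : Ms (one L b 0) (fun ω => Real.log (EE (one L b 0) ρ ω) - Real.log (R0 ω)) :=
      Ms.comp2 (hE.ms _ ρ) h0 (fun x y => Real.log x - Real.log y)
    have h1 : Ex ρ (fun ω => Real.log (EE (one L b 0) ρ ω) - Real.log (R0 ω)) =
        Av (fun ω => EE (one L b 0) ρ ω *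
          (Real.log (EE (one L b 0) ρ ω) - Real.log (R0 ω))) := by
      unfold Ex
      rw [← hE.adj]
      congr 1
      funext ω
      rw [hE.idem _ _ hm]
    rw [h1]
    have h2 : Av (fun ω => EE (one L b 0) ρ ω - R0 ω) ≤ Av (fun ω => EE (one L b 0) ρ ω *
        (Real.log (EE (one L b 0) ρ ω) - Real.log (R0 ω))) := by
      refine Av_mono fun ω => log_jensen ?_ (h0p ω)
      have h3 := hE.mono (one L b 0) (fun _ => 0) ρ hρ.nonneg ω
      rwa [hE.const] at h3
    rw [Av_sub, hE.mean, hρ.mean] at h2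
    linarith
  have e3 : ∀ r, Ex ρ (fun ω => (al ρ b r ω - γ r ω) ^ 2) / 2 ≤
      Ex ρ (fun ω => Real.log (1 + sb b r ω * al ρ b r ω) -
        Real.log (1 + sb b r ω * γ r ω)) := by
    intro r
    set P : Pt m L → ℝ := fun ω => (Real.log (1 + al ρ b r ω) + Real.log (1 - al ρ b r ω)) / 2 -
      (Real.log (1 + γ r ω) + Real.log (1 - γ r ω)) / 2 with hP
    set Q : Pt m L → ℝ := fun ω => (Real.log (1 + al ρ b r ω) - Real.log (1 - al ρ b r ω)) / 2 -
      (Real.log (1 + γ r ω) - Real.log (1 - γ r ω)) / 2 with hQ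
    have hQm : Ms (one L b r) Q := Ms.comp2 (hA.ms b r) (hγ r)
      (fun x y => (Real.log (1 + x) - Real.log (1 - x)) / 2 -
        (Real.log (1 + y) - Real.log (1 - y)) / 2)
    have h1 : (fun ω => Real.log (1 + sb b r ω * al ρ b r ω) -
        Real.log (1 + sb b r ω * γ r ω)) = fun ω => P ω + sb b r ω * Q ω := by
      funext ω
      rw [log_sgn (sb_or b r ω), log_sgn (sb_or b r ω), hP, hQ]
      ring
    rw [h1, Ex_add, hA.ex b r Q hQm, ← Ex_add]
    have h2 : Ex ρ (fun ω => (al ρ b r ω - γ r ω) ^ 2) / 2 =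
        Ex ρ (fun ω => (1 / 2) * (al ρ b r ω - γ r ω) ^ 2) := by
      rw [Ex_smul]
      ring
    rw [h2]
    refine Ex_mono hρ fun ω => ?_
    have h3 := kl_scalar (hA.abs b r ω) (hγ1 r ω)
    rw [hP, hQ]
    linarith
  have e4 : ∑ r ∈ range L, Ex ρ (fun ω => (al ρ b r ω - γ r ω) ^ 2) / 2 ≤
      ∑ r ∈ range L, Ex ρ (fun ω => Real.log (1 + sb b r ω * al ρ b r ω) -
        Real.log (1 + sb b r ω * γ r ω)) := sum_le_sum fun r _ => e3 r
  rw [← sum_div] at e4
  rw [e1]
  linarith

/-- the density bounds the biases -/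
theorem kld_66 {m L : ℕ} {k : ℝ} {ρ : Pt m L → ℝ} (hρ : Law k ρ) (b : Fin (m + 1)) :
    ∑ r ∈ range L, Ex ρ (fun ω => al ρ b r ω ^ 2) ≤ 2 * k := by
  have h := klx_66 hρ b (fun _ _ => 0) (fun _ => Ms.cst _ _) (fun _ _ => by simp)
    (fun _ => 1) (Ms.cst _ _) (fun _ => one_pos) (Av_const 1).le
  simp only [sub_zero, mul_zero, add_zero, Real.log_one, sum_const_zero] at h
  refine h.trans ?_
  have h1 : Ex ρ (fun ω => Real.log (ρ ω)) ≤ Ex ρ (fun _ => k) := by
    unfold Ex
    refine Av_mono fun ω => ?_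
    rcases (hρ.nonneg ω).eq_or_lt with h2 | h2
    · rw [← h2]
      simp
    · refine mul_le_mul_of_nonneg_left ?_ h2.le
      rw [← Real.log_exp k]
      exact Real.log_le_log h2 (hρ.le ω)
  rw [Ex_const hρ] at h1
  linarith

/-- the exponential reference law -/
theorem klt_66 {m L : ℕ} {k : ℝ} {ρ : Pt m L → ℝ} (hρ : Law k ρ) (b : Fin (m + 1))
    (β : ℕ → Pt m L → ℝ) (hβ : ∀ r, Ms (one L b r) (β r)) :
    ∑ r ∈ range L, Ex ρ (fun ω => (al ρ b r ω - Real.tanh (β r ω)) ^ 2) ≤
      2 * Ex ρ (fun ω => Real.log (ρ ω) -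
        ∑ r ∈ range L, (sb b r ω * β r ω - β r ω ^ 2 / 2)) := by
  have h := klx_66 hρ b (fun r ω => Real.tanh (β r ω)) (fun r => (hβ r).comp Real.tanh)
    (fun r ω => Real.abs_tanh_lt_one _)
    (fun _ => 1) (Ms.cst _ _) (fun _ => one_pos) (Av_const 1).le
  refine h.trans ?_
  have h1 : ∀ x : ℝ, 1 + Real.tanh x = Real.exp x / Real.cosh x := by
    intro x
    have hc := (Real.cosh_pos x).ne'
    rw [Real.tanh_eq_sinh_div_cosh, ← Real.cosh_add_sinh]
    field_simp
  have h2 : ∀ s x : ℝ, s = 1 ∨ s = -1 → s * x - x ^ 2 / 2 ≤ Real.log (1 + s * Real.tanh x) := by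
    intro s x hs
    have e : 1 + s * Real.tanh x = Real.exp (s * x) / Real.cosh x := by
      rcases hs with h | h
      · rw [h, one_mul, one_mul, h1]
      · rw [h, neg_one_mul, neg_one_mul, ← Real.tanh_neg, h1, Real.cosh_neg]
    rw [e, Real.log_div (Real.exp_pos _).ne' (Real.cosh_pos _).ne', Real.log_exp]
    have h3 : Real.log (Real.cosh x) ≤ x ^ 2 / 2 := by
      rw [← Real.log_exp (x ^ 2 / 2)]
      exact Real.log_le_log (Real.cosh_pos x) (Real.cosh_le_exp_half_sq x)
    linarith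
  refine mul_le_mul_of_nonneg_left (Ex_mono hρ fun ω => ?_) (by norm_num)
  rw [Real.log_one, sub_zero]
  exact sub_le_sub_left (sum_le_sum fun r _ => h2 _ _ (sb_or b r ω)) _

/-- two laws -/
theorem kll_66 {m L : ℕ} {k k' : ℝ} {ρ R : Pt m L → ℝ} (hρ : Law k ρ) (hR : Law k' R)
    (hR0 : ∀ ω, 0 < R ω) (b : Fin (m + 1)) :
    ∑ r ∈ range L, Ex ρ (fun ω => (al ρ b r ω - al R b r ω) ^ 2) ≤
      2 * Ex ρ (fun ω => Real.log (ρ ω) - Real.log (R ω)) := by
  have hE := eeb_36 m L
  have hA := alf_74 eeb_36 m L k' R hR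
  have h1 : ∀ r < L, ∀ ω, |al R b r ω| < 1 := by
    intro r hr ω
    -- both signs have positive mass
    have h2 : ∀ ω', 0 < 1 + sb b r ω' * al R b r ω' := fun ω' =>
      one_add_pos hR.nonneg b hr (hR0 ω').ne'
    have h3 := hA.ms b r
    -- a point of the class with the other sign
    obtain ⟨ω', hω', hs⟩ : ∃ ω', cl (one L b r) ω' ω ∧ sb b r ω' = -sb b r ω := by
      refine ⟨Function.update ω b (Function.update (ω b) ⟨r, hr⟩ (!(ω b ⟨r, hr⟩))), ?_, ?_⟩
      · rw [cl_one_iff]
        refine ⟨?_, fun c hc => Function.update_of_ne hc _ _⟩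
        rw [Function.update_self, pre_iff33]
        intro j hj
        have : j ≠ ⟨r, hr⟩ := by
          intro h
          rw [h] at hj
          exact absurd hj (lt_irrefl _)
        rw [Function.update_of_ne this]
      · unfold sb bit
        rw [dif_pos hr, dif_pos hr, Function.update_self, Function.update_self]
        cases ω b ⟨r, hr⟩ <;> simp [sgr]
    have h4 := h2 ω
    have h5 := h2 ω'
    rw [hs, h3 ω ω' hω'] at h5
    rw [abs_lt]
    rcases sb_or b r ω with h6 | h6
    · rw [h6] at h4 h5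
      constructor <;> linarith
    · rw [h6] at h4 h5
      constructor <;> linarith
  -- cut the biases beyond `L`
  set γ : ℕ → Pt m L → ℝ := fun r ω => if r < L then al R b r ω else 0 with hγ
  have h2 : ∀ r < L, γ r = al R b r := by
    intro r hr
    funext ω
    simp only [hγ, if_pos hr]
  have h := klx_66 hρ b γ (fun r => by
      by_cases hr : r < L
      · rw [h2 r hr]
        exact hA.ms b r
      · intro ω ω' _
        simp only [hγ, if_neg hr]) (fun r ω => by
      by_cases hr : r < L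
      · rw [h2 r hr]
        exact h1 r hr ω
      · simp only [hγ, if_neg hr, abs_zero]
        exact one_pos)
    (EE (one L b 0) R) (hE.ms _ _) (fun ω => EE_pos hR.nonneg b 0 (hR0 ω).ne')
    (by rw [hE.mean, hR.mean])
  have e1 : ∑ r ∈ range L, Ex ρ (fun ω => (al ρ b r ω - al R b r ω) ^ 2) =
      ∑ r ∈ range L, Ex ρ (fun ω => (al ρ b r ω - γ r ω) ^ 2) :=
    sum_congr rfl fun r hr => by rw [h2 r (mem_range.1 hr)]
  have e2 : (fun ω => Real.log (ρ ω) - Real.log (R ω)) = fun ω => Real.log (ρ ω) -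
      Real.log (EE (one L b 0) R ω) - ∑ r ∈ range L, Real.log (1 + sb b r ω * γ r ω) := by
    funext ω
    rw [log_eq hR.nonneg b (hR0 ω).ne']
    have : ∑ r ∈ range L, Real.log (1 + sb b r ω * γ r ω) =
        ∑ r ∈ range L, Real.log (1 + sb b r ω * al R b r ω) :=
      sum_congr rfl fun r hr => by rw [h2 r (mem_range.1 hr)]
    rw [this]
    ring
  rw [e1, e2]
  exact h

/-! ### conditioned laws -/

open Classical in
/-- the law `Q` conditioned on the event `A` -/
noncomputable def cdl {m L : ℕ} (Q : Pt m L → ℝ) (A : Pt m L → Prop) (ω : Pt m L) : ℝ :=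
  if A ω then Q ω / Pr Q A else 0

open Classical in
theorem cdl_ex {m L : ℕ} (Q : Pt m L → ℝ) (A : Pt m L → Prop) (φ : Pt m L → ℝ) :
    Ex (cdl Q A) φ = Ex Q (fun ω => if A ω then φ ω else 0) / Pr Q A := by
  unfold Ex
  rw [div_eq_inv_mul, ← Av_smul]
  congr 1
  funext ω
  unfold cdl
  by_cases h : A ω
  · simp only [h, if_true]
    rw [div_eq_inv_mul]
    ring
  · simp [h]

open Classical in
theorem cdl_law {m L : ℕ} {k : ℝ} {Q : Pt m L → ℝ} (hQ : Law k Q) (A : Pt m L → Prop)
    (hA : 0 < Pr Q A) : Law (k - Real.log (Pr Q A)) (cdl Q A) := by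
  refine ⟨fun ω => ?_, ?_, fun ω => ?_⟩
  · unfold cdl
    split_ifs
    · exact div_nonneg (hQ.nonneg ω) hA.le
    · exact le_rfl
  · have h1 := cdl_ex Q A (fun _ => 1)
    unfold Ex at h1
    simp only [mul_one] at h1
    rw [h1]
    have h2 : Av (fun ω => Q ω * if A ω then (1 : ℝ) else 0) = Pr Q A := rfl
    rw [h2, div_self hA.ne']
  · rw [Real.exp_sub, Real.exp_log hA]
    unfold cdl
    split_ifs
    · exact div_le_div_of_nonneg_right (hQ.le ω) hA.le
    · positivity

theorem cdl_supp {m L : ℕ} {Q : Pt m L → ℝ} {A : Pt m L → Prop} {ω : Pt m L}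
    (h : cdl Q A ω ≠ 0) : A ω ∧ Q ω ≠ 0 := by
  unfold cdl at h
  split_ifs at h with h1
  · refine ⟨h1, fun h2 => h ?_⟩
    rw [h2, zero_div]
  · exact absurd rfl h

/-- expectations under the conditioned law only see the event -/
theorem cdl_mono {m L : ℕ} {Q : Pt m L → ℝ} (hQ : ∀ ω, 0 ≤ Q ω) {A : Pt m L → Prop}
    (hA : 0 < Pr Q A) {φ ψ : Pt m L → ℝ} (h : ∀ ω, A ω → φ ω ≤ ψ ω) :
    Ex (cdl Q A) φ ≤ Ex (cdl Q A) ψ := by
  unfold Ex
  refine Av_mono fun ω => ?_
  by_cases h1 : cdl Q A ω = 0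
  · rw [h1]
    simp
  · refine mul_le_mul_of_nonneg_left (h ω (cdl_supp h1).1) ?_
    unfold cdl
    split_ifs
    · exact div_nonneg (hQ ω) hA.le
    · exact le_rfl

theorem cdl_log {m L : ℕ} {Q : Pt m L → ℝ} {A : Pt m L → Prop} (hA : 0 < Pr Q A) {ω : Pt m L}
    (h : cdl Q A ω ≠ 0) :
    Real.log (cdl Q A ω) = Real.log (Q ω) - Real.log (Pr Q A) := by
  have h1 := cdl_supp h
  unfold cdl
  rw [if_pos h1.1, Real.log_div h1.2 hA.ne']

/-- the biases of the conditioned law -/
theorem klc_66 {m L : ℕ} {k : ℝ} {Q : Pt m L → ℝ} (hQ : Law k Q) (hQ0 : ∀ ω, 0 < Q ω)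
    (A : Pt m L → Prop) (hA : 0 < Pr Q A) (b : Fin (m + 1)) :
    ∑ r ∈ range L, Ex (cdl Q A) (fun ω => (al (cdl Q A) b r ω - al Q b r ω) ^ 2) ≤
      -2 * Real.log (Pr Q A) := by
  have hl := cdl_law hQ A hA
  refine (kll_66 hl hQ hQ0 b).trans ?_
  have h1 : Ex (cdl Q A) (fun ω => Real.log (cdl Q A ω) - Real.log (Q ω)) =
      Ex (cdl Q A) (fun _ => -Real.log (Pr Q A)) := by
    unfold Ex
    congr 1
    funext ω
    by_cases h : cdl Q A ω = 0
    · rw [h]
      ring
    · beta_reduce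
      rw [cdl_log hA h]
      ring
  rw [h1, Ex_const hl]
  linarith

/-- the conditioned law against the exponential reference law -/
theorem klct_66 {m L : ℕ} {k : ℝ} {Q : Pt m L → ℝ} (hQ : Law k Q)
    (A : Pt m L → Prop) (hA : 0 < Pr Q A) (b : Fin (m + 1))
    (β : ℕ → Pt m L → ℝ) (hβ : ∀ r, Ms (one L b r) (β r)) :
    ∑ r ∈ range L, Ex (cdl Q A) (fun ω => (al (cdl Q A) b r ω - Real.tanh (β r ω)) ^ 2) ≤
      -2 * Real.log (Pr Q A) + 2 * Ex (cdl Q A) (fun ω => Real.log (Q ω) -
        ∑ r ∈ range L, (sb b r ω * β r ω - β r ω ^ 2 / 2)) := by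
  have hl := cdl_law hQ A hA
  refine (klt_66 hl b β hβ).trans ?_
  have h1 : Ex (cdl Q A) (fun ω => Real.log (cdl Q A ω) -
        ∑ r ∈ range L, (sb b r ω * β r ω - β r ω ^ 2 / 2)) =
      Ex (cdl Q A) (fun ω => -Real.log (Pr Q A) + (Real.log (Q ω) -
        ∑ r ∈ range L, (sb b r ω * β r ω - β r ω ^ 2 / 2))) := by
    unfold Ex
    congr 1
    funext ω
    by_cases h : cdl Q A ω = 0
    · rw [h]
      ring
    · beta_reduce
      rw [cdl_log hA h]
      ring
  rw [h1, Ex_add, Ex_const hl]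
  linarith

/-! ### the self normalised martingale -/

/-- SN -/
theorem sn_66 {m L : ℕ} {k : ℝ} {ρ : Pt m L → ℝ} (hρ : Law k ρ) (c : Fin (m + 1))
    (z : ℕ → Pt m L → ℝ) (hz : ∀ t, Ms (one L c t) (z t)) {δ : ℝ} (hδ : 0 < δ) :
    Ex ρ (fun ω => (∑ t ∈ range L, (sb c t ω - al ρ c t ω) * z t ω) ^ 2 /
      (δ + ∑ t ∈ range L, z t ω ^ 2)) ≤
      4 * Ex ρ (fun ω => Real.log (1 + (∑ t ∈ range L, z t ω ^ 2) / δ)) := by
  have hA := alf_74 eeb_36 m L k ρ hρ
  set S : ℕ → Pt m L → ℝ := fun n ω => ∑ t ∈ range n, (sb c t ω - al ρ c t ω) * z t ω with hS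
  set W : ℕ → Pt m L → ℝ := fun n ω => δ + ∑ t ∈ range n, z t ω ^ 2 with hW
  have hWp : ∀ n ω, 0 < W n ω := fun n ω => by
    have : 0 ≤ ∑ t ∈ range n, z t ω ^ 2 := sum_nonneg fun _ _ => sq_nonneg _
    simp only [hW]
    linarith
  have hmono : ∀ {s t : ℕ}, s ≤ t → ∀ a : Fin (m + 1), one L c s a ≤ one L c t a ∨
      L ≤ one L c t a := by
    intro s t hst a
    left
    exact A74.one_le c hst a
  have hSm : ∀ n, Ms (one L c n) (S n) := by
    intro n
    refine Ms.sum _ fun t ht => ?_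
    have ht := mem_range.1 ht
    have h1 : Ms (one L c n) (sb (L := L) c t) := Ms_sb (by simpa [one] using ht)
    have h2 := (hA.ms c t).mono (hmono ht.le)
    have h3 := (hz t).mono (hmono ht.le)
    exact (h1.comp2 h2 (fun x y => x - y)).comp2 h3 (fun x y => x * y)
  have hWm : ∀ n, Ms (one L c n) (W (n + 1)) := by
    intro n
    have h1 : Ms (one L c n) (fun ω => ∑ t ∈ range (n + 1), z t ω ^ 2) :=
      Ms.sum _ fun t ht =>
        ((hz t).mono (hmono (Nat.lt_succ_iff.1 (mem_range.1 ht)))).comp (fun x => x ^ 2)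
    exact h1.comp (fun x => δ + x)
  have key : ∀ n ≤ L, Ex ρ (fun ω => S n ω ^ 2 / W n ω) ≤
      4 * Ex ρ (fun ω => Real.log (W n ω) - Real.log δ) := by
    intro n
    induction n with
    | zero =>
      intro _
      simp [hS, hW, Ex_const hρ]
    | succ n ih =>
      intro hn
      have ih := ih (by omega)
      set X : Pt m L → ℝ := fun ω => 2 * (S n ω * z n ω / W (n + 1) ω) with hX
      have hXm : Ms (one L c n) X :=
        (((hSm n).comp2 (hz n) (fun x y => x * y)).comp2 (hWm n) (fun x y => x / y)).comp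
          (fun x => 2 * x)
      have h0 : Ex ρ (fun ω => (sb c n ω - al ρ c n ω) * X ω) = 0 := by
        have : (fun ω => (sb c n ω - al ρ c n ω) * X ω) =
            fun ω => sb c n ω * X ω - al ρ c n ω * X ω := by
          funext ω
          ring
        rw [this, Ex_sub, hA.ex c n X hXm, sub_self]
      have h1 : ∀ ω, S (n + 1) ω ^ 2 / W (n + 1) ω ≤ S n ω ^ 2 / W n ω +
          (sb c n ω - al ρ c n ω) * X ω +
          4 * (Real.log (W (n + 1) ω) - Real.log (W n ω)) := by
        intro ω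
        have hw := hWp n ω
        have hw' := hWp (n + 1) ω
        have e1 : W (n + 1) ω = W n ω + z n ω ^ 2 := by
          simp only [hW, sum_range_succ]
          ring
        have e2 : S (n + 1) ω = S n ω + (sb c n ω - al ρ c n ω) * z n ω := by
          simp only [hS, sum_range_succ]
        have h2 : S n ω ^ 2 / W (n + 1) ω ≤ S n ω ^ 2 / W n ω :=
          div_le_div_of_nonneg_left (sq_nonneg _) hw (by rw [e1]; nlinarith [sq_nonneg (z n ω)])
        have h3 : (sb c n ω - al ρ c n ω) ^ 2 ≤ 4 := by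
          have h4 := abs_le.1 (hA.abs c n ω)
          rcases sb_or c n ω with h5 | h5 <;> rw [h5] <;> nlinarith
        have h4 : z n ω ^ 2 / W (n + 1) ω ≤ Real.log (W (n + 1) ω) - Real.log (W n ω) := by
          have h5 := Real.log_le_sub_one_of_pos (div_pos hw hw')
          rw [Real.log_div hw.ne' hw'.ne'] at h5
          have h6 : z n ω ^ 2 / W (n + 1) ω = 1 - W n ω / W (n + 1) ω := by
            rw [eq_sub_iff_add_eq, ← add_div, add_comm, ← e1, div_self hw'.ne']
          linarith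
        have h5 : (sb c n ω - al ρ c n ω) ^ 2 * (z n ω ^ 2 / W (n + 1) ω) ≤
            4 * (Real.log (W (n + 1) ω) - Real.log (W n ω)) :=
          (mul_le_mul_of_nonneg_right h3 (by positivity)).trans
            (mul_le_mul_of_nonneg_left h4 (by norm_num))
        have e3 : S (n + 1) ω ^ 2 / W (n + 1) ω = S n ω ^ 2 / W (n + 1) ω +
            (sb c n ω - al ρ c n ω) * X ω +
            (sb c n ω - al ρ c n ω) ^ 2 * (z n ω ^ 2 / W (n + 1) ω) := by
          rw [e2, hX]
          field_simp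
          ring
        rw [e3]
        linarith
      have h2 := Ex_mono hρ h1
      rw [Ex_add, Ex_add, h0, Ex_smul, Ex_sub] at h2
      rw [Ex_sub] at ih ⊢
      linarith
  have h := key L le_rfl
  refine h.trans (le_of_eq ?_)
  congr 2
  funext ω
  have hw := hWp L ω
  rw [← Real.log_div hw.ne' hδ.ne']
  congr 1
  simp only [hW]
  field_simp

end Pool.Agent.SHD
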