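import Pool.Agent.Lib.MP_a7b2aa_an.SHD.Stmts2_65
import Pool.Agent.Lib.MP_a7b2aa_an.SHD.CmnG65
import Pool.Agent.Lib.MP_a7b2aa_an.SHD.Klx66

/-!
# ENTC (seat 74): conditional bound for the biases
-/

set_option autoImplicit false

namespace Pool.Agent.SHD

open Finset Pool.Agent.SB3 Pool.Agent.SBT Pool.Agent.SBD

namespace EC74

variable {m L : ℕ}

/-- `x log x` -/
noncomputable def hh (x : ℝ) : ℝ := x * Real.log x

theorem hh_mul (x y : ℝ) : hh (x * y) = y * hh x + x * hh y := by
  unfold hh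
  by_cases hx : x = 0
  · subst hx; simp
  by_cases hy : y = 0
  · subst hy; simp
  rw [Real.log_mul hx hy]
  ring

theorem hh_sgn {s x : ℝ} (hs : s = 1 ∨ s = -1) :
    hh (1 + s * x) = (hh (1 + x) + hh (1 - x)) / 2 + ((hh (1 + x) - hh (1 - x)) / 2) * s := by
  rcases hs with h | h
  · rw [h, one_mul]
    ring
  · rw [h]
    have : 1 + -1 * x = 1 - x := by ring
    rw [this]
    ring

theorem hh_kl {a : ℝ} (ha : |a| ≤ 1) : a ^ 2 / 2 ≤ (hh (1 + a) + hh (1 - a)) / 2 := by
  have h := K66.kl_scalar (t := 0) ha (by norm_num)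
  simp only [sub_zero, add_zero, Real.log_one] at h
  unfold hh
  linarith

/-- one step of the entropy -/
theorem ent_step {ρ : Pt m L → ℝ} (hρ : ∀ ω, 0 ≤ ρ ω) (a : Fin (m + 1)) {t : ℕ} (ht : t < L)
    (ω : Pt m L) :
    hh (EE (one L a t) ρ ω) + EE (one L a t) ρ ω * (al ρ a t ω ^ 2 / 2) ≤
      EE (one L a t) (fun ω' => hh (EE (one L a (t + 1)) ρ ω')) ω := by
  have hE := eeb_36 m L
  have hle : |EE (one L a t) (fun ω' => ρ ω' * sb a t ω') ω| ≤ EE (one L a t) ρ ω := by
    refine (hE.abs _ _ _).trans (hE.mono _ _ _ (fun ω' => ?_) ω)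
    rw [abs_mul, SBD.sb_abs, mul_one, abs_of_nonneg (hρ ω')]
  have h0 : 0 ≤ EE (one L a t) ρ ω := (abs_nonneg _).trans hle
  have hal : |al ρ a t ω| ≤ 1 := by
    unfold al
    rw [abs_div, abs_of_nonneg h0]
    exact div_le_one_of_le₀ hle h0
  have halm : Ms (one L a t) (al ρ a t) := by
    intro ω ω' hc
    unfold al
    rw [hE.ms _ _ ω ω' hc, hE.ms _ ρ ω ω' hc]
  have hfm : Ms (one L a t) (EE (one L a t) ρ) := hE.ms _ _
  have e1 : (fun ω' => hh (EE (one L a (t + 1)) ρ ω')) = fun ω' =>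
      (hh (EE (one L a t) ρ ω') + EE (one L a t) ρ ω' *
        ((hh (1 + al ρ a t ω') + hh (1 - al ρ a t ω')) / 2)) +
      (al ρ a t ω' * hh (EE (one L a t) ρ ω') + EE (one L a t) ρ ω' *
        ((hh (1 + al ρ a t ω') - hh (1 - al ρ a t ω')) / 2)) * sb a t ω' := by
    funext ω'
    rw [K66.EE_step hρ a ht ω', hh_mul, hh_sgn (K66.sb_or a t ω')]
    ring
  rw [e1, hE.add (one L a t) (fun ω' => hh (EE (one L a t) ρ ω') + EE (one L a t) ρ ω' *
        ((hh (1 + al ρ a t ω') + hh (1 - al ρ a t ω')) / 2)) (fun ω' =>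
      (al ρ a t ω' * hh (EE (one L a t) ρ ω') + EE (one L a t) ρ ω' *
        ((hh (1 + al ρ a t ω') - hh (1 - al ρ a t ω')) / 2)) * sb a t ω') ω,
    hE.pull (one L a t) (fun ω' => al ρ a t ω' * hh (EE (one L a t) ρ ω') +
      EE (one L a t) ρ ω' * ((hh (1 + al ρ a t ω') - hh (1 - al ρ a t ω')) / 2)) (sb a t)
      (halm.comp2 hfm (fun x y => x * hh y + y * ((hh (1 + x) - hh (1 - x)) / 2))) ω,
    ee_sb_21 hE a t ht, mul_zero, add_zero,
    hE.idem (one L a t) _ (halm.comp2 hfm (fun x y => hh y + y * ((hh (1 + x) + hh (1 - x)) / 2))) ω]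
  have := mul_le_mul_of_nonneg_left (hh_kl hal) h0
  linarith

end EC74

open EC74 in
theorem entc_74 : StEntC := by
  intro m L k ρ a p ω hρ hk hc
  have hE := eeb_36 m L
  set c := EE p ρ ω with hcd
  have hck : c ≤ Real.exp k := by
    rw [hcd]
    refine (hE.mono p ρ (fun _ => Real.exp k) hk ω).trans (le_of_eq (hE.const _ _ _))
  have hlog : Real.log c ≤ k := by
    rw [← Real.log_exp k]
    exact Real.log_le_log hc hck
  have hpos : 0 ≤ c * (k - Real.log c) := mul_nonneg hc.le (by linarith)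
  by_cases hpa : p a ≤ L
  swap
  · have : Finset.Ico (p a) L = ∅ := Finset.Ico_eq_empty (by omega)
    rw [this]
    simp only [sum_empty, mul_zero]
    rw [hE.const]
    linarith
  have htow : ∀ t, p a ≤ t → ∀ φ : Pt m L → ℝ, EE p (EE (one L a t) φ) ω = EE p φ ω := by
    intro t ht φ
    refine EE_tower65 hE (fun b => ?_) φ ω
    by_cases hb : b = a
    · subst hb
      left
      unfold one
      rw [Function.update_self]
      exact ht
    · right
      unfold one
      rw [Function.update_of_ne hb]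
  have halm : ∀ t, Ms (one L a t) (al ρ a t) := by
    intro t ω ω' hc
    unfold al
    rw [hE.ms _ _ ω ω' hc, hE.ms _ ρ ω ω' hc]
  -- telescoping
  have key : ∀ n, p a ≤ n → n ≤ L →
      EE p (fun ω' => hh (EE (one L a (p a)) ρ ω')) ω +
        EE p (fun ω' => ρ ω' * ∑ t ∈ Finset.Ico (p a) n, al ρ a t ω' ^ 2) ω / 2 ≤
      EE p (fun ω' => hh (EE (one L a n) ρ ω')) ω := by
    intro n hn
    induction n, hn using Nat.le_induction with
    | base =>
      intro _
      simp only [Finset.Ico_self, sum_empty, mul_zero]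
      rw [hE.const]
      linarith
    | succ n hn ih =>
      intro hnL
      have ih' := ih (by omega)
      have e1 : EE p (fun ω' => ρ ω' * ∑ t ∈ Finset.Ico (p a) (n + 1), al ρ a t ω' ^ 2) ω =
          EE p (fun ω' => ρ ω' * ∑ t ∈ Finset.Ico (p a) n, al ρ a t ω' ^ 2) ω +
          EE p (fun ω' => EE (one L a n) ρ ω' * al ρ a n ω' ^ 2) ω := by
        have e2 : EE p (fun ω' => EE (one L a n) ρ ω' * al ρ a n ω' ^ 2) ω =
            EE p (fun ω' => ρ ω' * al ρ a n ω' ^ 2) ω := by
          rw [← htow n hn (fun ω' => ρ ω' * al ρ a n ω' ^ 2)]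
          congr 1
          funext ω'
          have h1 := hE.pull (one L a n) (fun ω' => al ρ a n ω' ^ 2) ρ
            ((halm n).comp (fun x => x ^ 2)) ω'
          have h2 : (fun ω' => ρ ω' * al ρ a n ω' ^ 2) = fun ω' => al ρ a n ω' ^ 2 * ρ ω' := by
            funext ω''
            ring
          rw [h2, h1]
          ring
        rw [e2, ← hE.add]
        congr 1
        funext ω'
        rw [Finset.sum_Ico_succ_top hn]
        ring
      have h3 : EE p (fun ω' => hh (EE (one L a n) ρ ω') +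
          EE (one L a n) ρ ω' * (al ρ a n ω' ^ 2 / 2)) ω ≤
          EE p (fun ω' => hh (EE (one L a (n + 1)) ρ ω')) ω := by
        rw [← htow n hn (fun ω' => hh (EE (one L a (n + 1)) ρ ω'))]
        exact hE.mono _ _ _ (fun ω' => ent_step hρ a (by omega) ω') ω
      have h4 : EE p (fun ω' => hh (EE (one L a n) ρ ω') +
          EE (one L a n) ρ ω' * (al ρ a n ω' ^ 2 / 2)) ω =
          EE p (fun ω' => hh (EE (one L a n) ρ ω')) ω +
          EE p (fun ω' => EE (one L a n) ρ ω' * al ρ a n ω' ^ 2) ω / 2 := by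
        have h5 : (fun ω' => hh (EE (one L a n) ρ ω') +
            EE (one L a n) ρ ω' * (al ρ a n ω' ^ 2 / 2)) = fun ω' =>
            hh (EE (one L a n) ρ ω') + (1 / 2) * (EE (one L a n) ρ ω' * al ρ a n ω' ^ 2) := by
          funext ω'
          ring
        rw [h5, hE.add p (fun ω' => hh (EE (one L a n) ρ ω'))
          (fun ω' => (1 / 2) * (EE (one L a n) ρ ω' * al ρ a n ω' ^ 2)) ω,
          hE.smul p (1 / 2) (fun ω' => EE (one L a n) ρ ω' * al ρ a n ω' ^ 2) ω]
        ring
      rw [e1]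
      rw [h4] at h3
      linarith
  have h1 := key L hpa le_rfl
  -- the end
  have h2 : EE p (fun ω' => hh (EE (one L a L) ρ ω')) ω ≤ k * c := by
    rw [hcd, ← hE.smul p k ρ ω]
    refine hE.mono _ _ _ (fun ω' => ?_) ω
    rw [K66.EE_full]
    unfold hh
    rcases (hρ ω').eq_or_lt with h | h
    · rw [← h]
      simp
    · rw [mul_comm k]
      refine mul_le_mul_of_nonneg_left ?_ h.le
      rw [← Real.log_exp k]
      exact Real.log_le_log h (hk ω')
  -- Jensen
  have h3 : c * Real.log c ≤ EE p (fun ω' => hh (EE (one L a (p a)) ρ ω')) ω := by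
    have h4 : EE p (fun ω' => (Real.log c + 1) * EE (one L a (p a)) ρ ω' + -c) ω ≤
        EE p (fun ω' => hh (EE (one L a (p a)) ρ ω')) ω := by
      refine hE.mono _ _ _ (fun ω' => ?_) ω
      have h5 : 0 ≤ EE (one L a (p a)) ρ ω' := by
        have := hE.mono (one L a (p a)) (fun _ => 0) ρ hρ ω'
        rwa [hE.const] at this
      have h6 := K66.log_jensen h5 hc
      unfold hh
      linarith
    rw [hE.add p (fun ω' => (Real.log c + 1) * EE (one L a (p a)) ρ ω') (fun _ => -c) ω,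
      hE.const, hE.smul p (Real.log c + 1) (EE (one L a (p a)) ρ) ω, htow (p a) le_rfl ρ,
      ← hcd] at h4
    linarith
  nlinarith

end Pool.Agent.SHD
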