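import Pool.Agent.Lib.MP_a7b2aa_an.SHD.Stmts65
import Pool.Agent.Lib.MP_a7b2aa_an.SBD.Stmts30

/-!
SHD4, torus part (helper74): from the digits theorem (L^1 form, exponent `p`) to the torus.
-/

set_option autoImplicit false

namespace Pool.Agent.SHD

open Finset Pool.Agent.SB3 Pool.Agent.SBT Pool.Agent.SBD

/-- ENDL: the digits theorem, `L ^ 1` form, exponent `p` -/
def StEndL (m : ℕ) (p : ℝ) : Prop := ∃ C : ℝ, 0 < C ∧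
  ∀ (L N : ℕ) (v : (Fin (m + 1) → ℕ) → Pt m L → ℝ), 1 ≤ L → ArK N v → (∀ ω, |HH v ω| ≤ 1) →
    ∑ q ∈ All m L, Av (fun ω => |v q ω|) ≤ C * (L : ℝ) ^ p

/-- GRIDL: the theorem on the discrete torus, exponent `p` -/
def StGridL (m : ℕ) (p : ℝ) : Prop := ∃ C : ℝ, 0 < C ∧
    ∀ (M0 : ℕ) (c : (Fin (m + 1) → ℤ) → ℂ) (M : ℝ), 1 ≤ M0 →
    (∀ u, |FmD (m + 1) M0 c u| ≤ M) →
    ∑ l ∈ Finset.Nat.antidiagonalTuple (m + 1) M0, S1 (PT (N := 2 ^ (2 * M0 + 3)) (blkD l) c) ≤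
      C * ((2 * M0 : ℕ) : ℝ) ^ p * M * (2 ^ (2 * M0 + 3)) ^ (m + 1)

/-- FINL: the theorem on the torus, exponent `p` -/
def StFinL (m : ℕ) (p : ℝ) : Prop := ∃ C : ℝ, 0 < C ∧
    ∀ (M0 : ℕ) (c : (Fin (m + 1) → ℤ) → ℂ), 1 ≤ M0 →
    C * ∑ l ∈ Finset.Nat.antidiagonalTuple (m + 1) M0, nrmD (bpD c l) ≤
      ((2 * M0 : ℕ) : ℝ) ^ p *
        ⨆ x : Fin (m + 1) → ℝ, ‖∑ l ∈ Finset.Nat.antidiagonalTuple (m + 1) M0, bpD c l x‖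

end Pool.Agent.SHD
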