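import Pool.Agent.Lib.MP_a7b2aa_an.SHD.Stmts3_23
import Pool.Agent.Lib.MP_a7b2aa_an.SHD.Stmts5_74

/-!
SHD4 (chair: helper25): MP_a7b2aa_an, every dimension `d = m + 1 ≥ 3`, all coefficients, the
`L ^ 1` form with the gain `1 / 4 - ε`: from the natural norms (SHD3, tilt by the flat array
`u = sgn v`) to the digits theorem `StEndL`. Blueprints: SHD4_25.md (proof), SHD4_25b.md (modules).
-/

set_option autoImplicit false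

namespace Pool.Agent.SHD

open Finset Pool.Agent.SB3 Pool.Agent.SBT Pool.Agent.SBD

/-! ### definitions -/

/-- the tilt is switched off from the row `j` on -/
noncomputable def cu {m L : ℕ} (j : ℕ) (θ : ℕ → Pt m L → ℝ) (i : ℕ) (ω : Pt m L) : ℝ :=
  if i < j then θ i ω else 0

/-- the tame tilt: everything that is needed from SHD3. `β` is the size of the natural norms,
`S` the error of the explicit bias, `δ` the exceptional probability -/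
structure Tame {m L : ℕ} (β k lam S δ : ℝ) (g : ℕ → Pt m L → ℝ)
    (u : (Fin (m + 1) → ℕ) → Pt m L → ℝ) : Prop where
  gate : Gate g
  prd : Prd (tg lam g u)
  law : Law k (qq (tg lam g u))
  opn : Pr (qq (tg lam g u)) (fun ω => ∃ j < L, g j ω = 0) ≤ δ
  nrm : Nrm (fun l => β * (L : ℝ) ^ l) g u
  nat : ∀ j ω, j < L → g j ω = 1 → Nt (fun _ => β) u j m ω
  bia : ∀ (j : ℕ) (b : Fin (m + 1)), j < L → b ≠ 0 →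
    Pr (qq (cu j (tg lam g u))) (fun ω => g j ω = 1 ∧
      S < ∑ r ∈ range L, (al (qq (cu j (tg lam g u))) b r ω - be lam b u j r ω) ^ 2) ≤ δ

/-- the sum over the strings in `U` -/
noncomputable def Fh {m L : ℕ} (U : Finset (Fin (m + 1))) (φ : (Fin (m + 1) → ℕ) → Pt m L → ℝ)
    (q : Fin (m + 1) → ℕ) (ω : Pt m L) : ℝ := ∑ r ∈ fr L U q, ps U r ω * φ r ω

/-- the energy of the row `j`, the strings in `U` are summed -/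
noncomputable def en {m L : ℕ} (U : Finset (Fin (m + 1))) (j : ℕ)
    (φ : (Fin (m + 1) → ℕ) → Pt m L → ℝ) (ω : Pt m L) : ℝ :=
  ∑ q ∈ fr L (Inn m \ U) (fun _ => j), Fh U φ q ω ^ 2

/-- scales -/
def Sc {m : ℕ} (L : ℕ) (T : Finset (Fin (m + 1))) : Finset (Fin (m + 1) → ℕ) :=
  Fintype.piFinset (fun e => if e ∈ T then range (Nat.log 2 L + 1) else {0})

/-- labels of the left blocks -/
def Lb {m : ℕ} (L : ℕ) (T : Finset (Fin (m + 1))) : Finset (Fin (m + 1) → ℕ) :=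
  Fintype.piFinset (fun e => if e ∈ T then (range L).filter (fun t => t % 2 = 0) else {0})

/-- left blocks `[α 2 ^ κ, (α + 1) 2 ^ κ)` in the directions of `T` -/
def loL {m : ℕ} (T : Finset (Fin (m + 1))) (κ α : Fin (m + 1) → ℕ) (e : Fin (m + 1)) : ℕ :=
  if e ∈ T then α e * 2 ^ κ e else 0

/-- left blocks, end -/
def hiL {m : ℕ} (L : ℕ) (T : Finset (Fin (m + 1))) (κ α : Fin (m + 1) → ℕ) (e : Fin (m + 1)) : ℕ :=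
  if e ∈ T then min L ((α e + 1) * 2 ^ κ e) else L

/-- right blocks `[(α + 1) 2 ^ κ, (α + 2) 2 ^ κ)` in the directions of `T` -/
def loR {m : ℕ} (T : Finset (Fin (m + 1))) (κ α : Fin (m + 1) → ℕ) (e : Fin (m + 1)) : ℕ :=
  if e ∈ T then (α e + 1) * 2 ^ κ e else 0

/-- right blocks, end -/
def hiR {m : ℕ} (L : ℕ) (T : Finset (Fin (m + 1))) (κ α : Fin (m + 1) → ℕ) (e : Fin (m + 1)) : ℕ :=
  if e ∈ T then min L ((α e + 2) * 2 ^ κ e) else L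

/-- `φ` on the left blocks -/
noncomputable def cL {m L : ℕ} (T : Finset (Fin (m + 1))) (κ α : Fin (m + 1) → ℕ)
    (φ : (Fin (m + 1) → ℕ) → Pt m L → ℝ) : (Fin (m + 1) → ℕ) → Pt m L → ℝ :=
  cut (loL T κ α) (hiL L T κ α) φ

/-- `u` on the right blocks -/
noncomputable def cR {m L : ℕ} (T : Finset (Fin (m + 1))) (κ α : Fin (m + 1) → ℕ)
    (u : (Fin (m + 1) → ℕ) → Pt m L → ℝ) : (Fin (m + 1) → ℕ) → Pt m L → ℝ :=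
  cut (loR T κ α) (hiR L T κ α) u

/-- the sign array -/
noncomputable def sgn {m L : ℕ} (v : (Fin (m + 1) → ℕ) → Pt m L → ℝ) (q : Fin (m + 1) → ℕ)
    (ω : Pt m L) : ℝ := if 0 < v q ω then 1 else if v q ω < 0 then -1 else 0

/-- `log_2` -/
noncomputable def lg (L : ℕ) : ℝ := (Nat.log 2 L : ℝ) + 1

/-! ### general modules -/

/-- QCU: the tilt up to the row `j` (from EEB, TILTK) -/
def StQcu : Prop := ∀ (m L j : ℕ) (k : ℝ) (θ : ℕ → Pt m L → ℝ), Prd θ → Law k (qq θ) →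
  Prd (cu j θ) ∧ Law k (qq (cu j θ)) ∧
  (∀ X : Pt m L → ℝ, Ms (one L 0 j) X → Ex (qq (cu j θ)) X = Ex (qq θ) X)

/-- HELL: comparison of the biases with the explicit biases of a dominating law (from EEB) -/
def StHell : Prop := ∀ (m L n : ℕ) (k : ℝ) (ρ : Pt m L → ℝ) (a : Fin (m + 1))
    (β : ℕ → Pt m L → ℝ), Law k ρ → (∀ t, Ms (one L a t) (β t)) → (∀ t ω, |β t ω| ≤ 1) →
    Pr ρ (fun ω => ρ ω ≤ Real.exp 1 * ∏ t ∈ range L, (1 + sb a t ω * β t ω) ∧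
      8 + 12 * n * Real.log (L + 1) < ∑ t ∈ range L, (al ρ a t ω - β t ω) ^ 2) ≤ 2 / (L + 1) ^ n

/-- VISY: drift of a gated sum (from EEB, ENTC) -/
def StVisy : Prop := ∀ (m L : ℕ) (k : ℝ) (ρ W : Pt m L → ℝ) (c : Fin (m + 1))
    (g : ℕ → Pt m L → ℝ) (Y : ℕ → ℕ → Pt m L → ℝ), Law k ρ → Gate g →
    (∀ j t, Ms (one L c t) (Y j t)) → (∀ ω, 0 ≤ W ω) →
    (∀ j ω, j < L → g j ω = 1 →
      ∑ t ∈ range L, (∑ i ∈ range (j + 1), Y i t ω) ^ 2 ≤ W ω) →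
    (∑ j ∈ range L, ∑ t ∈ range L, Ex ρ (fun ω => g j ω * (sb c t ω * Y j t ω))) ^ 2 ≤
      4 * (k + Real.log (L + 1)) * Ex ρ W

/-- PEELC: one string, with a weight `γ` and a clip (from PEEL) -/
def StPeelc : Prop := ∀ (m L n : ℕ) (k B : ℝ) (ρ γ : Pt m L → ℝ) (c : Fin (m + 1))
    (K W : ℕ → Pt m L → ℝ), 0 ≤ k → Law k ρ → (∀ t, Ms (one L c t) (K t)) →
    (∀ t, Ms (one L c t) (W t)) → (∀ t ω, 0 ≤ W t ω) → (∀ t ω, W t ω ≤ B) →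
    (∀ ω, 0 ≤ γ ω) → (∀ ω, γ ω ≤ 1) →
    (∀ ω, γ ω ≠ 0 → ∀ t < L, ∑ s ∈ range (t + 1), K s ω ^ 2 ≤ ∑ s ∈ range (t + 1), W s ω) →
    Ex ρ (fun ω => γ ω * (∑ t ∈ range L, sb c t ω * K t ω) ^ 2) ≤
      2 * (1 + (4 * k + 8 * n * Real.log (L + 1))) * ∑ t ∈ range L, Ex ρ (W t) +
        2 * (L : ℝ) ^ 3 * B / (L + 1) ^ n

/-- DYAB: dyadic decomposition of the couplings -/
def StDyab : Prop := ∀ (m L : ℕ) (T : Finset (Fin (m + 1))) (p q : Fin (m + 1) → ℕ),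
    (∀ e, p e < L) → (∀ e, q e < L) →
    (if ∀ e ∈ T, p e < q e then (1 : ℝ) else 0) =
      ∑ κ ∈ Sc L T, ∑ α ∈ Lb L T,
        if (∀ e, loL T κ α e ≤ p e ∧ p e < hiL L T κ α e) ∧
          (∀ e, loR T κ α e ≤ q e ∧ q e < hiR L T κ α e) then 1 else 0

/-- PARS: Parseval's identity (from EEB) -/
def StPars : Prop := ∀ (m L : ℕ) (v : (Fin (m + 1) → ℕ) → Pt m L → ℝ), (∀ q, Ms q (v q)) →
    Av (fun ω => HH v ω ^ 2) = mass v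

/-! ### modules: the pasts are uniform -/

/-- TAILY: as TAILX, for flat arrays, small threshold (from REMG, MOME, CMNG, DENG) -/
def StTaily : Prop := ∀ (m n : ℕ) (ε : ℝ), 1 ≤ m → 0 < ε → ∃ C : ℝ, 1 ≤ C ∧
  ∀ (L N R : ℕ) (k lam b : ℝ) (bb : ℕ → ℝ) (u : (Fin (m + 1) → ℕ) → Pt m L → ℝ)
    (g : ℕ → Pt m L → ℝ) (h : Fin (m + 1) → ℕ), 1 ≤ L → 1 ≤ k → 0 ≤ lam → ArF N R u → Gate g →
    Nrm bb g u → 0 ≤ b → bb (m - 1) ≤ b → Prd (tg lam g u) → Law k (qq (tg lam g u)) → h 0 ≤ L →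
    C * lam ^ 2 * b * (k + Real.log (L + 1)) ≤ ((L : ℝ) + 1) ^ (-ε) →
    Pr (qq (tg lam g u)) (fun ω =>
      ((L : ℝ) + 1) ^ (-(ε / 2)) < ∑ j ∈ range (h 0), xo lam g u h j ω ^ 2) ≤ C / (L + 1) ^ n

/-- UNIF: the pasts of the cells in the band are uniform, up to a factor `2` and negligible terms
(from TAILY, CMNG, DENG, EEB, TILTK) -/
def StUnif : Prop := ∀ (m n : ℕ) (ε : ℝ), 1 ≤ m → 0 < ε → ∃ C : ℝ, 1 ≤ C ∧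
  ∀ (L N R : ℕ) (k lam b B : ℝ) (bb : ℕ → ℝ) (u : (Fin (m + 1) → ℕ) → Pt m L → ℝ)
    (g : ℕ → Pt m L → ℝ) (h : Fin (m + 1) → ℕ) (F : Pt m L → ℝ), 1 ≤ L → 1 ≤ k → 0 ≤ lam →
    ArF N R u → Gate g → Nrm bb g u → 0 ≤ b → bb (m - 1) ≤ b → Prd (tg lam g u) →
    Law k (qq (tg lam g u)) → (∀ a, h a ≤ L) → dst (∑ a, h a) N ≤ R →
    C * lam ^ 2 * b * (k + Real.log (L + 1)) ≤ ((L : ℝ) + 1) ^ (-ε) →
    C * lam ^ 2 * ((R : ℝ) + 1) ^ (2 * m + 2) ≤ ((L : ℝ) + 1) ^ (-ε) →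
    Ms h F → (∀ ω, 0 ≤ F ω) → (∀ ω, F ω ≤ B) →
    Av F ≤ 2 * Ex (qq (tg lam g u)) F + C * B / (L + 1) ^ n ∧
    Ex (qq (tg lam g u)) F ≤ 2 * Av F + C * B / (L + 1) ^ n

/-! ### modules: quasi isometry -/

/-- TOPQ: the coupled part, top digit in the string `c` (from PEELC, EEB) -/
def StTopq : Prop := ∀ m : ℕ, 1 ≤ m → ∃ e : ℕ, ∀ n : ℕ, ∃ C : ℝ, 1 ≤ C ∧
  ∀ (L j : ℕ) (k β B : ℝ) (ρ γ : Pt m L → ℝ) (u φ : (Fin (m + 1) → ℕ) → Pt m L → ℝ)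
    (T U : Finset (Fin (m + 1))) (κ : Fin (m + 1) → ℕ) (b c : Fin (m + 1)), 1 ≤ L → j < L →
    1 ≤ k → 0 ≤ β → 0 ≤ B → Law k ρ → (∀ q, Ms q (u q)) → (∀ q, Ms q (φ q)) →
    (∀ q ω, |φ q ω| ≤ B) → (∀ ω, 0 ≤ γ ω) → (∀ ω, γ ω ≤ 1) →
    (∀ ω, γ ω ≠ 0 → Nt (fun _ => β) u j m ω) →
    b ∈ Inn m → U ⊆ Inn m → b ∉ U → T ⊆ (Inn m).erase b → c ∈ T → κ ∈ Sc L T →
    ∑ q ∈ fr L (Inn m \ insert b U) (fun _ => j), Ex ρ (fun ω => γ ω *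
        (∑ α ∈ Lb L T, ∑ t ∈ range L,
          Fh U (cL T κ α φ) (Function.update q b t) ω * uu b (cR T κ α u) j t ω) ^ 2) ≤
      C * (β * (L : ℝ) ^ (m - 1) * (k + Real.log (L + 1))) *
          ∑ α ∈ Lb L T, Ex ρ (en U j (cL T κ α φ)) +
        C * β * B ^ 2 * ((L : ℝ) + 1) ^ e / (L + 1) ^ n

/-- QSTEP: one more summed string (from TOPQ, DYAB, TRI, ALF, QCU) -/
def StQstep : Prop := ∀ m : ℕ, 1 ≤ m → ∃ e : ℕ, ∀ n : ℕ, ∃ C : ℝ, 1 ≤ C ∧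
  ∀ (L N R j : ℕ) (k lam β S δ A B : ℝ) (g : ℕ → Pt m L → ℝ)
    (u φ : (Fin (m + 1) → ℕ) → Pt m L → ℝ) (U : Finset (Fin (m + 1))) (b : Fin (m + 1)),
    1 ≤ L → j < L → 1 ≤ k → 0 ≤ lam → 0 ≤ β → 0 ≤ S → 0 ≤ δ → 0 ≤ B → ArF N R u →
    Tame β k lam S δ g u → (∀ q, Ms q (φ q)) → (∀ q ω, |φ q ω| ≤ B) →
    (∀ q ω, R < dst (∑ a, q a) N → φ q ω = 0) →
    1 + S ≤ A → lam ^ 4 * β ^ 2 * (L : ℝ) ^ (2 * m - 1) * lg L ^ 2 ≤ A →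
    lam ^ 2 * β * (L : ℝ) ^ (m - 1) * (k + Real.log (L + 1)) * lg L ^ (2 * m) ≤ A →
    lam ^ 2 * (L : ℝ) ^ (m - 1) * ((R : ℝ) + 1) ^ (2 * m + 4) ≤ A →
    b ∈ Inn m → U ⊆ Inn m → b ∉ U →
    Ex (qq (tg lam g u)) (en (insert b U) j φ) ≤
      C * A * (Ex (qq (tg lam g u)) (en U j φ) + Ex (qq (tg lam g u)) (en ∅ j φ) +
        (1 / lg L ^ m) * ∑ T ∈ ((Inn m).erase b).powerset.erase ∅, ∑ κ ∈ Sc L T,
          ∑ α ∈ Lb L T, Ex (qq (tg lam g u)) (en U j (cL T κ α φ))) +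
        C * (1 + lam ^ 2 + lam ^ 2 * β) * B ^ 2 * ((L : ℝ) + 1) ^ e * (δ + 1 / (L + 1) ^ n)

/-- QIS: quasi isometry (from QSTEP) -/
def StQis : Prop := ∀ m : ℕ, 1 ≤ m → ∃ e : ℕ, ∀ n : ℕ, ∃ C : ℝ, 1 ≤ C ∧
  ∀ (L N R j : ℕ) (k lam β S δ A B : ℝ) (g : ℕ → Pt m L → ℝ)
    (u φ : (Fin (m + 1) → ℕ) → Pt m L → ℝ),
    1 ≤ L → j < L → 1 ≤ k → 0 ≤ lam → 0 ≤ β → 0 ≤ S → 0 ≤ δ → 0 ≤ B → ArF N R u →
    Tame β k lam S δ g u → (∀ q, Ms q (φ q)) → (∀ q ω, |φ q ω| ≤ B) →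
    (∀ q ω, R < dst (∑ a, q a) N → φ q ω = 0) →
    1 + S ≤ A → lam ^ 4 * β ^ 2 * (L : ℝ) ^ (2 * m - 1) * lg L ^ 2 ≤ A →
    lam ^ 2 * β * (L : ℝ) ^ (m - 1) * (k + Real.log (L + 1)) * lg L ^ (2 * m) ≤ A →
    lam ^ 2 * (L : ℝ) ^ (m - 1) * ((R : ℝ) + 1) ^ (2 * m + 4) ≤ A →
    Ex (qq (tg lam g u)) (fun ω => XX φ j ω ^ 2) ≤
      C * A ^ m * ∑ q ∈ fr L (Inn m) (fun _ => j), Ex (qq (tg lam g u)) (fun ω => φ q ω ^ 2) +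
        C * A ^ m * (1 + lam ^ 2 + lam ^ 2 * β) * B ^ 2 * ((L : ℝ) + 1) ^ e *
          (δ + 1 / (L + 1) ^ n)

/-! ### modules: the cross terms -/

/-- TOPX: the coupled cross terms, top digit in the string `c` (from VISY) -/
def StTopx : Prop := ∀ m : ℕ, 1 ≤ m → ∃ C : ℝ, 1 ≤ C ∧
  ∀ (L : ℕ) (k β : ℝ) (ρ : Pt m L → ℝ) (g : ℕ → Pt m L → ℝ)
    (u v : (Fin (m + 1) → ℕ) → Pt m L → ℝ) (T : Finset (Fin (m + 1))) (κ : Fin (m + 1) → ℕ)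
    (c : Fin (m + 1)), 1 ≤ L → 0 ≤ k → 0 ≤ β → Law k ρ → Gate g → (∀ q, Ms q (u q)) →
    (∀ q, Ms q (v q)) → (∀ j ω, j < L → g j ω = 1 → Nt (fun _ => β) u j m ω) →
    T ⊆ Inn m → c ∈ T → κ ∈ Sc L T →
    (∑ j ∈ range L, ∑ α ∈ Lb L T, Ex ρ (fun ω => g j ω *
        (XX (cR T κ α u) j ω * XX (cL T κ α v) j ω))) ^ 2 ≤
      C * (k + Real.log (L + 1)) * (β * (L : ℝ) ^ (m - 1)) *
        ∑ j ∈ range L, ∑ α ∈ Lb L T, Ex ρ (fun ω => g j ω * XX (cL T κ α v) j ω ^ 2)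

/-- NEQ: the pairs `q ≤ p`, `q ≠ p` (from VISY) -/
def StNeq : Prop := ∀ m : ℕ, 1 ≤ m → ∃ C : ℝ, 1 ≤ C ∧
  ∀ (L N R : ℕ) (k : ℝ) (ρ : Pt m L → ℝ) (g : ℕ → Pt m L → ℝ)
    (u v : (Fin (m + 1) → ℕ) → Pt m L → ℝ), 1 ≤ L → 0 ≤ k → Law k ρ → Gate g → ArF N R u →
    (∀ q, Ms q (v q)) → (∀ q ω, R < dst (∑ a, q a) N → v q ω = 0) →
    (∑ j ∈ range L, Ex ρ (fun ω => g j ω *
      ∑ p ∈ fr L (Inn m) (fun _ => j), ∑ q ∈ fr L (Inn m) (fun _ => j),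
        if (∀ e, q e ≤ p e) ∧ q ≠ p then
          (ps (Inn m) q ω * u q ω) * (ps (Inn m) p ω * v p ω) else 0)) ^ 2 ≤
      C * (k + Real.log (L + 1)) * (((R : ℝ) + 1) ^ (2 * m + 4) * (L : ℝ) ^ (m - 1)) *
        ∑ j ∈ range L, ∑ p ∈ fr L (Inn m) (fun _ => j), Ex ρ (fun ω => g j ω * v p ω ^ 2)

/-- CROSS: the correlation of the rows (from TOPX, NEQ, DYAB, QIS) -/
def StCross : Prop := ∀ m : ℕ, 1 ≤ m → ∃ e : ℕ, ∀ n : ℕ, ∃ C : ℝ, 1 ≤ C ∧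
  ∀ (L N R : ℕ) (k lam β S δ A : ℝ) (g : ℕ → Pt m L → ℝ)
    (u v : (Fin (m + 1) → ℕ) → Pt m L → ℝ),
    1 ≤ L → 1 ≤ k → 0 ≤ lam → 0 ≤ β → 0 ≤ S → 0 ≤ δ → ArF N R u → ArF N R v →
    Tame β k lam S δ g u → 1 + S ≤ A → lam ^ 4 * β ^ 2 * (L : ℝ) ^ (2 * m - 1) * lg L ^ 2 ≤ A →
    lam ^ 2 * β * (L : ℝ) ^ (m - 1) * (k + Real.log (L + 1)) * lg L ^ (2 * m) ≤ A →
    lam ^ 2 * (L : ℝ) ^ (m - 1) * ((R : ℝ) + 1) ^ (2 * m + 4) ≤ A →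
    (∑ j ∈ range L, Ex (qq (tg lam g u)) (fun ω => g j ω * (XX u j ω * XX v j ω)) -
      ∑ j ∈ range L, ∑ p ∈ fr L (Inn m) (fun _ => j),
        Ex (qq (tg lam g u)) (fun ω => g j ω * (u p ω * v p ω))) ^ 2 ≤
      C * (k + Real.log (L + 1)) * (L : ℝ) ^ (m - 1) *
        (β * lg L ^ (2 * m) * A ^ m + ((R : ℝ) + 1) ^ (2 * m + 4)) *
        (∑ p ∈ All m L, Ex (qq (tg lam g u)) (fun ω => v p ω ^ 2) +
          (1 + lam ^ 2 + lam ^ 2 * β) * ((L : ℝ) + 1) ^ e * (δ + 1 / (L + 1) ^ n))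

/-! ### modules: the digits theorem -/

/-- TAME: the gated tilt of a flat array is tame (from OPENN, EXCH, HELL, GTN, QCU) -/
def StTame : Prop := ∀ (m n : ℕ) (ε : ℝ), 2 ≤ m → 0 < ε → ∃ C : ℝ, 1 ≤ C ∧
  ∀ (L N R : ℕ) (lam : ℝ) (u : (Fin (m + 1) → ℕ) → Pt m L → ℝ), 1 ≤ L → 0 ≤ lam →
    ArF N R u → ((R : ℝ) + 1) ^ (2 * m + 2) ≤ (L : ℝ) ^ ε →
    C * (1 + lam ^ 2 * (L : ℝ) ^ m) ^ 2 * (L : ℝ) ^ ((4 * (m : ℝ) + 8) * ε) ≤ L →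
    ∃ g : ℕ → Pt m L → ℝ, Tame (C * (L : ℝ) ^ (((m : ℝ) + 1) * ε))
      (C * (1 + lam ^ 2 * (L : ℝ) ^ m) * (L : ℝ) ^ (((m : ℝ) + 1) * ε)) lam (C * (L : ℝ) ^ ε)
      (C / (L + 1) ^ n) g u

/-- BANDL: band arrays (from TAME, UNIF, CROSS, PARS, TILTK) -/
def StBandL : Prop := ∀ (m : ℕ) (ε K : ℝ), 2 ≤ m → 0 < ε → 0 < K → ∃ C : ℝ, 0 < C ∧
  ∀ (L N R : ℕ) (v : (Fin (m + 1) → ℕ) → Pt m L → ℝ), 1 ≤ L →
    (R : ℝ) ≤ K * Real.log (L + 1) + 1 → ArF N R v → (∀ ω, |HH v ω| ≤ 2) →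
    ∑ q ∈ All m L, Av (fun ω => |v q ω|) ≤ C * (L : ℝ) ^ ((m : ℝ) / 2 - 1 / 4 + ε)

/-- ENDL: the digits theorem (from BANDL, KAPK) -/
def StEndLAll : Prop := ∀ (m : ℕ) (ε : ℝ), 2 ≤ m → 0 < ε →
    StEndL m ((m : ℝ) / 2 - 1 / 4 + ε)

end Pool.Agent.SHD
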