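import Pool.Agent.Lib.MP_a7b2aa_an.SHD.Crud70
import Pool.Agent.Lib.MP_a7b2aa_an.SHD.Stmts4_25

/-!
SHD4, helper70: the module NEQ (the pairs `q ≤ p`, `q ≠ p`).
-/

set_option autoImplicit false

namespace Pool.Agent.SHD

open Finset Pool.Agent.SB3 Pool.Agent.SBT Pool.Agent.SBD

/-- `e` is the first coordinate with `q e < p e` -/
def fst70 {m : ℕ} (e : Fin (m + 1)) (p q : Fin (m + 1) → ℕ) : Prop :=
  (∀ a, q a ≤ p a) ∧ q e < p e ∧ ∀ a < e, q a = p a

instance {m : ℕ} (e : Fin (m + 1)) (p q : Fin (m + 1) → ℕ) : Decidable (fst70 e p q) := by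
  unfold fst70
  infer_instance

theorem fst_sum70 {m : ℕ} (p q : Fin (m + 1) → ℕ) (h0 : q 0 = p 0) (x : ℝ) :
    (if (∀ a, q a ≤ p a) ∧ q ≠ p then x else 0) =
      ∑ e ∈ Inn m, if fst70 e p q then x else 0 := by
  by_cases h : (∀ a, q a ≤ p a) ∧ q ≠ p
  · rw [if_pos h]
    have h1 : ∃ e, q e ≠ p e := by
      by_contra h2
      push Not at h2
      exact h.2 (funext h2)
    have h3 : (univ.filter fun e => q e ≠ p e).Nonempty := by
      obtain ⟨e, he⟩ := h1
      exact ⟨e, by simpa using he⟩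
    set e0 := (univ.filter fun e => q e ≠ p e).min' h3 with he0
    have h4 : q e0 ≠ p e0 := by
      have := (univ.filter fun e => q e ≠ p e).min'_mem h3
      exact (mem_filter.1 this).2
    have h5 : ∀ a < e0, q a = p a := by
      intro a ha
      by_contra h6
      have := (univ.filter fun e => q e ≠ p e).min'_le a (by simpa using h6)
      exact absurd ha (not_lt.2 this)
    have h6 : e0 ∈ Inn m := by
      unfold Inn
      rw [mem_erase]
      refine ⟨?_, mem_univ _⟩
      intro h7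
      rw [h7] at h4
      exact h4 h0
    rw [Finset.sum_eq_single e0]
    · rw [if_pos]
      exact ⟨h.1, lt_of_le_of_ne (h.1 e0) h4, h5⟩
    · intro e _ hne
      rw [if_neg]
      rintro ⟨_, h8, h9⟩
      rcases lt_trichotomy e e0 with h10 | h10 | h10
      · exact absurd (h5 e h10) h8.ne
      · exact hne h10
      · exact h4 (h9 e0 h10)
    · intro h7
      exact absurd h6 h7
  · rw [if_neg h]
    symm
    refine sum_eq_zero fun e _ => ?_
    rw [if_neg]
    rintro ⟨h1, h2, _⟩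
    refine h ⟨h1, fun h3 => ?_⟩
    rw [h3] at h2
    exact lt_irrefl _ h2

section neq

variable {m L N R : ℕ} {u v : (Fin (m + 1) → ℕ) → Pt m L → ℝ}

/-- the inner sum -/
noncomputable def qs70 (e : Fin (m + 1)) (u : (Fin (m + 1) → ℕ) → Pt m L → ℝ) (j : ℕ)
    (p : Fin (m + 1) → ℕ) (ω : Pt m L) : ℝ :=
  ∑ q ∈ fr L (Inn m) (fun _ => j), if fst70 e p q then ps (Inn m) q ω * u q ω else 0

/-- the predictable coefficient -/
noncomputable def Y70 (e : Fin (m + 1)) (u v : (Fin (m + 1) → ℕ) → Pt m L → ℝ) (j t : ℕ)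
    (ω : Pt m L) : ℝ :=
  ∑ p ∈ fr L ((Inn m).erase e) (Function.update (fun _ => j) e t),
    ps ((Inn m).erase e) p ω * v p ω * qs70 e u j p ω

theorem Y_ms70 (hu : ∀ q, Ms q (u q)) (hv : ∀ q, Ms q (v q)) (e : Fin (m + 1)) (j t : ℕ) :
    Ms (one L e t) (Y70 e u v j t) := by
  unfold Y70
  refine Ms.sum _ fun p hp => ?_
  have hpe : p e = t := by
    rw [mem_fr] at hp
    have := hp.2 e (notMem_erase _ _)
    rwa [Function.update_self] at this
  refine Ms.comp2 (Ms.comp2 (Ms_ps_one (notMem_erase _ _) p t)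
    ((hv p).one e t hpe.le) (fun a b => a * b)) ?_ (fun a b => a * b)
  unfold qs70
  refine Ms.sum _ fun q _ => ?_
  by_cases h : fst70 e p q
  · simp only [if_pos h]
    have h1 : q e < t := hpe ▸ h.2.1
    refine Ms.comp2 ?_ ((hu q).one e t h1.le) (fun a b => a * b)
    unfold ps
    refine Ms.prod _ fun c _ => ?_
    by_cases hc : c = e
    · subst hc
      exact Ms_sb (by simpa [SBD.one] using h1)
    · exact Ms_sb_one hc _ _
  · simp only [if_neg h]
    exact Ms.cst _ _

theorem qs_abs70 (hu : ArF N R u) (e : Fin (m + 1)) (p : Fin (m + 1) → ℕ) (ω : Pt m L)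
    (hp : dst (∑ a, p a) N ≤ R) : |qs70 e u (p 0) p ω| ≤ (2 * (R : ℝ) + 1) ^ m := by
  have h1 := cntq70 hu 0 (fun _ => 0) (fun a => p a + 1) p ω hp
  refine le_trans ?_ h1
  unfold qs70
  refine (abs_sum_le_sum_abs _ _).trans (sum_le_sum fun q hq => ?_)
  have hq0 : q 0 = p 0 := by
    rw [mem_fr] at hq
    exact hq.2 0 (by simp [Inn])
  by_cases h : fst70 e p q
  · rw [if_pos h, if_pos fun a _ => h.1 a, abs_mul, ps_abs, one_mul]
    have h2 : cut (fun _ => 0) (fun a => p a + 1) u q ω = u q ω := by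
      unfold cut
      rw [if_pos]
      intro a
      exact ⟨Nat.zero_le _, Nat.lt_succ_of_le (h.1 a)⟩
    rw [h2]
  · rw [if_neg h, abs_zero]
    split_ifs
    · exact abs_nonneg _
    · exact le_rfl

/-- the indicator of the band -/
noncomputable def wb70 (N R : ℕ) (q : Fin (m + 1) → ℕ) (_ω : Pt m L) : ℝ :=
  if dst (∑ a, q a) N ≤ R then 1 else 0

theorem wb_arf70 (N R : ℕ) : ArF N R (wb70 (m := m) (L := L) N R) where
  abs := by
    intro q ω
    unfold wb70
    split_ifs
    · simp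
    · simp
  dep := fun q => Ms.cst _ _
  bd := by
    intro q ω h
    unfold wb70
    rw [if_neg (not_le.2 h)]

/-- the number of the cells in the band with one fixed coordinate -/
theorem cnt70 (N R : ℕ) (e : Fin (m + 1)) (he : e ∈ Inn m) (ω : Pt m L)
    (q : Fin (m + 1) → ℕ) :
    ∑ p ∈ fr L (insert 0 ((Inn m).erase e)) q, wb70 N R p ω ≤
      (2 * (R : ℝ) + 1) * (L : ℝ) ^ (m - 1) := by
  have h0 : (0 : Fin (m + 1)) ∉ (Inn m).erase e := by simp [Inn]
  have h1 := cntp70 (wb_arf70 (m := m) (L := L) N R) ((Inn m).erase e) 0 h0 q (fun _ => 0)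
    (fun a => if a = e then q e + 1 else L) ω
  have h2 : bl ((Inn m).erase e) (fun _ => 0) (fun a => if a = e then q e + 1 else L) =
      (L : ℝ) ^ (m - 1) := by
    unfold bl
    have h3 : ∀ a ∈ (Inn m).erase e,
        (((if a = e then q e + 1 else L) - 0 : ℕ) : ℝ) = (L : ℝ) := by
      intro a ha
      rw [if_neg (ne_of_mem_erase ha), Nat.sub_zero]
    rw [prod_congr rfl h3, prod_const, card_erase_of_mem he]
    have h4 : (Inn m).card = m := by
      unfold Inn
      rw [card_erase_of_mem (mem_univ _), card_univ, Fintype.card_fin]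
      rfl
    rw [h4]
  rw [h2] at h1
  refine le_trans (le_of_eq ?_) h1
  refine sum_congr rfl fun p hp => ?_
  rw [mem_fr] at hp
  have h5 : cut (fun _ => 0) (fun a => if a = e then q e + 1 else L) (wb70 N R) p ω =
      wb70 N R p ω := by
    unfold cut
    rw [if_pos]
    intro a
    refine ⟨Nat.zero_le _, ?_⟩
    show p a < if a = e then q e + 1 else L
    by_cases ha : a = e
    · rw [if_pos ha, ha]
      have he0 : e ≠ 0 := by
        unfold Inn at he
        exact ne_of_mem_erase he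
      have := hp.2 e (by simp [he0])
      omega
    · rw [if_neg ha]
      apply hp.1
      by_cases ha0 : a = 0
      · rw [ha0]
        exact mem_insert_self _ _
      · refine mem_insert_of_mem (mem_erase.2 ⟨ha, ?_⟩)
        unfold Inn
        exact mem_erase.2 ⟨ha0, mem_univ _⟩
  rw [h5, abs_of_nonneg]
  unfold wb70
  split_ifs <;> norm_num

theorem fr_up70 (e : Fin (m + 1)) (he0 : e ≠ 0) (i t : ℕ) :
    fr L ((Inn m).erase e) (Function.update (Function.update (fun _ => 0) e t) 0 i) =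
      fr L ((Inn m).erase e) (Function.update (fun _ => i) e t) := by
  refine fr_congr fun a ha => ?_
  by_cases ha0 : a = 0
  · subst ha0
    rw [Function.update_self, Function.update_of_ne (Ne.symm he0)]
  · by_cases hae : a = e
    · subst hae
      rw [Function.update_of_ne ha0, Function.update_self, Function.update_self]
    · exact absurd (mem_erase.2 ⟨hae, by unfold Inn; exact mem_erase.2 ⟨ha0, mem_univ _⟩⟩) ha

/-- the bound of the gated sum -/
theorem bnd70 (hu : ArF N R u)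
    (hvb : ∀ q ω, R < dst (∑ a, q a) N → v q ω = 0) (g : ℕ → Pt m L → ℝ) (hg : Gate g)
    (e : Fin (m + 1)) (he : e ∈ Inn m) (ω : Pt m L) (j : ℕ) (hj : j < L) (hgj : g j ω = 1) :
    ∑ t ∈ range L, (∑ i ∈ range (j + 1), Y70 e u v i t ω) ^ 2 ≤
      (2 * (R : ℝ) + 1) ^ (2 * m + 1) * (L : ℝ) ^ (m - 1) *
        ∑ i ∈ range L, ∑ p ∈ fr L (Inn m) (fun _ => i), g i ω * v p ω ^ 2 := by
  have he0 : e ≠ 0 := by
    unfold Inn at he
    exact ne_of_mem_erase he
  have hR : (0 : ℝ) ≤ 2 * (R : ℝ) + 1 := by positivity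
  have hg0 : ∀ i, 0 ≤ g i ω := by
    intro i
    rcases hg.zo i ω with h | h
    · rw [h]
    · rw [h]
      norm_num
  have h0 : (0 : Fin (m + 1)) ∉ (Inn m).erase e := by simp [Inn]
  have hIn : insert e ((Inn m).erase e) = Inn m := insert_erase he
  -- one column
  have hcol : ∀ t, (∑ i ∈ range (j + 1), Y70 e u v i t ω) ^ 2 ≤
      (2 * (R : ℝ) + 1) ^ (2 * m) * ((2 * (R : ℝ) + 1) * (L : ℝ) ^ (m - 1)) *
        ∑ i ∈ range L, ∑ p ∈ fr L ((Inn m).erase e) (Function.update (fun _ => i) e t),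
          g i ω * v p ω ^ 2 := by
    intro t
    have e1 : |∑ i ∈ range (j + 1), Y70 e u v i t ω| ≤ (2 * (R : ℝ) + 1) ^ m *
        ∑ i ∈ range L, ∑ p ∈ fr L ((Inn m).erase e) (Function.update (fun _ => i) e t),
          g i ω * |v p ω| := by
      have e2 : |∑ i ∈ range (j + 1), Y70 e u v i t ω| ≤
          ∑ i ∈ range (j + 1), g i ω * |Y70 e u v i t ω| := by
        refine (abs_sum_le_sum_abs _ _).trans (le_of_eq (sum_congr rfl fun i hi => ?_))
        rw [hg.anti i j ω (by have := mem_range.1 hi; omega) hgj, one_mul]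
      have e3 : ∑ i ∈ range (j + 1), g i ω * |Y70 e u v i t ω| ≤
          ∑ i ∈ range L, g i ω * |Y70 e u v i t ω| := by
        refine sum_le_sum_of_subset_of_nonneg (range_subset_range.2 (by omega)) fun i _ _ => ?_
        exact mul_nonneg (hg0 i) (abs_nonneg _)
      refine e2.trans (e3.trans ?_)
      rw [mul_sum]
      refine sum_le_sum fun i _ => ?_
      have e4 : |Y70 e u v i t ω| ≤ (2 * (R : ℝ) + 1) ^ m *
          ∑ p ∈ fr L ((Inn m).erase e) (Function.update (fun _ => i) e t), |v p ω| := by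
        unfold Y70
        rw [mul_sum]
        refine (abs_sum_le_sum_abs _ _).trans (sum_le_sum fun p hp => ?_)
        rw [abs_mul, abs_mul, ps_abs, one_mul, mul_comm]
        have hp0 : p 0 = i := by
          rw [mem_fr] at hp
          have := hp.2 0 h0
          rwa [Function.update_of_ne (Ne.symm he0)] at this
        by_cases hb : dst (∑ a, p a) N ≤ R
        · have := qs_abs70 hu e p ω hb
          rw [hp0] at this
          exact mul_le_mul_of_nonneg_right this (abs_nonneg _)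
        · rw [hvb p ω (not_le.1 hb)]
          simp
      calc g i ω * |Y70 e u v i t ω| ≤ g i ω * ((2 * (R : ℝ) + 1) ^ m *
            ∑ p ∈ fr L ((Inn m).erase e) (Function.update (fun _ => i) e t), |v p ω|) :=
            mul_le_mul_of_nonneg_left e4 (hg0 i)
        _ = (2 * (R : ℝ) + 1) ^ m *
            ∑ p ∈ fr L ((Inn m).erase e) (Function.update (fun _ => i) e t),
              g i ω * |v p ω| := by
            rw [mul_left_comm, mul_sum]
    -- to one sum over the cells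
    have conv : ∀ f : (Fin (m + 1) → ℕ) → ℝ,
        ∑ p ∈ fr L (insert 0 ((Inn m).erase e)) (Function.update (fun _ => 0) e t), f p =
        ∑ i ∈ range L, ∑ p ∈ fr L ((Inn m).erase e) (Function.update (fun _ => i) e t), f p := by
      intro f
      rw [sum_fr_insert h0]
      refine sum_congr rfl fun i _ => ?_
      rw [fr_up70 e he0]
    have hrow : ∀ i, ∀ p ∈ fr L ((Inn m).erase e) (Function.update (fun _ => i) e t),
        p 0 = i := by
      intro i p hp
      rw [mem_fr] at hp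
      have := hp.2 0 h0
      rwa [Function.update_of_ne (Ne.symm he0)] at this
    have e5 : ∑ i ∈ range L, ∑ p ∈ fr L ((Inn m).erase e) (Function.update (fun _ => i) e t),
          g i ω * |v p ω| =
        ∑ p ∈ fr L (insert 0 ((Inn m).erase e)) (Function.update (fun _ => 0) e t),
          g (p 0) ω * |v p ω| := by
      rw [conv]
      exact sum_congr rfl fun i _ => sum_congr rfl fun p hp => by rw [hrow i p hp]
    have e6 : ∑ i ∈ range L, ∑ p ∈ fr L ((Inn m).erase e) (Function.update (fun _ => i) e t),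
          g i ω * v p ω ^ 2 =
        ∑ p ∈ fr L (insert 0 ((Inn m).erase e)) (Function.update (fun _ => 0) e t),
          g (p 0) ω * v p ω ^ 2 := by
      rw [conv]
      exact sum_congr rfl fun i _ => sum_congr rfl fun p hp => by rw [hrow i p hp]
    have e7 : (∑ p ∈ fr L (insert 0 ((Inn m).erase e)) (Function.update (fun _ => 0) e t),
          g (p 0) ω * |v p ω|) ^ 2 ≤
        (∑ p ∈ fr L (insert 0 ((Inn m).erase e)) (Function.update (fun _ => 0) e t),
          wb70 N R p ω) *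
        ∑ p ∈ fr L (insert 0 ((Inn m).erase e)) (Function.update (fun _ => 0) e t),
          g (p 0) ω * v p ω ^ 2 := by
      refine Finset.sum_sq_le_sum_mul_sum_of_sq_le_mul _ (fun p _ => ?_)
        (fun p _ => mul_nonneg (hg0 _) (sq_nonneg _)) (fun p _ => ?_)
      · unfold wb70
        split_ifs <;> norm_num
      · by_cases hb : dst (∑ a, p a) N ≤ R
        · unfold wb70
          rw [if_pos hb, one_mul, mul_pow, sq_abs]
          have : g (p 0) ω ^ 2 = g (p 0) ω := by
            rcases hg.zo (p 0) ω with h | h <;> rw [h] <;> norm_num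
          rw [this]
        · rw [hvb p ω (not_le.1 hb)]
          simp
    have e8 := cnt70 (L := L) N R e he ω (Function.update (fun _ => 0) e t)
    have e9 : 0 ≤ ∑ p ∈ fr L (insert 0 ((Inn m).erase e)) (Function.update (fun _ => 0) e t),
        g (p 0) ω * v p ω ^ 2 := sum_nonneg fun p _ => mul_nonneg (hg0 _) (sq_nonneg _)
    calc (∑ i ∈ range (j + 1), Y70 e u v i t ω) ^ 2 =
          |∑ i ∈ range (j + 1), Y70 e u v i t ω| ^ 2 := (sq_abs _).symm
      _ ≤ ((2 * (R : ℝ) + 1) ^ m *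
          ∑ i ∈ range L, ∑ p ∈ fr L ((Inn m).erase e) (Function.update (fun _ => i) e t),
            g i ω * |v p ω|) ^ 2 := pow_le_pow_left₀ (abs_nonneg _) e1 2
      _ = (2 * (R : ℝ) + 1) ^ (2 * m) *
          (∑ p ∈ fr L (insert 0 ((Inn m).erase e)) (Function.update (fun _ => 0) e t),
            g (p 0) ω * |v p ω|) ^ 2 := by
          rw [e5, mul_pow, ← pow_mul, mul_comm m 2]
      _ ≤ (2 * (R : ℝ) + 1) ^ (2 * m) * (((2 * (R : ℝ) + 1) * (L : ℝ) ^ (m - 1)) *
          ∑ p ∈ fr L (insert 0 ((Inn m).erase e)) (Function.update (fun _ => 0) e t),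
            g (p 0) ω * v p ω ^ 2) :=
          mul_le_mul_of_nonneg_left (e7.trans (mul_le_mul_of_nonneg_right e8 e9))
            (pow_nonneg hR _)
      _ = _ := by
          rw [e6]
          ring
  refine (sum_le_sum fun t _ => hcol t).trans (le_of_eq ?_)
  rw [← mul_sum, sum_comm]
  have e10 : ∀ i, ∑ t ∈ range L, ∑ p ∈ fr L ((Inn m).erase e) (Function.update (fun _ => i) e t),
      g i ω * v p ω ^ 2 = ∑ p ∈ fr L (Inn m) (fun _ => i), g i ω * v p ω ^ 2 := by
    intro i
    conv_rhs => rw [← hIn]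
    rw [sum_fr_insert (notMem_erase _ _)]
  rw [sum_congr rfl fun i _ => e10 i]
  ring

/-- the signed sum of the coefficients -/
theorem sgn_sum70 (e : Fin (m + 1)) (he : e ∈ Inn m) (j : ℕ) (ω : Pt m L) :
    ∑ t ∈ range L, sb e t ω * Y70 e u v j t ω =
      ∑ p ∈ fr L (Inn m) (fun _ => j), ps (Inn m) p ω * v p ω * qs70 e u j p ω := by
  have hIn : insert e ((Inn m).erase e) = Inn m := insert_erase he
  have h1 : ∑ p ∈ fr L (Inn m) (fun _ => j), ps (Inn m) p ω * v p ω * qs70 e u j p ω =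
      ∑ t ∈ range L, ∑ p ∈ fr L ((Inn m).erase e) (Function.update (fun _ => j) e t),
        ps (Inn m) p ω * v p ω * qs70 e u j p ω := by
    conv_lhs => rw [← hIn]
    rw [sum_fr_insert (notMem_erase _ _), hIn]
  rw [h1]
  refine sum_congr rfl fun t _ => ?_
  unfold Y70
  rw [mul_sum]
  refine sum_congr rfl fun p hp => ?_
  have hpe : p e = t := by
    rw [mem_fr] at hp
    have := hp.2 e (notMem_erase _ _)
    rwa [Function.update_self] at this
  have h2 : ps (Inn m) p ω = sb e t ω * ps ((Inn m).erase e) p ω := by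
    conv_lhs => rw [← hIn]
    rw [ps_insert (notMem_erase _ _), hpe]
  rw [h2]
  ring

/-- the pairs, split by the first coordinate -/
theorem split70 (j : ℕ) (ω : Pt m L) :
    (∑ p ∈ fr L (Inn m) (fun _ => j), ∑ q ∈ fr L (Inn m) (fun _ => j),
        if (∀ e, q e ≤ p e) ∧ q ≠ p then
          (ps (Inn m) q ω * u q ω) * (ps (Inn m) p ω * v p ω) else 0) =
      ∑ e ∈ Inn m, ∑ p ∈ fr L (Inn m) (fun _ => j), ps (Inn m) p ω * v p ω * qs70 e u j p ω := by
  rw [sum_comm (s := Inn m)]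
  refine sum_congr rfl fun p hp => ?_
  have hp0 : p 0 = j := by
    rw [mem_fr] at hp
    exact hp.2 0 (by simp [Inn])
  have h1 : ∀ q ∈ fr L (Inn m) (fun _ => j),
      (if (∀ e, q e ≤ p e) ∧ q ≠ p then
          (ps (Inn m) q ω * u q ω) * (ps (Inn m) p ω * v p ω) else 0) =
      ∑ e ∈ Inn m, if fst70 e p q then
          (ps (Inn m) q ω * u q ω) * (ps (Inn m) p ω * v p ω) else 0 := by
    intro q hq
    have hq0 : q 0 = j := by
      rw [mem_fr] at hq
      exact hq.2 0 (by simp [Inn])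
    exact fst_sum70 p q (hq0.trans hp0.symm) _
  rw [sum_congr rfl h1, sum_comm]
  refine sum_congr rfl fun e _ => ?_
  unfold qs70
  rw [mul_sum]
  refine sum_congr rfl fun q _ => ?_
  split_ifs
  · ring
  · ring

end neq

theorem neq_70 (hV : StVisy) : StNeq := by
  intro m hm
  refine ⟨4 * (m : ℝ) ^ 2 * 2 ^ (2 * m + 1), ?_, ?_⟩
  · have h1 : (1 : ℝ) ≤ (m : ℝ) ^ 2 := one_le_pow₀ (by exact_mod_cast hm)
    have h2 : (1 : ℝ) ≤ 2 ^ (2 * m + 1) := one_le_pow₀ (by norm_num)
    nlinarith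
  intro L N R k ρ g u v hL hk hρ hg hu hvm hvb
  have hR : (0 : ℝ) ≤ (R : ℝ) := Nat.cast_nonneg _
  have hg0 : ∀ i ω, 0 ≤ g i ω := by
    intro i ω
    rcases hg.zo i ω with h | h
    · rw [h]
    · rw [h]
      norm_num
  set A : Fin (m + 1) → ℝ := fun e => ∑ j ∈ range L, ∑ t ∈ range L,
    Ex ρ (fun ω => g j ω * (sb e t ω * Y70 e u v j t ω)) with hA
  set W : Pt m L → ℝ := fun ω => (2 * (R : ℝ) + 1) ^ (2 * m + 1) * (L : ℝ) ^ (m - 1) *
    ∑ i ∈ range L, ∑ p ∈ fr L (Inn m) (fun _ => i), g i ω * v p ω ^ 2 with hW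
  have hlog : 0 ≤ Real.log ((L : ℝ) + 1) := Real.log_nonneg (by
    have : (0 : ℝ) ≤ L := Nat.cast_nonneg _
    linarith)
  -- the sum splits
  have e1 : ∑ j ∈ range L, Ex ρ (fun ω => g j ω *
      ∑ p ∈ fr L (Inn m) (fun _ => j), ∑ q ∈ fr L (Inn m) (fun _ => j),
        if (∀ e, q e ≤ p e) ∧ q ≠ p then
          (ps (Inn m) q ω * u q ω) * (ps (Inn m) p ω * v p ω) else 0) = ∑ e ∈ Inn m, A e := by
    rw [hA, sum_comm]
    refine sum_congr rfl fun j _ => ?_
    have f1 : ∀ e ∈ Inn m, ∑ t ∈ range L, Ex ρ (fun ω => g j ω * (sb e t ω * Y70 e u v j t ω)) =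
        Ex ρ (fun ω => g j ω * ∑ p ∈ fr L (Inn m) (fun _ => j),
          ps (Inn m) p ω * v p ω * qs70 e u j p ω) := by
      intro e he
      rw [← Ex_sum]
      congr 1
      funext ω
      rw [← mul_sum, sgn_sum70 e he]
    rw [sum_congr rfl f1, ← Ex_sum]
    congr 1
    funext ω
    rw [split70, mul_sum]
  have e2 : ∀ e ∈ Inn m, A e ^ 2 ≤ 4 * (k + Real.log (L + 1)) * Ex ρ W := by
    intro e he
    refine hV m L k ρ W e g (Y70 e u v) hρ hg (fun j t => Y_ms70 hu.dep hvm e j t) ?_ ?_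
    · intro ω
      rw [hW]
      have := sum_nonneg fun i (_ : i ∈ range L) =>
        sum_nonneg fun p (_ : p ∈ fr L (Inn m) (fun _ => i)) =>
          mul_nonneg (hg0 i ω) (sq_nonneg (v p ω))
      positivity
    · intro j ω hj hgj
      exact bnd70 hu hvb g hg e he ω j hj hgj
  have e3 : (∑ e ∈ Inn m, A e) ^ 2 ≤ (m : ℝ) * ∑ e ∈ Inn m, A e ^ 2 := by
    have := sq_sum_le_card_mul_sum_sq (s := Inn m) (f := A)
    have h4 : (Inn m).card = m := by
      unfold Inn
      rw [card_erase_of_mem (mem_univ _), card_univ, Fintype.card_fin]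
      rfl
    rwa [h4] at this
  have e4 : ∑ e ∈ Inn m, A e ^ 2 ≤ (m : ℝ) * (4 * (k + Real.log (L + 1)) * Ex ρ W) := by
    refine (sum_le_sum e2).trans (le_of_eq ?_)
    have h4 : (Inn m).card = m := by
      unfold Inn
      rw [card_erase_of_mem (mem_univ _), card_univ, Fintype.card_fin]
      rfl
    rw [sum_const, nsmul_eq_mul, h4]
  have e5 : Ex ρ W = (2 * (R : ℝ) + 1) ^ (2 * m + 1) * (L : ℝ) ^ (m - 1) *
      ∑ j ∈ range L, ∑ p ∈ fr L (Inn m) (fun _ => j), Ex ρ (fun ω => g j ω * v p ω ^ 2) := by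
    rw [hW, Ex_smul, Ex_sum]
    congr 1
    exact sum_congr rfl fun i _ => Ex_sum _ _
  have e6 : 0 ≤ ∑ j ∈ range L, ∑ p ∈ fr L (Inn m) (fun _ => j),
      Ex ρ (fun ω => g j ω * v p ω ^ 2) :=
    sum_nonneg fun j _ => sum_nonneg fun p _ => Ex_nonneg hρ fun ω =>
      mul_nonneg (hg0 j ω) (sq_nonneg _)
  have e7 : (2 * (R : ℝ) + 1) ^ (2 * m + 1) ≤ 2 ^ (2 * m + 1) * ((R : ℝ) + 1) ^ (2 * m + 4) := by
    calc (2 * (R : ℝ) + 1) ^ (2 * m + 1) ≤ (2 * ((R : ℝ) + 1)) ^ (2 * m + 1) :=
          pow_le_pow_left₀ (by positivity) (by linarith) _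
      _ = 2 ^ (2 * m + 1) * ((R : ℝ) + 1) ^ (2 * m + 1) := mul_pow _ _ _
      _ ≤ 2 ^ (2 * m + 1) * ((R : ℝ) + 1) ^ (2 * m + 4) :=
          mul_le_mul_of_nonneg_left (pow_le_pow_right₀ (by linarith) (by omega)) (by positivity)
  rw [e1]
  set E := ∑ j ∈ range L, ∑ p ∈ fr L (Inn m) (fun _ => j),
    Ex ρ (fun ω => g j ω * v p ω ^ 2) with hE
  have hkl : 0 ≤ k + Real.log ((L : ℝ) + 1) := add_nonneg hk hlog
  calc (∑ e ∈ Inn m, A e) ^ 2 ≤ (m : ℝ) * ∑ e ∈ Inn m, A e ^ 2 := e3
    _ ≤ (m : ℝ) * ((m : ℝ) * (4 * (k + Real.log (L + 1)) * Ex ρ W)) :=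
        mul_le_mul_of_nonneg_left e4 (Nat.cast_nonneg _)
    _ = (4 * (m : ℝ) ^ 2 * (k + Real.log (L + 1)) * (L : ℝ) ^ (m - 1) * E) *
        (2 * (R : ℝ) + 1) ^ (2 * m + 1) := by
        rw [e5]
        ring
    _ ≤ (4 * (m : ℝ) ^ 2 * (k + Real.log (L + 1)) * (L : ℝ) ^ (m - 1) * E) *
        (2 ^ (2 * m + 1) * ((R : ℝ) + 1) ^ (2 * m + 4)) := by
        refine mul_le_mul_of_nonneg_left e7 ?_
        positivity
    _ = _ := by ring

end Pool.Agent.SHD
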