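import Pool.Agent.Lib.MP_a7b2aa_an.SHD.Stmts65

/-!
# NUMK (seat 74): the sum over the blocks of one degree
-/

open Finset
open scoped BigOperators

namespace Pool.Agent.SHD

namespace N74

theorem geo_le (n : ℕ) : ∑ i ∈ range n, (2 / 3 : ℝ) ^ i ≤ 3 := by
  have h : ∀ n : ℕ, ∑ i ∈ range n, (2 / 3 : ℝ) ^ i = 3 * (1 - (2 / 3 : ℝ) ^ n) := by
    intro n
    induction n with
    | zero => simp
    | succ n ih => rw [sum_range_succ, ih, pow_succ]; ring
  rw [h]
  have : (0 : ℝ) ≤ (2 / 3 : ℝ) ^ n := by positivity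
  linarith

/-- one coordinate -/
theorem one_le (s n : ℕ) : ∑ x ∈ range n, (2 / 3 : ℝ) ^ dst s x ≤ 6 := by
  have h1 : ∑ x ∈ range n, (2 / 3 : ℝ) ^ dst s x ≤
      ∑ x ∈ (range n).filter (fun x => x ≤ s), (2 / 3 : ℝ) ^ (s - x) +
        ∑ x ∈ (range n).filter (fun x => ¬ x ≤ s), (2 / 3 : ℝ) ^ (x - s) := by
    rw [← sum_filter_add_sum_filter_not (range n) (fun x => x ≤ s)]
    refine add_le_add (le_of_eq (sum_congr rfl fun x hx => ?_))
      (le_of_eq (sum_congr rfl fun x hx => ?_))
    · have := (mem_filter.1 hx).2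
      congr 1
      unfold dst
      omega
    · have := (mem_filter.1 hx).2
      congr 1
      unfold dst
      omega
  have h2 : ∑ x ∈ (range n).filter (fun x => x ≤ s), (2 / 3 : ℝ) ^ (s - x) ≤ 3 := by
    refine le_trans ?_ (geo_le (s + 1))
    have hi : Set.InjOn (fun x => s - x) ((range n).filter (fun x => x ≤ s) : Set ℕ) := by
      intro x hx y hy hxy
      have hx' := (mem_filter.1 (mem_coe.1 hx)).2
      have hy' := (mem_filter.1 (mem_coe.1 hy)).2
      simp only at hxy
      omega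
    rw [← sum_image (f := fun i => (2 / 3 : ℝ) ^ i) (g := fun x => s - x) hi]
    refine sum_le_sum_of_subset_of_nonneg ?_ (fun _ _ _ => by positivity)
    intro y hy
    obtain ⟨x, hx, rfl⟩ := mem_image.1 hy
    rw [mem_range]
    omega
  have h3 : ∑ x ∈ (range n).filter (fun x => ¬ x ≤ s), (2 / 3 : ℝ) ^ (x - s) ≤ 3 := by
    refine le_trans ?_ (geo_le n)
    have hi : Set.InjOn (fun x => x - s) ((range n).filter (fun x => ¬ x ≤ s) : Set ℕ) := by
      intro x hx y hy hxy
      have hx' := (mem_filter.1 (mem_coe.1 hx)).2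
      have hy' := (mem_filter.1 (mem_coe.1 hy)).2
      simp only at hxy
      omega
    rw [← sum_image (f := fun i => (2 / 3 : ℝ) ^ i) (g := fun x => x - s) hi]
    refine sum_le_sum_of_subset_of_nonneg ?_ (fun _ _ _ => by positivity)
    intro y hy
    obtain ⟨x, hx, rfl⟩ := mem_image.1 hy
    have := mem_range.1 (mem_filter.1 hx).1
    rw [mem_range]
    omega
  linarith

/-- distances add up -/
theorem dst_sum {d : ℕ} (q l : Fin d → ℕ) : dst (∑ a, q a) (∑ a, l a) ≤ ∑ a, dst (q a) (l a) := by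
  have h1 : ∑ a, q a ≤ ∑ a, l a + ∑ a, (q a - l a) := by
    rw [← sum_add_distrib]
    exact sum_le_sum fun a _ => by omega
  have h2 : ∑ a, l a ≤ ∑ a, q a + ∑ a, (l a - q a) := by
    rw [← sum_add_distrib]
    exact sum_le_sum fun a _ => by omega
  have h3 : ∑ a, dst (q a) (l a) = ∑ a, (q a - l a) + ∑ a, (l a - q a) := by
    rw [← sum_add_distrib]
    exact sum_congr rfl fun a _ => rfl
  unfold dst at h3 ⊢
  omega

end N74

open N74 in
theorem numk_74 : StNumK := by
  intro d
  refine ⟨6 ^ d, one_le_pow₀ (by norm_num), fun n q => ?_⟩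
  have hsub : Finset.Nat.antidiagonalTuple d n ⊆
      Fintype.piFinset (fun _ : Fin d => range (n + 1)) := by
    intro l hl
    rw [Finset.Nat.mem_antidiagonalTuple] at hl
    rw [Fintype.mem_piFinset]
    intro a
    rw [mem_range]
    have := single_le_sum (f := l) (fun i _ => Nat.zero_le (l i)) (mem_univ a)
    omega
  have hterm : ∀ l ∈ Finset.Nat.antidiagonalTuple d n,
      ∏ a, (1 / 2 : ℝ) ^ dst (q a) (2 * l a) ≤
        kap (2 * n) q * ∏ a, (2 / 3 : ℝ) ^ dst (q a) (2 * l a) := by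
    intro l hl
    rw [Finset.Nat.mem_antidiagonalTuple] at hl
    have e1 : ∀ a, (1 / 2 : ℝ) ^ dst (q a) (2 * l a) =
        (3 / 4 : ℝ) ^ dst (q a) (2 * l a) * (2 / 3 : ℝ) ^ dst (q a) (2 * l a) := by
      intro a
      rw [← mul_pow]
      norm_num
    rw [prod_congr rfl fun a _ => e1 a, prod_mul_distrib]
    refine mul_le_mul_of_nonneg_right ?_ (prod_nonneg fun _ _ => by positivity)
    rw [prod_pow_eq_pow_sum]
    unfold kap
    refine pow_le_pow_of_le_one (by norm_num) (by norm_num) ?_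
    have h := dst_sum q (fun a => 2 * l a)
    rw [← mul_sum, hl] at h
    exact h
  calc ∑ l ∈ Finset.Nat.antidiagonalTuple d n, ∏ a, (1 / 2 : ℝ) ^ dst (q a) (2 * l a)
      ≤ ∑ l ∈ Finset.Nat.antidiagonalTuple d n,
          kap (2 * n) q * ∏ a, (2 / 3 : ℝ) ^ dst (q a) (2 * l a) := sum_le_sum hterm
    _ = kap (2 * n) q * ∑ l ∈ Finset.Nat.antidiagonalTuple d n,
          ∏ a, (2 / 3 : ℝ) ^ dst (q a) (2 * l a) := by rw [mul_sum]
    _ ≤ kap (2 * n) q * ∑ l ∈ Fintype.piFinset (fun _ : Fin d => range (n + 1)),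
          ∏ a, (2 / 3 : ℝ) ^ dst (q a) (2 * l a) := by
        refine mul_le_mul_of_nonneg_left
          (sum_le_sum_of_subset_of_nonneg hsub fun _ _ _ => prod_nonneg fun _ _ => by positivity)
          (by unfold kap; positivity)
    _ = kap (2 * n) q * ∏ a : Fin d, ∑ x ∈ range (n + 1), (2 / 3 : ℝ) ^ dst (q a) (2 * x) := by
        rw [prod_univ_sum]
    _ ≤ kap (2 * n) q * ∏ a : Fin d, (6 : ℝ) := by
        refine mul_le_mul_of_nonneg_left (prod_le_prod (fun _ _ => sum_nonneg fun _ _ => by positivity)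
          fun a _ => ?_) (by unfold kap; positivity)
        refine le_trans ?_ (one_le (q a) (2 * n + 1))
        have hi : Set.InjOn (fun x => 2 * x) (range (n + 1) : Set ℕ) := by
          intro x _ y _ hxy
          simp only at hxy
          omega
        rw [← sum_image (f := fun i => (2 / 3 : ℝ) ^ dst (q a) i) (g := fun x => 2 * x) hi]
        refine sum_le_sum_of_subset_of_nonneg ?_ (fun _ _ _ => by positivity)
        intro y hy
        obtain ⟨x, hx, rfl⟩ := mem_image.1 hy
        have := mem_range.1 hx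
        rw [mem_range]
        omega
    _ = 6 ^ d * kap (2 * n) q := by
        rw [prod_const, card_univ, Fintype.card_fin]
        ring

end Pool.Agent.SHD
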