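import Pool.Agent.Lib.MP_a7b2aa_an.SHD.Stmts4_25

/-!
SHD4, module PEELC (helper25).
-/

set_option autoImplicit false

namespace Pool.Agent.SHD

open Finset Pool.Agent.SB3 Pool.Agent.SBT Pool.Agent.SBD

open Classical in
/-- clipped sequence -/
theorem clip_sum25 (a w : ℕ → ℝ) (ha : ∀ s, 0 ≤ a s) (hw : ∀ s, 0 ≤ w s) (n : ℕ) :
    ∑ t ∈ range n, (if ∑ s ∈ range (t + 1), a s ≤ ∑ s ∈ range (t + 1), w s then a t else 0) ≤
      ∑ t ∈ range n, w t := by
  induction n with
  | zero => simp
  | succ n ih =>
    rw [sum_range_succ, sum_range_succ (fun t => w t)]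
    split_ifs with h
    · refine le_trans ?_ h
      rw [sum_range_succ]
      refine add_le_add_left (sum_le_sum fun t _ => ?_) _
      split_ifs
      · exact le_rfl
      · exact ha t
    · have := hw n
      linarith

open Classical in
theorem peelc_25 (hP : StPeel) : StPeelc := by
  intro m L n k B ρ γ c K W hk hρ hK hW hW0 hWB hγ0 hγ1 hc
  set K' : ℕ → Pt m L → ℝ := fun t ω =>
    if t < L ∧ ∑ s ∈ range (t + 1), K s ω ^ 2 ≤ ∑ s ∈ range (t + 1), W s ω then K t ω else 0
    with hK'
  have hB : 0 ≤ B := (hW0 0 (fun _ _ => false)).trans (hWB 0 (fun _ _ => false))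
  have hms : ∀ t, Ms (one L c t) (K' t) := by
    intro t ω ω' hω
    have h1 : ∀ s ∈ range (t + 1), K s ω' = K s ω := fun s hs =>
      (hK s).mono (fun a => by
        unfold one
        by_cases ha : a = c
        · subst ha
          simp only [Function.update_self]
          left
          have := mem_range.1 hs
          omega
        · simp only [Function.update_of_ne ha]
          left
          exact le_rfl) ω ω' hω
    have h2 : ∀ s ∈ range (t + 1), W s ω' = W s ω := fun s hs =>
      (hW s).mono (fun a => by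
        unfold one
        by_cases ha : a = c
        · subst ha
          simp only [Function.update_self]
          left
          have := mem_range.1 hs
          omega
        · simp only [Function.update_of_ne ha]
          left
          exact le_rfl) ω ω' hω
    simp only [hK']
    rw [sum_congr rfl fun s hs => by rw [h1 s hs], sum_congr rfl h2,
      h1 t (mem_range.2 (Nat.lt_succ_self t))]
  have hsq : ∀ ω, ∀ N ≤ L, ∑ t ∈ range N, K' t ω ^ 2 ≤ ∑ t ∈ range N, W t ω := by
    intro ω N hN
    refine le_trans (le_of_eq ?_)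
      (clip_sum25 (fun s => K s ω ^ 2) (fun s => W s ω) (fun s => sq_nonneg _)
        (fun s => hW0 s ω) N)
    refine sum_congr rfl fun t ht => ?_
    have htL : t < L := lt_of_lt_of_le (mem_range.1 ht) hN
    simp only [hK', htL, true_and]
    split_ifs <;> simp
  have hWsum : ∀ ω, ∑ t ∈ range L, W t ω ≤ L * B := by
    intro ω
    refine (sum_le_sum fun t _ => hWB t ω).trans ?_
    rw [sum_const, card_range, nsmul_eq_mul]
  have hbd : ∀ t ω, |K' t ω| ≤ Real.sqrt (L * B) := by
    intro t ω
    by_cases ht : t < L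
    · refine Real.abs_le_sqrt ?_
      refine le_trans ?_ ((hsq ω L le_rfl).trans (hWsum ω))
      exact single_le_sum (f := fun t => K' t ω ^ 2) (fun i _ => sq_nonneg _) (mem_range.2 ht)
    · have : K' t ω = 0 := by simp [hK', ht]
      rw [this, abs_zero]
      exact Real.sqrt_nonneg _
  have h1 := hP m L n k (Real.sqrt (L * B)) ρ c K' hk hρ hms hbd
  have h2 : Ex ρ (fun ω => γ ω * (∑ t ∈ range L, sb c t ω * K t ω) ^ 2) ≤
      Ex ρ (fun ω => (∑ t ∈ range L, sb c t ω * K' t ω) ^ 2) := by
    refine Ex_mono hρ fun ω => ?_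
    by_cases hγ : γ ω = 0
    · rw [hγ, zero_mul]
      exact sq_nonneg _
    · have h3 : ∀ t ∈ range L, sb c t ω * K t ω = sb c t ω * K' t ω := by
        intro t ht
        have htL := mem_range.1 ht
        have := hc ω hγ t htL
        simp only [hK']
        rw [if_pos ⟨htL, this⟩]
      rw [sum_congr rfl h3]
      have := hγ1 ω
      nlinarith [sq_nonneg (∑ t ∈ range L, sb c t ω * K' t ω)]
  have h3 : ∑ t ∈ range L, Ex ρ (fun ω => K' t ω ^ 2) ≤ ∑ t ∈ range L, Ex ρ (W t) := by
    rw [← Ex_sum, ← Ex_sum]
    exact Ex_mono hρ fun ω => hsq ω L le_rfl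
  have hlog : 0 ≤ Real.log ((L : ℝ) + 1) := Real.log_nonneg (by
    have : (0 : ℝ) ≤ L := Nat.cast_nonneg L
    linarith)
  refine h2.trans (h1.trans ?_)
  have h4 : Real.sqrt (L * B) ^ 2 = L * B := Real.sq_sqrt (by positivity)
  rw [h4]
  refine add_le_add (mul_le_mul_of_nonneg_left h3 (by positivity)) (le_of_eq ?_)
  ring

end Pool.Agent.SHD
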