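import Pool.Agent.Lib.MP_a7b2aa_an.SHD.Coup25

/-!
SHD4, module QIS (helper25): quasi isometry, from QSTEP.
-/

set_option autoImplicit false

namespace Pool.Agent.SHD

open Finset Pool.Agent.SB3 Pool.Agent.SBT Pool.Agent.SBD

theorem en_empty25 {m L : ℕ} (j : ℕ) (φ : (Fin (m + 1) → ℕ) → Pt m L → ℝ) (ω : Pt m L) :
    en ∅ j φ ω = ∑ q ∈ fr L (Inn m) (fun _ => j), φ q ω ^ 2 := by
  unfold en
  rw [sdiff_empty]
  refine sum_congr rfl fun q _ => ?_
  unfold Fh
  rw [fr_empty, sum_singleton]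
  simp [ps]

theorem en_full25 {m L : ℕ} (j : ℕ) (φ : (Fin (m + 1) → ℕ) → Pt m L → ℝ) (ω : Pt m L) :
    en (Inn m) j φ ω = XX φ j ω ^ 2 := by
  unfold en
  rw [sdiff_self, Finset.bot_eq_empty, fr_empty, sum_singleton]
  rfl

theorem left_sum25 {m L : ℕ} (T : Finset (Fin (m + 1))) (κ : Fin (m + 1) → ℕ)
    (φ : (Fin (m + 1) → ℕ) → Pt m L → ℝ) (q : Fin (m + 1) → ℕ) (ω : Pt m L) :
    ∑ α ∈ Lb L T, cL T κ α φ q ω ^ 2 ≤ φ q ω ^ 2 := by
  classical
  have h1 : ∀ α ∈ Lb L T, cL T κ α φ q ω ^ 2 =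
      if (∀ a, loL T κ α a ≤ q a ∧ q a < hiL L T κ α a) then φ q ω ^ 2 else 0 := by
    intro α _
    unfold cL cut
    split_ifs
    · rfl
    · simp
  rw [sum_congr rfl h1, ← sum_filter, sum_const, nsmul_eq_mul]
  have h2 : ((Lb L T).filter
      (fun α => ∀ a, loL T κ α a ≤ q a ∧ q a < hiL L T κ α a)).card ≤ 1 := by
    rw [card_le_one]
    intro α hα α' hα'
    rw [mem_filter] at hα hα'
    funext e
    by_cases he : e ∈ T
    · have h3 := hα.2 e
      have h4 := hα'.2 e
      unfold loL hiL at h3 h4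
      rw [if_pos he, if_pos he] at h3 h4
      have h5 : q e / 2 ^ κ e = α e :=
        Nat.div_eq_of_lt_le h3.1 (lt_of_lt_of_le h3.2 (min_le_right _ _))
      have h6 : q e / 2 ^ κ e = α' e :=
        Nat.div_eq_of_lt_le h4.1 (lt_of_lt_of_le h4.2 (min_le_right _ _))
      omega
    · have h3 := hα.1
      have h4 := hα'.1
      unfold Lb at h3 h4
      rw [Fintype.mem_piFinset] at h3 h4
      have h5 := h3 e
      have h6 := h4 e
      rw [if_neg he, mem_singleton] at h5 h6
      rw [h5, h6]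
  have h3 : (((Lb L T).filter
      (fun α => ∀ a, loL T κ α a ≤ q a ∧ q a < hiL L T κ α a)).card : ℝ) ≤ 1 := by
    exact_mod_cast h2
  nlinarith [sq_nonneg (φ q ω)]

theorem card_Sc25 {m L : ℕ} (T : Finset (Fin (m + 1))) :
    ((Sc (m := m) L T).card : ℝ) = lg L ^ T.card := by
  unfold Sc lg
  rw [Fintype.card_piFinset]
  have h1 : ∀ e : Fin (m + 1), (if e ∈ T then range (Nat.log 2 L + 1) else {0}).card =
      if e ∈ T then Nat.log 2 L + 1 else 1 := by
    intro e
    split_ifs <;> simp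
  rw [prod_congr rfl fun e _ => h1 e, prod_ite, prod_const, prod_const_one, mul_one]
  push_cast
  congr 2
  ext e
  simp

theorem lg_one25 (L : ℕ) : 1 ≤ lg L := by
  unfold lg
  have : (0 : ℝ) ≤ (Nat.log 2 L : ℝ) := Nat.cast_nonneg _
  linarith

theorem qis_25 (hQ : StQstep) : StQis := by
  intro m hm
  obtain ⟨e, he⟩ := hQ m hm
  refine ⟨e + m * (m + 1), fun n => ?_⟩
  obtain ⟨C, hC, h⟩ := he n
  set C1 : ℝ := C * (2 + 2 ^ m) with hC1
  have hC1' : 1 ≤ C1 := by
    have : (1 : ℝ) ≤ 2 + 2 ^ m := by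
      have : (0 : ℝ) < 2 ^ m := by positivity
      linarith
    nlinarith
  refine ⟨C1 ^ m * C, ?_, ?_⟩
  · have := one_le_pow₀ hC1' (n := m)
    nlinarith
  intro L N R j k lam β S δ A B g u φ hL hj hk hlam hβ hS hδ hB hu hT hφ hφB hφN hA1 hA2 hA3 hA4
  have hρ : Law k (qq (tg lam g u)) := hT.law
  set ρ := qq (tg lam g u) with hρdef
  have hL0 : (0 : ℝ) < L := by exact_mod_cast hL
  have hLr : (1 : ℝ) ≤ L := by exact_mod_cast hL
  have hA : 1 ≤ A := by linarith
  have hlg := lg_one25 L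
  set Z : ℝ := C * (1 + lam ^ 2 + lam ^ 2 * β) * B ^ 2 * ((L : ℝ) + 1) ^ e *
    (δ + 1 / (L + 1) ^ n) with hZ
  have hZ0 : 0 ≤ Z := by positivity
  set P : ℝ := C1 * A with hP
  have hP1 : 1 ≤ P := one_le_mul_of_one_le_of_one_le hC1' hA
  set V : ℝ := ((L : ℝ) + 1) ^ (m + 1) with hV
  have hV1 : 1 ≤ V := one_le_pow₀ (by linarith)
  have key : ∀ U : Finset (Fin (m + 1)), U ⊆ Inn m →
      ∀ ψ : (Fin (m + 1) → ℕ) → Pt m L → ℝ, (∀ q, Ms q (ψ q)) → (∀ q ω, |ψ q ω| ≤ B) →
        (∀ q ω, R < dst (∑ a, q a) N → ψ q ω = 0) →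
        Ex ρ (en U j ψ) ≤ P ^ U.card * Ex ρ (en ∅ j ψ) + (P * V) ^ U.card * Z := by
    intro U
    induction U using Finset.induction_on with
    | empty =>
      intro _ ψ _ _ _
      simp only [card_empty, pow_zero, one_mul]
      linarith
    | insert b U hbU ih =>
      intro hU ψ hψ hψB hψN
      have hb : b ∈ Inn m := hU (mem_insert_self b U)
      have hU' : U ⊆ Inn m := (subset_insert b U).trans hU
      have h1 := h L N R j k lam β S δ A B g u ψ U b hL hj hk hlam hβ hS hδ hB hu hT hψ hψB hψN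
        hA1 hA2 hA3 hA4 hb hU' hbU
      have h2 := ih hU' ψ hψ hψB hψN
      have hE0 : ∀ (V : Finset (Fin (m + 1))) (χ : (Fin (m + 1) → ℕ) → Pt m L → ℝ),
          0 ≤ Ex ρ (en V j χ) := fun V χ =>
        Ex_nonneg hρ fun ω => sum_nonneg fun _ _ => sq_nonneg _
      set a : ℝ := P ^ U.card with ha
      set x : ℝ := (P * V) ^ U.card with hx
      have ha1 : 1 ≤ a := one_le_pow₀ hP1
      have hx1 : 1 ≤ x := one_le_pow₀ (one_le_mul_of_one_le_of_one_le hP1 hV1)
      have h3 : ∀ T ∈ ((Inn m).erase b).powerset.erase ∅, ∀ κ ∈ Sc L T,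
          ∑ α ∈ Lb L T, Ex ρ (en U j (cL T κ α ψ)) ≤
            a * Ex ρ (en ∅ j ψ) + (L : ℝ) ^ (m + 1) * (x * Z) := by
        intro T _ κ _
        have e1 : ∀ α ∈ Lb L T, Ex ρ (en U j (cL T κ α ψ)) ≤
            a * Ex ρ (en ∅ j (cL T κ α ψ)) + x * Z := by
          intro α _
          refine ih hU' (cL T κ α ψ) (fun r => Ms_cut25 (hψ r)) (cut_abs25 hB hψB) ?_
          intro q ω hq
          unfold cL cut
          rw [hψN q ω hq]
          simp
        refine (sum_le_sum e1).trans ?_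
        rw [sum_add_distrib, ← mul_sum, sum_const, nsmul_eq_mul]
        refine add_le_add ?_ ?_
        · refine mul_le_mul_of_nonneg_left ?_ (by linarith)
          rw [← Ex_sum]
          refine Ex_mono hρ fun ω => ?_
          simp only [en_empty25]
          rw [sum_comm]
          exact sum_le_sum fun q _ => left_sum25 T κ ψ q ω
        · refine mul_le_mul_of_nonneg_right ?_ (by positivity)
          have h5 : (Lb L T).card ≤ L ^ (m + 1) := by
            classical
            unfold Lb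
            rw [Fintype.card_piFinset]
            refine (prod_le_prod' (g := fun _ => L) fun e _ => ?_).trans (le_of_eq ?_)
            · split_ifs
              · exact (card_filter_le _ _).trans (card_range L).le
              · simpa using hL
            · rw [prod_const, card_univ, Fintype.card_fin]
          exact_mod_cast h5
      have h4 : (1 / lg L ^ m) * ∑ T ∈ ((Inn m).erase b).powerset.erase ∅, ∑ κ ∈ Sc L T,
          ∑ α ∈ Lb L T, Ex ρ (en U j (cL T κ α ψ)) ≤
          2 ^ m * (a * Ex ρ (en ∅ j ψ) + (L : ℝ) ^ (m + 1) * (x * Z)) := by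
        set Y : ℝ := a * Ex ρ (en ∅ j ψ) + (L : ℝ) ^ (m + 1) * (x * Z) with hY
        have hY0 : 0 ≤ Y := by
          have := hE0 ∅ ψ
          positivity
        have e1 : ∀ T ∈ ((Inn m).erase b).powerset.erase ∅, ∑ κ ∈ Sc L T,
            ∑ α ∈ Lb L T, Ex ρ (en U j (cL T κ α ψ)) ≤ lg L ^ m * Y := by
          intro T hT
          refine (sum_le_sum (h3 T hT)).trans ?_
          rw [sum_const, nsmul_eq_mul, card_Sc25]
          refine mul_le_mul_of_nonneg_right (pow_le_pow_right₀ hlg ?_) hY0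
          rw [mem_erase, mem_powerset] at hT
          have e2 : T.card ≤ (Inn m).card := card_le_card (hT.2.trans (erase_subset _ _))
          simpa [Inn] using e2
        have e3 : ((((Inn m).erase b).powerset.erase ∅).card : ℝ) ≤ 2 ^ m := by
          have e4 : (((Inn m).erase b).powerset.erase ∅).card ≤ 2 ^ m := by
            refine (card_erase_le).trans ?_
            rw [card_powerset]
            refine Nat.pow_le_pow_right (by norm_num) ?_
            have e5 : ((Inn m).erase b).card ≤ (Inn m).card := card_le_card (erase_subset _ _)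
            simpa [Inn] using e5
          exact_mod_cast e4
        have hlgm : 0 < lg L ^ m := by positivity
        calc (1 / lg L ^ m) * ∑ T ∈ ((Inn m).erase b).powerset.erase ∅, ∑ κ ∈ Sc L T,
              ∑ α ∈ Lb L T, Ex ρ (en U j (cL T κ α ψ)) ≤
              (1 / lg L ^ m) * ∑ _T ∈ ((Inn m).erase b).powerset.erase ∅, lg L ^ m * Y :=
              mul_le_mul_of_nonneg_left (sum_le_sum e1) (by positivity)
          _ = ((((Inn m).erase b).powerset.erase ∅).card : ℝ) * Y := by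
              rw [sum_const, nsmul_eq_mul]
              field_simp
          _ ≤ 2 ^ m * Y := mul_le_mul_of_nonneg_right e3 hY0
      have hcard : (insert b U).card = U.card + 1 := card_insert_of_notMem hbU
      rw [hcard, pow_succ, pow_succ, ← ha, ← hx]
      refine h1.trans ?_
      have hLV : (L : ℝ) ^ (m + 1) ≤ V := pow_le_pow_left₀ hL0.le (by linarith) _
      have hE := hE0 ∅ ψ
      set E0 := Ex ρ (en ∅ j ψ) with hE0'
      have h2m : (0 : ℝ) < 2 ^ m := by positivity
      have h5 : (L : ℝ) ^ (m + 1) * (x * Z) ≤ V * (x * Z) :=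
        mul_le_mul_of_nonneg_right hLV (by positivity)
      have h6 : Ex ρ (en U j ψ) + E0 + (1 / lg L ^ m) *
          ∑ T ∈ ((Inn m).erase b).powerset.erase ∅, ∑ κ ∈ Sc L T,
            ∑ α ∈ Lb L T, Ex ρ (en U j (cL T κ α ψ)) ≤
          (2 + 2 ^ m) * (a * E0) + (1 + 2 ^ m) * (V * (x * Z)) := by
        have e1 : E0 ≤ a * E0 := le_mul_of_one_le_left hE ha1
        have e2 : x * Z ≤ V * (x * Z) := le_mul_of_one_le_left (by positivity) hV1
        have e3 : 2 ^ m * ((L : ℝ) ^ (m + 1) * (x * Z)) ≤ 2 ^ m * (V * (x * Z)) :=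
          mul_le_mul_of_nonneg_left h5 h2m.le
        have e4 : 2 ^ m * (a * E0 + (L : ℝ) ^ (m + 1) * (x * Z)) =
          2 ^ m * (a * E0) + 2 ^ m * ((L : ℝ) ^ (m + 1) * (x * Z)) := by ring
        have e5 : (2 + 2 ^ m) * (a * E0) + (1 + 2 ^ m) * (V * (x * Z)) =
          2 * (a * E0) + 2 ^ m * (a * E0) + V * (x * Z) + 2 ^ m * (V * (x * Z)) := by ring
        rw [e4] at h4
        rw [e5]
        linarith
      have hCA : 0 ≤ C * A := by positivity
      calc C * A * (Ex ρ (en U j ψ) + E0 + (1 / lg L ^ m) *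
          ∑ T ∈ ((Inn m).erase b).powerset.erase ∅, ∑ κ ∈ Sc L T,
            ∑ α ∈ Lb L T, Ex ρ (en U j (cL T κ α ψ))) + Z ≤
          C * A * ((2 + 2 ^ m) * (a * E0) + (1 + 2 ^ m) * (V * (x * Z))) +
            C * A * (V * (x * Z)) := by
            refine add_le_add (mul_le_mul_of_nonneg_left h6 hCA) ?_
            have e1 : 1 ≤ C * A := one_le_mul_of_one_le_of_one_le hC hA
            have e3 : 1 ≤ V * x := one_le_mul_of_one_le_of_one_le hV1 hx1
            have e2 : Z ≤ V * x * Z := le_mul_of_one_le_left hZ0 e3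
            have e4 : 0 ≤ V * x * Z := by positivity
            have e5 : V * x * Z ≤ C * A * (V * x * Z) := le_mul_of_one_le_left e4 e1
            rw [← mul_assoc V x Z]
            exact e2.trans e5
        _ = a * P * E0 + x * (P * V) * Z := by
            rw [hP, hC1]
            ring
  have h1 := key (Inn m) (Subset.refl _) φ hφ hφB hφN
  have hcard : (Inn m).card = m := by simp [Inn]
  rw [hcard] at h1
  have h2 : Ex ρ (en (Inn m) j φ) = Ex ρ (fun ω => XX φ j ω ^ 2) := by
    congr 1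
    funext ω
    exact en_full25 j φ ω
  have h3 : Ex ρ (en ∅ j φ) = ∑ q ∈ fr L (Inn m) (fun _ => j), Ex ρ (fun ω => φ q ω ^ 2) := by
    rw [← Ex_sum]
    congr 1
    funext ω
    exact en_empty25 j φ ω
  rw [h2, h3] at h1
  refine h1.trans ?_
  have hs0 : 0 ≤ ∑ q ∈ fr L (Inn m) (fun _ => j), Ex ρ (fun ω => φ q ω ^ 2) :=
    sum_nonneg fun q _ => Ex_nonneg hρ fun ω => sq_nonneg _
  refine add_le_add ?_ (le_of_eq ?_)
  · refine mul_le_mul_of_nonneg_right ?_ hs0
    rw [hP, mul_pow]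
    calc C1 ^ m * A ^ m = C1 ^ m * 1 * A ^ m := by ring
      _ ≤ C1 ^ m * C * A ^ m := by gcongr
  · rw [hP, hV, hZ, mul_pow, mul_pow, ← pow_mul, mul_comm (m + 1) m, pow_add]
    ring

end Pool.Agent.SHD
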