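import Pool.Agent.Lib.MP_a7b2aa_an.SHD.Stmts3_23

/-!
SHD3, helper70: the module CRUD (the remaining pairs: counting in the band and Schur's test).
-/

set_option autoImplicit false

namespace Pool.Agent.SHD

open Finset Pool.Agent.SB3 Pool.Agent.SBT Pool.Agent.SBD

/-- Schur's test -/
theorem schur70 {κ κ' : Type} [Fintype κ] [Fintype κ'] (K : Matrix κ κ' ℝ) (A : κ → κ' → ℝ)
    (S : ℝ) (hS : 0 ≤ S) (hK : ∀ x y, |K x y| ≤ A x y) (h1 : ∀ x, ∑ y, A x y ≤ S)
    (h2 : ∀ y, ∑ x, A x y ≤ S) : NB K (S ^ 2) := by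
  intro w
  have hA : ∀ x y, 0 ≤ A x y := fun x y => (abs_nonneg _).trans (hK x y)
  have h3 : ∀ x, (∑ y, K x y * w y) ^ 2 ≤ S * ∑ y, A x y * w y ^ 2 := by
    intro x
    have e1 : |∑ y, K x y * w y| ≤ ∑ y, A x y * |w y| := by
      refine (abs_sum_le_sum_abs _ _).trans (sum_le_sum fun y _ => ?_)
      rw [abs_mul]
      exact mul_le_mul_of_nonneg_right (hK x y) (abs_nonneg _)
    have e2 : (∑ y, A x y * |w y|) ^ 2 ≤ (∑ y, A x y) * ∑ y, A x y * w y ^ 2 := by
      refine Finset.sum_sq_le_sum_mul_sum_of_sq_le_mul univ (fun y _ => hA x y)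
        (fun y _ => mul_nonneg (hA x y) (sq_nonneg _)) (fun y _ => le_of_eq ?_)
      rw [mul_pow, sq_abs]
      ring
    have e3 : 0 ≤ ∑ y, A x y * w y ^ 2 := sum_nonneg fun y _ => mul_nonneg (hA x y) (sq_nonneg _)
    calc (∑ y, K x y * w y) ^ 2 = |∑ y, K x y * w y| ^ 2 := (sq_abs _).symm
      _ ≤ (∑ y, A x y * |w y|) ^ 2 := pow_le_pow_left₀ (abs_nonneg _) e1 2
      _ ≤ (∑ y, A x y) * ∑ y, A x y * w y ^ 2 := e2
      _ ≤ S * ∑ y, A x y * w y ^ 2 := mul_le_mul_of_nonneg_right (h1 x) e3
  calc ∑ x, (∑ y, K x y * w y) ^ 2 ≤ ∑ x, S * ∑ y, A x y * w y ^ 2 :=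
        sum_le_sum fun x _ => h3 x
    _ = S * ∑ y, (∑ x, A x y) * w y ^ 2 := by
        rw [← mul_sum, sum_comm]
        congr 1
        exact sum_congr rfl fun y _ => (sum_mul _ _ _).symm
    _ ≤ S * ∑ y, S * w y ^ 2 :=
        mul_le_mul_of_nonneg_left
          (sum_le_sum fun y _ => mul_le_mul_of_nonneg_right (h2 y) (sq_nonneg _)) hS
    _ = S ^ 2 * ∑ y, w y ^ 2 := by
        rw [← mul_sum]
        ring

section crud

variable {m L N R : ℕ} {v : (Fin (m + 1) → ℕ) → Pt m L → ℝ}

theorem cut_abs_le70 (hv : ArF N R v) (lo hi q : Fin (m + 1) → ℕ) (ω : Pt m L) :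
    |cut lo hi v q ω| ≤ 1 := by
  unfold cut
  split_ifs
  · exact hv.abs q ω
  · simp

theorem cut_bd70 (hv : ArF N R v) (lo hi q : Fin (m + 1) → ℕ) (ω : Pt m L)
    (h : ¬ dst (∑ a, q a) N ≤ R) : cut lo hi v q ω = 0 := by
  unfold cut
  split_ifs
  · exact hv.bd q ω (not_le.1 h)
  · rfl

theorem cut_out70 (lo hi q : Fin (m + 1) → ℕ) (ω : Pt m L) (e : Fin (m + 1))
    (h : ¬ (lo e ≤ q e ∧ q e < hi e)) : cut lo hi v q ω = 0 := by
  unfold cut
  rw [if_neg fun h' => h (h' e)]

/-- cells below `p` in the band -/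
theorem cntq70 (hv : ArF N R v) (b : Fin (m + 1)) (lo' hi' p : Fin (m + 1) → ℕ) (ω : Pt m L)
    (hp : dst (∑ e, p e) N ≤ R) :
    ∑ q' ∈ fr L (univ.erase b) (fun _ => p b),
      (if ∀ e, e ≠ b → q' e ≤ p e then |cut lo' hi' v q' ω| else 0) ≤ (2 * (R : ℝ) + 1) ^ m := by
  set S : Finset (Fin (m + 1) → ℕ) :=
    Fintype.piFinset (fun e => if e = b then {p b} else Finset.Icc (p e - 2 * R) (p e)) with hS
  have h1 : ∀ q' ∈ fr L (univ.erase b) (fun _ => p b),
      (if ∀ e, e ≠ b → q' e ≤ p e then |cut lo' hi' v q' ω| else 0) ≤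
        if q' ∈ S then (1 : ℝ) else 0 := by
    intro q' hq'
    rw [mem_fr] at hq'
    have hb : q' b = p b := hq'.2 b (by simp)
    have h0 : (0 : ℝ) ≤ if q' ∈ S then (1 : ℝ) else 0 := by
      split_ifs <;> norm_num
    by_cases h2 : ∀ e, e ≠ b → q' e ≤ p e
    · rw [if_pos h2]
      by_cases h3 : dst (∑ e, q' e) N ≤ R
      · have hle : ∀ e, q' e ≤ p e := by
          intro e
          by_cases he : e = b
          · rw [he, hb]
          · exact h2 e he
        have h4 : q' ∈ S := by
          rw [hS, Fintype.mem_piFinset]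
          intro e
          by_cases he : e = b
          · rw [if_pos he, he, hb]
            exact mem_singleton_self _
          · rw [if_neg he, mem_Icc]
            refine ⟨?_, hle e⟩
            have h5 : ∑ e', (p e' - q' e') + ∑ e', q' e' = ∑ e', p e' := by
              rw [← sum_add_distrib]
              exact sum_congr rfl fun e' _ => Nat.sub_add_cancel (hle e')
            have h6 : p e - q' e ≤ ∑ e', (p e' - q' e') :=
              Finset.single_le_sum (f := fun e' => p e' - q' e') (fun i _ => Nat.zero_le _)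
                (mem_univ e)
            unfold dst at hp h3
            omega
        rw [if_pos h4]
        exact cut_abs_le70 hv lo' hi' q' ω
      · rw [cut_bd70 hv lo' hi' q' ω h3, abs_zero]
        exact h0
    · rw [if_neg h2]
      exact h0
  refine (sum_le_sum h1).trans ?_
  rw [Finset.sum_boole]
  have h2 : ((fr L (univ.erase b) (fun _ => p b)).filter (· ∈ S)).card ≤ S.card :=
    card_le_card fun x hx => (mem_filter.1 hx).2
  have h3 : S.card ≤ (2 * R + 1) ^ m := by
    rw [hS, Fintype.card_piFinset, ← Finset.mul_prod_erase univ _ (mem_univ b), if_pos rfl,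
      card_singleton, one_mul]
    have h4 : ∏ e ∈ univ.erase b, (if e = b then {p b} else Finset.Icc (p e - 2 * R) (p e)).card ≤
        ∏ _e ∈ univ.erase b, (2 * R + 1) := by
      refine Finset.prod_le_prod' fun e he => ?_
      rw [if_neg (ne_of_mem_erase he), Nat.card_Icc]
      omega
    refine h4.trans ?_
    rw [prod_const, card_erase_of_mem (mem_univ b), card_univ, Fintype.card_fin]
    simp
  calc (((fr L (univ.erase b) (fun _ => p b)).filter (· ∈ S)).card : ℝ) ≤
        (((2 * R + 1) ^ m : ℕ) : ℝ) := by exact_mod_cast h2.trans h3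
    _ = (2 * (R : ℝ) + 1) ^ m := by push_cast; ring

/-- cells of a box in the band, one more coordinate free -/
theorem cntp70 (hv : ArF N R v) (U : Finset (Fin (m + 1))) (c : Fin (m + 1)) (hc : c ∉ U)
    (q lo hi : Fin (m + 1) → ℕ) (ω : Pt m L) :
    ∑ p ∈ fr L (insert c U) q, |cut lo hi v p ω| ≤ (2 * (R : ℝ) + 1) * bl U lo hi := by
  set S : Finset (Fin (m + 1) → ℕ) :=
    Fintype.piFinset (fun e => if e ∈ U then Finset.Ico (lo e) (hi e) else {q e}) with hS
  have hR : (0 : ℝ) ≤ 2 * (R : ℝ) + 1 := by positivity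
  have e1 : insert c U = U ∪ {c} := by
    rw [union_comm]
    rfl
  rw [e1, sum_fr_union (by simpa using hc)]
  have h1 : ∀ s ∈ fr L U q, ∑ r ∈ fr L {c} s, |cut lo hi v r ω| ≤
      if s ∈ S then (2 * (R : ℝ) + 1) else 0 := by
    intro s hs
    have e2 : ∑ r ∈ fr L {c} s, |cut lo hi v r ω| =
        ∑ t ∈ range L, |cut lo hi v (Function.update s c t) ω| := by
      have e3 : ({c} : Finset (Fin (m + 1))) = insert c ∅ := rfl
      rw [e3, sum_fr_insert (by simp)]
      refine sum_congr rfl fun t _ => ?_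
      rw [fr_empty, sum_singleton]
    rw [e2]
    by_cases h2 : s ∈ S
    · rw [if_pos h2]
      set A : ℕ := ∑ x ∈ univ \ {c}, s x with hA
      have h3 : ∀ t ∈ range L, |cut lo hi v (Function.update s c t) ω| ≤
          if t ∈ Finset.Icc (N - R - A) (N + R - A) then (1 : ℝ) else 0 := by
        intro t _
        have e4 : ∑ x, Function.update s c t x = t + A :=
          Finset.sum_update_of_mem (mem_univ c) s t
        by_cases h4 : dst (∑ x, Function.update s c t x) N ≤ R
        · rw [if_pos]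
          · exact cut_abs_le70 hv _ _ _ ω
          · rw [e4] at h4
            unfold dst at h4
            rw [mem_Icc]
            omega
        · rw [cut_bd70 hv _ _ _ ω h4, abs_zero]
          split_ifs <;> norm_num
      refine (sum_le_sum h3).trans ?_
      rw [Finset.sum_boole]
      have h5 : ((range L).filter (· ∈ Finset.Icc (N - R - A) (N + R - A))).card ≤ 2 * R + 1 := by
        refine (card_le_card (t := Finset.Icc (N - R - A) (N + R - A))
          fun x hx => (mem_filter.1 hx).2).trans ?_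
        rw [Nat.card_Icc]
        omega
      have h6 : (((range L).filter (· ∈ Finset.Icc (N - R - A) (N + R - A))).card : ℝ) ≤
          ((2 * R + 1 : ℕ) : ℝ) := by exact_mod_cast h5
      refine h6.trans ?_
      push_cast
      exact le_rfl
    · rw [if_neg h2]
      have h3 : ∃ e ∈ U, ¬ (lo e ≤ s e ∧ s e < hi e) := by
        by_contra h4
        push Not at h4
        apply h2
        rw [hS, Fintype.mem_piFinset]
        intro e
        by_cases he : e ∈ U
        · rw [if_pos he, mem_Ico]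
          exact h4 e he
        · rw [if_neg he, mem_singleton]
          exact (mem_fr.1 hs).2 e he
      obtain ⟨e, he, h4⟩ := h3
      refine (sum_eq_zero fun t _ => ?_).le
      have hec : e ≠ c := fun h => hc (h ▸ he)
      rw [cut_out70 lo hi _ ω e (by rwa [Function.update_of_ne hec]), abs_zero]
  refine (sum_le_sum h1).trans ?_
  have h2 : ∑ s ∈ fr L U q, (if s ∈ S then (2 * (R : ℝ) + 1) else 0) =
      (2 * (R : ℝ) + 1) * (((fr L U q).filter (· ∈ S)).card : ℝ) := by
    rw [← sum_filter, sum_const, nsmul_eq_mul, mul_comm]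
  rw [h2]
  refine mul_le_mul_of_nonneg_left ?_ hR
  have h3 : ((fr L U q).filter (· ∈ S)).card ≤ S.card :=
    card_le_card fun x hx => (mem_filter.1 hx).2
  have h4 : S.card = ∏ e ∈ U, (hi e - lo e) := by
    rw [hS, Fintype.card_piFinset]
    have h5 : ∀ e, (if e ∈ U then Finset.Ico (lo e) (hi e) else {q e}).card =
        if e ∈ U then hi e - lo e else 1 := by
      intro e
      split_ifs
      · exact Nat.card_Ico _ _
      · exact card_singleton _
    simp_rw [h5]
    rw [Finset.prod_ite_mem, univ_inter]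
  calc ((((fr L U q).filter (· ∈ S)).card : ℕ) : ℝ) ≤ ((∏ e ∈ U, (hi e - lo e) : ℕ) : ℝ) := by
        exact_mod_cast h3.trans h4.le
    _ = bl U lo hi := by
        unfold bl
        push_cast
        rfl

theorem crud_abs70 (hv : ArF N R v) (b : Fin (m + 1)) (lo' hi' lo hi : Fin (m + 1) → ℕ)
    (ω : Pt m L) (V : Finset (Fin (m + 1))) (hb : b ∉ V) (X : Fin (m + 1) → ℕ) :
    |∑ r ∈ range L, ∑ q' ∈ fr L (univ.erase b) (fun _ => r), ∑ p ∈ fr L V (Function.update X b r),
      if ∀ e, e ≠ b → q' e ≤ p e then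
        (ps (univ.erase b) q' ω * cut lo' hi' v q' ω) * (ps V p ω * cut lo hi v p ω) else 0| ≤
      (2 * (R : ℝ) + 1) ^ m * ∑ p ∈ fr L (insert b V) X, |cut lo hi v p ω| := by
  rw [sum_fr_insert hb X, mul_sum]
  refine (abs_sum_le_sum_abs _ _).trans (sum_le_sum fun r _ => ?_)
  rw [mul_sum, sum_comm]
  refine (abs_sum_le_sum_abs _ _).trans (sum_le_sum fun p hp => ?_)
  have hpb : p b = r := by
    rw [mem_fr] at hp
    have := hp.2 b hb
    rwa [Function.update_self] at this
  refine (abs_sum_le_sum_abs _ _).trans ?_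
  have h1 : ∀ q' ∈ fr L (univ.erase b) (fun _ => r),
      |if ∀ e, e ≠ b → q' e ≤ p e then
        (ps (univ.erase b) q' ω * cut lo' hi' v q' ω) * (ps V p ω * cut lo hi v p ω) else 0| ≤
      |cut lo hi v p ω| *
        (if ∀ e, e ≠ b → q' e ≤ p e then |cut lo' hi' v q' ω| else 0) := by
    intro q' _
    split_ifs
    · rw [abs_mul, abs_mul, abs_mul, ps_abs, ps_abs, one_mul, one_mul, mul_comm]
    · simp
  refine (sum_le_sum h1).trans ?_
  rw [← mul_sum, mul_comm]
  by_cases hz : cut lo hi v p ω = 0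
  · rw [hz]
    simp
  · have hp2 : dst (∑ e, p e) N ≤ R := by
      by_contra h
      exact hz (cut_bd70 hv lo hi p ω h)
    have h2 := cntq70 hv b lo' hi' p ω hp2
    rw [hpb] at h2
    exact mul_le_mul_of_nonneg_right h2 (abs_nonneg _)

end crud

theorem crud_70 : StCrud := by
  intro m L N R b v lo' hi' lo hi ω hv hhi
  have hR : (0 : ℝ) ≤ 2 * (R : ℝ) + 1 := by positivity
  have hbl : ∀ U : Finset (Fin (m + 1)), 0 ≤ bl U lo hi := fun U =>
    prod_nonneg fun e _ => Nat.cast_nonneg _
  refine ⟨?_, ?_⟩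
  · intro U a c q hbU hac haU hcU
    have hUi : insert b (U.erase b) = U := insert_erase hbU
    set A : Fin L → Fin L → ℝ := fun x y => (2 * (R : ℝ) + 1) ^ m *
      ∑ p ∈ fr L U (Function.update (Function.update q a x) c y), |cut lo hi v p ω| with hA
    have e1 : (2 * (R : ℝ) + 1) ^ (2 * m + 2) * bl U lo hi ^ 2 =
        ((2 * (R : ℝ) + 1) ^ m * ((2 * (R : ℝ) + 1) * bl U lo hi)) ^ 2 := by
      ring
    rw [e1]
    refine schur70 _ A _ (by have := hbl U; positivity) ?_ ?_ ?_
    · intro x y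
      have h := crud_abs70 hv b lo' hi' lo hi ω (U.erase b) (notMem_erase b U)
        (Function.update (Function.update q a x) c y)
      rw [hUi] at h
      exact h
    · intro x
      simp only [hA]
      rw [← mul_sum]
      refine mul_le_mul_of_nonneg_left ?_ (pow_nonneg hR m)
      have h := cntp70 hv U c hcU (Function.update q a x) lo hi ω
      rw [sum_fr_insert hcU, Finset.sum_range] at h
      exact h
    · intro y
      simp only [hA]
      rw [← mul_sum]
      refine mul_le_mul_of_nonneg_left ?_ (pow_nonneg hR m)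
      have h := cntp70 hv U a haU (Function.update q c y) lo hi ω
      rw [sum_fr_insert haU, Finset.sum_range] at h
      refine le_trans (le_of_eq ?_) h
      refine sum_congr rfl fun x _ => ?_
      rw [Function.update_comm hac]
  · intro i hb0
    have h := crud_abs70 hv b lo' hi' lo hi ω ((Inn m).erase b) (notMem_erase b _) (fun _ => i)
    have h2 := cntp70 hv ((Inn m).erase b) b (notMem_erase b _) (fun _ => i) lo hi ω
    have h3 : |k0 b i v lo' hi' lo hi ω| ≤
        (2 * (R : ℝ) + 1) ^ m * ((2 * (R : ℝ) + 1) * bl ((Inn m).erase b) lo hi) :=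
      le_trans h (mul_le_mul_of_nonneg_left h2 (pow_nonneg hR m))
    calc k0 b i v lo' hi' lo hi ω ^ 2 = |k0 b i v lo' hi' lo hi ω| ^ 2 := (sq_abs _).symm
      _ ≤ ((2 * (R : ℝ) + 1) ^ m * ((2 * (R : ℝ) + 1) * bl ((Inn m).erase b) lo hi)) ^ 2 :=
        pow_le_pow_left₀ (abs_nonneg _) h3 2
      _ = _ := by ring

end Pool.Agent.SHD
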