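import Pool.Agent.Lib.MP_a7b2aa_an.SHD.Stmts2_65

/-!
SHD2, module OPENG (helper33): the gate stays open with high probability.
-/

set_option autoImplicit false

namespace Pool.Agent.SHD

open Finset Pool.Agent.SB3 Pool.Agent.SBT Pool.Agent.SBD

variable {m L : ℕ}

theorem NB_mono33 {κ κ' : Type} [Fintype κ] [Fintype κ'] {A : Matrix κ κ' ℝ} {b b' : ℝ}
    (h : NB A b) (hb : b ≤ b') : NB A b' := fun u =>
  (h u).trans (mul_le_mul_of_nonneg_right hb (sum_nonneg fun _ _ => sq_nonneg _))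

theorem Nrm_mono33 {bb bb' : ℕ → ℝ} {g : ℕ → Pt m L → ℝ} {v : (Fin (m + 1) → ℕ) → Pt m L → ℝ}
    (h : Nrm bb g v) (hb : ∀ u, bb u ≤ bb' u) : Nrm bb' g v :=
  ⟨fun j ω hj hg lo hi h0 h1 U t q hU ht ht0 =>
    NB_mono33 (h.mat j ω hj hg lo hi h0 h1 U t q hU ht ht0) (hb _),
   fun j ω hj hg lo hi h0 h1 i => (h.ent j ω hj hg lo hi h0 h1 i).trans (hb _)⟩

/-- a term of a cut array depends only on the hull -/
theorem cut_cl33 {N : ℕ} {v : (Fin (m + 1) → ℕ) → Pt m L → ℝ} (hv : ArK N v)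
    (lo hi : Fin (m + 1) → ℕ) {ω ω' : Pt m L} (h : cl hi ω' ω) (U : Finset (Fin (m + 1)))
    (r : Fin (m + 1) → ℕ) : ps U r ω' * cut lo hi v r ω' = ps U r ω * cut lo hi v r ω := by
  unfold cut
  by_cases hr : ∀ a, lo a ≤ r a ∧ r a < hi a
  · rw [if_pos hr, if_pos hr]
    have e1 : v r ω' = v r ω := hv.dep r ω ω' (cl_mono (fun a => Or.inl (hr a).2.le) h)
    have e2 : ps U r ω' = ps U r ω := by
      unfold ps
      exact prod_congr rfl fun c _ => Ms_sb (hr c).2 ω ω' h
    rw [e1, e2]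
  · rw [if_neg hr, if_neg hr, mul_zero, mul_zero]

theorem Ms_OKb33 {N : ℕ} {v : (Fin (m + 1) → ℕ) → Pt m L → ℝ} (hv : ArK N v)
    (lo hi : Fin (m + 1) → ℕ) (c β : ℝ) :
    Ms hi (fun ω : Pt m L => ¬ OKb c β (cut lo hi v) ω) := by
  intro ω ω' h
  have e1 : ∀ (U : Finset (Fin (m + 1))) (t : Fin (m + 1)) (q : Fin (m + 1) → ℕ),
      Mx U t q (cut lo hi v) ω' = Mx U t q (cut lo hi v) ω := by
    intro U t q
    unfold Mx
    congr 1
    funext x y
    exact sum_congr rfl fun r _ => cut_cl33 hv lo hi h U r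
  have e2 : ∀ i, XX (cut lo hi v) i ω' = XX (cut lo hi v) i ω := by
    intro i
    unfold XX
    exact sum_congr rfl fun r _ => cut_cl33 hv lo hi h _ r
  show (¬ OKb c β (cut lo hi v) ω') = (¬ OKb c β (cut lo hi v) ω)
  simp only [OKb, e1, e2]

/-- a box without cells of the band is good -/
theorem OKb_zero33 {v : (Fin (m + 1) → ℕ) → Pt m L → ℝ} {lo hi : Fin (m + 1) → ℕ} {c β : ℝ}
    {ω : Pt m L} (hc : 0 ≤ c) (hβ : 0 ≤ β) (h : ∀ r, cut lo hi v r ω = 0) :
    OKb c β (cut lo hi v) ω := by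
  constructor
  · intro U t q _ _ _ u
    have e : ∀ x y, Mx U t q (cut lo hi v) ω x y = 0 := by
      intro x y
      unfold Mx
      rw [Matrix.of_apply]
      exact sum_eq_zero fun r _ => by rw [h r, mul_zero]
    simp only [e, zero_mul, sum_const_zero]
    have h1 : 0 ≤ c * β ^ U.card * ∑ y, u y ^ 2 :=
      mul_nonneg (mul_nonneg hc (pow_nonneg hβ _)) (sum_nonneg fun y _ => sq_nonneg _)
    simpa using h1
  · intro i
    have e : XX (cut lo hi v) i ω = 0 := by
      unfold XX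
      exact sum_eq_zero fun r _ => by rw [h r, mul_zero]
    rw [e]
    have h1 : 0 ≤ c * β ^ (m - 1) := mul_nonneg hc (pow_nonneg hβ _)
    simpa using h1

/-- the hull of a bad box is low -/
theorem hull33 {N R s : ℕ} {v : (Fin (m + 1) → ℕ) → Pt m L → ℝ} (hv : ArB N R v)
    {lo hi : Fin (m + 1) → ℕ} (hB : Bx L s lo hi) {c β : ℝ} {ω : Pt m L} (hc : 0 ≤ c)
    (hβ : 0 ≤ β) (h : ¬ OKb c β (cut lo hi v) ω) : ∑ a, hi a ≤ N + R + (m + 1) * s := by
  have h1 : ∃ r, cut lo hi v r ω ≠ 0 := by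
    by_contra hn
    push Not at hn
    exact h (OKb_zero33 hc hβ hn)
  obtain ⟨r, hr⟩ := h1
  have h2 : ∀ a, lo a ≤ r a ∧ r a < hi a := by
    by_contra hn
    exact hr (by unfold cut; rw [if_neg hn])
  have h3 : v r ω ≠ 0 := by
    intro h0
    exact hr (by unfold cut; rw [if_pos h2, h0])
  have h4 : dst (∑ a, r a) N ≤ R := by
    by_contra hn
    exact h3 (hv.bd r ω (not_le.1 hn))
  have h5 : ∑ a, r a ≤ N + R := by
    unfold dst at h4
    omega
  have h6 : ∑ a, hi a ≤ ∑ a, (r a + s) := sum_le_sum fun a _ => by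
    have := (hB a).2.1
    have := (h2 a).1
    omega
  rw [sum_add_distrib, sum_const, card_univ, Fintype.card_fin, smul_eq_mul] at h6
  omega

theorem Ms_XX_vin33 {N : ℕ} {v : (Fin (m + 1) → ℕ) → Pt m L → ℝ} (hv : ArK N v)
    (h : Fin (m + 1) → ℕ) (i : ℕ) : Ms (Function.update h 0 i) (XX (vin h v) i) := by
  intro ω ω' hω
  unfold XX
  refine sum_congr rfl fun q hq => ?_
  rw [mem_fr] at hq
  have h0 : q 0 = i := hq.2 0 (by simp [Inn])
  unfold vin
  by_cases hb : ∀ b, b ≠ 0 → q b < h b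
  · rw [if_pos hb, if_pos hb]
    have e1 : v q ω' = v q ω := by
      refine hv.dep q ω ω' (cl_mono (fun a => Or.inl ?_) hω)
      by_cases ha : a = 0
      · subst ha
        rw [Function.update_self, h0]
      · rw [Function.update_of_ne ha]
        exact (hb a ha).le
    have e2 : ps (Inn m) q ω' = ps (Inn m) q ω := by
      unfold ps
      refine prod_congr rfl fun c hc => Ms_sb ?_ ω ω' hω
      have hc0 : c ≠ 0 := (mem_erase.1 hc).1
      rw [Function.update_of_ne hc0]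
      exact hb c hc0
    rw [e1, e2]
  · rw [if_neg hb, if_neg hb, mul_zero, mul_zero]

/-- if the conditional mean of the gate does not vanish, the gate is open somewhere in the class -/
theorem cmn_ne33 {ρ : Pt m L → ℝ} {φ : Pt m L → ℝ} {p : Fin (m + 1) → ℕ} {ω : Pt m L}
    (h : cmn ρ φ p ω ≠ 0) : ∃ ω', cl p ω' ω ∧ φ ω' ≠ 0 := by
  by_contra hn
  push Not at hn
  apply h
  unfold cmn EE
  have : (∑ ω' : Pt m L, if cl p ω' ω then ρ ω' * φ ω' else 0) = 0 := by
    refine sum_eq_zero fun ω' _ => ?_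
    by_cases hc : cl p ω' ω
    · rw [if_pos hc, hn ω' hc, mul_zero]
    · rw [if_neg hc]
  rw [this, zero_div, zero_div]

theorem drift33 (hC : StCmnG) {ρ : Pt m L → ℝ} {g X : ℕ → Pt m L → ℝ} {h : Fin (m + 1) → ℕ}
    {B lam : ℝ} (hρ : ∀ ω, 0 ≤ ρ ω) (hg : ∀ j ω, g j ω = 0 ∨ g j ω = 1)
    (hX : ∀ i, Ms (Function.update h 0 i) (X i)) (hB0 : 0 ≤ B)
    (hB : ∀ j ω, j < h 0 → g j ω = 1 → ∑ i ∈ range (j + 1), X i ω ^ 2 ≤ B) (ω : Pt m L) :
    ∑ j ∈ range (h 0), (lam * X j ω * cmn ρ (g j) (Function.update h 0 j) ω) ^ 2 ≤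
      lam ^ 2 * B := by
  set f : ℕ → ℝ := fun j => (lam * X j ω * cmn ρ (g j) (Function.update h 0 j) ω) ^ 2 with hf
  by_cases hS : ∃ j, j < h 0 ∧ cmn ρ (g j) (Function.update h 0 j) ω ≠ 0
  · set S := (range (h 0)).filter (fun j => cmn ρ (g j) (Function.update h 0 j) ω ≠ 0) with hSdef
    have hSn : S.Nonempty := by
      obtain ⟨j, h1, h2⟩ := hS
      exact ⟨j, mem_filter.2 ⟨mem_range.2 h1, h2⟩⟩
    obtain ⟨h1, h2⟩ := mem_filter.1 (S.max'_mem hSn)
    set j0 := S.max' hSn with hj0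
    rw [mem_range] at h1
    obtain ⟨ω', h3, h4⟩ := cmn_ne33 h2
    have h5 : g j0 ω' = 1 := (hg j0 ω').resolve_left h4
    have h6 := hB j0 ω' h1 h5
    have h7 : ∑ i ∈ range (j0 + 1), X i ω' ^ 2 = ∑ i ∈ range (j0 + 1), X i ω ^ 2 := by
      refine sum_congr rfl fun i hi => ?_
      have hi' : i ≤ j0 := Nat.lt_succ_iff.1 (mem_range.1 hi)
      rw [(hX i) ω ω' (cl_mono (fun a => Or.inl ?_) h3)]
      by_cases ha : a = 0
      · subst ha
        simpa using hi'
      · rw [Function.update_of_ne ha, Function.update_of_ne ha]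
    rw [h7] at h6
    have h8 : ∑ j ∈ range (j0 + 1), f j = ∑ j ∈ range (h 0), f j := by
      refine sum_subset (range_subset_range.2 h1) fun j hj hj' => ?_
      have hjlt : j0 < j := by
        rw [mem_range, not_lt] at hj'
        omega
      have : cmn ρ (g j) (Function.update h 0 j) ω = 0 := by
        by_contra hne
        have := S.le_max' j (mem_filter.2 ⟨hj, hne⟩)
        omega
      rw [hf]
      simp only
      rw [this]
      ring
    rw [← h8]
    calc ∑ j ∈ range (j0 + 1), f j ≤ ∑ j ∈ range (j0 + 1), lam ^ 2 * X j ω ^ 2 := by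
          refine sum_le_sum fun j _ => ?_
          have h9 : |cmn ρ (g j) (Function.update h 0 j) ω| ≤ 1 := by
            refine (hC m L ρ (g j) (Function.update h 0 j) hρ).2.1 1 zero_le_one (fun ω'' => ?_) ω
            rcases hg j ω'' with h | h <;> rw [h] <;> norm_num
          have h10 : cmn ρ (g j) (Function.update h 0 j) ω ^ 2 ≤ 1 := by
            rw [← sq_abs]
            exact pow_le_one₀ (abs_nonneg _) h9
          have h11 : 0 ≤ lam ^ 2 * X j ω ^ 2 := by positivity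
          calc f j = lam ^ 2 * X j ω ^ 2 * cmn ρ (g j) (Function.update h 0 j) ω ^ 2 := by
                rw [hf]
                simp only
                ring
            _ ≤ lam ^ 2 * X j ω ^ 2 * 1 := mul_le_mul_of_nonneg_left h10 h11
            _ = _ := mul_one _
      _ = lam ^ 2 * ∑ j ∈ range (j0 + 1), X j ω ^ 2 := by rw [mul_sum]
      _ ≤ lam ^ 2 * B := mul_le_mul_of_nonneg_left h6 (sq_nonneg _)
  · push Not at hS
    have : ∑ j ∈ range (h 0), f j = 0 := by
      refine sum_eq_zero fun j hj => ?_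
      rw [hf]
      simp only
      rw [hS j (mem_range.1 hj)]
      ring
    rw [this]
    exact mul_nonneg (sq_nonneg _) hB0

open Classical in
/-- union bound over a finite set -/
theorem Pr_union33 {k : ℝ} {ρ : Pt m L → ℝ} (h : Law k ρ) {ι : Type} (S : Finset ι)
    (P : ι → Pt m L → Prop) : Pr ρ (fun ω => ∃ i ∈ S, P i ω) ≤ ∑ i ∈ S, Pr ρ (P i) := by
  induction S using Finset.induction_on with
  | empty =>
    have : Pr ρ (fun ω => ∃ i ∈ (∅ : Finset ι), P i ω) = 0 := by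
      unfold Pr Ex Av
      simp
    rw [this, sum_empty]
  | insert a S ha ih =>
    rw [sum_insert ha]
    refine le_trans (Pr_mono h (Q := fun ω => P a ω ∨ ∃ i ∈ S, P i ω) ?_)
      ((Pr_or_le h _ _).trans (add_le_add le_rfl ih))
    rintro ω ⟨i, hi, hP⟩
    rcases mem_insert.1 hi with rfl | hi
    · exact Or.inl hP
    · exact Or.inr ⟨i, hi, hP⟩

open Classical in
theorem Pr_false33 {ρ : Pt m L → ℝ} {P : Pt m L → Prop} (h : ∀ ω, ¬ P ω) : Pr ρ P = 0 := by
  unfold Pr Ex Av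
  simp [h]

theorem one_le_rpow33 {L : ℕ} (hL : 1 ≤ L) {ε : ℝ} (hε : 0 < ε) : 1 ≤ (L : ℝ) ^ ε :=
  Real.one_le_rpow (by exact_mod_cast hL) hε.le

theorem bt_nonneg33 (L s : ℕ) (ε : ℝ) (u : ℕ) : 0 ≤ bt L s ε u := by
  unfold bt
  have : 0 ≤ (L : ℝ) ^ ε := Real.rpow_nonneg (Nat.cast_nonneg _) _
  positivity

/-- OPENG -/
theorem openg_33 (hS : StStopG) (hG : StGtG) (hR : StRecG) (hI : StInxG) (hO : StOpbG)
    (hB : StBadG) (hT : StTailX) (hC : StCmnG) : StOpenG := by
  intro m n ε hm hε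
  obtain ⟨c, hc1, hOc⟩ := hO m (2 * (n + (2 * m + 2))) ε hm hε
  obtain ⟨Cr', hCr, hRc⟩ := hR m c hm hc1
  obtain ⟨Ci, hCi, hIc⟩ := hI m hm
  obtain ⟨Ct, hCt, hTc⟩ := hT m (n + (2 * m + 2)) ε hm hε
  have hc0 : 0 ≤ c := by linarith
  have hcm : 1 ≤ c ^ m := one_le_pow₀ hc1
  refine ⟨c, hc1, Cr' * Ct + Cr' + 4 * (Ci * c ^ m) + (Real.sqrt (Real.exp 1 * c) + Ct), ?_, ?_⟩
  · have h1 : 0 ≤ Cr' * Ct := by positivity
    have h2 : 0 ≤ 4 * (Ci * c ^ m) := by positivity
    have h3 := Real.sqrt_nonneg (Real.exp 1 * c)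
    linarith
  intro L N R s k lam M v hL hs hsL hRs hk hlam hlM hv hH h1 h2
  set C := Cr' * Ct + Cr' + 4 * (Ci * c ^ m) + (Real.sqrt (Real.exp 1 * c) + Ct) with hCdef
  have hC1 : Cr' * Ct ≤ C := by
    have h2 : 0 ≤ 4 * (Ci * c ^ m) := by positivity
    have h3 := Real.sqrt_nonneg (Real.exp 1 * c)
    linarith
  have hC2 : Cr' ≤ C := by
    have h1 : 0 ≤ Cr' * Ct := by positivity
    have h2 : 0 ≤ 4 * (Ci * c ^ m) := by positivity
    have h3 := Real.sqrt_nonneg (Real.exp 1 * c)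
    linarith
  have hC3 : 4 * (Ci * c ^ m) ≤ C := by
    have h1 : 0 ≤ Cr' * Ct := by positivity
    have h3 := Real.sqrt_nonneg (Real.exp 1 * c)
    linarith
  have hC4 : Real.sqrt (Real.exp 1 * c) + Ct ≤ C := by
    have h1 : 0 ≤ Cr' * Ct := by positivity
    have h2 : 0 ≤ 4 * (Ci * c ^ m) := by positivity
    linarith
  have hLε := one_le_rpow33 hL hε
  set β : ℝ := c * s * (L : ℝ) ^ ε with hβ
  have hβ0 : 0 ≤ β := by positivity
  set g := gt s c β v with hg
  have hGate : Gate g := hG m L N s c β v hv.ark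
  have hN0 : Nrm (fun u => Cr' * bt L s ε u) g v :=
    hRc L N R s ε v hL hs (by omega) hε.le hv
  have hN : Nrm (fun u => C * bt L s ε u) g v :=
    Nrm_mono33 hN0 fun u => mul_le_mul_of_nonneg_right hC2 (bt_nonneg33 L s ε u)
  have hlog : 0 ≤ Real.log (L + 1) := Real.log_nonneg (by
    have : (0 : ℝ) ≤ L := Nat.cast_nonneg _
    linarith)
  have hLp : (1 : ℝ) ≤ (L : ℝ) + 1 := by
    have : (0 : ℝ) ≤ L := Nat.cast_nonneg _
    linarith
  have hLe : ((L : ℝ) + 1) ^ (-ε) ≤ 1 := Real.rpow_le_one_of_one_le_of_nonpos hLp (by linarith)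
  have hbt := bt_nonneg33 L s ε (m - 1)
  -- the tilt is at most one
  have htg : ∀ j ω, |tg lam g v j ω| ≤ 1 := by
    intro j ω
    unfold tg
    rcases hGate.zo j ω with h0 | h0
    · rw [h0]
      norm_num
    · have hjL : j < L := by
        by_contra hn
        have : g j ω = 0 := by
          rw [hg]
          unfold gt
          rw [if_neg (fun h => hn h.1)]
        rw [this] at h0
        norm_num at h0
      have h3 := hN0.ent j ω hjL h0 (fun _ => 0) (Function.update (fun _ => L) 0 (j + 1))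
        (by simp) (fun a => by
          by_cases ha : a = 0
          · subst ha
            rw [Function.update_self]
            omega
          · rw [Function.update_of_ne ha]) j
      have h4 : XX (cut (fun _ => 0) (Function.update (fun _ => L) 0 (j + 1)) v) j ω =
          XX v j ω := by
        unfold XX
        refine sum_congr rfl fun q hq => ?_
        rw [mem_fr] at hq
        unfold cut
        rw [if_pos]
        intro a
        refine ⟨Nat.zero_le _, ?_⟩
        by_cases ha : a = 0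
        · subst ha
          rw [Function.update_self, hq.2 0 (by simp [Inn])]
          omega
        · rw [Function.update_of_ne ha]
          exact hq.1 a (mem_erase.2 ⟨ha, mem_univ a⟩)
      rw [h4] at h3
      rw [h0, mul_one]
      have h5 : (lam * XX v j ω) ^ 2 ≤ 1 := by
        calc (lam * XX v j ω) ^ 2 = lam ^ 2 * XX v j ω ^ 2 := by ring
          _ ≤ lam ^ 2 * (Cr' * bt L s ε (m - 1)) := mul_le_mul_of_nonneg_left h3 (sq_nonneg _)
          _ ≤ lam ^ 2 * (C * bt L s ε (m - 1)) := by gcongr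
          _ = C * lam ^ 2 * bt L s ε (m - 1) * 1 := by ring
          _ ≤ C * lam ^ 2 * bt L s ε (m - 1) * (k + Real.log (L + 1)) := by
              have : 0 ≤ C := by linarith
              gcongr
              linarith
          _ ≤ _ := h2
          _ ≤ 1 := hLe
      exact abs_le_one_iff_mul_self_le_one.2 (by nlinarith [h5])
  obtain ⟨hPrd, hLaw⟩ := hS m L N k lam M v g hlam hlM hv.ark hH hGate htg
  refine ⟨hN, hPrd, hLaw, ?_⟩
  -- one box
  have hbox : ∀ lo hi : Fin (m + 1) → ℕ,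
      Pr (qq (tg lam g v)) (fun ω => Bx L s lo hi ∧ ¬ OKb c β (cut lo hi v) ω) ≤
        (Real.sqrt (Real.exp 1 * c) + Ct) / (L + 1) ^ (n + (2 * m + 2)) := by
    intro lo hi
    have hpos : 0 ≤ (Real.sqrt (Real.exp 1 * c) + Ct) / ((L : ℝ) + 1) ^ (n + (2 * m + 2)) := by
      have h3 := Real.sqrt_nonneg (Real.exp 1 * c)
      positivity
    by_cases hBx : Bx L s lo hi
    swap
    · rw [Pr_false33 (fun ω h => hBx h.1)]
      exact hpos
    by_cases hbad : ∃ ω, ¬ OKb c β (cut lo hi v) ω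
    swap
    · push Not at hbad
      rw [Pr_false33 (fun ω h => h.2 (hbad ω))]
      exact hpos
    obtain ⟨ω0, hω0⟩ := hbad
    have hsum := hull33 hv hBx hc0 hβ0 hω0
    have hhi : ∀ a, hi a ≤ L := fun a => (hBx a).2.2
    have hstep : Pr (qq (tg lam g v)) (fun ω => Bx L s lo hi ∧ ¬ OKb c β (cut lo hi v) ω) ≤
        Pr (qq (tg lam g v)) (fun ω => ¬ OKb c β (cut lo hi v) ω) :=
      Pr_mono hLaw fun ω h => h.2
    have hb1 := hB m L (tg lam g v) hi (fun ω => ¬ OKb c β (cut lo hi v) ω) hPrd (hhi 0)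
      (Ms_OKb33 hv.ark lo hi c β)
    have hb2 := hOc L N s v lo hi hL hs hBx hv.ark
    have hb3 := hTc L N k lam (Cr' * bt L s ε (m - 1)) (fun u => Cr' * bt L s ε u) v g hi hL hk
      hlam hv.ark hGate hN0 (by positivity) le_rfl hPrd hLaw (hhi 0) (by
        refine le_trans ?_ h2
        calc Ct * lam ^ 2 * (Cr' * bt L s ε (m - 1)) * (k + Real.log (L + 1))
            = (Cr' * Ct) * lam ^ 2 * bt L s ε (m - 1) * (k + Real.log (L + 1)) := by ring
          _ ≤ C * lam ^ 2 * bt L s ε (m - 1) * (k + Real.log (L + 1)) := by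
              have : 0 ≤ k + Real.log (L + 1) := by linarith
              gcongr)
    -- the drift from inside
    have hb4 : ∀ ω, ∑ j ∈ range (hi 0), (lam * XX (vin hi v) j ω *
        cmn (qq (tg lam g v)) (g j) (Function.update hi 0 j) ω) ^ 2 ≤ 1 / 4 := by
      intro ω
      refine (drift33 hC hLaw.nonneg hGate.zo (fun i => Ms_XX_vin33 hv.ark hi i)
        (B := Ci * s * c * β ^ (m - 1)) (by positivity) ?_ ω).trans ?_
      · intro j ω' hj hgj
        have h3 := hIc L N R s j c β v hi ω' hs hRs hc0 hβ0 hv hhi hsum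
          (lt_of_lt_of_le hj (hhi 0)) hgj
        rwa [min_eq_left (by omega)] at h3
      · have h4 : (s : ℝ) * (L : ℝ) ^ ε * ((s : ℝ) * (L : ℝ) ^ ε) ^ (m - 1) =
            ((s : ℝ) * (L : ℝ) ^ ε) ^ m := by
          rw [← pow_succ', Nat.sub_add_cancel hm]
        have h4' : c * c ^ (m - 1) = c ^ m := by
          rw [← pow_succ', Nat.sub_add_cancel hm]
        have h5 : Ci * s * c * β ^ (m - 1) ≤ Ci * c ^ m * ((s : ℝ) * (L : ℝ) ^ ε) ^ m := by
          have e1 : β ^ (m - 1) = c ^ (m - 1) * ((s : ℝ) * (L : ℝ) ^ ε) ^ (m - 1) := by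
            rw [hβ, ← mul_pow]
            congr 1
            ring
          rw [e1, ← h4, ← h4']
          have h6 : (s : ℝ) ≤ (s : ℝ) * (L : ℝ) ^ ε := le_mul_of_one_le_right (by positivity) hLε
          calc Ci * s * c * (c ^ (m - 1) * ((s : ℝ) * (L : ℝ) ^ ε) ^ (m - 1))
              = (Ci * (c * c ^ (m - 1)) * ((s : ℝ) * (L : ℝ) ^ ε) ^ (m - 1)) * s := by ring
            _ ≤ (Ci * (c * c ^ (m - 1)) * ((s : ℝ) * (L : ℝ) ^ ε) ^ (m - 1)) *
                  ((s : ℝ) * (L : ℝ) ^ ε) := mul_le_mul_of_nonneg_left h6 (by positivity)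
            _ = _ := by ring
        have h7 : lam ^ 2 * (Ci * s * c * β ^ (m - 1)) ≤
            lam ^ 2 * (Ci * c ^ m * ((s : ℝ) * (L : ℝ) ^ ε) ^ m) :=
          mul_le_mul_of_nonneg_left h5 (sq_nonneg _)
        have h8 : 4 * (Ci * c ^ m) * lam ^ 2 * ((s : ℝ) * (L : ℝ) ^ ε) ^ m ≤
            C * lam ^ 2 * ((s : ℝ) * (L : ℝ) ^ ε) ^ m := by gcongr
        have h9 : lam ^ 2 * (Ci * c ^ m * ((s : ℝ) * (L : ℝ) ^ ε) ^ m) * 4 =
            4 * (Ci * c ^ m) * lam ^ 2 * ((s : ℝ) * (L : ℝ) ^ ε) ^ m := by ring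
        linarith
    have hb5 : Pr (qq (tg lam g v))
        (fun ω => 1 < ∑ j ∈ range (hi 0), ad (tg lam g v) hi j ω ^ 2) ≤
        Ct / (L + 1) ^ (n + (2 * m + 2)) := by
      refine le_trans (Pr_mono hLaw fun ω h => ?_) hb3
      by_contra hn
      rw [not_lt] at hn
      have h3 := hb4 ω
      have h4 : ∑ j ∈ range (hi 0), ad (tg lam g v) hi j ω ^ 2 ≤
          2 * ∑ j ∈ range (hi 0), (lam * XX (vin hi v) j ω *
            cmn (qq (tg lam g v)) (g j) (Function.update hi 0 j) ω) ^ 2 +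
          2 * ∑ j ∈ range (hi 0), xo lam g v hi j ω ^ 2 := by
        rw [mul_sum, mul_sum, ← sum_add_distrib]
        refine sum_le_sum fun j _ => ?_
        have e : xo lam g v hi j ω = ad (tg lam g v) hi j ω -
            lam * XX (vin hi v) j ω *
              cmn (qq (tg lam g v)) (g j) (Function.update hi 0 j) ω := rfl
        rw [e]
        nlinarith [sq_nonneg (ad (tg lam g v) hi j ω - 2 * (lam * XX (vin hi v) j ω *
              cmn (qq (tg lam g v)) (g j) (Function.update hi 0 j) ω))]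
      linarith
    have hb6 : Real.sqrt (Real.exp 1 *
        Pr (fun _ : Pt m L => (1 : ℝ)) (fun ω => ¬ OKb c β (cut lo hi v) ω)) ≤
        Real.sqrt (Real.exp 1 * c) / (L + 1) ^ (n + (2 * m + 2)) := by
      have h3 : Real.exp 1 *
          Pr (fun _ : Pt m L => (1 : ℝ)) (fun ω => ¬ OKb c β (cut lo hi v) ω) ≤
          (Real.sqrt (Real.exp 1 * c) / ((L : ℝ) + 1) ^ (n + (2 * m + 2))) ^ 2 := by
        rw [div_pow, Real.sq_sqrt (by positivity), ← pow_mul, mul_comm _ 2]
        calc Real.exp 1 * Pr (fun _ : Pt m L => (1 : ℝ)) (fun ω => ¬ OKb c β (cut lo hi v) ω)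
            ≤ Real.exp 1 * (c / (L + 1) ^ (2 * (n + (2 * m + 2)))) :=
              mul_le_mul_of_nonneg_left hb2 (Real.exp_pos 1).le
          _ = _ := by ring
      calc _ ≤ Real.sqrt ((Real.sqrt (Real.exp 1 * c) /
            ((L : ℝ) + 1) ^ (n + (2 * m + 2))) ^ 2) := Real.sqrt_le_sqrt h3
        _ = _ := Real.sqrt_sq (by positivity)
    rw [add_div]
    exact hstep.trans (hb1.trans (add_le_add hb6 hb5))
  -- union
  set W := Fintype.piFinset (fun _ : Fin (m + 1) => range (L + 1)) with hW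
  have hWc : W.card = (L + 1) ^ (m + 1) := by
    rw [hW, Fintype.card_piFinset_const, card_range]
  calc Pr (qq (tg lam g v)) (fun ω => ∃ j < L, g j ω = 0)
      ≤ Pr (qq (tg lam g v)) (fun ω => ∃ b ∈ W ×ˢ W,
          Bx L s b.1 b.2 ∧ ¬ OKb c β (cut b.1 b.2 v) ω) := by
        refine Pr_mono hLaw ?_
        rintro ω ⟨j, hj, h0⟩
        by_contra hn
        push Not at hn
        have : g j ω = 1 := by
          rw [hg]
          unfold gt
          rw [if_pos]
          refine ⟨hj, fun lo hi hBx _ => hn (lo, hi) ?_ hBx⟩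
          rw [mem_product, hW, Fintype.mem_piFinset, Fintype.mem_piFinset]
          refine ⟨fun a => mem_range.2 ?_, fun a => mem_range.2 ?_⟩
          · have := (hBx a).1
            have := (hBx a).2.2
            show lo a < L + 1
            omega
          · have := (hBx a).2.2
            show hi a < L + 1
            omega
        rw [this] at h0
        norm_num at h0
    _ ≤ ∑ b ∈ W ×ˢ W, Pr (qq (tg lam g v)) (fun ω =>
          Bx L s b.1 b.2 ∧ ¬ OKb c β (cut b.1 b.2 v) ω) := Pr_union33 hLaw _ _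
    _ ≤ ∑ _b ∈ W ×ˢ W, (Real.sqrt (Real.exp 1 * c) + Ct) / ((L : ℝ) + 1) ^ (n + (2 * m + 2)) :=
        sum_le_sum fun b _ => hbox b.1 b.2
    _ = (Real.sqrt (Real.exp 1 * c) + Ct) / ((L : ℝ) + 1) ^ n := by
        rw [sum_const, card_product, hWc, nsmul_eq_mul]
        push_cast
        have h3 : ((L : ℝ) + 1) ≠ 0 := by linarith
        rw [pow_add _ n (2 * m + 2)]
        field_simp
        ring
    _ ≤ C / ((L : ℝ) + 1) ^ n := by gcongr

end Pool.Agent.SHD
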