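import Pool.Agent.Lib.MP_a7b2aa_an.SHD.Stmts3_23
import Pool.Agent.Lib.MP_a7b2aa_an.SHD.OpenG33

/-!
SHD3, module STAGE, part A (helper23): preparations.
-/

set_option autoImplicit false

namespace Pool.Agent.SHD

open Finset Pool.Agent.SB3 Pool.Agent.SBT Pool.Agent.SBD

namespace S23

variable {m L : ℕ}

/-- a sign is orthogonal to the past -/
theorem Av_sb (hT : StTiltK) {i : ℕ} (hi : i < L) {X : Pt m L → ℝ} (hX : Ms (one L 0 i) X) :
    Av (fun ω => sb 0 i ω * X ω) = 0 := by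
  have h0 : Prd (fun (_ : ℕ) (_ : Pt m L) => (0 : ℝ)) :=
    ⟨fun i => Ms.cst _ _, fun i ω => by simp⟩
  have h := (hT m L _ h0).2.2.1 i hi X hX
  unfold Ex qq at h
  simp only [mul_zero, add_zero, prod_const_one, one_mul, zero_mul] at h
  rw [h]
  exact Av_const 0

theorem one_mono {a : Fin (m + 1)} {s t : ℕ} (hst : s ≤ t) (e : Fin (m + 1)) :
    one L a s e ≤ one L a t e ∨ L ≤ one L a t e := by
  by_cases he : e = a
  · subst he
    left
    simpa [one] using hst
  · right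
    simp [one, Function.update_of_ne he]

/-- factors with index at least `j` average out -/
theorem part_prod (hT : StTiltK) {θ : ℕ → Pt m L → ℝ} (hθ : Prd θ) {j : ℕ} {φ : Pt m L → ℝ}
    (hφ : Ms (one L 0 j) φ) {n : ℕ} (hjn : j ≤ n) (hn : n ≤ L) :
    Av (fun ω => (∏ i ∈ range n, (1 + sb 0 i ω * θ i ω)) * φ ω) =
      Av (fun ω => (∏ i ∈ range j, (1 + sb 0 i ω * θ i ω)) * φ ω) := by
  induction n, hjn using Nat.le_induction with
  | base => rfl
  | succ n hjn ih =>
    have ih' := ih (by omega)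
    rw [← ih']
    have hX : Ms (one L 0 n) (fun ω : Pt m L =>
        (∏ i ∈ range n, (1 + sb 0 i ω * θ i ω)) * (θ n ω * φ ω)) := by
      refine Ms.comp2 (Ms.prod _ fun i hi => ?_) (Ms.comp2 (hθ.dep n)
        (hφ.mono fun e => one_mono hjn e) (fun x y => x * y)) (fun x y => x * y)
      have hi' : i < n := mem_range.1 hi
      have h1 : Ms (one L 0 n) (sb (m := m) (L := L) 0 i) := Ms_sb (by simpa [one] using hi')
      exact Ms.comp2 h1 ((hθ.dep i).mono fun e => one_mono hi'.le e) (fun x y => 1 + x * y)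
    have h2 := Av_sb hT (by omega : n < L) hX
    have e : (fun ω : Pt m L => (∏ i ∈ range (n + 1), (1 + sb 0 i ω * θ i ω)) * φ ω) =
        fun ω => (∏ i ∈ range n, (1 + sb 0 i ω * θ i ω)) * φ ω +
          sb 0 n ω * ((∏ i ∈ range n, (1 + sb 0 i ω * θ i ω)) * (θ n ω * φ ω)) := by
      funext ω
      rw [prod_range_succ]
      ring
    rw [e, Av_add, h2, add_zero]

/-- the tilt after the row `j` does not matter for functions of the past -/
theorem Ex_cut (hT : StTiltK) {θ θ' : ℕ → Pt m L → ℝ} (hθ : Prd θ) (hθ' : Prd θ') {j : ℕ}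
    (hj : j ≤ L) (he : ∀ i < j, ∀ ω, θ' i ω = θ i ω) {φ : Pt m L → ℝ}
    (hφ : Ms (one L 0 j) φ) : Ex (qq θ) φ = Ex (qq θ') φ := by
  unfold Ex qq
  rw [part_prod hT hθ hφ hj le_rfl, part_prod hT hθ' hφ hj le_rfl]
  congr 1
  funext ω
  congr 1
  exact prod_congr rfl fun i hi => by rw [he i (mem_range.1 hi) ω]

open Classical in
theorem Pr_cut (hT : StTiltK) {θ θ' : ℕ → Pt m L → ℝ} (hθ : Prd θ) (hθ' : Prd θ') {j : ℕ}
    (hj : j ≤ L) (he : ∀ i < j, ∀ ω, θ' i ω = θ i ω) {P : Pt m L → Prop}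
    (hP : Ms (one L 0 j) P) : Pr (qq θ) P = Pr (qq θ') P := by
  unfold Pr
  refine Ex_cut hT hθ hθ' hj he ?_
  intro ω ω' h
  have h1 : P ω' = P ω := hP ω ω' h
  simp only [h1]

/-- the gate closed from `j` on -/
theorem gate_cut {g : ℕ → Pt m L → ℝ} (hg : Gate g) (j : ℕ) :
    Gate (fun i ω => if i < j then g i ω else 0) := by
  refine ⟨fun i ω => ?_, fun i => ?_, fun i i' ω hii h => ?_⟩
  · by_cases hi : i < j
    · simpa [hi] using hg.zo i ω
    · left
      simp [hi]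
  · by_cases hi : i < j
    · simpa [hi] using hg.dep i
    · simp only [hi, if_false]
      exact Ms.cst _ _
  · by_cases hi : i' < j
    · have h' : g i' ω = 1 := by simpa [hi] using h
      have hi2 : i < j := by omega
      simpa [hi2] using hg.anti i i' ω hii h'
    · simp [hi] at h

theorem gn_one {β : ℕ → ℝ} {B D lam : ℝ} {v : (Fin (m + 1) → ℕ) → Pt m L → ℝ} {j : ℕ}
    {ω : Pt m L} : gn β B D lam v j ω = 1 ↔ (j < L ∧ Nt β v j m ω ∧ Ns B v j ω ∧
      ∀ i ≤ j, lam * ∑ l ∈ range i, sb 0 l ω * XX v l ω ≤ D) := by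
  unfold gn
  constructor
  · intro h
    by_contra hn
    rw [if_neg hn] at h
    exact zero_ne_one h
  · intro h
    rw [if_pos h]

theorem gn_zero {β : ℕ → ℝ} {B D lam : ℝ} {v : (Fin (m + 1) → ℕ) → Pt m L → ℝ} {j : ℕ}
    {ω : Pt m L} (h : gn β B D lam v j ω = 0) : ¬ (j < L ∧ Nt β v j m ω ∧ Ns B v j ω ∧
      ∀ i ≤ j, lam * ∑ l ∈ range i, sb 0 l ω * XX v l ω ≤ D) := by
  intro hn
  rw [gn_one.2 hn] at h
  exact one_ne_zero h

theorem XX_cut {v : (Fin (m + 1) → ℕ) → Pt m L → ℝ} {i j : ℕ} (hij : i < j) (ω : Pt m L) :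
    XX (cut (fun _ => 0) (jb L j) v) i ω = XX v i ω := by
  unfold XX
  refine sum_congr rfl fun r hr => ?_
  rw [mem_fr] at hr
  unfold cut
  rw [if_pos]
  intro a
  refine ⟨Nat.zero_le _, ?_⟩
  unfold jb
  by_cases ha : a = 0
  · subst ha
    rw [Function.update_self, hr.2 0 (by simp [Inn])]
    exact hij
  · rw [Function.update_of_ne ha]
    exact hr.1 a (by simp [Inn, ha])

/-- rows of `Mg` on the box `jb L j` -/
theorem Mg_row {v : (Fin (m + 1) → ℕ) → Pt m L → ℝ} {b : Fin (m + 1)} (hb : b ≠ 0) {j : ℕ}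
    (ω : Pt m L) (x y : Fin L) :
    Mg ((Inn m).erase b) 0 b (fun _ => 0) (cut (fun _ => 0) (jb L j) v) ω x y =
      if (x : ℕ) < j then Bm b v x y ω else 0 := by
  unfold Mg Bm
  rw [Matrix.of_apply]
  have hfr : fr L ((Inn m).erase b)
      (Function.update (Function.update (fun _ => 0) 0 (x : ℕ)) b (y : ℕ)) =
      fr L ((Inn m).erase b) (Function.update (fun _ => (x : ℕ)) b (y : ℕ)) := by
    refine fr_congr fun a ha => ?_
    by_cases hab : a = b
    · subst hab
      rw [Function.update_self, Function.update_self]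
    · rw [Function.update_of_ne hab, Function.update_of_ne hab]
      have ha0 : a = 0 := by
        by_contra h0
        exact ha (mem_erase.2 ⟨hab, by simp [Inn, h0]⟩)
      subst ha0
      rw [Function.update_self]
  rw [hfr]
  by_cases hx : (x : ℕ) < j
  · rw [if_pos hx]
    refine sum_congr rfl fun r hr => ?_
    rw [mem_fr] at hr
    unfold cut
    rw [if_pos]
    intro a
    refine ⟨Nat.zero_le _, ?_⟩
    unfold jb
    by_cases ha : a = 0
    · subst ha
      rw [Function.update_self, hr.2 0 (by simp [Inn]), Function.update_of_ne (Ne.symm hb)]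
      exact hx
    · rw [Function.update_of_ne ha]
      by_cases hab : a = b
      · subst hab
        rw [hr.2 a (by simp), Function.update_self]
        exact y.2
      · exact hr.1 a (by simp [Inn, ha, hab])
  · rw [if_neg hx]
    refine sum_eq_zero fun r hr => ?_
    rw [mem_fr] at hr
    unfold cut
    rw [if_neg, mul_zero]
    intro h
    have h0 := (h 0).2
    unfold jb at h0
    rw [Function.update_self, hr.2 0 (by simp [Inn]), Function.update_of_ne (Ne.symm hb)] at h0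
    exact hx h0

/-- the norm of `C`, rows below `j` -/
theorem C_norm {v : (Fin (m + 1) → ℕ) → Pt m L → ℝ} {b : Fin (m + 1)} (hb : b ≠ 0) {j : ℕ}
    (hj : j ≤ L) {ω : Pt m L} {B : ℝ}
    (h : NB (Mg ((Inn m).erase b) 0 b (fun _ => 0) (cut (fun _ => 0) (jb L j) v) ω) B)
    (w : Fin L → ℝ) :
    ∑ i ∈ range j, (∑ t : Fin L, Bm b v i t ω * w t) ^ 2 ≤ B * ∑ t, w t ^ 2 := by
  refine le_trans ?_ (h w)
  have e : ∀ x : Fin L, (∑ y, Mg ((Inn m).erase b) 0 b (fun _ => 0)
      (cut (fun _ => 0) (jb L j) v) ω x y * w y) ^ 2 =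
      (fun i : ℕ => if i < j then (∑ t : Fin L, Bm b v i t ω * w t) ^ 2 else 0) (x : ℕ) := by
    intro x
    simp only [Mg_row hb]
    by_cases hx : (x : ℕ) < j
    · simp [hx]
    · simp [hx]
  rw [sum_congr rfl fun x _ => e x, Fin.sum_univ_eq_sum_range
    (fun i : ℕ => if i < j then (∑ t : Fin L, Bm b v i t ω * w t) ^ 2 else 0) L]
  rw [← sum_subset (range_subset_range.2 hj) (f := fun i : ℕ => if i < j then
    (∑ t : Fin L, Bm b v i t ω * w t) ^ 2 else 0)]
  · refine sum_le_sum fun i hi => ?_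
    simp [mem_range.1 hi]
  · intro i _ hi
    simp only [mem_range] at hi
    simp [hi]

/-- the norm of the Gram matrix -/
theorem gram_norm (hN : StNbt) {v : (Fin (m + 1) → ℕ) → Pt m L → ℝ} {b : Fin (m + 1)} {j : ℕ}
    {ω : Pt m L} {B : ℝ} (hB : 0 ≤ B)
    (h : ∀ w : Fin L → ℝ, ∑ i ∈ range j, (∑ t : Fin L, Bm b v i t ω * w t) ^ 2 ≤
      B * ∑ t, w t ^ 2) (u : ℕ → ℝ) :
    ∑ x ∈ range L, (∑ y ∈ range L, gr b v j x y ω * u y) ^ 2 ≤ B ^ 2 * ∑ y ∈ range L, u y ^ 2 := by
  set A : Matrix (Fin j) (Fin L) ℝ := Matrix.of (fun i t => Bm b v i t ω) with hA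
  have h1 : NB A B := by
    intro w
    have := h w
    rw [Finset.sum_range] at this
    exact this
  have h2 : NB A.transpose B := hN _ _ A B hB h1
  set w : Fin j → ℝ := fun i => ∑ y : Fin L, A i y * u y with hw
  have h3 := h2 w
  have h4 := h1 (fun y => u y)
  have e : ∀ x : Fin L, ∑ i, A.transpose x i * w i = ∑ y ∈ range L, gr b v j x y ω * u y := by
    intro x
    rw [Finset.sum_range]
    simp only [hw, Matrix.transpose_apply, mul_sum]
    rw [sum_comm]
    refine sum_congr rfl fun y _ => ?_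
    unfold gr
    rw [sum_mul, Finset.sum_range]
    exact sum_congr rfl fun i _ => by simp only [hA, Matrix.of_apply]; ring
  have e1 : ∑ x ∈ range L, (∑ y ∈ range L, gr b v j x y ω * u y) ^ 2 =
      ∑ x : Fin L, (∑ i, A.transpose x i * w i) ^ 2 := by
    rw [Finset.sum_range]
    exact sum_congr rfl fun x _ => by rw [e x]
  have e2 : ∑ y ∈ range L, u y ^ 2 = ∑ y : Fin L, u y ^ 2 := Finset.sum_range _
  rw [e1, e2]
  calc ∑ x : Fin L, (∑ i, A.transpose x i * w i) ^ 2 ≤ B * ∑ i, w i ^ 2 := h3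
    _ ≤ B * (B * ∑ y : Fin L, u y ^ 2) := mul_le_mul_of_nonneg_left h4 hB
    _ = B ^ 2 * ∑ y : Fin L, u y ^ 2 := by ring

/-- the second order part of the bias -/
theorem second_order (hN : StNbt) (hTr : StTri) {v : (Fin (m + 1) → ℕ) → Pt m L → ℝ}
    {b : Fin (m + 1)} {j : ℕ} {ω : Pt m L} {B lam : ℝ} (hB : 0 ≤ B)
    (h : ∀ w : Fin L → ℝ, ∑ i ∈ range j, (∑ t : Fin L, Bm b v i t ω * w t) ^ 2 ≤
      B * ∑ t, w t ^ 2) :
    ∑ r ∈ range L, (be lam b v j r ω - lam * uu b v j r ω) ^ 2 ≤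
      lam ^ 4 * (((Nat.log 2 L : ℝ) + 1) ^ 2 * B ^ 2 * L) := by
  have h1 := hTr L (fun x y => gr b v j x y ω) (B ^ 2) (sq_nonneg _)
    (fun u => gram_norm hN hB h u) (fun y => sb b y ω)
  have h2 : ∑ y ∈ range L, sb b y ω ^ 2 = (L : ℝ) := by
    have : ∀ y ∈ range L, sb b y ω ^ 2 = 1 := fun y _ => by rw [pow_two, sb_sq]
    rw [sum_congr rfl this]
    simp
  rw [h2] at h1
  have e : ∀ r, (be lam b v j r ω - lam * uu b v j r ω) ^ 2 =
      lam ^ 4 * (∑ y ∈ range r, gr b v j r y ω * sb b y ω) ^ 2 := by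
    intro r
    unfold be
    ring
  rw [sum_congr rfl fun r _ => e r, ← mul_sum]
  exact mul_le_mul_of_nonneg_left h1 (by positivity)

end S23

end Pool.Agent.SHD
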