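import Pool.Agent.Lib.MP_a7b2aa_an.SHD.Stmts4_25
import Pool.Agent.Lib.MP_a7b2aa_an.SHD.StageA23
import Pool.Agent.Lib.MP_a7b2aa_an.SHD.Crud70
import Pool.Agent.Lib.MP_a7b2aa_an.SBD.Base30
import Pool.Agent.Lib.MP_a7b2aa_an.SBD.EEB36
import Pool.Agent.Lib.MP_a7b2aa_an.SBD.Alf74

/-!
SHD4, module QSTEP (helper66): the quasi isometry, one more summed string.
-/

set_option autoImplicit false

namespace Pool.Agent.SHD

open Finset Pool.Agent.SB3 Pool.Agent.SBT Pool.Agent.SBD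

namespace Q66

variable {m L : ℕ}

/-! ### cells -/

/-- one more summed string -/
theorem Fh_insert {U : Finset (Fin (m + 1))} {b : Fin (m + 1)} (hb : b ∉ U)
    (φ : (Fin (m + 1) → ℕ) → Pt m L → ℝ) (q : Fin (m + 1) → ℕ) (ω : Pt m L) :
    Fh (insert b U) φ q ω =
      ∑ t ∈ range L, sb b t ω * Fh U φ (Function.update q b t) ω := by
  unfold Fh
  rw [sum_fr_insert hb]
  refine sum_congr rfl fun t _ => ?_
  rw [mul_sum]
  refine sum_congr rfl fun r hr => ?_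
  rw [ps_insert hb]
  have h1 : r b = t := by
    have := (mem_fr.1 hr).2 b hb
    rwa [Function.update_self] at this
  rw [h1, mul_assoc]

theorem sum_split {W : Finset (Fin (m + 1))} {b : Fin (m + 1)} (hb : b ∉ W)
    (q0 : Fin (m + 1) → ℕ) (F : (Fin (m + 1) → ℕ) → ℝ) :
    ∑ q ∈ fr L W q0, ∑ t ∈ range L, F (Function.update q b t) =
      ∑ q ∈ fr L (insert b W) q0, F q := by
  have e1 : insert b W = W ∪ {b} := by
    rw [union_comm]
    rfl
  rw [e1, sum_fr_union (by simpa using hb)]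
  refine sum_congr rfl fun s _ => ?_
  have e3 : ({b} : Finset (Fin (m + 1))) = insert b ∅ := rfl
  rw [e3, sum_fr_insert (by simp)]
  exact sum_congr rfl fun t _ => by rw [fr_empty, sum_singleton]

theorem Fh_empty (φ : (Fin (m + 1) → ℕ) → Pt m L → ℝ) (q : Fin (m + 1) → ℕ) (ω : Pt m L) :
    Fh ∅ φ q ω = φ q ω := by
  unfold Fh
  rw [fr_empty, sum_singleton]
  simp [ps]

theorem en_empty (j : ℕ) (φ : (Fin (m + 1) → ℕ) → Pt m L → ℝ) (ω : Pt m L) :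
    en ∅ j φ ω = ∑ q ∈ fr L (Inn m) (fun _ => j), φ q ω ^ 2 := by
  unfold en
  rw [sdiff_empty]
  exact sum_congr rfl fun q _ => by rw [Fh_empty]

theorem sdiff_insert_eq {U : Finset (Fin (m + 1))} {b : Fin (m + 1)} (hbI : b ∈ Inn m)
    (hb : b ∉ U) : insert b (Inn m \ insert b U) = Inn m \ U := by
  ext a
  simp only [mem_insert, mem_sdiff, not_or]
  constructor
  · rintro (h | ⟨h1, h2, h3⟩)
    · subst h
      exact ⟨hbI, hb⟩
    · exact ⟨h1, h3⟩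
  · rintro ⟨h1, h2⟩
    by_cases h : a = b
    · exact Or.inl h
    · exact Or.inr ⟨h1, h, h2⟩

/-- the energy with the string `b` split off -/
theorem en_split {U : Finset (Fin (m + 1))} {b : Fin (m + 1)} (hbI : b ∈ Inn m) (hb : b ∉ U)
    (j : ℕ) (φ : (Fin (m + 1) → ℕ) → Pt m L → ℝ) (ω : Pt m L) :
    ∑ q ∈ fr L (Inn m \ insert b U) (fun _ => j), ∑ t ∈ range L,
      Fh U φ (Function.update q b t) ω ^ 2 = en U j φ ω := by
  unfold en
  rw [sum_split (F := fun q => Fh U φ q ω ^ 2) (by simp), sdiff_insert_eq hbI hb]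

/-- the energy of the single cells -/
theorem en_cells {V : Finset (Fin (m + 1))} (hV : V ⊆ Inn m) (j : ℕ)
    (φ : (Fin (m + 1) → ℕ) → Pt m L → ℝ) (ω : Pt m L) :
    ∑ q ∈ fr L (Inn m \ V) (fun _ => j), ∑ p ∈ fr L V q, φ p ω ^ 2 = en ∅ j φ ω := by
  rw [en_empty, ← sum_fr_union (by exact sdiff_disjoint), sdiff_union_of_subset hV]

theorem zero_notMem_Inn : (0 : Fin (m + 1)) ∉ Inn m := by simp [Inn]

/-! ### measurability -/

theorem Fh_ms {U : Finset (Fin (m + 1))} {b : Fin (m + 1)} (hb : b ∉ U)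
    {φ : (Fin (m + 1) → ℕ) → Pt m L → ℝ} (hφ : ∀ q, Ms q (φ q)) (q : Fin (m + 1) → ℕ) (t : ℕ)
    (hq : q b = t) : Ms (one L b t) (Fh U φ q) := by
  refine Ms.sum _ fun r hr => ?_
  have h1 : r b = t := by
    rw [(mem_fr.1 hr).2 b hb, hq]
  exact (Ms_ps_one hb r t).comp2 ((hφ r).one b t h1.le) (fun x y => x * y)

theorem en_ms {U : Finset (Fin (m + 1))} (hU : U ⊆ Inn m)
    {φ : (Fin (m + 1) → ℕ) → Pt m L → ℝ} (hφ : ∀ q, Ms q (φ q)) (j : ℕ) :
    Ms (one L 0 j) (en U j φ) := by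
  refine Ms.sum _ fun q hq => ?_
  have h0 : (0 : Fin (m + 1)) ∉ U := fun h => zero_notMem_Inn (hU h)
  have h1 : q 0 = j := (mem_fr.1 hq).2 0 (by simp [Inn])
  exact (Fh_ms h0 hφ q j h1).comp (fun x => x ^ 2)

theorem cL_ms {φ : (Fin (m + 1) → ℕ) → Pt m L → ℝ} (hφ : ∀ q, Ms q (φ q))
    (T : Finset (Fin (m + 1))) (κ α : Fin (m + 1) → ℕ) (q : Fin (m + 1) → ℕ) :
    Ms q (cL T κ α φ q) := by
  intro ω ω' h
  unfold cL cut
  rw [hφ q ω ω' h]

theorem Fh_abs {U : Finset (Fin (m + 1))} {φ : (Fin (m + 1) → ℕ) → Pt m L → ℝ} {B : ℝ}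
    (hφ : ∀ q ω, |φ q ω| ≤ B) (q : Fin (m + 1) → ℕ) (ω : Pt m L) :
    |Fh U φ q ω| ≤ (L : ℝ) ^ U.card * B := by
  unfold Fh
  refine (abs_sum_le_sum_abs _ _).trans ?_
  have h1 : ∀ r ∈ fr L U q, |ps U r ω * φ r ω| ≤ B := by
    intro r _
    rw [abs_mul, ps_abs, one_mul]
    exact hφ r ω
  refine (sum_le_sum h1).trans ?_
  rw [sum_const, card_fr, nsmul_eq_mul]
  push_cast
  exact le_rfl

/-! ### the combinatorial identity -/

/-- sums over pairs of cells with the same coordinate `b` -/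
noncomputable def Lm (L : ℕ) (b : Fin (m + 1)) (U : Finset (Fin (m + 1))) (q : Fin (m + 1) → ℕ)
    (f : (Fin (m + 1) → ℕ) → (Fin (m + 1) → ℕ) → ℝ) : ℝ :=
  ∑ t ∈ range L, ∑ p ∈ fr L U (Function.update q b t), ∑ r ∈ fr L (univ.erase b) (fun _ => t),
    f p r

theorem Lm_sum {ι : Type*} (b : Fin (m + 1)) (U : Finset (Fin (m + 1))) (q : Fin (m + 1) → ℕ)
    (s : Finset ι) (f : ι → (Fin (m + 1) → ℕ) → (Fin (m + 1) → ℕ) → ℝ) :
    Lm L b U q (fun p r => ∑ i ∈ s, f i p r) = ∑ i ∈ s, Lm L b U q (f i) := by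
  unfold Lm
  calc ∑ t ∈ range L, ∑ p ∈ fr L U (Function.update q b t),
        ∑ r ∈ fr L (univ.erase b) (fun _ => t), ∑ i ∈ s, f i p r
      = ∑ t ∈ range L, ∑ p ∈ fr L U (Function.update q b t), ∑ i ∈ s,
        ∑ r ∈ fr L (univ.erase b) (fun _ => t), f i p r :=
        sum_congr rfl fun t _ => sum_congr rfl fun p _ => sum_comm
    _ = ∑ t ∈ range L, ∑ i ∈ s, ∑ p ∈ fr L U (Function.update q b t),
        ∑ r ∈ fr L (univ.erase b) (fun _ => t), f i p r :=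
        sum_congr rfl fun t _ => sum_comm
    _ = _ := sum_comm

theorem Lm_add (b : Fin (m + 1)) (U : Finset (Fin (m + 1))) (q : Fin (m + 1) → ℕ)
    (f g : (Fin (m + 1) → ℕ) → (Fin (m + 1) → ℕ) → ℝ) :
    Lm L b U q (fun p r => f p r + g p r) = Lm L b U q f + Lm L b U q g := by
  unfold Lm
  simp only [sum_add_distrib]

theorem Lm_smul (b : Fin (m + 1)) (U : Finset (Fin (m + 1))) (q : Fin (m + 1) → ℕ) (c : ℝ)
    (f : (Fin (m + 1) → ℕ) → (Fin (m + 1) → ℕ) → ℝ) :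
    Lm L b U q (fun p r => c * f p r) = c * Lm L b U q f := by
  unfold Lm
  simp only [mul_sum]

theorem Lm_congr {b : Fin (m + 1)} {U : Finset (Fin (m + 1))} {q : Fin (m + 1) → ℕ}
    {f g : (Fin (m + 1) → ℕ) → (Fin (m + 1) → ℕ) → ℝ}
    (h : ∀ t < L, ∀ p ∈ fr L U (Function.update q b t),
      ∀ r ∈ fr L (univ.erase b) (fun _ => t), f p r = g p r) : Lm L b U q f = Lm L b U q g := by
  unfold Lm
  exact sum_congr rfl fun t ht => sum_congr rfl fun p hp => sum_congr rfl fun r hr =>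
    h t (mem_range.1 ht) p hp r hr

theorem ind_split (E : Finset (Fin (m + 1))) (p r : Fin (m + 1) → ℕ) :
    (1 : ℝ) = (if ∀ e ∈ E, r e ≤ p e then 1 else 0) +
      ∑ T ∈ E.powerset.erase ∅, (-1 : ℝ) ^ (T.card + 1) *
        (if ∀ e ∈ T, p e < r e then 1 else 0) := by
  have h1 : ∀ T : Finset (Fin (m + 1)), ∏ e ∈ T, (-(if p e < r e then (1 : ℝ) else 0)) =
      (-1 : ℝ) ^ T.card * (if ∀ e ∈ T, p e < r e then 1 else 0) := by
    intro T
    rw [prod_neg]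
    congr 1
    by_cases h : ∀ e ∈ T, p e < r e
    · rw [if_pos h]
      exact prod_eq_one fun e he => if_pos (h e he)
    · rw [if_neg h]
      push Not at h
      obtain ⟨e, he, h2⟩ := h
      exact prod_eq_zero he (if_neg (not_lt.2 h2))
  have h2 : (if ∀ e ∈ E, r e ≤ p e then (1 : ℝ) else 0) =
      ∏ e ∈ E, (-(if p e < r e then (1 : ℝ) else 0) + 1) := by
    by_cases h : ∀ e ∈ E, r e ≤ p e
    · rw [if_pos h]
      exact (prod_eq_one fun e he => by rw [if_neg (not_lt.2 (h e he))]; ring).symm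
    · rw [if_neg h]
      push Not at h
      obtain ⟨e, he, h3⟩ := h
      exact (prod_eq_zero he (by rw [if_pos h3]; ring)).symm
  rw [h2, prod_add]
  have h3 : ∀ T ∈ E.powerset, (∏ i ∈ T, (-(if p i < r i then (1 : ℝ) else 0))) *
      ∏ i ∈ E \ T, (1 : ℝ) = (-1 : ℝ) ^ T.card * (if ∀ e ∈ T, p e < r e then 1 else 0) := by
    intro T _
    rw [h1, prod_const_one, mul_one]
  rw [sum_congr rfl h3, ← Finset.add_sum_erase E.powerset _ (empty_mem_powerset E)]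
  have h4 : (-1 : ℝ) ^ (∅ : Finset (Fin (m + 1))).card *
      (if ∀ e ∈ (∅ : Finset (Fin (m + 1))), p e < r e then 1 else 0) = 1 := by simp
  rw [h4, add_assoc, ← sum_add_distrib]
  have h5 : ∀ T ∈ E.powerset.erase ∅, (-1 : ℝ) ^ T.card *
      (if ∀ e ∈ T, p e < r e then 1 else 0) + (-1 : ℝ) ^ (T.card + 1) *
        (if ∀ e ∈ T, p e < r e then 1 else 0) = 0 := by
    intro T _
    rw [pow_succ]
    ring
  rw [sum_congr rfl h5, sum_const_zero, add_zero]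

/-- the weight of a pair -/
noncomputable def ww (U : Finset (Fin (m + 1))) (b : Fin (m + 1)) (j : ℕ)
    (u φ : (Fin (m + 1) → ℕ) → Pt m L → ℝ) (ω : Pt m L) (p r : Fin (m + 1) → ℕ) : ℝ :=
  (ps U p ω * φ p ω) * (ps (univ.erase b) r ω * cut (fun _ => 0) (jb L j) u r ω)

/-- near pairs -/
noncomputable def nr (U : Finset (Fin (m + 1))) (b : Fin (m + 1)) (j : ℕ)
    (u φ : (Fin (m + 1) → ℕ) → Pt m L → ℝ) (q : Fin (m + 1) → ℕ) (ω : Pt m L) : ℝ :=
  Lm L b U q (fun p r => (if ∀ e ∈ (Inn m).erase b, r e ≤ p e then 1 else 0) * ww U b j u φ ω p r)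

/-- coupled pairs -/
noncomputable def XT (U : Finset (Fin (m + 1))) (b : Fin (m + 1)) (j : ℕ)
    (u φ : (Fin (m + 1) → ℕ) → Pt m L → ℝ) (T : Finset (Fin (m + 1))) (κ : Fin (m + 1) → ℕ)
    (q : Fin (m + 1) → ℕ) (ω : Pt m L) : ℝ :=
  ∑ α ∈ Lb L T, ∑ t ∈ range L,
    Fh U (cL T κ α φ) (Function.update q b t) ω * uu b (cR T κ α u) j t ω

theorem prod_Lm (hHq : StHqu) {j : ℕ} (hj : j ≤ L) (U : Finset (Fin (m + 1))) {b : Fin (m + 1)}
    (hb : b ≠ 0) (u φ : (Fin (m + 1) → ℕ) → Pt m L → ℝ) (q : Fin (m + 1) → ℕ) (ω : Pt m L) :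
    ∑ t ∈ range L, Fh U φ (Function.update q b t) ω * uu b u j t ω =
      Lm L b U q (ww U b j u φ ω) := by
  unfold Lm
  refine sum_congr rfl fun t ht => ?_
  rw [← (hHq m L j u ω t hj (mem_range.1 ht)).1 b hb]
  unfold Fh hq ww
  rw [sum_mul_sum]

theorem ww_cut (U : Finset (Fin (m + 1))) (b : Fin (m + 1)) (j : ℕ)
    (u φ : (Fin (m + 1) → ℕ) → Pt m L → ℝ) (T : Finset (Fin (m + 1)))
    (κ α : Fin (m + 1) → ℕ) (ω : Pt m L) (p r : Fin (m + 1) → ℕ) :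
    ww U b j (cR T κ α u) (cL T κ α φ) ω p r =
      (if (∀ e, loL T κ α e ≤ p e ∧ p e < hiL L T κ α e) ∧
          (∀ e, loR T κ α e ≤ r e ∧ r e < hiR L T κ α e) then 1 else 0) *
        ww U b j u φ ω p r := by
  unfold ww cR cL cut
  split_ifs <;> first | ring1 | (exfalso; tauto)

theorem lt_of_fr {U : Finset (Fin (m + 1))} {b : Fin (m + 1)} {j t : ℕ} (hj : j < L) (ht : t < L)
    {q p : Fin (m + 1) → ℕ} (hq : q ∈ fr L (Inn m \ insert b U) (fun _ => j))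
    (hp : p ∈ fr L U (Function.update q b t)) (e : Fin (m + 1)) : p e < L := by
  rw [mem_fr] at hp hq
  by_cases he : e ∈ U
  · exact hp.1 e he
  · rw [hp.2 e he]
    by_cases heb : e = b
    · subst heb
      rw [Function.update_self]
      exact ht
    · rw [Function.update_of_ne heb]
      by_cases he2 : e ∈ Inn m \ insert b U
      · exact hq.1 e he2
      · rw [hq.2 e he2]
        exact hj

theorem Z_eq (hD : StDyab) (hHq : StHqu) {U : Finset (Fin (m + 1))} {b : Fin (m + 1)} {j : ℕ}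
    (hj : j < L) (hb : b ≠ 0) (u φ : (Fin (m + 1) → ℕ) → Pt m L → ℝ) {q : Fin (m + 1) → ℕ}
    (hq : q ∈ fr L (Inn m \ insert b U) (fun _ => j)) (ω : Pt m L) :
    ∑ t ∈ range L, Fh U φ (Function.update q b t) ω * uu b u j t ω =
      nr U b j u φ q ω + ∑ T ∈ ((Inn m).erase b).powerset.erase ∅, (-1 : ℝ) ^ (T.card + 1) *
        ∑ κ ∈ Sc L T, XT U b j u φ T κ q ω := by
  have h1 : ∀ (T : Finset (Fin (m + 1))) (κ : Fin (m + 1) → ℕ), XT U b j u φ T κ q ω =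
      Lm L b U q (fun p r => ∑ α ∈ Lb L T,
        (if (∀ e, loL T κ α e ≤ p e ∧ p e < hiL L T κ α e) ∧
          (∀ e, loR T κ α e ≤ r e ∧ r e < hiR L T κ α e) then (1 : ℝ) else 0) *
        ww U b j u φ ω p r) := by
    intro T κ
    rw [Lm_sum]
    unfold XT
    refine sum_congr rfl fun α _ => ?_
    rw [prod_Lm hHq hj.le U hb]
    exact Lm_congr fun t _ p _ r _ => ww_cut U b j u φ T κ α ω p r
  simp only [h1]
  simp only [← Lm_sum, ← Lm_smul]
  rw [nr, ← Lm_add, prod_Lm hHq hj.le U hb]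
  refine Lm_congr fun t ht p hp r hr => ?_
  have hp1 := lt_of_fr hj ht hq hp
  have hr1 : ∀ e, r e < L := by
    rw [mem_fr] at hr
    intro e
    by_cases he : e = b
    · rw [hr.2 e (by simp [he])]
      exact ht
    · exact hr.1 e (by simp [he])
  have h2 := ind_split ((Inn m).erase b) p r
  have h3 : ∀ T ∈ ((Inn m).erase b).powerset.erase ∅,
      (-1 : ℝ) ^ (T.card + 1) * (if ∀ e ∈ T, p e < r e then 1 else 0) * ww U b j u φ ω p r =
      (-1 : ℝ) ^ (T.card + 1) * ∑ κ ∈ Sc L T, ∑ α ∈ Lb L T,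
        (if (∀ e, loL T κ α e ≤ p e ∧ p e < hiL L T κ α e) ∧
          (∀ e, loR T κ α e ≤ r e ∧ r e < hiR L T κ α e) then (1 : ℝ) else 0) *
        ww U b j u φ ω p r := by
    intro T _
    rw [hD m L T p r hp1 hr1, mul_assoc]
    simp only [sum_mul]
  calc ww U b j u φ ω p r = ((if ∀ e ∈ (Inn m).erase b, r e ≤ p e then 1 else 0) +
      ∑ T ∈ ((Inn m).erase b).powerset.erase ∅, (-1 : ℝ) ^ (T.card + 1) *
        (if ∀ e ∈ T, p e < r e then 1 else 0)) * ww U b j u φ ω p r := by rw [← h2, one_mul]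
    _ = _ := by
      rw [add_mul, sum_mul, sum_congr rfl h3]

/-! ### the near part -/

/-- the band as an array -/
noncomputable def bnd (m L N R : ℕ) (q : Fin (m + 1) → ℕ) (_ : Pt m L) : ℝ :=
  if dst (∑ a, q a) N ≤ R then 1 else 0

theorem bnd_ArF (N R : ℕ) : ArF N R (bnd m L N R) := by
  refine ⟨fun q ω => ?_, fun q ω ω' _ => rfl, fun q ω h => ?_⟩
  · unfold bnd
    split_ifs <;> norm_num
  · unfold bnd
    rw [if_neg (not_le.2 h)]

theorem band_cs {N R : ℕ} {U : Finset (Fin (m + 1))} {b : Fin (m + 1)} (hb : b ∉ U)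
    {f : (Fin (m + 1) → ℕ) → ℝ} (hf : ∀ p, R < dst (∑ a, p a) N → f p = 0)
    {q : Fin (m + 1) → ℕ} (hq : ∀ p ∈ fr L (insert b U) q, ∀ e, p e < L) (ω : Pt m L) :
    (∑ p ∈ fr L (insert b U) q, |f p|) ^ 2 ≤
      (2 * (R : ℝ) + 1) * (L : ℝ) ^ U.card * ∑ p ∈ fr L (insert b U) q, f p ^ 2 := by
  have h1 : ∀ p ∈ fr L (insert b U) q, |f p| =
      cut (fun _ => 0) (fun _ => L) (bnd m L N R) p ω * |f p| := by
    intro p hp
    unfold cut bnd
    rw [if_pos (fun a => ⟨Nat.zero_le _, hq p hp a⟩)]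
    by_cases h : dst (∑ a, p a) N ≤ R
    · rw [if_pos h, one_mul]
    · rw [hf p (not_le.1 h)]
      simp
  have h2 : ∀ p, cut (fun _ => 0) (fun _ => L) (bnd m L N R) p ω ^ 2 ≤
      |cut (fun _ => 0) (fun _ => L) (bnd m L N R) p ω| := by
    intro p
    have := cut_abs_le70 (bnd_ArF (L := L) N R) (fun _ => 0) (fun _ => L) p ω
    rw [← sq_abs, pow_two]
    exact mul_le_of_le_one_left (abs_nonneg _) this
  have h3 := cntp70 (bnd_ArF (L := L) N R) U b hb q (fun _ => 0) (fun _ => L) ω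
  have h4 : bl U (fun _ => 0) (fun _ => L) = (L : ℝ) ^ U.card := by
    unfold bl
    simp
  rw [h4] at h3
  rw [sum_congr rfl h1]
  refine (sum_mul_sq_le_sq_mul_sq _ _ _).trans ?_
  simp only [sq_abs]
  refine mul_le_mul_of_nonneg_right ((sum_le_sum fun p _ => h2 p).trans h3)
    (sum_nonneg fun _ _ => sq_nonneg _)

theorem nr_abs {N R : ℕ} {u φ : (Fin (m + 1) → ℕ) → Pt m L → ℝ} (hu : ArF N R u)
    (hφ : ∀ q ω, R < dst (∑ a, q a) N → φ q ω = 0) {U : Finset (Fin (m + 1))} {b : Fin (m + 1)}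
    (hb0 : b ≠ 0) (hU : U ⊆ Inn m) (hb : b ∉ U) {j : ℕ} {q : Fin (m + 1) → ℕ}
    (hq : q 0 = j) (ω : Pt m L) :
    |nr U b j u φ q ω| ≤ (2 * (R : ℝ) + 1) ^ m * ∑ p ∈ fr L (insert b U) q, |φ p ω| := by
  have hR : (0 : ℝ) ≤ (2 * (R : ℝ) + 1) ^ m := by positivity
  unfold nr Lm
  rw [sum_fr_insert hb, mul_sum]
  refine (abs_sum_le_sum_abs _ _).trans (sum_le_sum fun t _ => ?_)
  rw [mul_sum]
  refine (abs_sum_le_sum_abs _ _).trans (sum_le_sum fun p hp => ?_)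
  have hpb : p b = t := by
    have := (mem_fr.1 hp).2 b hb
    rwa [Function.update_self] at this
  have hp0 : p 0 = j := by
    rw [(mem_fr.1 hp).2 0 (fun h => zero_notMem_Inn (hU h)), Function.update_of_ne (Ne.symm hb0),
      hq]
  refine (abs_sum_le_sum_abs _ _).trans ?_
  by_cases hz : φ p ω = 0
  · rw [hz, abs_zero, mul_zero]
    refine (sum_eq_zero fun r _ => ?_).le
    unfold ww
    beta_reduce
    rw [hz]
    simp
  · have hp2 : dst (∑ e, p e) N ≤ R := by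
      by_contra h
      exact hz (hφ p ω (not_le.1 h))
    have h2 := cntq70 hu b (fun _ => 0) (jb L j) p ω hp2
    rw [hpb] at h2
    have h1 : ∀ r ∈ fr L (univ.erase b) (fun _ => t),
        |(if ∀ e ∈ (Inn m).erase b, r e ≤ p e then (1 : ℝ) else 0) * ww U b j u φ ω p r| ≤
        |φ p ω| * (if ∀ e, e ≠ b → r e ≤ p e then |cut (fun _ => 0) (jb L j) u r ω| else 0) := by
      intro r _
      by_cases h3 : cut (fun _ => 0) (jb L j) u r ω = 0
      · unfold ww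
        rw [h3]
        simp
      · have hr0 : r 0 < j := by
          by_contra h4
          apply h3
          refine cut_out70 _ _ _ ω 0 fun h5 => h4 ?_
          have := h5.2
          simpa [jb] using this
        by_cases h4 : ∀ e ∈ (Inn m).erase b, r e ≤ p e
        · have h5 : ∀ e, e ≠ b → r e ≤ p e := by
            intro e he
            by_cases he0 : e = 0
            · rw [he0, hp0]
              exact hr0.le
            · exact h4 e (by simp [Inn, he, he0])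
          rw [if_pos h4, if_pos h5, one_mul]
          unfold ww
          rw [abs_mul, abs_mul, abs_mul, ps_abs, ps_abs, one_mul, one_mul]
        · rw [if_neg h4, zero_mul, abs_zero]
          refine mul_nonneg (abs_nonneg _) ?_
          split_ifs
          · exact abs_nonneg _
          · exact le_rfl
    refine (sum_le_sum h1).trans ?_
    rw [← mul_sum, mul_comm]
    exact mul_le_mul_of_nonneg_right h2 (abs_nonneg _)

theorem nr_sq {N R : ℕ} {u φ : (Fin (m + 1) → ℕ) → Pt m L → ℝ} (hu : ArF N R u)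
    (hφ : ∀ q ω, R < dst (∑ a, q a) N → φ q ω = 0) {U : Finset (Fin (m + 1))} {b : Fin (m + 1)}
    (hb0 : b ≠ 0) (hU : U ⊆ Inn m) (hb : b ∉ U) {j : ℕ} (hj : j < L) (hL : 1 ≤ L)
    {q : Fin (m + 1) → ℕ}
    (hq : q ∈ fr L (Inn m \ insert b U) (fun _ => j)) (ω : Pt m L) :
    nr U b j u φ q ω ^ 2 ≤ (2 * (R : ℝ) + 1) ^ (2 * m + 1) * (L : ℝ) ^ (m - 1) *
      ∑ p ∈ fr L (insert b U) q, φ p ω ^ 2 := by
  have hq0 : q 0 = j := (mem_fr.1 hq).2 0 (by simp [Inn])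
  have h1 := nr_abs (L := L) hu hφ hb0 hU hb hq0 ω
  have hlt : ∀ p ∈ fr L (insert b U) q, ∀ e, p e < L := by
    intro p hp e
    rw [mem_fr] at hp
    by_cases he : e ∈ insert b U
    · exact hp.1 e he
    · rw [hp.2 e he]
      by_cases he2 : e ∈ Inn m \ insert b U
      · exact (mem_fr.1 hq).1 e he2
      · rw [(mem_fr.1 hq).2 e he2]
        exact hj
  have h2 := band_cs (N := N) (R := R) hb (f := fun p => φ p ω) (fun p h => hφ p ω h) hlt ω
  have hcard : U.card ≤ m - 1 := by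
    have h3 : U ⊆ (Inn m).erase b := fun x hx =>
      mem_erase.2 ⟨fun h => hb (h ▸ hx), hU hx⟩
    have h4 := card_le_card h3
    have h5 : ((Inn m).erase b).card = m - 1 := by
      rw [card_erase_of_mem (by simp [Inn, hb0])]
      simp [Inn]
    omega
  have h3 : (L : ℝ) ^ U.card ≤ (L : ℝ) ^ (m - 1) :=
    pow_le_pow_right₀ (by exact_mod_cast hL) hcard
  have h4 : nr U b j u φ q ω ^ 2 ≤
      ((2 * (R : ℝ) + 1) ^ m * ∑ p ∈ fr L (insert b U) q, |φ p ω|) ^ 2 := by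
    rw [← sq_abs]
    exact pow_le_pow_left₀ (abs_nonneg _) h1 2
  refine h4.trans ?_
  rw [mul_pow]
  have h5 : (0 : ℝ) ≤ ∑ p ∈ fr L (insert b U) q, φ p ω ^ 2 := sum_nonneg fun _ _ => sq_nonneg _
  calc ((2 * (R : ℝ) + 1) ^ m) ^ 2 * (∑ p ∈ fr L (insert b U) q, |φ p ω|) ^ 2
      ≤ ((2 * (R : ℝ) + 1) ^ m) ^ 2 * ((2 * (R : ℝ) + 1) * (L : ℝ) ^ U.card *
        ∑ p ∈ fr L (insert b U) q, φ p ω ^ 2) := by gcongr
    _ ≤ ((2 * (R : ℝ) + 1) ^ m) ^ 2 * ((2 * (R : ℝ) + 1) * (L : ℝ) ^ (m - 1) *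
        ∑ p ∈ fr L (insert b U) q, φ p ω ^ 2) := by gcongr
    _ = _ := by ring

/-! ### the bias -/

theorem three_sq (x y z : ℝ) : (x + y + z) ^ 2 ≤ 3 * (x ^ 2 + y ^ 2 + z ^ 2) := by
  nlinarith [sq_nonneg (x - y), sq_nonneg (y - z), sq_nonneg (x - z)]

theorem two_sq (x y : ℝ) : (x + y) ^ 2 ≤ 2 * x ^ 2 + 2 * y ^ 2 := by
  nlinarith [sq_nonneg (x - y)]

theorem bias_pt {S P lam : ℝ} (a e w Φ : ℕ → ℝ)
    (h1 : ∑ t ∈ range L, (a t - e t) ^ 2 ≤ S) (h2 : ∑ t ∈ range L, (e t - lam * w t) ^ 2 ≤ P) :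
    (∑ t ∈ range L, a t * Φ t) ^ 2 ≤ 3 * (S + P) * ∑ t ∈ range L, Φ t ^ 2 +
      3 * lam ^ 2 * (∑ t ∈ range L, Φ t * w t) ^ 2 := by
  have hΦ : 0 ≤ ∑ t ∈ range L, Φ t ^ 2 := sum_nonneg fun _ _ => sq_nonneg _
  have e1 : ∑ t ∈ range L, a t * Φ t = ∑ t ∈ range L, (a t - e t) * Φ t +
      ∑ t ∈ range L, (e t - lam * w t) * Φ t + lam * ∑ t ∈ range L, Φ t * w t := by
    rw [mul_sum, ← sum_add_distrib, ← sum_add_distrib]
    exact sum_congr rfl fun t _ => by ring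
  have h3 := (sum_mul_sq_le_sq_mul_sq (range L) (fun t => a t - e t) Φ).trans
    (mul_le_mul_of_nonneg_right h1 hΦ)
  have h4 := (sum_mul_sq_le_sq_mul_sq (range L) (fun t => e t - lam * w t) Φ).trans
    (mul_le_mul_of_nonneg_right h2 hΦ)
  rw [e1]
  refine (three_sq _ _ _).trans ?_
  nlinarith

theorem lg_one (L : ℕ) : 1 ≤ lg L := by
  unfold lg
  have : (0 : ℝ) ≤ Nat.log 2 L := Nat.cast_nonneg _
  linarith

theorem lg_le (L : ℕ) : lg L ≤ (L : ℝ) + 1 := by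
  unfold lg
  have : (Nat.log 2 L : ℝ) ≤ L := by exact_mod_cast Nat.log_le_self 2 L
  linarith

theorem card_Sc (T : Finset (Fin (m + 1))) : (Sc L T).card = (Nat.log 2 L + 1) ^ T.card := by
  unfold Sc
  rw [Fintype.card_piFinset]
  have h1 : ∀ e : Fin (m + 1), (if e ∈ T then range (Nat.log 2 L + 1) else {0}).card =
      if e ∈ T then Nat.log 2 L + 1 else 1 := by
    intro e
    by_cases he : e ∈ T <;> simp [he]
  simp_rw [h1]
  rw [prod_ite]
  simp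

theorem card_erase_Inn {b : Fin (m + 1)} (hb0 : b ≠ 0) : ((Inn m).erase b).card = m - 1 := by
  rw [card_erase_of_mem (by simp [Inn, hb0])]
  simp [Inn]

theorem card_bound {b : Fin (m + 1)} (hb0 : b ≠ 0) :
    ∑ T ∈ ((Inn m).erase b).powerset.erase ∅, ((Sc L T).card : ℝ) ≤ 2 ^ m * lg L ^ m := by
  have hcard := card_erase_Inn hb0
  have h1 : ∀ T ∈ ((Inn m).erase b).powerset.erase ∅, ((Sc L T).card : ℝ) ≤ lg L ^ m := by
    intro T hT
    rw [card_Sc]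
    push_cast
    have h2 : T.card ≤ m := by
      have h3 := card_le_card (mem_powerset.1 (mem_of_mem_erase hT))
      omega
    exact pow_le_pow_right₀ (lg_one L) h2
  refine (sum_le_sum h1).trans ?_
  rw [sum_const, nsmul_eq_mul]
  refine mul_le_mul_of_nonneg_right ?_ (pow_nonneg (zero_le_one.trans (lg_one L)) _)
  have h2 : (((Inn m).erase b).powerset.erase ∅).card ≤ 2 ^ m := by
    refine (card_le_card (erase_subset _ _)).trans ?_
    rw [card_powerset]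
    exact Nat.pow_le_pow_right (by norm_num) (by omega)
  exact_mod_cast h2

/-- the sum over the couplings -/
theorem couple_sq {b : Fin (m + 1)} (hb0 : b ≠ 0)
    (c : Finset (Fin (m + 1)) → ℝ) (hc : ∀ T, |c T| = 1)
    (X : Finset (Fin (m + 1)) → (Fin (m + 1) → ℕ) → ℝ) :
    (∑ T ∈ ((Inn m).erase b).powerset.erase ∅, c T * ∑ κ ∈ Sc L T, X T κ) ^ 2 ≤
      2 ^ m * lg L ^ m * ∑ T ∈ ((Inn m).erase b).powerset.erase ∅, ∑ κ ∈ Sc L T, X T κ ^ 2 := by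
  set E := ((Inn m).erase b).powerset.erase ∅ with hE
  have e1 : ∑ T ∈ E, c T * ∑ κ ∈ Sc L T, X T κ =
      ∑ x ∈ E.sigma (fun T => Sc L T), c x.1 * X x.1 x.2 := by
    rw [Finset.sum_sigma]
    exact sum_congr rfl fun T _ => mul_sum _ _ _
  have e2 : ∑ T ∈ E, ∑ κ ∈ Sc L T, X T κ ^ 2 =
      ∑ x ∈ E.sigma (fun T => Sc L T), (c x.1 * X x.1 x.2) ^ 2 := by
    rw [Finset.sum_sigma]
    refine sum_congr rfl fun T _ => sum_congr rfl fun κ _ => ?_
    rw [mul_pow, ← sq_abs (c T), hc T, one_pow, one_mul]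
  rw [e1, e2]
  refine sq_sum_le_card_mul_sum_sq.trans ?_
  refine mul_le_mul_of_nonneg_right ?_ (sum_nonneg fun _ _ => sq_nonneg _)
  rw [Finset.card_sigma]
  push_cast
  exact card_bound hb0

theorem Ex_lin {ρ : Pt m L → ℝ} (c1 c2 c3 c4 : ℝ) (f1 f2 f3 f4 : Pt m L → ℝ) :
    Ex ρ (fun ω => c1 * f1 ω + c2 * f2 ω + c3 * (2 * f3 ω + c4 * f4 ω)) =
      c1 * Ex ρ f1 + c2 * Ex ρ f2 + c3 * (2 * Ex ρ f3 + c4 * Ex ρ f4) := by
  rw [Ex_add, Ex_add, Ex_smul, Ex_smul, Ex_smul, Ex_add, Ex_smul, Ex_smul]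

/-- the numbers -/
theorem fin_num {m e1 n L R : ℕ} {k lam β δ A B C1 EU E0 ES : ℝ} (hk : 1 ≤ k) (hβ : 0 ≤ β)
    (hδ : 0 ≤ δ) (hC1 : 1 ≤ C1) (hA0 : 1 ≤ A)
    (hA3 : lam ^ 2 * β * (L : ℝ) ^ (m - 1) * (k + Real.log (L + 1)) * lg L ^ (2 * m) ≤ A)
    (hA4 : lam ^ 2 * (L : ℝ) ^ (m - 1) * ((R : ℝ) + 1) ^ (2 * m + 4) ≤ A)
    (hEU : 0 ≤ EU) (hE0 : 0 ≤ E0) (hES0 : 0 ≤ ES) :
    2 * EU + 2 * (((L : ℝ) + 1) ^ m * (2 * δ * (B ^ 2 * ((L : ℝ) + 1) ^ (2 * m + 2))) +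
        6 * A * EU + 3 * lam ^ 2 * (2 * (((2 * (R : ℝ) + 1) ^ (2 * m + 1) *
          (L : ℝ) ^ (m - 1)) * E0) + 2 * (2 ^ m * lg L ^ m) *
            ((C1 * (β * (L : ℝ) ^ (m - 1) * (k + Real.log (L + 1)))) * ES +
              (2 ^ m * lg L ^ m) * (C1 * β * B ^ 2 * ((L : ℝ) + 1) ^ e1 / (L + 1) ^ n)))) ≤
      (20 + 24 * 4 ^ m + 24 * 4 ^ m * C1) * A * (EU + E0 + 1 / lg L ^ m * ES) +
        (20 + 24 * 4 ^ m + 24 * 4 ^ m * C1) * (1 + lam ^ 2 + lam ^ 2 * β) * B ^ 2 *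
          ((L : ℝ) + 1) ^ (e1 + 3 * m + 2) * (δ + 1 / (L + 1) ^ n) := by
  set Mm : ℝ := 2 ^ m * lg L ^ m with hMm
  have hlg0 : 0 < lg L := lt_of_lt_of_le one_pos (lg_one L)
  have hMm0 : 0 ≤ Mm := by positivity
  set K1 : ℝ := (2 * (R : ℝ) + 1) ^ (2 * m + 1) * (L : ℝ) ^ (m - 1) with hK1
  set K2 : ℝ := C1 * (β * (L : ℝ) ^ (m - 1) * (k + Real.log (L + 1))) with hK2
  set K3 : ℝ := C1 * β * B ^ 2 * ((L : ℝ) + 1) ^ e1 / (L + 1) ^ n with hK3
  have hX1 : (1 : ℝ) ≤ (L : ℝ) + 1 := by linarith [(Nat.cast_nonneg L : (0 : ℝ) ≤ L)]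
  have hp4 : (0 : ℝ) < 4 ^ m := by positivity
  have h24 : (2 : ℝ) ^ m ≤ 4 ^ m := pow_le_pow_left₀ (by norm_num) (by norm_num) m
  have f2 : lam ^ 2 * K1 ≤ 2 * 4 ^ m * A := by
    have h1 : (2 * (R : ℝ) + 1) ^ (2 * m + 1) ≤ 2 * 4 ^ m * ((R : ℝ) + 1) ^ (2 * m + 4) := by
      calc (2 * (R : ℝ) + 1) ^ (2 * m + 1) ≤ (2 * ((R : ℝ) + 1)) ^ (2 * m + 1) := by
            gcongr
            linarith
        _ = 2 * 4 ^ m * ((R : ℝ) + 1) ^ (2 * m + 1) := by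
            rw [mul_pow, pow_succ (2 : ℝ), pow_mul]
            norm_num only
            ring
        _ ≤ 2 * 4 ^ m * ((R : ℝ) + 1) ^ (2 * m + 4) := by
            refine mul_le_mul_of_nonneg_left ?_ (by positivity)
            refine pow_le_pow_right₀ ?_ (by omega)
            linarith [(Nat.cast_nonneg R : (0 : ℝ) ≤ R)]
    calc lam ^ 2 * K1 ≤ lam ^ 2 * (2 * 4 ^ m * ((R : ℝ) + 1) ^ (2 * m + 4) *
          (L : ℝ) ^ (m - 1)) := by
          rw [hK1]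
          gcongr
      _ = 2 * 4 ^ m * (lam ^ 2 * (L : ℝ) ^ (m - 1) * ((R : ℝ) + 1) ^ (2 * m + 4)) := by ring
      _ ≤ _ := mul_le_mul_of_nonneg_left hA4 (by positivity)
  have f3 : lam ^ 2 * Mm * K2 ≤ 4 ^ m * C1 * A * (1 / lg L ^ m) := by
    have h1 : lam ^ 2 * Mm * K2 = 2 ^ m * C1 * (lam ^ 2 * β * (L : ℝ) ^ (m - 1) *
        (k + Real.log (L + 1)) * lg L ^ (2 * m)) * (1 / lg L ^ m) := by
      rw [hMm, hK2, two_mul m, pow_add]
      field_simp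
    rw [h1]
    have h2 : 0 ≤ lam ^ 2 * β * (L : ℝ) ^ (m - 1) *
        (k + Real.log (L + 1)) * lg L ^ (2 * m) := by
      have : 0 ≤ Real.log (L + 1) := Real.log_nonneg hX1
      positivity
    refine mul_le_mul_of_nonneg_right ?_ (by positivity)
    calc 2 ^ m * C1 * (lam ^ 2 * β * (L : ℝ) ^ (m - 1) *
        (k + Real.log (L + 1)) * lg L ^ (2 * m)) ≤ 2 ^ m * C1 * A :=
          mul_le_mul_of_nonneg_left hA3 (by positivity)
      _ ≤ 4 ^ m * C1 * A := by gcongr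
  set Xe : ℝ := ((L : ℝ) + 1) ^ (e1 + 3 * m + 2) with hXe
  set Nn : ℝ := 1 / ((L : ℝ) + 1) ^ n with hNn
  have hNn0 : 0 ≤ Nn := by positivity
  have f4 : ((L : ℝ) + 1) ^ m * (2 * δ * (B ^ 2 * ((L : ℝ) + 1) ^ (2 * m + 2))) ≤
      2 * (δ * (B ^ 2 * Xe)) := by
    have h1 : ((L : ℝ) + 1) ^ (3 * m + 2) ≤ Xe := pow_le_pow_right₀ hX1 (by omega)
    calc ((L : ℝ) + 1) ^ m * (2 * δ * (B ^ 2 * ((L : ℝ) + 1) ^ (2 * m + 2)))
        = 2 * (δ * (B ^ 2 * ((L : ℝ) + 1) ^ (3 * m + 2))) := by ring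
      _ ≤ _ := by gcongr
  have f5 : lam ^ 2 * (Mm * (Mm * K3)) ≤ 4 ^ m * C1 * (lam ^ 2 * β * (B ^ 2 * Xe * Nn)) := by
    have h1 : lg L ^ (2 * m) ≤ ((L : ℝ) + 1) ^ (2 * m) :=
      pow_le_pow_left₀ hlg0.le (lg_le L) _
    have h2 : ((L : ℝ) + 1) ^ (2 * m) * ((L : ℝ) + 1) ^ e1 ≤ Xe := by
      rw [← pow_add]
      exact pow_le_pow_right₀ hX1 (by omega)
    have h3 : Mm * Mm = 4 ^ m * lg L ^ (2 * m) := by
      rw [hMm, two_mul m, pow_add]
      have : (4 : ℝ) ^ m = 2 ^ m * 2 ^ m := by rw [← mul_pow]; norm_num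
      rw [this]
      ring
    have h4 : K3 = C1 * β * (B ^ 2 * ((L : ℝ) + 1) ^ e1 * Nn) := by
      rw [hK3, hNn]
      ring
    calc lam ^ 2 * (Mm * (Mm * K3)) = lam ^ 2 * (4 ^ m * lg L ^ (2 * m) *
          (C1 * β * (B ^ 2 * ((L : ℝ) + 1) ^ e1 * Nn))) := by
          rw [← mul_assoc Mm Mm K3, h3, h4]
      _ ≤ lam ^ 2 * (4 ^ m * ((L : ℝ) + 1) ^ (2 * m) *
          (C1 * β * (B ^ 2 * ((L : ℝ) + 1) ^ e1 * Nn))) := by gcongr
      _ = 4 ^ m * C1 * (lam ^ 2 * β * (B ^ 2 *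
          (((L : ℝ) + 1) ^ (2 * m) * ((L : ℝ) + 1) ^ e1) * Nn)) := by ring
      _ ≤ _ := by gcongr
  have g1 : 2 * EU + 12 * A * EU ≤ 14 * (A * EU) := by
    have : EU ≤ A * EU := le_mul_of_one_le_left hEU hA0
    linarith
  have g2 : 12 * (lam ^ 2 * K1) * E0 ≤ 24 * 4 ^ m * (A * E0) := by
    have := mul_le_mul_of_nonneg_right f2 hE0
    linarith
  have g3 : 12 * (lam ^ 2 * Mm * K2) * ES ≤ 12 * 4 ^ m * C1 * (A * (1 / lg L ^ m * ES)) := by
    have := mul_le_mul_of_nonneg_right f3 hES0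
    linarith
  have hT1' : 0 ≤ A * EU := by positivity
  have hT2' : 0 ≤ A * E0 := by positivity
  have hT3' : 0 ≤ A * (1 / lg L ^ m * ES) := by positivity
  have hT4' : 0 ≤ δ * (B ^ 2 * Xe) := by positivity
  have hT5' : 0 ≤ B ^ 2 * Xe * Nn := by positivity
  set C : ℝ := 20 + 24 * 4 ^ m + 24 * 4 ^ m * C1 with hC
  have hCC : 0 ≤ 4 ^ m * C1 := by positivity
  have k1 : 14 * (A * EU) ≤ C * (A * EU) :=
    mul_le_mul_of_nonneg_right (by rw [hC]; linarith) hT1'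
  have k2 : 24 * 4 ^ m * (A * E0) ≤ C * (A * E0) :=
    mul_le_mul_of_nonneg_right (by rw [hC]; linarith) hT2'
  have k3 : 12 * 4 ^ m * C1 * (A * (1 / lg L ^ m * ES)) ≤ C * (A * (1 / lg L ^ m * ES)) :=
    mul_le_mul_of_nonneg_right (by rw [hC]; linarith) hT3'
  have k4 : 4 * (δ * (B ^ 2 * Xe)) ≤ C * (δ * (B ^ 2 * Xe)) :=
    mul_le_mul_of_nonneg_right (by rw [hC]; linarith) hT4'
  have hlb : 0 ≤ lam ^ 2 * β := by positivity
  have k5 : 12 * (4 ^ m * C1 * (lam ^ 2 * β * (B ^ 2 * Xe * Nn))) ≤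
      C * (lam ^ 2 * β * (B ^ 2 * Xe * Nn)) := by
    have h1 : 0 ≤ lam ^ 2 * β * (B ^ 2 * Xe * Nn) := mul_nonneg hlb hT5'
    have h2 : 12 * (4 ^ m * C1) ≤ C := by rw [hC]; linarith
    calc 12 * (4 ^ m * C1 * (lam ^ 2 * β * (B ^ 2 * Xe * Nn)))
        = 12 * (4 ^ m * C1) * (lam ^ 2 * β * (B ^ 2 * Xe * Nn)) := by ring
      _ ≤ _ := mul_le_mul_of_nonneg_right h2 h1
  have hC0 : 0 ≤ C := by
    rw [hC]
    linarith
  have k6 : C * (δ * (B ^ 2 * Xe)) + C * (lam ^ 2 * β * (B ^ 2 * Xe * Nn)) ≤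
      C * (1 + lam ^ 2 + lam ^ 2 * β) * B ^ 2 * Xe * (δ + Nn) := by
    have h1 : 0 ≤ C * ((lam ^ 2 + lam ^ 2 * β) * (δ * (B ^ 2 * Xe))) := by
      have : 0 ≤ lam ^ 2 := sq_nonneg _
      positivity
    have h2 : 0 ≤ C * ((1 + lam ^ 2) * (B ^ 2 * Xe * Nn)) := by positivity
    have h3 : C * (1 + lam ^ 2 + lam ^ 2 * β) * B ^ 2 * Xe * (δ + Nn) =
        C * (δ * (B ^ 2 * Xe)) + C * (lam ^ 2 * β * (B ^ 2 * Xe * Nn)) +
          C * ((lam ^ 2 + lam ^ 2 * β) * (δ * (B ^ 2 * Xe))) +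
          C * ((1 + lam ^ 2) * (B ^ 2 * Xe * Nn)) := by ring
    linarith
  have hfin : 2 * EU +
      2 * (((L : ℝ) + 1) ^ m * (2 * δ * (B ^ 2 * ((L : ℝ) + 1) ^ (2 * m + 2))) +
        6 * A * EU + 3 * lam ^ 2 * (2 * (K1 * E0) +
          2 * Mm * (K2 * ES + Mm * K3))) =
      (2 * EU + 12 * A * EU) +
        2 * (((L : ℝ) + 1) ^ m * (2 * δ * (B ^ 2 * ((L : ℝ) + 1) ^ (2 * m + 2)))) +
        12 * (lam ^ 2 * K1) * E0 + 12 * (lam ^ 2 * Mm * K2) * ES +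
        12 * (lam ^ 2 * (Mm * (Mm * K3))) := by ring
  rw [hfin]
  have hgoal : C * A * (EU + E0 + 1 / lg L ^ m * ES) =
      C * (A * EU) + C * (A * E0) +
        C * (A * (1 / lg L ^ m * ES)) := by ring
  rw [hgoal]
  linarith


end Q66

open Q66

open Classical in
theorem qstep_66 (hTq : StTopq) (hD : StDyab) (hTr : StTri) (hN : StNbt) (hQc : StQcu)
    (hHq : StHqu) : StQstep := by
  intro m hm
  obtain ⟨e1, hT1⟩ := hTq m hm
  refine ⟨e1 + 3 * m + 2, fun n => ?_⟩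
  obtain ⟨C1, hC1, hT2⟩ := hT1 n
  refine ⟨20 + 24 * 4 ^ m + 24 * 4 ^ m * C1, ?_, ?_⟩
  · have : (0 : ℝ) < 4 ^ m := by positivity
    nlinarith
  intro L N R j k lam β S δ A B g u φ U b hL hj hk hlam hβ hS hδ hB hu hT hφm hφB hφb hA1 hA2
    hA3 hA4 hbI hU hb
  have hb0 : b ≠ 0 := by
    rintro rfl
    exact zero_notMem_Inn hbI
  set θ := tg lam g u with hθ
  obtain ⟨hp', hl', hex⟩ := hQc m L j k θ hT.prd hT.law
  set ρ := qq (cu j θ) with hρ
  have hAlf := alf_74 eeb_36 m L k ρ hl'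
  set W : Finset (Fin (m + 1)) := Inn m \ insert b U with hW
  have hgj : Ms (one L 0 j) (g j) := hT.gate.dep j
  have hg0 : ∀ ω, 0 ≤ g j ω := fun ω => by
    rcases hT.gate.zo j ω with h | h <;> rw [h] <;> norm_num
  have hg1 : ∀ ω, g j ω ≤ 1 := fun ω => by
    rcases hT.gate.zo j ω with h | h <;> rw [h] <;> norm_num
  -- the functions
  set Φ : (Fin (m + 1) → ℕ) → ℕ → Pt m L → ℝ := fun q t => Fh U φ (Function.update q b t) with hΦ
  set a : ℕ → Pt m L → ℝ := fun t => al ρ b t with ha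
  have hΦm : ∀ q t, Ms (one L b t) (Φ q t) := fun q t => Fh_ms hb hφm _ t (by simp)
  -- the bad event
  set bad : Pt m L → ℝ := fun ω => (if g j ω = 0 then 1 else 0) +
    (if g j ω = 1 ∧ S < ∑ r ∈ range L, (al ρ b r ω - be lam b u j r ω) ^ 2 then 1 else 0)
    with hbad
  have hbad0 : ∀ ω, 0 ≤ bad ω := by
    intro ω
    simp only [hbad]
    split_ifs <;> norm_num
  have hbadE : Ex ρ bad ≤ 2 * δ := by
    have h1 : Ex ρ (fun ω => if g j ω = 0 then (1 : ℝ) else 0) ≤ δ := by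
      rw [hex _ (hgj.comp (fun x => if x = 0 then (1 : ℝ) else 0))]
      have h2 := hT.opn
      refine le_trans (Ex_mono hT.law fun ω => ?_) h2
      by_cases h3 : g j ω = 0
      · rw [if_pos h3, if_pos ⟨j, hj, h3⟩]
      · rw [if_neg h3]
        split_ifs <;> norm_num
    have h2 : Ex ρ (fun ω => if g j ω = 1 ∧
        S < ∑ r ∈ range L, (al ρ b r ω - be lam b u j r ω) ^ 2 then (1 : ℝ) else 0) ≤ δ := by
      have h3 := hT.bia j b hj hb0
      unfold Pr at h3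
      convert h3
    rw [hbad, Ex_add]
    linarith
  -- the constants
  set P : ℝ := lam ^ 4 * (((Nat.log 2 L : ℝ) + 1) ^ 2 * (β * (L : ℝ) ^ (m - 1)) ^ 2 * L) with hP
  have hPA : P ≤ A := by
    refine le_trans (le_of_eq ?_) hA2
    rw [hP]
    unfold lg
    have h1 : (L : ℝ) ^ (2 * m - 1) = ((L : ℝ) ^ (m - 1)) ^ 2 * L := by
      rw [← pow_mul, ← pow_succ]
      congr 1
      omega
    rw [h1]
    ring
  have hSA : S ≤ A := by linarith
  have hA0 : 1 ≤ A := by linarith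
  -- the pointwise bound of the drift
  have hpt : ∀ q ω, (∑ t ∈ range L, a t ω * Φ q t ω) ^ 2 ≤
      bad ω * (B ^ 2 * ((L : ℝ) + 1) ^ (2 * m + 2)) + 6 * A * ∑ t ∈ range L, Φ q t ω ^ 2 +
        3 * lam ^ 2 * (g j ω * (∑ t ∈ range L, Φ q t ω * uu b u j t ω) ^ 2) := by
    intro q ω
    have hs0 : 0 ≤ ∑ t ∈ range L, Φ q t ω ^ 2 := sum_nonneg fun _ _ => sq_nonneg _
    have hBL : 0 ≤ B ^ 2 * ((L : ℝ) + 1) ^ (2 * m + 2) := by positivity
    by_cases hG : g j ω = 1 ∧ ∑ r ∈ range L, (al ρ b r ω - be lam b u j r ω) ^ 2 ≤ S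
    · have hnt := hT.nat j ω hj hG.1
      have hNB : NB (Mg ((Inn m).erase b) 0 b (fun _ => 0) (cut (fun _ => 0) (jb L j) u) ω)
          (β * (L : ℝ) ^ (m - 1)) := by
        have h1 := hnt (fun _ => 0) (jb L j) ((Inn m).erase b) 0 b (fun _ => 0)
          ⟨fun c => by
            unfold jb
            by_cases hc : c = 0
            · subst hc
              simpa using hj.le
            · simp [Function.update_of_ne hc], fun h => absurd (mem_of_mem_erase h)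
              zero_notMem_Inn, fun _ => by simp [jb]⟩ (Ne.symm hb0)
          (fun h => zero_notMem_Inn (mem_of_mem_erase h)) (by simp)
          (by
            rw [card_erase_of_mem hbI]
            simp [Inn])
        have h2 : bl ((Inn m).erase b) (fun _ => 0) (jb L j) = (L : ℝ) ^ (m - 1) := by
          unfold bl
          have h3 : ∀ e ∈ (Inn m).erase b, ((jb L j e - (fun _ => 0) e : ℕ) : ℝ) = L := by
            intro e he
            have he0 : e ≠ 0 := fun h => zero_notMem_Inn (h ▸ mem_of_mem_erase he)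
            unfold jb
            rw [Function.update_of_ne he0]
            simp
          rw [prod_congr rfl h3, prod_const, card_erase_of_mem hbI]
          simp [Inn]
        rw [h2] at h1
        exact h1
      have h2 := S23.second_order (lam := lam) hN hTr (by positivity)
        (S23.C_norm hb0 hj.le hNB)
      have h3 := bias_pt (L := L) (lam := lam) (fun t => a t ω) (fun t => be lam b u j t ω)
        (fun t => uu b u j t ω) (fun t => Φ q t ω) hG.2 h2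
      rw [hG.1, one_mul]
      have h4 : 3 * (S + P) * ∑ t ∈ range L, Φ q t ω ^ 2 ≤
          6 * A * ∑ t ∈ range L, Φ q t ω ^ 2 :=
        mul_le_mul_of_nonneg_right (by linarith) hs0
      have h5 : 0 ≤ bad ω * (B ^ 2 * ((L : ℝ) + 1) ^ (2 * m + 2)) := mul_nonneg (hbad0 ω) hBL
      linarith
    · have h1 : 1 ≤ bad ω := by
        rcases hT.gate.zo j ω with h | h
        · simp only [hbad]
          rw [if_pos h]
          split_ifs <;> norm_num
        · have h2 : S < ∑ r ∈ range L, (al ρ b r ω - be lam b u j r ω) ^ 2 := by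
            by_contra h3
            exact hG ⟨h, not_lt.1 h3⟩
          simp only [hbad]
          rw [if_pos (And.intro h h2)]
          split_ifs <;> norm_num
      have h2 : |∑ t ∈ range L, a t ω * Φ q t ω| ≤ B * ((L : ℝ) + 1) ^ (m + 1) := by
        refine (abs_sum_le_sum_abs _ _).trans ?_
        have h3 : ∀ t ∈ range L, |a t ω * Φ q t ω| ≤ ((L : ℝ) + 1) ^ m * B := by
          intro t _
          rw [abs_mul]
          have h4 := hAlf.abs b t ω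
          have h5 := Fh_abs (U := U) hφB (Function.update q b t) ω
          have h6 : (L : ℝ) ^ U.card * B ≤ ((L : ℝ) + 1) ^ m * B := by
            refine mul_le_mul_of_nonneg_right ?_ hB
            calc (L : ℝ) ^ U.card ≤ ((L : ℝ) + 1) ^ U.card := by gcongr; linarith
              _ ≤ ((L : ℝ) + 1) ^ m := by
                refine pow_le_pow_right₀ (by linarith [(Nat.cast_nonneg L : (0 : ℝ) ≤ L)]) ?_
                refine (card_le_card hU).trans ?_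
                simp [Inn]
          calc |a t ω| * |Φ q t ω| ≤ 1 * |Φ q t ω| :=
                mul_le_mul_of_nonneg_right h4 (abs_nonneg _)
            _ = |Φ q t ω| := one_mul _
            _ ≤ _ := h5.trans h6
        refine (sum_le_sum h3).trans ?_
        rw [sum_const, card_range, nsmul_eq_mul]
        have h4 : (0 : ℝ) ≤ ((L : ℝ) + 1) ^ m * B := by positivity
        calc (L : ℝ) * (((L : ℝ) + 1) ^ m * B) ≤ ((L : ℝ) + 1) * (((L : ℝ) + 1) ^ m * B) :=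
              mul_le_mul_of_nonneg_right (by linarith) h4
          _ = _ := by ring
      have h3 : (∑ t ∈ range L, a t ω * Φ q t ω) ^ 2 ≤ B ^ 2 * ((L : ℝ) + 1) ^ (2 * m + 2) := by
        rw [← sq_abs]
        refine (pow_le_pow_left₀ (abs_nonneg _) h2 2).trans (le_of_eq ?_)
        ring
      have h4 : B ^ 2 * ((L : ℝ) + 1) ^ (2 * m + 2) ≤
          bad ω * (B ^ 2 * ((L : ℝ) + 1) ^ (2 * m + 2)) := le_mul_of_one_le_left hBL h1
      have h5 : 0 ≤ 6 * A * ∑ t ∈ range L, Φ q t ω ^ 2 := by positivity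
      have h6 : 0 ≤ 3 * lam ^ 2 * (g j ω * (∑ t ∈ range L, Φ q t ω * uu b u j t ω) ^ 2) := by
        have := hg0 ω
        positivity
      linarith
  -- one outer cell
  have hq1 : ∀ q, Ex ρ (fun ω => Fh (insert b U) φ q ω ^ 2) ≤
      2 * ∑ t ∈ range L, Ex ρ (fun ω => Φ q t ω ^ 2) +
        2 * Ex ρ (fun ω => (∑ t ∈ range L, a t ω * Φ q t ω) ^ 2) := by
    intro q
    have h1 : ∀ ω, Fh (insert b U) φ q ω ^ 2 ≤
        2 * (∑ t ∈ range L, (sb b t ω - al ρ b t ω) * Φ q t ω) ^ 2 +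
          2 * (∑ t ∈ range L, a t ω * Φ q t ω) ^ 2 := by
      intro ω
      have h2 : Fh (insert b U) φ q ω = ∑ t ∈ range L, (sb b t ω - al ρ b t ω) * Φ q t ω +
          ∑ t ∈ range L, a t ω * Φ q t ω := by
        rw [Fh_insert hb, ← sum_add_distrib]
        refine sum_congr rfl fun t _ => ?_
        simp only [ha, hΦ]
        ring
      rw [h2]
      exact two_sq _ _
    have h2 := Ex_mono hl' h1
    rw [Ex_add, Ex_smul, Ex_smul] at h2
    have h3 := hAlf.orth b (Φ q) (hΦm q)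
    linarith
  set E := ((Inn m).erase b).powerset.erase ∅ with hE
  set Mm : ℝ := 2 ^ m * lg L ^ m with hMm
  have hlg0 : 0 < lg L := lt_of_lt_of_le one_pos (lg_one L)
  have hMm0 : 0 ≤ Mm := by positivity
  have hZ : ∀ q ∈ fr L W (fun _ => j), ∀ ω,
      g j ω * (∑ t ∈ range L, Φ q t ω * uu b u j t ω) ^ 2 ≤
      2 * nr U b j u φ q ω ^ 2 +
        2 * Mm * ∑ T ∈ E, ∑ κ ∈ Sc L T, g j ω * XT U b j u φ T κ q ω ^ 2 := by
    intro q hq ω
    have h1 := Z_eq hD hHq hj hb0 u φ hq ω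
    have h2 : (∑ t ∈ range L, Φ q t ω * uu b u j t ω) ^ 2 ≤ 2 * nr U b j u φ q ω ^ 2 +
        2 * (Mm * ∑ T ∈ E, ∑ κ ∈ Sc L T, XT U b j u φ T κ q ω ^ 2) := by
      have h3 := couple_sq (L := L) hb0 (fun T => (-1 : ℝ) ^ (T.card + 1))
        (fun T => by simp) (fun T κ => XT U b j u φ T κ q ω)
      rw [show ∑ t ∈ range L, Φ q t ω * uu b u j t ω = _ from h1]
      exact (two_sq _ _).trans (by linarith)
    have h4 : ∑ T ∈ E, ∑ κ ∈ Sc L T, g j ω * XT U b j u φ T κ q ω ^ 2 =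
        g j ω * ∑ T ∈ E, ∑ κ ∈ Sc L T, XT U b j u φ T κ q ω ^ 2 := by
      simp only [mul_sum]
    rw [h4]
    have h5 := mul_le_mul_of_nonneg_left h2 (hg0 ω)
    have h6 : g j ω * (2 * nr U b j u φ q ω ^ 2) ≤ 2 * nr U b j u φ q ω ^ 2 :=
      mul_le_of_le_one_left (by positivity) (hg1 ω)
    calc g j ω * (∑ t ∈ range L, Φ q t ω * uu b u j t ω) ^ 2
        ≤ g j ω * (2 * nr U b j u φ q ω ^ 2 +
          2 * (Mm * ∑ T ∈ E, ∑ κ ∈ Sc L T, XT U b j u φ T κ q ω ^ 2)) := h5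
      _ = g j ω * (2 * nr U b j u φ q ω ^ 2) +
          2 * Mm * (g j ω * ∑ T ∈ E, ∑ κ ∈ Sc L T, XT U b j u φ T κ q ω ^ 2) := by ring
      _ ≤ _ := by linarith
  have hq2 : ∀ q ∈ fr L W (fun _ => j),
      Ex ρ (fun ω => (∑ t ∈ range L, a t ω * Φ q t ω) ^ 2) ≤
      2 * δ * (B ^ 2 * ((L : ℝ) + 1) ^ (2 * m + 2)) +
        6 * A * ∑ t ∈ range L, Ex ρ (fun ω => Φ q t ω ^ 2) +
        3 * lam ^ 2 * (2 * Ex ρ (fun ω => nr U b j u φ q ω ^ 2) +
          2 * Mm * ∑ T ∈ E, ∑ κ ∈ Sc L T,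
            Ex ρ (fun ω => g j ω * XT U b j u φ T κ q ω ^ 2)) := by
    intro q hq
    have h1 : ∀ ω, (∑ t ∈ range L, a t ω * Φ q t ω) ^ 2 ≤
        (B ^ 2 * ((L : ℝ) + 1) ^ (2 * m + 2)) * bad ω +
          6 * A * ∑ t ∈ range L, Φ q t ω ^ 2 +
          3 * lam ^ 2 * (2 * nr U b j u φ q ω ^ 2 +
            2 * Mm * ∑ T ∈ E, ∑ κ ∈ Sc L T, g j ω * XT U b j u φ T κ q ω ^ 2) := by
      intro ω
      refine (hpt q ω).trans ?_
      have := mul_le_mul_of_nonneg_left (hZ q hq ω) (by positivity : (0 : ℝ) ≤ 3 * lam ^ 2)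
      linarith
    have h2 := Ex_mono hl' h1
    rw [Ex_lin _ _ _ _ bad (fun ω => ∑ t ∈ range L, Φ q t ω ^ 2)
      (fun ω => nr U b j u φ q ω ^ 2)
      (fun ω => ∑ T ∈ E, ∑ κ ∈ Sc L T, g j ω * XT U b j u φ T κ q ω ^ 2)] at h2
    simp only [Ex_sum] at h2
    have h3 : B ^ 2 * ((L : ℝ) + 1) ^ (2 * m + 2) * Ex ρ bad ≤
        B ^ 2 * ((L : ℝ) + 1) ^ (2 * m + 2) * (2 * δ) :=
      mul_le_mul_of_nonneg_left hbadE (by positivity)
    linarith
  -- sums over the outer cells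
  have hS1 : ∑ q ∈ fr L W (fun _ => j), ∑ t ∈ range L, Ex ρ (fun ω => Φ q t ω ^ 2) =
      Ex ρ (en U j φ) := by
    have h1 : en U j φ = fun ω => ∑ q ∈ fr L W (fun _ => j), ∑ t ∈ range L, Φ q t ω ^ 2 := by
      funext ω
      exact (en_split hbI hb j φ ω).symm
    rw [h1, Ex_sum]
    exact sum_congr rfl fun q _ => (Ex_sum _ _).symm
  set K1 : ℝ := (2 * (R : ℝ) + 1) ^ (2 * m + 1) * (L : ℝ) ^ (m - 1) with hK1
  have hS2 : ∑ q ∈ fr L W (fun _ => j), Ex ρ (fun ω => nr U b j u φ q ω ^ 2) ≤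
      K1 * Ex ρ (en ∅ j φ) := by
    rw [← Ex_sum, ← Ex_smul]
    refine Ex_mono hl' fun ω => ?_
    rw [← en_cells (V := insert b U) (insert_subset hbI hU) j φ ω, mul_sum]
    exact sum_le_sum fun q hq => nr_sq hu hφb hb0 hU hb hj hL hq ω
  set ES : ℝ := ∑ T ∈ E, ∑ κ ∈ Sc L T, ∑ α ∈ Lb L T, Ex ρ (en U j (cL T κ α φ)) with hES
  set K2 : ℝ := C1 * (β * (L : ℝ) ^ (m - 1) * (k + Real.log (L + 1))) with hK2
  set K3 : ℝ := C1 * β * B ^ 2 * ((L : ℝ) + 1) ^ e1 / (L + 1) ^ n with hK3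
  have hK30 : 0 ≤ K3 := by
    rw [hK3]
    positivity
  have hS3 : ∑ q ∈ fr L W (fun _ => j), ∑ T ∈ E, ∑ κ ∈ Sc L T,
      Ex ρ (fun ω => g j ω * XT U b j u φ T κ q ω ^ 2) ≤ K2 * ES + Mm * K3 := by
    rw [sum_comm]
    have h1 : ∀ T ∈ E, ∑ q ∈ fr L W (fun _ => j), ∑ κ ∈ Sc L T,
        Ex ρ (fun ω => g j ω * XT U b j u φ T κ q ω ^ 2) ≤
        ∑ κ ∈ Sc L T, (K2 * ∑ α ∈ Lb L T, Ex ρ (en U j (cL T κ α φ)) + K3) := by
      intro T hTE
      rw [sum_comm]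
      refine sum_le_sum fun κ hκ => ?_
      have hTne : T.Nonempty := nonempty_iff_ne_empty.2 (ne_of_mem_erase hTE)
      obtain ⟨c, hc⟩ := hTne
      exact hT2 L j k β B ρ (g j) u φ T U κ b c hL hj hk hβ hB hl' hu.dep hφm hφB hg0 hg1
        (fun ω hω => hT.nat j ω hj ((hT.gate.zo j ω).resolve_left hω)) hbI hU hb
        (mem_powerset.1 (mem_of_mem_erase hTE)) hc hκ
    refine (sum_le_sum h1).trans ?_
    simp only [sum_add_distrib, ← mul_sum, sum_const, nsmul_eq_mul, ← sum_mul]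
    have h2 := mul_le_mul_of_nonneg_right (card_bound (L := L) hb0) hK30
    linarith
  have hcardq : ((fr L W (fun _ => j)).card : ℝ) ≤ ((L : ℝ) + 1) ^ m := by
    rw [card_fr]
    push_cast
    calc (L : ℝ) ^ W.card ≤ ((L : ℝ) + 1) ^ W.card := by gcongr; linarith
      _ ≤ ((L : ℝ) + 1) ^ m := by
        refine pow_le_pow_right₀ (by linarith [(Nat.cast_nonneg L : (0 : ℝ) ≤ L)]) ?_
        refine (card_le_card sdiff_subset).trans ?_
        simp [Inn]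
  have htot : Ex ρ (en (insert b U) j φ) ≤ 2 * Ex ρ (en U j φ) +
      2 * (((L : ℝ) + 1) ^ m * (2 * δ * (B ^ 2 * ((L : ℝ) + 1) ^ (2 * m + 2))) +
        6 * A * Ex ρ (en U j φ) + 3 * lam ^ 2 * (2 * (K1 * Ex ρ (en ∅ j φ)) +
          2 * Mm * (K2 * ES + Mm * K3))) := by
    have h1 : Ex ρ (en (insert b U) j φ) =
        ∑ q ∈ fr L W (fun _ => j), Ex ρ (fun ω => Fh (insert b U) φ q ω ^ 2) := by
      rw [← Ex_sum]
      rfl
    rw [h1]
    have h2 : ∀ q ∈ fr L W (fun _ => j), Ex ρ (fun ω => Fh (insert b U) φ q ω ^ 2) ≤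
        2 * ∑ t ∈ range L, Ex ρ (fun ω => Φ q t ω ^ 2) +
        2 * (2 * δ * (B ^ 2 * ((L : ℝ) + 1) ^ (2 * m + 2)) +
        6 * A * ∑ t ∈ range L, Ex ρ (fun ω => Φ q t ω ^ 2) +
        3 * lam ^ 2 * (2 * Ex ρ (fun ω => nr U b j u φ q ω ^ 2) +
          2 * Mm * ∑ T ∈ E, ∑ κ ∈ Sc L T,
            Ex ρ (fun ω => g j ω * XT U b j u φ T κ q ω ^ 2))) := by
      intro q hq
      have := hq1 q
      have := hq2 q hq
      linarith
    refine (sum_le_sum h2).trans ?_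
    simp only [sum_add_distrib, ← mul_sum, sum_const, nsmul_eq_mul]
    rw [hS1]
    have h3 : ((fr L W (fun _ => j)).card : ℝ) * (2 * δ * (B ^ 2 * ((L : ℝ) + 1) ^ (2 * m + 2))) ≤
        ((L : ℝ) + 1) ^ m * (2 * δ * (B ^ 2 * ((L : ℝ) + 1) ^ (2 * m + 2))) :=
      mul_le_mul_of_nonneg_right hcardq (by positivity)
    have h4 : 3 * lam ^ 2 * (2 * ∑ q ∈ fr L W (fun _ => j), Ex ρ (fun ω => nr U b j u φ q ω ^ 2) +
        2 * Mm * ∑ q ∈ fr L W (fun _ => j), ∑ T ∈ E, ∑ κ ∈ Sc L T,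
          Ex ρ (fun ω => g j ω * XT U b j u φ T κ q ω ^ 2)) ≤
        3 * lam ^ 2 * (2 * (K1 * Ex ρ (en ∅ j φ)) + 2 * Mm * (K2 * ES + Mm * K3)) := by
      refine mul_le_mul_of_nonneg_left ?_ (by positivity)
      have h5 := mul_le_mul_of_nonneg_left hS3 (by positivity : (0 : ℝ) ≤ 2 * Mm)
      linarith
    linarith
  -- back to the full tilt
  rw [← hex _ (en_ms (insert_subset hbI hU) hφm j), ← hex _ (en_ms hU hφm j),
    ← hex _ (en_ms (empty_subset _) hφm j)]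
  have hES2 : ∑ T ∈ E, ∑ κ ∈ Sc L T, ∑ α ∈ Lb L T, Ex (qq θ) (en U j (cL T κ α φ)) = ES :=
    sum_congr rfl fun T _ => sum_congr rfl fun κ _ => sum_congr rfl fun α _ =>
      (hex _ (en_ms hU (cL_ms hφm T κ α) j)).symm
  rw [hES2]
  -- numbers
  have hEU : 0 ≤ Ex ρ (en U j φ) := Ex_nonneg hl' fun ω => sum_nonneg fun _ _ => sq_nonneg _
  have hE0 : 0 ≤ Ex ρ (en ∅ j φ) := Ex_nonneg hl' fun ω => sum_nonneg fun _ _ => sq_nonneg _
  have hES0 : 0 ≤ ES := sum_nonneg fun _ _ => sum_nonneg fun _ _ => sum_nonneg fun _ _ =>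
    Ex_nonneg hl' fun ω => sum_nonneg fun _ _ => sq_nonneg _
  refine htot.trans ?_
  exact fin_num hk hβ hδ hC1 hA0 hA3 hA4 hEU hE0 hES0

end Pool.Agent.SHD
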