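import Pool.Agent.Lib.MP_a7b2aa_an.SHD.Stmts4_25
import Pool.Agent.Lib.MP_a7b2aa_an.SBD.Bess46

/-!
SHD4, module TOPX (helper42): the coupled cross terms, top digit in the string `c` (from VISY).
-/

set_option autoImplicit false

namespace Pool.Agent.SHD

open Finset Pool.Agent.SB3 Pool.Agent.SBT Pool.Agent.SBD

namespace X42

/-- indicator of the right block -/
noncomputable def ind (k x y : ℕ) : ℝ := if (x + 1) * 2 ^ k ≤ y ∧ y < (x + 2) * 2 ^ k then 1 else 0

theorem ind_nonneg (k x y : ℕ) : 0 ≤ ind k x y := by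
  unfold ind
  split_ifs <;> norm_num

theorem div_eq {k x y : ℕ} (h : (x + 1) * 2 ^ k ≤ y ∧ y < (x + 2) * 2 ^ k) :
    y / 2 ^ k = x + 1 := by
  rw [Nat.div_eq_iff (by positivity)]
  constructor
  · exact h.1
  · have := h.2
    have h3 : (x + 2) * 2 ^ k = (x + 1) * 2 ^ k + 2 ^ k := by ring
    omega

theorem sum_ind_le (k y : ℕ) (S : Finset ℕ) : ∑ x ∈ S, ind k x y ≤ 1 := by
  unfold ind
  rw [← sum_filter, sum_const, nsmul_eq_mul, mul_one]
  have : (S.filter (fun x => (x + 1) * 2 ^ k ≤ y ∧ y < (x + 2) * 2 ^ k)).card ≤ 1 := by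
    rw [card_le_one]
    intro a ha b hb
    rw [mem_filter] at ha hb
    have h1 := div_eq ha.2
    have h2 := div_eq hb.2
    omega
  exact_mod_cast this

theorem len_eq (L k x : ℕ) :
    ((min L ((x + 2) * 2 ^ k) - (x + 1) * 2 ^ k : ℕ) : ℝ) = ∑ y ∈ range L, ind k x y := by
  unfold ind
  rw [← sum_filter, sum_const, nsmul_eq_mul, mul_one]
  congr 1
  have : (range L).filter (fun y => (x + 1) * 2 ^ k ≤ y ∧ y < (x + 2) * 2 ^ k) =
      Finset.Ico ((x + 1) * 2 ^ k) (min L ((x + 2) * 2 ^ k)) := by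
    ext y
    rw [mem_filter, mem_range, mem_Ico, lt_min_iff]
    tauto
  rw [this, Nat.card_Ico]

theorem sum_len_le (L k : ℕ) (S : Finset ℕ) :
    ∑ x ∈ S, ((min L ((x + 2) * 2 ^ k) - (x + 1) * 2 ^ k : ℕ) : ℝ) ≤ L := by
  simp_rw [len_eq]
  rw [sum_comm]
  refine (sum_le_sum fun y _ => sum_ind_le k y S).trans ?_
  simp

variable {m L : ℕ}

/-- the sum of the weights of the blocks which contain `t` in the direction `c` -/
theorem sum_weights (T : Finset (Fin (m + 1))) (κ : Fin (m + 1) → ℕ) {c : Fin (m + 1)}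
    (hc : c ∈ T) (t : ℕ) :
    ∑ α ∈ Lb L T, ind (κ c) (α c) t *
      ∏ e ∈ T.erase c, ((hiR L T κ α e - loR T κ α e : ℕ) : ℝ) ≤ (L : ℝ) ^ (T.erase c).card := by
  classical
  set f : Fin (m + 1) → ℕ → ℝ := fun e x =>
    if e = c then ind (κ c) x t else if e ∈ T then
      ((min L ((x + 2) * 2 ^ κ e) - (x + 1) * 2 ^ κ e : ℕ) : ℝ) else 1 with hf
  have h1 : ∀ α ∈ Lb L T, ind (κ c) (α c) t *
      ∏ e ∈ T.erase c, ((hiR L T κ α e - loR T κ α e : ℕ) : ℝ) = ∏ e, f e (α e) := by
    intro α _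
    rw [← mul_prod_erase univ (fun e => f e (α e)) (mem_univ c)]
    have e1 : f c (α c) = ind (κ c) (α c) t := by simp [hf]
    rw [e1]
    congr 1
    rw [← prod_subset (s₁ := T.erase c) (s₂ := univ.erase c) (erase_subset_erase c (subset_univ T))]
    · refine prod_congr rfl fun e he => ?_
      have h2 := ne_of_mem_erase he
      have h3 := mem_of_mem_erase he
      simp only [hf, if_neg h2, if_pos h3, hiR, loR]
    · intro e he he'
      have h2 := ne_of_mem_erase he
      have h3 : e ∉ T := fun h => he' (mem_erase.2 ⟨h2, h⟩)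
      simp only [hf, if_neg h2, if_neg h3]
  rw [sum_congr rfl h1]
  unfold Lb
  rw [← Finset.prod_univ_sum (fun e => if e ∈ T then (range L).filter (fun t => t % 2 = 0) else {0}) f]
  have h4 : ∀ e, ∑ x ∈ (if e ∈ T then (range L).filter (fun t => t % 2 = 0) else {0}), f e x ≤
      if e ∈ T.erase c then (L : ℝ) else 1 := by
    intro e
    by_cases h2 : e = c
    · subst h2
      simp only [hf, if_pos rfl, hc, if_true, mem_erase, ne_eq, not_true_eq_false, false_and,
        if_false]
      exact sum_ind_le _ _ _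
    · by_cases h3 : e ∈ T
      · simp only [hf, if_neg h2, mem_erase, ne_eq, h2, not_false_eq_true, h3, and_self,
          if_true]
        exact sum_len_le _ _ _
      · simp only [hf, if_neg h2, mem_erase, h3, and_false, if_false]
        simp
  refine (prod_le_prod (fun e _ => ?_) fun e _ => h4 e).trans ?_
  · refine sum_nonneg fun x _ => ?_
    simp only [hf]
    split_ifs
    · exact ind_nonneg _ _ _
    · positivity
    · norm_num
  · rw [prod_ite_mem, univ_inter, prod_const]

/-- `XX` by the last sign of the string `a` -/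
theorem XX_Bm {v : (Fin (m + 1) → ℕ) → Pt m L → ℝ} {a : Fin (m + 1)} (ha : a ∈ Inn m) (i : ℕ)
    (ω : Pt m L) : XX v i ω = ∑ t ∈ range L, sb a t ω * Bm a v i t ω := by
  unfold XX Bm
  rw [Bess46.sum_fr_erase ha]
  refine sum_congr rfl fun t _ => ?_
  rw [mul_sum]
  refine sum_congr rfl fun r hr => ?_
  have h3 : r a = t := by
    have := (Bess46.mem_fr.1 hr).2 a (notMem_erase a _)
    rwa [Function.update_self] at this
  have h4 : ps (Inn m) r ω = sb a t ω * ps ((Inn m).erase a) r ω := by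
    rw [← h3, ← SBD.ps_insert (notMem_erase a _), insert_erase ha]
  rw [h4]
  ring

theorem Bm_ms {v : (Fin (m + 1) → ℕ) → Pt m L → ℝ} (hv : ∀ q, Ms q (v q))
    (lo hi : Fin (m + 1) → ℕ) (a : Fin (m + 1)) (i t : ℕ) :
    Ms (one L a t) (Bm a (cut lo hi v) i t) := by
  unfold Bm
  refine Ms.sum _ fun r hr => ?_
  have h3 : r a = t := by
    have := (Bess46.mem_fr.1 hr).2 a (notMem_erase a _)
    rwa [Function.update_self] at this
  refine Ms.comp2 (Ms_ps_one (notMem_erase a _) r t) ?_ (fun x y => x * y)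
  unfold cut
  split_ifs
  · exact (hv r).one a t h3.le
  · exact Ms.cst _ _

theorem Bm_zero {v : (Fin (m + 1) → ℕ) → Pt m L → ℝ} {lo hi : Fin (m + 1) → ℕ}
    {a : Fin (m + 1)} {i t : ℕ} (h : ¬ (lo a ≤ t ∧ t < hi a)) (ω : Pt m L) :
    Bm a (cut lo hi v) i t ω = 0 := by
  unfold Bm
  refine sum_eq_zero fun r hr => ?_
  have h3 : r a = t := by
    have := (Bess46.mem_fr.1 hr).2 a (notMem_erase a _)
    rwa [Function.update_self] at this
  have : cut lo hi v r ω = 0 := by
    unfold cut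
    rw [if_neg]
    intro h4
    have := h4 a
    rw [h3] at this
    exact h this
  rw [this, mul_zero]

theorem XX_ms {v : (Fin (m + 1) → ℕ) → Pt m L → ℝ} (hv : ∀ q, Ms q (v q))
    (lo hi : Fin (m + 1) → ℕ) (a : Fin (m + 1)) (i t : ℕ) (ht : hi a ≤ t) :
    Ms (one L a t) (XX (cut lo hi v) i) := by
  unfold XX
  refine Ms.sum _ fun r _ => ?_
  by_cases h : ∀ b, lo b ≤ r b ∧ r b < hi b
  · have hra : r a < t := lt_of_lt_of_le (h a).2 ht
    refine Ms.comp2 ?_ ?_ (fun x y => x * y)
    · unfold ps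
      refine Ms.prod _ fun b _ => ?_
      by_cases hb : b = a
      · subst hb
        refine Ms_sb ?_
        simpa [one] using hra
      · exact Ms_sb_one hb _ _
    · have hc : cut lo hi v r = v r := by
        funext ω
        unfold cut
        exact if_pos h
      rw [hc]
      exact (hv r).one a t hra.le
  · have : (fun ω => ps (Inn m) r ω * cut lo hi v r ω) = fun _ : Pt m L => (0 : ℝ) := by
      funext ω
      unfold cut
      rw [if_neg h, mul_zero]
    rw [this]
    exact Ms.cst _ _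

/-- one pair of blocks: the norm of the rows up to `j` -/
theorem block_norm {β : ℝ} {u : (Fin (m + 1) → ℕ) → Pt m L → ℝ} {j : ℕ} {ω : Pt m L}
    (hm : 1 ≤ m) (hj : j < L) (hN : Nt (fun _ => β) u j m ω) {T : Finset (Fin (m + 1))}
    (hT : T ⊆ Inn m) {c : Fin (m + 1)} (hc : c ∈ Inn m) (κ α : Fin (m + 1) → ℕ) (x : ℕ → ℝ) :
    ∑ t ∈ range L, (∑ i ∈ range (j + 1), Bm c (cR T κ α u) i t ω * x i) ^ 2 ≤
      β * (∏ e ∈ (Inn m).erase c, ((hiR L T κ α e - loR T κ α e : ℕ) : ℝ)) *
        ∑ i ∈ range (j + 1), x i ^ 2 := by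
  have hc0 : c ≠ 0 := by
    unfold Inn at hc
    exact ne_of_mem_erase hc
  have h0T : (0 : Fin (m + 1)) ∉ T := fun h => by
    have := hT h
    unfold Inn at this
    exact notMem_erase _ _ this
  set U : Finset (Fin (m + 1)) := (Inn m).erase c with hU
  have h0U : (0 : Fin (m + 1)) ∉ U := by
    intro h
    have h1 := mem_of_mem_erase h
    unfold Inn at h1
    exact notMem_erase _ _ h1
  have hcU : c ∉ U := notMem_erase _ _
  have hcard : U.card ≤ m := by
    rw [hU, card_erase_of_mem hc]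
    unfold Inn
    rw [card_erase_of_mem (mem_univ 0), card_univ, Fintype.card_fin]
    omega
  set hi' : Fin (m + 1) → ℕ := Function.update (hiR L T κ α) 0 (j + 1) with hhi
  have hAd : Ad L j U hi' := by
    refine ⟨fun a => ?_, fun h => absurd h h0U, fun _ => ?_⟩
    · by_cases ha : a = 0
      · subst ha
        rw [hhi, Function.update_self]
        omega
      · rw [hhi, Function.update_of_ne ha]
        unfold hiR
        split_ifs
        · exact min_le_left _ _
        · exact le_rfl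
    · rw [hhi, Function.update_self]
  have hNB := hN (loR T κ α) hi' U c 0 (fun _ => 0) hAd hc0 hcU h0U hcard
  have hbl : bl U (loR T κ α) hi' = ∏ e ∈ U, ((hiR L T κ α e - loR T κ α e : ℕ) : ℝ) := by
    unfold bl
    refine prod_congr rfl fun e he => ?_
    have he0 : e ≠ 0 := fun h => h0U (h ▸ he)
    rw [hhi, Function.update_of_ne he0]
  rw [hbl] at hNB
  have h2 := hNB (fun y : Fin L => if (y : ℕ) < j + 1 then x y else 0)
  have hM : ∀ (t : Fin L) (y : Fin L), Mg U c 0 (fun _ => 0) (cut (loR T κ α) hi' u) ω t y *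
      (if (y : ℕ) < j + 1 then x y else 0) =
      if (y : ℕ) < j + 1 then Bm c (cR T κ α u) y t ω * x y else 0 := by
    intro t y
    by_cases hy : (y : ℕ) < j + 1
    · rw [if_pos hy, if_pos hy]
      congr 1
      unfold Mg Bm cR
      rw [Matrix.of_apply, Bess46.fr_congr (L := L) (U := U)
        (q' := Function.update (fun _ => (y : ℕ)) c (t : ℕ))]
      · refine sum_congr rfl fun r hr => ?_
        congr 1
        have hr0 : r 0 = y := by
          have := (Bess46.mem_fr.1 hr).2 0 h0U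
          rwa [Function.update_of_ne (Ne.symm hc0)] at this
        unfold cut
        refine if_congr ?_ rfl rfl
        constructor
        · intro h a
          refine ⟨(h a).1, ?_⟩
          by_cases ha : a = 0
          · subst ha
            unfold hiR
            rw [if_neg h0T, hr0]
            exact y.2
          · have := (h a).2
            rwa [hhi, Function.update_of_ne ha] at this
        · intro h a
          refine ⟨(h a).1, ?_⟩
          by_cases ha : a = 0
          · subst ha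
            rw [hhi, Function.update_self, hr0]
            exact hy
          · rw [hhi, Function.update_of_ne ha]
            exact (h a).2
      · intro a ha
        by_cases ha0 : a = 0
        · subst ha0
          rw [Function.update_self, Function.update_of_ne (Ne.symm hc0)]
        · have hac : a = c := by
            by_contra h
            apply ha
            rw [hU]
            refine mem_erase.2 ⟨h, ?_⟩
            unfold Inn
            exact mem_erase.2 ⟨ha0, mem_univ a⟩
          subst hac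
          rw [Function.update_of_ne ha0, Function.update_self, Function.update_self]
    · rw [if_neg hy, if_neg hy, mul_zero]
  simp_rw [hM] at h2
  have hr : ∀ f : ℕ → ℝ, ∑ y : Fin L, (if (y : ℕ) < j + 1 then f y else 0) =
      ∑ i ∈ range (j + 1), f i := by
    intro f
    rw [← Finset.sum_range (fun y => if y < j + 1 then f y else 0), ← sum_filter]
    refine sum_congr ?_ fun _ _ => rfl
    ext i
    rw [mem_filter, mem_range, mem_range]
    omega
  have e1 : ∀ t : Fin L, ∑ y : Fin L, (if (y : ℕ) < j + 1 then Bm c (cR T κ α u) y t ω * x y else 0)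
      = ∑ i ∈ range (j + 1), Bm c (cR T κ α u) i t ω * x i :=
    fun t => hr (fun y => Bm c (cR T κ α u) y t ω * x y)
  have e2 : ∑ y : Fin L, (if (y : ℕ) < j + 1 then x y else 0) ^ 2 =
      ∑ i ∈ range (j + 1), x i ^ 2 := by
    rw [← hr (fun y => x y ^ 2)]
    refine sum_congr rfl fun y _ => ?_
    split_ifs <;> simp
  simp_rw [e1] at h2
  rw [e2] at h2
  rw [Finset.sum_range]
  exact h2

/-- all blocks of one scale -/
theorem all_blocks {β : ℝ} (hβ : 0 ≤ β) {u : (Fin (m + 1) → ℕ) → Pt m L → ℝ} {j : ℕ} {ω : Pt m L}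
    (hm : 1 ≤ m) (hj : j < L) (hN : Nt (fun _ => β) u j m ω) {T : Finset (Fin (m + 1))}
    (hT : T ⊆ Inn m) {c : Fin (m + 1)} (hc : c ∈ T) (κ : Fin (m + 1) → ℕ)
    (x : (Fin (m + 1) → ℕ) → ℕ → ℝ) :
    ∑ t ∈ range L, (∑ α ∈ Lb L T, ∑ i ∈ range (j + 1),
      Bm c (cR T κ α u) i t ω * x α i) ^ 2 ≤
      β * (L : ℝ) ^ (m - 1) * ∑ α ∈ Lb L T, ∑ i ∈ range (j + 1), x α i ^ 2 := by
  have hcI : c ∈ Inn m := hT hc
  have hLr : (0 : ℝ) ≤ L := Nat.cast_nonneg L
  set w : (Fin (m + 1) → ℕ) → ℝ := fun α =>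
    ∏ e ∈ T.erase c, ((hiR L T κ α e - loR T κ α e : ℕ) : ℝ) with hw
  have hw0 : ∀ α, 0 ≤ w α := fun α => prod_nonneg fun e _ => Nat.cast_nonneg _
  set Z : (Fin (m + 1) → ℕ) → ℕ → ℝ := fun α t =>
    ∑ i ∈ range (j + 1), Bm c (cR T κ α u) i t ω * x α i with hZ
  set D : ℝ := (L : ℝ) ^ (T.erase c).card with hD
  set s : ℕ := (m - 1) - (T.erase c).card with hs
  have hsub : T.erase c ⊆ (Inn m).erase c := erase_subset_erase c hT
  have hcard : ((Inn m).erase c).card = m - 1 := by
    rw [card_erase_of_mem hcI]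
    unfold Inn
    rw [card_erase_of_mem (mem_univ 0), card_univ, Fintype.card_fin]
    omega
  have hle : (T.erase c).card ≤ m - 1 := by
    rw [← hcard]
    exact card_le_card hsub
  have hP : ∀ α, ∏ e ∈ (Inn m).erase c, ((hiR L T κ α e - loR T κ α e : ℕ) : ℝ) =
      (L : ℝ) ^ s * w α := by
    intro α
    rw [← prod_sdiff hsub]
    congr 1
    rw [prod_congr rfl (g := fun _ => (L : ℝ)), prod_const, card_sdiff_of_subset hsub, hcard]
    intro e he
    rw [mem_sdiff] at he
    have h1 : e ∉ T := fun h => he.2 (mem_erase.2 ⟨ne_of_mem_erase he.1, h⟩)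
    unfold hiR loR
    rw [if_neg h1, if_neg h1, Nat.sub_zero]
  -- one block
  have hblock : ∀ α, ∑ t ∈ range L, Z α t ^ 2 ≤
      (β * (L : ℝ) ^ s * ∑ i ∈ range (j + 1), x α i ^ 2) * w α := by
    intro α
    have h := block_norm hm hj hN hT hcI κ α (x α)
    rw [hP α] at h
    refine h.trans (le_of_eq ?_)
    ring
  -- off the block
  have hoff : ∀ α t, t < L → ind (κ c) (α c) t = 0 → Z α t = 0 := by
    intro α t ht hi
    refine sum_eq_zero fun i _ => ?_
    unfold cR
    rw [Bm_zero, zero_mul]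
    unfold loR hiR
    rw [if_pos hc, if_pos hc]
    intro h
    rw [lt_min_iff] at h
    unfold ind at hi
    rw [if_pos ⟨h.1, h.2.2⟩] at hi
    exact one_ne_zero hi
  have hcs : ∀ t ∈ range L, (∑ α ∈ Lb L T, Z α t) ^ 2 ≤
      D * ∑ α ∈ Lb L T, Z α t ^ 2 / w α := by
    intro t ht
    have h1 : (∑ α ∈ Lb L T, Z α t) ^ 2 ≤
        (∑ α ∈ Lb L T, ind (κ c) (α c) t * w α) * ∑ α ∈ Lb L T, Z α t ^ 2 / w α := by
      refine sum_sq_le_sum_mul_sum_of_sq_le_mul _
        (fun α _ => mul_nonneg (ind_nonneg _ _ _) (hw0 α))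
        (fun α _ => div_nonneg (sq_nonneg _) (hw0 α)) fun α _ => le_of_eq ?_
      by_cases hi : ind (κ c) (α c) t = 0
      · rw [hi, hoff α t (mem_range.1 ht) hi]
        simp
      · have hi1 : ind (κ c) (α c) t = 1 := by
          unfold ind at hi ⊢
          split_ifs at hi ⊢ with h
          · rfl
          · exact absurd rfl hi
        rw [hi1, one_mul]
        by_cases hw1 : w α = 0
        · have h3 := hblock α
          rw [hw1, mul_zero] at h3
          have h4 : Z α t ^ 2 ≤ ∑ t ∈ range L, Z α t ^ 2 :=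
            single_le_sum (f := fun t => Z α t ^ 2) (fun _ _ => sq_nonneg _) ht
          have h5 : Z α t ^ 2 = 0 := le_antisymm (h4.trans h3) (sq_nonneg _)
          rw [h5, hw1]
          simp
        · field_simp
    refine h1.trans (mul_le_mul_of_nonneg_right (sum_weights T κ hc t)
      (sum_nonneg fun α _ => div_nonneg (sq_nonneg _) (hw0 α)))
  have hswap : ∑ t ∈ range L, ∑ α ∈ Lb L T, Z α t ^ 2 / w α =
      ∑ α ∈ Lb L T, (∑ t ∈ range L, Z α t ^ 2) / w α := by
    rw [sum_comm]
    refine sum_congr rfl fun α _ => ?_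
    rw [sum_div]
  calc ∑ t ∈ range L, (∑ α ∈ Lb L T, Z α t) ^ 2
      ≤ ∑ t ∈ range L, D * ∑ α ∈ Lb L T, Z α t ^ 2 / w α := sum_le_sum hcs
    _ = D * ∑ α ∈ Lb L T, (∑ t ∈ range L, Z α t ^ 2) / w α := by rw [← mul_sum, hswap]
    _ ≤ D * ∑ α ∈ Lb L T, β * (L : ℝ) ^ s * ∑ i ∈ range (j + 1), x α i ^ 2 := by
        refine mul_le_mul_of_nonneg_left (sum_le_sum fun α _ => ?_) (by positivity)
        exact div_le_of_le_mul₀ (hw0 α)
          (mul_nonneg (by positivity) (sum_nonneg fun _ _ => sq_nonneg _)) (hblock α)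
    _ = β * (L : ℝ) ^ (m - 1) * ∑ α ∈ Lb L T, ∑ i ∈ range (j + 1), x α i ^ 2 := by
        rw [← mul_sum]
        have : (L : ℝ) ^ (m - 1) = D * (L : ℝ) ^ s := by
          rw [hD, hs, ← pow_add]
          congr 1
          omega
        rw [this]
        ring

end X42

open X42

/-- TOPX -/
theorem topx_42 (hV : StVisy) : StTopx := by
  intro m hm
  refine ⟨4, by norm_num, ?_⟩
  intro L k β ρ g u v T κ c hL hk hβ hρ hg hu hv hN hT hcT hκ
  have hcI : c ∈ Inn m := hT hcT
  set Y : ℕ → ℕ → Pt m L → ℝ := fun j t ω =>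
    ∑ α ∈ Lb L T, Bm c (cR T κ α u) j t ω * XX (cL T κ α v) j ω with hY
  set W : Pt m L → ℝ := fun ω => (β * (L : ℝ) ^ (m - 1)) *
    ∑ i ∈ range L, ∑ α ∈ Lb L T, g i ω * XX (cL T κ α v) i ω ^ 2 with hW
  have hg0 : ∀ j ω, 0 ≤ g j ω := by
    intro j ω
    rcases hg.zo j ω with h | h <;> rw [h] <;> norm_num
  have hYms : ∀ j t, Ms (one L c t) (Y j t) := by
    intro j t
    refine Ms.sum _ fun α _ => ?_
    by_cases h : loR T κ α c ≤ t ∧ t < hiR L T κ α c
    · refine Ms.comp2 (Bm_ms hu _ _ c j t) (XX_ms hv _ _ c j t ?_) (fun x y => x * y)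
      refine le_trans ?_ h.1
      unfold hiL loR
      rw [if_pos hcT, if_pos hcT]
      exact min_le_right _ _
    · have : (fun ω => Bm c (cR T κ α u) j t ω * XX (cL T κ α v) j ω) =
          fun _ : Pt m L => (0 : ℝ) := by
        funext ω
        unfold cR
        rw [Bm_zero h, zero_mul]
      rw [this]
      exact Ms.cst _ _
  have hW0 : ∀ ω, 0 ≤ W ω := fun ω => mul_nonneg (by positivity)
    (sum_nonneg fun i _ => sum_nonneg fun α _ => mul_nonneg (hg0 i ω) (sq_nonneg _))
  have hb : ∀ j ω, j < L → g j ω = 1 →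
      ∑ t ∈ range L, (∑ i ∈ range (j + 1), Y i t ω) ^ 2 ≤ W ω := by
    intro j ω hj hgj
    have h1 := all_blocks hβ hm hj (hN j ω hj hgj) hT hcT κ (fun α i => XX (cL T κ α v) i ω)
    have e1 : ∀ t, ∑ i ∈ range (j + 1), Y i t ω = ∑ α ∈ Lb L T, ∑ i ∈ range (j + 1),
        Bm c (cR T κ α u) i t ω * XX (cL T κ α v) i ω := fun t => sum_comm
    simp_rw [e1]
    refine h1.trans (mul_le_mul_of_nonneg_left ?_ (by positivity))
    rw [sum_comm]
    have h2 : ∀ i ∈ range (j + 1), ∑ α ∈ Lb L T, XX (cL T κ α v) i ω ^ 2 =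
        ∑ α ∈ Lb L T, g i ω * XX (cL T κ α v) i ω ^ 2 := by
      intro i hi
      have : g i ω = 1 := hg.anti i j ω (by have := mem_range.1 hi; omega) hgj
      rw [this]
      simp
    rw [sum_congr rfl h2]
    refine sum_le_sum_of_subset_of_nonneg ?_ fun i _ _ =>
      sum_nonneg fun α _ => mul_nonneg (hg0 i ω) (sq_nonneg _)
    intro i hi
    have := mem_range.1 hi
    exact mem_range.2 (by omega)
  have h := hV m L k ρ W c g Y hρ hg hYms hW0 hb
  have eL : ∑ j ∈ range L, ∑ t ∈ range L, Ex ρ (fun ω => g j ω * (sb c t ω * Y j t ω)) =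
      ∑ j ∈ range L, ∑ α ∈ Lb L T, Ex ρ (fun ω => g j ω *
        (XX (cR T κ α u) j ω * XX (cL T κ α v) j ω)) := by
    refine sum_congr rfl fun j _ => ?_
    rw [← Ex_sum, ← Ex_sum]
    congr 1
    funext ω
    have h1 : ∀ t, g j ω * (sb c t ω * Y j t ω) = ∑ α ∈ Lb L T,
        g j ω * ((sb c t ω * Bm c (cR T κ α u) j t ω) * XX (cL T κ α v) j ω) := by
      intro t
      rw [hY]
      simp only
      rw [mul_sum, mul_sum]
      exact sum_congr rfl fun α _ => by ring
    simp_rw [h1]
    rw [sum_comm]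
    refine sum_congr rfl fun α _ => ?_
    rw [XX_Bm hcI (v := cR T κ α u), sum_mul, mul_sum]
  have eR : Ex ρ W = (β * (L : ℝ) ^ (m - 1)) *
      ∑ j ∈ range L, ∑ α ∈ Lb L T, Ex ρ (fun ω => g j ω * XX (cL T κ α v) j ω ^ 2) := by
    rw [hW, Ex_smul, Ex_sum]
    congr 1
    refine sum_congr rfl fun j _ => ?_
    rw [Ex_sum]
  rw [eL, eR] at h
  refine h.trans (le_of_eq ?_)
  ring

end Pool.Agent.SHD
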