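import Pool.Agent.Lib.MP_a7b2aa_an.SHD.Coup25

/-!
SHD4, module TOPQ (helper25): the coupled part, top digit in the string `c`.
-/

set_option autoImplicit false

namespace Pool.Agent.SHD

open Finset Pool.Agent.SB3 Pool.Agent.SBT Pool.Agent.SBD

/-- the kernel -/
noncomputable def MM25 {m L : ℕ} (b c : Fin (m + 1)) (j : ℕ)
    (v : (Fin (m + 1) → ℕ) → Pt m L → ℝ) (y t : ℕ) (ω : Pt m L) : ℝ :=
  ∑ r ∈ fr L ((univ.erase b).erase c)
      (Function.update (Function.update (fun _ => 0) c y) b t),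
    ps ((univ.erase b).erase c) r ω * (if r 0 < j then v r ω else 0)

theorem MM_ms25 {m L : ℕ} {b c : Fin (m + 1)} (hbc : b ≠ c) (j : ℕ)
    {v : (Fin (m + 1) → ℕ) → Pt m L → ℝ} (hv : ∀ q, Ms q (v q)) (y t : ℕ) :
    Ms (one L c y) (MM25 b c j v y t) := by
  unfold MM25
  refine Ms.sum _ fun r hr => ?_
  have h4 : r c = y := by
    rw [mem_fr] at hr
    rw [hr.2 c (by simp), Function.update_of_ne (Ne.symm hbc), Function.update_self]
  refine Ms.comp2 (F := fun x y => x * y) (Ms_ps_one (by simp) _ _) ?_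
  by_cases h0 : r 0 < j
  · simpa only [if_pos h0] using (hv r).one c y h4.le
  · simpa only [if_neg h0] using Ms.cst _ (0 : ℝ)

/-- outside of the right block the kernel is `0` -/
theorem MM_zero25 {m L : ℕ} {b c : Fin (m + 1)} (hbc : b ≠ c) (j : ℕ)
    {lo hi : Fin (m + 1) → ℕ} {v : (Fin (m + 1) → ℕ) → Pt m L → ℝ} (y t : ℕ)
    (h : ¬ (lo c ≤ y ∧ y < hi c)) (ω : Pt m L) : MM25 b c j (cut lo hi v) y t ω = 0 := by
  unfold MM25
  refine sum_eq_zero fun r hr => ?_
  have h4 : r c = y := by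
    rw [mem_fr] at hr
    rw [hr.2 c (by simp), Function.update_of_ne (Ne.symm hbc), Function.update_self]
  rw [cut_zero25 c (by rw [h4]; exact h)]
  simp

/-- the norm of the kernel -/
theorem MM_nb25 {m L : ℕ} {b c : Fin (m + 1)} (hbc : b ≠ c) (hb0 : b ≠ 0) (hc0 : c ≠ 0) {j : ℕ}
    (hj : j ≤ L) {β : ℝ} (hβ : 0 ≤ β) {u : (Fin (m + 1) → ℕ) → Pt m L → ℝ} {ω : Pt m L}
    (hN : Nt (fun _ => β) u j m ω) {T : Finset (Fin (m + 1))} (hT : T ⊆ (Inn m).erase b)
    (κ α : Fin (m + 1) → ℕ) (F : ℕ → ℝ) :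
    ∑ y ∈ range L, (∑ t ∈ range L, F t * MM25 b c j (cR T κ α u) y t ω) ^ 2 ≤
      (β * (L : ℝ) ^ (m - 1 - (T.erase c).card)) * wt25 L T c κ α * ∑ t ∈ range L, F t ^ 2 := by
  set S : Finset (Fin (m + 1)) := (univ.erase b).erase c with hS
  set hi' : Fin (m + 1) → ℕ := Function.update (hiR L T κ α) 0 j with hhi'
  have h0T : (0 : Fin (m + 1)) ∉ T := fun h => by
    have := hT h
    simp [Inn] at this
  have hhiL : ∀ a, hiR L T κ α a ≤ L := by
    intro a
    unfold hiR
    split_ifs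
    · exact min_le_left _ _
    · exact le_rfl
  have hle : ∀ e, hi' e ≤ hiR L T κ α e := by
    intro e
    by_cases he : e = 0
    · subst he
      rw [hhi', Function.update_self]
      unfold hiR
      rw [if_neg h0T]
      exact hj
    · rw [hhi', Function.update_of_ne he]
  have h0S : (0 : Fin (m + 1)) ∈ S := by
    rw [hS]
    simp [Ne.symm hb0, Ne.symm hc0]
  have hcard : S.card = m - 1 := by
    rw [hS, card_erase_of_mem (by simp [Ne.symm hbc]), card_erase_of_mem (mem_univ b), card_univ,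
      Fintype.card_fin]
    omega
  have hAd : Ad L j S hi' := by
    refine ⟨fun a => (hle a).trans (hhiL a), fun _ => ?_, fun h => absurd h0S h⟩
    rw [hhi', Function.update_self]
  have h1 := hN (loR T κ α) hi' S c b (fun _ => 0) hAd (Ne.symm hbc) (by simp [hS])
    (by simp [hS]) (by rw [hcard]; omega) (fun t : Fin L => F t)
  have hTS : T.erase c ⊆ S := by
    intro e he
    rw [mem_erase] at he
    have := hT he.2
    rw [mem_erase] at this
    rw [hS, mem_erase, mem_erase]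
    exact ⟨he.1, this.1, mem_univ _⟩
  have h2 := blw25 (L := L) T S c κ α hi' hTS hle
  rw [hcard] at h2
  have h3 : ∀ y ∈ range L, ∑ t ∈ range L, F t * MM25 b c j (cR T κ α u) y t ω =
      ∑ t : Fin L, (∑ r ∈ fr L S (Function.update (Function.update (fun _ => 0) c y) b (t : ℕ)),
        ps S r ω * cut (loR T κ α) hi' u r ω) * F t := by
    intro y _
    rw [← Fin.sum_univ_eq_sum_range (fun t => F t * MM25 b c j (cR T κ α u) y t ω) L]
    refine sum_congr rfl fun t _ => ?_
    rw [mul_comm]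
    congr 1
    unfold MM25
    refine sum_congr rfl fun r _ => ?_
    congr 1
    unfold cR cut
    by_cases h0 : r 0 < j
    · rw [if_pos h0]
      have hiff : (∀ a, loR T κ α a ≤ r a ∧ r a < hiR L T κ α a) ↔
          (∀ a, loR T κ α a ≤ r a ∧ r a < hi' a) := by
        refine forall_congr' fun a => ?_
        by_cases ha : a = 0
        · subst ha
          rw [hhi', Function.update_self]
          unfold hiR
          rw [if_neg h0T]
          constructor
          · rintro ⟨h1, _⟩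
            exact ⟨h1, h0⟩
          · rintro ⟨h1, h2⟩
            exact ⟨h1, lt_of_lt_of_le h2 hj⟩
        · rw [hhi', Function.update_of_ne ha]
      by_cases hc : ∀ a, loR T κ α a ≤ r a ∧ r a < hiR L T κ α a
      · rw [if_pos hc, if_pos (hiff.1 hc)]
      · rw [if_neg hc, if_neg (fun h => hc (hiff.2 h))]
    · rw [if_neg h0, if_neg]
      intro h
      have := (h 0).2
      rw [hhi', Function.update_self] at this
      exact h0 this
  rw [sum_congr rfl fun y hy => by rw [h3 y hy]]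
  rw [← Fin.sum_univ_eq_sum_range (fun y => (∑ t : Fin L,
    (∑ r ∈ fr L S (Function.update (Function.update (fun _ => 0) c y) b (t : ℕ)),
        ps S r ω * cut (loR T κ α) hi' u r ω) * F t) ^ 2) L]
  rw [← Fin.sum_univ_eq_sum_range (fun t => F t ^ 2) L]
  have h5 : 0 ≤ ∑ t : Fin L, F t ^ 2 := sum_nonneg fun _ _ => sq_nonneg _
  refine le_trans h1 ?_
  refine mul_le_mul_of_nonneg_right ?_ h5
  calc β * bl S (loR T κ α) hi' ≤ β * ((L : ℝ) ^ (m - 1 - (T.erase c).card) * wt25 L T c κ α) :=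
        mul_le_mul_of_nonneg_left h2 hβ
    _ = _ := by ring

theorem card_Lb25 {m L : ℕ} (hL : 1 ≤ L) (T : Finset (Fin (m + 1))) :
    (Lb L T).card ≤ L ^ (m + 1) := by
  classical
  unfold Lb
  rw [Fintype.card_piFinset]
  refine (prod_le_prod' (g := fun _ => L) fun e _ => ?_).trans (le_of_eq ?_)
  · split_ifs
    · exact (card_filter_le _ _).trans (card_range L).le
    · simpa using hL
  · rw [prod_const, card_univ, Fintype.card_fin]

open Classical in
theorem topq_25 (hP : StPeelc) : StTopq := by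
  intro m hm
  refine ⟨5 * m + 8, fun n => ⟨16 * n + 12, by
    have : (0 : ℝ) ≤ n := Nat.cast_nonneg n
    linarith, ?_⟩⟩
  intro L j k β B ρ γ u φ T U κ b c hL hj hk hβ hB hρ hu hφ hφB hγ0 hγ1 hγN hb hU hbU hT hcT hκ
  have hb0 : b ≠ 0 := by simpa [Inn] using hb
  have hcT' := hT hcT
  have hbc : b ≠ c := fun h => by
    subst h
    simp at hcT'
  have hc0 : c ≠ 0 := by
    rw [mem_erase] at hcT'
    simpa [Inn] using hcT'.2
  have hjL : j ≤ L := hj.le
  have hL0 : (0 : ℝ) < L := by exact_mod_cast hL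
  have hLr : (1 : ℝ) ≤ L := by exact_mod_cast hL
  have hcard : (T.erase c).card ≤ m - 1 := by
    have h1 : T.card ≤ ((Inn m).erase b).card := card_le_card hT
    have h2 : ((Inn m).erase b).card = m - 1 := by
      rw [card_erase_of_mem hb]
      simp [Inn]
    rw [card_erase_of_mem hcT]
    omega
  -- the energy of one label
  set E : (Fin (m + 1) → ℕ) → (Fin (m + 1) → ℕ) → Pt m L → ℝ := fun q α ω =>
    ∑ t ∈ range L, Fh U (cL T κ α φ) (Function.update q b t) ω ^ 2 with hE
  set β1 : ℝ := β * (L : ℝ) ^ (m - 1 - (T.erase c).card) with hβ1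
  set Wt : ℝ := (L : ℝ) ^ (T.erase c).card with hWt
  have hβW : β1 * Wt = β * (L : ℝ) ^ (m - 1) := by
    rw [hβ1, hWt, mul_assoc, ← pow_add]
    congr 2
    omega
  have hβ1' : 0 ≤ β1 := by positivity
  set K : (Fin (m + 1) → ℕ) → ℕ → Pt m L → ℝ := fun q y ω =>
    ∑ α ∈ Lb L T, ∑ t ∈ range L, Fh U (cL T κ α φ) (Function.update q b t) ω *
      MM25 b c j (cR T κ α u) y t ω with hK
  set W : (Fin (m + 1) → ℕ) → ℕ → Pt m L → ℝ := fun q y ω =>
    β1 * Wt * ∑ α ∈ (Lb L T).filter (fun α => loR T κ α c = y), E q α ω with hW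
  -- left blocks end below the right blocks
  have hLR : ∀ α r ω, loR T κ α c ≤ r c → cL T κ α φ r ω = 0 := by
    intro α r ω h
    unfold cL
    refine cut_zero25 c (fun h' => ?_) ω
    have h1 := h'.2
    unfold hiL at h1
    rw [if_pos hcT] at h1
    unfold loR at h
    rw [if_pos hcT] at h
    have := lt_of_lt_of_le h1 (min_le_right _ _)
    omega
  have hmsF : ∀ α y q, loR T κ α c ≤ y → Ms (one L c y) (Fh U (cL T κ α φ) q) := by
    intro α y q hy
    refine Ms_Fh25 (fun r => Ms_cut25 (hφ r)) (fun r ω hr => hLR α r ω (hy.trans hr)) U q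
  have hKms : ∀ q y, Ms (one L c y) (K q y) := by
    intro q y
    simp only [hK]
    refine Ms.sum _ fun α _ => Ms.sum _ fun t _ => ?_
    by_cases hy : loR T κ α c ≤ y ∧ y < hiR L T κ α c
    · exact Ms.comp2 (F := fun x y => x * y) (hmsF α y _ hy.1)
        (MM_ms25 hbc j (fun r => Ms_cut25 (hu r)) y t)
    · have h3 : (fun ω => Fh U (cL T κ α φ) (Function.update q b t) ω *
          MM25 b c j (cR T κ α u) y t ω) = fun _ => (0 : ℝ) := by
        funext ω
        unfold cR
        rw [MM_zero25 hbc j y t hy, mul_zero]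
      rw [h3]
      exact Ms.cst _ _
  have hE0 : ∀ q α ω, 0 ≤ E q α ω := fun q α ω => sum_nonneg fun _ _ => sq_nonneg _
  have hWms : ∀ q y, Ms (one L c y) (W q y) := by
    intro q y
    simp only [hW]
    refine Ms.comp (F := fun x => β1 * Wt * x) ?_
    refine Ms.sum _ fun α hα => ?_
    rw [mem_filter] at hα
    simp only [hE]
    exact Ms.sum _ fun t _ => Ms.comp (F := fun x => x ^ 2) (hmsF α y _ hα.2.le)
  have hβWt : 0 ≤ β1 * Wt := by rw [hβW]; positivity
  have hW0 : ∀ q y ω, 0 ≤ W q y ω := fun q y ω =>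
    mul_nonneg hβWt (sum_nonneg fun α _ => hE0 q α ω)
  have hUm : U.card ≤ m := by
    have := card_le_card hU
    simpa [Inn] using this
  have hEB : ∀ q α ω, E q α ω ≤ L * ((L : ℝ) ^ m * B) ^ 2 := by
    intro q α ω
    simp only [hE]
    have h1 : ∀ t ∈ range L, Fh U (cL T κ α φ) (Function.update q b t) ω ^ 2 ≤
        ((L : ℝ) ^ m * B) ^ 2 := by
      intro t _
      rw [← sq_abs]
      refine pow_le_pow_left₀ (abs_nonneg _) ?_ 2
      refine (Fh_abs25 (cut_abs25 hB hφB) U _ ω).trans ?_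
      exact mul_le_mul_of_nonneg_right (pow_le_pow_right₀ hLr hUm) hB
    refine (sum_le_sum h1).trans (le_of_eq ?_)
    rw [sum_const, card_range, nsmul_eq_mul]
  set BW : ℝ := β * (L : ℝ) ^ (m - 1) * ((L : ℝ) ^ (m + 1) * (L * ((L : ℝ) ^ m * B) ^ 2)) with hBW
  have hWB : ∀ q y ω, W q y ω ≤ BW := by
    intro q y ω
    simp only [hW]
    rw [hβW, hBW]
    refine mul_le_mul_of_nonneg_left ?_ (by positivity)
    refine (sum_le_sum fun α _ => hEB q α ω).trans ?_
    rw [sum_const, nsmul_eq_mul]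
    refine mul_le_mul_of_nonneg_right ?_ (by positivity)
    have h1 : ((Lb L T).filter (fun α => loR T κ α c = y)).card ≤ L ^ (m + 1) :=
      (card_filter_le _ _).trans (card_Lb25 hL T)
    exact_mod_cast h1
  have hpart : ∀ q ω, γ ω ≠ 0 → ∀ y < L,
      ∑ s ∈ range (y + 1), K q s ω ^ 2 ≤ ∑ s ∈ range (y + 1), W q s ω := by
    intro q ω hγ y hy
    refine coup25 (Lb L T) (fun α => loR T κ α c) (fun α => hiR L T κ α c)
      (fun α => wt25 L T c κ α) (fun α => E q α ω)
      (fun α y => ∑ t ∈ range L, Fh U (cL T κ α φ) (Function.update q b t) ω *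
        MM25 b c j (cR T κ α u) y t ω) L y hy β1 Wt hβ1' (by positivity)
      (fun α _ => wt_nonneg25 L T c κ α) (fun α _ => hE0 q α ω) ?_ ?_ ?_
    · intro α _ y hy
      refine sum_eq_zero fun t _ => ?_
      unfold cR
      rw [MM_zero25 hbc j y t hy, mul_zero]
    · intro y _
      exact wsum25 T c hcT κ y
    · intro α _
      exact MM_nb25 hbc hb0 hc0 hjL hβ (hγN ω hγ) hT κ α _
  -- rewriting of the sum
  have hD : ∀ q ω, ∑ α ∈ Lb L T, ∑ t ∈ range L,
      Fh U (cL T κ α φ) (Function.update q b t) ω * uu b (cR T κ α u) j t ω =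
      ∑ y ∈ range L, sb c y ω * K q y ω := by
    intro q ω
    have e1 : ∀ α ∈ Lb L T, ∑ t ∈ range L,
        Fh U (cL T κ α φ) (Function.update q b t) ω * uu b (cR T κ α u) j t ω =
        ∑ y ∈ range L, sb c y ω * ∑ t ∈ range L,
          Fh U (cL T κ α φ) (Function.update q b t) ω * MM25 b c j (cR T κ α u) y t ω := by
      intro α _
      have e2 : ∀ t ∈ range L,
          Fh U (cL T κ α φ) (Function.update q b t) ω * uu b (cR T κ α u) j t ω =
          ∑ y ∈ range L, sb c y ω * (Fh U (cL T κ α φ) (Function.update q b t) ω *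
            MM25 b c j (cR T κ α u) y t ω) := by
        intro t _
        rw [uu_eq25 hb0 hbc _ hjL t ω, mul_sum]
        refine sum_congr rfl fun y _ => ?_
        unfold MM25
        ring
      rw [sum_congr rfl e2, sum_comm]
      refine sum_congr rfl fun y _ => ?_
      rw [mul_sum]
    rw [sum_congr rfl e1, sum_comm]
    refine sum_congr rfl fun y _ => ?_
    rw [hK, mul_sum]
  set O := fr L (Inn m \ insert b U) (fun _ => j) with hO
  have hmain : ∀ q ∈ O, Ex ρ (fun ω => γ ω * (∑ α ∈ Lb L T, ∑ t ∈ range L,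
      Fh U (cL T κ α φ) (Function.update q b t) ω * uu b (cR T κ α u) j t ω) ^ 2) ≤
      2 * (1 + (4 * k + 8 * n * Real.log (L + 1))) * ∑ t ∈ range L, Ex ρ (W q t) +
        2 * (L : ℝ) ^ 3 * BW / (L + 1) ^ n := by
    intro q _
    have h1 := hP m L n k BW ρ γ c (K q) (W q) (by linarith) hρ (hKms q) (hWms q)
      (fun t ω => hW0 q t ω) (fun t ω => hWB q t ω) hγ0 hγ1 (hpart q)
    refine le_trans (le_of_eq ?_) h1
    congr 1
    funext ω
    rw [hD q ω]
  have hlog : 0 ≤ Real.log ((L : ℝ) + 1) := Real.log_nonneg (by linarith)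
  refine (sum_le_sum hmain).trans ?_
  rw [sum_add_distrib, ← mul_sum]
  have hn0 : (0 : ℝ) ≤ n := Nat.cast_nonneg n
  -- the energies
  have hen : ∑ q ∈ O, ∑ t ∈ range L, Ex ρ (W q t) ≤
      β * (L : ℝ) ^ (m - 1) * ∑ α ∈ Lb L T, Ex ρ (en U j (cL T κ α φ)) := by
    have e1 : ∀ q ∈ O, ∑ t ∈ range L, Ex ρ (W q t) ≤
        β * (L : ℝ) ^ (m - 1) * ∑ α ∈ Lb L T, Ex ρ (E q α) := by
      intro q _
      have e2 : ∀ t ∈ range L, Ex ρ (W q t) =
          β * (L : ℝ) ^ (m - 1) * ∑ α ∈ (Lb L T).filter (fun α => loR T κ α c = t),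
            Ex ρ (E q α) := by
        intro t _
        simp only [hW]
        rw [Ex_smul, hβW, Ex_sum]
      rw [sum_congr rfl e2, ← mul_sum]
      refine mul_le_mul_of_nonneg_left ?_ (by positivity)
      have e3 : ∀ α ∈ Lb L T, 0 ≤ Ex ρ (E q α) := fun α _ => Ex_nonneg hρ fun ω => hE0 q α ω
      simp only [sum_filter]
      rw [sum_comm]
      refine sum_le_sum fun α hα => ?_
      rw [sum_ite_eq]
      split_ifs
      · exact le_rfl
      · exact e3 α hα
    refine (sum_le_sum e1).trans (le_of_eq ?_)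
    rw [← mul_sum, sum_comm]
    congr 1
    refine sum_congr rfl fun α _ => ?_
    rw [← Ex_sum]
    congr 1
    funext ω
    rw [en_eq25 hb hbU]
  have hcardO : (O.card : ℝ) ≤ (L : ℝ) ^ m := by
    rw [hO, card_fr]
    push_cast
    refine pow_le_pow_right₀ hLr ?_
    have : (Inn m \ insert b U).card ≤ (Inn m).card := card_le_card sdiff_subset
    simpa [Inn] using this
  have hneg : ∑ _q ∈ O, 2 * (L : ℝ) ^ 3 * BW / (L + 1) ^ n ≤
      (16 * n + 12) * β * B ^ 2 * ((L : ℝ) + 1) ^ (5 * m + 8) / (L + 1) ^ n := by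
    rw [sum_const, nsmul_eq_mul]
    have h1 : 0 ≤ BW := by positivity
    have h2 : (O.card : ℝ) * (2 * (L : ℝ) ^ 3 * BW) ≤
        (16 * n + 12) * β * B ^ 2 * ((L : ℝ) + 1) ^ (5 * m + 8) := by
      calc (O.card : ℝ) * (2 * (L : ℝ) ^ 3 * BW) ≤ (L : ℝ) ^ m * (2 * (L : ℝ) ^ 3 * BW) :=
            mul_le_mul_of_nonneg_right hcardO (by positivity)
        _ = 2 * β * B ^ 2 * (L : ℝ) ^ (m + 3 + (m - 1) + (m + 1) + 1 + m * 2) := by
            rw [hBW]
            ring
        _ ≤ 2 * β * B ^ 2 * ((L : ℝ) + 1) ^ (5 * m + 8) := by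
            refine mul_le_mul_of_nonneg_left ?_ (by positivity)
            have hL1 : (L : ℝ) ≤ (L : ℝ) + 1 := by linarith
            refine (pow_le_pow_left₀ hL0.le hL1 _).trans ?_
            exact pow_le_pow_right₀ (by linarith) (by omega)
        _ ≤ _ := by
            have h3 : 0 ≤ β * B ^ 2 * ((L : ℝ) + 1) ^ (5 * m + 8) := by positivity
            nlinarith
    calc (O.card : ℝ) * (2 * (L : ℝ) ^ 3 * BW / (L + 1) ^ n) =
          ((O.card : ℝ) * (2 * (L : ℝ) ^ 3 * BW)) / (L + 1) ^ n := by ring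
      _ ≤ _ := div_le_div_of_nonneg_right h2 (by positivity)
  refine add_le_add ?_ hneg
  have hs0 : 0 ≤ ∑ α ∈ Lb L T, Ex ρ (en U j (cL T κ α φ)) :=
    sum_nonneg fun α _ => Ex_nonneg hρ fun ω => sum_nonneg fun _ _ => sq_nonneg _
  calc 2 * (1 + (4 * k + 8 * n * Real.log (L + 1))) * ∑ q ∈ O, ∑ t ∈ range L, Ex ρ (W q t) ≤
        ((16 * n + 12) * (k + Real.log (L + 1))) *
          (β * (L : ℝ) ^ (m - 1) * ∑ α ∈ Lb L T, Ex ρ (en U j (cL T κ α φ))) := by
        refine mul_le_mul ?_ hen (sum_nonneg fun q _ => sum_nonneg fun t _ =>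
          Ex_nonneg hρ fun ω => hW0 q t ω) (by positivity)
        have : 0 ≤ (n : ℝ) * k := by positivity
        nlinarith
    _ = _ := by ring

end Pool.Agent.SHD
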