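import Pool.Agent.Lib.MP_a7b2aa_an.SHD.AllT65
import Pool.Agent.Lib.MP_a7b2aa_an.SHD.Cross46
import Pool.Agent.Lib.MP_a7b2aa_an.SHD.TopX42
import Pool.Agent.Lib.MP_a7b2aa_an.SHD.Neq70
import Pool.Agent.Lib.MP_a7b2aa_an.SHD.Qis25
import Pool.Agent.Lib.MP_a7b2aa_an.SHD.Qstep66
import Pool.Agent.Lib.MP_a7b2aa_an.SHD.Topq25
import Pool.Agent.Lib.MP_a7b2aa_an.SHD.Peelc25
import Pool.Agent.Lib.MP_a7b2aa_an.SHD.Dyab25
import Pool.Agent.Lib.MP_a7b2aa_an.SHD.Visy21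
import Pool.Agent.Lib.MP_a7b2aa_an.SHD.EntC74
import Pool.Agent.Lib.MP_a7b2aa_an.SHD.Endl25
import Pool.Agent.Lib.MP_a7b2aa_an.SHD.FinalL74
import Pool.Agent.Lib.MP_a7b2aa_an.SHD.NumK74
import Pool.Agent.Lib.MP_a7b2aa_an.SBD.Peel60

/-!
SHD4 (helper65): assembly of the theorem on the torus.
-/

set_option autoImplicit false

namespace Pool.Agent.SHD

open Pool.Agent.SBD

theorem visy_all65 : StVisy := visy_21 entc_74

theorem qis_all65 : StQis :=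
  qis_25 (qstep_66 (topq_25 (peelc_25 (peel_60 (alf_74 eeb_36) (tail_3 ent_3)))) dyab_25 triS_38
    nbt_21 qcu_21 hqu_30)

theorem cross_all65 : StCross :=
  cross_46 dyab_25 (topx_42 visy_all65) (neq_70 visy_all65) qis_all65

/-- the theorem on the torus, from band arrays -/
theorem finl_of65 (hB : StBandL) (m : ℕ) (ε : ℝ) (hm : 2 ≤ m) (hε : 0 < ε) :
    StFinL m ((m : ℝ) / 2 - 1 / 4 + ε) := by
  refine torus_74 numk_74 m (by omega) _ ?_ (endl_25 hB m ε hm hε)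
  have : (2 : ℝ) ≤ m := by exact_mod_cast hm
  linarith

end Pool.Agent.SHD
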