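import Pool.Agent.Lib.MP_a7b2aa_an.SHD.Stmts3_23
import Pool.Agent.Lib.MP_a7b2aa_an.SBD.OP60

/-!
SHD3, module TOPM (helper32): one more summed string, matrices (from FRV, MF4, TAIL, KMS, KB, CRUD,
SPLIT). Blueprint: SHD3_23b.md.
-/

set_option autoImplicit false

namespace Pool.Agent.SHD

open Finset Pool.Agent.SB3 Pool.Agent.SBT Pool.Agent.SBD

namespace TopM32

/-! ### probability -/

section pr

variable {m L : ℕ} {k : ℝ} {ρ : Pt m L → ℝ}

open Classical in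
theorem Pr_mono' (h : Law k ρ) {P Q : Pt m L → Prop} (hPQ : ∀ ω, ρ ω ≠ 0 → P ω → Q ω) :
    Pr ρ P ≤ Pr ρ Q := by
  unfold Pr Ex
  refine Av_mono fun ω => ?_
  by_cases h0 : ρ ω = 0
  · simp [h0]
  · refine mul_le_mul_of_nonneg_left ?_ (h.nonneg ω)
    by_cases hP : P ω
    · simp [hP, hPQ ω h0 hP]
    · by_cases hQ : Q ω <;> simp [hP, hQ]

open Classical in
theorem Pr_false : Pr ρ (fun _ => False) = 0 := by
  unfold Pr Ex Av
  simp

open Classical in
theorem Pr_exists_fin (h : Law k ρ) {ι : Type} (s : Finset ι) (P : ι → Pt m L → Prop) :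
    Pr ρ (fun ω => ∃ t ∈ s, P t ω) ≤ ∑ t ∈ s, Pr ρ (P t) := by
  induction s using Finset.induction_on with
  | empty =>
    rw [sum_empty]
    refine (Pr_mono h (Q := fun _ => False) ?_).trans (Pr_false).le
    rintro ω ⟨t, ht, _⟩
    simp at ht
  | insert a s ha ih =>
    rw [sum_insert ha]
    refine (Pr_mono h (Q := fun ω => P a ω ∨ ∃ t ∈ s, P t ω) ?_).trans
      ((Pr_or_le h _ _).trans (add_le_add le_rfl ih))
    rintro ω ⟨t, ht, hP⟩
    rcases mem_insert.1 ht with h1 | h1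
    · left
      rwa [← h1]
    · right
      exact ⟨t, h1, hP⟩

end pr

/-! ### norm bounds -/

section nb

variable {κ : Type} [Fintype κ]

/-- weighted sums, with a square function bound -/
theorem NB_cs {L : ℕ} (a : ℕ → ℝ) (A : ℕ → Matrix κ κ ℝ) {B K : ℝ}
    (hA : ∀ u : κ → ℝ, ∑ t ∈ range L, ∑ x, (∑ y, A t x y * u y) ^ 2 ≤ B * ∑ y, u y ^ 2)
    (hB : 0 ≤ B) (hK : ∑ t ∈ range L, a t ^ 2 ≤ K) :
    NB (∑ t ∈ range L, a t • A t) (K * B) := by
  intro u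
  have hU : 0 ≤ ∑ y, u y ^ 2 := sum_nonneg fun _ _ => sq_nonneg _
  have h1 : ∀ x : κ, (∑ y, (∑ t ∈ range L, a t • A t) x y * u y) ^ 2 ≤
      (∑ t ∈ range L, a t ^ 2) * ∑ t ∈ range L, (∑ y, A t x y * u y) ^ 2 := by
    intro x
    have e : ∑ y, (∑ t ∈ range L, a t • A t) x y * u y =
        ∑ t ∈ range L, a t * ∑ y, A t x y * u y := by
      have e1 : ∀ y, (∑ t ∈ range L, a t • A t) x y * u y =
          ∑ t ∈ range L, a t * (A t x y * u y) := by
        intro y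
        rw [Matrix.sum_apply, sum_mul]
        refine sum_congr rfl fun t _ => ?_
        rw [Matrix.smul_apply, smul_eq_mul]
        ring
      rw [sum_congr rfl fun y _ => e1 y, sum_comm]
      exact sum_congr rfl fun t _ => by rw [mul_sum]
    rw [e]
    exact sum_mul_sq_le_sq_mul_sq _ _ _
  have hK0 : 0 ≤ ∑ t ∈ range L, a t ^ 2 := sum_nonneg fun _ _ => sq_nonneg _
  calc ∑ x, (∑ y, (∑ t ∈ range L, a t • A t) x y * u y) ^ 2 ≤
      ∑ x, (∑ t ∈ range L, a t ^ 2) * ∑ t ∈ range L, (∑ y, A t x y * u y) ^ 2 :=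
        sum_le_sum fun x _ => h1 x
    _ = (∑ t ∈ range L, a t ^ 2) * ∑ t ∈ range L, ∑ x, (∑ y, A t x y * u y) ^ 2 := by
        rw [← mul_sum, sum_comm]
    _ ≤ (∑ t ∈ range L, a t ^ 2) * (B * ∑ y, u y ^ 2) := mul_le_mul_of_nonneg_left (hA u) hK0
    _ ≤ K * (B * ∑ y, u y ^ 2) := mul_le_mul_of_nonneg_right hK (mul_nonneg hB hU)
    _ = K * B * ∑ y, u y ^ 2 := by ring

/-- multiples -/
theorem NB_smul {A : Matrix κ κ ℝ} {b : ℝ} (h : NB A b) (c : ℝ) : NB (c • A) (c ^ 2 * b) := by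
  intro u
  have e : ∀ x, ∑ y, (c • A) x y * u y = c * ∑ y, A x y * u y := by
    intro x
    rw [mul_sum]
    refine sum_congr rfl fun y _ => ?_
    rw [Matrix.smul_apply, smul_eq_mul]
    ring
  simp_rw [e, mul_pow]
  rw [← mul_sum]
  have := mul_le_mul_of_nonneg_left (h u) (sq_nonneg c)
  linarith

/-- sums over a finite set -/
theorem NB_sum {ι : Type} (s : Finset ι) (A : ι → Matrix κ κ ℝ) {b : ℝ}
    (h : ∀ i ∈ s, NB (A i) b) : NB (∑ i ∈ s, A i) ((s.card : ℝ) ^ 2 * b) := by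
  intro u
  have e : ∀ x, ∑ y, (∑ i ∈ s, A i) x y * u y = ∑ i ∈ s, ∑ y, A i x y * u y := by
    intro x
    rw [sum_comm]
    refine sum_congr rfl fun y _ => ?_
    rw [Matrix.sum_apply, sum_mul]
  have h1 : ∀ x, (∑ y, (∑ i ∈ s, A i) x y * u y) ^ 2 ≤
      (s.card : ℝ) * ∑ i ∈ s, (∑ y, A i x y * u y) ^ 2 := by
    intro x
    rw [e x]
    exact sq_sum_le_card_mul_sum_sq
  calc ∑ x, (∑ y, (∑ i ∈ s, A i) x y * u y) ^ 2 ≤
      ∑ x, (s.card : ℝ) * ∑ i ∈ s, (∑ y, A i x y * u y) ^ 2 := sum_le_sum fun x _ => h1 x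
    _ = (s.card : ℝ) * ∑ i ∈ s, ∑ x, (∑ y, A i x y * u y) ^ 2 := by
        rw [← mul_sum, sum_comm]
    _ ≤ (s.card : ℝ) * ∑ i ∈ s, b * ∑ y, u y ^ 2 :=
        mul_le_mul_of_nonneg_left (sum_le_sum fun i hi => h i hi u) (Nat.cast_nonneg _)
    _ = (s.card : ℝ) ^ 2 * b * ∑ y, u y ^ 2 := by
        rw [sum_const, nsmul_eq_mul]
        ring

end nb

/-! ### logarithms -/

theorem lg_pow (p : ℕ) (ε : ℝ) (hε : 0 < ε) : ∃ C : ℝ, 1 ≤ C ∧ ∀ L : ℕ, 1 ≤ L →
    ((Nat.log 2 L : ℝ) + 1) ^ p ≤ C * (L : ℝ) ^ ε := by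
  set δ : ℝ := ε / (p + 1) with hδ
  have hp : (0 : ℝ) < p + 1 := by positivity
  have hδ0 : 0 < δ := by positivity
  set A : ℝ := 2 / δ + 1 with hA
  have hA1 : 1 ≤ A := by
    have : 0 ≤ 2 / δ := by positivity
    linarith
  refine ⟨A ^ p, one_le_pow₀ hA1, ?_⟩
  intro L hL
  have hLr : (1 : ℝ) ≤ L := by exact_mod_cast hL
  have hL0 : (0 : ℝ) ≤ L := by linarith
  have h1 : (Nat.log 2 L : ℝ) ≤ Real.logb 2 L := by
    have := Real.natLog_le_logb L 2
    exact_mod_cast this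
  have hlog2 : (1 : ℝ) / 2 ≤ Real.log 2 := by
    have := Real.log_two_gt_d9
    linarith
  have hlogL : 0 ≤ Real.log L := Real.log_nonneg hLr
  have h2 : Real.logb 2 L ≤ 2 * Real.log L := by
    unfold Real.logb
    rw [div_le_iff₀ (by linarith)]
    nlinarith
  have h3 : Real.log L ≤ (L : ℝ) ^ δ / δ := Real.log_le_rpow_div hL0 hδ0
  have h4 : (1 : ℝ) ≤ (L : ℝ) ^ δ := Real.one_le_rpow hLr hδ0.le
  have h5 : (Nat.log 2 L : ℝ) + 1 ≤ A * (L : ℝ) ^ δ := by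
    have : 2 * ((L : ℝ) ^ δ / δ) = 2 / δ * (L : ℝ) ^ δ := by ring
    rw [hA]
    nlinarith
  calc ((Nat.log 2 L : ℝ) + 1) ^ p ≤ (A * (L : ℝ) ^ δ) ^ p :=
        pow_le_pow_left₀ (by positivity) h5 p
    _ = A ^ p * (L : ℝ) ^ (δ * p) := by
        rw [mul_pow, ← Real.rpow_natCast ((L : ℝ) ^ δ) p, ← Real.rpow_mul hL0]
    _ ≤ A ^ p * (L : ℝ) ^ ε := by
        refine mul_le_mul_of_nonneg_left (Real.rpow_le_rpow_of_exponent_le hLr ?_) (by positivity)
        rw [hδ, div_mul_eq_mul_div, div_le_iff₀ hp]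
        nlinarith

theorem log_le_sqrt {L : ℕ} (hL : 1 ≤ L) : Real.log ((L : ℝ) + 1) ≤ 4 * Real.sqrt L := by
  have hLr : (1 : ℝ) ≤ L := by exact_mod_cast hL
  have hs : 1 ≤ Real.sqrt L := Real.one_le_sqrt.2 hLr
  have hsq : Real.sqrt L ^ 2 = L := Real.sq_sqrt (by linarith)
  have h1 : Real.log ((L : ℝ) + 1) ≤ Real.log ((2 * Real.sqrt L) ^ 2) := by
    refine Real.log_le_log (by linarith) ?_
    nlinarith
  rw [Real.log_pow] at h1
  have h2 : Real.log (2 * Real.sqrt L) ≤ 2 * Real.sqrt L - 1 :=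
    Real.log_le_sub_one_of_pos (by positivity)
  push_cast at h1
  linarith

/-! ### boxes -/

theorem bl_nonneg {m : ℕ} (U : Finset (Fin (m + 1))) (lo hi : Fin (m + 1) → ℕ) :
    0 ≤ bl U lo hi := by
  unfold bl
  exact prod_nonneg fun _ _ => Nat.cast_nonneg _

theorem bl_le {m L : ℕ} (U : Finset (Fin (m + 1))) {lo hi : Fin (m + 1) → ℕ} {p : ℕ}
    (hL : 1 ≤ L) (hhi : ∀ e, hi e ≤ L) (hp : U.card ≤ p) : bl U lo hi ≤ (L : ℝ) ^ p := by
  have hLr : (1 : ℝ) ≤ L := by exact_mod_cast hL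
  have h1 : bl U lo hi ≤ ∏ _e ∈ U, (L : ℝ) := by
    unfold bl
    refine prod_le_prod (fun _ _ => Nat.cast_nonneg _) fun e _ => ?_
    exact_mod_cast (Nat.sub_le _ _).trans (hhi e)
  rw [prod_const] at h1
  exact h1.trans (pow_le_pow_right₀ hLr hp)

theorem bl_erase {m : ℕ} {U : Finset (Fin (m + 1))} {b : Fin (m + 1)} (hb : b ∈ U)
    (lo hi : Fin (m + 1) → ℕ) :
    ((hi b - lo b : ℕ) : ℝ) * bl (U.erase b) lo hi = bl U lo hi := by
  unfold bl
  exact mul_prod_erase U (fun e => ((hi e - lo e : ℕ) : ℝ)) hb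

/-! ### the matrices -/

section mg

variable {m L : ℕ}

theorem upd3 {q : Fin (m + 1) → ℕ} {a b c : Fin (m + 1)} (hba : b ≠ a) (hbc : b ≠ c)
    (x y t : ℕ) : Function.update (Function.update (Function.update q a x) c y) b t =
      Function.update (Function.update (Function.update q b t) a x) c y := by
  rw [Function.update_comm hbc.symm, Function.update_comm hba.symm]

theorem mg_split {U : Finset (Fin (m + 1))} {a b c : Fin (m + 1)} (hb : b ∈ U) (ha : a ∉ U)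
    (hc : c ∉ U) (q : Fin (m + 1) → ℕ) (v : (Fin (m + 1) → ℕ) → Pt m L → ℝ) (ω : Pt m L) :
    Mg U a c q v ω =
      ∑ r ∈ range L, sb b r ω • Mg (U.erase b) a c (Function.update q b r) v ω := by
  have hba : b ≠ a := by
    rintro rfl
    exact ha hb
  have hbc : b ≠ c := by
    rintro rfl
    exact hc hb
  ext x y
  rw [Matrix.sum_apply]
  unfold Mg
  simp only [Matrix.of_apply, Matrix.smul_apply, smul_eq_mul]
  have hU : insert b (U.erase b) = U := insert_erase hb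
  conv_lhs => rw [← hU]
  rw [sum_fr_insert (notMem_erase b U)]
  refine sum_congr rfl fun t _ => ?_
  rw [mul_sum, upd3 hba hbc]
  refine sum_congr rfl fun r hr => ?_
  have hrb : r b = t := by
    rw [mem_fr] at hr
    rw [hr.2 b (notMem_erase b U), Function.update_of_ne hbc, Function.update_of_ne hba,
      Function.update_self]
  rw [ps_insert (notMem_erase b U), hrb, mul_assoc]

theorem cut_dep {lo hi : Fin (m + 1) → ℕ} {v : (Fin (m + 1) → ℕ) → Pt m L → ℝ}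
    {r : Fin (m + 1) → ℕ} (h : Ms r (v r)) : Ms r (cut lo hi v r) := by
  intro ω ω' hω
  unfold cut
  rw [h ω ω' hω]

theorem mg_ms {U : Finset (Fin (m + 1))} {a b c : Fin (m + 1)} (hbU : b ∉ U) (hba : b ≠ a)
    (hbc : b ≠ c) (q : Fin (m + 1) → ℕ) (v : (Fin (m + 1) → ℕ) → Pt m L → ℝ)
    (hv : ∀ r, Ms r (v r)) (t : ℕ) :
    Ms (one L b t) (Mg U a c (Function.update q b t) v) := by
  intro ω ω' hω
  ext x y
  unfold Mg
  simp only [Matrix.of_apply]
  refine sum_congr rfl fun r hr => ?_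
  have hrb : r b = t := by
    rw [mem_fr] at hr
    rw [hr.2 b hbU, Function.update_of_ne hbc, Function.update_of_ne hba,
      Function.update_self]
  rw [Ms_ps_one hbU r t ω ω' hω, (hv r).one b t hrb.le ω ω' hω]

theorem mg_zero {U : Finset (Fin (m + 1))} {a b c : Fin (m + 1)} (hbU : b ∉ U) (hba : b ≠ a)
    (hbc : b ≠ c) (q : Fin (m + 1) → ℕ) (v : (Fin (m + 1) → ℕ) → Pt m L → ℝ)
    {lo hi : Fin (m + 1) → ℕ} {t : ℕ} (ht : t < lo b ∨ hi b ≤ t) (ω : Pt m L) :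
    Mg U a c (Function.update q b t) (cut lo hi v) ω = 0 := by
  ext x y
  unfold Mg
  simp only [Matrix.of_apply, Matrix.zero_apply]
  refine sum_eq_zero fun r hr => ?_
  have hrb : r b = t := by
    rw [mem_fr] at hr
    rw [hr.2 b hbU, Function.update_of_ne hbc, Function.update_of_ne hba,
      Function.update_self]
  have : cut lo hi v r ω = 0 := by
    unfold cut
    rw [if_neg]
    intro h
    have := h b
    omega
  rw [this, mul_zero]

theorem kk_comm {T : Finset (Fin (m + 1))} {b s : Fin (m + 1)} {U : Finset (Fin (m + 1))}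
    {a c : Fin (m + 1)} (hac : a ≠ c) (q : Fin (m + 1) → ℕ)
    (v : (Fin (m + 1) → ℕ) → Pt m L → ℝ) (lo' hi' lo hi : Fin (m + 1) → ℕ) (u : ℕ) (ω : Pt m L)
    (x y : Fin L) : KK T b s U a c q v lo' hi' lo hi u ω x y =
      KK T b s U c a q v lo' hi' lo hi u ω y x := by
  unfold KK
  simp only [Matrix.of_apply]
  refine sum_congr rfl fun r _ => ?_
  rw [Function.update_comm hac]

/-- the drift of the fresh part -/
theorem drift_nb {U : Finset (Fin (m + 1))} {a b c : Fin (m + 1)} (hb : b ∈ U) (ha : a ∉ U)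
    (hc : c ∉ U) (q : Fin (m + 1) → ℕ) (v : (Fin (m + 1) → ℕ) → Pt m L → ℝ)
    (lo hi : Fin (m + 1) → ℕ) (ω : Pt m L) (d : ℕ → ℝ) {β η : ℝ} (hβ : 0 ≤ β)
    (h : ∀ q2 : Fin (m + 1) → ℕ, NB (Mg (U.erase b) a c q2 (cut lo hi v) ω)
      (β * bl (U.erase b) lo hi)) (hη : ∑ r ∈ range L, d r ^ 2 ≤ η) :
    NB (∑ r ∈ range L, d r • Mg (U.erase b) a c (Function.update q b r) (cut lo hi v) ω)
      (η * (β * bl U lo hi)) := by
  have hba : b ≠ a := by
    rintro rfl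
    exact ha hb
  have hbc : b ≠ c := by
    rintro rfl
    exact hc hb
  refine NB_cs d _ ?_ (mul_nonneg hβ (bl_nonneg _ _ _)) hη
  intro u
  have hu : 0 ≤ ∑ y, u y ^ 2 := sum_nonneg fun _ _ => sq_nonneg _
  have hb0 : 0 ≤ β * bl (U.erase b) lo hi * ∑ y, u y ^ 2 :=
    mul_nonneg (mul_nonneg hβ (bl_nonneg _ _ _)) hu
  have h1 : ∀ t ∈ range L, ∑ x, (∑ y, Mg (U.erase b) a c (Function.update q b t)
      (cut lo hi v) ω x y * u y) ^ 2 ≤
      if t ∈ Finset.Ico (lo b) (hi b) then β * bl (U.erase b) lo hi * ∑ y, u y ^ 2 else 0 := by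
    intro t _
    by_cases ht : t ∈ Finset.Ico (lo b) (hi b)
    · rw [if_pos ht]
      exact h _ u
    · rw [if_neg ht]
      have ht' : t < lo b ∨ hi b ≤ t := by
        rw [Finset.mem_Ico, not_and_or] at ht
        omega
      rw [mg_zero (notMem_erase b U) hba hbc q v ht' ω]
      simp
  refine (sum_le_sum h1).trans ?_
  rw [← sum_filter, sum_const, nsmul_eq_mul, ← bl_erase hb lo hi]
  have h2 : ((range L).filter (fun t => t ∈ Finset.Ico (lo b) (hi b))).card ≤ hi b - lo b := by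
    refine (card_le_card (t := Finset.Ico (lo b) (hi b)) fun t ht => ?_).trans (by simp)
    exact (mem_filter.1 ht).2
  have h3 : (((range L).filter (fun t => t ∈ Finset.Ico (lo b) (hi b))).card : ℝ) ≤
      ((hi b - lo b : ℕ) : ℝ) := by exact_mod_cast h2
  calc (((range L).filter (fun t => t ∈ Finset.Ico (lo b) (hi b))).card : ℝ) *
        (β * bl (U.erase b) lo hi * ∑ y, u y ^ 2) ≤
      ((hi b - lo b : ℕ) : ℝ) * (β * bl (U.erase b) lo hi * ∑ y, u y ^ 2) :=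
        mul_le_mul_of_nonneg_right h3 hb0
    _ = β * (((hi b - lo b : ℕ) : ℝ) * bl (U.erase b) lo hi) * ∑ y, u y ^ 2 := by ring

end mg

end TopM32

open TopM32

/-- module TOPM -/
theorem topm_32 (hFrv : StFrv) (hMf4 : StMf4) (hT : StTail) (hKms : StKms) (hKb : StKb)
    (hCr : StCrud) (hSp : StSplit) : StTopm := by
  classical
  intro m n ε hm hε
  obtain ⟨C1, hC1, hF⟩ := hFrv n ε hε
  obtain ⟨C2, hC2, hM⟩ := hMf4 n (ε / 2) (by positivity)
  obtain ⟨C3, hC3, hlg⟩ := lg_pow (2 * m) (ε / 2) (by positivity)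
  set P : ℝ := 2 ^ m with hP
  have hP1 : (1 : ℝ) ≤ P := one_le_pow₀ (by norm_num)
  -- the constant for one kernel
  set D : ℝ := 2 * (C2 + (4 + 32 * n)) * C3 with hD
  set E : ℝ := (2 : ℝ) ^ (2 * m + 2) with hE
  set C : ℝ := 2 * C1 + 4 + 8 * (P ^ 2 * D + E) + (C1 + P * (C2 + 1)) with hC
  have hD0 : 0 ≤ D := by positivity
  have hE0 : 0 ≤ E := by positivity
  refine ⟨C, ?_, ?_⟩
  · have h1 : 0 ≤ 8 * (P ^ 2 * D + E) := by positivity
    have h2 : 0 ≤ P * (C2 + 1) := by positivity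
    linarith
  intro L N R j κ lam β1 β2 η ρ v G b U a c q lo hi hL hjL hκ hlam hβ1 hβ2 hη hρ hv hbU hac haU hcU
    hhi hG1 hG2 hG3
  have hLr : (1 : ℝ) ≤ L := by exact_mod_cast hL
  have hL0 : (0 : ℝ) ≤ L := by linarith
  have hLe : (1 : ℝ) ≤ (L : ℝ) ^ ε := Real.one_le_rpow hLr hε.le
  have hLe2 : (1 : ℝ) ≤ (L : ℝ) ^ (ε / 2) := Real.one_le_rpow hLr (by positivity)
  have hLee : (L : ℝ) ^ (ε / 2) * (L : ℝ) ^ (ε / 2) = (L : ℝ) ^ ε := by
    rw [← Real.rpow_add (by linarith)]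
    congr 1
    ring
  have hs1 : 1 ≤ Real.sqrt L := Real.one_le_sqrt.2 hLr
  have hβ10 : 0 ≤ β1 := by linarith
  have hβ20 : 0 ≤ β2 := by linarith
  have hba : b ≠ a := by
    rintro rfl
    exact haU hbU
  have hbc : b ≠ c := by
    rintro rfl
    exact hcU hbU
  have hbE : b ∉ U.erase b := notMem_erase b U
  -- the choice of the top digit
  let s : Finset (Fin (m + 1)) → Fin (m + 1) := fun T => if h : T.Nonempty then h.choose else b
  have hs : ∀ T : Finset (Fin (m + 1)), T.Nonempty → s T ∈ T := by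
    intro T hT'
    simp only [s, hT', dif_pos]
    exact hT'.choose_spec
  set I : Finset (Finset (Fin (m + 1))) := (univ.erase b).powerset.erase ∅ with hI
  have hIm : ∀ T ∈ I, T.Nonempty ∧ b ∉ T ∧ s T ∈ T ∧ s T ≠ b ∧ T.card ≤ m := by
    intro T hTI
    rw [hI, mem_erase, mem_powerset] at hTI
    have h1 : T.Nonempty := nonempty_iff_ne_empty.2 hTI.1
    have h2 : b ∉ T := fun h => notMem_erase b univ (hTI.2 h)
    refine ⟨h1, h2, hs T h1, ?_, ?_⟩
    · rintro h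
      exact h2 (h ▸ hs T h1)
    · have := card_le_card hTI.2
      rw [card_erase_of_mem (mem_univ b), card_univ, Fintype.card_fin] at this
      omega
  have hIc : (I.card : ℝ) ≤ P := by
    have h1 : I.card ≤ 2 ^ m := by
      rw [hI]
      refine (card_erase_le).trans ?_
      rw [card_powerset, card_erase_of_mem (mem_univ b), card_univ, Fintype.card_fin]
      simp
    rw [hP]
    exact_mod_cast h1
  -- sizes
  have hblU : 0 ≤ bl U lo hi := bl_nonneg _ _ _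
  have hUc : U.card ≤ m - 1 := by
    have h1 : (insert a (insert c U)).card ≤ m + 1 := by
      refine (card_le_univ _).trans ?_
      simp
    rw [card_insert_of_notMem (by simp [hac, haU]), card_insert_of_notMem hcU] at h1
    omega
  have hblU2 : bl U lo hi ^ 2 ≤ (L : ℝ) ^ (m - 1) * bl U lo hi := by
    rw [sq]
    exact mul_le_mul_of_nonneg_right (bl_le U hL hhi hUc) hblU
  have hjb : ∀ e, jb (m := m) L j e ≤ L := by
    intro e
    unfold jb
    by_cases he : e = 0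
    · subst he
      simpa using hjL
    · rw [Function.update_of_ne he]
  set z : Fin (m + 1) → ℕ := fun _ => 0 with hz
  set KT : Finset (Fin (m + 1)) → ℕ → Pt m L → Matrix (Fin L) (Fin L) ℝ := fun T u ω =>
    KK T b (s T) U a c q v z (jb L j) lo hi u ω with hKT
  set BT : Finset (Fin (m + 1)) → ℝ := fun T => ((Nat.log 2 L : ℝ) + 1) ^ (2 * T.card) *
    (β2 * bl ((univ.erase b).erase (s T)) z (jb L j)) * (β1 * bl U lo hi) with hBT
  have hBT0 : ∀ T, 0 ≤ BT T := by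
    intro T
    simp only [hBT]
    have := bl_nonneg ((univ.erase b).erase (s T)) z (jb (m := m) L j)
    positivity
  have hBTle : ∀ T ∈ I, BT T ≤ C3 * (L : ℝ) ^ (ε / 2) * (β2 * (L : ℝ) ^ (m - 1)) *
      (β1 * bl U lo hi) := by
    intro T hTI
    obtain ⟨_, _, _, h4, h5⟩ := hIm T hTI
    have h6 : bl ((univ.erase b).erase (s T)) z (jb (m := m) L j) ≤ (L : ℝ) ^ (m - 1) := by
      refine bl_le _ hL hjb ?_
      rw [card_erase_of_mem (mem_erase.2 ⟨h4, mem_univ _⟩), card_erase_of_mem (mem_univ b),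
        card_univ, Fintype.card_fin]
      omega
    have h7 : ((Nat.log 2 L : ℝ) + 1) ^ (2 * T.card) ≤ C3 * (L : ℝ) ^ (ε / 2) := by
      refine le_trans (pow_le_pow_right₀ ?_ (by omega : 2 * T.card ≤ 2 * m)) (hlg L hL)
      have : (0 : ℝ) ≤ (Nat.log 2 L : ℝ) := Nat.cast_nonneg _
      linarith
    simp only [hBT]
    have h8 := bl_nonneg ((univ.erase b).erase (s T)) z (jb (m := m) L j)
    gcongr
  -- square functions
  have hsq1 : ∀ T ∈ I, ∀ ω, G ω → ∀ w : Fin L → ℝ,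
      ∑ t ∈ range L, ∑ x, (∑ y, KT T t ω x y * w y) ^ 2 ≤ BT T * ∑ y, w y ^ 2 := by
    intro T hTI ω hω w
    obtain ⟨_, h2, _, h4, _⟩ := hIm T hTI
    exact hKb m L β1 β2 T b (s T) U a c q v z (jb L j) lo hi ω hβ10 hβ20 hbU h4 hac haU hcU h2
      hjb hhi (fun lo2 hi2 q2 h => (hG1 ω hω lo2 hi2 q2 h).1)
      (fun lo2 hi2 h => hG2 ω hω (s T) lo2 hi2 h4 h) w
  have hsq2 : ∀ T ∈ I, ∀ ω, G ω → ∀ w : Fin L → ℝ,
      ∑ t ∈ range L, ∑ y, (∑ x, KT T t ω x y * w x) ^ 2 ≤ BT T * ∑ x, w x ^ 2 := by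
    intro T hTI ω hω w
    obtain ⟨_, h2, _, h4, _⟩ := hIm T hTI
    have := hKb m L β1 β2 T b (s T) U c a q v z (jb L j) lo hi ω hβ10 hβ20 hbU h4 hac.symm hcU haU h2
      hjb hhi (fun lo2 hi2 q2 h => (hG1 ω hω lo2 hi2 q2 h).2)
      (fun lo2 hi2 h => hG2 ω hω (s T) lo2 hi2 h4 h) w
    simp only [hKT, kk_comm hac]
    exact this
  -- the fresh part
  set V : ℕ → Pt m L → Matrix (Fin L) (Fin L) ℝ := fun t ω =>
    Mg (U.erase b) a c (Function.update q b t) (cut lo hi v) ω with hV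
  have hG1' : ∀ ω, G ω → ∀ q2 : Fin (m + 1) → ℕ, NB (Mg (U.erase b) a c q2 (cut lo hi v) ω)
      (β1 * bl (U.erase b) lo hi) := fun ω hω q2 => (hG1 ω hω lo hi q2 fun _ => le_rfl).1
  have hP0 := hF m L (lo b) (hi b) b V κ (β1 * bl (U.erase b) lo hi) ρ G hL hρ
    (mul_nonneg hβ10 (bl_nonneg _ _ _)) (hhi b)
    (fun t => mg_ms hbE hba hbc q (cut lo hi v) (fun r => cut_dep (hv.dep r)) t)
    (fun t ω ht => mg_zero hbE hba hbc q v ht ω) (fun ω hω t => hG1' ω hω _)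
  have hP1' : ∀ T ∈ I, Pr ρ (fun ω => G ω ∧ ¬ NB (∑ t ∈ range L,
      (sb (s T) t ω - al ρ (s T) t ω) • KT T t ω)
      (C2 * (L : ℝ) ^ (ε / 2) * Real.sqrt L * BT T)) ≤ C2 / (L + 1) ^ n := by
    intro T hTI
    obtain ⟨_, _, h3, h4, _⟩ := hIm T hTI
    exact hM m L (s T) (KT T) κ (BT T) ρ G hL hρ (hBT0 T)
      (fun t => (hKms m L N R T b (s T) U a c q v z (jb L j) lo hi 0 t hv h3 h4).1)
      (hsq1 T hTI) (hsq2 T hTI)
  have hP2 : ∀ T, Pr ρ (fun ω => 4 * κ + 8 * n * Real.log (L + 1) < A2 ρ (s T) ω) ≤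
      1 / (L + 1) ^ n := fun T => (hT m L κ ρ hρ).2 (s T) n
  -- the union of the exceptional sets
  refine (Pr_mono' hρ (Q := fun ω => (G ω ∧ ¬ NB (∑ t ∈ range L,
      (sb b t ω - al ρ b t ω) • V t ω) (C1 * (L : ℝ) ^ ε * ((hi b - lo b : ℕ) : ℝ) *
        (β1 * bl (U.erase b) lo hi))) ∨
      ∃ T ∈ I, (G ω ∧ ¬ NB (∑ t ∈ range L, (sb (s T) t ω - al ρ (s T) t ω) • KT T t ω)
        (C2 * (L : ℝ) ^ (ε / 2) * Real.sqrt L * BT T)) ∨
        4 * κ + 8 * n * Real.log (L + 1) < A2 ρ (s T) ω) ?_).trans ?_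
  swap
  · refine (Pr_or_le hρ _ _).trans ?_
    have h1 := Pr_exists_fin hρ I (fun T ω => (G ω ∧ ¬ NB (∑ t ∈ range L,
      (sb (s T) t ω - al ρ (s T) t ω) • KT T t ω)
        (C2 * (L : ℝ) ^ (ε / 2) * Real.sqrt L * BT T)) ∨
        4 * κ + 8 * n * Real.log (L + 1) < A2 ρ (s T) ω)
    have h2 : ∀ T ∈ I, Pr ρ (fun ω => (G ω ∧ ¬ NB (∑ t ∈ range L,
      (sb (s T) t ω - al ρ (s T) t ω) • KT T t ω)
        (C2 * (L : ℝ) ^ (ε / 2) * Real.sqrt L * BT T)) ∨
        4 * κ + 8 * n * Real.log (L + 1) < A2 ρ (s T) ω) ≤ (C2 + 1) / (L + 1) ^ n := by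
      intro T hTI
      refine (Pr_or_le hρ _ _).trans ?_
      have h3 := hP1' T hTI
      have h4 := hP2 T
      rw [add_div]
      linarith
    have h5 := h1.trans (sum_le_sum h2)
    rw [sum_const, nsmul_eq_mul] at h5
    have h6 : (I.card : ℝ) * ((C2 + 1) / (L + 1) ^ n) ≤ P * ((C2 + 1) / (L + 1) ^ n) :=
      mul_le_mul_of_nonneg_right hIc (by positivity)
    have h7 : C1 / ((L : ℝ) + 1) ^ n + P * ((C2 + 1) / (L + 1) ^ n) =
        (C1 + P * (C2 + 1)) / (L + 1) ^ n := by ring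
    have h8 : (C1 + P * (C2 + 1)) / ((L : ℝ) + 1) ^ n ≤ C / (L + 1) ^ n := by
      refine div_le_div_of_nonneg_right ?_ (by positivity)
      have h9 : 0 ≤ 2 * C1 + 4 + 8 * (P ^ 2 * D + E) := by positivity
      rw [hC]
      linarith
    linarith
  rintro ω hω0 ⟨hω, hbad⟩
  by_contra hcon
  rw [not_or] at hcon
  obtain ⟨hc0, hcT⟩ := hcon
  have hn0 : NB (∑ t ∈ range L, (sb b t ω - al ρ b t ω) • V t ω)
      (C1 * (L : ℝ) ^ ε * ((hi b - lo b : ℕ) : ℝ) * (β1 * bl (U.erase b) lo hi)) := by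
    by_contra h
    exact hc0 ⟨hω, h⟩
  have hnT : ∀ T ∈ I, NB (∑ t ∈ range L, (sb (s T) t ω - al ρ (s T) t ω) • KT T t ω)
      (C2 * (L : ℝ) ^ (ε / 2) * Real.sqrt L * BT T) ∧
      A2 ρ (s T) ω ≤ 4 * κ + 8 * n * Real.log (L + 1) := by
    intro T hTI
    constructor
    · by_contra h
      exact hcT ⟨T, hTI, Or.inl ⟨hω, h⟩⟩
    · by_contra h
      exact hcT ⟨T, hTI, Or.inr (not_le.1 h)⟩
  apply hbad
  -- the four parts
  have e1 : Mg U a c q (cut lo hi v) ω = ∑ t ∈ range L, (sb b t ω - al ρ b t ω) • V t ω +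
      (∑ t ∈ range L, (al ρ b t ω - lam * hq b v z (jb L j) t ω) • V t ω +
        lam • ∑ t ∈ range L, hq b v z (jb L j) t ω • V t ω) := by
    rw [mg_split hbU haU hcU q (cut lo hi v) ω, smul_sum, ← sum_add_distrib, ← sum_add_distrib]
    refine sum_congr rfl fun t _ => ?_
    rw [smul_smul, ← add_smul, ← add_smul]
    congr 1
    ring
  have hn1 : NB (∑ t ∈ range L, (al ρ b t ω - lam * hq b v z (jb L j) t ω) • V t ω)
      (η * (β1 * bl U lo hi)) :=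
    drift_nb hbU haU hcU q v lo hi ω _ hβ10 (hG1' ω hω) (hG3 ω hω hω0)
  have hsplit := (hSp m L b v z (jb L j) lo hi s ω hs).1 U a c q hbU hac haU hcU
  set W : ℝ := D * ((Real.sqrt L + κ) * (L : ℝ) ^ ε * (β2 * (L : ℝ) ^ (m - 1)) *
    (β1 * bl U lo hi)) with hW
  have hnT' : ∀ T ∈ I, NB ((-1 : ℝ) ^ (T.card + 1) • ∑ u ∈ range L, sb (s T) u ω • KT T u ω) W := by
    intro T hTI
    obtain ⟨h1, h2⟩ := hnT T hTI
    have h3 : NB (∑ t ∈ range L, al ρ (s T) t ω • KT T t ω)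
        ((4 * κ + 8 * n * Real.log (L + 1)) * BT T) :=
      NB_cs _ _ (hsq1 T hTI ω hω) (hBT0 T) h2
    have h4 : ∑ u ∈ range L, sb (s T) u ω • KT T u ω =
        ∑ t ∈ range L, (sb (s T) t ω - al ρ (s T) t ω) • KT T t ω +
          ∑ t ∈ range L, al ρ (s T) t ω • KT T t ω := by
      rw [← sum_add_distrib]
      refine sum_congr rfl fun t _ => ?_
      rw [← add_smul]
      congr 1
      ring
    have h5 := NB_smul (OP60.NB_add h1 h3) ((-1 : ℝ) ^ (T.card + 1))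
    rw [← h4] at h5
    refine OP60.NB_mono h5 ?_
    have h6 : ((-1 : ℝ) ^ (T.card + 1)) ^ 2 = 1 := by
      rw [← pow_mul, mul_comm, pow_mul]
      norm_num
    rw [h6, one_mul]
    have h7 := hBTle T hTI
    have h8 := hBT0 T
    have h9 := log_le_sqrt hL
    have hn' : (0 : ℝ) ≤ n := Nat.cast_nonneg n
    have h10 : 2 * (C2 * (L : ℝ) ^ (ε / 2) * Real.sqrt L * BT T +
        (4 * κ + 8 * n * Real.log (L + 1)) * BT T) ≤
        2 * (C2 + (4 + 32 * n)) * ((Real.sqrt L + κ) * (L : ℝ) ^ (ε / 2)) * BT T := by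
      have h11 : C2 * (L : ℝ) ^ (ε / 2) * Real.sqrt L + (4 * κ + 8 * n * Real.log (L + 1)) ≤
          (C2 + (4 + 32 * n)) * ((Real.sqrt L + κ) * (L : ℝ) ^ (ε / 2)) := by
        have hs0 : 0 ≤ Real.sqrt L + κ := by linarith
        have h17 : Real.sqrt L + κ ≤ (Real.sqrt L + κ) * (L : ℝ) ^ (ε / 2) :=
          le_mul_of_one_le_right hs0 hLe2
        have h12 : n * Real.log ((L : ℝ) + 1) ≤ n * (4 * Real.sqrt L) :=
          mul_le_mul_of_nonneg_left h9 hn'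
        have h13 : Real.sqrt L ≤ (Real.sqrt L + κ) * (L : ℝ) ^ (ε / 2) := by linarith
        have h14 : κ ≤ (Real.sqrt L + κ) * (L : ℝ) ^ (ε / 2) := by linarith
        have h15 : Real.sqrt L * (L : ℝ) ^ (ε / 2) ≤ (Real.sqrt L + κ) * (L : ℝ) ^ (ε / 2) :=
          mul_le_mul_of_nonneg_right (by linarith) (by positivity)
        have h18 := mul_le_mul_of_nonneg_left h15 (by linarith : (0 : ℝ) ≤ C2)
        have h19 := mul_le_mul_of_nonneg_left h13 hn'
        linarith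
      have := mul_le_mul_of_nonneg_right h11 h8
      linarith
    refine h10.trans ?_
    have h16 : 0 ≤ 2 * (C2 + (4 + 32 * n)) * ((Real.sqrt L + κ) * (L : ℝ) ^ (ε / 2)) := by
      positivity
    refine (mul_le_mul_of_nonneg_left h7 h16).trans (le_of_eq ?_)
    rw [hW, hD, ← hLee]
    ring
  have hn2 : NB (∑ T ∈ I, (-1 : ℝ) ^ (T.card + 1) • ∑ u ∈ range L, sb (s T) u ω • KT T u ω)
      (P ^ 2 * W) := by
    refine OP60.NB_mono (NB_sum I _ hnT') ?_
    have hW0 : 0 ≤ W := by positivity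
    exact mul_le_mul_of_nonneg_right (pow_le_pow_left₀ (Nat.cast_nonneg _) hIc 2) hW0
  have hn3 := (hCr m L N R b v z (jb L j) lo hi ω hv hhi).1 U a c q hbU hac haU hcU
  have hn4 : NB (K0 b U a c q v z (jb L j) lo hi ω)
      (E * ((R : ℝ) + 1) ^ (2 * m + 2) * ((L : ℝ) ^ (m - 1) * bl U lo hi)) := by
    refine OP60.NB_mono hn3 ?_
    have h1 : (2 * (R : ℝ) + 1) ^ (2 * m + 2) ≤ E * ((R : ℝ) + 1) ^ (2 * m + 2) := by
      rw [hE, ← mul_pow]
      refine pow_le_pow_left₀ (by positivity) ?_ _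
      linarith
    gcongr
  have hn5 := OP60.NB_add hn0 (OP60.NB_add hn1 (NB_smul (OP60.NB_add hn2 hn4) lam))
  rw [hsplit] at e1
  rw [e1]
  refine OP60.NB_mono hn5 ?_
  -- the arithmetic
  have hb1 : C1 * (L : ℝ) ^ ε * ((hi b - lo b : ℕ) : ℝ) * (β1 * bl (U.erase b) lo hi) =
      C1 * ((L : ℝ) ^ ε * (β1 * bl U lo hi)) := by
    rw [← bl_erase hbU lo hi]
    ring
  rw [hb1]
  have hl2 : 0 ≤ lam ^ 2 := sq_nonneg lam
  have hLm : 0 ≤ (L : ℝ) ^ (m - 1) := by positivity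
  set x1 : ℝ := (L : ℝ) ^ ε * (β1 * bl U lo hi) with hx1
  set x2 : ℝ := η * (β1 * bl U lo hi) with hx2
  set x3 : ℝ := lam ^ 2 * ((Real.sqrt L + κ) * (L : ℝ) ^ ε * (β2 * (L : ℝ) ^ (m - 1)) *
    (β1 * bl U lo hi)) with hx3
  set x4 : ℝ := lam ^ 2 * (((R : ℝ) + 1) ^ (2 * m + 2) * ((L : ℝ) ^ (m - 1) * bl U lo hi)) with hx4
  have hx10 : 0 ≤ x1 := by positivity
  have hx20 : 0 ≤ x2 := by positivity
  have hx30 : 0 ≤ x3 := by positivity
  have hx40 : 0 ≤ x4 := by positivity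
  have hx44 : x4 ≤ β1 * x4 := le_mul_of_one_le_left hx40 hβ1
  have hgoal : C * β1 * ((L : ℝ) ^ ε + η + lam ^ 2 * (L : ℝ) ^ (m - 1) *
      (β2 * (Real.sqrt L + κ) * (L : ℝ) ^ ε + ((R : ℝ) + 1) ^ (2 * m + 2))) * bl U lo hi =
      C * (x1 + x2 + x3 + β1 * x4) := by
    rw [hx1, hx2, hx3, hx4]
    ring
  rw [hgoal]
  have hleft : 2 * (C1 * x1 + 2 * (x2 + lam ^ 2 * (2 * (P ^ 2 * W + E * ((R : ℝ) + 1) ^ (2 * m + 2) *
      ((L : ℝ) ^ (m - 1) * bl U lo hi))))) =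
      2 * C1 * x1 + 4 * x2 + 8 * (P ^ 2 * D) * x3 + 8 * E * x4 := by
    rw [hW, hx3, hx4]
    ring
  rw [hleft]
  have hPD : 0 ≤ P ^ 2 * D := by positivity
  have hPC : 0 ≤ C1 + P * (C2 + 1) := by positivity
  have hC1' : 2 * C1 ≤ C := by
    rw [hC]
    linarith
  have hC2' : 4 ≤ C := by
    rw [hC]
    linarith
  have hC3' : 8 * (P ^ 2 * D) ≤ C := by
    rw [hC]
    linarith
  have hC4' : 8 * E ≤ C := by
    rw [hC]
    linarith
  have hC0 : 0 ≤ C := by linarith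
  have g1 := mul_le_mul_of_nonneg_right hC1' hx10
  have g2 := mul_le_mul_of_nonneg_right hC2' hx20
  have g3 := mul_le_mul_of_nonneg_right hC3' hx30
  have g4 := mul_le_mul_of_nonneg_right hC4' hx40
  have g5 := mul_le_mul_of_nonneg_left hx44 hC0
  linarith

end Pool.Agent.SHD
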