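import Pool.Agent.Lib.MP_a7b2aa_an.SHD.Stmts4_25
import Pool.Agent.Lib.MP_a7b2aa_an.SHD.TopM32

/-!
SHD4, module BANDL (helper32): band arrays (from TAME, UNIF, CROSS, PARS, TILTK).
Blueprint: SHD4_25b.md.
-/

set_option autoImplicit false

namespace Pool.Agent.SHD

open Finset Pool.Agent.SB3 Pool.Agent.SBT Pool.Agent.SBD

namespace BandL32

variable {m L : ℕ}

/-! ### the sign array -/

theorem sgn_abs (v : (Fin (m + 1) → ℕ) → Pt m L → ℝ) (q : Fin (m + 1) → ℕ) (ω : Pt m L) :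
    |sgn v q ω| ≤ 1 := by
  unfold sgn
  split_ifs <;> norm_num

theorem sgn_mul (v : (Fin (m + 1) → ℕ) → Pt m L → ℝ) (q : Fin (m + 1) → ℕ) (ω : Pt m L) :
    sgn v q ω * v q ω = |v q ω| := by
  unfold sgn
  split_ifs with h1 h2
  · rw [abs_of_pos h1, one_mul]
  · rw [abs_of_neg h2]
    ring
  · have : v q ω = 0 := le_antisymm (not_lt.1 h1) (not_lt.1 h2)
    rw [this]
    simp

theorem sgn_arf {N R : ℕ} {v : (Fin (m + 1) → ℕ) → Pt m L → ℝ} (h : ArF N R v) :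
    ArF N R (sgn v) := by
  refine ⟨fun q ω => sgn_abs v q ω, fun q ω ω' hω => ?_, fun q ω hq => ?_⟩
  · unfold sgn
    rw [h.dep q ω ω' hω]
  · unfold sgn
    rw [h.bd q ω hq]
    simp

/-! ### sums over all cells -/

theorem inn0 : (0 : Fin (m + 1)) ∉ Inn m := by
  unfold Inn
  exact notMem_erase _ _

theorem ins0 : insert (0 : Fin (m + 1)) (Inn m) = univ := by
  unfold Inn
  exact insert_erase (mem_univ _)

theorem All_sum {E : Type*} [AddCommMonoid E] (f : (Fin (m + 1) → ℕ) → E) :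
    ∑ q ∈ All m L, f q = ∑ j ∈ range L, ∑ p ∈ fr L (Inn m) (fun _ => j), f p := by
  unfold All
  rw [← ins0, sum_fr_insert inn0]
  refine sum_congr rfl fun t _ => ?_
  rw [fr_congr (q' := fun _ => t)]
  intro a ha
  have : a = 0 := by
    by_contra h
    apply ha
    unfold Inn
    exact mem_erase.2 ⟨h, mem_univ a⟩
  rw [this, Function.update_self]

theorem card_All : (All m L).card = L ^ (m + 1) := by
  unfold All
  rw [card_fr, card_univ, Fintype.card_fin]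

theorem mem_All {q : Fin (m + 1) → ℕ} : q ∈ All m L ↔ ∀ a, q a < L := by
  unfold All
  rw [mem_fr]
  simp

theorem XX_ms {v : (Fin (m + 1) → ℕ) → Pt m L → ℝ} (hv : ∀ q, Ms q (v q)) (i : ℕ) :
    Ms (one L 0 i) (XX v i) := by
  intro ω ω' hω
  unfold XX
  refine sum_congr rfl fun r hr => ?_
  have hr0 : r 0 = i := by
    rw [mem_fr] at hr
    exact hr.2 0 inn0
  rw [Ms_ps_one inn0 r i ω ω' hω, (hv r).one 0 i hr0.le ω ω' hω]

/-! ### the core -/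

section core

variable {N R : ℕ} {β k lam S δ : ℝ} {g : ℕ → Pt m L → ℝ} {v : (Fin (m + 1) → ℕ) → Pt m L → ℝ}

/-- duality: the tilt sees the function `HH v` -/
theorem dual (hTilt : StTiltK) (hv : ArF N R v) (hT : Tame β k lam S δ g (sgn v))
    (hH : ∀ ω, |HH v ω| ≤ 2) :
    lam * ∑ j ∈ range L, Ex (qq (tg lam g (sgn v)))
      (fun ω => g j ω * (XX (sgn v) j ω * XX v j ω)) ≤ 2 := by
  set Q := qq (tg lam g (sgn v)) with hQ
  have hlaw := hT.law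
  obtain ⟨_, _, h3, _⟩ := hTilt m L (tg lam g (sgn v)) hT.prd
  have h1 : Ex Q (HH v) = lam * ∑ j ∈ range L, Ex Q
      (fun ω => g j ω * (XX (sgn v) j ω * XX v j ω)) := by
    have e1 : HH v = fun ω => ∑ i ∈ range L, sb 0 i ω * XX v i ω := rfl
    rw [e1, Ex_sum, mul_sum]
    refine sum_congr rfl fun i hi => ?_
    rw [h3 i (mem_range.1 hi) (XX v i) (XX_ms hv.dep i), ← Ex_smul]
    congr 1
    funext ω
    unfold tg
    ring
  rw [← h1]
  refine (Ex_mono hlaw (ψ := fun _ => (2 : ℝ)) fun ω => ?_).trans (Ex_const hlaw 2).le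
  exact (le_abs_self _).trans (hH ω)

/-- the gate costs little -/
theorem gated (hv : ArF N R v) (hT : Tame β k lam S δ g (sgn v)) :
    ∑ q ∈ All m L, Ex (qq (tg lam g (sgn v))) (fun ω => |v q ω|) ≤
      ∑ j ∈ range L, ∑ p ∈ fr L (Inn m) (fun _ => j),
        Ex (qq (tg lam g (sgn v))) (fun ω => g j ω * (sgn v p ω * v p ω)) +
      (L : ℝ) ^ (m + 1) * δ := by
  classical
  set Q := qq (tg lam g (sgn v)) with hQ
  have hlaw := hT.law
  have h1 : ∀ j ∈ range L, ∀ p ∈ fr L (Inn m) (fun _ => j), Ex Q (fun ω => |v p ω|) ≤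
      Ex Q (fun ω => g j ω * (sgn v p ω * v p ω)) + δ := by
    intro j hj p _
    have hj' := mem_range.1 hj
    have h4 := hT.opn
    unfold Pr at h4
    have h2 : Ex Q (fun ω => |v p ω| - g j ω * (sgn v p ω * v p ω)) ≤ δ := by
      refine (Ex_mono hlaw fun ω => ?_).trans h4
      rw [sgn_mul]
      rcases hT.gate.zo j ω with h | h
      · rw [if_pos ⟨j, hj', h⟩, h, zero_mul, sub_zero]
        exact hv.abs p ω
      · rw [h, one_mul, sub_self]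
        split_ifs <;> norm_num
    rw [Ex_sub] at h2
    linarith
  rw [All_sum]
  have h3 : ∑ j ∈ range L, ∑ p ∈ fr L (Inn m) (fun _ => j), Ex Q (fun ω => |v p ω|) ≤
      ∑ j ∈ range L, ∑ p ∈ fr L (Inn m) (fun _ => j),
        (Ex Q (fun ω => g j ω * (sgn v p ω * v p ω)) + δ) :=
    sum_le_sum fun j hj => sum_le_sum fun p hp => h1 j hj p hp
  refine h3.trans (le_of_eq ?_)
  simp_rw [sum_add_distrib]
  congr 1
  rw [← All_sum (fun _ => δ), sum_const, card_All, nsmul_eq_mul]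
  push_cast
  ring

end core

/-! ### parameters -/

section param

variable {Y x Z CT : ℝ}

theorem par1 {m : ℕ} (hY : 1 ≤ Y) (hx : 1 ≤ x) (hZ : Z = Y ^ (2 * m + 5)) (hCT : 0 ≤ CT)
    (hK : 4 * CT ≤ Y) : CT * (1 + x) ^ 2 * Y ^ (4 * m + 8) ≤ (x * Z) ^ 2 := by
  have hY0 : 0 ≤ Y := by linarith
  have h1 : (1 + x) ^ 2 ≤ 4 * x ^ 2 := by nlinarith
  have h2 : 4 * CT ≤ Y ^ 2 := by nlinarith
  have h3 : Z ^ 2 = Y ^ 2 * Y ^ (4 * m + 8) := by
    rw [hZ]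
    ring
  have h4 : 0 ≤ Y ^ (4 * m + 8) := by positivity
  calc CT * (1 + x) ^ 2 * Y ^ (4 * m + 8) ≤ CT * (4 * x ^ 2) * Y ^ (4 * m + 8) := by gcongr
    _ = (4 * CT) * (x ^ 2 * Y ^ (4 * m + 8)) := by ring
    _ ≤ Y ^ 2 * (x ^ 2 * Y ^ (4 * m + 8)) := by gcongr
    _ = (x * Z) ^ 2 := by
        rw [mul_pow, h3]
        ring

theorem par2 {m : ℕ} {lgL : ℝ} (hY : 2 ≤ Y) (hx : 1 ≤ x) (hK : 4 * CT ≤ Y)
    (hlg : lgL ≤ Y) : CT * (1 + x) * Y ^ (m + 1) + lgL ≤ x * Y ^ (m + 2) := by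
  have hY0 : 0 ≤ Y := by linarith
  have h1 : CT * (1 + x) * Y ^ (m + 1) ≤ x * Y ^ (m + 2) / 2 := by
    have h2 : CT * (1 + x) ≤ Y / 2 * x := by nlinarith
    calc CT * (1 + x) * Y ^ (m + 1) ≤ Y / 2 * x * Y ^ (m + 1) := by gcongr
      _ = x * Y ^ (m + 2) / 2 := by ring
  have h3 : lgL ≤ x * Y ^ (m + 2) / 2 := by
    have h4 : 2 * Y ≤ Y ^ (m + 2) := by
      have h5 : Y ^ 2 ≤ Y ^ (m + 2) := pow_le_pow_right₀ (by linarith) (by omega)
      nlinarith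
    have h6 : Y ^ (m + 2) ≤ x * Y ^ (m + 2) := le_mul_of_one_le_left (by positivity) hx
    linarith
  linarith

end param

theorem log_le_lg (hL : 1 ≤ L) : Real.log ((L : ℝ) + 1) ≤ lg L := by
  unfold lg
  have h1 : L + 1 ≤ 2 ^ (Nat.log 2 L + 1) := Nat.lt_pow_succ_log_self (by norm_num) L
  have h2 : ((L : ℝ) + 1) ≤ 2 ^ (Nat.log 2 L + 1) := by exact_mod_cast h1
  have h3 : Real.log ((L : ℝ) + 1) ≤ Real.log (2 ^ (Nat.log 2 L + 1)) :=
    Real.log_le_log (by positivity) h2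
  rw [Real.log_pow] at h3
  have h4 : Real.log 2 ≤ 1 := by
    have := Real.log_two_lt_d9
    linarith
  push_cast at h3
  have h5 : (0 : ℝ) ≤ (Nat.log 2 L : ℝ) + 1 := by positivity
  nlinarith

theorem one_le_lg (L : ℕ) : 1 ≤ lg L := by
  unfold lg
  have : (0 : ℝ) ≤ (Nat.log 2 L : ℝ) := Nat.cast_nonneg _
  linarith

/-- the trivial bound -/
theorem triv {N R : ℕ} {v : (Fin (m + 1) → ℕ) → Pt m L → ℝ} (hv : ArF N R v) :
    ∑ q ∈ All m L, Av (fun ω => |v q ω|) ≤ (L : ℝ) ^ (m + 1) := by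
  have h1 : ∀ q ∈ All m L, Av (fun ω => |v q ω|) ≤ 1 := by
    intro q _
    have := Av_mono (φ := fun ω => |v q ω|) (ψ := fun _ : Pt m L => (1 : ℝ)) fun ω => hv.abs q ω
    rwa [Av_const] at this
  have h2 := sum_le_sum h1
  rw [sum_const, card_All, nsmul_eq_mul] at h2
  push_cast at h2
  linarith

/-- large `L`: all parameters are tame -/
theorem large (m : ℕ) (t K K0 : ℝ) (ht : 0 < t) (hK : 0 < K) (hK0 : 1 ≤ K0) : ∃ M : ℝ, 1 ≤ M ∧
    ∀ L : ℕ, 1 ≤ L → M ≤ (L : ℝ) ^ (t / 2) → K0 ≤ (L : ℝ) ^ t ∧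
      (K * Real.log (L + 1) + 2) ^ (2 * m + 2) ≤ (L : ℝ) ^ t ∧ lg L ^ (2 * m + 2) ≤ (L : ℝ) ^ t := by
  obtain ⟨C3, hC3, hlg⟩ := TopM32.lg_pow (2 * m + 2) (t / 2) (by positivity)
  set M : ℝ := K0 + (K + 2) ^ (2 * m + 2) * C3 with hM
  have hK2 : 1 ≤ (K + 2) ^ (2 * m + 2) := one_le_pow₀ (by linarith)
  have hM1 : 1 ≤ M := by
    have : 0 ≤ (K + 2) ^ (2 * m + 2) * C3 := by positivity
    linarith
  refine ⟨M, hM1, ?_⟩
  intro L hL hML
  have hLr : (1 : ℝ) ≤ L := by exact_mod_cast hL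
  have hY : (L : ℝ) ^ (t / 2) * (L : ℝ) ^ (t / 2) = (L : ℝ) ^ t := by
    rw [← Real.rpow_add (by linarith)]
    congr 1
    ring
  have hy1 : 1 ≤ (L : ℝ) ^ (t / 2) := hM1.trans hML
  have h1 : (K + 2) ^ (2 * m + 2) * lg L ^ (2 * m + 2) ≤ (L : ℝ) ^ t := by
    have h2 := hlg L hL
    calc (K + 2) ^ (2 * m + 2) * lg L ^ (2 * m + 2) ≤
        (K + 2) ^ (2 * m + 2) * (C3 * (L : ℝ) ^ (t / 2)) := by
          unfold lg
          gcongr
      _ = ((K + 2) ^ (2 * m + 2) * C3) * (L : ℝ) ^ (t / 2) := by ring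
      _ ≤ (L : ℝ) ^ (t / 2) * (L : ℝ) ^ (t / 2) := by
          gcongr
          linarith
      _ = (L : ℝ) ^ t := hY
  have hlg1 := one_le_lg L
  have hlog := log_le_lg hL
  have hlog0 : 0 ≤ Real.log ((L : ℝ) + 1) := Real.log_nonneg (by linarith)
  refine ⟨?_, ?_, ?_⟩
  · have h3 : K0 ≤ (L : ℝ) ^ (t / 2) := by
      have : 0 ≤ (K + 2) ^ (2 * m + 2) * C3 := by positivity
      linarith
    rw [← hY]
    nlinarith
  · refine le_trans ?_ h1
    rw [← mul_pow]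
    refine pow_le_pow_left₀ (by positivity) ?_ _
    nlinarith
  · refine le_trans ?_ h1
    have : 0 ≤ lg L ^ (2 * m + 2) := by positivity
    nlinarith

theorem fin32 {S0 S1 M2 D c1 c2 CT CU T Lp Cs : ℝ} (h1 : S1 ≤ M2 + D) (h2 : S0 ≤ 2 * S1 + c2)
    (h3 : D ≤ c1) (h4 : c1 ≤ CT) (h5 : c2 ≤ CU) (h6 : M2 ≤ 3 * T) (h7 : T ≤ Lp) (h8 : 1 ≤ Lp)
    (h9 : 0 ≤ Cs) (h10 : 0 ≤ CT) (h11 : 0 ≤ CU) : S0 ≤ (Cs + (6 + 2 * CT + CU)) * Lp := by
  have h12 : 2 * CT + CU ≤ (2 * CT + CU) * Lp := le_mul_of_one_le_right (by linarith) h8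
  have h13 : 0 ≤ Cs * Lp := by positivity
  have h14 : (Cs + (6 + 2 * CT + CU)) * Lp = Cs * Lp + (6 * Lp + (2 * CT + CU) * Lp) := by ring
  linarith

end BandL32

open BandL32

/-- module BANDL -/
theorem bandl_32 (hTame : StTame) (hUnif : StUnif) (hCross : StCross) (hPars : StPars)
    (hTilt : StTiltK) : StBandL := by
  classical
  intro m ε K hm hε hK
  obtain ⟨e, hCr⟩ := hCross m (by omega)
  set n : ℕ := e + m + 2 with hn
  set t : ℝ := min ε (1 / 2) / (4 * m + 20) with ht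
  have hP0 : (0 : ℝ) < 4 * m + 20 := by positivity
  have hmin0 : 0 < min ε (1 / 2) := lt_min hε (by norm_num)
  have ht0 : 0 < t := by positivity
  clear_value t n
  have htP : t * (4 * m + 20) = min ε (1 / 2) := by
    rw [ht, div_mul_cancel₀ _ hP0.ne']
  have htε : t * (4 * m + 20) ≤ ε := htP ▸ min_le_left _ _
  have ht2 : t * (4 * m + 20) ≤ 1 / 2 := htP ▸ min_le_right _ _
  have hm0 : (0 : ℝ) ≤ m := Nat.cast_nonneg m
  have ht1 : t ≤ 1 := by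
    have h1 : t * 1 ≤ t * (4 * m + 20) := mul_le_mul_of_nonneg_left (by linarith) ht0.le
    linarith
  obtain ⟨CX, hCX, hCr'⟩ := hCr n
  obtain ⟨CT, hCT, hTm⟩ := hTame m n t hm ht0
  obtain ⟨CU, hCU, hUn⟩ := hUnif m n t (by omega) ht0
  set K0 : ℝ := 4 * CT + 4 * CU + 12 * CX + 10 with hK0
  obtain ⟨M, hM1, hM⟩ := large m t K K0 ht0 hK (by rw [hK0]; linarith)
  set p : ℝ := (m : ℝ) / 2 - 1 / 4 + ε with hp
  have hm2 : (2 : ℝ) ≤ m := by exact_mod_cast hm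
  have hp0 : 0 ≤ p := by
    rw [hp]
    linarith
  set Cs : ℝ := (M ^ (2 / t)) ^ (m + 1) with hCs
  have hCs0 : 0 ≤ Cs := by positivity
  clear_value K0 p Cs
  refine ⟨Cs + (6 + 2 * CT + CU), by positivity, ?_⟩
  intro L N R v hL hR hv hH
  have hLr : (1 : ℝ) ≤ L := by exact_mod_cast hL
  have hL0 : (0 : ℝ) < L := by linarith
  have hLp : 1 ≤ (L : ℝ) ^ p := Real.one_le_rpow hLr hp0
  -- small L
  by_cases hML : M ≤ (L : ℝ) ^ (t / 2)
  swap
  · have h1 : (L : ℝ) ≤ M ^ (2 / t) := by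
      have h2 : (L : ℝ) = ((L : ℝ) ^ (t / 2)) ^ (2 / t) := by
        rw [← Real.rpow_mul hL0.le]
        have : t / 2 * (2 / t) = 1 := by field_simp
        rw [this, Real.rpow_one]
      rw [h2]
      exact Real.rpow_le_rpow (by positivity) (not_le.1 hML).le (by positivity)
    have h3 : (L : ℝ) ^ (m + 1) ≤ Cs := by
      rw [hCs]
      exact pow_le_pow_left₀ hL0.le h1 _
    have h4 := triv hv
    have h5 : 0 ≤ 6 + 2 * CT + CU := by positivity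
    have h6 : 0 ≤ Cs + (6 + 2 * CT + CU) := by linarith
    have h7 := le_mul_of_one_le_right h6 hLp
    linarith
  obtain ⟨hY0, hY1, hY2⟩ := hM L hL hML
  set Y : ℝ := (L : ℝ) ^ t with hY
  have hY10 : 10 ≤ Y := by
    rw [hK0] at hY0
    linarith
  have hYpos : 0 < Y := by linarith
  have hYone : 1 ≤ Y := by linarith
  set s : ℝ := Real.sqrt L with hs
  have hss : s ^ 2 = L := Real.sq_sqrt hL0.le
  have hs0 : 0 < s := Real.sqrt_pos.2 hL0
  have hYpow : ∀ a : ℕ, Y ^ a = (L : ℝ) ^ (t * a) := by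
    intro a
    rw [hY, ← Real.rpow_natCast ((L : ℝ) ^ t) a, ← Real.rpow_mul hL0.le]
  have hYs : Y ^ (4 * m + 20) ≤ s := by
    rw [hYpow, hs, Real.sqrt_eq_rpow]
    refine Real.rpow_le_rpow_of_exponent_le hLr ?_
    push_cast
    exact ht2
  have hYε : Y ^ (4 * m + 20) ≤ (L : ℝ) ^ ε := by
    rw [hYpow]
    refine Real.rpow_le_rpow_of_exponent_le hLr ?_
    push_cast
    exact htε
  have hmon : ∀ a b : ℕ, a ≤ b → Y ^ a ≤ Y ^ b := fun a b h => pow_le_pow_right₀ hYone h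
  clear_value Y s
  -- the tilt
  set Z : ℝ := Y ^ (2 * m + 5) with hZ
  have hZpos : 0 < Z := by positivity
  have hZ1 : 1 ≤ Z := one_le_pow₀ hYone
  set x : ℝ := s / Z with hx
  have hxZ : x * Z = s := div_mul_cancel₀ s hZpos.ne'
  have hx1 : 1 ≤ x := by
    rw [hx, le_div_iff₀ hZpos, one_mul]
    exact (hmon _ _ (by omega)).trans hYs
  have hxpos : 0 < x := by linarith
  have hLm : 0 < (L : ℝ) ^ m := by positivity
  set lam : ℝ := Real.sqrt (x / (L : ℝ) ^ m) with hlam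
  have hlam2 : lam ^ 2 = x / (L : ℝ) ^ m := Real.sq_sqrt (by positivity)
  have hlampos : 0 < lam := Real.sqrt_pos.2 (by positivity)
  have hlamL : lam ^ 2 * (L : ℝ) ^ m = x := by
    rw [hlam2]
    field_simp
  have hLx : (L : ℝ) = (x * Z) ^ 2 := by rw [hxZ, hss]
  have hmm : m = (m - 1) + 1 := by omega
  have hLm1 : (L : ℝ) ^ m = (L : ℝ) ^ (m - 1) * L := by
    rw [← pow_succ, ← hmm]
  set w : ℝ := lam ^ 2 * (L : ℝ) ^ (m - 1) with hw
  have hwL : w * L = x := by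
    rw [hw, mul_assoc, ← hLm1, hlamL]
  have hwx : w * (x * Z ^ 2) = 1 := by
    have h1 : w * (x * Z ^ 2) * x = 1 * x := by
      calc w * (x * Z ^ 2) * x = w * (x * Z) ^ 2 := by ring
        _ = 1 * x := by rw [← hLx, hwL, one_mul]
    exact mul_right_cancel₀ hxpos.ne' h1
  have hw0 : 0 ≤ w := by positivity
  clear_value w lam x Z
  have hLm11 : 1 ≤ (L : ℝ) ^ (m - 1) := one_le_pow₀ hLr
  have hlamw : lam ^ 2 ≤ w := by
    rw [hw]
    exact le_mul_of_one_le_right (sq_nonneg _) hLm11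
  -- the band
  have hR1 : (R : ℝ) + 1 ≤ K * Real.log (L + 1) + 2 := by linarith
  have hRR : ((R : ℝ) + 1) ^ (2 * m + 2) ≤ Y :=
    (pow_le_pow_left₀ (by positivity) hR1 _).trans hY1
  have hR11 : (1 : ℝ) ≤ (R : ℝ) + 1 := by
    have : (0 : ℝ) ≤ R := Nat.cast_nonneg R
    linarith
  have hRR2 : ((R : ℝ) + 1) ^ (2 * m + 4) ≤ Y ^ 2 := by
    calc ((R : ℝ) + 1) ^ (2 * m + 4) ≤ ((R : ℝ) + 1) ^ ((2 * m + 2) * 2) :=
          pow_le_pow_right₀ hR11 (by omega)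
      _ = (((R : ℝ) + 1) ^ (2 * m + 2)) ^ 2 := pow_mul _ _ _
      _ ≤ Y ^ 2 := pow_le_pow_left₀ (by positivity) hRR _
  have hlg1 := one_le_lg L
  have hlgY : ∀ a : ℕ, a ≤ 2 * m + 2 → lg L ^ a ≤ Y := fun a ha =>
    (pow_le_pow_right₀ hlg1 ha).trans hY2
  have hlogY : Real.log ((L : ℝ) + 1) ≤ Y := by
    have := hlgY 1 (by omega)
    rw [pow_one] at this
    exact (log_le_lg hL).trans this
  have hlog0 : 0 ≤ Real.log ((L : ℝ) + 1) := Real.log_nonneg (by linarith)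
  -- TAME
  have hexp1 : (L : ℝ) ^ ((4 * (m : ℝ) + 8) * t) = Y ^ (4 * m + 8) := by
    rw [hYpow]
    congr 1
    push_cast
    ring
  have hexp2 : (L : ℝ) ^ (((m : ℝ) + 1) * t) = Y ^ (m + 1) := by
    rw [hYpow]
    congr 1
    push_cast
    ring
  have hCTY : 4 * CT ≤ Y := by
    rw [hK0] at hY0
    linarith
  have hCUY : 4 * CU ≤ Y := by
    rw [hK0] at hY0
    linarith
  have hCXY : 12 * CX ≤ Y := by
    rw [hK0] at hY0
    linarith
  obtain ⟨g, hT⟩ := hTm L N R lam (sgn v) hL hlampos.le (sgn_arf hv) (by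
    rw [← hY]
    exact hRR) (by
    rw [hlamL, hexp1]
    exact (par1 hYone hx1 hZ (by linarith only [hCT]) hCTY).trans hLx.ge)
  rw [hlamL, hexp2, ← hY] at hT
  set β : ℝ := CT * Y ^ (m + 1) with hβ
  set k : ℝ := CT * (1 + x) * Y ^ (m + 1) with hk
  set δ : ℝ := CT / ((L : ℝ) + 1) ^ n with hδ
  have hCT0 : 0 ≤ CT := by linarith
  have hβ0 : 0 ≤ β := by positivity
  have hδ0 : 0 ≤ δ := by positivity
  have hβY : β ≤ Y ^ (m + 2) := by
    rw [hβ, show m + 2 = (m + 1) + 1 from rfl, pow_succ Y (m + 1), mul_comm]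
    refine mul_le_mul_of_nonneg_left ?_ (by positivity)
    linarith
  have hk1 : 1 ≤ k := by
    have h1 : 1 ≤ Y ^ (m + 1) := one_le_pow₀ hYone
    have h2 : 1 ≤ CT * (1 + x) := one_le_mul_of_one_le_of_one_le hCT (by linarith)
    exact one_le_mul_of_one_le_of_one_le h2 h1
  have hkl : k + Real.log ((L : ℝ) + 1) ≤ x * Y ^ (m + 2) :=
    par2 (by linarith) hx1 hCTY hlogY
  clear_value β k δ
  have hkl0 : 0 ≤ k + Real.log ((L : ℝ) + 1) := by linarith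
  set q1 : ℝ := w * β * (k + Real.log ((L : ℝ) + 1)) with hq1
  have hq10 : 0 ≤ q1 := by positivity
  clear_value q1
  have hq1Y : q1 * Y ^ 2 ≤ 1 := by
    have h1 : Y ^ 2 ≤ Y ^ (2 * m + 6) := hmon _ _ (by omega)
    have h2 : w * β ≤ w * Y ^ (m + 2) := mul_le_mul_of_nonneg_left hβY hw0
    have h3 : q1 ≤ w * Y ^ (m + 2) * (x * Y ^ (m + 2)) := by
      rw [hq1]
      exact mul_le_mul h2 hkl hkl0 (by positivity)
    calc q1 * Y ^ 2 ≤ w * Y ^ (m + 2) * (x * Y ^ (m + 2)) * Y ^ (2 * m + 6) :=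
          mul_le_mul h3 h1 (by positivity) (by positivity)
      _ = w * (x * Z ^ 2) := by
          rw [hZ]
          ring
      _ = 1 := hwx
  have hZ2 : ∀ a : ℕ, a ≤ 2 * m + 5 → w * Y ^ a ≤ 1 := by
    intro a ha
    have h1 : Y ^ a ≤ Z := by
      rw [hZ]
      exact hmon _ _ ha
    have h2 : Z ≤ Z ^ 2 := le_self_pow₀ hZ1 (by norm_num)
    have h3 : Z ^ 2 ≤ x * Z ^ 2 := le_mul_of_one_le_left (by positivity) hx1
    calc w * Y ^ a ≤ w * (x * Z ^ 2) := mul_le_mul_of_nonneg_left (by linarith) hw0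
      _ = 1 := hwx
  have hw1 : w ≤ 1 := by
    have := hZ2 0 (by omega)
    simpa using this
  have hLt : 1 / (2 * Y) ≤ ((L : ℝ) + 1) ^ (-t) := by
    rw [Real.rpow_neg (by linarith), one_div]
    have h1 : ((L : ℝ) + 1) ^ t ≤ 2 * Y := by
      calc ((L : ℝ) + 1) ^ t ≤ (2 * (L : ℝ)) ^ t :=
            Real.rpow_le_rpow (by linarith) (by linarith) ht0.le
        _ = (2 : ℝ) ^ t * (L : ℝ) ^ t := Real.mul_rpow (by norm_num) hL0.le
        _ ≤ 2 ^ (1 : ℝ) * (L : ℝ) ^ t := by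
            refine mul_le_mul_of_nonneg_right ?_ (by positivity)
            exact Real.rpow_le_rpow_of_exponent_le (by norm_num) ht1
        _ = 2 * Y := by rw [Real.rpow_one, hY]
    have h2 : 0 < ((L : ℝ) + 1) ^ t := by positivity
    exact inv_anti₀ h2 h1
  have hlaw := hT.law
  set Q := qq (tg lam g (sgn v)) with hQ
  -- UNIF
  have hcU1 : CU * lam ^ 2 * (β * (L : ℝ) ^ (m - 1)) * (k + Real.log ((L : ℝ) + 1)) ≤
      ((L : ℝ) + 1) ^ (-t) := by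
    refine le_trans ?_ hLt
    rw [le_div_iff₀ (by positivity)]
    have e1 : CU * lam ^ 2 * (β * (L : ℝ) ^ (m - 1)) * (k + Real.log ((L : ℝ) + 1)) * (2 * Y) =
        (4 * CU) * (q1 * Y) / 2 := by
      rw [hq1, hw]
      ring
    rw [e1]
    have h1 : (4 * CU) * (q1 * Y) ≤ Y * (q1 * Y) := mul_le_mul_of_nonneg_right hCUY (by positivity)
    have h2 : Y * (q1 * Y) = q1 * Y ^ 2 := by ring
    linarith
  have hcU2 : CU * lam ^ 2 * ((R : ℝ) + 1) ^ (2 * m + 2) ≤ ((L : ℝ) + 1) ^ (-t) := by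
    refine le_trans ?_ hLt
    rw [le_div_iff₀ (by positivity)]
    have h0 : CU * lam ^ 2 ≤ Y / 4 * w :=
      mul_le_mul (by linarith) hlamw (sq_nonneg _) (by positivity)
    have h1 : CU * lam ^ 2 * ((R : ℝ) + 1) ^ (2 * m + 2) * (2 * Y) ≤ Y / 4 * w * Y * (2 * Y) :=
      mul_le_mul_of_nonneg_right (mul_le_mul h0 hRR (by positivity) (by positivity))
        (by positivity)
    have h2 := hZ2 3 (by omega)
    have h3 : Y / 4 * w * Y * (2 * Y) = w * Y ^ 3 / 2 := by ring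
    linarith
  have hU : ∀ p ∈ All m L, (Av (fun ω => |v p ω|) ≤
      2 * Ex Q (fun ω => |v p ω|) + CU / ((L : ℝ) + 1) ^ n) ∧
      Ex Q (fun ω => v p ω ^ 2) ≤ 2 * Av (fun ω => v p ω ^ 2) + CU / ((L : ℝ) + 1) ^ n := by
    intro p hpA
    have hpL : ∀ a, p a ≤ L := fun a => (mem_All.1 hpA a).le
    have hCUn : 0 ≤ CU / ((L : ℝ) + 1) ^ n := by positivity
    by_cases hd : dst (∑ a, p a) N ≤ R
    · have h1 := fun (F : Pt m L → ℝ) (hF1 : Ms p F) (hF2 : ∀ ω, 0 ≤ F ω) (hF3 : ∀ ω, F ω ≤ 1) =>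
        hUn L N R k lam (β * (L : ℝ) ^ (m - 1)) 1 (fun l => β * (L : ℝ) ^ l) (sgn v) g p F hL hk1
          hlampos.le (sgn_arf hv) hT.gate hT.nrm (by positivity) le_rfl hT.prd hT.law hpL hd
          hcU1 hcU2 hF1 hF2 hF3
      simp only [mul_one] at h1
      refine ⟨(h1 (fun ω => |v p ω|) ((hv.dep p).comp (fun z => |z|)) (fun ω => abs_nonneg _)
        (hv.abs p)).1, (h1 (fun ω => v p ω ^ 2) ((hv.dep p).comp (fun z => z ^ 2))
        (fun ω => sq_nonneg _) (fun ω => ?_)).2⟩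
      rw [← sq_abs]
      exact pow_le_one₀ (abs_nonneg _) (hv.abs p ω)
    · have h0 : ∀ ω, v p ω = 0 := fun ω => hv.bd p ω (not_le.1 hd)
      have h3 : Ex Q (fun _ => (0 : ℝ)) = 0 := Ex_const hlaw 0
      have h4 : Av (fun _ : Pt m L => (0 : ℝ)) = 0 := Av_const 0
      simp only [h0, abs_zero, ne_eq, OfNat.ofNat_ne_zero, not_false_eq_true, zero_pow, h3, h4]
      constructor <;> linarith
  -- negligible terms
  have hL11 : (0 : ℝ) < (L : ℝ) + 1 := by linarith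
  have hnn : ((L : ℝ) + 1) ^ n = ((L : ℝ) + 1) ^ (m + 1) * ((L : ℝ) + 1) ^ (e + 1) := by
    rw [← pow_add]
    congr 1
    omega
  have hneg : ∀ c : ℝ, 0 ≤ c → (L : ℝ) ^ (m + 1) * (c / ((L : ℝ) + 1) ^ n) ≤ c / ((L : ℝ) + 1) := by
    intro c hc
    rw [hnn, ← mul_div_assoc, div_le_div_iff₀ (by positivity) hL11]
    have h1 : (L : ℝ) ^ (m + 1) ≤ ((L : ℝ) + 1) ^ (m + 1) :=
      pow_le_pow_left₀ hL0.le (by linarith) _
    have h2 : ((L : ℝ) + 1) ≤ ((L : ℝ) + 1) ^ (e + 1) := le_self_pow₀ (by linarith) (by omega)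
    calc (L : ℝ) ^ (m + 1) * c * ((L : ℝ) + 1) ≤
        ((L : ℝ) + 1) ^ (m + 1) * c * ((L : ℝ) + 1) ^ (e + 1) :=
          mul_le_mul (mul_le_mul_of_nonneg_right h1 hc) h2 (by linarith) (by positivity)
      _ = c * (((L : ℝ) + 1) ^ (m + 1) * ((L : ℝ) + 1) ^ (e + 1)) := by ring
  have hYL : Y ≤ L := by
    have h1 : Y ≤ s := by
      have := (hmon 1 (4 * m + 20) (by omega)).trans hYs
      rwa [pow_one] at this
    have h2 : s ≤ s ^ 2 := le_self_pow₀ (by linarith) (by norm_num)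
    linarith
  have hsumA : ∀ (F : (Fin (m + 1) → ℕ) → ℝ) (G : (Fin (m + 1) → ℕ) → ℝ) (c : ℝ),
      (∀ q ∈ All m L, F q ≤ 2 * G q + c) →
      ∑ q ∈ All m L, F q ≤ 2 * ∑ q ∈ All m L, G q + (L : ℝ) ^ (m + 1) * c := by
    intro F G c h
    have h1 := sum_le_sum h
    rw [sum_add_distrib, ← mul_sum, sum_const, card_All, nsmul_eq_mul] at h1
    push_cast at h1
    exact h1
  have hCU0 : 0 ≤ CU := by linarith
  have hS1 : ∑ q ∈ All m L, Av (fun ω => |v q ω|) ≤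
      2 * ∑ q ∈ All m L, Ex Q (fun ω => |v q ω|) + CU / ((L : ℝ) + 1) := by
    have h1 := hsumA _ _ _ fun q hq => (hU q hq).1
    have h2 := hneg CU hCU0
    linarith
  have hS2 : ∑ q ∈ All m L, Ex Q (fun ω => v q ω ^ 2) ≤ 9 := by
    have h1 := hsumA _ _ _ fun q hq => (hU q hq).2
    have h2 := hneg CU hCU0
    have h3 : CU / ((L : ℝ) + 1) ≤ 1 := by
      rw [div_le_one hL11]
      linarith
    have h4 : ∑ q ∈ All m L, Av (fun ω => v q ω ^ 2) ≤ 4 := by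
      have h5 := hPars m L v hv.dep
      unfold mass at h5
      rw [← h5]
      have h6 := Av_mono (φ := fun ω => HH v ω ^ 2) (ψ := fun _ : Pt m L => (4 : ℝ)) fun ω => by
        have h7 := hH ω
        rw [← sq_abs]
        have h8 : |HH v ω| ^ 2 ≤ 2 ^ 2 := pow_le_pow_left₀ (abs_nonneg _) h7 2
        linarith
      rwa [Av_const] at h6
    linarith
  -- CROSS
  have hc1 : 1 + CT * Y ≤ Y ^ 2 := by
    have h1 : (1 + CT) * Y ≤ Y * Y := mul_le_mul_of_nonneg_right (by linarith) hYpos.le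
    have h2 : Y * Y = Y ^ 2 := by ring
    linarith
  have hL2m : (L : ℝ) ^ (2 * m - 1) = ((L : ℝ) ^ (m - 1)) ^ 2 * L := by
    rw [← pow_mul, ← pow_succ]
    congr 1
    omega
  have hY21 : (1 : ℝ) ≤ Y ^ 2 := one_le_pow₀ hYone
  have hc2 : lam ^ 4 * β ^ 2 * (L : ℝ) ^ (2 * m - 1) * lg L ^ 2 ≤ Y ^ 2 := by
    have h1 : lam ^ 4 * β ^ 2 * (L : ℝ) ^ (2 * m - 1) * lg L ^ 2 = w * x * (β ^ 2 * lg L ^ 2) := by
      rw [hL2m, ← hwL, hw]
      ring
    have h2 : β ^ 2 * lg L ^ 2 ≤ Z ^ 2 := by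
      calc β ^ 2 * lg L ^ 2 ≤ (Y ^ (m + 2)) ^ 2 * Y :=
            mul_le_mul (pow_le_pow_left₀ hβ0 hβY 2) (hlgY 2 (by omega)) (by positivity)
              (by positivity)
        _ = Z := by
            rw [hZ]
            ring
        _ ≤ Z ^ 2 := le_self_pow₀ hZ1 (by norm_num)
    have h3 : w * x * (β ^ 2 * lg L ^ 2) ≤ w * x * Z ^ 2 :=
      mul_le_mul_of_nonneg_left h2 (by positivity)
    have h4 : w * x * Z ^ 2 = 1 := by rw [← hwx]; ring
    linarith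
  have hc3 : lam ^ 2 * β * (L : ℝ) ^ (m - 1) * (k + Real.log ((L : ℝ) + 1)) * lg L ^ (2 * m) ≤
      Y ^ 2 := by
    have h1 : lam ^ 2 * β * (L : ℝ) ^ (m - 1) * (k + Real.log ((L : ℝ) + 1)) * lg L ^ (2 * m) =
        q1 * lg L ^ (2 * m) := by
      rw [hq1, hw]
      ring
    have h2 : q1 * lg L ^ (2 * m) ≤ q1 * Y ^ 2 := by
      refine mul_le_mul_of_nonneg_left ((hlgY (2 * m) (by omega)).trans ?_) hq10
      exact le_self_pow₀ hYone (by norm_num)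
    linarith
  have hc4 : lam ^ 2 * (L : ℝ) ^ (m - 1) * ((R : ℝ) + 1) ^ (2 * m + 4) ≤ Y ^ 2 := by
    have h1 : w * ((R : ℝ) + 1) ^ (2 * m + 4) ≤ w * Y ^ 2 := mul_le_mul_of_nonneg_left hRR2 hw0
    have h2 := hZ2 2 (by omega)
    rw [← hw]
    exact h1.trans (h2.trans hY21)
  have hcross := hCr' L N R k lam β (CT * Y) δ (Y ^ 2) g (sgn v) v hL hk1 hlampos.le hβ0
    (by positivity) hδ0 (sgn_arf hv) hv hT hc1 hc2 hc3 hc4
  set M1 : ℝ := ∑ j ∈ range L, Ex Q (fun ω => g j ω * (XX (sgn v) j ω * XX v j ω)) with hM1d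
  set M2 : ℝ := ∑ j ∈ range L, ∑ p ∈ fr L (Inn m) (fun _ => j),
    Ex Q (fun ω => g j ω * (sgn v p ω * v p ω)) with hM2d
  set T : ℝ := (L : ℝ) ^ ((m : ℝ) / 2 - 1 / 4) with hTd
  have hT1 : 1 ≤ T := Real.one_le_rpow hLr (by linarith)
  have hTpos : 0 < T := by linarith
  have hTT : T ^ 2 = (L : ℝ) ^ (m - 1) * s := by
    rw [hTd, hs, ← Real.rpow_natCast _ 2, ← Real.rpow_mul hL0.le, Real.sqrt_eq_rpow,
      ← Real.rpow_natCast (L : ℝ) (m - 1), ← Real.rpow_add hL0]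
    congr 1
    push_cast [Nat.cast_sub (show 1 ≤ m by omega)]
    ring
  clear_value T
  -- the bound of the cross term
  have hb1 : β * lg L ^ (2 * m) * (Y ^ 2) ^ m + ((R : ℝ) + 1) ^ (2 * m + 4) ≤
      2 * Y ^ (3 * m + 3) := by
    have h1 : β * lg L ^ (2 * m) * (Y ^ 2) ^ m ≤ Y ^ (m + 2) * Y * (Y ^ 2) ^ m :=
      mul_le_mul_of_nonneg_right (mul_le_mul hβY (hlgY (2 * m) (by omega)) (by positivity)
        (by positivity)) (by positivity)
    have h2 : Y ^ (m + 2) * Y * (Y ^ 2) ^ m = Y ^ (3 * m + 3) := by ring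
    have h3 : Y ^ 2 ≤ Y ^ (3 * m + 3) := hmon _ _ (by omega)
    linarith
  have hb2 : ∑ p ∈ All m L, Ex Q (fun ω => v p ω ^ 2) + (1 + lam ^ 2 + lam ^ 2 * β) *
      ((L : ℝ) + 1) ^ e * (δ + 1 / ((L : ℝ) + 1) ^ n) ≤ 12 := by
    have h1 : lam ^ 2 * β ≤ 1 := by
      have h3 : lam ^ 2 * β ≤ w * Y ^ (m + 2) := mul_le_mul hlamw hβY hβ0 hw0
      have h4 := hZ2 (m + 2) (by omega)
      linarith only [h3, h4]
    have h2 : ((L : ℝ) + 1) ^ e * (δ + 1 / ((L : ℝ) + 1) ^ n) ≤ 1 := by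
      rw [hδ, ← add_div, ← mul_div_assoc, div_le_one (by positivity)]
      have h5 : ((L : ℝ) + 1) ^ n = ((L : ℝ) + 1) ^ e * ((L : ℝ) + 1) ^ (m + 2) := by
        rw [← pow_add, hn, add_assoc]
      rw [h5]
      refine mul_le_mul_of_nonneg_left ?_ (by positivity)
      have h6 : ((L : ℝ) + 1) ≤ ((L : ℝ) + 1) ^ (m + 2) := le_self_pow₀ (by linarith) (by omega)
      linarith
    have h3 : 0 ≤ ((L : ℝ) + 1) ^ e * (δ + 1 / ((L : ℝ) + 1) ^ n) := by positivity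
    have h4 : (1 + lam ^ 2 + lam ^ 2 * β) * (((L : ℝ) + 1) ^ e * (δ + 1 / ((L : ℝ) + 1) ^ n)) ≤
        3 * 1 := mul_le_mul (by linarith) h2 h3 (by norm_num)
    have h5 : (1 + lam ^ 2 + lam ^ 2 * β) * (((L : ℝ) + 1) ^ e * (δ + 1 / ((L : ℝ) + 1) ^ n)) =
      (1 + lam ^ 2 + lam ^ 2 * β) * ((L : ℝ) + 1) ^ e * (δ + 1 / ((L : ℝ) + 1) ^ n) := by ring
    linarith
  have hCX0 : 0 ≤ CX := by linarith
  have hb3 : CX * (k + Real.log ((L : ℝ) + 1)) * (L : ℝ) ^ (m - 1) *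
      (β * lg L ^ (2 * m) * (Y ^ 2) ^ m + ((R : ℝ) + 1) ^ (2 * m + 4)) *
      (∑ p ∈ All m L, Ex Q (fun ω => v p ω ^ 2) + (1 + lam ^ 2 + lam ^ 2 * β) *
      ((L : ℝ) + 1) ^ e * (δ + 1 / ((L : ℝ) + 1) ^ n)) ≤ (T * Z) ^ 2 := by
    have hlgp : 0 ≤ lg L := by linarith
    have hE0 : 0 ≤ ∑ p ∈ All m L, Ex Q (fun ω => v p ω ^ 2) :=
      sum_nonneg fun p _ => Ex_nonneg hlaw fun ω => sq_nonneg _
    have h1 : CX * (k + Real.log ((L : ℝ) + 1)) * (L : ℝ) ^ (m - 1) *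
      (β * lg L ^ (2 * m) * (Y ^ 2) ^ m + ((R : ℝ) + 1) ^ (2 * m + 4)) *
      (∑ p ∈ All m L, Ex Q (fun ω => v p ω ^ 2) + (1 + lam ^ 2 + lam ^ 2 * β) *
      ((L : ℝ) + 1) ^ e * (δ + 1 / ((L : ℝ) + 1) ^ n)) ≤
      CX * (x * Y ^ (m + 2)) * (L : ℝ) ^ (m - 1) * (2 * Y ^ (3 * m + 3)) * 12 := by
      refine mul_le_mul (mul_le_mul (mul_le_mul_of_nonneg_right
        (mul_le_mul_of_nonneg_left hkl hCX0) (by positivity)) hb1 (by positivity) (by positivity))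
        hb2 (by positivity) (by positivity)
    have h2 : CX * (x * Y ^ (m + 2)) * (L : ℝ) ^ (m - 1) * (2 * Y ^ (3 * m + 3)) * 12 =
        (12 * CX) * (2 * (x * (L : ℝ) ^ (m - 1)) * Y ^ (4 * m + 5)) := by ring
    have h3 : (12 * CX) * (2 * (x * (L : ℝ) ^ (m - 1)) * Y ^ (4 * m + 5)) ≤
        Y * (Y * (x * (L : ℝ) ^ (m - 1)) * Y ^ (4 * m + 5)) := by
      refine mul_le_mul hCXY ?_ (by positivity) hYpos.le
      refine mul_le_mul_of_nonneg_right (mul_le_mul_of_nonneg_right ?_ (by positivity))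
        (by positivity)
      linarith
    have h4 : Y * (Y * (x * (L : ℝ) ^ (m - 1)) * Y ^ (4 * m + 5)) =
        (x * (L : ℝ) ^ (m - 1)) * Y ^ (4 * m + 7) := by ring
    have h5 : Y ^ (4 * m + 7) ≤ Z ^ 3 := by
      rw [hZ, ← pow_mul]
      exact hmon _ _ (by omega)
    have h6 : (T * Z) ^ 2 = (x * (L : ℝ) ^ (m - 1)) * Z ^ 3 := by
      rw [mul_pow, hTT, ← hxZ]
      ring
    have h7 : (x * (L : ℝ) ^ (m - 1)) * Y ^ (4 * m + 7) ≤ (x * (L : ℝ) ^ (m - 1)) * Z ^ 3 :=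
      mul_le_mul_of_nonneg_left h5 (by positivity)
    exact h1.trans (h2.le.trans (h3.trans (h4.le.trans (h7.trans h6.ge))))
  have hdiff : |M1 - M2| ≤ T * Z := abs_le_of_sq_le_sq (hcross.trans hb3) (by positivity)
  -- duality
  have hdual : lam * M1 ≤ 2 := dual hTilt hv hT hH
  have hlTZ : 1 ≤ lam * (T * Z) := by
    have h1 : (lam * (T * Z)) ^ 2 = Z := by
      have h2 : (lam * (T * Z)) ^ 2 = w * s * Z ^ 2 := by
        rw [mul_pow, mul_pow, hTT, hw]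
        ring
      rw [h2, ← hxZ]
      calc w * (x * Z) * Z ^ 2 = w * (x * Z ^ 2) * Z := by ring
        _ = Z := by rw [hwx, one_mul]
    have h3 : (1 : ℝ) ^ 2 ≤ (lam * (T * Z)) ^ 2 := by
      rw [h1]
      linarith
    exact (pow_le_pow_iff_left₀ (by norm_num) (by positivity) (by norm_num)).1 h3
  have hM1b : M1 ≤ 2 * (T * Z) := by
    have h1 : lam * M1 ≤ lam * (2 * (T * Z)) := by linarith
    exact le_of_mul_le_mul_left h1 hlampos
  have hM2b : M2 ≤ 3 * (T * Z) := by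
    have := (abs_le.1 hdiff).1
    linarith
  have hTZp : T * Z ≤ (L : ℝ) ^ p := by
    rw [hp, Real.rpow_add hL0, ← hTd]
    refine mul_le_mul_of_nonneg_left ?_ hTpos.le
    rw [hZ]
    exact (hmon _ _ (by omega)).trans hYε
  have hCTL : CT / ((L : ℝ) + 1) ≤ CT := div_le_self hCT0 (by linarith only [hLr])
  have hCUL : CU / ((L : ℝ) + 1) ≤ CU := div_le_self hCU0 (by linarith only [hLr])
  exact fin32 (gated hv hT) hS1 (hδ ▸ hneg CT hCT0) hCTL hCUL hM2b hTZp hLp hCs0 hCT0 hCU0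

end Pool.Agent.SHD
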