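import Pool.Agent.Lib.MP_a7b2aa_an.SHD.Stmts2_65
import Pool.Agent.Lib.MP_a7b2aa_an.SBD.EEB36

/-!
SHD2, module MOME (helper21): moments of a sum with small conditional remaining sums.
-/

set_option autoImplicit false

namespace Pool.Agent.SHD

open Finset Pool.Agent.SB3 Pool.Agent.SBT Pool.Agent.SBD

/-- convexity of the power -/
theorem pow_succ_sub_le_21 (n : ℕ) {a b : ℝ} (hb : 0 ≤ b) (hab : b ≤ a) :
    a ^ (n + 1) - b ^ (n + 1) ≤ ((n : ℝ) + 1) * ((a - b) * a ^ n) := by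
  induction n with
  | zero => simp
  | succ n ih =>
    have ha : 0 ≤ a := hb.trans hab
    have h1 : b ^ (n + 1) ≤ a ^ (n + 1) := pow_le_pow_left₀ hb hab _
    have h2 : a ^ (n + 1 + 1) - b ^ (n + 1 + 1) =
        a * (a ^ (n + 1) - b ^ (n + 1)) + (a - b) * b ^ (n + 1) := by ring
    have h3 : a * (a ^ (n + 1) - b ^ (n + 1)) ≤ a * (((n : ℝ) + 1) * ((a - b) * a ^ n)) :=
      mul_le_mul_of_nonneg_left ih ha
    have h4 : (a - b) * b ^ (n + 1) ≤ (a - b) * a ^ (n + 1) :=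
      mul_le_mul_of_nonneg_left h1 (sub_nonneg.2 hab)
    rw [h2]
    push_cast
    calc a * (a ^ (n + 1) - b ^ (n + 1)) + (a - b) * b ^ (n + 1)
        ≤ a * (((n : ℝ) + 1) * ((a - b) * a ^ n)) + (a - b) * a ^ (n + 1) := add_le_add h3 h4
      _ = ((n : ℝ) + 1 + 1) * ((a - b) * a ^ (n + 1)) := by ring

/-- telescoping and convexity -/
theorem pow_sum_le_21 (n : ℕ) (y : ℕ → ℝ) (hy : ∀ j, 0 ≤ y j) (J : ℕ) :
    (∑ j ∈ range J, y j) ^ (n + 1) ≤
      ((n : ℝ) + 1) * ∑ j ∈ range J, y j * (∑ i ∈ range (j + 1), y i) ^ n := by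
  induction J with
  | zero => simp
  | succ J ih =>
    have h0 : 0 ≤ ∑ j ∈ range J, y j := sum_nonneg fun _ _ => hy _
    have h1 : ∑ j ∈ range J, y j ≤ ∑ j ∈ range (J + 1), y j := by
      rw [sum_range_succ]
      linarith [hy J]
    have h2 := pow_succ_sub_le_21 n h0 h1
    have h3 : ∑ j ∈ range (J + 1), y j - ∑ j ∈ range J, y j = y J := by
      rw [sum_range_succ]
      ring
    rw [h3] at h2
    rw [sum_range_succ (fun j => y j * (∑ i ∈ range (j + 1), y i) ^ n), mul_add]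
    linarith

/-- summation by parts -/
theorem parts_21 (n : ℕ) (y : ℕ → ℝ) (J : ℕ) :
    ∑ j ∈ range J, y j * (∑ i ∈ range (j + 1), y i) ^ n =
      (0 : ℝ) ^ n * ∑ i ∈ Ico 0 J, y i +
      ∑ j ∈ range J, ((∑ i ∈ range (j + 1), y i) ^ n - (∑ i ∈ range j, y i) ^ n) *
        ∑ i ∈ Ico j J, y i := by
  induction J with
  | zero => simp
  | succ J ih =>
    have h1 : ∑ j ∈ range (J + 1), ((∑ i ∈ range (j + 1), y i) ^ n - (∑ i ∈ range j, y i) ^ n) *
        ∑ i ∈ Ico j (J + 1), y i =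
        ∑ j ∈ range (J + 1), (((∑ i ∈ range (j + 1), y i) ^ n - (∑ i ∈ range j, y i) ^ n) *
          ∑ i ∈ Ico j J, y i +
          ((∑ i ∈ range (j + 1), y i) ^ n - (∑ i ∈ range j, y i) ^ n) * y J) := by
      refine sum_congr rfl fun j hj => ?_
      rw [mem_range] at hj
      rw [sum_Ico_succ_top (by omega)]
      ring
    rw [h1, sum_add_distrib, sum_range_succ (fun j =>
      ((∑ i ∈ range (j + 1), y i) ^ n - (∑ i ∈ range j, y i) ^ n) * ∑ i ∈ Ico j J, y i),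
      ← sum_mul, sum_range_sub (fun j => (∑ i ∈ range j, y i) ^ n),
      sum_range_succ (fun j => y j * (∑ i ∈ range (j + 1), y i) ^ n), ih,
      sum_Ico_succ_top (Nat.zero_le J)]
    simp only [Ico_self, sum_empty, mul_zero, add_zero, range_zero]
    ring

variable {m L : ℕ}

theorem condle_21 {q : Fin (m + 1) → ℕ} {η : ℝ} {ρ D T : Pt m L → ℝ} (hD : ∀ ω, 0 ≤ D ω)
    (hM : Ms q D) (hT : ∀ ω, EE q (fun ω' => ρ ω' * T ω') ω ≤ η * EE q ρ ω) :
    Av (fun ω => D ω * (ρ ω * T ω)) ≤ η * Av (fun ω => D ω * ρ ω) := by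
  have hE := eeb_36 m L
  rw [← hE.mean q (fun ω => D ω * (ρ ω * T ω)), ← hE.mean q (fun ω => D ω * ρ ω), ← Av_smul]
  refine Av_mono fun ω => ?_
  rw [hE.pull q D _ hM, hE.pull q D _ hM]
  calc D ω * EE q (fun ω' => ρ ω' * T ω') ω ≤ D ω * (η * EE q ρ ω) :=
        mul_le_mul_of_nonneg_left (hT ω) (hD ω)
    _ = η * (D ω * EE q ρ ω) := by ring

theorem Ms_upd_21 {β : Type} {h : Fin (m + 1) → ℕ} {i j : ℕ} (hij : i ≤ j) {φ : Pt m L → β}
    (hφ : Ms (Function.update h 0 i) φ) : Ms (Function.update h 0 j) φ := by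
  intro ω ω' hω
  refine hφ ω ω' (cl_mono (fun a => Or.inl ?_) hω)
  by_cases ha : a = 0
  · subst ha
    rw [Function.update_self, Function.update_self]
    exact hij
  · rw [Function.update_of_ne ha, Function.update_of_ne ha]

theorem mome_21 : StMomE := by
  intro m L J R η h ρ Y hρ hA hη hY hM hT
  induction R with
  | zero =>
    unfold Ex
    simp only [pow_zero, mul_one, Nat.factorial_zero, Nat.cast_one]
    exact hA.le
  | succ n ih =>
    have hMs : ∀ j, Ms (Function.update h 0 j) (fun ω => (∑ i ∈ range (j + 1), Y i ω) ^ n -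
        (∑ i ∈ range j, Y i ω) ^ n) := by
      intro j ω ω' hω
      have e : ∀ i ∈ range (j + 1), Y i ω' = Y i ω := fun i hi =>
        Ms_upd_21 (Nat.lt_succ_iff.1 (mem_range.1 hi)) (hM i) ω ω' hω
      have e1 : ∑ i ∈ range (j + 1), Y i ω' = ∑ i ∈ range (j + 1), Y i ω := sum_congr rfl e
      have e2 : ∑ i ∈ range j, Y i ω' = ∑ i ∈ range j, Y i ω :=
        sum_congr rfl fun i hi => e i (mem_range.2 (Nat.lt_succ_of_lt (mem_range.1 hi)))
      show (∑ i ∈ range (j + 1), Y i ω') ^ n - (∑ i ∈ range j, Y i ω') ^ n =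
        (∑ i ∈ range (j + 1), Y i ω) ^ n - (∑ i ∈ range j, Y i ω) ^ n
      rw [e1, e2]
    have hpos : ∀ j ω, 0 ≤ (∑ i ∈ range (j + 1), Y i ω) ^ n - (∑ i ∈ range j, Y i ω) ^ n := by
      intro j ω
      rw [sub_nonneg]
      refine pow_le_pow_left₀ (sum_nonneg fun _ _ => hY _ _) ?_ _
      rw [sum_range_succ]
      linarith [hY j ω]
    have h1 : Ex ρ (fun ω => (∑ j ∈ range J, Y j ω) ^ (n + 1)) ≤
        ((n : ℝ) + 1) * (Av (fun ω => (0 : ℝ) ^ n * (ρ ω * ∑ i ∈ Ico 0 J, Y i ω)) +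
          ∑ j ∈ range J, Av (fun ω => ((∑ i ∈ range (j + 1), Y i ω) ^ n -
            (∑ i ∈ range j, Y i ω) ^ n) * (ρ ω * ∑ i ∈ Ico j J, Y i ω))) := by
      rw [← Av_sum, ← Av_add, ← Av_smul]
      unfold Ex
      refine Av_mono fun ω => ?_
      have h2 := pow_sum_le_21 n (fun j => Y j ω) (fun j => hY j ω) J
      rw [parts_21 n (fun j => Y j ω) J] at h2
      refine (mul_le_mul_of_nonneg_left h2 (hρ ω)).trans (le_of_eq ?_)
      have e1 : ρ ω * ∑ j ∈ range J, ((∑ i ∈ range (j + 1), Y i ω) ^ n -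
          (∑ i ∈ range j, Y i ω) ^ n) * ∑ i ∈ Ico j J, Y i ω =
          ∑ j ∈ range J, ((∑ i ∈ range (j + 1), Y i ω) ^ n -
            (∑ i ∈ range j, Y i ω) ^ n) * (ρ ω * ∑ i ∈ Ico j J, Y i ω) := by
        rw [mul_sum]
        exact sum_congr rfl fun j _ => mul_left_comm _ _ _
      have e2 : ρ ω * ((0 : ℝ) ^ n * ∑ i ∈ Ico 0 J, Y i ω) =
          (0 : ℝ) ^ n * (ρ ω * ∑ i ∈ Ico 0 J, Y i ω) := mul_left_comm _ _ _
      rw [mul_left_comm, mul_add, e1, e2]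
    have h0 : Av (fun ω => (0 : ℝ) ^ n * (ρ ω * ∑ i ∈ Ico 0 J, Y i ω)) ≤
        η * Av (fun ω => (0 : ℝ) ^ n * ρ ω) :=
      condle_21 (q := Function.update h 0 0) (D := fun _ => (0 : ℝ) ^ n)
        (fun _ => pow_nonneg le_rfl _) (fun _ _ _ => rfl) (fun ω => hT 0 ω (Nat.zero_le _))
    have h2 : ∀ j ∈ range J, Av (fun ω => ((∑ i ∈ range (j + 1), Y i ω) ^ n -
        (∑ i ∈ range j, Y i ω) ^ n) * (ρ ω * ∑ i ∈ Ico j J, Y i ω)) ≤
        η * Av (fun ω => ((∑ i ∈ range (j + 1), Y i ω) ^ n -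
          (∑ i ∈ range j, Y i ω) ^ n) * ρ ω) := fun j hj =>
      condle_21 (hpos j) (hMs j) (fun ω => hT j ω (mem_range.1 hj).le)
    have h3 : Av (fun ω => (0 : ℝ) ^ n * (ρ ω * ∑ i ∈ Ico 0 J, Y i ω)) +
          ∑ j ∈ range J, Av (fun ω => ((∑ i ∈ range (j + 1), Y i ω) ^ n -
            (∑ i ∈ range j, Y i ω) ^ n) * (ρ ω * ∑ i ∈ Ico j J, Y i ω)) ≤
        η * Ex ρ (fun ω => (∑ j ∈ range J, Y j ω) ^ n) := by
      refine (add_le_add h0 (sum_le_sum h2)).trans (le_of_eq ?_)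
      rw [← mul_sum, ← mul_add, ← Av_sum, ← Av_add]
      congr 1
      unfold Ex
      congr 1
      funext ω
      rw [← sum_mul, sum_range_sub (fun j => (∑ i ∈ range j, Y i ω) ^ n), range_zero, sum_empty]
      ring
    calc Ex ρ (fun ω => (∑ j ∈ range J, Y j ω) ^ (n + 1))
        ≤ ((n : ℝ) + 1) * (η * Ex ρ (fun ω => (∑ j ∈ range J, Y j ω) ^ n)) :=
          h1.trans (mul_le_mul_of_nonneg_left h3 (by positivity))
      _ ≤ ((n : ℝ) + 1) * (η * ((n.factorial : ℝ) * η ^ n)) :=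
          mul_le_mul_of_nonneg_left (mul_le_mul_of_nonneg_left ih hη) (by positivity)
      _ = ((n + 1).factorial : ℝ) * η ^ (n + 1) := by
          rw [Nat.factorial_succ]
          push_cast
          ring

end Pool.Agent.SHD
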