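import Pool.Agent.Lib.MP_a7b2aa_an.SHD.Stmts4_25

/-! SHD4, module PARS (helper30): Parseval's identity for adapted arrays. -/

set_option autoImplicit false

namespace Pool.Agent.SHD

open Finset Pool.Agent.SB3 Pool.Agent.SBT Pool.Agent.SBD

namespace P30

variable {m L : ℕ}

theorem Av_sb_mul (hE : Eeb m L) {a : Fin (m + 1)} {t : ℕ} (ht : t < L) {X : Pt m L → ℝ}
    (hX : Ms (one L a t) X) : Av (fun ω => sb a t ω * X ω) = 0 := by
  have hat : (one L a t : Fin (m + 1) → ℕ) a = t := by simp [one]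
  have h0 : ∀ ω, EE (one L a t) (sb (L := L) a t) ω = 0 := by
    intro ω
    have h1 := hE.step (one L a t) a (fun _ => 1) ω (by rw [hat]; exact ht)
    rw [hE.const, hE.const, sub_self, hat] at h1
    have h2 : (fun ω' : Pt m L => sb a t ω' * 1) = sb a t := by
      funext ω'
      rw [mul_one]
    rw [h2] at h1
    rcases mul_eq_zero.1 h1.symm with h3 | h3
    · have := sb_sq a t ω
      rw [h3] at this
      norm_num at this
    · exact h3
  rw [← hE.mean (one L a t)]
  have h3 : EE (one L a t) (fun ω => sb a t ω * X ω) = fun _ => 0 := by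
    funext ω
    have : (fun ω' : Pt m L => sb a t ω' * X ω') = fun ω' => X ω' * sb a t ω' := by
      funext ω'
      ring
    rw [this, hE.pull _ X _ hX, h0, mul_zero]
  rw [h3, Av_const]

theorem HH_eq (v : (Fin (m + 1) → ℕ) → Pt m L → ℝ) (ω : Pt m L) :
    HH v ω = ∑ q ∈ All m L, ps univ q ω * v q ω := by
  have hU : insert (0 : Fin (m + 1)) (Inn m) = univ := by
    unfold Inn
    rw [insert_erase (mem_univ _)]
  unfold HH All
  rw [← hU, sum_fr_insert (by simp [Inn])]
  refine sum_congr rfl fun i _ => ?_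
  unfold XX
  rw [mul_sum]
  have hfr : fr L (Inn m) (Function.update (fun _ => 0) 0 i) = fr L (Inn m) (fun _ => i) := by
    refine fr_congr fun a ha => ?_
    have : a = 0 := by
      by_contra hne
      exact ha (by simp [Inn, hne])
    subst this
    simp
  rw [hfr]
  refine sum_congr rfl fun q hq => ?_
  have hq0 : q 0 = i := (mem_fr.1 hq).2 0 (by simp [Inn])
  rw [ps_insert (by simp [Inn]), hq0]
  ring

theorem orth_lt (hE : Eeb m L) {v : (Fin (m + 1) → ℕ) → Pt m L → ℝ} (hv : ∀ q, Ms q (v q))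
    {p q : Fin (m + 1) → ℕ} {a : Fin (m + 1)} (hq : q a < L) (h : p a < q a) :
    Av (fun ω => (ps univ q ω * v q ω) * (ps univ p ω * v p ω)) = 0 := by
  have hU : insert a (univ.erase a) = (univ : Finset (Fin (m + 1))) := insert_erase (mem_univ _)
  have hps : ∀ ω : Pt m L, (ps univ q ω * v q ω) * (ps univ p ω * v p ω) =
      sb a (q a) ω * ((ps (univ.erase a) q ω * v q ω) *
        ((sb a (p a) ω * ps (univ.erase a) p ω) * v p ω)) := by
    intro ω
    rw [← hU, ps_insert (by simp), ps_insert (by simp), hU]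
    ring
  simp_rw [hps]
  refine Av_sb_mul hE hq ?_
  have hsb : Ms (one L a (q a)) (sb (L := L) a (p a)) := by
    refine Ms_sb ?_
    simpa [one] using h
  exact Ms.comp2 (Ms.comp2 (Ms_ps_one (by simp) q _) ((hv q).one a _ le_rfl) (fun x y => x * y))
    (Ms.comp2 (Ms.comp2 hsb (Ms_ps_one (by simp) p _) (fun x y => x * y))
      ((hv p).one a _ h.le) (fun x y => x * y)) (fun x y => x * y)

theorem mem_All {q : Fin (m + 1) → ℕ} : q ∈ All m L ↔ ∀ a, q a < L := by
  unfold All
  rw [mem_fr]
  constructor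
  · intro h a
    exact h.1 a (mem_univ a)
  · intro h
    exact ⟨fun a _ => h a, fun a ha => absurd (mem_univ a) ha⟩

theorem orth (hE : Eeb m L) {v : (Fin (m + 1) → ℕ) → Pt m L → ℝ} (hv : ∀ q, Ms q (v q))
    {p q : Fin (m + 1) → ℕ} (hp : p ∈ All m L) (hq : q ∈ All m L) (h : p ≠ q) :
    Av (fun ω => (ps univ q ω * v q ω) * (ps univ p ω * v p ω)) = 0 := by
  rw [mem_All] at hp hq
  obtain ⟨a, ha⟩ := Function.ne_iff.1 h
  rcases lt_or_gt_of_ne ha with h1 | h1
  · exact orth_lt hE hv (hq a) h1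
  · rw [← orth_lt hE hv (hp a) h1]
    congr 1
    funext ω
    ring

end P30

open P30 in
/-- PARS -/
theorem pars_30 (hEB : StEeb) : StPars := by
  intro m L v hv
  have hE := hEB m L
  have h1 : (fun ω => HH v ω ^ 2) = fun ω => ∑ q ∈ All m L, ∑ p ∈ All m L,
      (ps univ q ω * v q ω) * (ps univ p ω * v p ω) := by
    funext ω
    rw [HH_eq, sq, sum_mul_sum]
  rw [h1, Av_sum]
  unfold mass
  refine sum_congr rfl fun q hq => ?_
  rw [Av_sum, sum_eq_single q]
  · congr 1
    funext ω
    have := ps_sq (univ : Finset (Fin (m + 1))) q ω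
    calc (ps univ q ω * v q ω) * (ps univ q ω * v q ω) =
        (ps univ q ω * ps univ q ω) * v q ω ^ 2 := by ring
      _ = v q ω ^ 2 := by rw [this, one_mul]
  · intro p hp hne
    exact orth hE hv hp hq hne
  · intro h
    exact absurd hq h

end Pool.Agent.SHD
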