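import Pool.Agent.Lib.MP_a7b2aa_an.SHD.Stmts2_65
import Pool.Agent.Lib.MP_a7b2aa_an.SBD.EEB36

/-!
SHD2, module REMG (helper30): the conditional remaining energy of `xo`.
-/

set_option autoImplicit false

namespace Pool.Agent.SHD

open Finset Pool.Agent.SB3 Pool.Agent.SBT Pool.Agent.SBD

namespace R30

variable {m L : ℕ}

/-- splitting of an array at the hull `h` -/
theorem va_split {v : (Fin (m + 1) → ℕ) → Pt m L → ℝ} (h r : Fin (m + 1) → ℕ) (ω : Pt m L) :
    v r ω = vin h v r ω + ∑ a ∈ Inn m, va h a v r ω := by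
  by_cases hb : ∀ b, b ≠ 0 → r b < h b
  · have e1 : vin h v r ω = v r ω := by
      unfold vin
      rw [if_pos hb]
    have e2 : ∑ a ∈ Inn m, va h a v r ω = 0 := by
      refine sum_eq_zero fun a ha => ?_
      have ha0 : a ≠ 0 := (mem_erase.1 ha).1
      unfold va
      rw [if_neg]
      rintro ⟨_, h2⟩
      exact absurd (hb a ha0) (by omega)
    rw [e1, e2, add_zero]
  · have e1 : vin h v r ω = 0 := by
      unfold vin
      rw [if_neg hb]
    push Not at hb
    set S := (Inn m).filter (fun b => h b ≤ r b) with hS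
    have hSn : S.Nonempty := by
      obtain ⟨b, hb0, hb1⟩ := hb
      exact ⟨b, mem_filter.2 ⟨mem_erase.2 ⟨hb0, mem_univ b⟩, hb1⟩⟩
    set a := S.min' hSn with ha
    obtain ⟨haI, hah⟩ := mem_filter.1 (S.min'_mem hSn)
    rw [← ha] at haI hah
    have hmin : ∀ b, b ≠ 0 → b < a → r b < h b := by
      intro b hb0 hba
      by_contra hcon
      have := S.min'_le b (mem_filter.2 ⟨mem_erase.2 ⟨hb0, mem_univ b⟩, by omega⟩)
      exact absurd hba (not_lt.2 this)
    rw [e1, zero_add, sum_eq_single_of_mem a haI]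
    · unfold va
      rw [if_pos ⟨hmin, hah⟩]
    · intro b hbI hba
      unfold va
      rw [if_neg]
      rintro ⟨h1, h2⟩
      rcases lt_trichotomy b a with hlt | heq | hgt
      · exact absurd (hmin b (mem_erase.1 hbI).1 hlt) (by omega)
      · exact hba heq
      · exact absurd (h1 a (mem_erase.1 haI).1 hgt) (by omega)

theorem XX_va_split {v : (Fin (m + 1) → ℕ) → Pt m L → ℝ} (h : Fin (m + 1) → ℕ) (i : ℕ)
    (ω : Pt m L) : XX v i ω - XX (vin h v) i ω = ∑ a ∈ Inn m, XX (va h a v) i ω := by
  rw [sub_eq_iff_eq_add, add_comm]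
  unfold XX
  rw [sum_comm, ← sum_add_distrib]
  refine sum_congr rfl fun r _ => ?_
  rw [← mul_sum, ← mul_add, ← va_split]

theorem ArK_va {N : ℕ} {v : (Fin (m + 1) → ℕ) → Pt m L → ℝ} (hv : ArK N v)
    (h : Fin (m + 1) → ℕ) (a : Fin (m + 1)) : ArK N (va h a v) := by
  refine ⟨fun q ω => ?_, fun q => ?_⟩
  · unfold va
    split_ifs
    · exact hv.abs q ω
    · rw [abs_zero]
      unfold kap
      positivity
  · intro ω ω' hω
    unfold va
    split_ifs
    · exact hv.dep q ω ω' hω
    · rfl

theorem ArK_vin {N : ℕ} {v : (Fin (m + 1) → ℕ) → Pt m L → ℝ} (hv : ArK N v)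
    (h : Fin (m + 1) → ℕ) : ArK N (vin h v) := by
  refine ⟨fun q ω => ?_, fun q => ?_⟩
  · unfold vin
    split_ifs
    · exact hv.abs q ω
    · rw [abs_zero]
      unfold kap
      positivity
  · intro ω ω' hω
    unfold vin
    split_ifs
    · exact hv.dep q ω ω' hω
    · rfl

theorem Ms_XX_vin {N : ℕ} {v : (Fin (m + 1) → ℕ) → Pt m L → ℝ} (hv : ArK N v)
    (h : Fin (m + 1) → ℕ) (i : ℕ) : Ms (Function.update h 0 i) (XX (vin h v) i) := by
  intro ω ω' hω
  unfold XX
  refine sum_congr rfl fun q hq => ?_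
  rw [mem_fr] at hq
  have h0 : q 0 = i := hq.2 0 (by simp [Inn])
  unfold vin
  by_cases hb : ∀ b, b ≠ 0 → q b < h b
  · rw [if_pos hb, if_pos hb]
    have e1 : v q ω' = v q ω := by
      refine hv.dep q ω ω' (cl_mono (fun a => Or.inl ?_) hω)
      by_cases ha : a = 0
      · subst ha
        rw [Function.update_self, h0]
      · rw [Function.update_of_ne ha]
        exact (hb a ha).le
    have e2 : ps (Inn m) q ω' = ps (Inn m) q ω := by
      unfold ps
      refine prod_congr rfl fun c hc => Ms_sb ?_ ω ω' hω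
      have hc0 : c ≠ 0 := (mem_erase.1 hc).1
      rw [Function.update_of_ne hc0]
      exact hb c hc0
    rw [e1, e2]
  · rw [if_neg hb, if_neg hb, mul_zero, mul_zero]

/-- rows of the matrix of `va` while the gate is open -/
theorem rows_va {bb : ℕ → ℝ} {g : ℕ → Pt m L → ℝ} {v : (Fin (m + 1) → ℕ) → Pt m L → ℝ} {b : ℝ}
    (hN : Nrm bb g v) (hb : bb (m - 1) ≤ b) (h : Fin (m + 1) → ℕ) {a : Fin (m + 1)} (ha : a ≠ 0)
    (j : ℕ) (ω : Pt m L) (hj : j < L) (hg : g j ω = 1) (u : Fin L → ℝ) :
    ∑ i ∈ range (j + 1), (∑ t : Fin L, Bm a (va h a v) i t ω * u t) ^ 2 ≤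
      b * ∑ t, u t ^ 2 := by
  classical
  set U : Finset (Fin (m + 1)) := (Inn m).erase a with hU
  have haI : a ∈ Inn m := mem_erase.2 ⟨ha, mem_univ a⟩
  have h0U : (0 : Fin (m + 1)) ∉ U := by
    intro h1
    exact (mem_erase.1 (mem_of_mem_erase h1)).1 rfl
  have haU : a ∉ U := notMem_erase _ _
  have hcard : U.card = m - 1 := by
    rw [hU, card_erase_of_mem haI]
    unfold Inn
    rw [card_erase_of_mem (mem_univ 0), card_univ, Fintype.card_fin]
    omega
  set lo : Fin (m + 1) → ℕ := fun b => if b = a then h a else 0 with hlo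
  set hi : Fin (m + 1) → ℕ := fun b => if b = 0 then j + 1 else if b < a then min (h b) L else L
    with hhi
  have hi0 : hi 0 ≤ j + 1 := by
    rw [hhi]
    simp
  have hiL : ∀ b, hi b ≤ L := by
    intro b
    rw [hhi]
    simp only
    split_ifs
    · omega
    · exact min_le_right _ _
    · exact le_rfl
  have key := hN.mat j ω hj hg lo hi hi0 hiL U a (fun _ => 0) h0U haU ha u
  have hentry : ∀ i : Fin L, (i : ℕ) < j + 1 → ∀ t : Fin L,
      Mx U a (fun _ => 0) (cut lo hi v) ω i t = Bm a (va h a v) i t ω := by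
    intro i hi1 t
    unfold Mx Bm
    rw [Matrix.of_apply]
    have e1 : fr L U (Function.update (Function.update (fun _ => 0) 0 (i : ℕ)) a (t : ℕ)) =
        fr L U (Function.update (fun _ => (i : ℕ)) a (t : ℕ)) := by
      refine fr_congr fun b hb => ?_
      by_cases hba : b = a
      · subst hba
        simp
      · have hb0 : b = 0 := by
          by_contra hb0
          exact hb (mem_erase.2 ⟨hba, mem_erase.2 ⟨hb0, mem_univ b⟩⟩)
        subst hb0
        rw [Function.update_of_ne hba, Function.update_of_ne hba, Function.update_self]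
    rw [e1]
    refine sum_congr rfl fun r hr => ?_
    congr 1
    rw [mem_fr] at hr
    have hr0 : r 0 = i := by
      rw [hr.2 0 h0U, Function.update_of_ne (Ne.symm ha)]
    have hra : r a = t := by
      rw [hr.2 a haU, Function.update_self]
    unfold cut va
    by_cases hc : (∀ b, b ≠ 0 → b < a → r b < h b) ∧ h a ≤ r a
    · rw [if_pos hc, if_pos]
      intro b
      by_cases hb0 : b = 0
      · subst hb0
        rw [hlo, hhi]
        simp only [if_neg (Ne.symm ha), if_true]
        omega
      · by_cases hba : b = a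
        · subst hba
          rw [hlo, hhi]
          simp only [if_true, if_neg hb0, lt_irrefl, if_false]
          exact ⟨hc.2, by rw [hra]; exact t.2⟩
        · have hbU : b ∈ U := mem_erase.2 ⟨hba, mem_erase.2 ⟨hb0, mem_univ b⟩⟩
          have hbL := hr.1 b hbU
          rw [hlo, hhi]
          simp only [if_neg hb0, if_neg hba]
          refine ⟨Nat.zero_le _, ?_⟩
          split_ifs with hlt
          · exact lt_min (hc.1 b hb0 hlt) hbL
          · exact hbL
    · rw [if_neg hc, if_neg]
      intro hall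
      apply hc
      refine ⟨fun b hb0 hlt => ?_, ?_⟩
      · have := (hall b).2
        rw [hhi] at this
        simp only [if_neg hb0, if_pos hlt] at this
        exact lt_of_lt_of_le this (min_le_left _ _)
      · have := (hall a).1
        rw [hlo] at this
        simpa using this
  have e2 : ∑ i ∈ range (j + 1), (∑ t : Fin L, Bm a (va h a v) i t ω * u t) ^ 2 ≤
      ∑ x : Fin L, (∑ y : Fin L, Mx U a (fun _ => 0) (cut lo hi v) ω x y * u y) ^ 2 := by
    have e3 : ∑ i ∈ range (j + 1), (∑ t : Fin L, Bm a (va h a v) i t ω * u t) ^ 2 =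
        ∑ i ∈ range L, (if i < j + 1 then
          (∑ t : Fin L, Bm a (va h a v) i t ω * u t) ^ 2 else 0) := by
      rw [← sum_filter]
      refine sum_congr ?_ fun _ _ => rfl
      ext i
      rw [mem_range, mem_filter, mem_range]
      omega
    rw [e3, Finset.sum_range]
    refine sum_le_sum fun x _ => ?_
    split_ifs with hx
    · refine le_of_eq ?_
      congr 1
      exact sum_congr rfl fun t _ => by rw [hentry x hx t]
    · exact sq_nonneg _
  refine e2.trans (key.trans ?_)
  rw [hcard]
  exact mul_le_mul_of_nonneg_right hb (sum_nonneg fun _ _ => sq_nonneg _)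

end R30

open R30

/-- REMG -/
theorem remg_30 (hV : StVisG) (hC : StCmnG) : StRemG := by
  intro m L N k lam b bb v g h hm hk hlam hv hg hN hb hbb hP hQ hL j0 ω hj0 hf
  have hE : Eeb m L := eeb_36 m L
  set θ : ℕ → Pt m L → ℝ := tg lam g v with hθ
  set Q : Pt m L → ℝ := qq θ with hQdef
  set p : Fin (m + 1) → ℕ := Function.update h 0 j0 with hp
  have hQ0 : ∀ ω, 0 ≤ Q ω := hQ.nonneg
  have hR : fd θ h j0 ω = EE p Q ω := rfl
  set R : ℝ := EE p Q ω with hRdef
  rw [hR] at hf ⊢
  have hpj : ∀ j, j0 ≤ j → ∀ a, p a ≤ (Function.update h 0 j) a := by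
    intro j hj a
    rw [hp]
    by_cases ha : a = 0
    · subst ha
      simpa using hj
    · rw [Function.update_of_ne ha, Function.update_of_ne ha]
  have hMsx : ∀ j, Ms (Function.update h 0 j) (xo lam g v h j) := by
    intro j
    unfold xo ad
    exact ((hC m L Q (θ j) _ hQ0).1.comp2
      (((Ms_XX_vin hv h j).comp2 (hC m L Q (g j) _ hQ0).1
        (fun x y => lam * x * y))) (fun x y => x - y))
  set X : ℕ → Pt m L → ℝ := fun j => if j0 ≤ j ∧ j < h 0 then xo lam g v h j else fun _ => 0
    with hX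
  set W : ℝ := EE p (fun ω' => Q ω' * ∑ j ∈ Finset.Ico j0 (h 0), xo lam g v h j ω' ^ 2) ω with hW
  have hEEmono : ∀ φ ψ : Pt m L → ℝ, (∀ ω, φ ω ≤ ψ ω) → EE p φ ω ≤ EE p ψ ω :=
    fun φ ψ hh => hE.mono p φ ψ hh ω
  have hW0 : 0 ≤ W := by
    have := hEEmono (fun _ => 0) (fun ω' => Q ω' *
      ∑ j ∈ Finset.Ico j0 (h 0), xo lam g v h j ω' ^ 2)
      (fun ω' => mul_nonneg (hQ0 ω') (sum_nonneg fun _ _ => sq_nonneg _))
    rwa [hE.const] at this
  -- the energy as a correlation
  have hone : ∀ j, j0 ≤ j → EE p (fun ω' => Q ω' * xo lam g v h j ω' ^ 2) ω =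
      lam * EE p (fun ω' => Q ω' * (g j ω' * (∑ a ∈ Inn m, XX (va h a v) j ω') *
        xo lam g v h j ω')) ω := by
    intro j hj
    have e1 := (hC m L Q (θ j) (Function.update h 0 j) hQ0).2.2 p (xo lam g v h j) ω
      (hpj j hj) (hMsx j)
    have e2 := (hC m L Q (g j) (Function.update h 0 j) hQ0).2.2 p
      (fun ω' => lam * XX (vin h v) j ω' * xo lam g v h j ω') ω
      (hpj j hj) ((Ms_XX_vin hv h j).comp2 (hMsx j) (fun x y => lam * x * y))
    have e3 : EE p (fun ω' => Q ω' * xo lam g v h j ω' ^ 2) ω =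
        EE p (fun ω' => Q ω' * (cmn Q (θ j) (Function.update h 0 j) ω' * xo lam g v h j ω')) ω -
        EE p (fun ω' => Q ω' * (cmn Q (g j) (Function.update h 0 j) ω' *
          (lam * XX (vin h v) j ω' * xo lam g v h j ω'))) ω := by
      have e4 : ∀ φ ψ : Pt m L → ℝ, EE p (fun ω' => φ ω' - ψ ω') ω = EE p φ ω - EE p ψ ω := by
        intro φ ψ
        have e5 := hE.add p φ (fun ω' => (-1) * ψ ω') ω
        have e6 := hE.smul p (-1) ψ ω
        have e7 : (fun ω' => φ ω' - ψ ω') = fun ω' => φ ω' + (-1) * ψ ω' := by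
          funext ω'
          ring
        rw [e7, e5, e6]
        ring
      rw [← e4]
      congr 1
      funext ω'
      have e8 : xo lam g v h j ω' = cmn Q (θ j) (Function.update h 0 j) ω' -
        lam * XX (vin h v) j ω' * cmn Q (g j) (Function.update h 0 j) ω' := rfl
      have e9 : xo lam g v h j ω' ^ 2 = (cmn Q (θ j) (Function.update h 0 j) ω' -
        lam * XX (vin h v) j ω' * cmn Q (g j) (Function.update h 0 j) ω') *
          xo lam g v h j ω' := by
        rw [← e8]
        ring
      rw [e9]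
      ring
    rw [e3, ← e1, ← e2]
    have e4 : ∀ φ ψ : Pt m L → ℝ, EE p (fun ω' => φ ω' - ψ ω') ω = EE p φ ω - EE p ψ ω := by
      intro φ ψ
      have e5 := hE.add p φ (fun ω' => (-1) * ψ ω') ω
      have e6 := hE.smul p (-1) ψ ω
      have e7 : (fun ω' => φ ω' - ψ ω') = fun ω' => φ ω' + (-1) * ψ ω' := by
        funext ω'
        ring
      rw [e7, e5, e6]
      ring
    rw [← e4, ← hE.smul]
    congr 1
    funext ω'
    rw [← XX_va_split, hθ]
    unfold tg
    ring
  -- the sum over the strings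
  have hsum : W = lam * ∑ a ∈ Inn m, ∑ j ∈ range L,
      EE p (fun ω' => Q ω' * (g j ω' * XX (va h a v) j ω' * X j ω')) ω := by
    have e1 : W = ∑ j ∈ Finset.Ico j0 (h 0), EE p (fun ω' => Q ω' * xo lam g v h j ω' ^ 2) ω := by
      rw [hW]
      have e2 : (fun ω' => Q ω' * ∑ j ∈ Finset.Ico j0 (h 0), xo lam g v h j ω' ^ 2) =
          fun ω' => ∑ j ∈ Finset.Ico j0 (h 0), Q ω' * xo lam g v h j ω' ^ 2 := by
        funext ω'
        rw [mul_sum]
      rw [e2]
      have e3 := hE.sum p ((Finset.Ico j0 (h 0)).image (fun j => fun _ : Fin (m + 1) => j))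
        (fun r ω' => Q ω' * xo lam g v h (r 0) ω' ^ 2) ω
      have hinj : Set.InjOn (fun j => fun _ : Fin (m + 1) => j)
          ((Finset.Ico j0 (h 0) : Finset ℕ) : Set ℕ) := by
        intro x _ y _ hxy
        exact congrFun hxy 0
      rw [Finset.sum_image (fun x hx y hy hxy => hinj hx hy hxy)] at e3
      have e4 : (fun ω' => ∑ j ∈ Finset.Ico j0 (h 0), Q ω' * xo lam g v h j ω' ^ 2) =
          fun ω' => ∑ r ∈ (Finset.Ico j0 (h 0)).image (fun j => fun _ : Fin (m + 1) => j),
            Q ω' * xo lam g v h (r 0) ω' ^ 2 := by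
        funext ω'
        rw [Finset.sum_image (fun x hx y hy hxy => hinj hx hy hxy)]
      rw [e4, e3]
    have e5 : ∀ j ∈ Finset.Ico j0 (h 0), EE p (fun ω' => Q ω' * xo lam g v h j ω' ^ 2) ω =
        lam * ∑ a ∈ Inn m, EE p (fun ω' => Q ω' * (g j ω' * XX (va h a v) j ω' * X j ω')) ω := by
      intro j hj
      rw [Finset.mem_Ico] at hj
      rw [hone j hj.1]
      congr 1
      have hXj : X j = xo lam g v h j := by
        rw [hX]
        simp only
        rw [if_pos hj]
      rw [hXj]
      have e6 := hE.sum p ((Inn m).image (fun a => Function.update (fun _ : Fin (m + 1) => 0) a 1))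
        (fun r ω' => ∑ a ∈ Inn m, if r = Function.update (fun _ : Fin (m + 1) => 0) a 1 then
          Q ω' * (g j ω' * XX (va h a v) j ω' * xo lam g v h j ω') else 0) ω
      -- direct induction instead
      clear e6
      have e7 : ∀ S : Finset (Fin (m + 1)), EE p (fun ω' => Q ω' *
          (g j ω' * (∑ a ∈ S, XX (va h a v) j ω') * xo lam g v h j ω')) ω =
          ∑ a ∈ S, EE p (fun ω' => Q ω' * (g j ω' * XX (va h a v) j ω' *
            xo lam g v h j ω')) ω := by
        intro S
        induction S using Finset.induction_on with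
        | empty =>
          have : (fun ω' => Q ω' * (g j ω' * (∑ a ∈ (∅ : Finset (Fin (m + 1))),
              XX (va h a v) j ω') * xo lam g v h j ω')) = fun _ => (0 : ℝ) := by
            funext ω'
            simp
          rw [this, hE.const, sum_empty]
        | insert c S hc ih =>
          rw [sum_insert hc, ← ih, ← hE.add]
          congr 1
          funext ω'
          rw [sum_insert hc]
          ring
      exact e7 (Inn m)
    rw [e1, sum_congr rfl e5, ← mul_sum, sum_comm]
    congr 1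
    refine sum_congr rfl fun a _ => ?_
    refine sum_subset (fun j hj => ?_) (fun j _ hj => ?_)
    · rw [Finset.mem_Ico] at hj
      rw [mem_range]
      omega
    · have hXj : X j = fun _ => 0 := by
        rw [hX]
        simp only
        rw [if_neg]
        rw [Finset.mem_Ico] at hj
        exact hj
      rw [hXj]
      simp only [mul_zero]
      exact hE.const p 0 ω
  set Z : ℝ := k + Real.log (L + 1) - Real.log R with hZ
  have hZ0 : 0 ≤ Z := by
    have h1 : R ≤ Real.exp k := by
      have := hEEmono Q (fun _ => Real.exp k) hQ.le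
      rwa [hE.const] at this
    have h2 : Real.log R ≤ k := by
      have := Real.log_le_log hf h1
      rwa [Real.log_exp] at this
    have h3 : 0 ≤ Real.log ((L : ℝ) + 1) := Real.log_nonneg (by
      have : (0 : ℝ) ≤ L := Nat.cast_nonneg L
      linarith)
    rw [hZ]
    linarith
  -- one string
  have hstr : ∀ a ∈ Inn m, (∑ j ∈ range L,
      EE p (fun ω' => Q ω' * (g j ω' * XX (va h a v) j ω' * X j ω')) ω) ^ 2 ≤
        4 * b * (R * Z) * W := by
    intro a ha
    have ha0 : a ≠ 0 := (mem_erase.1 ha).1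
    have hXms : ∀ i t, h a ≤ t → Ms (one L a t) (X i) := by
      intro i t ht
      rw [hX]
      simp only
      split_ifs
      · refine (hMsx i).one a t ?_
        rwa [Function.update_of_ne ha0]
      · exact Ms.cst _ _
    have key := hV m L N (h a) k b a p (va h a v) Q g X ω ha0 hb hQ0 hQ.le hf (by
        rw [hp, Function.update_of_ne ha0]) (ArK_va hv h a) hg (fun q ω' hq => by
        unfold va
        rw [if_neg]
        rintro ⟨_, h2⟩
        omega) hXms (fun j ω' hj hgj u => rows_va hN hbb h ha0 j ω' hj hgj u)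
    refine key.trans ?_
    refine mul_le_mul_of_nonneg_left ?_ (by positivity)
    rw [hW]
    refine hEEmono _ _ fun ω' => ?_
    refine mul_le_mul_of_nonneg_left ?_ (hQ0 ω')
    have e1 : ∑ j ∈ Finset.Ico j0 (h 0), xo lam g v h j ω' ^ 2 =
        ∑ j ∈ Finset.Ico j0 (h 0), X j ω' ^ 2 := by
      refine sum_congr rfl fun j hj => ?_
      rw [Finset.mem_Ico] at hj
      rw [hX]
      simp only
      rw [if_pos hj]
    have e2 : ∑ j ∈ Finset.Ico j0 (h 0), X j ω' ^ 2 = ∑ j ∈ range L, X j ω' ^ 2 := by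
      refine sum_subset (fun j hj => ?_) (fun j _ hj => ?_)
      · rw [Finset.mem_Ico] at hj
        rw [mem_range]
        omega
      · rw [hX]
        simp only
        rw [if_neg]
        · simp
        · rw [Finset.mem_Ico] at hj
          exact hj
    rw [e1, e2]
    refine sum_le_sum fun j _ => ?_
    rcases hg.zo j ω' with h1 | h1
    · rw [h1, zero_mul]
      exact sq_nonneg _
    · rw [h1, one_mul]
  have hcardI : ((Inn m).card : ℝ) = m := by
    unfold Inn
    rw [card_erase_of_mem (mem_univ 0), card_univ, Fintype.card_fin]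
    simp
  have hfin : W ^ 2 ≤ lam ^ 2 * (m * (m * (4 * b * (R * Z) * W))) := by
    have h1 : (∑ a ∈ Inn m, ∑ j ∈ range L,
        EE p (fun ω' => Q ω' * (g j ω' * XX (va h a v) j ω' * X j ω')) ω) ^ 2 ≤
        m * ∑ a ∈ Inn m, (∑ j ∈ range L,
          EE p (fun ω' => Q ω' * (g j ω' * XX (va h a v) j ω' * X j ω')) ω) ^ 2 := by
      have := sq_sum_le_card_mul_sum_sq (s := Inn m) (f := fun a => ∑ j ∈ range L,
        EE p (fun ω' => Q ω' * (g j ω' * XX (va h a v) j ω' * X j ω')) ω)
      rwa [hcardI] at this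
    have h2 : ∑ a ∈ Inn m, (∑ j ∈ range L,
          EE p (fun ω' => Q ω' * (g j ω' * XX (va h a v) j ω' * X j ω')) ω) ^ 2 ≤
        m * (4 * b * (R * Z) * W) := by
      refine (sum_le_sum hstr).trans ?_
      rw [sum_const, nsmul_eq_mul, hcardI]
    have hm0 : (0 : ℝ) ≤ m := Nat.cast_nonneg m
    calc W ^ 2 = lam ^ 2 * (∑ a ∈ Inn m, ∑ j ∈ range L,
        EE p (fun ω' => Q ω' * (g j ω' * XX (va h a v) j ω' * X j ω')) ω) ^ 2 := by
          rw [hsum, mul_pow]
      _ ≤ lam ^ 2 * (m * (m * (4 * b * (R * Z) * W))) :=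
          mul_le_mul_of_nonneg_left (h1.trans (mul_le_mul_of_nonneg_left h2 hm0)) (sq_nonneg _)
  rcases hW0.eq_or_lt with h0 | h0
  · rw [← h0]
    positivity
  · have h3 : W * W ≤ (4 * (m : ℝ) ^ 2 * lam ^ 2 * b * (R * Z)) * W := by
      calc W * W = W ^ 2 := by ring
        _ ≤ lam ^ 2 * (m * (m * (4 * b * (R * Z) * W))) := hfin
        _ = _ := by ring
    exact le_of_mul_le_mul_right h3 h0

end Pool.Agent.SHD
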