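import Pool.Agent.Lib.MP_a7b2aa_an.SHD.Stmts4_25
import Pool.Agent.Lib.MP_a7b2aa_an.SHD.RemG30
import Pool.Agent.Lib.MP_a7b2aa_an.SHD.MomE21
import Pool.Agent.Lib.MP_a7b2aa_an.SHD.TopM32

/-!
SHD4, module TAILY (helper23): the tail of the energy of `xo` (from REMG, MOME, CMNG). The same
core gives TAILX.
-/

set_option autoImplicit false

namespace Pool.Agent.SHD

open Finset Pool.Agent.SB3 Pool.Agent.SBT Pool.Agent.SBD

namespace TY23

section core

variable {m L N : ℕ}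

theorem Ms_xo (hC : StCmnG) {v : (Fin (m + 1) → ℕ) → Pt m L → ℝ} {g : ℕ → Pt m L → ℝ} {lam : ℝ}
    (hv : ArK N v) (hQ0 : ∀ ω, 0 ≤ qq (tg lam g v) ω) (h : Fin (m + 1) → ℕ) (j : ℕ) :
    Ms (Function.update h 0 j) (xo lam g v h j) := by
  unfold xo ad
  exact ((hC m L _ (tg lam g v j) _ hQ0).1.comp2
    (((R30.Ms_XX_vin hv h j).comp2 (hC m L _ (g j) _ hQ0).1
      (fun x y => lam * x * y))) (fun x y => x - y))

/-- the density of the class is large up to `j` -/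
def AA (θ : ℕ → Pt m L → ℝ) (h : Fin (m + 1) → ℕ) (τ : ℝ) (j : ℕ) (ω : Pt m L) : Prop :=
  ∀ i ≤ j, τ ≤ fd θ h i ω

theorem Ms_AA (θ : ℕ → Pt m L → ℝ) (h : Fin (m + 1) → ℕ) (τ : ℝ) (j : ℕ) :
    Ms (Function.update h 0 j) (AA θ h τ j) := by
  intro ω ω' hω
  unfold AA
  have e : ∀ i ≤ j, fd θ h i ω' = fd θ h i ω := by
    intro i hi
    unfold fd
    exact Ms_upd_21 hi ((eeb_36 m L).ms (Function.update h 0 i) (qq θ)) ω ω' hω
  refine propext ⟨fun H i hi => ?_, fun H i hi => ?_⟩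
  · rw [← e i hi]
    exact H i hi
  · rw [e i hi]
    exact H i hi

open Classical in
/-- one small class -/
theorem Pr_small {θ : ℕ → Pt m L → ℝ} {τ : ℝ} (hτ : 0 ≤ τ)
    (h : Fin (m + 1) → ℕ) (i : ℕ) : Pr (qq θ) (fun ω => fd θ h i ω < τ) ≤ τ := by
  have hE := eeb_36 m L
  set p := Function.update h 0 i with hp
  set χ : Pt m L → ℝ := fun ω => if fd θ h i ω < τ then 1 else 0 with hχ
  have hMs : Ms p χ := by
    intro ω ω' hω
    have e : fd θ h i ω' = fd θ h i ω := hE.ms p (qq θ) ω ω' hω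
    simp only [hχ, e]
  have e1 : Pr (qq θ) (fun ω => fd θ h i ω < τ) = Av (fun ω => χ ω * fd θ h i ω) := by
    unfold Pr Ex
    rw [← hE.mean p (fun ω => qq θ ω * if fd θ h i ω < τ then 1 else 0)]
    refine congrArg Av (funext fun ω => ?_)
    have e2 : (fun ω => qq θ ω * if fd θ h i ω < τ then (1 : ℝ) else 0) =
        fun ω => χ ω * qq θ ω := by
      funext ω
      rw [mul_comm]
    rw [e2, hE.pull p χ _ hMs]
    rfl
  rw [e1]
  refine (Av_mono (ψ := fun _ => τ) fun ω => ?_).trans (Av_const τ).le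
  simp only [hχ]
  split_ifs with hlt
  · rw [one_mul]
    exact hlt.le
  · rw [zero_mul]
    exact hτ

open Classical in
theorem core (hRem : StRemG) (hM : StMomE) (hC : StCmnG) {k lam b s τ : ℝ} {bb : ℕ → ℝ}
    {v : (Fin (m + 1) → ℕ) → Pt m L → ℝ} {g : ℕ → Pt m L → ℝ} {h : Fin (m + 1) → ℕ}
    (hm : 1 ≤ m) (hL : 1 ≤ L) (hk : 0 ≤ k) (hlam : 0 ≤ lam) (hv : ArK N v) (hg : Gate g)
    (hN : Nrm bb g v) (hb : 0 ≤ b) (hbb : bb (m - 1) ≤ b) (hP : Prd (tg lam g v))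
    (hQ : Law k (qq (tg lam g v))) (hh : h 0 ≤ L) (hs : 0 < s) (hτ : 0 < τ) (hτ1 : τ ≤ 1)
    (r : ℕ) :
    Pr (qq (tg lam g v)) (fun ω => s < ∑ j ∈ range (h 0), xo lam g v h j ω ^ 2) ≤
      (r.factorial : ℝ) * (4 * (m : ℝ) ^ 2 * lam ^ 2 * b *
        (k + Real.log (L + 1) - Real.log τ)) ^ r / s ^ r + (h 0 : ℝ) * τ := by
  have hE := eeb_36 m L
  set θ := tg lam g v with hθ
  set Q := qq θ with hQd
  have hQ0 : ∀ ω, 0 ≤ Q ω := hQ.nonneg
  have hlog : 0 ≤ Real.log ((L : ℝ) + 1) := Real.log_nonneg (by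
    have : (1 : ℝ) ≤ L := by exact_mod_cast hL
    linarith)
  have hlt : Real.log τ ≤ 0 := Real.log_nonpos hτ.le hτ1
  set η : ℝ := 4 * (m : ℝ) ^ 2 * lam ^ 2 * b * (k + Real.log (L + 1) - Real.log τ) with hη
  have hη0 : 0 ≤ η := by
    have : 0 ≤ k + Real.log ((L : ℝ) + 1) - Real.log τ := by linarith
    positivity
  set Y : ℕ → Pt m L → ℝ := fun j ω => if AA θ h τ j ω then xo lam g v h j ω ^ 2 else 0 with hY
  have hY0 : ∀ j ω, 0 ≤ Y j ω := by
    intro j ω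
    simp only [hY]
    split_ifs
    · exact sq_nonneg _
    · exact le_refl _
  have hYx : ∀ j ω, Y j ω ≤ xo lam g v h j ω ^ 2 := by
    intro j ω
    simp only [hY]
    split_ifs
    · exact le_refl _
    · exact sq_nonneg _
  have hYM : ∀ j, Ms (Function.update h 0 j) (Y j) := by
    intro j ω ω' hω
    have e1 : AA θ h τ j ω' = AA θ h τ j ω := Ms_AA θ h τ j ω ω' hω
    have e2 : xo lam g v h j ω' = xo lam g v h j ω := Ms_xo hC hv hQ0 h j ω ω' hω
    simp only [hY, e1, e2]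
  have hrem : ∀ j ω, j ≤ h 0 → EE (Function.update h 0 j)
      (fun ω' => Q ω' * ∑ i ∈ Finset.Ico j (h 0), Y i ω') ω ≤
      η * EE (Function.update h 0 j) Q ω := by
    intro j ω hj
    set p := Function.update h 0 j with hp
    have hfd : fd θ h j ω = EE p Q ω := rfl
    by_cases hA : AA θ h τ j ω
    · have h1 : τ ≤ fd θ h j ω := hA j le_rfl
      have h2 : 0 < fd θ h j ω := hτ.trans_le h1
      have h3 := hRem m L N k lam b bb v g h hm hk hlam hv hg hN hb hbb hP hQ hh j ω hj h2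
      have h4 : EE p (fun ω' => Q ω' * ∑ i ∈ Finset.Ico j (h 0), Y i ω') ω ≤
          EE p (fun ω' => Q ω' * ∑ i ∈ Finset.Ico j (h 0), xo lam g v h i ω' ^ 2) ω :=
        hE.mono p _ _ (fun ω' => mul_le_mul_of_nonneg_left
          (sum_le_sum fun i _ => hYx i ω') (hQ0 ω')) ω
      refine h4.trans (h3.trans ?_)
      rw [← hfd]
      have h5 : Real.log τ ≤ Real.log (fd θ h j ω) := Real.log_le_log hτ h1
      calc 4 * (m : ℝ) ^ 2 * lam ^ 2 * b * (fd θ h j ω *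
          (k + Real.log (L + 1) - Real.log (fd θ h j ω))) =
          4 * (m : ℝ) ^ 2 * lam ^ 2 * b * (k + Real.log (L + 1) - Real.log (fd θ h j ω)) *
            fd θ h j ω := by ring
        _ ≤ 4 * (m : ℝ) ^ 2 * lam ^ 2 * b * (k + Real.log (L + 1) - Real.log τ) *
            fd θ h j ω := by gcongr
        _ = η * fd θ h j ω := by rw [hη]
    · set χ : Pt m L → ℝ := fun ω => if AA θ h τ j ω then 1 else 0 with hχ
      have hχM : Ms p χ := by
        intro ω ω' hω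
        have e1 : AA θ h τ j ω' = AA θ h τ j ω := Ms_AA θ h τ j ω ω' hω
        simp only [hχ, e1]
      have e1 : (fun ω' => Q ω' * ∑ i ∈ Finset.Ico j (h 0), Y i ω') =
          fun ω' => χ ω' * (Q ω' * ∑ i ∈ Finset.Ico j (h 0), Y i ω') := by
        funext ω'
        simp only [hχ]
        by_cases h1 : AA θ h τ j ω'
        · rw [if_pos h1, one_mul]
        · rw [if_neg h1, zero_mul]
          have h2 : ∑ i ∈ Finset.Ico j (h 0), Y i ω' = 0 := by
            refine sum_eq_zero fun i hi => ?_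
            simp only [hY]
            rw [if_neg]
            intro h3
            exact h1 fun i' hi' => h3 i' (hi'.trans (mem_Ico.1 hi).1)
          rw [h2, mul_zero]
      rw [e1, hE.pull p χ _ hχM]
      have e2 : χ ω = 0 := if_neg hA
      rw [e2, zero_mul]
      refine mul_nonneg hη0 ?_
      have := hE.mono p (fun _ => 0) Q hQ0 ω
      rwa [hE.const] at this
  have hmom := hM m L (h 0) r η h Q Y hQ0 hQ.mean hη0 hY0 hYM hrem
  have hsr : 0 < s ^ r := pow_pos hs r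
  have hY1 : Pr Q (fun ω => s < ∑ j ∈ range (h 0), Y j ω) ≤
      (r.factorial : ℝ) * η ^ r / s ^ r := by
    rcases Nat.eq_zero_or_pos r with hr | hr
    · subst hr
      simp only [Nat.factorial_zero, Nat.cast_one, pow_zero, mul_one, div_one]
      exact Pr_le_one hQ _
    · have h1 : Pr Q (fun ω => s < ∑ j ∈ range (h 0), Y j ω) ≤
          Pr Q (fun ω => s ^ r < (∑ j ∈ range (h 0), Y j ω) ^ r) :=
        Pr_mono hQ fun ω hω => pow_lt_pow_left₀ hω hs.le (by omega)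
      refine h1.trans ((Pr_markov hQ _ (fun ω => pow_nonneg (sum_nonneg fun j _ => hY0 j ω) r)
        hsr).trans ?_)
      gcongr
  have hev : Pr Q (fun ω => s < ∑ j ∈ range (h 0), xo lam g v h j ω ^ 2) ≤
      Pr Q (fun ω => s < ∑ j ∈ range (h 0), Y j ω) +
        Pr Q (fun ω => ∃ i < h 0, fd θ h i ω < τ) := by
    refine (Pr_mono hQ (Q := fun ω => s < ∑ j ∈ range (h 0), Y j ω ∨
      ∃ i < h 0, fd θ h i ω < τ) fun ω hω => ?_).trans (Pr_or_le hQ _ _)
    by_cases h1 : ∃ i < h 0, fd θ h i ω < τ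
    · right
      exact h1
    · left
      push Not at h1
      have e1 : ∑ j ∈ range (h 0), Y j ω = ∑ j ∈ range (h 0), xo lam g v h j ω ^ 2 := by
        refine sum_congr rfl fun j hj => ?_
        simp only [hY]
        rw [if_pos]
        intro i hi
        exact h1 i (lt_of_le_of_lt hi (mem_range.1 hj))
      rw [e1]
      exact hω
  refine hev.trans (add_le_add hY1 ?_)
  refine (Pr_exists_le hQ (h 0) (fun i ω => fd θ h i ω < τ)).trans ?_
  refine (sum_le_sum fun i _ => Pr_small hτ.le h i).trans ?_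
  rw [sum_const, card_range, nsmul_eq_mul]

end core

end TY23

open TY23 in
/-- TAILX -/
theorem tailx_23 (hRem : StRemG) (hM : StMomE) (hC : StCmnG) : StTailX := by
  intro m n ε hm hε
  set r : ℕ := ⌈(n : ℝ) / ε⌉₊ with hr
  have hr1 : (n : ℝ) ≤ ε * r := by
    have := Nat.le_ceil ((n : ℝ) / ε)
    rw [div_le_iff₀ hε] at this
    rw [mul_comm]
    exact this
  refine ⟨4 * (m : ℝ) ^ 2 * (n + 2) + r.factorial * 4 ^ r + 1, by
    have h1 : (0 : ℝ) ≤ 4 * (m : ℝ) ^ 2 * (n + 2) := by positivity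
    have h2 : (0 : ℝ) ≤ r.factorial * 4 ^ r := by positivity
    linarith, ?_⟩
  intro L N k lam b bb v g h hL hk hlam hv hg hN hb hbb hP hQ hh hsmall
  have hL1 : (1 : ℝ) ≤ L := by exact_mod_cast hL
  have hX : (1 : ℝ) ≤ (L : ℝ) + 1 := by linarith
  have hX0 : (0 : ℝ) < (L : ℝ) + 1 := by linarith
  have hlog : 0 ≤ Real.log ((L : ℝ) + 1) := Real.log_nonneg hX
  have hτ : (0 : ℝ) < 1 / ((L : ℝ) + 1) ^ (n + 1) := by positivity
  have hτ1 : (1 : ℝ) / ((L : ℝ) + 1) ^ (n + 1) ≤ 1 := by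
    rw [div_le_one (by positivity)]
    exact one_le_pow₀ hX
  have hc := core hRem hM hC (s := 1 / 4) hm hL (by linarith) hlam hv hg hN hb hbb hP hQ hh
    (by norm_num) hτ hτ1 r
  refine hc.trans ?_
  have hlogτ : Real.log (1 / ((L : ℝ) + 1) ^ (n + 1)) = -((n + 1 : ℕ) * Real.log ((L : ℝ) + 1)) := by
    rw [one_div, Real.log_inv, Real.log_pow]
  set η := 4 * (m : ℝ) ^ 2 * lam ^ 2 * b * (k + Real.log (L + 1) -
    Real.log (1 / ((L : ℝ) + 1) ^ (n + 1))) with hη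
  have hkl : 0 ≤ k + Real.log ((L : ℝ) + 1) := by linarith
  have hη0 : 0 ≤ η := by
    rw [hη, hlogτ]
    have : 0 ≤ k + Real.log ((L : ℝ) + 1) - -((n + 1 : ℕ) * Real.log ((L : ℝ) + 1)) := by
      have : (0 : ℝ) ≤ (n + 1 : ℕ) * Real.log ((L : ℝ) + 1) := by positivity
      linarith
    positivity
  have hη1 : η ≤ ((L : ℝ) + 1) ^ (-ε) := by
    refine le_trans ?_ hsmall
    rw [hη, hlogτ]
    have h1 : k + Real.log ((L : ℝ) + 1) - -((n + 1 : ℕ) * Real.log ((L : ℝ) + 1)) ≤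
        (n + 2) * (k + Real.log ((L : ℝ) + 1)) := by
      push_cast
      have : 0 ≤ (n + 1 : ℝ) * k := by positivity
      nlinarith
    have h2 : 0 ≤ lam ^ 2 * b * (k + Real.log ((L : ℝ) + 1)) := by positivity
    have h3 : (0 : ℝ) ≤ r.factorial * 4 ^ r := by positivity
    calc 4 * (m : ℝ) ^ 2 * lam ^ 2 * b *
        (k + Real.log ((L : ℝ) + 1) - -((n + 1 : ℕ) * Real.log ((L : ℝ) + 1))) ≤
        4 * (m : ℝ) ^ 2 * lam ^ 2 * b * ((n + 2) * (k + Real.log ((L : ℝ) + 1))) := by gcongr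
      _ = (4 * (m : ℝ) ^ 2 * (n + 2)) * (lam ^ 2 * b * (k + Real.log ((L : ℝ) + 1))) := by ring
      _ ≤ (4 * (m : ℝ) ^ 2 * (n + 2) + r.factorial * 4 ^ r + 1) *
          (lam ^ 2 * b * (k + Real.log ((L : ℝ) + 1))) := by
        refine mul_le_mul_of_nonneg_right (by linarith) h2
      _ = _ := by ring
  have h4 : η ^ r ≤ 1 / ((L : ℝ) + 1) ^ n := by
    calc η ^ r ≤ (((L : ℝ) + 1) ^ (-ε)) ^ r := pow_le_pow_left₀ hη0 hη1 r
      _ = ((L : ℝ) + 1) ^ (-(ε * r)) := by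
        rw [← Real.rpow_natCast, ← Real.rpow_mul hX0.le, neg_mul]
      _ ≤ ((L : ℝ) + 1) ^ (-(n : ℝ)) := Real.rpow_le_rpow_of_exponent_le hX (by linarith)
      _ = 1 / ((L : ℝ) + 1) ^ n := by
        rw [Real.rpow_neg hX0.le, Real.rpow_natCast, one_div]
  have h5 : (h 0 : ℝ) * (1 / ((L : ℝ) + 1) ^ (n + 1)) ≤ 1 / ((L : ℝ) + 1) ^ n := by
    have h6 : (h 0 : ℝ) ≤ (L : ℝ) + 1 := by
      have : (h 0 : ℝ) ≤ L := by exact_mod_cast hh
      linarith
    calc (h 0 : ℝ) * (1 / ((L : ℝ) + 1) ^ (n + 1)) ≤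
        ((L : ℝ) + 1) * (1 / ((L : ℝ) + 1) ^ (n + 1)) :=
          mul_le_mul_of_nonneg_right h6 hτ.le
      _ = 1 / ((L : ℝ) + 1) ^ n := by
        rw [pow_succ]
        field_simp
  have h7 : (r.factorial : ℝ) * η ^ r / (1 / 4) ^ r ≤
      (r.factorial : ℝ) * 4 ^ r * (1 / ((L : ℝ) + 1) ^ n) := by
    have : ((1 : ℝ) / 4) ^ r = 1 / 4 ^ r := by rw [div_pow, one_pow]
    rw [this, div_div_eq_mul_div, div_one]
    calc (r.factorial : ℝ) * η ^ r * 4 ^ r = (r.factorial : ℝ) * 4 ^ r * η ^ r := by ring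
      _ ≤ (r.factorial : ℝ) * 4 ^ r * (1 / ((L : ℝ) + 1) ^ n) := by gcongr
  have h8 : (0 : ℝ) ≤ 1 / ((L : ℝ) + 1) ^ n := by positivity
  have h9 : (0 : ℝ) ≤ 4 * (m : ℝ) ^ 2 * (n + 2) := by positivity
  calc _ ≤ (r.factorial : ℝ) * 4 ^ r * (1 / ((L : ℝ) + 1) ^ n) + 1 / ((L : ℝ) + 1) ^ n :=
        add_le_add h7 h5
    _ = (r.factorial * 4 ^ r + 1) * (1 / ((L : ℝ) + 1) ^ n) := by ring
    _ ≤ (4 * (m : ℝ) ^ 2 * (n + 2) + r.factorial * 4 ^ r + 1) * (1 / ((L : ℝ) + 1) ^ n) :=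
        mul_le_mul_of_nonneg_right (by linarith) h8
    _ = _ := by rw [mul_one_div]

open TY23 in
/-- TAILY -/
theorem taily_23 (hRem : StRemG) (hM : StMomE) (hC : StCmnG) : StTaily := by
  intro m n ε hm hε
  set r : ℕ := ⌈2 * (n : ℝ) / ε⌉₊ with hr
  have hr1 : (n : ℝ) ≤ ε / 2 * r := by
    have := Nat.le_ceil (2 * (n : ℝ) / ε)
    rw [div_le_iff₀ hε] at this
    rw [← hr] at this
    linarith
  refine ⟨4 * (m : ℝ) ^ 2 * (n + 2) + r.factorial + 1, by
    have h1 : (0 : ℝ) ≤ 4 * (m : ℝ) ^ 2 * (n + 2) := by positivity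
    have h2 : (0 : ℝ) ≤ r.factorial := by positivity
    linarith, ?_⟩
  intro L N R k lam b bb u g h hL hk hlam hu hg hN hb hbb hP hQ hh hsmall
  -- scaling
  set c : ℝ := (3 / 4 : ℝ) ^ R with hc
  set c' : ℝ := (4 / 3 : ℝ) ^ R with hc'
  have hcc : c' * c = 1 := by
    rw [hc, hc', ← mul_pow]
    norm_num
  have hc0 : 0 < c := by positivity
  have hc'0 : 0 < c' := by positivity
  set v : (Fin (m + 1) → ℕ) → Pt m L → ℝ := fun q ω => c * u q ω with hv
  have hXX : ∀ j ω, XX v j ω = c * XX u j ω := by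
    intro j ω
    unfold XX
    rw [mul_sum]
    exact sum_congr rfl fun q _ => by simp only [hv]; ring
  have htg : tg (c' * lam) g v = tg lam g u := by
    funext j ω
    unfold tg
    rw [hXX]
    calc c' * lam * (c * XX u j ω) * g j ω = (c' * c) * (lam * XX u j ω * g j ω) := by ring
      _ = _ := by rw [hcc, one_mul]
  have hvin : ∀ j ω, XX (vin h v) j ω = c * XX (vin h u) j ω := by
    intro j ω
    unfold XX
    rw [mul_sum]
    refine sum_congr rfl fun q _ => ?_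
    unfold vin
    split_ifs
    · simp only [hv]
      ring
    · ring
  have hxo : ∀ j ω, xo (c' * lam) g v h j ω = xo lam g u h j ω := by
    intro j ω
    unfold xo
    rw [htg, hvin]
    calc ad (tg lam g u) h j ω - c' * lam * (c * XX (vin h u) j ω) *
          cmn (qq (tg lam g u)) (g j) (Function.update h 0 j) ω =
        ad (tg lam g u) h j ω - (c' * c) * (lam * XX (vin h u) j ω *
          cmn (qq (tg lam g u)) (g j) (Function.update h 0 j) ω) := by ring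
      _ = _ := by rw [hcc, one_mul]
  have hcut : ∀ (lo hi q : Fin (m + 1) → ℕ) (ω : Pt m L),
      cut lo hi v q ω = c * cut lo hi u q ω := by
    intro lo hi q ω
    unfold cut
    split_ifs
    · rfl
    · ring
  have hArK : ArK N v := by
    refine ⟨fun q ω => ?_, fun q => (hu.dep q).comp (fun x => c * x)⟩
    unfold kap
    simp only [hv]
    by_cases h1 : dst (∑ a, q a) N ≤ R
    · rw [abs_mul, abs_of_pos hc0]
      calc c * |u q ω| ≤ c * 1 := mul_le_mul_of_nonneg_left (hu.abs q ω) hc0.le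
        _ = c := mul_one _
        _ ≤ _ := pow_le_pow_of_le_one (by norm_num) (by norm_num) h1
    · rw [hu.bd q ω (not_le.1 h1), mul_zero, abs_zero]
      positivity
  have hNrm : Nrm (fun w => c ^ 2 * bb w) g v := by
    refine ⟨?_, ?_⟩
    · intro j ω hj hgj lo hi h1 h2 U t q h3 h4 h5
      have h6 := TopM32.NB_smul (hN.mat j ω hj hgj lo hi h1 h2 U t q h3 h4 h5) c
      have e : Mx U t q (cut lo hi v) ω = c • Mx U t q (cut lo hi u) ω := by
        ext x y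
        rw [Matrix.smul_apply, smul_eq_mul]
        unfold Mx
        simp only [Matrix.of_apply]
        rw [mul_sum]
        exact sum_congr rfl fun r _ => by rw [hcut]; ring
      rw [e]
      exact h6
    · intro j ω hj hgj lo hi h1 h2 i
      have h6 := hN.ent j ω hj hgj lo hi h1 h2 i
      have e : XX (cut lo hi v) i ω = c * XX (cut lo hi u) i ω := by
        unfold XX
        rw [mul_sum]
        exact sum_congr rfl fun q _ => by rw [hcut]; ring
      rw [e, mul_pow]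
      exact mul_le_mul_of_nonneg_left h6 (sq_nonneg c)
  have hb' : 0 ≤ c ^ 2 * b := by positivity
  have hbb' : c ^ 2 * bb (m - 1) ≤ c ^ 2 * b := mul_le_mul_of_nonneg_left hbb (sq_nonneg c)
  have hP' : Prd (tg (c' * lam) g v) := by rw [htg]; exact hP
  have hQ' : Law k (qq (tg (c' * lam) g v)) := by rw [htg]; exact hQ
  have hlam' : 0 ≤ c' * lam := by positivity
  have hL1 : (1 : ℝ) ≤ L := by exact_mod_cast hL
  have hX : (1 : ℝ) ≤ (L : ℝ) + 1 := by linarith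
  have hX0 : (0 : ℝ) < (L : ℝ) + 1 := by linarith
  have hlog : 0 ≤ Real.log ((L : ℝ) + 1) := Real.log_nonneg hX
  have hτ : (0 : ℝ) < 1 / ((L : ℝ) + 1) ^ (n + 1) := by positivity
  have hτ1 : (1 : ℝ) / ((L : ℝ) + 1) ^ (n + 1) ≤ 1 := by
    rw [div_le_one (by positivity)]
    exact one_le_pow₀ hX
  have hs : (0 : ℝ) < ((L : ℝ) + 1) ^ (-(ε / 2)) := Real.rpow_pos_of_pos hX0 _
  have hco := core hRem hM hC (s := ((L : ℝ) + 1) ^ (-(ε / 2))) hm hL (by linarith) hlam' hArK hg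
    hNrm hb' hbb' hP' hQ' hh hs hτ hτ1 r
  rw [htg] at hco
  simp only [hxo] at hco
  refine hco.trans ?_
  have hlogτ : Real.log (1 / ((L : ℝ) + 1) ^ (n + 1)) = -((n + 1 : ℕ) * Real.log ((L : ℝ) + 1)) := by
    rw [one_div, Real.log_inv, Real.log_pow]
  have hsc : 4 * (m : ℝ) ^ 2 * (c' * lam) ^ 2 * (c ^ 2 * b) = 4 * (m : ℝ) ^ 2 * lam ^ 2 * b := by
    calc 4 * (m : ℝ) ^ 2 * (c' * lam) ^ 2 * (c ^ 2 * b) =
        (c' * c) ^ 2 * (4 * (m : ℝ) ^ 2 * lam ^ 2 * b) := by ring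
      _ = _ := by rw [hcc, one_pow, one_mul]
  rw [hsc]
  set η := 4 * (m : ℝ) ^ 2 * lam ^ 2 * b * (k + Real.log (L + 1) -
    Real.log (1 / ((L : ℝ) + 1) ^ (n + 1))) with hη
  have hkl : 0 ≤ k + Real.log ((L : ℝ) + 1) := by linarith
  have hη0 : 0 ≤ η := by
    rw [hη, hlogτ]
    have : 0 ≤ k + Real.log ((L : ℝ) + 1) - -((n + 1 : ℕ) * Real.log ((L : ℝ) + 1)) := by
      have : (0 : ℝ) ≤ (n + 1 : ℕ) * Real.log ((L : ℝ) + 1) := by positivity
      linarith
    positivity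
  have hη1 : η ≤ ((L : ℝ) + 1) ^ (-ε) := by
    refine le_trans ?_ hsmall
    rw [hη, hlogτ]
    have h1 : k + Real.log ((L : ℝ) + 1) - -((n + 1 : ℕ) * Real.log ((L : ℝ) + 1)) ≤
        (n + 2) * (k + Real.log ((L : ℝ) + 1)) := by
      push_cast
      have : 0 ≤ (n + 1 : ℝ) * k := by positivity
      nlinarith
    have h2 : 0 ≤ lam ^ 2 * b * (k + Real.log ((L : ℝ) + 1)) := by positivity
    have h3 : (0 : ℝ) ≤ r.factorial := by positivity
    calc 4 * (m : ℝ) ^ 2 * lam ^ 2 * b *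
        (k + Real.log ((L : ℝ) + 1) - -((n + 1 : ℕ) * Real.log ((L : ℝ) + 1))) ≤
        4 * (m : ℝ) ^ 2 * lam ^ 2 * b * ((n + 2) * (k + Real.log ((L : ℝ) + 1))) := by gcongr
      _ = (4 * (m : ℝ) ^ 2 * (n + 2)) * (lam ^ 2 * b * (k + Real.log ((L : ℝ) + 1))) := by ring
      _ ≤ (4 * (m : ℝ) ^ 2 * (n + 2) + r.factorial + 1) *
          (lam ^ 2 * b * (k + Real.log ((L : ℝ) + 1))) := by
        refine mul_le_mul_of_nonneg_right (by linarith) h2
      _ = _ := by ring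
  have h4 : η ^ r / (((L : ℝ) + 1) ^ (-(ε / 2))) ^ r ≤ 1 / ((L : ℝ) + 1) ^ n := by
    rw [← div_pow]
    have h5 : η / ((L : ℝ) + 1) ^ (-(ε / 2)) ≤ ((L : ℝ) + 1) ^ (-(ε / 2)) := by
      rw [div_le_iff₀ hs, ← Real.rpow_add hX0]
      refine hη1.trans (le_of_eq ?_)
      congr 1
      ring
    calc (η / ((L : ℝ) + 1) ^ (-(ε / 2))) ^ r ≤ (((L : ℝ) + 1) ^ (-(ε / 2))) ^ r :=
          pow_le_pow_left₀ (by positivity) h5 r
      _ = ((L : ℝ) + 1) ^ (-(ε / 2 * r)) := by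
        rw [← Real.rpow_natCast, ← Real.rpow_mul hX0.le, neg_mul]
      _ ≤ ((L : ℝ) + 1) ^ (-(n : ℝ)) := Real.rpow_le_rpow_of_exponent_le hX (by linarith)
      _ = 1 / ((L : ℝ) + 1) ^ n := by
        rw [Real.rpow_neg hX0.le, Real.rpow_natCast, one_div]
  have h5 : (h 0 : ℝ) * (1 / ((L : ℝ) + 1) ^ (n + 1)) ≤ 1 / ((L : ℝ) + 1) ^ n := by
    have h6 : (h 0 : ℝ) ≤ (L : ℝ) + 1 := by
      have : (h 0 : ℝ) ≤ L := by exact_mod_cast hh
      linarith
    calc (h 0 : ℝ) * (1 / ((L : ℝ) + 1) ^ (n + 1)) ≤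
        ((L : ℝ) + 1) * (1 / ((L : ℝ) + 1) ^ (n + 1)) :=
          mul_le_mul_of_nonneg_right h6 hτ.le
      _ = 1 / ((L : ℝ) + 1) ^ n := by
        rw [pow_succ]
        field_simp
  have h7 : (r.factorial : ℝ) * η ^ r / (((L : ℝ) + 1) ^ (-(ε / 2))) ^ r ≤
      (r.factorial : ℝ) * (1 / ((L : ℝ) + 1) ^ n) := by
    rw [mul_div_assoc]
    exact mul_le_mul_of_nonneg_left h4 (by positivity)
  have h8 : (0 : ℝ) ≤ 1 / ((L : ℝ) + 1) ^ n := by positivity
  have h9 : (0 : ℝ) ≤ 4 * (m : ℝ) ^ 2 * (n + 2) := by positivity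
  calc _ ≤ (r.factorial : ℝ) * (1 / ((L : ℝ) + 1) ^ n) + 1 / ((L : ℝ) + 1) ^ n :=
        add_le_add h7 h5
    _ = (r.factorial + 1) * (1 / ((L : ℝ) + 1) ^ n) := by ring
    _ ≤ (4 * (m : ℝ) ^ 2 * (n + 2) + r.factorial + 1) * (1 / ((L : ℝ) + 1) ^ n) :=
        mul_le_mul_of_nonneg_right (by linarith) h8
    _ = _ := by rw [mul_one_div]

end Pool.Agent.SHD
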