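import Pool.Agent.Lib.MP_a7b2aa_an.SHD.Stmts3_23
import Pool.Agent.Lib.MP_a7b2aa_an.SBD.STR21

/-!
SHD (helper65): modules TILTK, LAWK, STOPG, LAWN, RLAW.
-/

set_option autoImplicit false

namespace Pool.Agent.SHD

open Finset Pool.Agent.SB3 Pool.Agent.SBT Pool.Agent.SBD

/-! ### products of predictable factors -/

section gen

variable {m L : ℕ} (a : Fin (m + 1)) (γ : ℕ → Pt m L → ℝ)

/-- the partial products -/
noncomputable def PG65 (n : ℕ) (ω : Pt m L) : ℝ := ∏ i ∈ range n, (1 + sb a i ω * γ i ω)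

theorem one_self65 (t : ℕ) : one L a t a = t := by
  unfold one; rw [Function.update_self]

theorem sb_cases65 (t : ℕ) (ω : Pt m L) : sb a t ω = 1 ∨ sb a t ω = -1 := by
  have h := sb_sq a t ω
  have h2 : (sb a t ω - 1) * (sb a t ω + 1) = 0 := by linarith
  rcases mul_eq_zero.1 h2 with h3 | h3
  · left; linarith
  · right; linarith

theorem ms_one_mono65 {β : Type} {a : Fin (m + 1)} {s t : ℕ} (h : s ≤ t) {φ : Pt m L → β}
    (hφ : Ms (one L a s) φ) : Ms (one L a t) φ := by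
  refine hφ.mono fun b => ?_
  by_cases hb : b = a
  · subst hb
    left
    rw [one_self65, one_self65]
    exact h
  · left
    unfold one
    rw [Function.update_of_ne hb, Function.update_of_ne hb]

theorem sb_ms65 {i t : ℕ} (h : i < t) : Ms (one L a t) (sb (L := L) a i) :=
  Ms_sb (by rw [one_self65]; exact h)

variable {a γ}

theorem fac_nonneg65 (h1 : ∀ i ω, |γ i ω| ≤ 1) (i : ℕ) (ω : Pt m L) :
    0 ≤ 1 + sb a i ω * γ i ω := by
  have h2 := abs_le.1 (h1 i ω)
  rcases sb_cases65 a i ω with h | h <;> rw [h] <;> linarith [h2.1, h2.2]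

theorem PG_ms65 (hγ : ∀ i, Ms (one L a i) (γ i)) (n : ℕ) : Ms (one L a n) (PG65 a γ n) := by
  unfold PG65
  refine Ms.prod (range n) fun i hi => ?_
  exact (sb_ms65 a (mem_range.1 hi)).comp2 (ms_one_mono65 (mem_range.1 hi).le (hγ i))
    (fun x y => 1 + x * y)

theorem PG_nonneg65 (h1 : ∀ i ω, |γ i ω| ≤ 1) (n : ℕ) (ω : Pt m L) : 0 ≤ PG65 a γ n ω :=
  prod_nonneg fun i _ => fac_nonneg65 h1 i ω

theorem PG_succ65 (n : ℕ) (ω : Pt m L) :
    PG65 a γ (n + 1) ω = PG65 a γ n ω * (1 + sb a n ω * γ n ω) := by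
  unfold PG65
  rw [prod_range_succ]

theorem EE_fac65 (hE : Eeb m L) (hγ : ∀ i, Ms (one L a i) (γ i)) {n : ℕ} (hn : n < L)
    (ω : Pt m L) : EE (one L a n) (fun ω' => 1 + sb a n ω' * γ n ω') ω = 1 := by
  rw [hE.add (one L a n) (fun _ => 1) (fun ω' => sb a n ω' * γ n ω') ω, hE.const]
  have h1 : (fun ω' => sb a n ω' * γ n ω') = fun ω' => γ n ω' * sb a n ω' := by
    funext ω'
    ring
  rw [h1, hE.pull _ _ _ (hγ n), ee_sb_21 hE a n hn, mul_zero, add_zero]

theorem EE_PG65 (hE : Eeb m L) (hγ : ∀ i, Ms (one L a i) (γ i)) {t n : ℕ} (htn : t ≤ n)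
    (hn : n ≤ L) (ω : Pt m L) : EE (one L a t) (PG65 a γ n) ω = PG65 a γ t ω := by
  induction n, htn using Nat.le_induction with
  | base => exact hE.idem _ _ (PG_ms65 hγ t) ω
  | succ n htn ih =>
    have h1 : EE (one L a n) (PG65 a γ (n + 1)) = PG65 a γ n := by
      funext ω'
      have h2 : PG65 a γ (n + 1) =
          fun ω' => PG65 a γ n ω' * (fun ω'' => 1 + sb a n ω'' * γ n ω'') ω' := by
        funext ω''
        exact PG_succ65 n ω''
      rw [h2, hE.pull _ _ _ (PG_ms65 hγ n), EE_fac65 hE hγ (by omega), mul_one]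
    have h3 : EE (one L a t) (PG65 a γ (n + 1)) ω =
        EE (one L a t) (EE (one L a n) (PG65 a γ (n + 1))) ω := by
      rw [hE.comp]
      congr 1
      funext b
      by_cases hb : b = a
      · subst hb
        rw [one_self65, one_self65]
        omega
      · unfold one
        rw [Function.update_of_ne hb, Function.update_of_ne hb]
        simp
    rw [h3, h1]
    exact ih (by omega)

/-- the law, tested on a function of the first `t` signs -/
theorem Ex_PG65 (hE : Eeb m L) (hγ : ∀ i, Ms (one L a i) (γ i)) {t : ℕ} (ht : t ≤ L)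
    (X : Pt m L → ℝ) (hX : Ms (one L a t) X) :
    Ex (PG65 a γ L) X = Av (fun ω => PG65 a γ t ω * X ω) := by
  unfold Ex
  have h1 : (fun ω => PG65 a γ L ω * X ω) = fun ω => PG65 a γ L ω * EE (one L a t) X ω := by
    funext ω
    rw [hE.idem _ _ hX]
  rw [h1, hE.adj]
  congr 1
  funext ω
  rw [EE_PG65 hE hγ ht le_rfl]

theorem Ex_PGs65 (hE : Eeb m L) (hγ : ∀ i, Ms (one L a i) (γ i)) {i : ℕ} (hi : i < L)
    (X : Pt m L → ℝ) (hX : Ms (one L a i) X) :
    Ex (PG65 a γ L) (fun ω => sb a i ω * X ω) = Ex (PG65 a γ L) (fun ω => γ i ω * X ω) := by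
  rw [Ex_PG65 hE hγ (t := i + 1) hi (fun ω => sb a i ω * X ω)
      ((sb_ms65 a (Nat.lt_succ_self i)).comp2 (ms_one_mono65 (Nat.le_succ i) hX)
        (fun x y => x * y)),
    Ex_PG65 hE hγ (t := i) hi.le (fun ω => γ i ω * X ω) ((hγ i).comp2 hX (fun x y => x * y))]
  have h1 : (fun ω => PG65 a γ (i + 1) ω * (sb a i ω * X ω)) = fun ω =>
      (PG65 a γ i ω * X ω) * sb a i ω + PG65 a γ i ω * (γ i ω * X ω) := by
    funext ω
    rw [PG_succ65]
    have h2 := sb_sq a i ω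
    linear_combination (PG65 a γ i ω * γ i ω * X ω) * h2
  rw [h1, Av_add]
  have h3 : Av (fun ω => (PG65 a γ i ω * X ω) * sb a i ω) = 0 := by
    rw [← hE.mean (one L a i)]
    have h4 : EE (one L a i) (fun ω => (PG65 a γ i ω * X ω) * sb a i ω) = fun _ => 0 := by
      funext ω
      rw [hE.pull (one L a i) (fun ω => PG65 a γ i ω * X ω) (sb a i)
        ((PG_ms65 hγ i).comp2 hX (fun x y => x * y)), ee_sb_21 hE a i hi, mul_zero]
    rw [h4, Av_const]
  rw [h3, zero_add]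

theorem Av_PG65 (hE : Eeb m L) (hγ : ∀ i, Ms (one L a i) (γ i)) : Av (PG65 a γ L) = 1 := by
  rw [← hE.mean (one L a 0)]
  have h1 : EE (one L a 0) (PG65 a γ L) = fun _ => 1 := by
    funext ω
    rw [EE_PG65 hE hγ (Nat.zero_le L) le_rfl]
    unfold PG65
    simp
  rw [h1, Av_const]

/-- `1 + s t ≤ exp (s t)` -/
theorem PG_le_exp65 (h1 : ∀ i ω, |γ i ω| ≤ 1) (n : ℕ) (ω : Pt m L) :
    PG65 a γ n ω ≤ Real.exp (∑ i ∈ range n, sb a i ω * γ i ω) := by
  rw [Real.exp_sum]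
  unfold PG65
  refine prod_le_prod (fun i _ => fac_nonneg65 h1 i ω) fun i _ => ?_
  have := Real.add_one_le_exp (sb a i ω * γ i ω)
  linarith

end gen

theorem qq_eq65 {m L : ℕ} (θ : ℕ → Pt m L → ℝ) : qq θ = PG65 0 θ L := by
  funext ω
  rfl

/-- TILTK -/
theorem tiltk_65 (hEB : StEeb) : StTiltK := by
  intro m L θ hθ
  have hE := hEB m L
  rw [qq_eq65]
  refine ⟨fun ω => PG_nonneg65 hθ.abs L ω, Av_PG65 hE hθ.dep, fun i hi X hX =>
    Ex_PGs65 hE hθ.dep hi X hX, fun X hX => ?_⟩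
  rw [Ex_PG65 hE hθ.dep (Nat.zero_le L) X hX]
  congr 1
  funext ω
  simp [PG65]

theorem XX_ms65 {m L : ℕ} {v : (Fin (m + 1) → ℕ) → Pt m L → ℝ} (hv : ∀ q, Ms q (v q)) (i : ℕ) :
    Ms (one L 0 i) (XX v i) := by
  unfold XX
  refine Ms.sum _ fun q hq => ?_
  rw [mem_fr] at hq
  have h0 : (0 : Fin (m + 1)) ∉ Inn m := by simp [Inn]
  have h1 : q 0 = i := hq.2 0 h0
  exact (Ms_ps_one h0 q i).comp2 ((hv q).one 0 i h1.le) (fun x y => x * y)

theorem clip_abs65 (t : ℝ) : |clip t| ≤ 1 := by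
  unfold clip
  rw [abs_le]
  constructor
  · exact le_max_left _ _
  · exact max_le (by norm_num) (min_le_left _ _)

theorem fac_clip65 {s : ℝ} (hs : s = 1 ∨ s = -1) (t : ℝ) :
    0 ≤ 1 + s * clip t ∧ 1 + s * clip t ≤ Real.exp (s * t) := by
  have h1 := abs_le.1 (clip_abs65 t)
  constructor
  · rcases hs with rfl | rfl <;> linarith [h1.1, h1.2]
  · have e1 := Real.add_one_le_exp (s * t)
    have e0 := Real.exp_pos (s * t)
    unfold clip
    rcases hs with rfl | rfl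
    · rcases le_total t 1 with ht | ht
      · rw [min_eq_right ht]
        rcases le_total (-1) t with ht' | ht'
        · rw [max_eq_right ht']
          linarith
        · rw [max_eq_left ht']
          linarith
      · rw [min_eq_left ht, max_eq_right (by norm_num)]
        linarith
    · rcases le_total t 1 with ht | ht
      · rw [min_eq_right ht]
        rcases le_total (-1) t with ht' | ht'
        · rw [max_eq_right ht']
          linarith
        · rw [max_eq_left ht']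
          linarith
      · rw [min_eq_left ht, max_eq_right (by norm_num)]
        linarith

/-- LAWK -/
theorem lawk_65 (hEB : StEeb) : StLawK := by
  intro m L N k lam M v hlam hk hv hM
  have hP : Prd (th lam v) := by
    refine ⟨fun i => ?_, fun i ω => clip_abs65 _⟩
    exact (XX_ms65 hv.dep i).comp (fun x => clip (lam * x))
  refine ⟨hP, ?_⟩
  obtain ⟨t1, t2, -, -⟩ := tiltk_65 hEB m L _ hP
  refine ⟨t1, t2, fun ω => ?_⟩
  have h1 : qq (th lam v) ω ≤ Real.exp (∑ i ∈ range L, sb 0 i ω * (lam * XX v i ω)) := by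
    rw [Real.exp_sum]
    unfold qq
    exact prod_le_prod (fun i _ => (fac_clip65 (sb_cases65 0 i ω) _).1)
      fun i _ => (fac_clip65 (sb_cases65 0 i ω) _).2
  refine h1.trans (Real.exp_le_exp.2 ?_)
  have h2 : ∑ i ∈ range L, sb 0 i ω * (lam * XX v i ω) = lam * HH v ω := by
    unfold HH
    rw [mul_sum]
    exact sum_congr rfl fun i _ => by ring
  rw [h2]
  have h3 := (abs_le.1 (hM ω)).2
  nlinarith

/-! ### gated tilts -/

theorem Prd_tg65 {m L : ℕ} {lam : ℝ} {g : ℕ → Pt m L → ℝ}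
    {v : (Fin (m + 1) → ℕ) → Pt m L → ℝ} (hv : ∀ q, Ms q (v q)) (hg : Gate g)
    (h1 : ∀ j ω, |tg lam g v j ω| ≤ 1) : Prd (tg lam g v) := by
  refine ⟨fun i => ?_, h1⟩
  exact (XX_ms65 hv i).comp2 (hg.dep i) (fun x y => lam * x * y)

/-- there is a first closed row -/
theorem gate_first65 {m L : ℕ} {g : ℕ → Pt m L → ℝ} (hg : Gate g) (ω : Pt m L) (n : ℕ) :
    ∃ τ ≤ n, (∀ i < τ, g i ω = 1) ∧ ∀ i, τ ≤ i → i < n → g i ω = 0 := by
  induction n with
  | zero => exact ⟨0, le_rfl, fun i hi => absurd hi (by omega), fun i _ hi => absurd hi (by omega)⟩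
  | succ n ih =>
    obtain ⟨τ, hτ, h1, h2⟩ := ih
    rcases hg.zo n ω with h | h
    · refine ⟨τ, by omega, h1, fun i hi hin => ?_⟩
      rcases Nat.lt_succ_iff_lt_or_eq.1 hin with h3 | h3
      · exact h2 i hi h3
      · rw [h3]; exact h
    · refine ⟨n + 1, le_rfl, fun i hi => hg.anti i n ω (by omega) h, fun i hi hin => ?_⟩
      omega

theorem sum_gate65 {m L : ℕ} {lam : ℝ} {g : ℕ → Pt m L → ℝ}
    {v : (Fin (m + 1) → ℕ) → Pt m L → ℝ} {ω : Pt m L} {τ n : ℕ} (hτ : τ ≤ n)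
    (h1 : ∀ i < τ, g i ω = 1) (h2 : ∀ i, τ ≤ i → i < n → g i ω = 0) :
    ∑ i ∈ range n, sb 0 i ω * tg lam g v i ω = lam * ∑ i ∈ range τ, sb 0 i ω * XX v i ω := by
  rw [← sum_range_add_sum_Ico _ hτ, mul_sum]
  have h3 : ∑ i ∈ Finset.Ico τ n, sb 0 i ω * tg lam g v i ω = 0 := by
    refine sum_eq_zero fun i hi => ?_
    rw [mem_Ico] at hi
    unfold tg
    rw [h2 i hi.1 hi.2]
    ring
  rw [h3, add_zero]
  refine sum_congr rfl fun i hi => ?_
  unfold tg
  rw [h1 i (mem_range.1 hi)]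
  ring

/-- LAWN -/
theorem lawn_65 (hEB : StEeb) : StLawN := by
  intro m L N R D lam g v hD hv hg h1 h2
  have hP := Prd_tg65 hv.dep hg h1
  refine ⟨hP, ?_⟩
  obtain ⟨t1, t2, -, -⟩ := tiltk_65 hEB m L _ hP
  refine ⟨t1, t2, fun ω => ?_⟩
  rw [qq_eq65]
  refine (PG_le_exp65 hP.abs L ω).trans (Real.exp_le_exp.2 ?_)
  obtain ⟨τ, hτ, h3, h4⟩ := gate_first65 hg ω L
  rw [sum_gate65 hτ h3 h4]
  rcases Nat.eq_zero_or_pos τ with h0 | h0
  · subst h0
    simp
    linarith
  · obtain ⟨τ', rfl⟩ : ∃ τ', τ = τ' + 1 := ⟨τ - 1, by omega⟩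
    rw [sum_range_succ, mul_add]
    have h5 := h2 τ' ω (h3 τ' (by omega))
    have h6 : lam * (sb 0 τ' ω * XX v τ' ω) ≤ 1 := by
      have h7 := abs_le.1 (h1 τ' ω)
      unfold tg at h7
      rw [h3 τ' (by omega)] at h7
      rcases sb_cases65 0 τ' ω with h | h <;> rw [h] <;> linarith [h7.1, h7.2]
    linarith

/-- the partial sums are conditional means -/
theorem part_sum65 {m L : ℕ} (hE : Eeb m L) {v : (Fin (m + 1) → ℕ) → Pt m L → ℝ}
    (hv : ∀ q, Ms q (v q)) {τ : ℕ} (hτ : τ ≤ L) (ω : Pt m L) :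
    EE (one L 0 τ) (HH v) ω = ∑ i ∈ range τ, sb 0 i ω * XX v i ω := by
  have h1 : HH v = fun ω => ∑ i ∈ range L, sb 0 i ω * XX v i ω := by
    funext ω
    rfl
  have h2 : EE (one L 0 τ) (HH v) ω =
      ∑ i ∈ range L, EE (one L 0 τ) (fun ω' => sb 0 i ω' * XX v i ω') ω := by
    rw [h1]
    exact ee_sum_21 hE _ _ _ _
  rw [h2, ← sum_range_add_sum_Ico _ hτ]
  have h3 : ∑ i ∈ Finset.Ico τ L, EE (one L 0 τ) (fun ω' => sb 0 i ω' * XX v i ω') ω = 0 := by
    refine sum_eq_zero fun i hi => ?_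
    rw [mem_Ico] at hi
    have h4 : EE (one L 0 i) (fun ω' => sb 0 i ω' * XX v i ω') = fun _ => 0 := by
      funext ω'
      have h5 : (fun ω' => sb 0 i ω' * XX v i ω') = fun ω' => XX v i ω' * sb 0 i ω' := by
        funext ω'
        ring
      rw [h5, hE.pull _ _ _ (XX_ms65 hv i), ee_sb_21 hE 0 i hi.2, mul_zero]
    have h6 : EE (one L 0 τ) (fun ω' => sb 0 i ω' * XX v i ω') ω =
        EE (one L 0 τ) (EE (one L 0 i) (fun ω' => sb 0 i ω' * XX v i ω')) ω := by
      rw [hE.comp]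
      congr 1
      funext b
      by_cases hb : b = 0
      · subst hb
        rw [one_self65, one_self65]
        omega
      · unfold one
        rw [Function.update_of_ne hb, Function.update_of_ne hb]
        simp
    rw [h6, h4, hE.const]
  rw [h3, add_zero]
  refine sum_congr rfl fun i hi => ?_
  have hi' := mem_range.1 hi
  exact hE.idem _ _ ((sb_ms65 0 hi').comp2 (ms_one_mono65 hi'.le (XX_ms65 hv i))
    (fun x y => x * y)) ω

/-- STOPG -/
theorem stopg_65 (hEB : StEeb) : StStopG := by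
  intro m L N k lam M v g hlam hk hv hM hg h1
  have hP := Prd_tg65 hv.dep hg h1
  refine ⟨hP, ?_⟩
  have hE := hEB m L
  obtain ⟨t1, t2, -, -⟩ := tiltk_65 hEB m L _ hP
  refine ⟨t1, t2, fun ω => ?_⟩
  rw [qq_eq65]
  refine (PG_le_exp65 hP.abs L ω).trans (Real.exp_le_exp.2 ?_)
  obtain ⟨τ, hτ, h3, h4⟩ := gate_first65 hg ω L
  rw [sum_gate65 hτ h3 h4, ← part_sum65 hE hv.dep hτ]
  have h5 : EE (one L 0 τ) (HH v) ω ≤ M := by
    refine (hE.mono _ _ (fun _ => M) (fun ω' => (abs_le.1 (hM ω')).2) ω).trans (le_of_eq ?_)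
    exact hE.const _ _ _
  nlinarith

/-! ### the exchanged law -/

theorem Bm_ms65 {m L : ℕ} {b : Fin (m + 1)} {v : (Fin (m + 1) → ℕ) → Pt m L → ℝ}
    (hv : ∀ q, Ms q (v q)) (i r t : ℕ) (h : r ≤ t) :
    Ms (one L b t) (Bm b v i r) := by
  unfold Bm
  refine Ms.sum _ fun q hq => ?_
  rw [mem_fr] at hq
  have h0 : b ∉ (Inn m).erase b := by simp
  have h1 : q b = r := by
    have := hq.2 b h0
    rwa [Function.update_self] at this
  exact (Ms_ps_one h0 q t).comp2 ((hv q).one b t (h1.le.trans h)) (fun x y => x * y)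

theorem be_ms65 {m L : ℕ} {b : Fin (m + 1)} {v : (Fin (m + 1) → ℕ) → Pt m L → ℝ}
    (hv : ∀ q, Ms q (v q)) (hb : b ≠ 0) (lam : ℝ) (j r t : ℕ) (h : r ≤ t) :
    Ms (one L b t) (be lam b v j r) := by
  unfold be
  have h1 : Ms (one L b t) (uu b v j r) := by
    unfold uu
    refine Ms.sum _ fun i _ => ?_
    exact (Ms_sb_one (Ne.symm hb) t i).comp2 (Bm_ms65 hv i r t h) (fun x y => x * y)
  have h2 : Ms (one L b t) (fun ω : Pt m L => ∑ s ∈ range r, gr b v j r s ω * sb b s ω) := by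
    refine Ms.sum _ fun s hs => ?_
    have hs' := mem_range.1 hs
    have h3 : Ms (one L b t) (gr b v j r s) := by
      unfold gr
      refine Ms.sum _ fun i _ => ?_
      exact (Bm_ms65 hv i r t h).comp2 (Bm_ms65 hv i s t (by omega)) (fun x y => x * y)
    exact h3.comp2 (sb_ms65 b (by omega)) (fun x y => x * y)
  exact h1.comp2 h2 (fun x y => lam * (x - lam * y))

theorem bh_ms65 {m L : ℕ} {b : Fin (m + 1)} {v : (Fin (m + 1) → ℕ) → Pt m L → ℝ}
    (hv : ∀ q, Ms q (v q)) (hb : b ≠ 0) (lam D : ℝ) (j r : ℕ) :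
    Ms (one L b r) (bh lam D b v j r) := by
  intro ω ω' hω
  have h1 : ∀ s ≤ r, be lam b v j s ω' = be lam b v j s ω := fun s hs =>
    be_ms65 hv hb lam j s r hs ω ω' hω
  have h2 : ∀ l < r, sb b l ω' = sb b l ω := fun l hl => sb_ms65 b hl ω ω' hω
  have h3 : (∀ s ≤ r, |be lam b v j s ω'| ≤ 1 / 2 ∧
      ∑ l ∈ range s, sb b l ω' * be lam b v j l ω' ≤ D) ↔
      (∀ s ≤ r, |be lam b v j s ω| ≤ 1 / 2 ∧
      ∑ l ∈ range s, sb b l ω * be lam b v j l ω ≤ D) := by
    refine forall_congr' fun s => forall_congr' fun hs => ?_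
    rw [h1 s hs]
    have h4 : ∑ l ∈ range s, sb b l ω' * be lam b v j l ω' =
        ∑ l ∈ range s, sb b l ω * be lam b v j l ω := by
      refine sum_congr rfl fun l hl => ?_
      have hl' := mem_range.1 hl
      rw [h1 l (by omega), h2 l (by omega)]
    rw [h4]
  unfold bh
  rw [h1 r le_rfl]
  simp only [h3]

theorem bh_abs65 {m L : ℕ} (lam D : ℝ) (b : Fin (m + 1))
    (v : (Fin (m + 1) → ℕ) → Pt m L → ℝ) (j r : ℕ) (ω : Pt m L) :
    |bh lam D b v j r ω| ≤ 1 / 2 := by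
  unfold bh
  split_ifs with h
  · exact (h r le_rfl).1
  · simp

theorem rr_eq65 {m L : ℕ} (lam D : ℝ) (b : Fin (m + 1))
    (v : (Fin (m + 1) → ℕ) → Pt m L → ℝ) (j : ℕ) :
    rr lam D b v j = PG65 b (bh lam D b v j) L := by
  funext ω
  rfl

/-- the running sums of the stopped biases -/
theorem bh_sum65 {m L : ℕ} (lam D : ℝ) (hD : 0 ≤ D) (b : Fin (m + 1))
    (v : (Fin (m + 1) → ℕ) → Pt m L → ℝ) (j n : ℕ) (ω : Pt m L) :
    ∑ r ∈ range n, sb b r ω * bh lam D b v j r ω ≤ D + 1 / 2 := by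
  induction n with
  | zero =>
    simp
    linarith
  | succ n ih =>
    by_cases h : ∀ s ≤ n, |be lam b v j s ω| ≤ 1 / 2 ∧
        ∑ l ∈ range s, sb b l ω * be lam b v j l ω ≤ D
    · rw [sum_range_succ]
      have h1 : ∑ r ∈ range n, sb b r ω * bh lam D b v j r ω =
          ∑ l ∈ range n, sb b l ω * be lam b v j l ω := by
        refine sum_congr rfl fun l hl => ?_
        have hl' := mem_range.1 hl
        have h2 : bh lam D b v j l ω = be lam b v j l ω := by
          unfold bh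
          rw [if_pos fun s hs => h s (by omega)]
        rw [h2]
      rw [h1]
      have h3 := (h n le_rfl).2
      have h4 := abs_le.1 (bh_abs65 lam D b v j n ω)
      have h5 : sb b n ω * bh lam D b v j n ω ≤ 1 / 2 := by
        rcases sb_cases65 b n ω with h | h <;> rw [h] <;> linarith [h4.1, h4.2]
      linarith
    · rw [sum_range_succ]
      have h1 : bh lam D b v j n ω = 0 := by
        unfold bh
        rw [if_neg h]
      rw [h1, mul_zero, add_zero]
      exact ih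

/-- RLAW -/
theorem rlaw_65 (hEB : StEeb) (hA : StAlx) : StRlaw := by
  intro m L N R j lam D b v hb hD hv
  have hE := hEB m L
  have hms : ∀ r, Ms (one L b r) (bh lam D b v j r) := fun r => bh_ms65 hv.dep hb lam D j r
  have habs : ∀ r ω, |bh lam D b v j r ω| ≤ 1 / 2 := fun r ω => bh_abs65 lam D b v j r ω
  have habs1 : ∀ r ω, |bh lam D b v j r ω| ≤ 1 := fun r ω => (habs r ω).trans (by norm_num)
  have hlaw : Law (D + 1) (rr lam D b v j) := by
    rw [rr_eq65]
    refine ⟨PG_nonneg65 habs1 L, Av_PG65 hE hms, fun ω => ?_⟩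
    refine (PG_le_exp65 habs1 L ω).trans (Real.exp_le_exp.2 ?_)
    have := bh_sum65 lam D hD b v j L ω
    linarith
  have hbias : ∀ r < L, ∀ X : Pt m L → ℝ, Ms (one L b r) X →
      Ex (rr lam D b v j) (fun ω => sb b r ω * X ω) =
        Ex (rr lam D b v j) (fun ω => bh lam D b v j r ω * X ω) := by
    intro r hr X hX
    rw [rr_eq65]
    exact Ex_PGs65 hE hms hr X hX
  refine ⟨hlaw, hms, habs, hbias, fun r hr ω => ?_⟩
  refine hA m L (D + 1) (rr lam D b v j) (bh lam D b v j r) b r hlaw hr (hms r) (hbias r hr) ω ?_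
  rw [rr_eq65]
  unfold PG65
  refine prod_ne_zero_iff.2 fun i _ => ?_
  have h1 := abs_le.1 (habs i ω)
  rcases sb_cases65 b i ω with h | h <;> rw [h] <;> linarith [h1.1, h1.2]

end Pool.Agent.SHD
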