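import Pool.Agent.Lib.MP_a7b2aa_an.SHD.Stmts4_25
import Pool.Agent.Lib.MP_a7b2aa_an.SHD.TiltK65

/-!
SHD4 (helper65): module TAME.
-/

set_option autoImplicit false

namespace Pool.Agent.SHD

open Finset Pool.Agent.SB3 Pool.Agent.SBT Pool.Agent.SBD

theorem NB_mono65 {κ κ' : Type} [Fintype κ] [Fintype κ'] {A : Matrix κ κ' ℝ} {b b' : ℝ}
    (h : NB A b) (hb : b ≤ b') : NB A b' := by
  intro u
  refine (h u).trans (mul_le_mul_of_nonneg_right hb ?_)
  exact sum_nonneg fun y _ => sq_nonneg _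

theorem bl_nonneg65 {m : ℕ} (U : Finset (Fin (m + 1))) (lo hi : Fin (m + 1) → ℕ) :
    0 ≤ bl U lo hi := by
  unfold bl
  exact prod_nonneg fun e _ => Nat.cast_nonneg _

theorem Nrm_mono65 {m L : ℕ} {bb bb' : ℕ → ℝ} {g : ℕ → Pt m L → ℝ}
    {v : (Fin (m + 1) → ℕ) → Pt m L → ℝ} (h : Nrm bb g v) (hb : ∀ l, bb l ≤ bb' l) :
    Nrm bb' g v := by
  constructor
  · intro j ω hj hg lo hi h1 h2 U t q h3 h4 h5
    exact NB_mono65 (h.mat j ω hj hg lo hi h1 h2 U t q h3 h4 h5) (hb _)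
  · intro j ω hj hg lo hi h1 h2 i
    exact (h.ent j ω hj hg lo hi h1 h2 i).trans (hb _)

theorem Law_mono65 {m L : ℕ} {k k' : ℝ} {ρ : Pt m L → ℝ} (h : Law k ρ) (hk : k ≤ k') :
    Law k' ρ :=
  ⟨h.nonneg, h.mean, fun ω => (h.le ω).trans (Real.exp_le_exp.2 hk)⟩

/-- the box of the rows below `h` -/
def fb65 {m : ℕ} (L h : ℕ) : Fin (m + 1) → ℕ := Function.update (fun _ => L) 0 h

theorem cut_fb65 {m L : ℕ} {h : ℕ} (v : (Fin (m + 1) → ℕ) → Pt m L → ℝ)
    {q : Fin (m + 1) → ℕ} (h0 : q 0 < h) (hq : ∀ a, a ≠ 0 → q a < L) (ω : Pt m L) :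
    cut (fun _ => 0) (fb65 L h) v q ω = v q ω := by
  unfold cut
  rw [if_pos]
  intro a
  refine ⟨Nat.zero_le _, ?_⟩
  unfold fb65
  by_cases ha : a = 0
  · subst ha
    rw [Function.update_self]
    exact h0
  · rw [Function.update_of_ne ha]
    exact hq a ha

theorem XX_cut65 {m L : ℕ} {h i : ℕ} (hi : i < h) (v : (Fin (m + 1) → ℕ) → Pt m L → ℝ)
    (ω : Pt m L) : XX (cut (fun _ => 0) (fb65 L h) v) i ω = XX v i ω := by
  unfold XX
  refine sum_congr rfl fun q hq => ?_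
  rw [mem_fr] at hq
  have h0 : (0 : Fin (m + 1)) ∉ Inn m := by simp [Inn]
  have h1 : q 0 = i := hq.2 0 h0
  rw [cut_fb65 v (by omega) fun a ha => hq.1 a (by simp [Inn, ha])]

theorem Mx_Bm65 {m L : ℕ} {h i : ℕ} (hi : i < h) {b : Fin (m + 1)} (hb : b ≠ 0)
    (v : (Fin (m + 1) → ℕ) → Pt m L → ℝ) (y : Fin L) (ω : Pt m L) :
    ∑ r ∈ fr L ((Inn m).erase b) (Function.update (Function.update (fun _ => 0) 0 i) b (y : ℕ)),
      ps ((Inn m).erase b) r ω * cut (fun _ => 0) (fb65 L h) v r ω = Bm b v i y ω := by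
  unfold Bm
  have h1 : fr L ((Inn m).erase b) (Function.update (Function.update (fun _ => 0) 0 i) b (y : ℕ)) =
      fr L ((Inn m).erase b) (Function.update (fun _ => i) b (y : ℕ)) := by
    refine fr_congr fun a ha => ?_
    by_cases hab : a = b
    · subst hab
      rw [Function.update_self, Function.update_self]
    · rw [Function.update_of_ne hab, Function.update_of_ne hab]
      have h2 : a = 0 := by
        by_contra h3
        exact ha (by simp [Inn, hab, h3])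
      subst h2
      rw [Function.update_self]
  rw [h1]
  refine sum_congr rfl fun q hq => ?_
  rw [mem_fr] at hq
  have h0 : (0 : Fin (m + 1)) ∉ (Inn m).erase b := by simp [Inn]
  have h2 : q 0 = i := by
    rw [hq.2 0 h0, Function.update_of_ne (Ne.symm hb)]
  rw [cut_fb65 v (by omega) fun a ha => ?_]
  by_cases hab : a = b
  · subst hab
    have h3 : q a = (y : ℕ) := by
      rw [hq.2 a (by simp), Function.update_self]
    rw [h3]
    exact y.2
  · exact hq.1 a (by simp [Inn, ha, hab])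

/-- the rows of `Bm` -/
theorem Bm_rows65 {m L : ℕ} {bb : ℕ → ℝ} {g : ℕ → Pt m L → ℝ}
    {v : (Fin (m + 1) → ℕ) → Pt m L → ℝ} (hN : Nrm bb g v) {j : ℕ} (hj : j < L) {ω : Pt m L}
    (hg : g j ω = 1) {b : Fin (m + 1)} (hb : b ≠ 0) (w : Fin L → ℝ) :
    ∑ i ∈ range (j + 1), (∑ t : Fin L, Bm b v i t ω * w t) ^ 2 ≤ bb (m - 1) * ∑ t, w t ^ 2 := by
  have h1 := hN.mat j ω hj hg (fun _ => 0) (fb65 L (j + 1))
    (by unfold fb65; rw [Function.update_self])
    (fun a => by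
      unfold fb65
      by_cases ha : a = 0
      · subst ha
        rw [Function.update_self]
        omega
      · rw [Function.update_of_ne ha])
    ((Inn m).erase b) b (fun _ => 0) (by simp [Inn]) (by simp) hb
  have hc : ((Inn m).erase b).card = m - 1 := by
    rw [card_erase_of_mem (by simp [Inn, hb])]
    simp [Inn]
  rw [hc] at h1
  have h2 := h1 w
  refine le_trans ?_ h2
  have h3 : ∑ x : Fin L, (∑ y : Fin L,
      Mx ((Inn m).erase b) b (fun _ => 0) (cut (fun _ => 0) (fb65 L (j + 1)) v) ω x y * w y) ^ 2 =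
      ∑ x ∈ range L, (∑ y : Fin L, (∑ r ∈ fr L ((Inn m).erase b)
        (Function.update (Function.update (fun _ => 0) 0 x) b (y : ℕ)),
      ps ((Inn m).erase b) r ω * cut (fun _ => 0) (fb65 L (j + 1)) v r ω) * w y) ^ 2 := by
    rw [← Fin.sum_univ_eq_sum_range (fun x => (∑ y : Fin L, (∑ r ∈ fr L ((Inn m).erase b)
        (Function.update (Function.update (fun _ => 0) 0 x) b (y : ℕ)),
      ps ((Inn m).erase b) r ω * cut (fun _ => 0) (fb65 L (j + 1)) v r ω) * w y) ^ 2) L]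
    rfl
  rw [h3]
  have h4 : ∑ i ∈ range (j + 1), (∑ t : Fin L, Bm b v i t ω * w t) ^ 2 =
      ∑ x ∈ range (j + 1), (∑ y : Fin L, (∑ r ∈ fr L ((Inn m).erase b)
        (Function.update (Function.update (fun _ => 0) 0 x) b (y : ℕ)),
      ps ((Inn m).erase b) r ω * cut (fun _ => 0) (fb65 L (j + 1)) v r ω) * w y) ^ 2 := by
    refine sum_congr rfl fun i hi => ?_
    congr 1
    refine sum_congr rfl fun y _ => ?_
    rw [Mx_Bm65 (mem_range.1 hi) hb v y ω]
  rw [h4]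
  exact sum_le_sum_of_subset_of_nonneg (range_subset_range.2 (by omega))
    fun i _ _ => sq_nonneg _

theorem log_le65 {ε : ℝ} (hε : 0 < ε) {L : ℕ} (hL : 1 ≤ L) :
    Real.log (L + 1) ≤ 2 ^ ε / ε * (L : ℝ) ^ ε := by
  have hL' : (1 : ℝ) ≤ L := by exact_mod_cast hL
  have h1 : Real.log ((L : ℝ) + 1) ≤ ((L : ℝ) + 1) ^ ε / ε :=
    Real.log_le_rpow_div (by positivity) hε
  have h2 : ((L : ℝ) + 1) ^ ε ≤ (2 * L) ^ ε :=
    Real.rpow_le_rpow (by positivity) (by linarith) hε.le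
  rw [Real.mul_rpow (by norm_num) (by positivity)] at h2
  calc Real.log ((L : ℝ) + 1) ≤ ((L : ℝ) + 1) ^ ε / ε := h1
    _ ≤ (2 ^ ε * (L : ℝ) ^ ε) / ε := by gcongr
    _ = _ := by ring

/-- TAME -/
theorem tame_65 (hO : StOpenN) (hX : StExch) (hH : StHell) (hQ : StQcu) : StTame := by
  intro m n ε hm hε
  obtain ⟨C1, hC1, h1⟩ := hO m n ε hm hε
  obtain ⟨C2, hC2, h2⟩ := hX m n ε (by omega) hε
  obtain ⟨K1, hK1⟩ : ∃ K1 : ℝ, K1 = 12 * n * (2 ^ ε / ε) := ⟨_, rfl⟩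
  have hK1' : 0 ≤ K1 := by rw [hK1]; positivity
  obtain ⟨C, hC⟩ : ∃ C : ℝ, C = C1 + 198 ^ 2 * C2 + 8 + K1 + 200 := ⟨_, rfl⟩
  have hCge : 1 ≤ C := by rw [hC]; linarith
  refine ⟨C, hCge, ?_⟩
  intro L N R lam u hL hlam hu hR hcond
  have hL' : (1 : ℝ) ≤ L := by exact_mod_cast hL
  have hLpos : (0 : ℝ) < L := by linarith
  obtain ⟨t, ht⟩ : ∃ t : ℝ, t = lam ^ 2 * (L : ℝ) ^ m := ⟨_, rfl⟩
  rw [← ht] at hcond
  rw [← ht]
  have ht0 : 0 ≤ t := by rw [ht]; positivity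
  have hpow : ∀ a b : ℝ, a ≤ b → (L : ℝ) ^ a ≤ (L : ℝ) ^ b := fun a b h =>
    Real.rpow_le_rpow_of_exponent_le hL' h
  have hpow1 : ∀ a : ℝ, 0 ≤ a → 1 ≤ (L : ℝ) ^ a := fun a h => Real.one_le_rpow hL' h
  have hm0 : (0 : ℝ) ≤ (m : ℝ) := Nat.cast_nonneg m
  have hcond1 : C1 * (1 + t) ^ 2 * (L : ℝ) ^ ((4 * (m : ℝ) + 8) * ε) ≤ L := by
    refine le_trans ?_ hcond
    have h3 : C1 ≤ C := by rw [hC]; linarith
    gcongr
  have hOO := h1 L N R lam u hL hlam hu hR (by rw [← ht]; exact hcond1)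
  obtain ⟨g, hg⟩ : ∃ g : ℕ → Pt m L → ℝ, g = gN ε lam u := ⟨_, rfl⟩
  rw [← hg] at hOO
  obtain ⟨hG, hN, hP, hLaw, hOp⟩ := hOO
  -- the constants
  obtain ⟨P, hPdef⟩ : ∃ P : ℝ, P = (L : ℝ) ^ (((m : ℝ) + 1) * ε) := ⟨_, rfl⟩
  rw [← hPdef]
  have hP1 : 1 ≤ P := by rw [hPdef]; exact hpow1 _ (by positivity)
  have hPε : (L : ℝ) ^ ε ≤ P := by rw [hPdef]; exact hpow _ _ (by nlinarith)
  have hBN : BN m L ε = 49 * P * (L : ℝ) ^ (m - 1) := by rw [hPdef]; rfl
  have hLm : (L : ℝ) ^ (m - 1) * L = (L : ℝ) ^ m := by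
    rw [← pow_succ]
    congr 1
    omega
  have hBNL : lam ^ 2 * BN m L ε * L = 49 * P * t := by
    rw [hBN, ht, ← hLm]
    ring
  have hDN : DN m L ε lam = 147 * P * t + (L : ℝ) ^ ε := by
    unfold DN
    have : 3 * lam ^ 2 * BN m L ε * L = 3 * (lam ^ 2 * BN m L ε * L) := by ring
    rw [this, hBNL]
    ring
  have hDN0 : 0 ≤ DN m L ε lam := by
    rw [hDN]
    positivity
  have hk : DN m L ε lam + 1 ≤ C * (1 + t) * P := by
    rw [hDN]
    have h3 : (200 : ℝ) ≤ C := by rw [hC]; linarith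
    have h4 : 200 * (1 + t) * P ≤ C * (1 + t) * P := by gcongr
    nlinarith [mul_nonneg ht0 (le_trans zero_le_one hP1)]
  have hβ : ∀ u' : ℕ, u' ≤ m → bN L ε u' ≤ C * P := by
    intro u' hu'
    unfold bN
    have h3 : (49 : ℝ) ≤ C := by rw [hC]; linarith
    have h4 : (L : ℝ) ^ (((u' : ℝ) + 1) * ε) ≤ P := by
      rw [hPdef]
      refine hpow _ _ ?_
      have : (u' : ℝ) ≤ m := by exact_mod_cast hu'
      exact mul_le_mul_of_nonneg_right (by linarith) hε.le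
    exact mul_le_mul h3 h4 (by positivity) (by linarith)
  have hLaw' : Law (C * (1 + t) * P) (qq (tg lam g u)) := Law_mono65 hLaw hk
  have hbbN : ∀ l : ℕ, BN m L ε / (L : ℝ) ^ (m - 1) * (L : ℝ) ^ l ≤ C * P * (L : ℝ) ^ l := by
    intro l
    have h3 : BN m L ε / (L : ℝ) ^ (m - 1) = 49 * P := by
      rw [hBN]
      field_simp
    rw [h3]
    have h4 : (49 : ℝ) ≤ C := by rw [hC]; linarith
    gcongr
  have hN' : Nrm (fun l => C * P * (L : ℝ) ^ l) g u := Nrm_mono65 hN hbbN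
  have hgN : ∀ j ω, g j ω = 1 → Nt (bN L ε) u j m ω ∧ Ns (BN m L ε) u j ω := by
    intro j ω h3
    have h4 : gn (bN L ε) (BN m L ε) (DN m L ε lam) lam u j ω = 1 := by
      rw [hg] at h3
      exact h3
    unfold gn at h4
    split_ifs at h4 with h5
    · exact ⟨h5.2.1, h5.2.2.1⟩
    · norm_num at h4
  have hnat : ∀ j ω, j < L → g j ω = 1 → Nt (fun _ => C * P) u j m ω := by
    intro j ω _ h3 lo hi U a c q hA hac ha hc hU
    refine NB_mono65 ((hgN j ω h3).1 lo hi U a c q hA hac ha hc hU) ?_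
    exact mul_le_mul_of_nonneg_right (hβ _ hU) (bl_nonneg65 _ _ _)
  refine ⟨g, hG, hP, hLaw', ?_, hN', hnat, ?_⟩
  · refine hOp.trans ?_
    have h3 : C1 ≤ C := by rw [hC]; linarith
    gcongr
  · intro j b hj hb
    obtain ⟨q1, q2, -⟩ := hQ m L j _ _ hP hLaw
    obtain ⟨θ, hθ⟩ : ∃ θ : ℕ → Pt m L → ℝ, θ = cu j (tg lam g u) := ⟨_, rfl⟩
    rw [← hθ] at q1 q2
    rw [← hθ]
    obtain ⟨D, hD⟩ : ∃ D : ℝ,
      D = C2 * ((DN m L ε lam + 1) + lam ^ 2 * BN m L ε * L + (L : ℝ) ^ ε) := ⟨_, rfl⟩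
    have hEv := h2 L N R j (DN m L ε lam + 1) lam (BN m L ε) D b u θ (fun ω => g j ω = 1) hL
      hj.le hb (by linarith) hlam (by rw [hBN]; positivity) hu q1 q2
      (fun i ω hi => by
        rw [hθ]
        unfold cu
        rw [if_neg (by omega)])
      (fun ω hω => by
        refine ⟨fun i hi => ⟨?_, ?_⟩, fun w => ?_⟩
        · rw [hθ]
          unfold cu
          rw [if_pos hi]
          unfold tg
          rw [hG.anti i j ω hi.le hω, mul_one]
        · have h3 := (hgN j ω hω).2 (fun _ => 0) (fb65 L (j + 1))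
            (fun a => by
              unfold fb65
              by_cases ha : a = 0
              · subst ha
                rw [Function.update_self]
                omega
              · rw [Function.update_of_ne ha])
            (by unfold fb65; rw [Function.update_self]) i
          rwa [XX_cut65 (by omega)] at h3
        · have h3 := Bm_rows65 hN hj hω hb w
          have h4 : BN m L ε / (L : ℝ) ^ (m - 1) * (L : ℝ) ^ (m - 1) = BN m L ε := by
            field_simp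
          rw [h4] at h3
          refine le_trans ?_ h3
          exact sum_le_sum_of_subset_of_nonneg (range_subset_range.2 (by omega))
            fun i _ _ => sq_nonneg _)
      (by
        have h3 : DN m L ε lam + 1 + lam ^ 2 * BN m L ε * L ≤ 198 * (1 + t) * P := by
          rw [hDN, hBNL]
          nlinarith [mul_nonneg ht0 (le_trans zero_le_one hP1)]
        have h4 : 0 ≤ DN m L ε lam + 1 + lam ^ 2 * BN m L ε * L := by
          rw [hBNL]
          positivity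
        have h5 : (DN m L ε lam + 1 + lam ^ 2 * BN m L ε * L) ^ 2 ≤ (198 * (1 + t) * P) ^ 2 :=
          pow_le_pow_left₀ h4 h3 2
        have h6 : P ^ 2 * (L : ℝ) ^ ε ≤ (L : ℝ) ^ ((4 * (m : ℝ) + 8) * ε) := by
          rw [hPdef, ← Real.rpow_natCast, ← Real.rpow_mul hLpos.le, ← Real.rpow_add hLpos]
          refine hpow _ _ ?_
          push_cast
          linarith [mul_nonneg hm0 hε.le]
        calc C2 * (DN m L ε lam + 1 + lam ^ 2 * BN m L ε * L) ^ 2 * (L : ℝ) ^ ε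
            ≤ C2 * (198 * (1 + t) * P) ^ 2 * (L : ℝ) ^ ε := by gcongr
          _ = 198 ^ 2 * C2 * (1 + t) ^ 2 * (P ^ 2 * (L : ℝ) ^ ε) := by ring
          _ ≤ 198 ^ 2 * C2 * (1 + t) ^ 2 * (L : ℝ) ^ ((4 * (m : ℝ) + 8) * ε) := by gcongr
          _ ≤ C * (1 + t) ^ 2 * (L : ℝ) ^ ((4 * (m : ℝ) + 8) * ε) := by
            have h7 : 198 ^ 2 * C2 ≤ C := by rw [hC]; linarith
            gcongr
          _ ≤ L := hcond)
      hD.ge
    have hEh := hH m L n (DN m L ε lam + 1) (qq θ) b (bh lam D b u j) q2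
      (fun t' => bh_ms65 hu.dep hb lam D j t')
      (fun t' ω => (bh_abs65 lam D b u j t' ω).trans (by norm_num))
    have hS : 8 + 12 * n * Real.log (L + 1) ≤ C * (L : ℝ) ^ ε := by
      have h3 := log_le65 hε hL
      have h4 : 12 * (n : ℝ) * Real.log (L + 1) ≤ K1 * (L : ℝ) ^ ε := by
        calc 12 * (n : ℝ) * Real.log (L + 1) ≤ 12 * n * (2 ^ ε / ε * (L : ℝ) ^ ε) := by gcongr
          _ = _ := by rw [hK1]; ring
      have h5 := hpow1 ε hε.le
      have h6 : 8 + K1 ≤ C := by rw [hC]; linarith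
      have h7 : (8 + K1) * (L : ℝ) ^ ε ≤ C * (L : ℝ) ^ ε := by gcongr
      nlinarith
    have hsub : ∀ ω, (g j ω = 1 ∧ C * (L : ℝ) ^ ε <
        ∑ r ∈ range L, (al (qq θ) b r ω - be lam b u j r ω) ^ 2) →
        ((g j ω = 1 ∧ ¬ (qq θ ω ≤ Real.exp 1 * rr lam D b u j ω ∧
          rr lam D b u j ω ≤ Real.exp 1 * qq θ ω ∧
          ∀ r < L, bh lam D b u j r ω = be lam b u j r ω)) ∨
        (qq θ ω ≤ Real.exp 1 * ∏ t ∈ range L, (1 + sb b t ω * bh lam D b u j t ω) ∧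
          8 + 12 * n * Real.log (L + 1) <
            ∑ t ∈ range L, (al (qq θ) b t ω - bh lam D b u j t ω) ^ 2)) := by
      rintro ω ⟨h3, h4⟩
      by_cases h5 : (qq θ ω ≤ Real.exp 1 * rr lam D b u j ω ∧
          rr lam D b u j ω ≤ Real.exp 1 * qq θ ω ∧
          ∀ r < L, bh lam D b u j r ω = be lam b u j r ω)
      · right
        refine ⟨h5.1, ?_⟩
        refine lt_of_le_of_lt hS ?_
        refine lt_of_lt_of_le h4 (le_of_eq ?_)
        refine sum_congr rfl fun r hr => ?_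
        rw [h5.2.2 r (mem_range.1 hr)]
      · left
        exact ⟨h3, h5⟩
    refine (Pr_mono q2 hsub).trans ((Pr_or_le q2 _ _).trans ?_)
    have h8 : C2 / ((L : ℝ) + 1) ^ n + 2 / ((L : ℝ) + 1) ^ n ≤ C / ((L : ℝ) + 1) ^ n := by
      rw [← add_div]
      have : C2 + 2 ≤ C := by rw [hC]; linarith
      gcongr
    linarith

end Pool.Agent.SHD
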