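import Pool.Agent.Lib.MP_a7b2aa_an.SHD.Stmts4_25
import Pool.Agent.Lib.MP_a7b2aa_an.SHD.CmnG65
import Pool.Agent.Lib.MP_a7b2aa_an.SHD.Tame65

/-!
SHD4 (helper65): module UNIF.
-/

set_option autoImplicit false

namespace Pool.Agent.SHD

open Finset Pool.Agent.SB3 Pool.Agent.SBT Pool.Agent.SBD

/-! ### the uniform law and the tilt by small factors -/

theorem law_one65 (m L : ℕ) : Law 0 (fun _ : Pt m L => (1 : ℝ)) :=
  ⟨fun _ => by norm_num, Av_const 1, fun _ => by simp⟩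

theorem al_one65 {m L : ℕ} (hE : Eeb m L) (a : Fin (m + 1)) {t : ℕ} (ht : t < L) (ω : Pt m L) :
    al (fun _ : Pt m L => (1 : ℝ)) a t ω = 0 := by
  unfold al
  have h1 : (fun ω' : Pt m L => (1 : ℝ) * sb a t ω') = sb a t := by
    funext ω'
    ring
  rw [h1, ee_sb_21 hE a t ht, zero_div]

theorem law_two65 {m L : ℕ} (hTK : StTiltK) {θ : ℕ → Pt m L → ℝ} (hθ : Prd θ) :
    Law (L * Real.log 2) (qq θ) := by
  obtain ⟨t1, t2, -, -⟩ := hTK m L θ hθ
  refine ⟨t1, t2, fun ω => ?_⟩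
  have h1 : qq θ ω ≤ ∏ _i ∈ range L, (2 : ℝ) := by
    unfold qq
    refine prod_le_prod (fun i _ => fac_nonneg65 hθ.abs i ω) fun i _ => ?_
    have h2 := abs_le.1 (hθ.abs i ω)
    rcases sb_cases65 0 i ω with h | h <;> rw [h] <;> linarith [h2.1, h2.2]
  refine h1.trans (le_of_eq ?_)
  rw [prod_const, card_range, mul_comm, Real.exp_mul, Real.exp_log (by norm_num),
    Real.rpow_natCast]

/-- pointwise bounds of the product -/
theorem qq_near65 {m L : ℕ} {θ : ℕ → Pt m L → ℝ} {ω : Pt m L}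
    (h1 : ∑ i ∈ range L, θ i ω ^ 2 ≤ 1 / 64)
    (h2 : |∑ i ∈ range L, sb 0 i ω * θ i ω| ≤ 1 / 3) : 1 / 2 ≤ qq θ ω ∧ qq θ ω ≤ 2 := by
  have habs : ∀ i ∈ range L, |sb 0 i ω * θ i ω| ≤ 1 / 8 := by
    intro i hi
    rw [abs_mul, sb_abs, one_mul]
    have h4 : θ i ω ^ 2 ≤ 1 / 64 :=
      (single_le_sum (f := fun i => θ i ω ^ 2) (fun i _ => sq_nonneg _) hi).trans h1
    have h5 : θ i ω ^ 2 ≤ (1 / 8) ^ 2 := by linarith
    exact abs_le.2 (abs_le_of_sq_le_sq' h5 (by norm_num))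
  have hpos : ∀ i ∈ range L, 0 ≤ 1 + sb 0 i ω * θ i ω := by
    intro i hi
    have := (abs_le.1 (habs i hi)).1
    linarith
  constructor
  · have h4 : Real.exp (∑ i ∈ range L, (sb 0 i ω * θ i ω - 2 * θ i ω ^ 2)) ≤ qq θ ω := by
      rw [Real.exp_sum]
      unfold qq
      refine prod_le_prod (fun i _ => (Real.exp_pos _).le) fun i hi => ?_
      obtain ⟨t, ht⟩ : ∃ t, t = sb 0 i ω * θ i ω := ⟨_, rfl⟩
      have h5 : θ i ω ^ 2 = t ^ 2 := by
        rw [ht, mul_pow]
        have h6 : sb 0 i ω ^ 2 = 1 := by rw [sq]; exact sb_sq 0 i ω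
        rw [h6, one_mul]
      have h6 := abs_le.1 (habs i hi)
      rw [h5, ← ht]
      rw [← ht] at h6
      obtain ⟨h7, h8⟩ := h6
      have h14 : |t - 2 * t ^ 2| ≤ 1 := by
        rw [abs_le]
        constructor <;> nlinarith
      have h15 := (abs_le.1 (Real.abs_exp_sub_one_sub_id_le h14)).2
      have h16 : (t - 2 * t ^ 2) ^ 2 ≤ 2 * t ^ 2 := by
        have h17 : (t - 2 * t ^ 2) ^ 2 = t ^ 2 * (1 - 2 * t) ^ 2 := by ring
        have h18 : (1 - 2 * t) ^ 2 ≤ 2 := by nlinarith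
        rw [h17]
        nlinarith [sq_nonneg t]
      linarith
    refine le_trans ?_ h4
    rw [sum_sub_distrib, ← mul_sum]
    have h5 := (abs_le.1 h2).1
    have h6 := Real.add_one_le_exp (∑ i ∈ range L, sb 0 i ω * θ i ω -
      2 * ∑ i ∈ range L, θ i ω ^ 2)
    linarith
  · have h4 : qq θ ω ≤ Real.exp (∑ i ∈ range L, sb 0 i ω * θ i ω) := by
      rw [Real.exp_sum]
      unfold qq
      refine prod_le_prod hpos fun i _ => ?_
      have := Real.add_one_le_exp (sb 0 i ω * θ i ω)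
      linarith
    refine h4.trans ?_
    have h5 := (abs_le.1 h2).2
    have h6 : Real.exp (∑ i ∈ range L, sb 0 i ω * θ i ω) ≤ Real.exp (1 / 3) :=
      Real.exp_le_exp.2 h5
    have h7 : Real.exp (1 / 3) ≤ 2 := by
      have h8 : |(1 / 3 : ℝ)| ≤ 1 := by norm_num [abs_le]
      have h9 := (abs_le.1 (Real.abs_exp_sub_one_sub_id_le h8)).2
      norm_num at h9 ⊢
      linarith
    linarith

/-- tilts by small factors are close to `1`, under the uniform law and under the tilt itself -/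
theorem near65 (hTK : StTiltK) (hE : StEeb) (hS : StSc) (hA : StAlx) (n : ℕ) (ε : ℝ)
    (hε : 0 < ε) : ∃ C : ℝ, 1 ≤ C ∧ ∀ (m L : ℕ) (η : ℝ) (θ : ℕ → Pt m L → ℝ), 1 ≤ L →
      Prd θ → 0 ≤ η → (∀ ω, ∑ i ∈ range L, θ i ω ^ 2 ≤ η) → C * (L : ℝ) ^ ε * η ≤ 1 / 64 →
      Pr (fun _ => 1) (fun ω => ¬ (1 / 2 ≤ qq θ ω ∧ qq θ ω ≤ 2)) ≤ C / (L + 1) ^ n ∧
      Pr (qq θ) (fun ω => ¬ (1 / 2 ≤ qq θ ω ∧ qq θ ω ≤ 2)) ≤ C / (L + 1) ^ n := by
  obtain ⟨C, hC, h⟩ := hS n ε hε
  refine ⟨C, hC, fun m L η θ hL hθ hη hsum hsm => ?_⟩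
  have hL' : (1 : ℝ) ≤ L := by exact_mod_cast hL
  have hLε : 1 ≤ (L : ℝ) ^ ε := Real.one_le_rpow hL' hε.le
  have hη1 : η ≤ 1 / 64 := by
    refine le_trans ?_ hsm
    have : 1 ≤ C * (L : ℝ) ^ ε := by nlinarith
    nlinarith
  obtain ⟨t1, t2, t3, -⟩ := hTK m L θ hθ
  have key : ∀ (ρ : Pt m L → ℝ) (ω : Pt m L), (∀ t ∈ range L, |al ρ 0 t ω| ≤ |θ t ω|) →
      ¬ (1 / 2 ≤ qq θ ω ∧ qq θ ω ≤ 2) → (∑ t ∈ range L, θ t ω ^ 2 ≤ η ∧
        C * (L : ℝ) ^ ε * η < (∑ t ∈ range L, (sb 0 t ω - al ρ 0 t ω) * θ t ω) ^ 2) := by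
    intro ρ ω hal hn
    refine ⟨hsum ω, ?_⟩
    by_contra hc
    push Not at hc
    apply hn
    refine qq_near65 ((hsum ω).trans hη1) ?_
    have h1 : (∑ t ∈ range L, (sb 0 t ω - al ρ 0 t ω) * θ t ω) ^ 2 ≤ (1 / 8) ^ 2 := by
      refine hc.trans (hsm.trans (by norm_num))
    have h2 := abs_le.2 (abs_le_of_sq_le_sq' h1 (by norm_num))
    have h3 : ∑ t ∈ range L, sb 0 t ω * θ t ω =
        ∑ t ∈ range L, (sb 0 t ω - al ρ 0 t ω) * θ t ω + ∑ t ∈ range L, al ρ 0 t ω * θ t ω := by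
      rw [← sum_add_distrib]
      exact sum_congr rfl fun t _ => by ring
    have h4 : |∑ t ∈ range L, al ρ 0 t ω * θ t ω| ≤ 1 / 64 := by
      refine (abs_sum_le_sum_abs _ _).trans (le_trans ?_ ((hsum ω).trans hη1))
      refine sum_le_sum fun t ht => ?_
      rw [abs_mul, ← sq_abs (θ t ω), sq]
      exact mul_le_mul_of_nonneg_right (hal t ht) (abs_nonneg _)
    rw [h3]
    refine (abs_add_le _ _).trans ?_
    linarith
  constructor
  · refine (Pr_mono (law_one65 m L) (fun ω hω => key (fun _ => 1) ω (fun t ht => ?_) hω)).trans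
      (h m L 0 θ 0 η (fun _ => 1) hL (law_one65 m L) hη hθ.dep)
    rw [al_one65 (hE m L) 0 (mem_range.1 ht)]
    simp
  · have hlaw := law_two65 hTK hθ
    have h5 : Pr (qq θ) (fun ω => ¬ (1 / 2 ≤ qq θ ω ∧ qq θ ω ≤ 2)) ≤
        Pr (qq θ) (fun ω => ∑ t ∈ range L, θ t ω ^ 2 ≤ η ∧
        C * (L : ℝ) ^ ε * η <
          (∑ t ∈ range L, (sb 0 t ω - al (qq θ) 0 t ω) * θ t ω) ^ 2) := by
      classical
      unfold Pr Ex
      refine Av_mono fun ω => ?_
      by_cases h0 : qq θ ω = 0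
      · rw [h0, zero_mul, zero_mul]
      · refine mul_le_mul_of_nonneg_left ?_ (t1 ω)
        beta_reduce
        by_cases hP : ¬ (1 / 2 ≤ qq θ ω ∧ qq θ ω ≤ 2)
        · rw [if_pos hP, if_pos (key (qq θ) ω (fun t ht => ?_) hP)]
          have h6 := hA m L _ (qq θ) (θ t) 0 t hlaw (mem_range.1 ht) (hθ.dep t)
            (fun X hX => t3 t (mem_range.1 ht) X hX) ω h0
          rw [h6]
        · rw [if_neg hP]
          split_ifs <;> norm_num
    exact h5.trans (h m L 0 θ _ η (qq θ) hL hlaw hη hθ.dep)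

/-! ### the in part -/

theorem vin_sum65 {m L N R : ℕ} {u : (Fin (m + 1) → ℕ) → Pt m L → ℝ} (hu : ArF N R u)
    {h : Fin (m + 1) → ℕ} (hL : ∀ a, h a ≤ L) (hd : dst (∑ a, h a) N ≤ R) (ω : Pt m L) :
    ∑ j ∈ range (h 0), XX (vin h u) j ω ^ 2 ≤ ((2 * (R : ℝ)) ^ (m + 1)) ^ 2 := by
  classical
  set G : Finset (Fin (m + 1) → ℕ) := Fintype.piFinset (fun a => Finset.Ico (h a - 2 * R) (h a))
    with hG
  set f : (Fin (m + 1) → ℕ) → ℝ := fun q => if q 0 < h 0 then |vin h u q ω| else 0 with hf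
  have h1 : ∀ j ∈ range (h 0), |XX (vin h u) j ω| ≤
      ∑ q ∈ fr L (Inn m) (Function.update (fun _ => 0) 0 j), f q := by
    intro j hj
    have h2 : fr L (Inn m) (Function.update (fun _ => 0) (0 : Fin (m + 1)) j) =
        fr L (Inn m) (fun _ => j) := by
      refine fr_congr fun a ha => ?_
      have h3 : a = 0 := by
        by_contra h4
        exact ha (by simp [Inn, h4])
      subst h3
      rw [Function.update_self]
    rw [h2]
    unfold XX
    refine (abs_sum_le_sum_abs _ _).trans (sum_le_sum fun q hq => ?_)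
    rw [mem_fr] at hq
    have h0 : q 0 = j := hq.2 0 (by simp [Inn])
    rw [abs_mul, ps_abs, one_mul, hf]
    beta_reduce
    rw [if_pos (by rw [h0]; exact mem_range.1 hj)]
  have h2 : ∑ j ∈ range (h 0), |XX (vin h u) j ω| ≤ ∑ q ∈ All m L, f q := by
    have hun : (univ : Finset (Fin (m + 1))) = insert 0 (Inn m) := by
      ext a
      simp only [mem_univ, Inn, mem_insert, mem_erase, true_iff]
      tauto
    have h3 : ∑ q ∈ All m L, f q =
        ∑ t ∈ range L, ∑ q ∈ fr L (Inn m) (Function.update (fun _ => 0) 0 t), f q := by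
      unfold All
      rw [hun, sum_fr_insert (by simp [Inn])]
    rw [h3]
    refine (sum_le_sum h1).trans ?_
    refine sum_le_sum_of_subset_of_nonneg (range_subset_range.2 (hL 0)) fun i _ _ => ?_
    refine sum_nonneg fun q _ => ?_
    rw [hf]
    beta_reduce
    split_ifs
    · exact abs_nonneg _
    · exact le_rfl
  have h3 : ∑ q ∈ All m L, f q ≤ (2 * (R : ℝ)) ^ (m + 1) := by
    have h4 : ∀ q ∈ All m L, f q ≤ if q ∈ G then 1 else 0 := by
      intro q _
      rw [hf]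
      beta_reduce
      by_cases h5 : q 0 < h 0
      · rw [if_pos h5]
        by_cases h6 : vin h u q ω = 0
        · rw [h6, abs_zero]
          split_ifs <;> norm_num
        · have h7 : ∀ b, b ≠ 0 → q b < h b := by
            by_contra h8
            apply h6
            unfold vin
            rw [if_neg h8]
          have h8 : vin h u q ω = u q ω := by
            unfold vin
            rw [if_pos h7]
          have h9 : dst (∑ a, q a) N ≤ R := by
            by_contra h10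
            push Not at h10
            exact h6 (by rw [h8]; exact hu.bd q ω h10)
          have h10 : ∀ a, q a < h a := by
            intro a
            by_cases ha : a = 0
            · subst ha
              exact h5
            · exact h7 a ha
          have h11 : q ∈ G := by
            rw [hG, Fintype.mem_piFinset]
            intro a
            rw [mem_Ico]
            refine ⟨?_, h10 a⟩
            have h12 : ∑ b, (h b - q b) = ∑ b, h b - ∑ b, q b := by
              rw [eq_tsub_iff_add_eq_of_le (sum_le_sum fun b _ => (h10 b).le),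
                ← sum_add_distrib]
              exact sum_congr rfl fun b _ => Nat.sub_add_cancel (h10 b).le
            have h13 : h a - q a ≤ ∑ b, (h b - q b) :=
              single_le_sum (f := fun b => h b - q b) (fun b _ => Nat.zero_le _) (mem_univ a)
            have h14 : ∑ b, h b - ∑ b, q b ≤ 2 * R := by
              unfold dst at h9 hd
              omega
            have h15 := h10 a
            omega
          rw [if_pos h11, h8]
          exact hu.abs q ω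
      · rw [if_neg h5]
        split_ifs <;> norm_num
    refine (sum_le_sum h4).trans ?_
    rw [sum_ite_mem, sum_const, nsmul_eq_mul, mul_one]
    have h5 : (All m L ∩ G).card ≤ G.card := card_le_card inter_subset_right
    have h6 : G.card ≤ (2 * R) ^ (m + 1) := by
      rw [hG, Fintype.card_piFinset]
      refine (prod_le_prod' (g := fun _ => 2 * R) fun a _ => ?_).trans (by simp)
      rw [Nat.card_Ico]
      omega
    have h7 : ((All m L ∩ G).card : ℝ) ≤ ((2 * R) ^ (m + 1) : ℕ) := by exact_mod_cast h5.trans h6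
    push_cast at h7
    exact h7
  have h4 : ∑ j ∈ range (h 0), |XX (vin h u) j ω| ^ 2 ≤
      (∑ j ∈ range (h 0), |XX (vin h u) j ω|) ^ 2 :=
    sum_sq_le_sq_sum_of_nonneg fun j _ => abs_nonneg _
  have h5 : ∑ j ∈ range (h 0), XX (vin h u) j ω ^ 2 =
      ∑ j ∈ range (h 0), |XX (vin h u) j ω| ^ 2 := sum_congr rfl fun j _ => (sq_abs _).symm
  rw [h5]
  refine h4.trans ?_
  exact pow_le_pow_left₀ (sum_nonneg fun j _ => abs_nonneg _) (h2.trans h3) 2

/-- the density of a class is a product -/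
theorem fd_prod65 (hD : StDenG) {m L : ℕ} {θ : ℕ → Pt m L → ℝ} {h : Fin (m + 1) → ℕ}
    (hθ : Prd θ) (hL : h 0 ≤ L) (ω : Pt m L) : ∀ n ≤ h 0,
    fd θ h n ω = ∏ j ∈ range n, (1 + sb 0 j ω * ad θ h j ω) := by
  obtain ⟨h1, h2⟩ := hD m L θ h hθ hL
  intro n
  induction n with
  | zero =>
    intro _
    rw [h1]
    simp
  | succ n ih =>
    intro hn
    rw [h2 n ω (by omega), ih (by omega), prod_range_succ]

open Classical in
/-- the stopped drift -/
noncomputable def sd65 {m L : ℕ} (θ : ℕ → Pt m L → ℝ) (h : Fin (m + 1) → ℕ) (η : ℝ) (j : ℕ)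
    (ω : Pt m L) : ℝ :=
  if j < h 0 ∧ ∑ i ∈ range (j + 1), ad θ h i ω ^ 2 ≤ η then ad θ h j ω else 0

theorem ad_ms65 (hC : StCmnG) {m L : ℕ} {θ : ℕ → Pt m L → ℝ} {h : Fin (m + 1) → ℕ}
    (hq : ∀ ω, 0 ≤ qq θ ω) {i j : ℕ} (hij : i ≤ j) : Ms (one L 0 j) (ad θ h i) := by
  have h1 : Ms (Function.update h 0 i) (ad θ h i) := (hC m L (qq θ) (θ i) _ hq).1
  refine Ms.one h1 0 j ?_
  rw [Function.update_self]
  exact hij

theorem sd_prd65 (hC : StCmnG) {m L : ℕ} {θ : ℕ → Pt m L → ℝ} {h : Fin (m + 1) → ℕ}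
    (hθ : Prd θ) (hq : ∀ ω, 0 ≤ qq θ ω) (η : ℝ) : Prd (sd65 θ h η) := by
  constructor
  · intro j ω ω' hω
    have h1 : ∀ i ≤ j, ad θ h i ω' = ad θ h i ω := fun i hi => ad_ms65 hC hq hi ω ω' hω
    have h2 : ∑ i ∈ range (j + 1), ad θ h i ω' ^ 2 = ∑ i ∈ range (j + 1), ad θ h i ω ^ 2 := by
      refine sum_congr rfl fun i hi => ?_
      rw [h1 i (by have := mem_range.1 hi; omega)]
    unfold sd65
    rw [h2, h1 j le_rfl]
  · intro j ω
    unfold sd65
    split_ifs
    · exact (hC m L (qq θ) (θ j) _ hq).2.1 1 zero_le_one (fun ω => hθ.abs j ω) ω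
    · simp

theorem sd_sum65 {m L : ℕ} (θ : ℕ → Pt m L → ℝ) (h : Fin (m + 1) → ℕ) {η : ℝ} (hη : 0 ≤ η)
    (ω : Pt m L) (n : ℕ) : ∑ j ∈ range n, sd65 θ h η j ω ^ 2 ≤ η := by
  induction n with
  | zero => simpa using hη
  | succ n ih =>
    by_cases hc : n < h 0 ∧ ∑ i ∈ range (n + 1), ad θ h i ω ^ 2 ≤ η
    · refine le_trans (sum_le_sum fun j _ => ?_) hc.2
      unfold sd65
      split_ifs
      · exact le_rfl
      · rw [zero_pow two_ne_zero]
        exact sq_nonneg _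
    · rw [sum_range_succ]
      have h1 : sd65 θ h η n ω = 0 := by
        unfold sd65
        rw [if_neg hc]
      rw [h1, zero_pow two_ne_zero, add_zero]
      exact ih

/-- off the stopping event the two densities agree -/
theorem sd_eq65 (hD : StDenG) {m L : ℕ} {θ : ℕ → Pt m L → ℝ} {h : Fin (m + 1) → ℕ}
    (hθ : Prd θ) (hL : h 0 ≤ L) {η : ℝ} {ω : Pt m L}
    (hη : ∑ i ∈ range (h 0), ad θ h i ω ^ 2 ≤ η) :
    qq (sd65 θ h η) ω = fd θ h (h 0) ω := by
  rw [fd_prod65 hD hθ hL ω (h 0) le_rfl]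
  unfold qq
  rw [← prod_range_mul_prod_Ico _ hL]
  have h1 : ∏ j ∈ Finset.Ico (h 0) L, (1 + sb 0 j ω * sd65 θ h η j ω) = 1 := by
    refine prod_eq_one fun j hj => ?_
    rw [mem_Ico] at hj
    unfold sd65
    rw [if_neg (fun hc => absurd hc.1 (by omega)), mul_zero, add_zero]
  rw [h1, mul_one]
  refine prod_congr rfl fun j hj => ?_
  have hj' := mem_range.1 hj
  have h2 : sd65 θ h η j ω = ad θ h j ω := by
    unfold sd65
    rw [if_pos]
    refine ⟨hj', le_trans ?_ hη⟩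
    exact sum_le_sum_of_subset_of_nonneg (range_subset_range.2 (by omega))
      fun i _ _ => sq_nonneg _
  rw [h2]

theorem Av_fd65 (hE : StEeb) {m L : ℕ} {θ : ℕ → Pt m L → ℝ} {h : Fin (m + 1) → ℕ}
    {X : Pt m L → ℝ} (hX : Ms h X) : Av (fun ω => fd θ h (h 0) ω * X ω) = Ex (qq θ) X := by
  have hE' := hE m L
  have h1 : fd θ h (h 0) = EE h (qq θ) := by
    funext ω
    unfold fd
    rw [Function.update_eq_self]
  rw [h1, ← hE'.adj]
  unfold Ex
  congr 1
  funext ω
  rw [hE'.idem h X hX]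

/-- UNIF -/
theorem unif_65 (hT : StTaily) (hC : StCmnG) (hD : StDenG) (hE : StEeb) (hTK : StTiltK)
    (hS : StSc) (hA : StAlx) : StUnif := by
  classical
  intro m n ε hm hε
  obtain ⟨C1, hC1, h1⟩ := hT m n ε hm hε
  obtain ⟨C2, hC2, h2⟩ := near65 hTK hE hS hA n (ε / 4) (by positivity)
  obtain ⟨K0, hK0⟩ : ∃ K0 : ℝ, K0 = (256 * C2) ^ (4 / ε) := ⟨_, rfl⟩
  have hK0p : 0 < K0 := by rw [hK0]; positivity
  obtain ⟨C, hCdef⟩ : ∃ C : ℝ, C = 2 * C1 + C2 + K0 ^ n + 4 ^ (m + 1) := ⟨_, rfl⟩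
  have h4m : (0 : ℝ) < 4 ^ (m + 1) := by positivity
  have hK0n : 0 < K0 ^ n := by positivity
  have hC1' : 1 ≤ C := by rw [hCdef]; linarith
  refine ⟨C, hC1', ?_⟩
  intro L N R k lam b B bb u g h F hL hk hlam hu hg hN hb hbb hP hlaw hhL hdst hc1 hc2 hF hF0 hFB
  have hL' : (1 : ℝ) ≤ L := by exact_mod_cast hL
  have hB0 : 0 ≤ B := (hF0 (fun _ _ => false)).trans (hFB _)
  have hLn : (0 : ℝ) < ((L : ℝ) + 1) ^ n := by positivity
  rcases lt_or_ge ((L : ℝ) + 1) K0 with hsmall | hlarge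
  · have h3 : B ≤ C * B / ((L : ℝ) + 1) ^ n := by
      rw [le_div_iff₀ hLn]
      have h4 : ((L : ℝ) + 1) ^ n ≤ K0 ^ n := pow_le_pow_left₀ (by positivity) hsmall.le n
      have h5 : ((L : ℝ) + 1) ^ n ≤ C := by rw [hCdef]; linarith
      nlinarith
    have h6 : Av F ≤ B := by
      have := Av_mono (φ := F) (ψ := fun _ => B) hFB
      rwa [Av_const] at this
    have h7 : Ex (qq (tg lam g u)) F ≤ B := by
      have := Ex_mono hlaw (φ := F) (ψ := fun _ => B) hFB
      rwa [Ex_const hlaw] at this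
    have h8 : 0 ≤ Ex (qq (tg lam g u)) F := Ex_nonneg hlaw hF0
    have h9 : 0 ≤ Av F := Av_nonneg hF0
    constructor <;> linarith
  · obtain ⟨θ, hθdef⟩ : ∃ θ : ℕ → Pt m L → ℝ, θ = tg lam g u := ⟨_, rfl⟩
    have hTY := h1 L N R k lam b bb u g h hL hk hlam hu hg hN hb hbb hP hlaw (hhL 0) (by
      refine le_trans ?_ hc1
      have h3 : C1 ≤ C := by rw [hCdef]; linarith
      have h4 : 0 ≤ Real.log ((L : ℝ) + 1) := Real.log_nonneg (by linarith)
      have h5 : 0 ≤ lam ^ 2 * b * (k + Real.log (L + 1)) := by positivity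
      have h6 : C1 * (lam ^ 2 * b * (k + Real.log (L + 1))) ≤
          C * (lam ^ 2 * b * (k + Real.log (L + 1))) := mul_le_mul_of_nonneg_right h3 h5
      linarith)
    have hxo : ∀ j ω, ad (tg lam g u) h j ω = xo lam g u h j ω +
        lam * XX (vin h u) j ω * cmn (qq (tg lam g u)) (g j) (Function.update h 0 j) ω := by
      intro j ω
      unfold xo
      ring
    rw [← hθdef] at hP hlaw hTY hxo
    rw [← hθdef]
    have hq0 : ∀ ω, 0 ≤ qq θ ω := hlaw.nonneg
    obtain ⟨η, hη⟩ : ∃ η : ℝ, η = 4 * ((L : ℝ) + 1) ^ (-(ε / 2)) := ⟨_, rfl⟩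
    have hη0 : 0 ≤ η := by rw [hη]; positivity
    have hL1 : (0 : ℝ) < (L : ℝ) + 1 := by positivity
    -- the smallness condition
    have hηs : C2 * (L : ℝ) ^ (ε / 4) * η ≤ 1 / 64 := by
      have h3 : (L : ℝ) ^ (ε / 4) ≤ ((L : ℝ) + 1) ^ (ε / 4) :=
        Real.rpow_le_rpow (by positivity) (by linarith) (by positivity)
      have h4 : ((L : ℝ) + 1) ^ (ε / 4) * ((L : ℝ) + 1) ^ (-(ε / 2)) =
          ((L : ℝ) + 1) ^ (-(ε / 4)) := by
        rw [← Real.rpow_add hL1]
        congr 1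
        ring
      have h5 : 256 * C2 ≤ ((L : ℝ) + 1) ^ (ε / 4) := by
        have h6 : K0 ^ (ε / 4) ≤ ((L : ℝ) + 1) ^ (ε / 4) :=
          Real.rpow_le_rpow hK0p.le hlarge (by positivity)
        have h7 : K0 ^ (ε / 4) = 256 * C2 := by
          rw [hK0, ← Real.rpow_mul (by positivity)]
          have : 4 / ε * (ε / 4) = 1 := by field_simp
          rw [this, Real.rpow_one]
        linarith
      have h6 : ((L : ℝ) + 1) ^ (-(ε / 4)) * ((L : ℝ) + 1) ^ (ε / 4) = 1 := by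
        rw [← Real.rpow_add hL1]
        simp
      have h7 : 0 < ((L : ℝ) + 1) ^ (-(ε / 4)) := by positivity
      have h8 : 256 * C2 * ((L : ℝ) + 1) ^ (-(ε / 4)) ≤ 1 := by nlinarith
      have h9 : 0 ≤ ((L : ℝ) + 1) ^ (-(ε / 2)) := by positivity
      calc C2 * (L : ℝ) ^ (ε / 4) * η ≤ C2 * ((L : ℝ) + 1) ^ (ε / 4) * η := by gcongr
        _ = 4 * C2 * (((L : ℝ) + 1) ^ (ε / 4) * ((L : ℝ) + 1) ^ (-(ε / 2))) := by
          rw [hη]; ring
        _ = 4 * C2 * ((L : ℝ) + 1) ^ (-(ε / 4)) := by rw [h4]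
        _ ≤ 1 / 64 := by linarith
    -- the stopped law
    have hsdP := sd_prd65 hC (h := h) hP hq0 η
    obtain ⟨ψ, hψ⟩ : ∃ ψ : ℕ → Pt m L → ℝ, ψ = sd65 θ h η := ⟨_, rfl⟩
    have hψe : ∀ ω, ∑ i ∈ range (h 0), ad θ h i ω ^ 2 ≤ η → qq ψ ω = fd θ h (h 0) ω := by
      intro ω hω
      rw [hψ]
      exact sd_eq65 hD hP (hhL 0) hω
    rw [← hψ] at hsdP
    obtain ⟨n1, n2⟩ := h2 m L η ψ hL hsdP hη0
      (fun ω => by rw [hψ]; exact sd_sum65 θ h hη0 ω L) hηs
    obtain ⟨f0, fA, -, -⟩ := hTK m L ψ hsdP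
    have hlf := law_two65 hTK hsdP
    -- the event
    have hSms : Ms h (fun ω => if ∑ i ∈ range (h 0), ad θ h i ω ^ 2 ≤ η then (1 : ℝ) else 0) := by
      intro ω ω' hω
      have h3 : ∑ i ∈ range (h 0), ad θ h i ω' ^ 2 = ∑ i ∈ range (h 0), ad θ h i ω ^ 2 := by
        refine sum_congr rfl fun i hi => ?_
        have h4 : Ms (Function.update h 0 i) (ad θ h i) := (hC m L (qq θ) (θ i) _ hq0).1
        have h5 : Ms h (ad θ h i) := by
          refine h4.mono fun a => ?_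
          left
          by_cases ha : a = 0
          · subst ha
            rw [Function.update_self]
            exact (mem_range.1 hi).le
          · rw [Function.update_of_ne ha]
        rw [h5 ω ω' hω]
      beta_reduce
      rw [h3]
    obtain ⟨iS, hiS⟩ : ∃ iS : Pt m L → ℝ,
      iS = fun ω => if ∑ i ∈ range (h 0), ad θ h i ω ^ 2 ≤ η then (1 : ℝ) else 0 := ⟨_, rfl⟩
    rw [← hiS] at hSms
    have hiS01 : ∀ ω, iS ω = 0 ∨ (iS ω = 1 ∧ qq ψ ω = fd θ h (h 0) ω) := by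
      intro ω
      rw [hiS]
      beta_reduce
      split_ifs with h3
      · right
        exact ⟨rfl, hψe ω h3⟩
      · left
        rfl
    have hfd0 : ∀ ω, 0 ≤ fd θ h (h 0) ω := fun ω => EE_nonneg65 (hE m L) hq0 _ ω
    -- probability of the stopping event
    have hPS : Ex (qq θ) (fun ω => 1 - iS ω) ≤ C1 / ((L : ℝ) + 1) ^ n := by
      refine le_trans ?_ hTY
      unfold Pr
      refine Ex_mono hlaw fun ω => ?_
      rw [hiS]
      beta_reduce
      split_ifs with h3 h4 h4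
      · norm_num
      · norm_num
      · norm_num
      · exfalso
        apply h3
        push Not at h4
        have h5 : ∀ j ∈ range (h 0), ad θ h j ω ^ 2 ≤ 2 * xo lam g u h j ω ^ 2 +
            2 * lam ^ 2 * XX (vin h u) j ω ^ 2 := by
          intro j _
          have h6 : |cmn (qq θ) (g j) (Function.update h 0 j) ω| ≤ 1 :=
            (hC m L (qq θ) (g j) _ hq0).2.1 1 zero_le_one (fun ω => by
              rcases hg.zo j ω with h | h <;> rw [h] <;> norm_num) ω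
          have h7 : cmn (qq θ) (g j) (Function.update h 0 j) ω ^ 2 ≤ 1 := by
            rw [← sq_abs]
            have := abs_nonneg (cmn (qq θ) (g j) (Function.update h 0 j) ω)
            nlinarith
          rw [hxo j ω]
          have h8 : (lam * XX (vin h u) j ω * cmn (qq θ) (g j) (Function.update h 0 j) ω) ^ 2 ≤
              lam ^ 2 * XX (vin h u) j ω ^ 2 := by
            rw [mul_pow, mul_pow]
            have h9 : 0 ≤ lam ^ 2 * XX (vin h u) j ω ^ 2 := by positivity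
            nlinarith
          nlinarith [sq_nonneg (xo lam g u h j ω -
            lam * XX (vin h u) j ω * cmn (qq θ) (g j) (Function.update h 0 j) ω)]
        have h6 := sum_le_sum h5
        rw [sum_add_distrib, ← mul_sum, ← mul_sum] at h6
        have h7 := vin_sum65 hu hhL hdst ω
        have h8 : ((2 * (R : ℝ)) ^ (m + 1)) ^ 2 ≤ 4 ^ (m + 1) * ((R : ℝ) + 1) ^ (2 * m + 2) := by
          have h9 : ((2 * (R : ℝ)) ^ (m + 1)) ^ 2 = 4 ^ (m + 1) * (R : ℝ) ^ (2 * m + 2) := by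
            rw [← pow_mul, mul_pow]
            have h10 : (2 : ℝ) ^ ((m + 1) * 2) = 4 ^ (m + 1) := by
              rw [mul_comm, pow_mul]
              norm_num
            rw [h10]
            congr 1
            ring
          rw [h9]
          gcongr
          linarith
        have h9 : lam ^ 2 * ∑ j ∈ range (h 0), XX (vin h u) j ω ^ 2 ≤
            ((L : ℝ) + 1) ^ (-(ε / 2)) := by
          have h10 : C * lam ^ 2 * ((R : ℝ) + 1) ^ (2 * m + 2) ≤ ((L : ℝ) + 1) ^ (-(ε / 2)) := by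
            refine hc2.trans ?_
            exact Real.rpow_le_rpow_of_exponent_le (by linarith) (by linarith)
          have h11 : lam ^ 2 * ∑ j ∈ range (h 0), XX (vin h u) j ω ^ 2 ≤
              lam ^ 2 * (4 ^ (m + 1) * ((R : ℝ) + 1) ^ (2 * m + 2)) :=
            mul_le_mul_of_nonneg_left (h7.trans h8) (sq_nonneg _)
          have h12 : lam ^ 2 * (4 ^ (m + 1) * ((R : ℝ) + 1) ^ (2 * m + 2)) ≤
              C * lam ^ 2 * ((R : ℝ) + 1) ^ (2 * m + 2) := by
            have h13 : (4 : ℝ) ^ (m + 1) ≤ C := by rw [hCdef]; linarith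
            have h14 : 0 ≤ lam ^ 2 * ((R : ℝ) + 1) ^ (2 * m + 2) := by positivity
            nlinarith
          linarith
        rw [hη]
        linarith
    have hfdA : Av (fun ω => fd θ h (h 0) ω * (1 - iS ω)) = Ex (qq θ) (fun ω => 1 - iS ω) :=
      Av_fd65 hE (hSms.comp (fun x => 1 - x))
    have hfA : Av (fun ω => qq ψ ω * (1 - iS ω)) = Ex (qq θ) (fun ω => 1 - iS ω) := by
      rw [← hfdA]
      have h3 : (fun ω => qq ψ ω * (1 - iS ω)) = fun ω => qq ψ ω - fd θ h (h 0) ω * iS ω := by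
        funext ω
        rcases hiS01 ω with h4 | ⟨h4, h5⟩
        · rw [h4]; ring
        · rw [h4, h5]; ring
      have h4 : (fun ω => fd θ h (h 0) ω * (1 - iS ω)) =
          fun ω => fd θ h (h 0) ω - fd θ h (h 0) ω * iS ω := by
        funext ω
        ring
      rw [h3, h4, Av_sub, Av_sub, fA]
      have h5 : Av (fd θ h (h 0)) = 1 := by
        have h6 := Av_fd65 hE (θ := θ) (h := h) (X := fun _ => 1) (Ms.cst h 1)
        rw [Ex_const hlaw] at h6
        rw [← h6]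
        congr 1
        funext ω
        ring
      rw [h5]
    have hfdF : Av (fun ω => fd θ h (h 0) ω * F ω) = Ex (qq θ) F := Av_fd65 hE hF
    obtain ⟨iN, hiN⟩ : ∃ iN : Pt m L → ℝ,
      iN = fun ω => if ¬ (1 / 2 ≤ qq ψ ω ∧ qq ψ ω ≤ 2) then (1 : ℝ) else 0 := ⟨_, rfl⟩
    have hN1 : Av iN ≤ C2 / ((L : ℝ) + 1) ^ n := by
      refine le_trans (le_of_eq ?_) n1
      unfold Pr Ex
      congr 1
      funext ω
      rw [hiN]
      beta_reduce
      by_cases hc : (1 / 2 ≤ qq ψ ω ∧ qq ψ ω ≤ 2)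
      · rw [if_neg (not_not.mpr hc), if_neg (not_not.mpr hc), mul_zero]
      · rw [if_pos hc, if_pos hc, mul_one]
    have hN2 : Av (fun ω => qq ψ ω * iN ω) ≤ C2 / ((L : ℝ) + 1) ^ n := by
      refine le_trans (le_of_eq ?_) n2
      unfold Pr Ex
      congr 1
      funext ω
      rw [hiN]
      beta_reduce
      by_cases hc : (1 / 2 ≤ qq ψ ω ∧ qq ψ ω ≤ 2)
      · rw [if_neg (not_not.mpr hc), if_neg (not_not.mpr hc)]
      · rw [if_pos hc, if_pos hc]
    have hiN01 : ∀ ω, iN ω = 1 ∨ (iN ω = 0 ∧ 1 / 2 ≤ qq ψ ω ∧ qq ψ ω ≤ 2) := by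
      intro ω
      rw [hiN]
      beta_reduce
      split_ifs with h3
      · right
        exact ⟨rfl, h3⟩
      · left
        rfl
    have hfin : 2 * (C1 / ((L : ℝ) + 1) ^ n) + C2 / ((L : ℝ) + 1) ^ n ≤
        C / ((L : ℝ) + 1) ^ n := by
      rw [← mul_div_assoc, ← add_div]
      have : 2 * C1 + C2 ≤ C := by rw [hCdef]; linarith
      gcongr
    have hC1n : 0 ≤ C1 / ((L : ℝ) + 1) ^ n := by positivity
    have hBd : C * B / ((L : ℝ) + 1) ^ n = B * (C / ((L : ℝ) + 1) ^ n) := by ring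
    constructor
    · have h3 : Av F ≤ Av (fun ω => 2 * (fd θ h (h 0) ω * F ω) +
          (2 * B * (qq ψ ω * (1 - iS ω)) + B * iN ω)) := by
        refine Av_mono fun ω => ?_
        have hF0' := hF0 ω
        have hFB' := hFB ω
        have hf := f0 ω
        have hd := hfd0 ω
        have hdF : 0 ≤ fd θ h (h 0) ω * F ω := mul_nonneg hd hF0'
        rcases hiS01 ω with h4 | ⟨h4, h5⟩
        · rw [h4]
          rcases hiN01 ω with h6 | ⟨h6, h7, h8⟩
          · rw [h6]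
            have : 0 ≤ B * qq ψ ω := mul_nonneg hB0 hf
            nlinarith
          · rw [h6]
            have : B * (1 / 2) ≤ B * qq ψ ω := mul_le_mul_of_nonneg_left h7 hB0
            nlinarith
        · rw [h4, ← h5]
          rcases hiN01 ω with h6 | ⟨h6, h7, h8⟩
          · rw [h6]
            have : 0 ≤ qq ψ ω * F ω := mul_nonneg hf hF0'
            nlinarith
          · rw [h6]
            have : (1 / 2) * F ω ≤ qq ψ ω * F ω := mul_le_mul_of_nonneg_right h7 hF0'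
            nlinarith
      rw [Av_add, Av_smul, hfdF, Av_add, Av_smul, hfA, Av_smul] at h3
      have h4 : 2 * B * Ex (qq θ) (fun ω => 1 - iS ω) ≤ 2 * B * (C1 / ((L : ℝ) + 1) ^ n) :=
        mul_le_mul_of_nonneg_left hPS (by linarith)
      have h5 : B * Av iN ≤ B * (C2 / ((L : ℝ) + 1) ^ n) := mul_le_mul_of_nonneg_left hN1 hB0
      have h6 : B * (2 * (C1 / ((L : ℝ) + 1) ^ n) + C2 / ((L : ℝ) + 1) ^ n) ≤
          B * (C / ((L : ℝ) + 1) ^ n) := mul_le_mul_of_nonneg_left hfin hB0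
      rw [hBd]
      linarith
    · have h3 : Av (fun ω => fd θ h (h 0) ω * F ω) ≤ Av (fun ω => 2 * F ω +
          (B * (qq ψ ω * iN ω) + B * (fd θ h (h 0) ω * (1 - iS ω)))) := by
        refine Av_mono fun ω => ?_
        have hF0' := hF0 ω
        have hFB' := hFB ω
        have hf := f0 ω
        have hd := hfd0 ω
        rcases hiS01 ω with h4 | ⟨h4, h5⟩
        · rw [h4]
          have h6 : fd θ h (h 0) ω * F ω ≤ fd θ h (h 0) ω * B := mul_le_mul_of_nonneg_left hFB' hd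
          have h7 : 0 ≤ B * (qq ψ ω * iN ω) := by
            refine mul_nonneg hB0 (mul_nonneg hf ?_)
            rcases hiN01 ω with h8 | ⟨h8, -⟩ <;> rw [h8] <;> norm_num
          nlinarith
        · rw [h4, ← h5]
          rcases hiN01 ω with h6 | ⟨h6, h7, h8⟩
          · rw [h6]
            have : qq ψ ω * F ω ≤ qq ψ ω * B := mul_le_mul_of_nonneg_left hFB' hf
            nlinarith
          · rw [h6]
            have : qq ψ ω * F ω ≤ 2 * F ω := mul_le_mul_of_nonneg_right h8 hF0'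
            nlinarith
      rw [hfdF, Av_add, Av_smul, Av_add, Av_smul, Av_smul, hfdA] at h3
      have h4 : B * Ex (qq θ) (fun ω => 1 - iS ω) ≤ B * (C1 / ((L : ℝ) + 1) ^ n) :=
        mul_le_mul_of_nonneg_left hPS hB0
      have h5 : B * Av (fun ω => qq ψ ω * iN ω) ≤ B * (C2 / ((L : ℝ) + 1) ^ n) :=
        mul_le_mul_of_nonneg_left hN2 hB0
      have h6 : B * (2 * (C1 / ((L : ℝ) + 1) ^ n) + C2 / ((L : ℝ) + 1) ^ n) ≤
          B * (C / ((L : ℝ) + 1) ^ n) := mul_le_mul_of_nonneg_left hfin hB0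
      have h7 : 0 ≤ B * (C1 / ((L : ℝ) + 1) ^ n) := mul_nonneg hB0 hC1n
      rw [hBd]
      linarith

end Pool.Agent.SHD
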