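import Pool.Agent.Lib.MP_a7b2aa_an.SHD.Stmts65
import Pool.Agent.Lib.MP_a7b2aa_an.SBD.Bess46

/-!
SHD, module VISK (helper74): correlation of the dual vector with functions of the past.
-/

set_option autoImplicit false

namespace Pool.Agent.SHD

open Finset Pool.Agent.SB3 Pool.Agent.SBT Pool.Agent.SBD Pool.Agent.SBD.Bess46

namespace V74

variable {m L : ℕ}

theorem kap_le_one (N : ℕ) (q : Fin (m + 1) → ℕ) : kap N q ≤ 1 :=
  pow_le_one₀ (by norm_num) (by norm_num)

theorem ark_abs {N : ℕ} {v : (Fin (m + 1) → ℕ) → Pt m L → ℝ} (hv : ArK N v)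
    (q : Fin (m + 1) → ℕ) (ω : Pt m L) : |v q ω| ≤ 1 := (hv.abs q ω).trans (kap_le_one N q)

theorem ark_dep {N : ℕ} {v : (Fin (m + 1) → ℕ) → Pt m L → ℝ} (hv : ArK N v)
    (q : Fin (m + 1) → ℕ) (a : Fin (m + 1)) : Ms (one L a (q a)) (v q) := by
  intro ω ω' h
  refine hv.dep q ω ω' fun b => ?_
  by_cases hb : b = a
  · subst hb
    have h1 := h b
    unfold one at h1
    rwa [Function.update_self] at h1
  · rw [eq_of_cl h hb]

theorem Fs_ms74 {N : ℕ} {v : (Fin (m + 1) → ℕ) → Pt m L → ℝ} (hv : ArK N v)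
    {U : Finset (Fin (m + 1))} {c : Fin (m + 1)} (hc : c ∉ U) (q : Fin (m + 1) → ℕ) (t : ℕ) :
    Ms (one L c t) (Fs v U (Function.update q c t)) := by
  intro ω ω' h
  unfold Fs
  refine Finset.sum_congr rfl fun r hr => ?_
  have h3 : r c = t := by
    have := (Bess46.mem_fr.1 hr).2 c hc
    rwa [Function.update_self] at this
  have h4 : v r ω' = v r ω := by
    have := ark_dep hv r c ω ω'
    rw [h3] at this
    exact this h
  have h5 : ps U r ω' = ps U r ω := by
    unfold ps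
    refine Finset.prod_congr rfl fun a ha => ?_
    unfold sb
    rw [eq_of_cl h (fun hac => hc (hac ▸ ha))]
  rw [h4, h5]

theorem Fs_abs74 {N : ℕ} {v : (Fin (m + 1) → ℕ) → Pt m L → ℝ} (hv : ArK N v) (hL : 1 ≤ L)
    (U : Finset (Fin (m + 1))) (q : Fin (m + 1) → ℕ) (ω : Pt m L) :
    |Fs v U q ω| ≤ (L : ℝ) ^ (m + 1) := by
  unfold Fs
  refine (Finset.abs_sum_le_sum_abs _ _).trans ?_
  have h1 : ∑ r ∈ fr L U q, |ps U r ω * v r ω| ≤ ∑ _r ∈ fr L U q, (1 : ℝ) := by
    refine Finset.sum_le_sum fun r _ => ?_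
    rw [abs_mul, abs_ps, one_mul]
    exact ark_abs hv r ω
  refine h1.trans ?_
  rw [Finset.sum_const, Bess46.card_fr, nsmul_eq_mul, mul_one]
  have h2 : U.card ≤ m + 1 := by
    have := Finset.card_le_univ U
    rwa [Fintype.card_fin] at this
  have hL' : (1 : ℝ) ≤ L := by exact_mod_cast hL
  push_cast
  exact pow_le_pow_right₀ hL' h2

theorem Fs_zero {v : (Fin (m + 1) → ℕ) → Pt m L → ℝ} {r : ℕ} {a : Fin (m + 1)}
    (hz : ∀ q ω, q a < r → v q ω = 0) {U : Finset (Fin (m + 1))} (ha : a ∉ U)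
    (q : Fin (m + 1) → ℕ) {t : ℕ} (ht : t < r) (ω : Pt m L) :
    Fs v U (Function.update q a t) ω = 0 := by
  unfold Fs
  refine Finset.sum_eq_zero fun p hp => ?_
  have h3 : p a = t := by
    have := (Bess46.mem_fr.1 hp).2 a ha
    rwa [Function.update_self] at this
  rw [hz p ω (by rw [h3]; exact ht), mul_zero]

theorem XX_eq {v : (Fin (m + 1) → ℕ) → Pt m L → ℝ} {a : Fin (m + 1)} (ha : a ≠ 0) (i : ℕ)
    (ω : Pt m L) : XX v i ω = ∑ t ∈ range L, sb a t ω *
      Fs v ((Inn m).erase a) (Function.update (Function.update (fun _ => 0) 0 i) a t) ω := by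
  have haI : a ∈ Inn m := by
    unfold Inn
    exact mem_erase.2 ⟨ha, mem_univ a⟩
  have h1 : XX v i ω = Fs v (insert a ((Inn m).erase a)) (Function.update (fun _ => 0) 0 i) ω := by
    rw [insert_erase haI]
    unfold Fs XX
    rw [Bess46.fr_congr (L := L) (U := Inn m) (q := Function.update (fun _ => 0) 0 i)
      (q' := fun _ => i)]
    intro b hb
    have : b = 0 := by
      by_contra h
      exact hb (by simp [Inn, h])
    subst this
    rw [Function.update_self]
  rw [h1, Fs_split (notMem_erase a _)]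

/-- Cauchy-Schwarz -/
theorem cs {ρ : Pt m L → ℝ} (hρ : ∀ ω, 0 ≤ ρ ω) (G X : ℕ → Pt m L → ℝ) :
    |∑ i ∈ range L, Ex ρ (fun ω => G i ω * X i ω)| ≤
      Real.sqrt (∑ i ∈ range L, Ex ρ (fun ω => G i ω ^ 2)) *
        Real.sqrt (∑ i ∈ range L, Ex ρ (fun ω => X i ω ^ 2)) := by
  set b : ℝ := ∑ i ∈ range L, Ex ρ (fun ω => G i ω ^ 2) with hb
  set c : ℝ := ∑ i ∈ range L, Ex ρ (fun ω => X i ω ^ 2) with hc
  set a : ℝ := ∑ i ∈ range L, Ex ρ (fun ω => G i ω * X i ω) with ha
  have hb0 : 0 ≤ b := Finset.sum_nonneg fun i _ => ex_nonneg hρ fun ω => sq_nonneg _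
  have h1 : ∀ t : ℝ, 0 ≤ c * (t * t) + (2 * a) * t + b := by
    intro t
    have h2 : 0 ≤ ∑ i ∈ range L, Ex ρ (fun ω => (G i ω + t * X i ω) ^ 2) :=
      Finset.sum_nonneg fun i _ => ex_nonneg hρ fun ω => sq_nonneg _
    have h3 : ∑ i ∈ range L, Ex ρ (fun ω => (G i ω + t * X i ω) ^ 2) =
        c * (t * t) + (2 * a) * t + b := by
      rw [ha, hb, hc, Finset.sum_mul, Finset.mul_sum, Finset.sum_mul, ← Finset.sum_add_distrib,
        ← Finset.sum_add_distrib]
      refine Finset.sum_congr rfl fun i _ => ?_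
      have h4 : Ex ρ (fun ω => (G i ω + t * X i ω) ^ 2) =
          Ex ρ (fun ω => t * t * X i ω ^ 2 + (2 * t * (G i ω * X i ω) + G i ω ^ 2)) := by
        congr 1
        funext ω
        ring
      rw [h4, ex_add, ex_mul, ex_add, ex_mul]
      ring
    rw [← h3]
    exact h2
  have h2 := discrim_le_zero h1
  unfold discrim at h2
  have h3 : a ^ 2 ≤ b * c := by nlinarith
  rw [← Real.sqrt_mul hb0]
  exact Real.abs_le_sqrt h3

open Classical in
theorem drift74 {N : ℕ} {v : (Fin (m + 1) → ℕ) → Pt m L → ℝ} (hv : ArK N v) (hL : 1 ≤ L)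
    {k b C : ℝ} {ρ : Pt m L → ℝ} (hρ : Law k ρ) (hA : Alf ρ) (hb : 0 ≤ b) (hC : 0 ≤ C)
    {U : Finset (Fin (m + 1))} {a : Fin (m + 1)} (q : Fin (m + 1) → ℕ)
    (hT : Ex ρ (A2 ρ a) ≤ 4 * k)
    (hP : Pr ρ (fun ω => ¬ NB (Matrix.of (fun (x y : Fin L) =>
      Fs v U (Function.update (Function.update q 0 x) a y) ω)) b) ≤
        C / ((L : ℝ) + 1) ^ (2 * m + 5)) :
    ∑ i ∈ range L, Ex ρ (fun ω => (∑ t ∈ range L,
      al ρ a t ω * Fs v U (Function.update (Function.update q 0 i) a t) ω) ^ 2) ≤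
      b * (4 * k) + C := by
  have hLr : (1 : ℝ) ≤ L := by exact_mod_cast hL
  rw [← ex_sum]
  have key : ∀ ω, ∑ i ∈ range L, (∑ t ∈ range L,
      al ρ a t ω * Fs v U (Function.update (Function.update q 0 i) a t) ω) ^ 2 ≤
      b * A2 ρ a ω + (L : ℝ) ^ (2 * m + 5) * (if ¬ NB (Matrix.of (fun (x y : Fin L) =>
        Fs v U (Function.update (Function.update q 0 x) a y) ω)) b then (1 : ℝ) else 0) := by
    intro ω
    have hA2 : 0 ≤ A2 ρ a ω := Finset.sum_nonneg fun t _ => sq_nonneg _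
    by_cases hN : NB (Matrix.of (fun (x y : Fin L) =>
        Fs v U (Function.update (Function.update q 0 x) a y) ω)) b
    · rw [if_neg (not_not.2 hN), mul_zero, add_zero]
      have h1 := hN (fun x : Fin L => al ρ a x ω)
      have e1 : ∑ i ∈ range L, (∑ t ∈ range L,
          al ρ a t ω * Fs v U (Function.update (Function.update q 0 i) a t) ω) ^ 2 =
          ∑ x : Fin L, (∑ y : Fin L, (Matrix.of (fun (x y : Fin L) =>
            Fs v U (Function.update (Function.update q 0 x) a y) ω)) x y * al ρ a y ω) ^ 2 := by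
        rw [Finset.sum_range]
        refine Finset.sum_congr rfl fun x _ => ?_
        rw [Finset.sum_range]
        congr 1
        refine Finset.sum_congr rfl fun y _ => ?_
        rw [Matrix.of_apply]
        ring
      have e2 : A2 ρ a ω = ∑ x : Fin L, al ρ a x ω ^ 2 := by
        unfold A2
        rw [Finset.sum_range]
      rw [e1, e2]
      exact h1
    · rw [if_pos hN, mul_one]
      have h1 : ∀ i ∈ range L, (∑ t ∈ range L,
          al ρ a t ω * Fs v U (Function.update (Function.update q 0 i) a t) ω) ^ 2 ≤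
          ((L : ℝ) * (L : ℝ) ^ (m + 1)) ^ 2 := by
        intro i _
        have h2 : |∑ t ∈ range L,
            al ρ a t ω * Fs v U (Function.update (Function.update q 0 i) a t) ω| ≤
            (L : ℝ) * (L : ℝ) ^ (m + 1) := by
          refine (Finset.abs_sum_le_sum_abs _ _).trans ?_
          have h3 : ∑ t ∈ range L, |al ρ a t ω *
              Fs v U (Function.update (Function.update q 0 i) a t) ω| ≤
              ∑ _t ∈ range L, (L : ℝ) ^ (m + 1) := by
            refine Finset.sum_le_sum fun t _ => ?_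
            rw [abs_mul]
            calc |al ρ a t ω| * |Fs v U (Function.update (Function.update q 0 i) a t) ω|
                ≤ 1 * (L : ℝ) ^ (m + 1) :=
                  mul_le_mul (hA.abs a t ω) (Fs_abs74 hv hL _ _ _) (abs_nonneg _) zero_le_one
              _ = (L : ℝ) ^ (m + 1) := one_mul _
          refine h3.trans ?_
          rw [Finset.sum_const, card_range, nsmul_eq_mul]
        have h4 := abs_le.1 h2
        exact sq_le_sq' h4.1 h4.2
      calc ∑ i ∈ range L, (∑ t ∈ range L,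
          al ρ a t ω * Fs v U (Function.update (Function.update q 0 i) a t) ω) ^ 2
          ≤ ∑ _y ∈ range L, ((L : ℝ) * (L : ℝ) ^ (m + 1)) ^ 2 := Finset.sum_le_sum h1
        _ = (L : ℝ) ^ (2 * m + 5) := by
            rw [Finset.sum_const, card_range, nsmul_eq_mul]
            ring
        _ ≤ b * A2 ρ a ω + (L : ℝ) ^ (2 * m + 5) := by
            have : 0 ≤ b * A2 ρ a ω := mul_nonneg hb hA2
            linarith
  refine (ex_mono hρ.nonneg key).trans ?_
  rw [ex_add, ex_mul, ex_mul]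
  have h6 : (L : ℝ) ^ (2 * m + 5) * (C / ((L : ℝ) + 1) ^ (2 * m + 5)) ≤ C := by
    rw [mul_div_assoc']
    rw [div_le_iff₀ (by positivity)]
    have : (L : ℝ) ^ (2 * m + 5) ≤ ((L : ℝ) + 1) ^ (2 * m + 5) :=
      pow_le_pow_left₀ (by positivity) (by linarith) _
    nlinarith
  have h7 : (L : ℝ) ^ (2 * m + 5) * Ex ρ (fun ω => if ¬ NB (Matrix.of (fun (x y : Fin L) =>
      Fs v U (Function.update (Function.update q 0 x) a y) ω)) b then (1 : ℝ) else 0) ≤
      (L : ℝ) ^ (2 * m + 5) * (C / ((L : ℝ) + 1) ^ (2 * m + 5)) := by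
    refine mul_le_mul_of_nonneg_left ?_ (by positivity)
    refine le_trans (le_of_eq ?_) hP
    unfold Pr
    congr 1
    funext ω
    congr 1
  have h8 : b * Ex ρ (A2 ρ a) ≤ b * (4 * k) := mul_le_mul_of_nonneg_left hT hb
  linarith

end V74

open V74

/-- VISK -/
theorem visk_74 (hA : StAlf) (hT : StTail) (hO : StOpK) : StVisK := by
  intro m ε hm hε
  obtain ⟨C, hC1, hC⟩ := hO m (2 * m + 5) ε hε
  refine ⟨4 * C ^ m + C, ?_, ?_⟩
  · have : (0 : ℝ) ≤ C ^ m := by positivity
    linarith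
  intro L N r a v k ρ X hL hk hρ hv ha hX hz
  have hAl := hA m L k ρ hρ
  have hT1 := (hT m L k ρ hρ).1 a
  have hLr : (1 : ℝ) ≤ L := by exact_mod_cast hL
  have hLe : (1 : ℝ) ≤ (L : ℝ) ^ ε := Real.one_le_rpow hLr hε.le
  set U : Finset (Fin (m + 1)) := (Inn m).erase a with hU
  have haI : a ∈ Inn m := by
    unfold Inn
    exact mem_erase.2 ⟨ha, mem_univ a⟩
  have haU : a ∉ U := notMem_erase _ _
  have h0U : (0 : Fin (m + 1)) ∉ U := by
    intro h
    have h1 := mem_of_mem_erase h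
    unfold Inn at h1
    exact notMem_erase _ _ h1
  have hcard : U.card = m - 1 := by
    rw [hU, card_erase_of_mem haI]
    unfold Inn
    rw [card_erase_of_mem (mem_univ 0), card_univ, Fintype.card_fin]
    omega
  set z : ℝ := (L : ℝ) ^ ε + k with hzdef
  have hz1 : 1 ≤ z := by linarith
  set b : ℝ := C * (C * L * z) ^ U.card with hbdef
  have hb0 : 0 ≤ b := by positivity
  have hP := hC L N U a v k ρ (fun _ => 0) hL (by linarith) hρ hv h0U haU ha
  have hD := drift74 hv hL hρ hAl hb0 (by linarith : (0 : ℝ) ≤ C) (U := U) (a := a)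
    (fun _ => 0) hT1 (by
      refine le_trans (le_of_eq ?_) hP
      rfl)
  have hstep : ∀ i ∈ range L, Ex ρ (fun ω => XX v i ω * X i ω) =
      Ex ρ (fun ω => (∑ t ∈ range L, al ρ a t ω *
        Fs v U (Function.update (Function.update (fun _ => 0) 0 i) a t) ω) * X i ω) := by
    intro i _
    have e1 : Ex ρ (fun ω => XX v i ω * X i ω) = ∑ t ∈ range L,
        Ex ρ (fun ω => sb a t ω *
          (Fs v U (Function.update (Function.update (fun _ => 0) 0 i) a t) ω * X i ω)) := by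
      rw [← ex_sum]
      congr 1
      funext ω
      rw [XX_eq ha, Finset.sum_mul]
      exact Finset.sum_congr rfl fun t _ => by ring
    have e2 : Ex ρ (fun ω => (∑ t ∈ range L, al ρ a t ω *
        Fs v U (Function.update (Function.update (fun _ => 0) 0 i) a t) ω) * X i ω) =
        ∑ t ∈ range L, Ex ρ (fun ω => al ρ a t ω *
          (Fs v U (Function.update (Function.update (fun _ => 0) 0 i) a t) ω * X i ω)) := by
      rw [← ex_sum]
      congr 1
      funext ω
      rw [Finset.sum_mul]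
      exact Finset.sum_congr rfl fun t _ => by ring
    rw [e1, e2]
    refine Finset.sum_congr rfl fun t _ => ?_
    rcases lt_or_ge t r with htr | htr
    · have h0 : ∀ ω, Fs v U (Function.update (Function.update (fun _ => 0) 0 i) a t) ω = 0 :=
        fun ω => Fs_zero hz haU _ htr ω
      simp [h0]
    · refine hAl.ex a t _ ?_
      intro ω ω' hc
      show Fs v U (Function.update (Function.update (fun _ => 0) 0 i) a t) ω' * X i ω' =
        Fs v U (Function.update (Function.update (fun _ => 0) 0 i) a t) ω * X i ω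
      rw [Fs_ms74 hv haU _ t ω ω' hc, hX i t htr ω ω' hc]
  rw [Finset.sum_congr rfl hstep]
  refine (cs hρ.nonneg _ _).trans ?_
  refine mul_le_mul_of_nonneg_right (Real.sqrt_le_sqrt (hD.trans ?_)) (Real.sqrt_nonneg _)
  have hp1 : (0 : ℝ) ≤ (L : ℝ) ^ (m - 1) := by positivity
  have hp2 : (1 : ℝ) ≤ (L : ℝ) ^ (m - 1) * z ^ m :=
    one_le_mul_of_one_le_of_one_le (one_le_pow₀ hLr) (one_le_pow₀ hz1)
  have h1 : b * (4 * k) ≤ 4 * C ^ m * ((L : ℝ) ^ (m - 1) * z ^ m) := by
    have e1 : b = C ^ m * (L : ℝ) ^ (m - 1) * z ^ (m - 1) := by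
      rw [hbdef, hcard, mul_pow, mul_pow]
      obtain ⟨m', rfl⟩ : ∃ m', m = m' + 1 := ⟨m - 1, by omega⟩
      simp only [Nat.add_sub_cancel]
      ring
    have e2 : z ^ m = z ^ (m - 1) * z := by
      obtain ⟨m', rfl⟩ : ∃ m', m = m' + 1 := ⟨m - 1, by omega⟩
      simp only [Nat.add_sub_cancel]
      ring
    have hkz : k ≤ z := by linarith
    have h3 : (0 : ℝ) ≤ C ^ m * (L : ℝ) ^ (m - 1) * z ^ (m - 1) := by positivity
    rw [e1, e2]
    nlinarith [mul_le_mul_of_nonneg_left hkz h3]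
  have h2 : C ≤ C * ((L : ℝ) ^ (m - 1) * z ^ m) := by nlinarith
  calc b * (4 * k) + C ≤ 4 * C ^ m * ((L : ℝ) ^ (m - 1) * z ^ m) +
      C * ((L : ℝ) ^ (m - 1) * z ^ m) := add_le_add h1 h2
    _ = (4 * C ^ m + C) * (L : ℝ) ^ (m - 1) * z ^ m := by ring

end Pool.Agent.SHD
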