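import Pool.Agent.Lib.MP_a7b2aa_an.SHD.Stmts2_65
import Pool.Agent.Lib.MP_a7b2aa_an.SHD.Visk74
import Pool.Agent.Lib.MP_a7b2aa_an.SBD.EEB36

/-!
SHD2, module VISG (helper74): drift of a gated sum, conditional on a class.
-/

set_option autoImplicit false

namespace Pool.Agent.SHD

open Finset Pool.Agent.SB3 Pool.Agent.SBT Pool.Agent.SBD Pool.Agent.SBD.Bess46

namespace G74

/-! ### numerical lemmas -/

/-- weighted Cauchy-Schwarz -/
theorem wcs {ι : Type} (s : Finset ι) (c w F G : ι → ℝ) (hc : ∀ i ∈ s, 0 ≤ c i)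
    (hF : ∀ i ∈ s, c i ≠ 0 → 0 ≤ F i) (hG : ∀ i ∈ s, c i ≠ 0 → 0 ≤ G i)
    (hw : ∀ i ∈ s, c i ≠ 0 → w i ^ 2 ≤ F i * G i) :
    (∑ i ∈ s, c i * w i) ^ 2 ≤ (∑ i ∈ s, c i * F i) * ∑ i ∈ s, c i * G i := by
  have h0 : ∀ i ∈ s, 0 ≤ c i * F i ∧ 0 ≤ c i * G i := by
    intro i hi
    by_cases h : c i = 0
    · simp [h]
    · exact ⟨mul_nonneg (hc i hi) (hF i hi h), mul_nonneg (hc i hi) (hG i hi h)⟩
  have h1 : |∑ i ∈ s, c i * w i| ≤ ∑ i ∈ s, Real.sqrt (c i * F i) * Real.sqrt (c i * G i) := by
    refine (Finset.abs_sum_le_sum_abs _ _).trans (Finset.sum_le_sum fun i hi => ?_)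
    rw [← Real.sqrt_mul (h0 i hi).1]
    refine Real.abs_le_sqrt ?_
    by_cases h : c i = 0
    · simp [h]
    · have h2 := hw i hi h
      have h3 : 0 ≤ c i ^ 2 := sq_nonneg _
      calc (c i * w i) ^ 2 = c i ^ 2 * w i ^ 2 := by ring
        _ ≤ c i ^ 2 * (F i * G i) := mul_le_mul_of_nonneg_left h2 h3
        _ = c i * F i * (c i * G i) := by ring
  have h2 := Finset.sum_mul_sq_le_sq_mul_sq s (fun i => Real.sqrt (c i * F i))
    (fun i => Real.sqrt (c i * G i))
  have h3 : (∑ i ∈ s, c i * w i) ^ 2 ≤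
      (∑ i ∈ s, Real.sqrt (c i * F i) * Real.sqrt (c i * G i)) ^ 2 := by
    rw [← sq_abs]
    exact pow_le_pow_left₀ (abs_nonneg _) h1 2
  refine h3.trans (h2.trans (le_of_eq ?_))
  congr 1
  · exact Finset.sum_congr rfl fun i hi => Real.sq_sqrt (h0 i hi).1
  · exact Finset.sum_congr rfl fun i hi => Real.sq_sqrt (h0 i hi).2

/-- entropy of a partition -/
theorem entp (N : ℕ) (hN : 0 < N) (f : ℕ → ℝ) (F : ℝ) (hf : ∀ n ∈ range N, 0 ≤ f n)
    (hF : ∑ n ∈ range N, f n = F) (hF0 : 0 < F) :
    ∑ n ∈ range N, -(f n * Real.log (f n)) ≤ F * (Real.log N - Real.log F) := by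
  have hN' : (0 : ℝ) < N := by exact_mod_cast hN
  have h1 : ∀ n ∈ range N, -(f n * Real.log (f n)) ≤
      f n * (Real.log N - Real.log F) + (F / N - f n) := by
    intro n hn
    rcases (hf n hn).eq_or_lt with h | h
    · rw [← h]
      simp
      positivity
    · have h2 : Real.log (F / (N * f n)) ≤ F / (N * f n) - 1 :=
        Real.log_le_sub_one_of_pos (by positivity)
      have h3 : Real.log (F / (N * f n)) = Real.log F - (Real.log N + Real.log (f n)) := by
        rw [Real.log_div hF0.ne' (by positivity), Real.log_mul hN'.ne' h.ne']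
      rw [h3] at h2
      have h4 := mul_le_mul_of_nonneg_left h2 h.le
      have h5 : f n * (F / (N * f n) - 1) = F / N - f n := by
        field_simp
      rw [h5] at h4
      nlinarith
  refine (Finset.sum_le_sum h1).trans (le_of_eq ?_)
  rw [Finset.sum_add_distrib, ← Finset.sum_mul, hF, Finset.sum_sub_distrib, hF, Finset.sum_const,
    card_range, nsmul_eq_mul]
  field_simp
  ring

/-- transposed norm bound -/
theorem tnb {L : ℕ} (n : ℕ) (B : ℕ → Fin L → ℝ) (b : ℝ) (hb : 0 ≤ b)
    (h : ∀ u : Fin L → ℝ, ∑ i ∈ range n, (∑ t, B i t * u t) ^ 2 ≤ b * ∑ t, u t ^ 2)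
    (x : ℕ → ℝ) : ∑ t, (∑ i ∈ range n, B i t * x i) ^ 2 ≤ b * ∑ i ∈ range n, x i ^ 2 := by
  set y : Fin L → ℝ := fun t => ∑ i ∈ range n, B i t * x i with hy
  have h1 : ∑ t, y t ^ 2 = ∑ i ∈ range n, x i * ∑ t, B i t * y t := by
    have e : ∀ t, y t ^ 2 = ∑ i ∈ range n, x i * (B i t * y t) := by
      intro t
      rw [sq]
      nth_rewrite 1 [hy]
      dsimp only
      rw [Finset.sum_mul]
      exact Finset.sum_congr rfl fun i _ => by ring
    simp_rw [e, Finset.mul_sum]
    rw [Finset.sum_comm]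
  have h2 := Finset.sum_mul_sq_le_sq_mul_sq (range n) x (fun i => ∑ t, B i t * y t)
  have h3 := h y
  have hY : 0 ≤ ∑ t, y t ^ 2 := Finset.sum_nonneg fun t _ => sq_nonneg _
  have hX : 0 ≤ ∑ i ∈ range n, x i ^ 2 := Finset.sum_nonneg fun i _ => sq_nonneg _
  have h4 : (∑ t, y t ^ 2) ^ 2 ≤ (∑ i ∈ range n, x i ^ 2) * (b * ∑ t, y t ^ 2) := by
    calc (∑ t, y t ^ 2) ^ 2 = (∑ i ∈ range n, x i * ∑ t, B i t * y t) ^ 2 := by rw [← h1]
      _ ≤ _ := h2
      _ ≤ _ := mul_le_mul_of_nonneg_left h3 hX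
  rcases hY.eq_or_lt with h5 | h5
  · rw [← h5]
    exact mul_nonneg hb hX
  · have h6 : (∑ t, y t ^ 2) * (∑ t, y t ^ 2) ≤ (b * ∑ i ∈ range n, x i ^ 2) * ∑ t, y t ^ 2 := by
      calc (∑ t, y t ^ 2) * (∑ t, y t ^ 2) = (∑ t, y t ^ 2) ^ 2 := by ring
        _ ≤ _ := h4
        _ = _ := by ring
    exact le_of_mul_le_mul_right h6 h5

/-! ### averages over classes -/

variable {m L : ℕ}

theorem EE_min (p : Fin (m + 1) → ℕ) (φ : Pt m L → ℝ) (ω : Pt m L) :
    EE p φ ω = EE (fun b => min (p b) L) φ ω := by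
  have h1 := (eeb_36 m L).comp p (fun _ => L) φ ω
  have h2 : EE (fun _ => L) φ = φ := by
    funext ω'
    refine (eeb_36 m L).idem _ _ ?_ ω'
    intro ω₁ ω₂ h
    congr 1
    funext b
    exact pre_top33 le_rfl (h b)
  rw [h2] at h1
  exact h1

theorem EE_one_comp (p : Fin (m + 1) → ℕ) (a : Fin (m + 1)) (t : ℕ) (hpt : p a ≤ t) (htL : t < L)
    (φ : Pt m L → ℝ) (ω : Pt m L) : EE p (EE (one L a t) φ) ω = EE p φ ω := by
  rw [(eeb_36 m L).comp, EE_min p φ ω]
  congr 1
  funext b
  unfold one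
  by_cases hb : b = a
  · subst hb
    rw [Function.update_self, min_eq_left hpt, min_eq_left (by omega)]
  · rw [Function.update_of_ne hb]

theorem al_ms74 (ρ : Pt m L → ℝ) (a : Fin (m + 1)) (t : ℕ) : Ms (one L a t) (al ρ a t) := by
  intro ω ω' h
  unfold al
  rw [(eeb_36 m L).ms _ _ ω ω' h, (eeb_36 m L).ms _ _ ω ω' h]

theorem EE_al (p : Fin (m + 1) → ℕ) (a : Fin (m + 1)) (t : ℕ) (hpt : p a ≤ t) (htL : t < L)
    {ρ Z : Pt m L → ℝ} (hρ : ∀ ω, 0 ≤ ρ ω) (hZ : Ms (one L a t) Z) (ω : Pt m L) :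
    EE p (fun ω => ρ ω * (sb a t ω * Z ω)) ω = EE p (fun ω => ρ ω * (al ρ a t ω * Z ω)) ω := by
  rw [← EE_one_comp p a t hpt htL, ← EE_one_comp p a t hpt htL (fun ω => ρ ω * (al ρ a t ω * Z ω))]
  congr 1
  funext ω'
  have e1 : EE (one L a t) (fun ω => ρ ω * (sb a t ω * Z ω)) ω' =
      Z ω' * EE (one L a t) (fun ω => ρ ω * sb a t ω) ω' := by
    rw [← (eeb_36 m L).pull (one L a t) Z _ hZ]
    congr 1
    funext ω₁
    ring
  have e2 : EE (one L a t) (fun ω => ρ ω * (al ρ a t ω * Z ω)) ω' =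
      (al ρ a t ω' * Z ω') * EE (one L a t) ρ ω' := by
    rw [← (eeb_36 m L).pull (one L a t) (fun ω => al ρ a t ω * Z ω) _
      (fun ω₁ ω₂ h => by
        beta_reduce
        rw [al_ms74 ρ a t ω₁ ω₂ h, hZ ω₁ ω₂ h])]
    congr 1
    funext ω₁
    ring
  rw [e1, e2]
  by_cases h0 : EE (one L a t) ρ ω' = 0
  · have h1 : |EE (one L a t) (fun ω => ρ ω * sb a t ω) ω'| ≤ EE (one L a t) ρ ω' := by
      refine ((eeb_36 m L).abs _ _ _).trans ((eeb_36 m L).mono _ _ _ (fun ω₁ => ?_) _)
      rw [abs_mul, abs_of_nonneg (hρ ω₁)]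
      have h2 : |sb a t ω₁| ≤ 1 := by
        unfold sb sgr
        split_ifs <;> simp
      calc ρ ω₁ * |sb a t ω₁| ≤ ρ ω₁ * 1 := mul_le_mul_of_nonneg_left h2 (hρ ω₁)
        _ = ρ ω₁ := mul_one _
    rw [h0] at h1
    rw [abs_nonpos_iff.1 h1, h0, mul_zero, mul_zero]
  · unfold al
    field_simp

theorem XX_Bm {v : (Fin (m + 1) → ℕ) → Pt m L → ℝ} {a : Fin (m + 1)} (ha : a ≠ 0) (i : ℕ)
    (ω : Pt m L) : XX v i ω = ∑ t ∈ range L, sb a t ω * Bm a v i t ω := by
  rw [V74.XX_eq ha]
  refine Finset.sum_congr rfl fun t _ => ?_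
  congr 1
  unfold Fs Bm
  rw [Bess46.fr_congr (L := L) (U := (Inn m).erase a)
    (q := Function.update (Function.update (fun _ => 0) 0 i) a t)
    (q' := Function.update (fun _ => i) a t)]
  intro b hb
  by_cases hba : b = a
  · subst hba
    rw [Function.update_self, Function.update_self]
  · have hb0 : b = 0 := by
      by_contra h
      exact hb (mem_erase.2 ⟨hba, by simp [Inn, h]⟩)
    subst hb0
    rw [Function.update_of_ne hba, Function.update_of_ne hba, Function.update_self]

theorem Bm_ms {N : ℕ} {v : (Fin (m + 1) → ℕ) → Pt m L → ℝ} (hv : ArK N v) (a : Fin (m + 1))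
    (i t : ℕ) : Ms (one L a t) (Bm a v i t) := by
  intro ω ω' h
  unfold Bm
  refine Finset.sum_congr rfl fun r hr => ?_
  have h3 : r a = t := by
    have := (Bess46.mem_fr.1 hr).2 a (notMem_erase a _)
    rwa [Function.update_self] at this
  have h4 : v r ω' = v r ω := by
    have := V74.ark_dep hv r a ω ω'
    rw [h3] at this
    exact this h
  have h5 : ps ((Inn m).erase a) r ω' = ps ((Inn m).erase a) r ω := by
    unfold ps
    refine Finset.prod_congr rfl fun b hb => ?_
    unfold sb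
    rw [eq_of_cl h (fun hab => by subst hab; exact notMem_erase _ _ hb)]
  rw [h4, h5]

theorem Bm_zero {v : (Fin (m + 1) → ℕ) → Pt m L → ℝ} {a : Fin (m + 1)} {t0 : ℕ}
    (hz : ∀ q ω, q a < t0 → v q ω = 0) (i : ℕ) {t : ℕ} (ht : t < t0) (ω : Pt m L) :
    Bm a v i t ω = 0 := by
  unfold Bm
  refine Finset.sum_eq_zero fun r hr => ?_
  have h3 : r a = t := by
    have := (Bess46.mem_fr.1 hr).2 a (notMem_erase a _)
    rwa [Function.update_self] at this
  rw [hz r ω (by rw [h3]; exact ht), mul_zero]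

theorem EE_sum74 {ι : Type} (p : Fin (m + 1) → ℕ) (s : Finset ι) (φ : ι → Pt m L → ℝ)
    (ω : Pt m L) : EE p (fun ω' => ∑ i ∈ s, φ i ω') ω = ∑ i ∈ s, EE p (φ i) ω := by
  unfold EE
  rw [← Finset.sum_div]
  congr 1
  rw [Finset.sum_comm]
  refine Finset.sum_congr rfl fun ω' _ => ?_
  split_ifs
  · rfl
  · simp

/-- Cauchy-Schwarz for `EE` -/
theorem EE_cs (p : Fin (m + 1) → ℕ) {ρ w F G : Pt m L → ℝ} (hρ : ∀ ω, 0 ≤ ρ ω)
    (hF : ∀ ω, ρ ω ≠ 0 → 0 ≤ F ω) (hG : ∀ ω, ρ ω ≠ 0 → 0 ≤ G ω)
    (hw : ∀ ω, ρ ω ≠ 0 → w ω ^ 2 ≤ F ω * G ω) (ω0 : Pt m L) :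
    EE p (fun ω => ρ ω * w ω) ω0 ^ 2 ≤
      EE p (fun ω => ρ ω * F ω) ω0 * EE p (fun ω => ρ ω * G ω) ω0 := by
  classical
  have e : ∀ φ : Pt m L → ℝ, EE p (fun ω => ρ ω * φ ω) ω0 =
      ∑ ω : Pt m L, ((if cl p ω ω0 then ρ ω else 0) / 2 ^ (∑ a, (L - p a))) * φ ω := by
    intro φ
    unfold EE
    rw [Finset.sum_div]
    refine Finset.sum_congr rfl fun ω _ => ?_
    split_ifs
    · ring
    · ring
  rw [e, e, e]
  have hc : ∀ ω : Pt m L, (if cl p ω ω0 then ρ ω else 0) / 2 ^ (∑ a, (L - p a)) ≠ (0 : ℝ) →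
      ρ ω ≠ 0 := by
    intro ω h h0
    apply h
    rw [h0, ite_self, zero_div]
  refine wcs univ _ w F G (fun ω _ => ?_) (fun ω _ h => hF ω (hc ω h))
    (fun ω _ h => hG ω (hc ω h)) (fun ω _ h => hw ω (hc ω h))
  refine div_nonneg ?_ (by positivity)
  split_ifs
  · exact hρ ω
  · exact le_rfl

/-- the number of open gates -/
noncomputable def tau (L : ℕ) (g : ℕ → Pt m L → ℝ) (ω : Pt m L) : ℕ :=
  ((range L).filter (fun j => g j ω = 1)).card

open Classical in
theorem tau_iff {g : ℕ → Pt m L → ℝ} (hg : Gate g) {j : ℕ} (hj : j < L) (ω : Pt m L) :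
    g j ω = 1 ↔ j < tau L g ω := by
  constructor
  · intro h
    have h1 : range (j + 1) ⊆ (range L).filter (fun j => g j ω = 1) := by
      intro i hi
      rw [mem_range] at hi
      exact mem_filter.2 ⟨mem_range.2 (by omega), hg.anti i j ω (by omega) h⟩
    have h2 := card_le_card h1
    rw [card_range] at h2
    unfold tau
    refine lt_of_lt_of_eq (Nat.lt_of_succ_le h2) ?_
    congr
  · intro h
    by_contra hne
    have h1 : (range L).filter (fun j => g j ω = 1) ⊆ range j := by
      intro i hi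
      rw [mem_filter] at hi
      rw [mem_range]
      by_contra hij
      exact hne (hg.anti j i ω (by omega) hi.2)
    have h2 := card_le_card h1
    rw [card_range] at h2
    unfold tau at h
    have h3 : ((range L).filter (fun j => g j ω = 1)).card < j + 1 := by omega
    have h4 : j < ((range L).filter (fun j => g j ω = 1)).card := by convert h using 2
    omega

theorem tau_le (g : ℕ → Pt m L → ℝ) (ω : Pt m L) : tau L g ω ≤ L := by
  unfold tau
  refine (card_filter_le _ _).trans ?_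
  rw [card_range]

end G74

open G74 in
open Classical in
theorem visg_74 (hE : StEntC) : StVisG := by
  intro m L N t0 k b a p v ρ g X ω0 ha hb hρ0 hρk hf hpt hv hg hvz hX hnb
  set f : ℝ := EE p ρ ω0 with hfdef
  -- slices
  set ρn : ℕ → Pt m L → ℝ := fun n ω => if tau L g ω = n then ρ ω else 0 with hρn
  have hρn0 : ∀ n ω, 0 ≤ ρn n ω := by
    intro n ω
    rw [hρn]
    dsimp only
    split_ifs
    · exact hρ0 ω
    · exact le_rfl
  have hρnk : ∀ n ω, ρn n ω ≤ Real.exp k := by
    intro n ω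
    rw [hρn]
    dsimp only
    split_ifs
    · exact hρk ω
    · exact (Real.exp_pos k).le
  have hρnt : ∀ n ω, ρn n ω ≠ 0 → tau L g ω = n := by
    intro n ω h
    by_contra h1
    apply h
    rw [hρn]
    dsimp only
    rw [if_neg h1]
  have hsum : ∀ ω, ∑ n ∈ range (L + 1), ρn n ω = ρ ω := by
    intro ω
    rw [hρn]
    dsimp only
    rw [Finset.sum_ite_eq, if_pos]
    rw [mem_range]
    have := tau_le g ω
    omega
  have hsumE : ∀ φ : Pt m L → ℝ, ∑ n ∈ range (L + 1), EE p (fun ω => ρn n ω * φ ω) ω0 =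
      EE p (fun ω => ρ ω * φ ω) ω0 := by
    intro φ
    rw [← EE_sum74]
    congr 1
    funext ω
    rw [← Finset.sum_mul, hsum]
  set fn : ℕ → ℝ := fun n => EE p (ρn n) ω0 with hfn
  have hfn0 : ∀ n, 0 ≤ fn n := by
    intro n
    have h1 := (eeb_36 m L).mono p (fun _ => 0) (ρn n) (hρn0 n) ω0
    rwa [(eeb_36 m L).const] at h1
  have hfns : ∑ n ∈ range (L + 1), fn n = f := by
    rw [hfn]
    dsimp only
    rw [← EE_sum74 p (range (L + 1)) ρn ω0, hfdef]
    congr 1
    funext ω
    exact hsum ω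
  -- the slices of the left hand side
  set A : ℕ → ℝ := fun n => EE p (fun ω => ρn n ω *
    ∑ j ∈ range L, g j ω * XX v j ω * X j ω) ω0 with hA
  have hLHS : ∑ j ∈ range L, EE p (fun ω => ρ ω * (g j ω * XX v j ω * X j ω)) ω0 =
      ∑ n ∈ range (L + 1), 1 * A n := by
    simp only [one_mul]
    rw [hA]
    dsimp only
    rw [hsumE (fun ω => ∑ j ∈ range L, g j ω * XX v j ω * X j ω), ← EE_sum74]
    congr 1
    funext ω
    rw [Finset.mul_sum]
  -- the bias form
  have hbias : ∀ n, A n = EE p (fun ω => ρn n ω * ∑ t ∈ Finset.Ico t0 L,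
      al (ρn n) a t ω * ∑ j ∈ range (min n L), Bm a v j t ω * X j ω) ω0 := by
    intro n
    have h1 : A n = EE p (fun ω => ∑ t ∈ Finset.Ico t0 L, ρn n ω * (sb a t ω *
        ∑ j ∈ range (min n L), Bm a v j t ω * X j ω)) ω0 := by
      rw [hA]
      dsimp only
      congr 1
      funext ω
      by_cases hz : ρn n ω = 0
      · rw [hz]
        simp
      · have ht := hρnt n ω hz
        rw [← Finset.mul_sum]
        congr 1
        have h2 : ∑ j ∈ range L, g j ω * XX v j ω * X j ω =
            ∑ j ∈ range (min n L), XX v j ω * X j ω := by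
          have hsub : range (min n L) ⊆ range L := by
            intro j hj
            rw [mem_range] at hj ⊢
            omega
          rw [← Finset.sum_subset hsub]
          · refine Finset.sum_congr rfl fun j hj => ?_
            rw [mem_range] at hj
            have h3 := (tau_iff hg (j := j) (by omega) ω).2 (by omega)
            rw [h3, one_mul]
          · intro j hj hj2
            rw [mem_range] at hj hj2
            rcases hg.zo j ω with h3 | h3
            · rw [h3, zero_mul, zero_mul]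
            · exfalso
              have := (tau_iff hg hj ω).1 h3
              omega
        rw [h2]
        have h4 : ∀ j, XX v j ω * X j ω = ∑ t ∈ Finset.Ico t0 L,
            sb a t ω * (Bm a v j t ω * X j ω) := by
          intro j
          rw [XX_Bm ha j ω, Finset.sum_mul]
          have hsub : Finset.Ico t0 L ⊆ range L := by
            intro t ht
            rw [Finset.mem_Ico] at ht
            exact mem_range.2 ht.2
          rw [← Finset.sum_subset hsub]
          · exact Finset.sum_congr rfl fun t _ => by ring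
          · intro t ht ht2
            rw [mem_range] at ht
            rw [Finset.mem_Ico] at ht2
            rw [Bm_zero hvz j (by omega) ω]
            ring
        rw [Finset.sum_congr rfl fun j _ => h4 j, Finset.sum_comm]
        refine Finset.sum_congr rfl fun t _ => ?_
        rw [← Finset.mul_sum]
    rw [h1, EE_sum74]
    have h5 : ∀ t ∈ Finset.Ico t0 L, EE p (fun ω => ρn n ω * (sb a t ω *
        ∑ j ∈ range (min n L), Bm a v j t ω * X j ω)) ω0 =
        EE p (fun ω => ρn n ω * (al (ρn n) a t ω *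
        ∑ j ∈ range (min n L), Bm a v j t ω * X j ω)) ω0 := by
      intro t ht
      rw [Finset.mem_Ico] at ht
      refine EE_al p a t (by omega) ht.2 (hρn0 n) ?_ ω0
      intro ω ω' h
      refine Finset.sum_congr rfl fun j _ => ?_
      rw [Bm_ms hv a j t ω ω' h, hX j t ht.1 ω ω' h]
    rw [Finset.sum_congr rfl h5, ← EE_sum74]
    congr 1
    funext ω
    rw [Finset.mul_sum]
  -- Cauchy-Schwarz on each slice
  set an : ℕ → ℝ := fun n => 4 * (fn n * (k - Real.log (fn n))) with han
  set bn : ℕ → ℝ := fun n => b * EE p (fun ω => ρn n ω * ∑ j ∈ range L, g j ω * X j ω ^ 2) ω0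
    with hbn
  have hlog : ∀ n, 0 ≤ fn n * (k - Real.log (fn n)) := by
    intro n
    rcases (hfn0 n).eq_or_lt with h | h
    · rw [← h, zero_mul]
    · refine mul_nonneg h.le ?_
      have h1 : fn n ≤ Real.exp k := by
        have h2 := (eeb_36 m L).mono p (ρn n) (fun _ => Real.exp k) (hρnk n) ω0
        rwa [(eeb_36 m L).const] at h2
      have h2 := Real.log_le_log h h1
      rw [Real.log_exp] at h2
      linarith
  have hslice : ∀ n, A n ^ 2 ≤ an n * bn n := by
    intro n
    have h1 : A n ^ 2 ≤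
        EE p (fun ω => ρn n ω * ∑ t ∈ Finset.Ico (p a) L, al (ρn n) a t ω ^ 2) ω0 *
        EE p (fun ω => ρn n ω * (b * ∑ j ∈ range L, g j ω * X j ω ^ 2)) ω0 := by
      rw [hbias n]
      refine EE_cs p (hρn0 n) (fun ω _ => Finset.sum_nonneg fun t _ => sq_nonneg _) ?_ ?_ ω0
      · intro ω _
        refine mul_nonneg hb (Finset.sum_nonneg fun j _ => ?_)
        rcases hg.zo j ω with h3 | h3
        · rw [h3, zero_mul]
        · rw [h3, one_mul]
          exact sq_nonneg _
      · intro ω hz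
        have ht := hρnt n ω hz
        have hnL : n ≤ L := ht ▸ tau_le g ω
        rw [min_eq_left hnL]
        have h2 := Finset.sum_mul_sq_le_sq_mul_sq (Finset.Ico t0 L)
          (fun t => al (ρn n) a t ω) (fun t => ∑ j ∈ range n, Bm a v j t ω * X j ω)
        refine h2.trans ?_
        have h3 : ∑ t ∈ Finset.Ico t0 L, al (ρn n) a t ω ^ 2 ≤
            ∑ t ∈ Finset.Ico (p a) L, al (ρn n) a t ω ^ 2 :=
          Finset.sum_le_sum_of_subset_of_nonneg
            (Finset.Ico_subset_Ico_left hpt) fun t _ _ => sq_nonneg _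
        have h4 : ∑ t ∈ Finset.Ico t0 L, (∑ j ∈ range n, Bm a v j t ω * X j ω) ^ 2 ≤
            b * ∑ j ∈ range L, g j ω * X j ω ^ 2 := by
          have hXs : ∑ j ∈ range n, X j ω ^ 2 ≤ ∑ j ∈ range L, g j ω * X j ω ^ 2 := by
            have e : ∑ j ∈ range n, X j ω ^ 2 = ∑ j ∈ range n, g j ω * X j ω ^ 2 := by
              refine Finset.sum_congr rfl fun j hj => ?_
              rw [mem_range] at hj
              rw [(tau_iff hg (j := j) (by omega) ω).2 (by omega), one_mul]
            rw [e]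
            refine Finset.sum_le_sum_of_subset_of_nonneg
              (fun j hj => mem_range.2 (by rw [mem_range] at hj; omega)) fun j _ _ => ?_
            rcases hg.zo j ω with h3 | h3
            · rw [h3, zero_mul]
            · rw [h3, one_mul]
              exact sq_nonneg _
          rcases Nat.eq_zero_or_pos n with hn | hn
          · subst hn
            have e : ∑ t ∈ Finset.Ico t0 L, (∑ j ∈ range 0, Bm a v j t ω * X j ω) ^ 2 = 0 := by
              simp
            rw [e]
            refine mul_nonneg hb (le_trans ?_ hXs)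
            simp
          · have hgo : g (n - 1) ω = 1 := (tau_iff hg (j := n - 1) (by omega) ω).2 (by omega)
            have h5 := hnb (n - 1) ω (by omega) hgo
            have e1 : n - 1 + 1 = n := by omega
            rw [e1] at h5
            have h6 := tnb n (fun i (t : Fin L) => Bm a v i t ω) b hb h5 (fun j => X j ω)
            have h7 : ∑ t ∈ Finset.Ico t0 L, (∑ j ∈ range n, Bm a v j t ω * X j ω) ^ 2 ≤
                ∑ t : Fin L, (∑ j ∈ range n, Bm a v j t ω * X j ω) ^ 2 := by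
              rw [← Finset.sum_range (fun t => (∑ j ∈ range n, Bm a v j t ω * X j ω) ^ 2)]
              refine Finset.sum_le_sum_of_subset_of_nonneg ?_ fun t _ _ => sq_nonneg _
              intro t ht
              rw [Finset.mem_Ico] at ht
              exact mem_range.2 ht.2
            exact h7.trans (h6.trans (mul_le_mul_of_nonneg_left hXs hb))
        exact mul_le_mul h3 h4 (Finset.sum_nonneg fun t _ => sq_nonneg _)
          (Finset.sum_nonneg fun t _ => sq_nonneg _)
    have h2 : EE p (fun ω => ρn n ω * ∑ t ∈ Finset.Ico (p a) L, al (ρn n) a t ω ^ 2) ω0 ≤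
        an n := by
      rcases (hfn0 n).eq_or_lt with h | h
      · have h3 : EE p (fun ω => ρn n ω * ∑ t ∈ Finset.Ico (p a) L, al (ρn n) a t ω ^ 2) ω0 ≤
            EE p (fun ω => (L : ℝ) * ρn n ω) ω0 := by
          refine (eeb_36 m L).mono _ _ _ (fun ω => ?_) ω0
          rw [mul_comm]
          refine mul_le_mul_of_nonneg_right ?_ (hρn0 n ω)
          have h4 : ∀ t ∈ Finset.Ico (p a) L, al (ρn n) a t ω ^ 2 ≤ 1 := by
            intro t _
            have h5 : |al (ρn n) a t ω| ≤ 1 := by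
              unfold al
              by_cases h0 : EE (one L a t) (ρn n) ω = 0
              · rw [h0, div_zero, abs_zero]
                exact zero_le_one
              · have h6 : 0 ≤ EE (one L a t) (ρn n) ω := by
                  have h7 := (eeb_36 m L).mono (one L a t) (fun _ => 0) (ρn n) (hρn0 n) ω
                  rwa [(eeb_36 m L).const] at h7
                have h7 : 0 < EE (one L a t) (ρn n) ω := lt_of_le_of_ne h6 (Ne.symm h0)
                rw [abs_div, abs_of_pos h7, div_le_one h7]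
                refine ((eeb_36 m L).abs _ _ _).trans ((eeb_36 m L).mono _ _ _ (fun ω₁ => ?_) _)
                rw [abs_mul, abs_of_nonneg (hρn0 n ω₁)]
                have h8 : |sb a t ω₁| ≤ 1 := by
                  unfold sb sgr
                  split_ifs <;> simp
                calc ρn n ω₁ * |sb a t ω₁| ≤ ρn n ω₁ * 1 :=
                      mul_le_mul_of_nonneg_left h8 (hρn0 n ω₁)
                  _ = ρn n ω₁ := mul_one _
            rw [← sq_abs]
            exact pow_le_one₀ (abs_nonneg _) h5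
          refine (Finset.sum_le_sum h4).trans ?_
          rw [Finset.sum_const, Nat.card_Ico, nsmul_eq_mul, mul_one]
          exact_mod_cast Nat.sub_le _ _
        have h5 : EE p (fun ω => (L : ℝ) * ρn n ω) ω0 = (L : ℝ) * fn n :=
          (eeb_36 m L).smul p _ _ _
        rw [h5, ← h, mul_zero] at h3
        refine h3.trans ?_
        rw [han]
        exact mul_nonneg (by norm_num) (hlog n)
      · exact hE m L k (ρn n) a p ω0 (hρn0 n) (hρnk n) h
    have h3 : EE p (fun ω => ρn n ω * (b * ∑ j ∈ range L, g j ω * X j ω ^ 2)) ω0 = bn n := by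
      rw [hbn]
      dsimp only
      rw [← (eeb_36 m L).smul]
      congr 1
      funext ω
      ring
    rw [h3] at h1
    refine h1.trans (mul_le_mul_of_nonneg_right h2 ?_)
    rw [← h3]
    have h4 := (eeb_36 m L).mono p (fun _ => 0)
      (fun ω => ρn n ω * (b * ∑ j ∈ range L, g j ω * X j ω ^ 2)) (fun ω => by
        refine mul_nonneg (hρn0 n ω) (mul_nonneg hb (Finset.sum_nonneg fun j _ => ?_))
        rcases hg.zo j ω with h3 | h3
        · rw [h3, zero_mul]
        · rw [h3, one_mul]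
          exact sq_nonneg _) ω0
    rwa [(eeb_36 m L).const] at h4
  -- the sum over the slices
  have hbn0 : ∀ n, 0 ≤ bn n := by
    intro n
    rw [hbn]
    refine mul_nonneg hb ?_
    have h4 := (eeb_36 m L).mono p (fun _ => 0)
      (fun ω => ρn n ω * ∑ j ∈ range L, g j ω * X j ω ^ 2) (fun ω => by
        refine mul_nonneg (hρn0 n ω) (Finset.sum_nonneg fun j _ => ?_)
        rcases hg.zo j ω with h3 | h3
        · rw [h3, zero_mul]
        · rw [h3, one_mul]
          exact sq_nonneg _) ω0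
    rwa [(eeb_36 m L).const] at h4
  have han0 : ∀ n, 0 ≤ an n := fun n => mul_nonneg (by norm_num) (hlog n)
  have hfin := wcs (range (L + 1)) (fun _ => 1) A an bn (fun _ _ => zero_le_one)
    (fun n _ _ => han0 n) (fun n _ _ => hbn0 n) (fun n _ _ => hslice n)
  rw [hLHS]
  refine hfin.trans ?_
  simp only [one_mul]
  have hsb : ∑ n ∈ range (L + 1), bn n =
      b * EE p (fun ω => ρ ω * ∑ j ∈ range L, g j ω * X j ω ^ 2) ω0 := by
    rw [hbn]
    dsimp only
    rw [← Finset.mul_sum, hsumE]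
  have hsa : ∑ n ∈ range (L + 1), an n ≤ 4 * (f * (k + Real.log (L + 1) - Real.log f)) := by
    rw [han]
    dsimp only
    rw [← Finset.mul_sum]
    refine mul_le_mul_of_nonneg_left ?_ (by norm_num)
    have h1 := entp (L + 1) (by omega) fn f (fun n _ => hfn0 n) hfns hf
    have h2 : ∑ n ∈ range (L + 1), fn n * (k - Real.log (fn n)) =
        f * k + ∑ n ∈ range (L + 1), -(fn n * Real.log (fn n)) := by
      rw [← hfns, Finset.sum_mul, ← Finset.sum_add_distrib]
      exact Finset.sum_congr rfl fun n _ => by ring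
    rw [h2]
    push_cast at h1
    linarith
  have hBnn : 0 ≤ ∑ n ∈ range (L + 1), bn n := Finset.sum_nonneg fun n _ => hbn0 n
  calc (∑ n ∈ range (L + 1), an n) * ∑ n ∈ range (L + 1), bn n
      ≤ 4 * (f * (k + Real.log (L + 1) - Real.log f)) * ∑ n ∈ range (L + 1), bn n :=
        mul_le_mul_of_nonneg_right hsa hBnn
    _ = _ := by
        rw [hsb]
        ring

end Pool.Agent.SHD
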