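import Pool.Agent.Lib.MP_a7b2aa_an.SHD.AllE65
import Pool.Agent.Lib.MP_a7b2aa_an.SHD.Taily23
import Pool.Agent.Lib.MP_a7b2aa_an.SHD.RemG30
import Pool.Agent.Lib.MP_a7b2aa_an.SHD.VisG74
import Pool.Agent.Lib.MP_a7b2aa_an.SHD.MomE21
import Pool.Agent.Lib.MP_a7b2aa_an.SHD.Unif65
import Pool.Agent.Lib.MP_a7b2aa_an.SHD.Pars30
import Pool.Agent.Lib.MP_a7b2aa_an.SHD.BandL32

/-!
SHD4 (helper65): the theorem on the torus, every dimension `m + 1 ≥ 3`, exponent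
`m / 2 - 1 / 4 + ε`.
-/

set_option autoImplicit false

namespace Pool.Agent.SHD

open Pool.Agent.SBD

theorem taily_all65 : StTaily :=
  taily_23 (remg_30 (visg_74 entc_74) (cmng_65 eeb_36)) mome_21 (cmng_65 eeb_36)

theorem unif_all65 : StUnif :=
  unif_65 taily_all65 (cmng_65 eeb_36) (deng_65 eeb_36) eeb_36 (tiltk_65 eeb_36) sc_74
    (alx_30 eeb_36)

theorem bandl_all65 : StBandL :=
  bandl_32 tame_all65 unif_all65 cross_all65 (pars_30 eeb_36) (tiltk_65 eeb_36)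

/-- the theorem on the torus -/
theorem finl_all65 (m : ℕ) (ε : ℝ) (hm : 2 ≤ m) (hε : 0 < ε) :
    StFinL m ((m : ℝ) / 2 - 1 / 4 + ε) := finl_of65 bandl_all65 m ε hm hε

end Pool.Agent.SHD
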