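import Pool.Agent.Lib.MP_a7b2aa_an.SHD.Crud70

/-!
SHD3, helper23: the module BASE (no summed string: counting in the band and Schur's test).
-/

set_option autoImplicit false

namespace Pool.Agent.SHD

open Finset Pool.Agent.SB3 Pool.Agent.SBT Pool.Agent.SBD

theorem base_23 : StBase := by
  intro m L N R v a c q lo hi ω hv hac
  have hR : (0 : ℝ) ≤ 2 * (R : ℝ) + 1 := by positivity
  have hb : bl (∅ : Finset (Fin (m + 1))) lo hi = 1 := by simp [bl]
  have key : ∀ p : Fin (m + 1) → ℕ, ∀ c' : Fin (m + 1),
      ∑ y : Fin L, |cut lo hi v (Function.update p c' y) ω| ≤ 2 * (R : ℝ) + 1 := by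
    intro p c'
    have h := cntp70 hv ∅ c' (by simp) p lo hi ω
    rw [sum_fr_insert (by simp), Finset.sum_range, hb, mul_one] at h
    simpa [fr_empty] using h
  refine schur70 _ (fun (x y : Fin L) =>
    |cut lo hi v (Function.update (Function.update q a (x : ℕ)) c (y : ℕ)) ω|) _ hR ?_ ?_ ?_
  · intro x y
    show |∑ r ∈ fr L ∅ (Function.update (Function.update q a x) c y), ps ∅ r ω * cut lo hi v r ω| ≤ _
    rw [fr_empty, sum_singleton, abs_mul, ps_abs, one_mul]
  · intro x
    exact key (Function.update q a x) c
  · intro y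
    have h := key (Function.update q c y) a
    refine le_trans (le_of_eq ?_) h
    refine sum_congr rfl fun x _ => ?_
    rw [Function.update_comm hac]

end Pool.Agent.SHD
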