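import Pool.Agent.Lib.MP_a7b2aa_an.SHD.TopM32
import Pool.Agent.Lib.MP_a7b2aa_an.SHD.StageA23

/-!
SHD3, helper23: the module BEXT (the full matrices with rows below `j`, from the open gate).
-/

set_option autoImplicit false

namespace Pool.Agent.SHD

open Finset Pool.Agent.SB3 Pool.Agent.SBT Pool.Agent.SBD

namespace B23

section bext

variable {m L : ℕ} {v : (Fin (m + 1) → ℕ) → Pt m L → ℝ}

/-- the row `j - 1` of the string `0` is split off -/
theorem cut_split {j : ℕ} (hj : 1 ≤ j) (lo hi : Fin (m + 1) → ℕ) (hhi : hi 0 ≤ j)
    (r : Fin (m + 1) → ℕ) (ω : Pt m L) :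
    cut lo hi v r ω = cut lo (Function.update hi 0 (min (hi 0) (j - 1))) v r ω +
      if r 0 = j - 1 then cut lo hi v r ω else 0 := by
  by_cases h1 : r 0 = j - 1
  · rw [if_pos h1]
    have h2 : cut lo (Function.update hi 0 (min (hi 0) (j - 1))) v r ω = 0 := by
      unfold cut
      rw [if_neg]
      intro h
      have h3 := (h 0).2
      rw [Function.update_self] at h3
      omega
    rw [h2, zero_add]
  · rw [if_neg h1, add_zero]
    unfold cut
    by_cases h2 : ∀ a, lo a ≤ r a ∧ r a < hi a
    · rw [if_pos h2, if_pos]
      intro a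
      refine ⟨(h2 a).1, ?_⟩
      by_cases ha : a = 0
      · subst ha
        rw [Function.update_self]
        have := (h2 0).2
        omega
      · rw [Function.update_of_ne ha]
        exact (h2 a).2
    · rw [if_neg h2, if_neg]
      intro h
      apply h2
      intro a
      refine ⟨(h a).1, ?_⟩
      by_cases ha : a = 0
      · subst ha
        have h3 := (h 0).2
        rw [Function.update_self] at h3
        omega
      · have h3 := (h a).2
        rwa [Function.update_of_ne ha] at h3

theorem Mg_split0 {j : ℕ} (hj : 1 ≤ j) (hjL : j ≤ L) {V : Finset (Fin (m + 1))} (h0 : 0 ∉ V)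
    {a c : Fin (m + 1)} (ha : a ≠ 0) (hc : c ≠ 0) (q lo hi : Fin (m + 1) → ℕ) (hhi : hi 0 ≤ j)
    (ω : Pt m L) :
    Mg (insert 0 V) a c q (cut lo hi v) ω =
      Mg (insert 0 V) a c q (cut lo (Function.update hi 0 (min (hi 0) (j - 1))) v) ω +
        sb 0 (j - 1) ω • Mg V a c (Function.update q 0 (j - 1)) (cut lo hi v) ω := by
  ext x y
  rw [Matrix.add_apply, Matrix.smul_apply, smul_eq_mul]
  unfold Mg
  simp only [Matrix.of_apply]
  set X := Function.update (Function.update q a (x : ℕ)) c (y : ℕ) with hX
  have e1 : Function.update (Function.update (Function.update q 0 (j - 1)) a (x : ℕ)) c (y : ℕ) =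
      Function.update X 0 (j - 1) := by
    rw [hX, Function.update_comm ha.symm, Function.update_comm hc.symm]
  rw [e1]
  have e2 : ∀ r : Fin (m + 1) → ℕ, ps (insert 0 V) r ω * cut lo hi v r ω =
      ps (insert 0 V) r ω * cut lo (Function.update hi 0 (min (hi 0) (j - 1))) v r ω +
      if r 0 = j - 1 then ps (insert 0 V) r ω * cut lo hi v r ω else 0 := by
    intro r
    have := cut_split (v := v) hj lo hi hhi r ω
    by_cases h1 : r 0 = j - 1
    · rw [if_pos h1] at this ⊢
      rw [this]
      have h2 : cut lo (Function.update hi 0 (min (hi 0) (j - 1))) v r ω = 0 := by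
        linarith
      rw [h2]
      ring
    · rw [if_neg h1] at this ⊢
      rw [this]
      ring
  rw [sum_congr rfl fun r _ => e2 r, sum_add_distrib]
  congr 1
  rw [sum_fr_insert h0]
  have e3 : ∀ t ∈ range L, ∑ r ∈ fr L V (Function.update X 0 t),
      (if r 0 = j - 1 then ps (insert 0 V) r ω * cut lo hi v r ω else 0) =
      if t = j - 1 then sb 0 (j - 1) ω *
        ∑ r ∈ fr L V (Function.update X 0 (j - 1)), ps V r ω * cut lo hi v r ω else 0 := by
    intro t _
    by_cases ht : t = j - 1
    · rw [if_pos ht, ht, mul_sum]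
      refine sum_congr rfl fun r hr => ?_
      have h1 : r 0 = j - 1 := by
        rw [(mem_fr.1 hr).2 0 h0, Function.update_self]
      rw [if_pos h1, ps_insert h0, h1]
      ring
    · rw [if_neg ht]
      refine sum_eq_zero fun r hr => ?_
      have h1 : r 0 = t := by
        rw [(mem_fr.1 hr).2 0 h0, Function.update_self]
      rw [if_neg (by rw [h1]; exact ht)]
  rw [sum_congr rfl e3, sum_ite_eq' (range L) (j - 1)]
  rw [if_pos (mem_range.2 (by omega))]

theorem Mg_cut_zero (U : Finset (Fin (m + 1))) (a c : Fin (m + 1)) (q lo hi : Fin (m + 1) → ℕ)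
    (e : Fin (m + 1)) (he : hi e ≤ lo e) (ω : Pt m L) : Mg U a c q (cut lo hi v) ω = 0 := by
  ext x y
  unfold Mg
  rw [Matrix.of_apply, Matrix.zero_apply]
  refine sum_eq_zero fun r _ => ?_
  unfold cut
  rw [if_neg, mul_zero]
  intro h
  have := h e
  omega

theorem bl_nn (U : Finset (Fin (m + 1))) (lo hi : Fin (m + 1) → ℕ) : 0 ≤ bl U lo hi :=
  prod_nonneg fun _ _ => Nat.cast_nonneg _

end bext

end B23

open B23

theorem bext_23 : StBext := by
  intro m L N R j β B D lam v ω hv hjL hm hβ0 hβm hg b s lo hi hsb hhi
  set U : Finset (Fin (m + 1)) := (univ.erase b).erase s with hU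
  have hcard : U.card = m - 1 := by
    rw [hU, card_erase_of_mem (mem_erase.2 ⟨hsb, mem_univ s⟩), card_erase_of_mem (mem_univ b),
      card_univ, Fintype.card_fin]
    omega
  have hbU : b ∉ U := by simp [hU]
  have hsU : s ∉ U := by simp [hU]
  have hblU : 0 ≤ bl U lo hi := bl_nn U lo hi
  have hβ1 : 0 ≤ β (m - 1) := hβ0 _
  have hnn : 0 ≤ 4 * β (m - 1) * bl U lo hi := by positivity
  have hhiL : ∀ e, hi e ≤ L := by
    intro e
    refine (hhi e).trans ?_
    unfold jb
    by_cases he : e = 0
    · subst he
      rw [Function.update_self]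
      exact hjL
    · rw [Function.update_of_ne he]
  have hhi0 : hi 0 ≤ j := by
    have := hhi 0
    unfold jb at this
    rwa [Function.update_self] at this
  rcases Nat.eq_zero_or_pos j with hj | hj
  · subst hj
    rw [Mg_cut_zero U b s (fun _ => 0) lo hi 0 (by omega) ω]
    exact OP60.NB_zero hnn
  · have hN : Nt β v (j - 1) m ω := (S23.gn_one.1 (hg (j - 1) (by omega))).2.1
    by_cases h0 : (0 : Fin (m + 1)) ∈ U
    · have hV : insert 0 (U.erase 0) = U := insert_erase h0
      have hb0 : b ≠ 0 := fun h => hbU (h ▸ h0)
      have hs0 : s ≠ 0 := fun h => hsU (h ▸ h0)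
      by_cases hlo : hi 0 ≤ lo 0
      · rw [Mg_cut_zero U b s (fun _ => 0) lo hi 0 hlo ω]
        exact OP60.NB_zero hnn
      · have hsp := Mg_split0 (v := v) hj hjL (V := U.erase 0) (notMem_erase 0 U) hb0 hs0
          (fun _ => 0) lo hi hhi0 ω
        rw [hV] at hsp
        rw [hsp]
        have h1 : NB (Mg U b s (fun _ => 0)
            (cut lo (Function.update hi 0 (min (hi 0) (j - 1))) v) ω)
            (β U.card * bl U lo (Function.update hi 0 (min (hi 0) (j - 1)))) := by
          refine hN lo _ U b s (fun _ => 0) ⟨?_, ?_, ?_⟩ (Ne.symm hsb) hbU hsU ?_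
          · intro e
            by_cases he : e = 0
            · subst he
              rw [Function.update_self]
              have := hhiL 0
              omega
            · rw [Function.update_of_ne he]
              exact hhiL e
          · intro _
            rw [Function.update_self]
            omega
          · intro h
            exact absurd h0 h
          · omega
        have h2 : NB (Mg (U.erase 0) b s (Function.update (fun _ => 0) 0 (j - 1))
            (cut lo hi v) ω) (β (U.erase 0).card * bl (U.erase 0) lo hi) := by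
          refine hN lo hi (U.erase 0) b s _ ⟨hhiL, ?_, ?_⟩ (Ne.symm hsb) ?_ ?_ ?_
          · intro h
            exact absurd h (notMem_erase 0 U)
          · intro _
            omega
          · exact fun h => hbU (mem_of_mem_erase h)
          · exact fun h => hsU (mem_of_mem_erase h)
          · have := card_erase_le (s := U) (a := (0 : Fin (m + 1)))
            omega
        have h3 := TopM32.NB_smul h2 (sb 0 (j - 1) ω)
        rw [show sb (0 : Fin (m + 1)) (j - 1) ω ^ 2 = 1 by rw [sq]; exact sb_sq _ _ _, one_mul]
          at h3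
        refine NB_mono33 (OP60.NB_add h1 h3) ?_
        have e1 : bl U lo (Function.update hi 0 (min (hi 0) (j - 1))) ≤ bl U lo hi := by
          unfold bl
          refine prod_le_prod (fun _ _ => Nat.cast_nonneg _) fun e _ => ?_
          by_cases he : e = 0
          · subst he
            rw [Function.update_self]
            exact_mod_cast (by omega : min (hi 0) (j - 1) - lo 0 ≤ hi 0 - lo 0)
          · rw [Function.update_of_ne he]
        have e2 : bl (U.erase 0) lo hi ≤ bl U lo hi := by
          unfold bl
          rw [← Finset.mul_prod_erase U (fun e => ((hi e - lo e : ℕ) : ℝ)) h0]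
          refine le_mul_of_one_le_left (prod_nonneg fun _ _ => Nat.cast_nonneg _) ?_
          exact_mod_cast (by omega : 1 ≤ hi 0 - lo 0)
        have e3 : β (U.erase 0).card ≤ β (m - 1) := by
          rw [← hcard]
          exact hβm card_erase_le
        have e4 : β U.card * bl U lo (Function.update hi 0 (min (hi 0) (j - 1))) ≤
            β (m - 1) * bl U lo hi := by
          rw [hcard]
          exact mul_le_mul_of_nonneg_left e1 hβ1
        have e5 : β (U.erase 0).card * bl (U.erase 0) lo hi ≤ β (m - 1) * bl U lo hi :=
          mul_le_mul e3 e2 (bl_nn _ _ _) hβ1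
        linarith
    · have h1 : NB (Mg U b s (fun _ => 0) (cut lo hi v) ω) (β U.card * bl U lo hi) := by
        refine hN lo hi U b s (fun _ => 0) ⟨hhiL, ?_, ?_⟩ (Ne.symm hsb) hbU hsU ?_
        · intro h
          exact absurd h h0
        · intro _
          omega
        · omega
      refine NB_mono33 h1 ?_
      rw [hcard]
      have : 0 ≤ β (m - 1) * bl U lo hi := mul_nonneg hβ1 hblU
      linarith

end Pool.Agent.SHD
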