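import Pool.Agent.Lib.MP_a7b2aa_an.SHD.ExchA18
import Pool.Agent.Lib.MP_a7b2aa_an.SBD.Bess46
import Pool.Agent.Lib.MP_a7b2aa_an.SBD.Base30

/-!
SHD3, module EXCH (helper18): the exchange lemma.
-/

set_option autoImplicit false

namespace Pool.Agent.SHD.Exch18

open Finset Pool.Agent.SB3 Pool.Agent.SBT Pool.Agent.SBD

/-- logarithms are smaller than powers -/
theorem logs (ε : ℝ) (hε : 0 < ε) : ∃ K : ℝ, 1 ≤ K ∧ ∀ L : ℕ, 1 ≤ L →
    ((Nat.log 2 L : ℝ) + 1) ^ 2 ≤ K * (L : ℝ) ^ ε ∧ Real.log ((L : ℝ) + 1) ≤ K * (L : ℝ) ^ ε := by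
  have hε2 : 0 < ε / 2 := by positivity
  have hi : 0 < 1 / ε := by positivity
  refine ⟨(4 / ε + 1) ^ 2 + (1 + 1 / ε), ?_, fun L hL => ?_⟩
  · nlinarith [sq_nonneg (4 / ε + 1)]
  have hLr : (1 : ℝ) ≤ L := by exact_mod_cast hL
  have hL0 : (0 : ℝ) ≤ L := by linarith
  have hp1 : (1 : ℝ) ≤ (L : ℝ) ^ (ε / 2) := Real.one_le_rpow hLr hε2.le
  have hp2 : (1 : ℝ) ≤ (L : ℝ) ^ ε := Real.one_le_rpow hLr hε.le
  have hsq : ((L : ℝ) ^ (ε / 2)) ^ 2 = (L : ℝ) ^ ε := by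
    rw [← Real.rpow_natCast, ← Real.rpow_mul hL0]
    congr 1
    push_cast
    ring
  constructor
  · have h1 : (Nat.log 2 L : ℝ) ≤ 4 / ε * (L : ℝ) ^ (ε / 2) := by
      have h2 : (Nat.log 2 L : ℝ) ≤ Real.logb 2 L := Real.natLog_le_logb L 2
      have h3 : Real.log L ≤ (L : ℝ) ^ (ε / 2) / (ε / 2) := Real.log_le_rpow_div hL0 hε2
      have h4 : Real.logb 2 L = Real.log L / Real.log 2 := rfl
      have h5 : (1 : ℝ) / 2 ≤ Real.log 2 := by
        have := Real.log_two_gt_d9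
        linarith
      have h6 : 0 ≤ Real.log L := Real.log_nonneg hLr
      have h7 : Real.log L / Real.log 2 ≤ 2 * Real.log L := by
        rw [div_le_iff₀ (by linarith)]
        nlinarith
      have h8 : 2 * ((L : ℝ) ^ (ε / 2) / (ε / 2)) = 4 / ε * (L : ℝ) ^ (ε / 2) := by
        field_simp
        ring
      rw [h4] at h2
      linarith
    have h0 : (0 : ℝ) ≤ (Nat.log 2 L : ℝ) := by positivity
    have h9 : (Nat.log 2 L : ℝ) + 1 ≤ (4 / ε + 1) * (L : ℝ) ^ (ε / 2) := by nlinarith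
    have h10 := pow_le_pow_left₀ (by linarith) h9 2
    rw [mul_pow, hsq] at h10
    refine h10.trans (mul_le_mul_of_nonneg_right ?_ (by linarith))
    linarith
  · have h1 : Real.log ((L : ℝ) + 1) ≤ Real.log (2 * L) :=
      Real.log_le_log (by linarith) (by linarith)
    rw [Real.log_mul (by norm_num) (by linarith)] at h1
    have h2 : Real.log 2 ≤ 1 := by
      have := Real.log_two_lt_d9
      linarith
    have h3 : Real.log L ≤ (L : ℝ) ^ ε / ε := Real.log_le_rpow_div hL0 hε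
    have h4 : (L : ℝ) ^ ε / ε = 1 / ε * (L : ℝ) ^ ε := by ring
    have h5 : 0 ≤ (4 / ε + 1) ^ 2 := sq_nonneg _
    nlinarith

variable {m L : ℕ}

/-- probabilities do not see the points of density zero -/
theorem pr_mono0 {ρ : Pt m L → ℝ} (h : ∀ ω, 0 ≤ ρ ω) {P Q : Pt m L → Prop}
    (hPQ : ∀ ω, ρ ω ≠ 0 → P ω → Q ω) : Pr ρ P ≤ Pr ρ Q := by
  classical
  unfold Pr Ex Av
  refine div_le_div_of_nonneg_right (Finset.sum_le_sum fun ω _ => ?_) (by positivity)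
  by_cases h0 : ρ ω = 0
  · simp [h0]
  · refine mul_le_mul_of_nonneg_left ?_ (h ω)
    by_cases hP : P ω
    · simp [hP, hPQ ω h0 hP]
    · by_cases hQ : Q ω <;> simp [hP, hQ]

section arr

variable {v : (Fin (m + 1) → ℕ) → Pt m L → ℝ}

theorem Fs_dep (hd : ∀ q, Ms q (v q)) {U : Finset (Fin (m + 1))} {c : Fin (m + 1)} (hc : c ∉ U)
    (q : Fin (m + 1) → ℕ) (hq : ∀ r ∈ fr L U q, r c = q c) :
    Ms (one L c (q c)) (Bess46.Fs v U q) := by
  unfold Bess46.Fs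
  refine Ms.sum _ fun r hr => ?_
  refine Ms.comp2 (Ms_ps_one hc r (q c)) ?_ (fun x y => x * y)
  exact (hd r).one c (q c) (hq r hr).le

theorem bm_eq (b : Fin (m + 1)) (i r : ℕ) (ω : Pt m L) :
    Bm b v i r ω = Bess46.Fs v ((Inn m).erase b) (Function.update (fun _ => i) b r) ω := rfl

theorem bm_msb (hd : ∀ q, Ms q (v q)) (b : Fin (m + 1)) (i r : ℕ) :
    Ms (one L b r) (Bm b v i r) := by
  have h := Fs_dep hd (U := (Inn m).erase b) (c := b) (notMem_erase _ _)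
    (Function.update (fun _ => i) b r)
    (fun s hs => (SBD.mem_fr.1 hs).2 b (notMem_erase _ _))
  rw [Function.update_self] at h
  exact h

theorem bm_ms0 (hd : ∀ q, Ms q (v q)) {b : Fin (m + 1)} (hb : b ≠ 0) (i r : ℕ) :
    Ms (one L 0 i) (Bm b v i r) := by
  have h0 : (0 : Fin (m + 1)) ∉ (Inn m).erase b := by simp [Inn]
  have h := Fs_dep hd (U := (Inn m).erase b) (c := 0) h0
    (Function.update (fun _ => i) b r)
    (fun s hs => (SBD.mem_fr.1 hs).2 0 h0)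
  rw [Function.update_of_ne hb.symm] at h
  exact h

theorem xx_split {b : Fin (m + 1)} (hb : b ≠ 0) (i : ℕ) (ω : Pt m L) :
    XX v i ω = ∑ r ∈ range L, sb b r ω * Bm b v i r ω := by
  have hbI : b ∈ Inn m := by simp [Inn, hb]
  have h := Bess46.Fs_split (v := v) (U := (Inn m).erase b) (c := b) (notMem_erase _ _)
    (fun _ => i) ω
  rw [insert_erase hbI] at h
  exact h

end arr

/-! ### the sequences at a point -/

/-- the matrix, as a function of two numbers -/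
noncomputable def cm (b : Fin (m + 1)) (v : (Fin (m + 1) → ℕ) → Pt m L → ℝ) (ω : Pt m L)
    (i r : ℕ) : ℝ := Bm b v i r ω

theorem be_eq (lam : ℝ) (b : Fin (m + 1)) (v : (Fin (m + 1) → ℕ) → Pt m L → ℝ) (j r : ℕ)
    (ω : Pt m L) : be lam b v j r ω =
      dBe j (cm b v ω) (fun i => sb 0 i ω) (fun s => sb b s ω) lam r := rfl

theorem ga_eq {b : Fin (m + 1)} (hb : b ≠ 0) (v : (Fin (m + 1) → ℕ) → Pt m L → ℝ) (i : ℕ)
    (ω : Pt m L) : dGa L (cm b v ω) (fun s => sb b s ω) i = XX v i ω := (xx_split hb i ω).symm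

/-- the `z` of the first event -/
noncomputable def z1 (j : ℕ) (b : Fin (m + 1)) (v : (Fin (m + 1) → ℕ) → Pt m L → ℝ)
    (θ : ℕ → Pt m L → ℝ) (i : ℕ) (ω : Pt m L) : ℝ :=
  if i < j then θ i ω * dH L (cm b v ω) i i else 0

noncomputable def z2 (j : ℕ) (b : Fin (m + 1)) (v : (Fin (m + 1) → ℕ) → Pt m L → ℝ)
    (θ : ℕ → Pt m L → ℝ) (i : ℕ) (ω : Pt m L) : ℝ :=
  if i < j then ∑ i' ∈ range i, dH L (cm b v ω) i i' * (sb 0 i' ω - θ i' ω) else 0

noncomputable def z3 (j : ℕ) (θ : ℕ → Pt m L → ℝ) (i : ℕ) (ω : Pt m L) : ℝ :=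
  if i < j then θ i ω ^ 3 else 0

noncomputable def z4 (j : ℕ) (b : Fin (m + 1)) (v : (Fin (m + 1) → ℕ) → Pt m L → ℝ) (r : ℕ)
    (i : ℕ) (ω : Pt m L) : ℝ :=
  if i < j then Bm b v i r ω else 0

noncomputable def w1 (j : ℕ) (b : Fin (m + 1)) (v : (Fin (m + 1) → ℕ) → Pt m L → ℝ)
    (r : ℕ) (ω : Pt m L) : ℝ := dFr j (cm b v ω) (fun i => sb 0 i ω) r

noncomputable def w2 (j : ℕ) (lam : ℝ) (b : Fin (m + 1)) (v : (Fin (m + 1) → ℕ) → Pt m L → ℝ)
    (r : ℕ) (ω : Pt m L) : ℝ := be lam b v j r ω ^ 3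

noncomputable def w3 (j : ℕ) (lam : ℝ) (b : Fin (m + 1)) (v : (Fin (m + 1) → ℕ) → Pt m L → ℝ)
    (s : ℕ) (r : ℕ) (ω : Pt m L) : ℝ := if r < s then be lam b v j r ω else 0

section ms

variable {v : (Fin (m + 1) → ℕ) → Pt m L → ℝ} {b : Fin (m + 1)} {θ : ℕ → Pt m L → ℝ}

theorem one_mono {β : Type} {c : Fin (m + 1)} {t t' : ℕ} {φ : Pt m L → β}
    (h : Ms (one L c t) φ) (htt : t ≤ t') : Ms (one L c t') φ := by
  refine Ms.mono h fun a => ?_
  by_cases ha : a = c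
  · subst ha
    left
    simpa [one] using htt
  · right
    simp [one, Function.update_of_ne ha]

theorem sb_lt {c : Fin (m + 1)} {t t' : ℕ} (h : t < t') : Ms (one L c t') (sb (L := L) c t) :=
  Ms_sb (by simpa [one] using h)

theorem dH_ms (hd : ∀ q, Ms q (v q)) (hb : b ≠ 0) {i i' n : ℕ} (hi : i ≤ n) (hi' : i' ≤ n) :
    Ms (one L 0 n) (fun ω => dH L (cm b v ω) i i') := by
  unfold dH cm
  refine Ms.sum _ fun r _ => ?_
  exact Ms.comp2 (one_mono (bm_ms0 hd hb i r) hi) (one_mono (bm_ms0 hd hb i' r) hi')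
    (fun x y => x * y)

theorem z1_ms (hd : ∀ q, Ms q (v q)) (hb : b ≠ 0) (hθ : Prd θ) (j i : ℕ) :
    Ms (one L 0 i) (z1 j b v θ i) := by
  unfold z1
  by_cases h : i < j
  · simp only [if_pos h]
    exact Ms.comp2 (hθ.dep i) (dH_ms hd hb le_rfl le_rfl) (fun x y => x * y)
  · simp only [if_neg h]
    exact Ms.cst _ _

theorem z2_ms (hd : ∀ q, Ms q (v q)) (hb : b ≠ 0) (hθ : Prd θ) (j i : ℕ) :
    Ms (one L 0 i) (z2 j b v θ i) := by
  unfold z2
  by_cases h : i < j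
  · simp only [if_pos h]
    refine Ms.sum _ fun i' hi' => ?_
    have hlt := mem_range.1 hi'
    refine Ms.comp2 (dH_ms hd hb le_rfl hlt.le)
      (Ms.comp2 (sb_lt hlt) (one_mono (hθ.dep i') hlt.le) (fun x y => x - y)) (fun x y => x * y)
  · simp only [if_neg h]
    exact Ms.cst _ _

theorem z3_ms (hθ : Prd θ) (j i : ℕ) : Ms (one L 0 i) (z3 j θ i) := by
  unfold z3
  by_cases h : i < j
  · simp only [if_pos h]
    exact Ms.comp (hθ.dep i) (fun x => x ^ 3)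
  · simp only [if_neg h]
    exact Ms.cst _ _

theorem z4_ms (hd : ∀ q, Ms q (v q)) (hb : b ≠ 0) (j r i : ℕ) :
    Ms (one L 0 i) (z4 j b v r i) := by
  unfold z4
  by_cases h : i < j
  · simp only [if_pos h]
    exact bm_ms0 hd hb i r
  · simp only [if_neg h]
    exact Ms.cst _ _

theorem dU_ms (hd : ∀ q, Ms q (v q)) (hb : b ≠ 0) (j : ℕ) {r n : ℕ} (hr : r ≤ n) :
    Ms (one L b n) (fun ω => dU j (cm b v ω) (fun i => sb 0 i ω) r) := by
  unfold dU cm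
  refine Ms.sum _ fun i _ => ?_
  exact Ms.comp2 (Ms_sb_one hb.symm n i) (one_mono (bm_msb hd b i r) hr) (fun x y => x * y)

theorem dG_ms (hd : ∀ q, Ms q (v q)) (j : ℕ) {r s n : ℕ} (hr : r ≤ n) (hs : s ≤ n) :
    Ms (one L b n) (fun ω => dG j (cm b v ω) r s) := by
  unfold dG cm
  refine Ms.sum _ fun i _ => ?_
  exact Ms.comp2 (one_mono (bm_msb hd b i r) hr) (one_mono (bm_msb hd b i s) hs)
    (fun x y => x * y)

theorem w1_ms (hd : ∀ q, Ms q (v q)) (hb : b ≠ 0) (j r : ℕ) :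
    Ms (one L b r) (w1 j b v r) := by
  unfold w1 dFr
  refine Ms.sum _ fun s hs => ?_
  have hsr : s ≤ r := Nat.lt_succ_iff.1 (mem_range.1 hs)
  exact Ms.comp2 (dG_ms hd j le_rfl hsr) (dU_ms hd hb j hsr) (fun x y => x * y)

theorem be_ms (hd : ∀ q, Ms q (v q)) (hb : b ≠ 0) (j : ℕ) (lam : ℝ) (r : ℕ) :
    Ms (one L b r) (be lam b v j r) := by
  have h1 := dU_ms hd hb j (le_refl r)
  have h2 : Ms (one L b r) (fun ω => ∑ s ∈ range r, dG j (cm b v ω) r s * sb b s ω) := by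
    refine Ms.sum _ fun s hs => ?_
    have hsr := mem_range.1 hs
    exact Ms.comp2 (dG_ms hd j le_rfl hsr.le) (sb_lt hsr) (fun x y => x * y)
  exact Ms.comp2 h1 h2 (fun x y => lam * (x - lam * y))

theorem w2_ms (hd : ∀ q, Ms q (v q)) (hb : b ≠ 0) (j : ℕ) (lam : ℝ) (r : ℕ) :
    Ms (one L b r) (w2 j lam b v r) := Ms.comp (be_ms hd hb j lam r) (fun x => x ^ 3)

theorem w3_ms (hd : ∀ q, Ms q (v q)) (hb : b ≠ 0) (j : ℕ) (lam : ℝ) (s r : ℕ) :
    Ms (one L b r) (w3 j lam b v s r) := by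
  unfold w3
  by_cases h : r < s
  · simp only [if_pos h]
    exact be_ms hd hb j lam r
  · simp only [if_neg h]
    exact Ms.cst _ _

end ms

theorem sum_ite (f g : ℕ → ℝ) {j : ℕ} (hj : j ≤ L) :
    ∑ i ∈ range L, f i * (if i < j then g i else 0) = ∑ i ∈ range j, f i * g i := by
  have e1 : ∀ i ∈ range L, f i * (if i < j then g i else 0) =
      if i < j then f i * g i else 0 := by
    intro i _
    split_ifs <;> simp
  rw [sum_congr rfl e1, ← sum_filter]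
  congr 1
  ext i
  simp only [mem_filter, mem_range]
  omega

theorem sum_ite_sq (g : ℕ → ℝ) {j : ℕ} (hj : j ≤ L) :
    ∑ i ∈ range L, (if i < j then g i else 0) ^ 2 = ∑ i ∈ range j, g i ^ 2 := by
  have e1 : ∀ i ∈ range L, (if i < j then g i else 0) ^ 2 =
      if i < j then g i ^ 2 else 0 := by
    intro i _
    split_ifs <;> simp
  rw [sum_congr rfl e1, ← sum_filter]
  congr 1
  ext i
  simp only [mem_filter, mem_range]
  omega

/-- the event of SC does not happen -/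
def Ok (ρ : Pt m L → ℝ) (c : Fin (m + 1)) (A Z : ℝ) (z : ℕ → Pt m L → ℝ) (ω : Pt m L) : Prop :=
  ¬ (∑ t ∈ range L, z t ω ^ 2 ≤ Z ∧
    A * Z < (∑ t ∈ range L, (sb c t ω - al ρ c t ω) * z t ω) ^ 2)

theorem Ok.le {ρ : Pt m L → ℝ} {c : Fin (m + 1)} {A Z Λ : ℝ} {z : ℕ → Pt m L → ℝ} {ω : Pt m L}
    (h : Ok ρ c A Z z ω) (hz : ∑ t ∈ range L, z t ω ^ 2 ≤ Z) (hA : A ≤ Λ) :
    (∑ t ∈ range L, (sb c t ω - al ρ c t ω) * z t ω) ^ 2 ≤ Λ * Z := by
  have hZ : 0 ≤ Z := (sum_nonneg fun _ _ => sq_nonneg _).trans hz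
  by_contra hcon
  rw [not_le] at hcon
  exact h ⟨hz, (mul_le_mul_of_nonneg_right hA hZ).trans_lt hcon⟩

/-- all events -/
structure Good (ρ : Pt m L → ℝ) (θ : ℕ → Pt m L → ℝ) (b : Fin (m + 1))
    (v : (Fin (m + 1) → ℕ) → Pt m L → ℝ) (j : ℕ) (lam β κ t Λ lg A : ℝ) (ω : Pt m L) : Prop where
  a2 : A2 ρ b ω ≤ 4 * κ + Λ
  e1 : Ok ρ 0 A (β ^ 2 * κ) (z1 j b v θ) ω
  e2 : Ok ρ 0 A (4 * lg ^ 2 * β ^ 2 * L) (z2 j b v θ) ω
  e3 : Ok ρ 0 A (t ^ 2 * κ) (z3 j θ) ω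
  e4 : ∀ r < L, Ok ρ 0 A β (z4 j b v r) ω
  f1 : Ok ρ b A (4 * lg ^ 2 * β ^ 3 * L) (w1 j b v) ω
  f2 : Ok ρ b A (32 * (4 * (Λ * t) ^ 2 * κ + (4 * Λ * κ * t) ^ 3)) (w2 j lam b v) ω
  f3 : ∀ s < L + 1, Ok ρ b A (16 * κ) (w3 j lam b v s) ω

theorem prod_exp (n : ℕ) (u : ℕ → ℝ) (hu : ∀ i < n, |u i| ≤ 1 / 2) :
    ∏ i ∈ range n, (1 + u i) = Real.exp (∑ i ∈ range n, Real.log (1 + u i)) := by
  rw [Real.exp_sum]
  refine prod_congr rfl fun i hi => ?_
  have h := (abs_le.1 (hu i (mem_range.1 hi))).1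
  rw [Real.exp_log (by linarith)]

theorem point (hE : StExalg) (hT : StTri) {ρ : Pt m L → ℝ} {θ : ℕ → Pt m L → ℝ}
    {b : Fin (m + 1)} {v : (Fin (m + 1) → ℕ) → Pt m L → ℝ} {j : ℕ}
    {lam β κ t Λ lg A D : ℝ} {ω : Pt m L} (hL : 1 ≤ L) (hj : j ≤ L) (hb : b ≠ 0)
    (hlam : 0 ≤ lam) (hβ : 0 ≤ β) (hκ : 1 ≤ κ) (ht : 0 ≤ t) (htL : t * L = κ)
    (hμ : lam ^ 2 * β ≤ t) (hΛ : 1 ≤ Λ) (hlg : lg = (Nat.log 2 L : ℝ) + 1)
    (hlgΛ : lg ^ 2 ≤ Λ) (he : Λ ^ 2 * κ * t ≤ 1 / 10 ^ 4) (hA : A ≤ Λ)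
    (hD : 12 * κ + 3 * Λ ≤ D)
    (hρ : ρ = qq θ) (hθj : ∀ i ω, j ≤ i → θ i ω = 0)
    (hal : ∀ i < L, al ρ 0 i ω = θ i ω) (ha1 : ∀ r, |al ρ b r ω| ≤ 1)
    (hth : ∀ i < j, θ i ω = lam * XX v i ω ∧ XX v i ω ^ 2 ≤ β)
    (hnb : ∀ w : Fin L → ℝ,
        ∑ i ∈ range j, (∑ t : Fin L, Bm b v i t ω * w t) ^ 2 ≤ β * ∑ t, w t ^ 2)
    (hG : Good ρ θ b v j lam β κ t Λ lg A ω) :
    qq θ ω ≤ Real.exp 1 * rr lam D b v j ω ∧ rr lam D b v j ω ≤ Real.exp 1 * qq θ ω ∧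
      ∀ r < L, bh lam D b v j r ω = be lam b v j r ω := by
  set x : ℕ → ℝ := fun i => sb 0 i ω with hx
  set bb : ℕ → ℝ := fun r => sb b r ω with hbb
  have hga : ∀ i, dGa L (cm b v ω) bb i = XX v i ω := fun i => ga_eq hb v i ω
  have Dd : Dt L j (cm b v ω) x bb lam β κ t Λ lg :=
    { hL := by exact_mod_cast hL
      hj := hj
      x2 := fun i => by rw [hx, sq]; exact sb_sq 0 i ω
      b2 := fun r => by rw [hbb, sq]; exact sb_sq b r ω
      lam0 := hlam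
      β0 := hβ
      κ1 := hκ
      t0 := ht
      tL := htL
      μt := hμ
      Λ1 := hΛ
      lgd := hlg
      lgΛ := hlgΛ
      e := he
      nb := fun w => by
        have h := hnb (fun t => w t)
        have e1 : ∀ i, ∑ t ∈ range L, cm b v ω i t * w t =
            ∑ t : Fin L, Bm b v i t ω * w t := fun i => by
          rw [Finset.sum_range]
          rfl
        simp_rw [e1]
        rw [Finset.sum_range (fun t => w t ^ 2)]
        exact h
      gam := fun i hi => by rw [hga]; exact (hth i hi).2 }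
  have hdy : ∀ i < j, sb 0 i ω - θ i ω = dY L (cm b v ω) x bb lam i := by
    intro i hi
    unfold dY
    rw [hga, (hth i hi).1]
  have hthg : ∀ i < j, θ i ω = lam * dGa L (cm b v ω) bb i := by
    intro i hi
    rw [hga, (hth i hi).1]
  have conv : ∀ g : ℕ → ℝ, ∑ i ∈ range L, (sb 0 i ω - al ρ 0 i ω) * (if i < j then g i else 0) =
      ∑ i ∈ range j, dY L (cm b v ω) x bb lam i * g i := by
    intro g
    rw [sum_ite (fun i => sb 0 i ω - al ρ 0 i ω) g hj]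
    refine sum_congr rfl fun i hi => ?_
    have hi' := mem_range.1 hi
    rw [hal i (by omega), hdy i hi']
  have V4 : Dt.E4 L j (cm b v ω) x bb lam β Λ := by
    intro r hr
    have h := (hG.e4 r hr).le (Λ := Λ) (by
      unfold z4
      rw [sum_ite_sq (fun i => Bm b v i r ω) hj]
      exact diagG Dd.nb hr) hA
    unfold z4 at h
    rw [conv (fun i => Bm b v i r ω)] at h
    exact h
  have V : Dt.Ev L j (cm b v ω) x bb (fun r => al ρ b r ω) lam β κ t Λ lg :=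
    { a1 := ha1
      a2 := hG.a2
      e1 := by
        have e0 : ∑ i ∈ range j, (θ i ω * dH L (cm b v ω) i i) ^ 2 =
            ∑ i ∈ range j, (lam * dGa L (cm b v ω) bb i * dH L (cm b v ω) i i) ^ 2 :=
          sum_congr rfl fun i hi => by rw [hthg i (mem_range.1 hi)]
        have h := hG.e1.le (Λ := Λ) (by
          unfold z1
          rw [sum_ite_sq (fun i => θ i ω * dH L (cm b v ω) i i) hj, e0]
          exact Dd.zE1) hA
        unfold z1 at h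
        rw [conv (fun i => θ i ω * dH L (cm b v ω) i i)] at h
        refine le_trans (le_of_eq ?_) h
        congr 1
        exact sum_congr rfl fun i hi => by rw [hthg i (mem_range.1 hi)]
      e2 := by
        have e0 : ∀ i ∈ range j,
            ∑ i' ∈ range i, dH L (cm b v ω) i i' * (sb 0 i' ω - θ i' ω) =
            ∑ i' ∈ range i, dH L (cm b v ω) i i' * dY L (cm b v ω) x bb lam i' := by
          intro i hi
          refine sum_congr rfl fun i' hi' => ?_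
          have h1 := mem_range.1 hi
          have h2 := mem_range.1 hi'
          rw [hdy i' (by omega)]
        have h := hG.e2.le (Λ := Λ) (by
          unfold z2
          rw [sum_ite_sq
            (fun i => ∑ i' ∈ range i, dH L (cm b v ω) i i' * (sb 0 i' ω - θ i' ω)) hj,
            sum_congr rfl fun i hi => by rw [e0 i hi]]
          exact Dd.zE2 hT) hA
        unfold z2 at h
        rw [conv (fun i => ∑ i' ∈ range i, dH L (cm b v ω) i i' * (sb 0 i' ω - θ i' ω))] at h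
        refine le_trans (le_of_eq ?_) h
        congr 1
        exact sum_congr rfl fun i hi => by rw [e0 i hi]
      e3 := by
        have e0 : ∑ i ∈ range j, (θ i ω ^ 3) ^ 2 =
            ∑ i ∈ range j, ((lam * dGa L (cm b v ω) bb i) ^ 3) ^ 2 :=
          sum_congr rfl fun i hi => by rw [hthg i (mem_range.1 hi)]
        have h := hG.e3.le (Λ := Λ) (by
          unfold z3
          rw [sum_ite_sq (fun i => θ i ω ^ 3) hj, e0]
          exact Dd.zE3) hA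
        unfold z3 at h
        rw [conv (fun i => θ i ω ^ 3)] at h
        refine le_trans (le_of_eq ?_) h
        congr 1
        exact sum_congr rfl fun i hi => by rw [hthg i (mem_range.1 hi)]
      e4 := V4
      f1 := hG.f1.le (Dd.zF1 hT) hA
      f2 := hG.f2.le (Dd.zF2 hE hT V4) hA
      f3 := fun s hs => by
        have h := (hG.f3 s (by omega)).le (Λ := Λ) (by
          unfold w3
          rw [sum_ite_sq (fun r => be lam b v j r ω) hs]
          exact (sum_le_sum_of_subset_of_nonneg (range_mono hs) fun _ _ _ => sq_nonneg _).trans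
            (Dd.sbe hE hT)) hA
        unfold w3 at h
        rw [sum_ite (fun r => sb b r ω - al ρ b r ω) (fun r => be lam b v j r ω) hs] at h
        exact h }
  have hhalf : ∀ r < L, |be lam b v j r ω| ≤ 1 / 2 := fun r hr => Dd.half hE hT V4 hr
  have hrun : ∀ s ≤ L, ∑ l ∈ range s, sb b l ω * be lam b v j l ω ≤ D :=
    fun s hs => (Dd.run hE hT V hs).trans hD
  have hbh : ∀ r < L, bh lam D b v j r ω = be lam b v j r ω := by
    intro r hr
    unfold bh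
    rw [if_pos]
    intro s hs
    exact ⟨hhalf s (by omega), hrun s (by omega)⟩
  have hrr : rr lam D b v j ω = Real.exp (∑ r ∈ range L,
      Real.log (1 + bb r * dBe j (cm b v ω) x bb lam r)) := by
    unfold rr
    rw [← prod_exp L (fun r => bb r * dBe j (cm b v ω) x bb lam r) (fun r hr => by
      rw [abs_mul]
      have : |bb r| = 1 := sb_abs b r ω
      rw [this, one_mul]
      exact hhalf r hr)]
    refine prod_congr rfl fun r hr => ?_
    rw [hbh r (mem_range.1 hr)]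
    rfl
  have hqq : qq θ ω = Real.exp (∑ i ∈ range j,
      Real.log (1 + x i * (lam * dGa L (cm b v ω) bb i))) := by
    unfold qq
    rw [← prod_exp j (fun i => x i * (lam * dGa L (cm b v ω) bb i)) (fun i hi => by
      rw [abs_mul]
      have : |x i| = 1 := sb_abs 0 i ω
      rw [this, one_mul]
      exact Dd.half_th hi)]
    have e1 : ∏ i ∈ range L, (1 + sb 0 i ω * θ i ω) =
        ∏ i ∈ range j, (1 + sb 0 i ω * θ i ω) := by
      symm
      refine prod_subset (range_mono hj) fun i _ hi => ?_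
      have hi' : j ≤ i := by simpa using hi
      rw [hθj i ω hi', mul_zero, add_zero]
    rw [e1]
    refine prod_congr rfl fun i hi => ?_
    rw [hthg i (mem_range.1 hi)]
  have hfin := abs_le.1 (Dd.final hE hT V)
  rw [hqq, hrr, ← Real.exp_add, ← Real.exp_add]
  refine ⟨Real.exp_le_exp.2 ?_, Real.exp_le_exp.2 ?_, hbh⟩
  · linarith [hfin.2]
  · linarith [hfin.1]

end Pool.Agent.SHD.Exch18

namespace Pool.Agent.SHD

open Finset Pool.Agent.SB3 Pool.Agent.SBT Pool.Agent.SBD Exch18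

/-- EXCH -/
theorem exch_18 (hE : StExalg) (hS : StSc) (hT : StTri) (hTail : StTail) (hAlf : StAlf)
    (hAlx : StAlx) (hTK : StTiltK) : StExch := by
  intro m n ε hm hε
  obtain ⟨C1, hC1, hSC⟩ := hS (n + 1) (ε / 2) (by positivity)
  obtain ⟨K, hK1, hK⟩ := logs (ε / 2) (by positivity)
  set C3 : ℝ := C1 + K + 8 * (n + 1) * K with hC3
  have hn0 : (0 : ℝ) ≤ n := by positivity
  have hC31 : 1 ≤ C3 := by
    have : 0 ≤ 8 * ((n : ℝ) + 1) * K := by positivity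
    linarith
  refine ⟨10 ^ 4 * C3 ^ 2 + 12 + 3 * C3 + 9 * C1 + 1, by
    have := sq_nonneg C3
    linarith, ?_⟩
  set C : ℝ := 10 ^ 4 * C3 ^ 2 + 12 + 3 * C3 + 9 * C1 + 1 with hCd
  intro L N R j k lam β D b v θ G hL hj hb hk hlam hβ hv hPrd hLaw hθj hG hsmall hD
  have hLr : (1 : ℝ) ≤ L := by exact_mod_cast hL
  have hL0 : (0 : ℝ) < L := by linarith
  set κ : ℝ := k + lam ^ 2 * β * L with hκd
  have hκk : k ≤ κ := by
    have : 0 ≤ lam ^ 2 * β * L := by positivity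
    linarith
  have hκ : 1 ≤ κ := hk.trans hκk
  set t : ℝ := κ / L with htd
  have ht0 : 0 ≤ t := by positivity
  have htL : t * L = κ := div_mul_cancel₀ _ hL0.ne'
  have hp : (1 : ℝ) ≤ (L : ℝ) ^ (ε / 2) := Real.one_le_rpow hLr (by positivity)
  have hpp : (L : ℝ) ^ (ε / 2) * (L : ℝ) ^ (ε / 2) = (L : ℝ) ^ ε := by
    rw [← Real.rpow_add hL0]
    congr 1
    ring
  have hpe : (L : ℝ) ^ (ε / 2) ≤ (L : ℝ) ^ ε := by
    rw [← hpp]
    exact le_mul_of_one_le_left (by linarith) hp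
  set Λ : ℝ := C3 * (L : ℝ) ^ (ε / 2) with hΛd
  have hΛ1 : 1 ≤ Λ := one_le_mul_of_one_le_of_one_le hC31 hp
  set A : ℝ := C1 * (L : ℝ) ^ (ε / 2) with hAd
  have hKn : 0 ≤ 8 * ((n : ℝ) + 1) * K := by positivity
  have hAΛ : A ≤ Λ := mul_le_mul_of_nonneg_right (by linarith) (by linarith)
  set lg : ℝ := (Nat.log 2 L : ℝ) + 1 with hlgd
  have hlgΛ : lg ^ 2 ≤ Λ := (hK L hL).1.trans (mul_le_mul_of_nonneg_right (by linarith)
    (by linarith))
  have hlogΛ : 8 * ((n + 1 : ℕ) : ℝ) * Real.log (L + 1) ≤ Λ := by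
    have h1 := (hK L hL).2
    have h2 : 8 * ((n + 1 : ℕ) : ℝ) * Real.log (L + 1) ≤
        8 * ((n + 1 : ℕ) : ℝ) * (K * (L : ℝ) ^ (ε / 2)) :=
      mul_le_mul_of_nonneg_left h1 (by positivity)
    refine h2.trans ?_
    push_cast
    rw [hΛd]
    have h3 : 8 * ((n : ℝ) + 1) * (K * (L : ℝ) ^ (ε / 2)) =
        (8 * ((n : ℝ) + 1) * K) * (L : ℝ) ^ (ε / 2) := by ring
    rw [h3]
    exact mul_le_mul_of_nonneg_right (by linarith) (by linarith)
  have he : Λ ^ 2 * κ * t ≤ 1 / 10 ^ 4 := by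
    have h1 : Λ ^ 2 * κ ^ 2 * 10 ^ 4 ≤ L := by
      have e1 : Λ ^ 2 * κ ^ 2 * 10 ^ 4 = (10 ^ 4 * C3 ^ 2) * κ ^ 2 * (L : ℝ) ^ ε := by
        rw [hΛd, mul_pow, ← hpp]
        ring
      rw [e1]
      refine le_trans ?_ hsmall
      have hCC : 10 ^ 4 * C3 ^ 2 ≤ C := by
        rw [hCd]
        linarith
      exact mul_le_mul_of_nonneg_right (mul_le_mul_of_nonneg_right hCC (sq_nonneg _))
        (by positivity)
    have e2 : Λ ^ 2 * κ * t = Λ ^ 2 * κ ^ 2 / L := by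
      rw [htd]
      ring
    rw [e2, div_le_div_iff₀ hL0 (by norm_num)]
    linarith
  have hμ : lam ^ 2 * β ≤ t := by
    rw [htd, le_div_iff₀ hL0]
    linarith
  have hDD : 12 * κ + 3 * Λ ≤ D := by
    refine le_trans ?_ hD
    have h1 : 0 ≤ C3 ^ 2 := sq_nonneg _
    have h2 : (0 : ℝ) ≤ (L : ℝ) ^ ε := by positivity
    have h3 : 12 * κ ≤ C * κ := mul_le_mul_of_nonneg_right (by linarith) (by linarith)
    have h4 : 3 * Λ ≤ C * (L : ℝ) ^ ε := by
      calc 3 * Λ = 3 * C3 * (L : ℝ) ^ (ε / 2) := by rw [hΛd]; ring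
        _ ≤ 3 * C3 * (L : ℝ) ^ ε := mul_le_mul_of_nonneg_left hpe (by linarith)
        _ ≤ C * (L : ℝ) ^ ε := mul_le_mul_of_nonneg_right (by linarith) h2
    rw [mul_add]
    linarith
  have hA := hAlf m L k (qq θ) hLaw
  have hal : ∀ ω, qq θ ω ≠ 0 → ∀ i < L, al (qq θ) 0 i ω = θ i ω := fun ω hω i hi =>
    hAlx m L k (qq θ) (θ i) 0 i hLaw hi (hPrd.dep i)
      (fun X hX => (hTK m L θ hPrd).2.2.1 i hi X hX) ω hω
  -- the bad event
  set B : Pt m L → Prop := fun ω =>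
    (4 * k + 8 * ((n + 1 : ℕ) : ℝ) * Real.log (L + 1) < A2 (qq θ) b ω ∨
      ¬ Ok (qq θ) 0 A (β ^ 2 * κ) (z1 j b v θ) ω) ∨
    (¬ Ok (qq θ) 0 A (4 * lg ^ 2 * β ^ 2 * L) (z2 j b v θ) ω ∨
      ¬ Ok (qq θ) 0 A (t ^ 2 * κ) (z3 j θ) ω) ∨
    ((∃ r < L, ¬ Ok (qq θ) 0 A β (z4 j b v r) ω) ∨
      ¬ Ok (qq θ) b A (4 * lg ^ 2 * β ^ 3 * L) (w1 j b v) ω) ∨
    (¬ Ok (qq θ) b A (32 * (4 * (Λ * t) ^ 2 * κ + (4 * Λ * κ * t) ^ 3)) (w2 j lam b v) ω ∨
      ∃ s < L + 1, ¬ Ok (qq θ) b A (16 * κ) (w3 j lam b v s) ω) with hB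
  have hsub : Pr (qq θ) (fun ω => G ω ∧ ¬ (qq θ ω ≤ Real.exp 1 * rr lam D b v j ω ∧
      rr lam D b v j ω ≤ Real.exp 1 * qq θ ω ∧
      ∀ r < L, bh lam D b v j r ω = be lam b v j r ω)) ≤ Pr (qq θ) B := by
    refine pr_mono0 hLaw.nonneg fun ω hω h => ?_
    by_contra hcon
    refine h.2 ?_
    obtain ⟨hg1, hg2⟩ := hG ω h.1
    rw [hB] at hcon
    push Not at hcon
    refine point hE hT hL hj hb hlam hβ hκ ht0 htL hμ hΛ1 hlgd hlgΛ he hAΛ hDD rfl hθj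
      (hal ω hω) (fun r => hA.abs b r ω) hg1 hg2
      ⟨?_, hcon.1.2, hcon.2.1.1, hcon.2.1.2, hcon.2.2.1.1, hcon.2.2.1.2, hcon.2.2.2.1,
        hcon.2.2.2.2⟩
    have h1 := hcon.1.1
    linarith
  refine hsub.trans ?_
  -- union bound
  set p : ℝ := C1 / ((L : ℝ) + 1) ^ (n + 1) with hpd
  have hp0 : 0 ≤ p := by positivity
  have ev : ∀ (c : Fin (m + 1)) (Z : ℝ) (z : ℕ → Pt m L → ℝ), 0 ≤ Z →
      (∀ i, Ms (one L c i) (z i)) → Pr (qq θ) (fun ω => ¬ Ok (qq θ) c A Z z ω) ≤ p := by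
    intro c Z z hZ hz
    have h := hSC m L c z k Z (qq θ) hL hLaw hZ hz
    refine le_trans (Pr_mono hLaw fun ω hω => ?_) h
    unfold Ok at hω
    exact not_not.1 hω
  have hd := hv.dep
  have hlg0 : 0 ≤ lg := by
    rw [hlgd]
    positivity
  have q1 : Pr (qq θ) (fun ω => 4 * k + 8 * ((n + 1 : ℕ) : ℝ) * Real.log (L + 1) <
      A2 (qq θ) b ω) ≤ p := by
    have h := (hTail m L k (qq θ) hLaw).2 b (n + 1)
    refine h.trans ?_
    rw [hpd]
    exact div_le_div_of_nonneg_right hC1 (by positivity)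
  have q2 := ev 0 (β ^ 2 * κ) (z1 j b v θ) (by positivity) (fun i => z1_ms hd hb hPrd j i)
  have q3 := ev 0 (4 * lg ^ 2 * β ^ 2 * L) (z2 j b v θ) (by positivity)
    (fun i => z2_ms hd hb hPrd j i)
  have q4 := ev 0 (t ^ 2 * κ) (z3 j θ) (by positivity) (fun i => z3_ms hPrd j i)
  have q5 : Pr (qq θ) (fun ω => ∃ r < L, ¬ Ok (qq θ) 0 A β (z4 j b v r) ω) ≤ L * p := by
    refine (Pr_exists_le hLaw L _).trans ?_
    refine (sum_le_sum fun r _ => ev 0 β (z4 j b v r) hβ (fun i => z4_ms hd hb j r i)).trans ?_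
    rw [sum_const, card_range, nsmul_eq_mul]
  have q6 := ev b (4 * lg ^ 2 * β ^ 3 * L) (w1 j b v) (by positivity)
    (fun r => w1_ms hd hb j r)
  have q7 := ev b (32 * (4 * (Λ * t) ^ 2 * κ + (4 * Λ * κ * t) ^ 3)) (w2 j lam b v)
    (by positivity) (fun r => w2_ms hd hb j lam r)
  have q8 : Pr (qq θ) (fun ω => ∃ s < L + 1, ¬ Ok (qq θ) b A (16 * κ) (w3 j lam b v s) ω) ≤
      (L + 1) * p := by
    refine (Pr_exists_le hLaw (L + 1) _).trans ?_
    refine (sum_le_sum fun s _ => ev b (16 * κ) (w3 j lam b v s) (by positivity)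
      (fun r => w3_ms hd hb j lam s r)).trans ?_
    rw [sum_const, card_range, nsmul_eq_mul]
    push_cast
    exact le_rfl
  have u1 := (Pr_or_le hLaw (fun ω => 4 * k + 8 * ((n + 1 : ℕ) : ℝ) * Real.log (L + 1) <
      A2 (qq θ) b ω) (fun ω => ¬ Ok (qq θ) 0 A (β ^ 2 * κ) (z1 j b v θ) ω)).trans
    (add_le_add q1 q2)
  have u2 := (Pr_or_le hLaw (fun ω => ¬ Ok (qq θ) 0 A (4 * lg ^ 2 * β ^ 2 * L) (z2 j b v θ) ω)
    (fun ω => ¬ Ok (qq θ) 0 A (t ^ 2 * κ) (z3 j θ) ω)).trans (add_le_add q3 q4)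
  have u3 := (Pr_or_le hLaw (fun ω => ∃ r < L, ¬ Ok (qq θ) 0 A β (z4 j b v r) ω)
    (fun ω => ¬ Ok (qq θ) b A (4 * lg ^ 2 * β ^ 3 * L) (w1 j b v) ω)).trans
    (add_le_add q5 q6)
  have u4 := (Pr_or_le hLaw
    (fun ω => ¬ Ok (qq θ) b A (32 * (4 * (Λ * t) ^ 2 * κ + (4 * Λ * κ * t) ^ 3))
      (w2 j lam b v) ω)
    (fun ω => ∃ s < L + 1, ¬ Ok (qq θ) b A (16 * κ) (w3 j lam b v s) ω)).trans
    (add_le_add q7 q8)
  have u34 := (Pr_or_le hLaw _ _).trans (add_le_add u3 u4)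
  have u234 := (Pr_or_le hLaw _ _).trans (add_le_add u2 u34)
  have u := (Pr_or_le hLaw _ _).trans (add_le_add u1 u234)
  refine u.trans ?_
  have hfin : p + p + (p + p + (L * p + p + (p + (L + 1) * p))) ≤
      9 * C1 / ((L : ℝ) + 1) ^ n := by
    have e1 : 9 * C1 / ((L : ℝ) + 1) ^ n = 9 * ((L : ℝ) + 1) * p := by
      rw [hpd, pow_succ]
      field_simp
    rw [e1]
    have h1 : 0 ≤ (L : ℝ) * p := mul_nonneg hL0.le hp0
    have h2 : 9 * ((L : ℝ) + 1) * p = 9 * (L * p) + 9 * p := by ring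
    have h3 : ((L : ℝ) + 1) * p = L * p + p := by ring
    rw [h2, h3]
    linarith
  refine hfin.trans (div_le_div_of_nonneg_right ?_ (by positivity))
  rw [hCd]
  have h1 := sq_nonneg C3
  linarith

end Pool.Agent.SHD
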