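import Pool.Agent.Lib.MP_a7b2aa_an.SHD.Stmts3_23

/-! SHD3, modules NBT and EXALG (helper21). -/

set_option autoImplicit false

namespace Pool.Agent.SHD

open Finset Pool.Agent.SB3 Pool.Agent.SBT Pool.Agent.SBD

/-- NBT: the transposed matrix -/
theorem nbt_21 : StNbt := by
  intro κ κ' _ _ A b hb hA w
  change ∑ y, (∑ x, A x y * w x) ^ 2 ≤ b * ∑ x, w x ^ 2
  set z : κ' → ℝ := fun y => ∑ x, A x y * w x with hz
  have hS : ∑ y, z y ^ 2 = ∑ x, w x * ∑ y, A x y * z y := by
    have e1 : ∀ y, z y ^ 2 = ∑ x, w x * (A x y * z y) := by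
      intro y
      rw [pow_two]
      conv_lhs =>
        rw [hz]
        simp only
      rw [Finset.sum_mul]
      exact Finset.sum_congr rfl fun x _ => by simp only [hz]; ring
    rw [Finset.sum_congr rfl fun y _ => e1 y, Finset.sum_comm]
    exact Finset.sum_congr rfl fun x _ => by rw [Finset.mul_sum]
  have hCS : (∑ x, w x * ∑ y, A x y * z y) ^ 2 ≤
      (∑ x, w x ^ 2) * ∑ x, (∑ y, A x y * z y) ^ 2 := Finset.sum_mul_sq_le_sq_mul_sq _ _ _
  have hAz := hA z
  have hw0 : 0 ≤ ∑ x, w x ^ 2 := Finset.sum_nonneg fun x _ => sq_nonneg _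
  have hz0 : 0 ≤ ∑ y, z y ^ 2 := Finset.sum_nonneg fun x _ => sq_nonneg _
  change ∑ y, z y ^ 2 ≤ b * ∑ x, w x ^ 2
  rw [← hS] at hCS
  have h1 : (∑ y, z y ^ 2) ^ 2 ≤ (∑ x, w x ^ 2) * (b * ∑ y, z y ^ 2) :=
    hCS.trans (mul_le_mul_of_nonneg_left hAz hw0)
  rcases hz0.lt_or_eq with h2 | h2
  · have h3 : (∑ y, z y ^ 2) * (∑ y, z y ^ 2) ≤ (b * ∑ x, w x ^ 2) * ∑ y, z y ^ 2 := by
      nlinarith [h1]
    exact le_of_mul_le_mul_right h3 h2
  · rw [← h2]
    exact mul_nonneg hb hw0

/-- the sum of a symmetric array -/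
theorem sum_symm_21 (f : ℕ → ℕ → ℝ) (hf : ∀ r s, f r s = f s r) (n : ℕ) :
    ∑ r ∈ range n, ∑ s ∈ range n, f r s =
      2 * ∑ r ∈ range n, ∑ s ∈ range r, f r s + ∑ r ∈ range n, f r r := by
  induction n with
  | zero => simp
  | succ n ih =>
    have e1 : ∑ r ∈ range (n + 1), ∑ s ∈ range (n + 1), f r s =
        ∑ r ∈ range n, ∑ s ∈ range n, f r s + ∑ r ∈ range n, f r n + ∑ s ∈ range n, f n s +
          f n n := by
      rw [Finset.sum_range_succ (fun r => ∑ s ∈ range (n + 1), f r s),
        Finset.sum_congr rfl fun r _ => Finset.sum_range_succ (fun s => f r s) n,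
        Finset.sum_add_distrib, Finset.sum_range_succ (fun s => f n s)]
      ring
    rw [e1, ih, Finset.sum_range_succ, Finset.sum_range_succ (fun r => f r r),
      Finset.sum_congr rfl fun r _ => hf r n]
    ring

/-- squares of sums over two indices -/
theorem sum_sq_21 (n k : ℕ) (a : ℕ → ℝ) (C : ℕ → ℕ → ℝ) :
    ∑ r ∈ range k, (∑ i ∈ range n, a i * C i r) ^ 2 =
      ∑ i ∈ range n, ∑ i' ∈ range n, a i * a i' * ∑ r ∈ range k, C i r * C i' r := by
  have e1 : ∀ r, (∑ i ∈ range n, a i * C i r) ^ 2 =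
      ∑ i ∈ range n, ∑ i' ∈ range n, a i * a i' * (C i r * C i' r) := by
    intro r
    rw [pow_two, Finset.sum_mul_sum]
    exact Finset.sum_congr rfl fun i _ => Finset.sum_congr rfl fun i' _ => by ring
  rw [Finset.sum_congr rfl fun r _ => e1 r, Finset.sum_comm]
  apply Finset.sum_congr rfl
  intro i _
  rw [Finset.sum_comm]
  apply Finset.sum_congr rfl
  intro i' _
  rw [Finset.mul_sum]

/-- EXALG: identities of the exchange -/
theorem exalg_21 : StExalg := by
  intro L j C x b lam Γ u β y G H hx hb hΓ hu hG hH hβ hy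
  have hGs : ∀ r s, G r s = G s r := fun r s => by
    rw [hG, hG]
    exact Finset.sum_congr rfl fun i _ => mul_comm _ _
  have hHs : ∀ r s, H r s = H s r := fun r s => by
    rw [hH, hH]
    exact Finset.sum_congr rfl fun i _ => mul_comm _ _
  -- the products
  have p1 : ∑ i ∈ range j, x i * Γ i = ∑ r ∈ range L, b r * u r := by
    have e1 : ∀ i, x i * Γ i = ∑ r ∈ range L, b r * (x i * C i r) := by
      intro i
      rw [hΓ, Finset.mul_sum]
      exact Finset.sum_congr rfl fun r _ => by ring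
    rw [Finset.sum_congr rfl fun i _ => e1 i, Finset.sum_comm]
    apply Finset.sum_congr rfl
    intro r _
    rw [hu, Finset.mul_sum]
  have p2 : ∑ i ∈ range j, Γ i ^ 2 =
      2 * ∑ r ∈ range L, b r * ∑ s ∈ range r, G r s * b s + ∑ r ∈ range L, G r r := by
    have e1 : ∑ i ∈ range j, Γ i ^ 2 = ∑ r ∈ range L, ∑ s ∈ range L, b r * b s * G r s := by
      have e2 := sum_sq_21 L j b (fun r i => C i r)
      have e3 : ∑ i ∈ range j, Γ i ^ 2 = ∑ i ∈ range j, (∑ r ∈ range L, b r * C i r) ^ 2 :=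
        Finset.sum_congr rfl fun i _ => by rw [hΓ i]
      rw [e3, e2]
      exact Finset.sum_congr rfl fun r _ => Finset.sum_congr rfl fun s _ => by rw [hG]
    rw [e1, sum_symm_21 (fun r s => b r * b s * G r s) (fun r s => by rw [hGs r s]; ring)]
    congr 1
    · congr 1
      apply Finset.sum_congr rfl
      intro r _
      rw [Finset.mul_sum]
      exact Finset.sum_congr rfl fun s _ => by ring
    · apply Finset.sum_congr rfl
      intro r _
      rw [← pow_two, hb, one_mul]
  have hsplit : ∀ (f : ℕ → ℝ) (r : ℕ), r < L →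
      ∑ s ∈ range L, f s = ∑ s ∈ range r, f s + ∑ s ∈ Finset.Ico r L, f s := by
    intro f r hr
    rw [Finset.range_eq_Ico, Finset.range_eq_Ico, Finset.sum_Ico_consecutive f (Nat.zero_le r) hr.le]
  have hP : ∀ r, ∑ i ∈ range j, C i r * y i = u r - lam * ∑ s ∈ range L, G r s * b s := by
    intro r
    have e1 : ∑ i ∈ range j, C i r * y i =
        ∑ i ∈ range j, x i * C i r - lam * ∑ i ∈ range j, C i r * Γ i := by
      rw [Finset.mul_sum, ← Finset.sum_sub_distrib]
      exact Finset.sum_congr rfl fun i _ => by rw [hy]; ring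
    have e2 : ∑ i ∈ range j, C i r * Γ i = ∑ s ∈ range L, G r s * b s := by
      have e3 : ∀ i, C i r * Γ i = ∑ s ∈ range L, C i r * C i s * b s := by
        intro i
        rw [hΓ, Finset.mul_sum]
        exact Finset.sum_congr rfl fun s _ => by ring
      rw [Finset.sum_congr rfl fun i _ => e3 i, Finset.sum_comm]
      apply Finset.sum_congr rfl
      intro s _
      rw [hG, Finset.sum_mul]
    rw [e1, e2, hu]
  have c2 : ∀ r < L, β r = lam * ∑ i ∈ range j, C i r * y i +
      lam ^ 2 * ∑ s ∈ Finset.Ico r L, G r s * b s := by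
    intro r hr
    rw [hβ, hP, hsplit (fun s => G r s * b s) r hr]
    ring
  refine ⟨?_, c2, ?_⟩
  · have e1 : ∑ i ∈ range j, (x i * (lam * Γ i) - (lam * Γ i) ^ 2 / 2) =
        lam * ∑ i ∈ range j, x i * Γ i - lam ^ 2 / 2 * ∑ i ∈ range j, Γ i ^ 2 := by
      rw [Finset.mul_sum, Finset.mul_sum, ← Finset.sum_sub_distrib]
      exact Finset.sum_congr rfl fun i _ => by ring
    have e2 : ∑ r ∈ range L, b r * β r = lam * ∑ r ∈ range L, b r * u r -
        lam ^ 2 * ∑ r ∈ range L, b r * ∑ s ∈ range r, G r s * b s := by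
      rw [Finset.mul_sum, Finset.mul_sum, ← Finset.sum_sub_distrib]
      exact Finset.sum_congr rfl fun r _ => by rw [hβ]; ring
    rw [e1, e2, p1, p2]
    ring
  · have hβ2 : ∑ r ∈ range L, β r ^ 2 =
        lam ^ 2 * ∑ r ∈ range L, (∑ i ∈ range j, C i r * y i) ^ 2 +
        2 * lam ^ 3 * ∑ r ∈ range L, (∑ i ∈ range j, C i r * y i) *
          ∑ s ∈ Finset.Ico r L, G r s * b s +
        lam ^ 4 * ∑ r ∈ range L, (∑ s ∈ Finset.Ico r L, G r s * b s) ^ 2 := by
      rw [Finset.mul_sum, Finset.mul_sum, Finset.mul_sum, ← Finset.sum_add_distrib,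
        ← Finset.sum_add_distrib]
      apply Finset.sum_congr rfl
      intro r hr
      rw [c2 r (Finset.mem_range.1 hr)]
      ring
    have hPP : ∑ r ∈ range L, (∑ i ∈ range j, C i r * y i) ^ 2 =
        2 * ∑ i ∈ range j, y i * ∑ i' ∈ range i, H i i' * y i' +
          ∑ i ∈ range j, y i ^ 2 * H i i := by
      have e1 := sum_sq_21 j L y C
      have e3 : ∑ r ∈ range L, (∑ i ∈ range j, C i r * y i) ^ 2 =
          ∑ r ∈ range L, (∑ i ∈ range j, y i * C i r) ^ 2 :=
        Finset.sum_congr rfl fun r _ => by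
          rw [Finset.sum_congr rfl fun i _ => mul_comm (C i r) (y i)]
      have e4 : ∑ i ∈ range j, ∑ i' ∈ range j, y i * y i' * ∑ r ∈ range L, C i r * C i' r =
          ∑ i ∈ range j, ∑ i' ∈ range j, y i * y i' * H i i' :=
        Finset.sum_congr rfl fun i _ => Finset.sum_congr rfl fun i' _ => by rw [← hH i i']
      rw [e3, e1, e4]
      rw [sum_symm_21 (fun i i' => y i * y i' * H i i') (fun r s => by rw [hHs r s]; ring)]
      congr 1
      · congr 1
        apply Finset.sum_congr rfl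
        intro r _
        rw [Finset.mul_sum]
        exact Finset.sum_congr rfl fun s _ => by ring
      · apply Finset.sum_congr rfl
        intro r _
        ring
    have hGH : ∑ r ∈ range L, G r r = ∑ i ∈ range j, H i i := by
      rw [Finset.sum_congr rfl fun r _ => hG r r, Finset.sum_comm]
      exact Finset.sum_congr rfl fun i _ => (hH i i).symm
    have hPT : ∑ r ∈ range L, (∑ i ∈ range j, C i r * y i) * ∑ s ∈ Finset.Ico r L, G r s * b s =
        ∑ r ∈ range L, b r * ∑ s ∈ range (r + 1), G r s * u s -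
          lam * ∑ r ∈ range L, (∑ s ∈ range L, G r s * b s) *
            ∑ s ∈ Finset.Ico r L, G r s * b s := by
      have e1 : ∑ r ∈ range L, (∑ i ∈ range j, C i r * y i) *
          ∑ s ∈ Finset.Ico r L, G r s * b s =
          ∑ r ∈ range L, u r * ∑ s ∈ Finset.Ico r L, G r s * b s -
          lam * ∑ r ∈ range L, (∑ s ∈ range L, G r s * b s) *
            ∑ s ∈ Finset.Ico r L, G r s * b s := by
        rw [Finset.mul_sum, ← Finset.sum_sub_distrib]
        exact Finset.sum_congr rfl fun r _ => by rw [hP]; ring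
      have e2 : ∑ r ∈ range L, u r * ∑ s ∈ Finset.Ico r L, G r s * b s =
          ∑ r ∈ range L, b r * ∑ s ∈ range (r + 1), G r s * u s := by
        have e3 : ∑ r ∈ range L, u r * ∑ s ∈ Finset.Ico r L, G r s * b s =
            ∑ r ∈ range L, ∑ s ∈ Finset.Ico r L, u r * (G r s * b s) :=
          Finset.sum_congr rfl fun r _ => by rw [Finset.mul_sum]
        have e4 : ∑ s ∈ range L, b s * ∑ r ∈ range (s + 1), G s r * u r =
            ∑ s ∈ range L, ∑ r ∈ range (s + 1), u r * (G r s * b s) :=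
          Finset.sum_congr rfl fun s _ => by
            rw [Finset.mul_sum]
            exact Finset.sum_congr rfl fun r _ => by rw [hGs r s]; ring
        rw [e3, e4]
        apply Finset.sum_comm'
        intro r s
        rw [Finset.mem_range, Finset.mem_Ico, Finset.mem_range, Finset.mem_range]
        omega
      rw [e1, e2]
    rw [hβ2, hPP, hPT, hGH]
    have e5 : ∑ i ∈ range j, (y i ^ 2 - 1) * H i i =
        ∑ i ∈ range j, y i ^ 2 * H i i - ∑ i ∈ range j, H i i := by
      rw [← Finset.sum_sub_distrib]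
      exact Finset.sum_congr rfl fun i _ => by ring
    rw [e5]
    ring

end Pool.Agent.SHD
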