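import Pool.Agent.Lib.MP_a7b2aa_an.SHD.Stmts3_23
import Pool.Agent.Lib.MP_a7b2aa_an.SHD.NbtExalg21
import Pool.Agent.Lib.MP_a7b2aa_an.SBD.OP60
import Pool.Agent.Lib.MP_a7b2aa_an.SBD.Alf74
import Pool.Agent.Lib.MP_a7b2aa_an.SBD.EEB36

/-!
SHD3, module FRV (helper38): matrix martingales with uniformly bounded terms, in event form;
`mart38` is `OP60.mart` of helper60 for a set `P` of times.
-/

set_option autoImplicit false

namespace Pool.Agent.SHD

open Finset Pool.Agent.SB3 Pool.Agent.SBT Pool.Agent.SBD Pool.Agent.SBD.OP60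

/-- the sign martingale part of one string: for predictable symmetric matrices of norm at most
`b` the norm is at most `L ^ ε L b` -/
theorem mart38 (hA : StAlf) (n : ℕ) (ε : ℝ) (hε : 0 < ε) : ∃ C : ℝ, 1 ≤ C ∧
    ∀ (m L : ℕ) (P : Finset ℕ) (c : Fin (m + 1)) (κ : Type) [Fintype κ] [DecidableEq κ]
    (M : ℕ → Pt m L → Matrix κ κ ℝ) (k b : ℝ) (ρ : Pt m L → ℝ), 1 ≤ L → Law k ρ → P ⊆ range L → 0 < P.card →
    Fintype.card κ ≤ 2 * L → 0 < b → (∀ t ω, (M t ω).IsSymm) → (∀ t ω, NB (M t ω) b) →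
    (∀ t, Ms (one L c t) (M t)) →
    Pr ρ (fun ω => ¬ NB (∑ t ∈ P, (sb c t ω - al ρ c t ω) • M t ω)
      ((L : ℝ) ^ ε * (P.card * b))) ≤ C / (L + 1) ^ n := by
  classical
  obtain ⟨R, hR⟩ := exists_nat_ge ((n + 2 : ℝ) / ε)
  have hRε : (n + 2 : ℝ) ≤ R * ε := by
    rwa [div_le_iff₀ hε] at hR
  have hR1 : 1 ≤ R := by
    rcases Nat.eq_zero_or_pos R with h | h
    · rw [h] at hRε
      have : (0 : ℝ) ≤ n := Nat.cast_nonneg n
      simp at hRε
      linarith
    · exact h
  obtain ⟨A, hA0, hmom⟩ := SB30.mom SB30.lk33 R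
  refine ⟨1 + 2 * A * 2 ^ n, by
    have : 0 ≤ 2 * A * 2 ^ n := by positivity
    linarith, ?_⟩
  intro m L P c κ _ _ M k b ρ hL hρ hP hPc hcard hb hsym hNB hMs
  have hPc0 : (0 : ℝ) < P.card := by exact_mod_cast hPc
  have hL1 : (1 : ℝ) ≤ L := by exact_mod_cast hL
  have hL0 : (0 : ℝ) < L := by linarith
  have hAl := hA m L k ρ hρ
  set D : ℕ → Pt m L → ℝ := fun t ω => sb c t ω - al ρ c t ω with hD
  have hone : ∀ t a, one (m := m) L c t a ≤ one L c (t + 1) a ∨ L ≤ one L c (t + 1) a := by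
    intro t a
    by_cases ha : a = c
    · subst ha
      left
      simp [one]
    · right
      simp [one, Function.update_of_ne ha]
  have hone' : ∀ s t a, s ≤ t → (one (m := m) L c s a ≤ one L c t a ∨ L ≤ one L c t a) := by
    intro s t a hst
    by_cases ha : a = c
    · subst ha
      left
      simpa [one] using hst
    · right
      simp [one, Function.update_of_ne ha]
  have hsbMs : ∀ t, Ms (one L c (t + 1)) (sb (L := L) c t) := by
    intro t
    exact Ms_sb (by simp [one])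
  have halMs : ∀ t, Ms (one L c (t + 1)) (al ρ c t) := fun t =>
    (hAl.ms c t).mono fun a => hone' t (t + 1) a (Nat.le_succ t)
  have hmom' := hmom (Pt m L) κ (fun ω => ρ ω / 2 ^ ((m + 1) * L))
    (fun t x y => cl (one L c t) x y) D M b L
    (fun ω => div_nonneg (hρ.nonneg ω) (by positivity))
    (by
      have := hρ.mean
      unfold Av at this
      rwa [sum_div] at this)
    (fun t x y h => cl_mono (hone t) h)
    (fun t x y h => by
      show sb c t x - al ρ c t x = sb c t y - al ρ c t y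
      rw [hsbMs t y x h, halMs t y x h])
    (fun t ω => by
      have h1 := sb_abs c t ω
      have h2 := hAl.abs c t ω
      have h3 := abs_sub (sb c t ω) (al ρ c t ω)
      show |sb c t ω - al ρ c t ω| ≤ 2
      linarith)
    (fun t x y h => hMs t y x h)
    (fun t ht X hX => by
      rw [ex_conv]
      have h1 := hAl.ex c t X (fun ω ω' h => hX ω' ω h)
      have h2 : Ex ρ (fun ω => D t ω * X ω) =
          Ex ρ (fun ω => sb c t ω * X ω) - Ex ρ (fun ω => al ρ c t ω * X ω) := by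
        rw [← Ex_sub]
        congr 1
        funext ω
        simp only [hD]
        ring
      rw [h2, h1, sub_self])
    (fun t ω => hsym t ω) hb.le
    (fun t _ ω w => hNB t ω w) P hP
  rw [ex_conv] at hmom'
  set S : Pt m L → Matrix κ κ ℝ := fun ω => ∑ t ∈ P, D t ω • M t ω with hS
  have hSsym : ∀ ω, (S ω).IsSymm := by
    intro ω
    simp only [hS]
    unfold Matrix.IsSymm
    rw [Matrix.transpose_sum]
    apply Finset.sum_congr rfl
    intro q _
    rw [Matrix.transpose_smul, (hsym q ω).eq]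
  have hlam := fun ω => SB30.tv18 κ (S ω) R (hSsym ω) hR1
  choose lam hlam0 hlamt hlamv using hlam
  set T : ℝ := (L : ℝ) ^ ε * (P.card * b) with hT
  have hLε : 0 < (L : ℝ) ^ ε := Real.rpow_pos_of_pos hL0 ε
  have hT0 : 0 < T := by positivity
  have h1 : Pr ρ (fun ω => ¬ NB (S ω) T) ≤ Pr ρ (fun ω => T ^ R < (S ω ^ (2 * R)).trace) := by
    refine Pr_mono hρ fun ω hω => ?_
    by_contra hcon
    rw [not_lt] at hcon
    apply hω
    have h2 : lam ω ^ R ≤ T ^ R := (hlamt ω).trans hcon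
    have h3 : lam ω ≤ T := le_of_pow_le_pow_left₀ (by omega) hT0.le h2
    intro u
    refine (hlamv ω u).trans ?_
    exact mul_le_mul_of_nonneg_right h3 (sum_nonneg fun _ _ => sq_nonneg _)
  have h2 : Pr ρ (fun ω => T ^ R < (S ω ^ (2 * R)).trace) ≤
      Ex ρ (fun ω => (S ω ^ (2 * R)).trace) / T ^ R := by
    refine Pr_markov hρ (fun ω => (S ω ^ (2 * R)).trace) (fun ω => ?_) (by positivity)
    rw [SB30.TV18.trace_eq (hSsym ω)]
    exact sum_nonneg fun _ _ => sum_nonneg fun _ _ => sq_nonneg _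
  have h3 : Ex ρ (fun ω => (S ω ^ (2 * R)).trace) ≤ A * (2 * L) * (b * P.card) ^ R := by
    refine hmom'.trans ?_
    have : (Fintype.card κ : ℝ) ≤ 2 * L := by exact_mod_cast hcard
    gcongr
  have hTR : T ^ R = ((L : ℝ) ^ ε) ^ R * (b * P.card) ^ R := by
    rw [hT, mul_pow, mul_comm (P.card : ℝ) b]
  have h4 : (L : ℝ) ^ (n + 2) ≤ ((L : ℝ) ^ ε) ^ R := by
    rw [← Real.rpow_natCast ((L : ℝ) ^ ε) R, ← Real.rpow_mul hL0.le, ← Real.rpow_natCast]
    refine Real.rpow_le_rpow_of_exponent_le hL1 ?_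
    push_cast
    linarith
  have h5 : Ex ρ (fun ω => (S ω ^ (2 * R)).trace) / T ^ R ≤ 2 * A * 2 ^ n / (L + 1) ^ n := by
    rw [div_le_div_iff₀ (by positivity) (by positivity)]
    have h6 : ((L : ℝ) + 1) ^ n ≤ 2 ^ n * L ^ n := by
      rw [← mul_pow]
      gcongr
      linarith
    have h7 : (L : ℝ) * L ^ n ≤ ((L : ℝ) ^ ε) ^ R := by
      refine le_trans ?_ h4
      rw [← pow_succ']
      exact pow_le_pow_right₀ hL1 (by omega)
    calc Ex ρ (fun ω => (S ω ^ (2 * R)).trace) * ((L : ℝ) + 1) ^ n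
        ≤ (A * (2 * L) * (b * P.card) ^ R) * (2 ^ n * L ^ n) := by
          refine mul_le_mul h3 h6 (by positivity) (by positivity)
      _ = 2 * A * 2 ^ n * ((L * L ^ n) * (b * P.card) ^ R) := by ring
      _ ≤ 2 * A * 2 ^ n * (((L : ℝ) ^ ε) ^ R * (b * P.card) ^ R) := by gcongr
      _ = 2 * A * 2 ^ n * T ^ R := by rw [hTR]
  refine (h1.trans (h2.trans h5)).trans ?_
  gcongr
  linarith


/-- the dilation -/
theorem dil_NB38 {L : ℕ} (A : Matrix (Fin L) (Fin L) ℝ) (b : ℝ) (hb : 0 ≤ b) (h : NB A b) :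
    NB (Matrix.fromBlocks 0 A A.transpose 0) b := by
  intro u
  have h1 := h (fun y => u (Sum.inr y))
  have h2 := nbt_21 _ _ A b hb h (fun y => u (Sum.inl y))
  rw [Fintype.sum_sum_type, Fintype.sum_sum_type]
  have e1 : ∀ x : Fin L, ∑ y, (Matrix.fromBlocks 0 A A.transpose 0) (Sum.inl x) y * u y =
      ∑ y, A x y * u (Sum.inr y) := by
    intro x
    rw [Fintype.sum_sum_type]
    simp
  have e2 : ∀ x : Fin L, ∑ y, (Matrix.fromBlocks 0 A A.transpose 0) (Sum.inr x) y * u y =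
      ∑ y, A.transpose x y * u (Sum.inl y) := by
    intro x
    rw [Fintype.sum_sum_type]
    simp
  have e3 : ∑ x : Fin L, (∑ y, (Matrix.fromBlocks 0 A A.transpose 0) (Sum.inl x) y * u y) ^ 2 =
      ∑ x, (∑ y, A x y * u (Sum.inr y)) ^ 2 := sum_congr rfl fun x _ => by rw [e1 x]
  have e4 : ∑ x : Fin L, (∑ y, (Matrix.fromBlocks 0 A A.transpose 0) (Sum.inr x) y * u y) ^ 2 =
      ∑ x, (∑ y, A.transpose x y * u (Sum.inl y)) ^ 2 := sum_congr rfl fun x _ => by rw [e2 x]
  rw [e3, e4]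
  linarith

theorem NB_of_dil38 {L : ℕ} (A : Matrix (Fin L) (Fin L) ℝ) (b : ℝ)
    (h : NB (Matrix.fromBlocks 0 A A.transpose 0) b) : NB A b := by
  intro w
  have h1 := h (Sum.elim (fun _ => 0) w)
  rw [Fintype.sum_sum_type, Fintype.sum_sum_type] at h1
  have e1 : ∀ x : Fin L, ∑ y, (Matrix.fromBlocks 0 A A.transpose 0) (Sum.inl x) y *
      (Sum.elim (fun _ => 0) w : Fin L ⊕ Fin L → ℝ) y = ∑ y, A x y * w y := by
    intro x
    rw [Fintype.sum_sum_type]
    simp
  rw [sum_congr rfl fun x _ => by rw [e1 x]] at h1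
  have h2 : 0 ≤ ∑ x : Fin L, (∑ y, (Matrix.fromBlocks 0 A A.transpose 0) (Sum.inr x) y *
      (Sum.elim (fun _ => 0) w : Fin L ⊕ Fin L → ℝ) y) ^ 2 := sum_nonneg fun _ _ => sq_nonneg _
  have h3 : b * (∑ x : Fin L, (Sum.elim (fun _ => 0) w : Fin L ⊕ Fin L → ℝ) (Sum.inl x) ^ 2 +
      ∑ x : Fin L, (Sum.elim (fun _ => 0) w : Fin L ⊕ Fin L → ℝ) (Sum.inr x) ^ 2) =
      b * ∑ y, w y ^ 2 := by simp
  rw [h3] at h1
  linarith

theorem frv_38 : StFrv := by
  classical
  intro n ε hε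
  obtain ⟨C1, hC1, hm⟩ := mart38 (alf_74 eeb_36) n ε hε
  refine ⟨C1, hC1, ?_⟩
  intro m L lo hi c K k b ρ G hL hρ hb hhi hK hout hG
  have hL1 : (1 : ℝ) ≤ L := by exact_mod_cast hL
  have hL0 : (0 : ℝ) < L := by linarith
  have hLε : (1 : ℝ) ≤ (L : ℝ) ^ ε := Real.one_le_rpow hL1 hε.le
  have hsub : Ico lo hi ⊆ range L := by
    intro t ht
    rw [mem_Ico] at ht
    rw [mem_range]
    omega
  have hsum : ∀ ω, ∑ t ∈ range L, (sb c t ω - al ρ c t ω) • K t ω =
      ∑ t ∈ Ico lo hi, (sb c t ω - al ρ c t ω) • K t ω := by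
    intro ω
    symm
    refine sum_subset hsub fun t _ ht => ?_
    rw [mem_Ico] at ht
    rw [hout t ω (by omega), smul_zero]
  by_cases hdeg : 0 < b ∧ lo < hi
  · obtain ⟨hb0, hlh⟩ := hdeg
    have hcard : 0 < (Ico lo hi).card := by
      rw [Nat.card_Ico]
      omega
    set W : ℕ → Pt m L → Matrix (Fin L ⊕ Fin L) (Fin L ⊕ Fin L) ℝ := fun t ω =>
      if NB (K t ω) b then Matrix.fromBlocks 0 (K t ω) (K t ω).transpose 0 else 0 with hW
    have hf := hm m L (Ico lo hi) c (Fin L ⊕ Fin L) W k b ρ hL hρ hsub hcard (by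
        rw [Fintype.card_sum, Fintype.card_fin]
        omega) hb0
      (fun t ω => by
        simp only [hW]
        split_ifs
        · unfold Matrix.IsSymm
          rw [Matrix.fromBlocks_transpose, Matrix.transpose_transpose, Matrix.transpose_zero]
        · exact Matrix.isSymm_zero)
      (fun t ω => by
        simp only [hW]
        split_ifs with h
        · exact dil_NB38 _ _ hb h
        · exact NB_zero hb)
      (fun t ω ω' hω => by
        simp only [hW]
        rw [hK t ω ω' hω])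
    refine (Pr_mono hρ fun ω hω => ?_).trans hf
    intro hcon
    refine hω.2 ?_
    rw [hsum ω]
    have e1 : ∑ t ∈ Ico lo hi, (sb c t ω - al ρ c t ω) • W t ω =
        Matrix.fromBlocks 0 (∑ t ∈ Ico lo hi, (sb c t ω - al ρ c t ω) • K t ω)
          (∑ t ∈ Ico lo hi, (sb c t ω - al ρ c t ω) • K t ω).transpose 0 := by
      have e2 : ∀ t, W t ω = Matrix.fromBlocks 0 (K t ω) (K t ω).transpose 0 := by
        intro t
        simp only [hW]
        rw [if_pos (hG ω hω.1 t)]
      ext x y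
      rw [Matrix.sum_apply]
      rcases x with x | x <;> rcases y with y | y
      · simp [e2]
      · simp [e2, Matrix.sum_apply]
      · simp [e2, Matrix.sum_apply]
      · simp [e2]
    rw [e1] at hcon
    refine NB_mono (NB_of_dil38 _ _ hcon) ?_
    rw [Nat.card_Ico]
    have h0 : 0 ≤ (L : ℝ) ^ ε * (((hi - lo : ℕ) : ℝ) * b) := by positivity
    calc (L : ℝ) ^ ε * (((hi - lo : ℕ) : ℝ) * b) ≤
        C1 * ((L : ℝ) ^ ε * (((hi - lo : ℕ) : ℝ) * b)) := by nlinarith
      _ = C1 * (L : ℝ) ^ ε * ((hi - lo : ℕ) : ℝ) * b := by ring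
  · have g1 : Pr ρ (fun ω => G ω ∧ ¬ NB (∑ t ∈ range L, (sb c t ω - al ρ c t ω) • K t ω)
        (C1 * (L : ℝ) ^ ε * ((hi - lo : ℕ) : ℝ) * b)) ≤ Pr ρ (fun _ => False) := by
      refine Pr_mono hρ fun ω hω => hω.2 ?_
      have g2 : ∀ t, K t ω = 0 := by
        intro t
        by_cases hb0 : b = 0
        · ext x y
          have g3 := hG ω hω.1 t (Pi.single y 1)
          rw [hb0, zero_mul] at g3
          have g5 := (sum_eq_zero_iff_of_nonneg (fun x _ => sq_nonneg _)).1
            (le_antisymm g3 (sum_nonneg fun x _ => sq_nonneg _)) x (mem_univ x)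
          have g6 := pow_eq_zero_iff (two_ne_zero) |>.1 g5
          simpa [Pi.single_apply] using g6
        · have hb1 : 0 < b := lt_of_le_of_ne hb (Ne.symm hb0)
          refine hout t ω ?_
          have : ¬ lo < hi := fun h => hdeg ⟨hb1, h⟩
          omega
      rw [sum_congr rfl fun t _ => by rw [g2 t, smul_zero], sum_const_zero]
      exact NB_zero (by positivity)
    refine g1.trans ?_
    have g2 : Pr ρ (fun _ => False) = 0 := by
      unfold Pr
      simp only [if_false]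
      exact Ex_const hρ 0
    rw [g2]
    positivity

end Pool.Agent.SHD
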