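import Mathlib

/-!
# Triangular truncation costs a logarithm
-/

set_option autoImplicit false

namespace Pool.Agent.SHD

open Finset

/-- `j` is the highest binary digit where `x` and `y` differ, and `x` is the larger one. -/
def lev38 (j x y : ℕ) : Prop :=
  x / 2 ^ (j + 1) = y / 2 ^ (j + 1) ∧ (x / 2 ^ j) % 2 = 1 ∧ (y / 2 ^ j) % 2 = 0

instance (j x y : ℕ) : Decidable (lev38 j x y) := by
  unfold lev38
  infer_instance

theorem lev38_succ (j x y : ℕ) : lev38 (j + 1) x y ↔ lev38 j (x / 2) (y / 2) := by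
  unfold lev38
  rw [Nat.div_div_eq_div_mul, Nat.div_div_eq_div_mul, Nat.div_div_eq_div_mul,
    Nat.div_div_eq_div_mul, ← pow_succ', ← pow_succ']

theorem lev38_zero (x y : ℕ) : lev38 0 x y ↔ x / 2 = y / 2 ∧ x % 2 = 1 ∧ y % 2 = 0 := by
  unfold lev38
  simp

theorem sum_lev38 (J : ℕ) : ∀ x y : ℕ, x < 2 ^ J →
    (∑ j ∈ range J, if lev38 j x y then (1 : ℝ) else 0) = if y < x then 1 else 0 := by
  induction J with
  | zero =>
    intro x y hx
    have : x = 0 := by simpa using hx
    subst this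
    simp
  | succ J ih =>
    intro x y hx
    rw [sum_range_succ']
    have h1 : (∑ j ∈ range J, if lev38 (j + 1) x y then (1 : ℝ) else 0) =
        if y / 2 < x / 2 then 1 else 0 := by
      rw [← ih (x / 2) (y / 2) (by rw [pow_succ] at hx; omega)]
      refine sum_congr rfl fun j _ => ?_
      simp only [lev38_succ]
    rw [h1]
    simp only [lev38_zero]
    by_cases h2 : y < x
    · rw [if_pos h2]
      by_cases h3 : y / 2 < x / 2
      · rw [if_pos h3, if_neg (by omega), add_zero]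
      · rw [if_neg h3, if_pos (by omega), zero_add]
    · rw [if_neg h2, if_neg (by omega), if_neg (by omega), add_zero]

theorem tri_level38 (G : ℕ → ℕ → ℝ) (L : ℕ) (B : ℝ) (hB : 0 ≤ B)
    (h : ∀ u : ℕ → ℝ, ∑ x ∈ range L, (∑ y ∈ range L, G x y * u y) ^ 2 ≤
      B * ∑ y ∈ range L, u y ^ 2) (j : ℕ) (u : ℕ → ℝ) :
    ∑ x ∈ range L, (∑ y ∈ range L, (if lev38 j x y then (1 : ℝ) else 0) * (G x y * u y)) ^ 2 ≤
      B * ∑ y ∈ range L, u y ^ 2 := by
  set v : ℕ → ℕ → ℝ := fun k y =>
    if y / 2 ^ (j + 1) = k ∧ (y / 2 ^ j) % 2 = 0 then u y else 0 with hv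
  have h1 : ∀ x, (∑ y ∈ range L, (if lev38 j x y then (1 : ℝ) else 0) * (G x y * u y)) ^ 2 ≤
      (∑ y ∈ range L, G x y * v (x / 2 ^ (j + 1)) y) ^ 2 := by
    intro x
    by_cases hx : (x / 2 ^ j) % 2 = 1
    · refine le_of_eq ?_
      congr 1
      refine sum_congr rfl fun y _ => ?_
      simp only [hv, lev38]
      by_cases hy : y / 2 ^ (j + 1) = x / 2 ^ (j + 1) ∧ (y / 2 ^ j) % 2 = 0
      · rw [if_pos hy, if_pos ⟨hy.1.symm, hx, hy.2⟩, one_mul]
      · rw [if_neg hy, if_neg (fun h' => hy ⟨h'.1.symm, h'.2.2⟩), zero_mul, mul_zero]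
    · have : (∑ y ∈ range L, (if lev38 j x y then (1 : ℝ) else 0) * (G x y * u y)) = 0 := by
        refine sum_eq_zero fun y _ => ?_
        rw [if_neg (fun h' => hx h'.2.1), zero_mul]
      rw [this]
      simpa using sq_nonneg (∑ y ∈ range L, G x y * v (x / 2 ^ (j + 1)) y)
  calc ∑ x ∈ range L, (∑ y ∈ range L, (if lev38 j x y then (1 : ℝ) else 0) * (G x y * u y)) ^ 2
      ≤ ∑ x ∈ range L, (∑ y ∈ range L, G x y * v (x / 2 ^ (j + 1)) y) ^ 2 :=
        sum_le_sum fun x _ => h1 x
    _ ≤ ∑ x ∈ range L, ∑ k ∈ range L, (∑ y ∈ range L, G x y * v k y) ^ 2 := by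
        refine sum_le_sum fun x hx => ?_
        have hk : x / 2 ^ (j + 1) ∈ range L :=
          mem_range.2 (lt_of_le_of_lt (Nat.div_le_self _ _) (mem_range.1 hx))
        exact single_le_sum (f := fun k => (∑ y ∈ range L, G x y * v k y) ^ 2)
          (fun k _ => sq_nonneg _) hk
    _ = ∑ k ∈ range L, ∑ x ∈ range L, (∑ y ∈ range L, G x y * v k y) ^ 2 := sum_comm
    _ ≤ ∑ k ∈ range L, B * ∑ y ∈ range L, v k y ^ 2 := sum_le_sum fun k _ => h (v k)
    _ = B * ∑ y ∈ range L, ∑ k ∈ range L, v k y ^ 2 := by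
        rw [← mul_sum, sum_comm]
    _ ≤ B * ∑ y ∈ range L, u y ^ 2 := by
        refine mul_le_mul_of_nonneg_left (sum_le_sum fun y _ => ?_) hB
        calc ∑ k ∈ range L, v k y ^ 2 ≤ ∑ k ∈ range L, if y / 2 ^ (j + 1) = k then u y ^ 2 else 0 := by
              refine sum_le_sum fun k _ => ?_
              simp only [hv]
              split_ifs with a b c
              · exact le_rfl
              · exact absurd a.1 b
              · simpa using sq_nonneg (u y)
              · simp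
          _ ≤ u y ^ 2 := by
              rw [sum_ite_eq]
              split_ifs
              · exact le_rfl
              · exact sq_nonneg _

/-- Triangular truncation of a kernel. -/
theorem tri_38 (G : ℕ → ℕ → ℝ) (L : ℕ) (B : ℝ)
    (h : ∀ u : ℕ → ℝ, ∑ x ∈ range L, (∑ y ∈ range L, G x y * u y) ^ 2 ≤
      B * ∑ y ∈ range L, u y ^ 2) (u : ℕ → ℝ) :
    ∑ x ∈ range L, (∑ y ∈ range x, G x y * u y) ^ 2 ≤
      ((Nat.log 2 L : ℝ) + 1) ^ 2 * B * ∑ y ∈ range L, u y ^ 2 := by
  rcases Nat.eq_zero_or_pos L with rfl | hL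
  · simp
  have hB : 0 ≤ B := by
    have h1 := h (fun y => if y = 0 then 1 else 0)
    have h2 : ∑ y ∈ range L, (if y = 0 then (1 : ℝ) else 0) ^ 2 = 1 := by
      rw [sum_eq_single 0]
      · simp
      · intro b _ hb
        simp [hb]
      · intro h0
        exact absurd (mem_range.2 hL) h0
    rw [h2, mul_one] at h1
    exact le_trans (sum_nonneg fun x _ => sq_nonneg _) h1
  set J := Nat.log 2 L + 1 with hJ
  have hLJ : L < 2 ^ J := Nat.lt_pow_succ_log_self (by norm_num) L
  have e1 : ∀ x ∈ range L, ∑ y ∈ range x, G x y * u y =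
      ∑ j ∈ range J, ∑ y ∈ range L, (if lev38 j x y then (1 : ℝ) else 0) * (G x y * u y) := by
    intro x hx
    have hxL := mem_range.1 hx
    rw [sum_comm]
    have e2 : ∀ y ∈ range L, (∑ j ∈ range J, (if lev38 j x y then (1 : ℝ) else 0) *
        (G x y * u y)) = if y < x then G x y * u y else 0 := by
      intro y _
      rw [← sum_mul, sum_lev38 J x y (hxL.trans hLJ)]
      split_ifs <;> simp
    rw [sum_congr rfl e2, ← sum_filter]
    refine sum_congr ?_ fun _ _ => rfl
    ext y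
    simp only [mem_range, mem_filter]
    constructor
    · exact fun hy => ⟨hy.trans hxL, hy⟩
    · exact fun hy => hy.2
  calc ∑ x ∈ range L, (∑ y ∈ range x, G x y * u y) ^ 2
      = ∑ x ∈ range L, (∑ j ∈ range J, ∑ y ∈ range L,
          (if lev38 j x y then (1 : ℝ) else 0) * (G x y * u y)) ^ 2 :=
        sum_congr rfl fun x hx => by rw [e1 x hx]
    _ ≤ ∑ x ∈ range L, (J : ℝ) * ∑ j ∈ range J, (∑ y ∈ range L,
          (if lev38 j x y then (1 : ℝ) else 0) * (G x y * u y)) ^ 2 := by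
        refine sum_le_sum fun x _ => ?_
        have := sq_sum_le_card_mul_sum_sq (s := range J) (f := fun j => ∑ y ∈ range L,
          (if lev38 j x y then (1 : ℝ) else 0) * (G x y * u y))
        rwa [card_range] at this
    _ = (J : ℝ) * ∑ j ∈ range J, ∑ x ∈ range L, (∑ y ∈ range L,
          (if lev38 j x y then (1 : ℝ) else 0) * (G x y * u y)) ^ 2 := by
        rw [← mul_sum, sum_comm]
    _ ≤ (J : ℝ) * ∑ j ∈ range J, B * ∑ y ∈ range L, u y ^ 2 := by
        refine mul_le_mul_of_nonneg_left (sum_le_sum fun j _ => ?_) (Nat.cast_nonneg J)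
        exact tri_level38 G L B hB h j u
    _ = ((Nat.log 2 L : ℝ) + 1) ^ 2 * B * ∑ y ∈ range L, u y ^ 2 := by
        rw [sum_const, card_range, nsmul_eq_mul, hJ]
        push_cast
        ring

end Pool.Agent.SHD
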