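import Pool.Agent.Lib.MP_a7b2aa_an.SHD.Stmts3_23
import Pool.Agent.Lib.MP_a7b2aa_an.SHD.Tri38
import Pool.Agent.Lib.MP_a7b2aa_an.SBD.Base30

/-!
SHD3, module KB (helper33): the square function of the coupled kernels, by dyadic couplings.
-/

set_option autoImplicit false

namespace Pool.Agent.SHD

open Finset Pool.Agent.SB3 Pool.Agent.SBT Pool.Agent.SBD

namespace KB33

/-! ### Euclidean lemmas -/

/-- transposed norm bound -/
theorem nbt {κ κ' : Type} [Fintype κ] [Fintype κ'] (A : κ → κ' → ℝ) (b : ℝ) (hb : 0 ≤ b)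
    (h : ∀ u : κ' → ℝ, ∑ x, (∑ y, A x y * u y) ^ 2 ≤ b * ∑ y, u y ^ 2) (w : κ → ℝ) :
    ∑ y, (∑ x, A x y * w x) ^ 2 ≤ b * ∑ x, w x ^ 2 := by
  obtain ⟨z, hz⟩ : ∃ z : κ' → ℝ, z = fun y => ∑ x, A x y * w x := ⟨_, rfl⟩
  have e0 : ∀ y, ∑ x, A x y * w x = z y := fun y => by rw [hz]
  simp only [e0]
  have h1 : ∑ y, z y ^ 2 = ∑ x, w x * ∑ y, A x y * z y := by
    have : ∀ y, z y ^ 2 = ∑ x, w x * (A x y * z y) := by
      intro y
      rw [sq]
      nth_rewrite 1 [← e0 y]
      rw [sum_mul]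
      exact sum_congr rfl fun x _ => by ring
    simp only [this]
    rw [sum_comm]
    exact sum_congr rfl fun x _ => by rw [mul_sum]
  have h2 : (∑ x, w x * ∑ y, A x y * z y) ^ 2 ≤ (∑ x, w x ^ 2) * ∑ x, (∑ y, A x y * z y) ^ 2 :=
    sum_mul_sq_le_sq_mul_sq _ _ _
  have h3 := h z
  have hW : 0 ≤ ∑ x, w x ^ 2 := sum_nonneg fun x _ => sq_nonneg _
  have hZ : 0 ≤ ∑ y, z y ^ 2 := sum_nonneg fun x _ => sq_nonneg _
  rw [← h1] at h2
  rcases hZ.eq_or_lt with h4 | h4
  · rw [← h4]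
    exact mul_nonneg hb hW
  · have h5 : (∑ y, z y ^ 2) * ∑ y, z y ^ 2 ≤ (b * ∑ x, w x ^ 2) * ∑ y, z y ^ 2 := by
      calc (∑ y, z y ^ 2) * ∑ y, z y ^ 2 = (∑ y, z y ^ 2) ^ 2 := by ring
        _ ≤ (∑ x, w x ^ 2) * ∑ x, (∑ y, A x y * z y) ^ 2 := h2
        _ ≤ (∑ x, w x ^ 2) * (b * ∑ y, z y ^ 2) := mul_le_mul_of_nonneg_left h3 hW
        _ = _ := by ring
    exact le_of_mul_le_mul_right h5 h4

/-- disjoint outputs -/
theorem disj {ι : Type} (Ω : Finset ι) (n : ℕ) (F : ℕ → ι → ℝ) (K A : ℝ) (a : ℕ → ℝ)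
    (hK : 0 ≤ K) (t : ι → ℕ) (hd : ∀ i ∈ Ω, ∀ k < n, F k i ≠ 0 → t i = k)
    (hN : ∀ k < n, ∑ i ∈ Ω, F k i ^ 2 ≤ K * a k) (hA : ∑ k ∈ range n, a k ≤ A) :
    ∑ i ∈ Ω, (∑ k ∈ range n, F k i) ^ 2 ≤ K * A := by
  have h1 : ∀ i ∈ Ω, (∑ k ∈ range n, F k i) ^ 2 ≤ ∑ k ∈ range n, F k i ^ 2 := by
    intro i hi
    by_cases ht : t i < n
    · rw [sum_eq_single_of_mem (t i) (mem_range.2 ht)]
      · exact single_le_sum (f := fun k => F k i ^ 2) (fun k _ => sq_nonneg _) (mem_range.2 ht)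
      · intro k hk hkt
        by_contra hne
        exact hkt (hd i hi k (mem_range.1 hk) hne).symm
    · rw [sum_eq_zero]
      · rw [zero_pow two_ne_zero]
        exact sum_nonneg fun k _ => sq_nonneg _
      · intro k hk
        by_contra hne
        have := hd i hi k (mem_range.1 hk) hne
        exact ht (this ▸ mem_range.1 hk)
  calc ∑ i ∈ Ω, (∑ k ∈ range n, F k i) ^ 2 ≤ ∑ i ∈ Ω, ∑ k ∈ range n, F k i ^ 2 := sum_le_sum h1
    _ = ∑ k ∈ range n, ∑ i ∈ Ω, F k i ^ 2 := sum_comm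
    _ ≤ ∑ k ∈ range n, K * a k := sum_le_sum fun k hk => hN k (mem_range.1 hk)
    _ = K * ∑ k ∈ range n, a k := by rw [mul_sum]
    _ ≤ K * A := mul_le_mul_of_nonneg_left hA hK

/-- triangle inequality and Cauchy-Schwarz -/
theorem csum {ι : Type} (Ω : Finset ι) (n : ℕ) (F : ℕ → ι → ℝ) (K A C : ℝ) (a c : ℕ → ℝ)
    (hK : 0 ≤ K) (ha : ∀ k, 0 ≤ a k) (hc : ∀ k, 0 ≤ c k)
    (hN : ∀ k < n, ∑ i ∈ Ω, F k i ^ 2 ≤ K * (a k * c k)) (hA : ∑ k ∈ range n, a k ≤ A)
    (hC : ∑ k ∈ range n, c k ≤ C) :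
    ∑ i ∈ Ω, (∑ k ∈ range n, F k i) ^ 2 ≤ K * (A * C) := by
  have h1 : ∑ i ∈ Ω, (∑ k ∈ range n, F k i) ^ 2 =
      ∑ k ∈ range n, ∑ l ∈ range n, ∑ i ∈ Ω, F k i * F l i := by
    have : ∀ i, (∑ k ∈ range n, F k i) ^ 2 = ∑ k ∈ range n, ∑ l ∈ range n, F k i * F l i := by
      intro i
      rw [sq, sum_mul_sum]
    simp only [this]
    rw [sum_comm]
    refine sum_congr rfl fun k _ => ?_
    rw [sum_comm]
  have h2 : ∀ k < n, √(∑ i ∈ Ω, F k i ^ 2) ≤ √K * (√(a k) * √(c k)) := by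
    intro k hk
    rw [← Real.sqrt_mul (ha k), ← Real.sqrt_mul hK]
    exact Real.sqrt_le_sqrt (hN k hk)
  have hsum : ∑ k ∈ range n, √(∑ i ∈ Ω, F k i ^ 2) ≤ √K * (√A * √C) := by
    calc ∑ k ∈ range n, √(∑ i ∈ Ω, F k i ^ 2)
        ≤ ∑ k ∈ range n, √K * (√(a k) * √(c k)) :=
          sum_le_sum fun k hk => h2 k (mem_range.1 hk)
      _ = √K * ∑ k ∈ range n, √(a k) * √(c k) := by rw [mul_sum]
      _ ≤ √K * (√A * √C) := by
          refine mul_le_mul_of_nonneg_left ?_ (Real.sqrt_nonneg _)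
          calc ∑ k ∈ range n, √(a k) * √(c k) ≤ √(∑ k ∈ range n, a k) * √(∑ k ∈ range n, c k) :=
                Real.sum_sqrt_mul_sqrt_le _ ha hc
            _ ≤ √A * √C := mul_le_mul (Real.sqrt_le_sqrt hA) (Real.sqrt_le_sqrt hC)
                (Real.sqrt_nonneg _) (Real.sqrt_nonneg _)
  have hA0 : 0 ≤ A := (sum_nonneg fun k _ => ha k).trans hA
  have hC0 : 0 ≤ C := (sum_nonneg fun k _ => hc k).trans hC
  rw [h1]
  calc ∑ k ∈ range n, ∑ l ∈ range n, ∑ i ∈ Ω, F k i * F l i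
      ≤ ∑ k ∈ range n, ∑ l ∈ range n, √(∑ i ∈ Ω, F k i ^ 2) * √(∑ i ∈ Ω, F l i ^ 2) :=
        sum_le_sum fun k _ => sum_le_sum fun l _ => Real.sum_mul_le_sqrt_mul_sqrt _ _ _
    _ = (∑ k ∈ range n, √(∑ i ∈ Ω, F k i ^ 2)) ^ 2 := by rw [sq, sum_mul_sum]
    _ ≤ (√K * (√A * √C)) ^ 2 := by
        refine pow_le_pow_left₀ (sum_nonneg fun k _ => Real.sqrt_nonneg _) hsum 2
    _ = K * (A * C) := by
        rw [mul_pow, mul_pow, Real.sq_sqrt hK, Real.sq_sqrt hA0, Real.sq_sqrt hC0]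

/-! ### dyadic intervals -/

/-- lengths of the pieces of a dyadic partition -/
theorem len_sum (lo hi n j : ℕ) (f g : ℕ → ℕ) (hf : ∀ k t, f k ≤ t → t < g k → t / 2 ^ (j + 1) = k) :
    ∑ k ∈ range n, ((min hi (g k) - max lo (f k) : ℕ) : ℝ) ≤ ((hi - lo : ℕ) : ℝ) := by
  have h1 : ∑ k ∈ range n, (min hi (g k) - max lo (f k)) ≤ hi - lo := by
    calc ∑ k ∈ range n, (min hi (g k) - max lo (f k))
        = ∑ k ∈ range n, (Ico (max lo (f k)) (min hi (g k))).card :=
          sum_congr rfl fun k _ => (Nat.card_Ico _ _).symm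
      _ ≤ ∑ k ∈ range n, ((Ico lo hi).filter fun t => t / 2 ^ (j + 1) = k).card := by
          refine sum_le_sum fun k _ => card_le_card ?_
          intro t ht
          rw [mem_Ico] at ht
          rw [mem_filter, mem_Ico]
          exact ⟨⟨(le_max_left _ _).trans ht.1, ht.2.trans_le (min_le_left _ _)⟩,
            hf k t ((le_max_right _ _).trans ht.1) (ht.2.trans_le (min_le_right _ _))⟩
      _ ≤ (Ico lo hi).card := by
          rw [← card_biUnion]
          · refine card_le_card ?_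
            intro t ht
            obtain ⟨k, _, hk⟩ := mem_biUnion.1 ht
            exact (mem_filter.1 hk).1
          · intro k _ l _ hkl
            rw [Function.onFun, disjoint_left]
            intro t ht ht'
            exact hkl ((mem_filter.1 ht).2.symm.trans (mem_filter.1 ht').2)
      _ = hi - lo := Nat.card_Ico _ _
  exact_mod_cast h1

theorem up_iff (j k t : ℕ) : (2 * k + 1) * 2 ^ j ≤ t ∧ t < (2 * k + 2) * 2 ^ j ↔
    t / 2 ^ (j + 1) = k ∧ (t / 2 ^ j) % 2 = 1 := by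
  have hp : 0 < 2 ^ j := by positivity
  have e1 : t / 2 ^ (j + 1) = t / 2 ^ j / 2 := by rw [pow_succ, Nat.div_div_eq_div_mul]
  rw [e1, ← Nat.le_div_iff_mul_le hp, ← Nat.div_lt_iff_lt_mul hp]
  omega

theorem dn_iff (j k t : ℕ) : (2 * k) * 2 ^ j ≤ t ∧ t < (2 * k + 1) * 2 ^ j ↔
    t / 2 ^ (j + 1) = k ∧ (t / 2 ^ j) % 2 = 0 := by
  have hp : 0 < 2 ^ j := by positivity
  have e1 : t / 2 ^ (j + 1) = t / 2 ^ j / 2 := by rw [pow_succ, Nat.div_div_eq_div_mul]
  rw [e1, ← Nat.le_div_iff_mul_le hp, ← Nat.div_lt_iff_lt_mul hp]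
  omega

/-- the dyadic decomposition of `y < x` -/
theorem lt_sum (L x y : ℕ) (hx : x < L) :
    (if y < x then (1 : ℝ) else 0) = ∑ j ∈ range (Nat.log 2 L + 1), ∑ k ∈ range L,
      (if (2 * k + 1) * 2 ^ j ≤ x ∧ x < (2 * k + 2) * 2 ^ j then (1 : ℝ) else 0) *
        (if (2 * k) * 2 ^ j ≤ y ∧ y < (2 * k + 1) * 2 ^ j then 1 else 0) := by
  have hLJ : L < 2 ^ (Nat.log 2 L + 1) := Nat.lt_pow_succ_log_self (by norm_num) L
  rw [← sum_lev38 (Nat.log 2 L + 1) x y (hx.trans hLJ)]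
  refine sum_congr rfl fun j _ => ?_
  simp only [up_iff, dn_iff]
  by_cases h : lev38 j x y
  · rw [if_pos h]
    obtain ⟨h1, h2, h3⟩ := h
    rw [sum_eq_single_of_mem (x / 2 ^ (j + 1))
      (mem_range.2 (lt_of_le_of_lt (Nat.div_le_self _ _) hx))]
    · rw [if_pos ⟨rfl, h2⟩, if_pos ⟨h1.symm, h3⟩, one_mul]
    · intro k _ hk
      rw [if_neg (fun h' => hk h'.1.symm), zero_mul]
  · rw [if_neg h]
    symm
    refine sum_eq_zero fun k _ => ?_
    by_cases h1 : x / 2 ^ (j + 1) = k ∧ x / 2 ^ j % 2 = 1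
    · by_cases h2 : y / 2 ^ (j + 1) = k ∧ y / 2 ^ j % 2 = 0
      · exact absurd ⟨h1.1.trans h2.1.symm, h1.2, h2.2⟩ h
      · rw [if_neg h2, mul_zero]
    · rw [if_neg h1, zero_mul]

/-! ### the kernels -/

variable {m : ℕ}

/-- the function cut to a box -/
noncomputable def cutf (lo hi : Fin (m + 1) → ℕ) (G : (Fin (m + 1) → ℕ) → ℝ)
    (q : Fin (m + 1) → ℕ) : ℝ := if ∀ a, lo a ≤ q a ∧ q a < hi a then G q else 0

theorem cutf_ne {lo hi : Fin (m + 1) → ℕ} {G : (Fin (m + 1) → ℕ) → ℝ} {q : Fin (m + 1) → ℕ}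
    (h : cutf lo hi G q ≠ 0) (a : Fin (m + 1)) : lo a ≤ q a ∧ q a < hi a := by
  unfold cutf at h
  by_contra hne
  exact h (if_neg fun h' => hne (h' a))

theorem cutf_upd (lo hi : Fin (m + 1) → ℕ) (G : (Fin (m + 1) → ℕ) → ℝ) (q : Fin (m + 1) → ℕ)
    (e : Fin (m + 1)) (f g : ℕ) :
    cutf (Function.update lo e (max (lo e) f)) (Function.update hi e (min (hi e) g)) G q =
      (if f ≤ q e ∧ q e < g then (1 : ℝ) else 0) * cutf lo hi G q := by
  unfold cutf
  have key : (∀ a, Function.update lo e (max (lo e) f) a ≤ q a ∧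
      q a < Function.update hi e (min (hi e) g) a) ↔
      (f ≤ q e ∧ q e < g) ∧ ∀ a, lo a ≤ q a ∧ q a < hi a := by
    constructor
    · intro h
      have h1 := h e
      rw [Function.update_self, Function.update_self] at h1
      refine ⟨⟨(le_max_right _ _).trans h1.1, h1.2.trans_le (min_le_right _ _)⟩, fun a => ?_⟩
      by_cases ha : a = e
      · subst ha
        exact ⟨(le_max_left _ _).trans h1.1, h1.2.trans_le (min_le_left _ _)⟩
      · have h2 := h a
        rwa [Function.update_of_ne ha, Function.update_of_ne ha] at h2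
    · rintro ⟨h1, h2⟩ a
      by_cases ha : a = e
      · subst ha
        rw [Function.update_self, Function.update_self]
        exact ⟨max_le (h2 a).1 h1.1, lt_min (h2 a).2 h1.2⟩
      · rw [Function.update_of_ne ha, Function.update_of_ne ha]
        exact h2 a
  by_cases h1 : f ≤ q e ∧ q e < g
  · by_cases h2 : ∀ a, lo a ≤ q a ∧ q a < hi a
    · rw [if_pos (key.2 ⟨h1, h2⟩), if_pos h1, if_pos h2, one_mul]
    · rw [if_neg (fun h => h2 (key.1 h).2), if_neg h2, mul_zero]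
  · rw [if_neg (fun h => h1 (key.1 h).1), if_neg h1, zero_mul]

/-- base point of `p` -/
def pb (q : Fin (m + 1) → ℕ) (a c b : Fin (m + 1)) (x y r : ℕ) : Fin (m + 1) → ℕ :=
  Function.update (Function.update (Function.update q a x) c y) b r

/-- base point of `q'` -/
def qb (b s : Fin (m + 1)) (r u : ℕ) : Fin (m + 1) → ℕ :=
  Function.update (Function.update (fun _ => 0) b r) s u

/-- the kernels, for arbitrary functions -/
noncomputable def Kf (L : ℕ) (T : Finset (Fin (m + 1))) (b s : Fin (m + 1))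
    (U : Finset (Fin (m + 1))) (a c : Fin (m + 1)) (q : Fin (m + 1) → ℕ)
    (A B : (Fin (m + 1) → ℕ) → ℝ) (u x y : ℕ) : ℝ :=
  ∑ r ∈ range L, ∑ q' ∈ fr L ((univ.erase b).erase s) (qb b s r u),
    ∑ p ∈ fr L (U.erase b) (pb q a c b x y r), if ∀ e ∈ T, p e < q' e then A q' * B p else 0

section kern

variable {L : ℕ} {b s : Fin (m + 1)} {U : Finset (Fin (m + 1))} {a c : Fin (m + 1)}
  {q : Fin (m + 1) → ℕ}

theorem Kf_sum {ι : Type} (I : Finset ι) (T T' : Finset (Fin (m + 1)))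
    (A B : (Fin (m + 1) → ℕ) → ℝ) (A' B' : ι → (Fin (m + 1) → ℕ) → ℝ) (u x y : ℕ)
    (h : ∀ r, ∀ q' ∈ fr L ((univ.erase b).erase s) (qb b s r u),
      ∀ p ∈ fr L (U.erase b) (pb q a c b x y r), (if ∀ e ∈ T', p e < q' e then A q' * B p else 0) =
        ∑ i ∈ I, if ∀ e ∈ T, p e < q' e then A' i q' * B' i p else 0) :
    Kf L T' b s U a c q A B u x y = ∑ i ∈ I, Kf L T b s U a c q (A' i) (B' i) u x y := by
  unfold Kf
  symm
  rw [sum_comm]
  refine Finset.sum_congr rfl fun r _ => ?_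
  rw [sum_comm]
  refine Finset.sum_congr rfl fun q' hq' => ?_
  rw [sum_comm]
  exact Finset.sum_congr rfl fun p hp => (h r q' hq' p hp).symm

theorem Kf_ne {T : Finset (Fin (m + 1))} {A B : (Fin (m + 1) → ℕ) → ℝ} {u x y : ℕ}
    (h : Kf L T b s U a c q A B u x y ≠ 0) : ∃ r, ∃ q' ∈ fr L ((univ.erase b).erase s) (qb b s r u),
      ∃ p ∈ fr L (U.erase b) (pb q a c b x y r), A q' ≠ 0 ∧ B p ≠ 0 := by
  by_contra hcon
  push Not at hcon
  apply h
  unfold Kf
  refine sum_eq_zero fun r _ => sum_eq_zero fun q' hq' => sum_eq_zero fun p hp => ?_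
  split_ifs with h4
  · by_cases h5 : A q' = 0
    · rw [h5, zero_mul]
    · rw [hcon r q' hq' p hp h5, mul_zero]
  · rfl

theorem q_s {r u : ℕ} {q' : Fin (m + 1) → ℕ}
    (h : q' ∈ fr L ((univ.erase b).erase s) (qb b s r u)) : q' s = u := by
  rw [mem_fr] at h
  rw [h.2 s (by simp)]
  unfold qb
  rw [Function.update_self]

theorem q_b (hsb : s ≠ b) {r u : ℕ} {q' : Fin (m + 1) → ℕ}
    (h : q' ∈ fr L ((univ.erase b).erase s) (qb b s r u)) : q' b = r := by
  rw [mem_fr] at h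
  rw [h.2 b (by simp)]
  unfold qb
  rw [Function.update_of_ne (Ne.symm hsb), Function.update_self]

theorem p_b {x y r : ℕ} {p : Fin (m + 1) → ℕ} (h : p ∈ fr L (U.erase b) (pb q a c b x y r)) :
    p b = r := by
  rw [mem_fr] at h
  rw [h.2 b (by simp)]
  unfold pb
  rw [Function.update_self]

theorem p_c (hcU : c ∉ U) (hcb : c ≠ b) {x y r : ℕ} {p : Fin (m + 1) → ℕ}
    (h : p ∈ fr L (U.erase b) (pb q a c b x y r)) : p c = y := by
  rw [mem_fr] at h
  rw [h.2 c (fun h' => hcU (mem_of_mem_erase h'))]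
  unfold pb
  rw [Function.update_of_ne hcb, Function.update_self]

theorem p_a (hac : a ≠ c) (haU : a ∉ U) (hab : a ≠ b) {x y r : ℕ} {p : Fin (m + 1) → ℕ}
    (h : p ∈ fr L (U.erase b) (pb q a c b x y r)) : p a = x := by
  rw [mem_fr] at h
  rw [h.2 a (fun h' => haU (mem_of_mem_erase h'))]
  unfold pb
  rw [Function.update_of_ne hab, Function.update_of_ne hac, Function.update_self]

theorem p_e {e : Fin (m + 1)} (heU : e ∉ U) (hea : e ≠ a) (hec : e ≠ c) (heb : e ≠ b) {x y r : ℕ}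
    {p : Fin (m + 1) → ℕ} (h : p ∈ fr L (U.erase b) (pb q a c b x y r)) : p e = q e := by
  rw [mem_fr] at h
  rw [h.2 e (fun h' => heU (mem_of_mem_erase h'))]
  unfold pb
  rw [Function.update_of_ne heb, Function.update_of_ne hec, Function.update_of_ne hea]

/-- `Kf` only depends on the functions on the relevant cells -/
theorem Kf_congr (T T' : Finset (Fin (m + 1))) (A B A' B' : (Fin (m + 1) → ℕ) → ℝ) (u x y : ℕ)
    (h : ∀ r, ∀ q' ∈ fr L ((univ.erase b).erase s) (qb b s r u),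
      ∀ p ∈ fr L (U.erase b) (pb q a c b x y r), (if ∀ e ∈ T', p e < q' e then A q' * B p else 0) =
        if ∀ e ∈ T, p e < q' e then A' q' * B' p else 0) :
    Kf L T' b s U a c q A B u x y = Kf L T b s U a c q A' B' u x y := by
  unfold Kf
  exact sum_congr rfl fun r _ => sum_congr rfl fun q' hq' => sum_congr rfl fun p hp =>
    h r q' hq' p hp

end kern

/-! ### products of lengths -/

theorem bl_nonneg (S : Finset (Fin (m + 1))) (lo hi : Fin (m + 1) → ℕ) : 0 ≤ bl S lo hi :=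
  prod_nonneg fun _ _ => Nat.cast_nonneg _

theorem bl_mem {S : Finset (Fin (m + 1))} {e : Fin (m + 1)} (he : e ∈ S)
    (lo hi : Fin (m + 1) → ℕ) : bl S lo hi = ((hi e - lo e : ℕ) : ℝ) * bl (S.erase e) lo hi := by
  unfold bl
  rw [mul_prod_erase S (fun e => ((hi e - lo e : ℕ) : ℝ)) he]

theorem bl_upd {S : Finset (Fin (m + 1))} {e : Fin (m + 1)} (he : e ∉ S)
    (lo hi : Fin (m + 1) → ℕ) (x y : ℕ) :
    bl S (Function.update lo e x) (Function.update hi e y) = bl S lo hi := by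
  unfold bl
  refine prod_congr rfl fun f hf => ?_
  have hfe : f ≠ e := fun h => he (h ▸ hf)
  rw [Function.update_of_ne hfe, Function.update_of_ne hfe]

theorem bl_upd_mem {S : Finset (Fin (m + 1))} {e : Fin (m + 1)} (he : e ∈ S)
    (lo hi : Fin (m + 1) → ℕ) (x y : ℕ) :
    bl S (Function.update lo e x) (Function.update hi e y) =
      ((y - x : ℕ) : ℝ) * bl (S.erase e) lo hi := by
  rw [bl_mem he, bl_upd (notMem_erase e S), Function.update_self, Function.update_self]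

theorem bl_mono_upd (S : Finset (Fin (m + 1))) (e : Fin (m + 1)) (lo hi : Fin (m + 1) → ℕ) (x : ℕ)
    (hx : lo e ≤ x) : bl S (Function.update lo e x) hi ≤ bl S lo hi := by
  unfold bl
  refine prod_le_prod (fun _ _ => Nat.cast_nonneg _) fun f _ => ?_
  by_cases hf : f = e
  · subst hf
    rw [Function.update_self]
    have : hi f - x ≤ hi f - lo f := by omega
    exact_mod_cast this
  · rw [Function.update_of_ne hf]

/-! ### the induction -/

/-- matrices of arbitrary functions -/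
noncomputable def Mgf (L : ℕ) (U : Finset (Fin (m + 1))) (a c : Fin (m + 1)) (q : Fin (m + 1) → ℕ)
    (G : (Fin (m + 1) → ℕ) → ℝ) (x y : ℕ) : ℝ :=
  ∑ r ∈ fr L U (Function.update (Function.update q a x) c y), G r

/-- the hypotheses -/
structure Hyp (L : ℕ) (β1 β2 : ℝ) (b s : Fin (m + 1)) (U : Finset (Fin (m + 1)))
    (a c : Fin (m + 1)) (Hi' Hi : Fin (m + 1) → ℕ) (G' G : (Fin (m + 1) → ℕ) → ℝ) : Prop where
  b1 : 0 ≤ β1
  b2 : 0 ≤ β2
  bU : b ∈ U
  sb : s ≠ b
  ac : a ≠ c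
  aU : a ∉ U
  cU : c ∉ U
  hi' : ∀ e, Hi' e ≤ L
  hi : ∀ e, Hi e ≤ L
  n1 : ∀ lo2 hi2 q2 : Fin (m + 1) → ℕ, (∀ e, hi2 e ≤ Hi e) → ∀ w : Fin L → ℝ,
    ∑ x : Fin L, (∑ y : Fin L, Mgf L (U.erase b) a c q2 (cutf lo2 hi2 G) x y * w y) ^ 2 ≤
      (β1 * bl (U.erase b) lo2 hi2) * ∑ y, w y ^ 2
  n2 : ∀ lo2 hi2 : Fin (m + 1) → ℕ, (∀ e, hi2 e ≤ Hi' e) → ∀ w : Fin L → ℝ,
    ∑ x : Fin L, (∑ y : Fin L,
        Mgf L ((univ.erase b).erase s) b s (fun _ => 0) (cutf lo2 hi2 G') x y * w y) ^ 2 ≤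
      (β2 * bl ((univ.erase b).erase s) lo2 hi2) * ∑ y, w y ^ 2

/-- the bound -/
def Bd (L : ℕ) (β1 β2 g : ℝ) (b s : Fin (m + 1)) (U : Finset (Fin (m + 1)))
    (a c : Fin (m + 1)) (q Hi' Hi : Fin (m + 1) → ℕ) (G' G : (Fin (m + 1) → ℕ) → ℝ)
    (T : Finset (Fin (m + 1))) : Prop :=
  ∀ lo' hi' lo hi : Fin (m + 1) → ℕ, (∀ e, hi' e ≤ Hi' e) → (∀ e, hi e ≤ Hi e) →
    ∀ w : Fin L → ℝ, ∑ z ∈ range L ×ˢ (univ : Finset (Fin L)),
      (∑ y : Fin L, Kf L T b s U a c q (cutf lo' hi' G') (cutf lo hi G) z.1 z.2 y * w y) ^ 2 ≤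
        g * (β2 * bl ((univ.erase b).erase s) lo' hi') * (β1 * bl U lo hi) * ∑ y, w y ^ 2

section main

variable {L : ℕ} {β1 β2 : ℝ} {b s : Fin (m + 1)} {U : Finset (Fin (m + 1))} {a c : Fin (m + 1)}
  {q Hi' Hi : Fin (m + 1) → ℕ} {G' G : (Fin (m + 1) → ℕ) → ℝ}

/-- no coupling -/
theorem base (h : Hyp L β1 β2 b s U a c Hi' Hi G' G) : Bd L β1 β2 1 b s U a c q Hi' Hi G' G ∅ := by
  intro lo' hi' lo hi hh' hh w
  have hab : a ≠ b := fun e => h.aU (e ▸ h.bU)
  have hcb : c ≠ b := fun e => h.cU (e ▸ h.bU)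
  have hbl' := bl_nonneg ((univ.erase b).erase s) lo' hi'
  have hbl := bl_nonneg (U.erase b) lo hi
  have hW : 0 ≤ ∑ y, w y ^ 2 := sum_nonneg fun x _ => sq_nonneg _
  obtain ⟨B, hB⟩ : ∃ B : ℕ → ℕ → ℝ, B = fun r u =>
    ∑ q' ∈ fr L ((univ.erase b).erase s) (qb b s r u), cutf lo' hi' G' q' := ⟨_, rfl⟩
  obtain ⟨V, hV⟩ : ∃ V : ℕ → ℕ → ℕ → ℝ, V = fun r x y =>
    ∑ p ∈ fr L (U.erase b) (pb q a c b x y r), cutf lo hi G p := ⟨_, rfl⟩
  have e1 : ∀ u x y : ℕ, Kf L ∅ b s U a c q (cutf lo' hi' G') (cutf lo hi G) u x y =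
      ∑ r ∈ range L, B r u * V r x y := by
    intro u x y
    unfold Kf
    refine sum_congr rfl fun r _ => ?_
    rw [hB, hV]
    simp only []
    rw [sum_mul_sum]
    refine sum_congr rfl fun q' _ => sum_congr rfl fun p _ => ?_
    rw [if_pos (by simp)]
  have e2 : ∀ z : ℕ × Fin L, (∑ y : Fin L,
      Kf L ∅ b s U a c q (cutf lo' hi' G') (cutf lo hi G) z.1 z.2 y * w y) =
      ∑ r : Fin L, B r z.1 * ∑ y : Fin L, V r z.2 y * w y := by
    intro z
    simp only [e1]
    rw [← sum_range (fun r => B r z.1 * ∑ y : Fin L, V r z.2 y * w y)]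
    simp only [sum_mul, mul_sum]
    rw [sum_comm]
    exact sum_congr rfl fun r _ => sum_congr rfl fun y _ => by ring
  simp only [e2]
  rw [sum_product_right]
  have hnb := h.n2 lo' hi' hh'
  have hBm : ∀ x y : ℕ, Mgf L ((univ.erase b).erase s) b s (fun _ => 0) (cutf lo' hi' G') x y =
      B x y := by
    intro x y
    rw [hB]
    rfl
  simp only [hBm] at hnb
  have h1 : ∀ x : Fin L, ∑ u ∈ range L, (∑ r : Fin L, B r u * ∑ y : Fin L, V r x y * w y) ^ 2 ≤
      (β2 * bl ((univ.erase b).erase s) lo' hi') * ∑ r : Fin L, (∑ y : Fin L, V r x y * w y) ^ 2 := by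
    intro x
    rw [sum_range (fun u => (∑ r : Fin L, B r u * ∑ y : Fin L, V r x y * w y) ^ 2)]
    exact nbt (fun r u : Fin L => B r u) _ (mul_nonneg h.b2 hbl') hnb
      (fun r => ∑ y : Fin L, V r x y * w y)
  have h2 : ∀ r : ℕ, ∑ x : Fin L, (∑ y : Fin L, V r x y * w y) ^ 2 ≤
      if lo b ≤ r ∧ r < hi b then (β1 * bl (U.erase b) lo hi) * ∑ y, w y ^ 2 else 0 := by
    intro r
    by_cases hr : lo b ≤ r ∧ r < hi b
    · rw [if_pos hr]
      have h3 := h.n1 lo hi (Function.update q b r) hh w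
      have hVm : ∀ x y : ℕ, Mgf L (U.erase b) a c (Function.update q b r) (cutf lo hi G) x y =
          V r x y := by
        intro x y
        rw [hV]
        unfold Mgf pb
        simp only []
        rw [Function.update_comm (Ne.symm hab), Function.update_comm (Ne.symm hcb)]
      simp only [hVm] at h3
      exact h3
    · rw [if_neg hr]
      refine le_of_eq (sum_eq_zero fun x _ => ?_)
      rw [sum_eq_zero, zero_pow two_ne_zero]
      intro y _
      have : V r x y = 0 := by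
        rw [hV]
        refine sum_eq_zero fun p hp => ?_
        by_contra hne
        have := cutf_ne hne b
        rw [p_b hp] at this
        exact hr this
      rw [this, zero_mul]
  calc ∑ x : Fin L, ∑ u ∈ range L, (∑ r : Fin L, B r u * ∑ y : Fin L, V r x y * w y) ^ 2
      ≤ ∑ x : Fin L, (β2 * bl ((univ.erase b).erase s) lo' hi') *
          ∑ r : Fin L, (∑ y : Fin L, V r x y * w y) ^ 2 := sum_le_sum fun x _ => h1 x
    _ = (β2 * bl ((univ.erase b).erase s) lo' hi') *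
          ∑ r ∈ range L, ∑ x : Fin L, (∑ y : Fin L, V r x y * w y) ^ 2 := by
        rw [← mul_sum, sum_comm, sum_range]
    _ ≤ (β2 * bl ((univ.erase b).erase s) lo' hi') *
          ∑ r ∈ range L, (if lo b ≤ r ∧ r < hi b then
            (β1 * bl (U.erase b) lo hi) * ∑ y, w y ^ 2 else 0) :=
        mul_le_mul_of_nonneg_left (sum_le_sum fun r _ => h2 r) (mul_nonneg h.b2 hbl')
    _ ≤ (β2 * bl ((univ.erase b).erase s) lo' hi') *
          (((hi b - lo b : ℕ) : ℝ) * ((β1 * bl (U.erase b) lo hi) * ∑ y, w y ^ 2)) := by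
        refine mul_le_mul_of_nonneg_left ?_ (mul_nonneg h.b2 hbl')
        rw [← sum_filter, sum_const, nsmul_eq_mul]
        refine mul_le_mul_of_nonneg_right ?_ (mul_nonneg (mul_nonneg h.b1 hbl) hW)
        have : ((range L).filter fun r => lo b ≤ r ∧ r < hi b).card ≤ (Ico (lo b) (hi b)).card := by
          refine card_le_card ?_
          intro r hr
          exact mem_Ico.2 (mem_filter.1 hr).2
        rw [Nat.card_Ico] at this
        exact_mod_cast this
    _ = _ := by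
        rw [bl_mem h.bU]
        ring

/-- the condition does not depend on the summed strings: mask -/
theorem mask (h : Hyp L β1 β2 b s U a c Hi' Hi G' G) {T : Finset (Fin (m + 1))} {g : ℝ}
    (hsU : s ∉ U) (hsc : s ≠ c) (ih : Bd L β1 β2 g b s U a c q Hi' Hi G' G T) :
    Bd L β1 β2 g b s U a c q Hi' Hi G' G (insert s T) := by
  intro lo' hi' lo hi hh' hh w
  refine le_trans (sum_le_sum fun z _ => ?_) (ih lo' hi' lo hi hh' hh w)
  obtain ⟨px, hpx⟩ : ∃ px : ℕ, ∀ (r y : ℕ), ∀ p ∈ fr L (U.erase b) (pb q a c b z.2 y r),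
      p s = px := by
    by_cases hsa : s = a
    · subst hsa
      exact ⟨z.2, fun r y p hp => p_a h.ac h.aU h.sb hp⟩
    · exact ⟨q s, fun r y p hp => p_e hsU hsa hsc h.sb hp⟩
  by_cases hlt : px < z.1
  · refine le_of_eq ?_
    congr 1
    refine sum_congr rfl fun y _ => ?_
    congr 1
    refine Kf_congr _ _ _ _ _ _ _ _ _ fun r q' hq' p hp => ?_
    have key : (∀ e ∈ insert s T, p e < q' e) ↔ ∀ e ∈ T, p e < q' e := by
      constructor
      · exact fun h' e he => h' e (mem_insert_of_mem he)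
      · intro h' e he
        rcases mem_insert.1 he with h1 | h1
        · rw [h1, hpx r y p hp, q_s hq']
          exact hlt
        · exact h' e h1
    simp only [key]
  · have : ∑ y : Fin L, Kf L (insert s T) b s U a c q (cutf lo' hi' G') (cutf lo hi G) z.1 z.2 y *
        w y = 0 := by
      refine sum_eq_zero fun y _ => ?_
      have : Kf L (insert s T) b s U a c q (cutf lo' hi' G') (cutf lo hi G) z.1 z.2 y = 0 := by
        unfold Kf
        refine sum_eq_zero fun r _ => sum_eq_zero fun q' hq' => sum_eq_zero fun p hp => ?_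
        rw [if_neg]
        intro h'
        have h1 := h' s (mem_insert_self _ _)
        rw [hpx r y p hp, q_s hq'] at h1
        exact hlt h1
      rw [this, zero_mul]
    rw [this, zero_pow two_ne_zero]
    exact sq_nonneg _

/-- the condition restricts the box of `q'` -/
theorem boxc (h : Hyp L β1 β2 b s U a c Hi' Hi G' G) {T : Finset (Fin (m + 1))} {g : ℝ}
    (hg : 0 ≤ g) {e : Fin (m + 1)} (heU : e ∉ U) (hea : e ≠ a) (hec : e ≠ c) (heb : e ≠ b)
    (ih : Bd L β1 β2 g b s U a c q Hi' Hi G' G T) :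
    Bd L β1 β2 g b s U a c q Hi' Hi G' G (insert e T) := by
  intro lo' hi' lo hi hh' hh w
  have hW : 0 ≤ ∑ y, w y ^ 2 := sum_nonneg fun x _ => sq_nonneg _
  have h1 := ih (Function.update lo' e (max (lo' e) (q e + 1))) hi' lo hi hh' hh w
  have h2 : ∀ z : ℕ × Fin L, ∀ y : Fin L,
      Kf L (insert e T) b s U a c q (cutf lo' hi' G') (cutf lo hi G) z.1 z.2 y =
      Kf L T b s U a c q (cutf (Function.update lo' e (max (lo' e) (q e + 1))) hi' G')
        (cutf lo hi G) z.1 z.2 y := by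
    intro z y
    refine Kf_congr _ _ _ _ _ _ _ _ _ fun r q' hq' p hp => ?_
    have hpe := p_e heU hea hec heb hp
    have hcu := cutf_upd lo' hi' G' q' e (q e + 1) (hi' e)
    rw [min_self, Function.update_eq_self] at hcu
    rw [hcu]
    by_cases h3 : cutf lo' hi' G' q' = 0
    · rw [h3, mul_zero, zero_mul]
      simp
    · have h4 := (cutf_ne h3 e).2
      by_cases h5 : q e < q' e
      · rw [if_pos (⟨h5, h4⟩ : q e + 1 ≤ q' e ∧ q' e < hi' e), one_mul]
        have key : (∀ f ∈ insert e T, p f < q' f) ↔ ∀ f ∈ T, p f < q' f := by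
          constructor
          · exact fun h' f hf => h' f (mem_insert_of_mem hf)
          · intro h' f hf
            rcases mem_insert.1 hf with h6 | h6
            · rw [h6, hpe]
              exact h5
            · exact h' f h6
        simp only [key]
      · rw [if_neg (fun h' : q e + 1 ≤ q' e ∧ q' e < hi' e => h5 h'.1), if_neg (fun h' => ?_)]
        · simp
        · have h6 := h' e (mem_insert_self _ _)
          rw [hpe] at h6
          exact h5 h6
  simp only [h2]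
  refine h1.trans ?_
  have h3 := bl_mono_upd ((univ.erase b).erase s) e lo' hi' (max (lo' e) (q e + 1))
    (le_max_left _ _)
  have h4 := bl_nonneg U lo hi
  refine mul_le_mul_of_nonneg_right (mul_le_mul_of_nonneg_right
    (mul_le_mul_of_nonneg_left (mul_le_mul_of_nonneg_left h3 h.b2) hg)
    (mul_nonneg h.b1 h4)) hW

/-- boxes of the dyadic pieces -/
def lU' (lo : Fin (m + 1) → ℕ) (e : Fin (m + 1)) (j k : ℕ) : Fin (m + 1) → ℕ :=
  Function.update lo e (max (lo e) ((2 * k + 1) * 2 ^ j))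

def hU' (hi : Fin (m + 1) → ℕ) (e : Fin (m + 1)) (j k : ℕ) : Fin (m + 1) → ℕ :=
  Function.update hi e (min (hi e) ((2 * k + 2) * 2 ^ j))

def lU (lo : Fin (m + 1) → ℕ) (e : Fin (m + 1)) (j k : ℕ) : Fin (m + 1) → ℕ :=
  Function.update lo e (max (lo e) ((2 * k) * 2 ^ j))

def hU (hi : Fin (m + 1) → ℕ) (e : Fin (m + 1)) (j k : ℕ) : Fin (m + 1) → ℕ :=
  Function.update hi e (min (hi e) ((2 * k + 1) * 2 ^ j))

theorem hU'_le (hi Hi : Fin (m + 1) → ℕ) (h : ∀ e, hi e ≤ Hi e) (e : Fin (m + 1)) (j k : ℕ)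
    (f : Fin (m + 1)) : hU' hi e j k f ≤ Hi f := by
  unfold hU'
  by_cases hf : f = e
  · subst hf
    rw [Function.update_self]
    exact (min_le_left _ _).trans (h f)
  · rw [Function.update_of_ne hf]
    exact h f

theorem hU_le (hi Hi : Fin (m + 1) → ℕ) (h : ∀ e, hi e ≤ Hi e) (e : Fin (m + 1)) (j k : ℕ)
    (f : Fin (m + 1)) : hU hi e j k f ≤ Hi f := by
  unfold hU
  by_cases hf : f = e
  · subst hf
    rw [Function.update_self]
    exact (min_le_left _ _).trans (h f)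
  · rw [Function.update_of_ne hf]
    exact h f

/-- the kernel of a dyadic piece -/
noncomputable def Kj (L : ℕ) (T : Finset (Fin (m + 1))) (b s : Fin (m + 1))
    (U : Finset (Fin (m + 1))) (a c : Fin (m + 1)) (q lo' hi' lo hi : Fin (m + 1) → ℕ)
    (G' G : (Fin (m + 1) → ℕ) → ℝ) (e : Fin (m + 1)) (j k u x y : ℕ) : ℝ :=
  Kf L T b s U a c q (cutf (lU' lo' e j k) (hU' hi' e j k) G')
    (cutf (lU lo e j k) (hU hi e j k) G) u x y

theorem split_pt (T : Finset (Fin (m + 1))) (lo' hi' lo hi : Fin (m + 1) → ℕ)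
    (hh' : ∀ e, hi' e ≤ L) (e : Fin (m + 1)) (q' p : Fin (m + 1) → ℕ) :
    (if ∀ f ∈ insert e T, p f < q' f then cutf lo' hi' G' q' * cutf lo hi G p else 0) =
      ∑ z ∈ range (Nat.log 2 L + 1) ×ˢ range L, if ∀ f ∈ T, p f < q' f then
        cutf (lU' lo' e z.1 z.2) (hU' hi' e z.1 z.2) G' q' *
          cutf (lU lo e z.1 z.2) (hU hi e z.1 z.2) G p else 0 := by
  simp only [lU', hU', lU, hU, cutf_upd]
  by_cases h3 : cutf lo' hi' G' q' = 0
  · rw [h3, zero_mul]
    simp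
  · have h4 := ((cutf_ne h3 e).2).trans_le (hh' e)
    have h5 := lt_sum L (q' e) (p e) h4
    rw [← sum_product'] at h5
    have h6 : (if ∀ f ∈ insert e T, p f < q' f then cutf lo' hi' G' q' * cutf lo hi G p else 0) =
        (if p e < q' e then (1 : ℝ) else 0) *
          (if ∀ f ∈ T, p f < q' f then cutf lo' hi' G' q' * cutf lo hi G p else 0) := by
      by_cases h7 : p e < q' e
      · rw [if_pos h7, one_mul]
        have key : (∀ f ∈ insert e T, p f < q' f) ↔ ∀ f ∈ T, p f < q' f := by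
          constructor
          · exact fun h' f hf => h' f (mem_insert_of_mem hf)
          · intro h' f hf
            rcases mem_insert.1 hf with h8 | h8
            · rw [h8]
              exact h7
            · exact h' f h8
        simp only [key]
      · rw [if_neg h7, zero_mul, if_neg fun h' => h7 (h' e (mem_insert_self _ _))]
    rw [h6, h5, sum_mul]
    refine sum_congr rfl fun z _ => ?_
    by_cases h7 : ∀ f ∈ T, p f < q' f
    · rw [if_pos h7, if_pos h7]
      ring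
    · rw [if_neg h7, if_neg h7, mul_zero]

theorem split (T : Finset (Fin (m + 1))) (lo' hi' lo hi : Fin (m + 1) → ℕ)
    (hh' : ∀ e, hi' e ≤ L) (e : Fin (m + 1)) (u x y : ℕ) :
    Kf L (insert e T) b s U a c q (cutf lo' hi' G') (cutf lo hi G) u x y =
      ∑ j ∈ range (Nat.log 2 L + 1), ∑ k ∈ range L,
        Kj L T b s U a c q lo' hi' lo hi G' G e j k u x y := by
  have hmain : Kf L (insert e T) b s U a c q (cutf lo' hi' G') (cutf lo hi G) u x y =
      ∑ z ∈ range (Nat.log 2 L + 1) ×ˢ range L, Kf L T b s U a c q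
        (cutf (lU' lo' e z.1 z.2) (hU' hi' e z.1 z.2) G')
        (cutf (lU lo e z.1 z.2) (hU hi e z.1 z.2) G) u x y := by
    refine Kf_sum (range (Nat.log 2 L + 1) ×ˢ range L) T (insert e T) (cutf lo' hi' G')
      (cutf lo hi G) (fun z => cutf (lU' lo' e z.1 z.2) (hU' hi' e z.1 z.2) G')
      (fun z => cutf (lU lo e z.1 z.2) (hU hi e z.1 z.2) G) u x y fun r q' _ p _ => ?_
    exact split_pt T lo' hi' lo hi hh' e q' p
  rw [hmain, sum_product]
  rfl
/-- one dyadic level suffices -/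
theorem dy_step (T : Finset (Fin (m + 1))) (lo' hi' lo hi : Fin (m + 1) → ℕ)
    (hh' : ∀ e, hi' e ≤ L) (e : Fin (m + 1)) (w : Fin L → ℝ) (K : ℝ)
    (hlev : ∀ j, ∑ z ∈ range L ×ˢ (univ : Finset (Fin L)), (∑ k ∈ range L, ∑ y : Fin L,
      Kj L T b s U a c q lo' hi' lo hi G' G e j k z.1 z.2 y * w y) ^ 2 ≤ K) :
    ∑ z ∈ range L ×ˢ (univ : Finset (Fin L)), (∑ y : Fin L,
      Kf L (insert e T) b s U a c q (cutf lo' hi' G') (cutf lo hi G) z.1 z.2 y * w y) ^ 2 ≤
      ((Nat.log 2 L : ℝ) + 1) ^ 2 * K := by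
  have e1 : ∀ z : ℕ × Fin L, ∑ y : Fin L,
      Kf L (insert e T) b s U a c q (cutf lo' hi' G') (cutf lo hi G) z.1 z.2 y * w y =
      ∑ j ∈ range (Nat.log 2 L + 1), ∑ k ∈ range L, ∑ y : Fin L,
        Kj L T b s U a c q lo' hi' lo hi G' G e j k z.1 z.2 y * w y := by
    intro z
    simp only [split T lo' hi' lo hi hh' e, sum_mul]
    rw [sum_comm]
    refine sum_congr rfl fun j _ => ?_
    rw [sum_comm]
  simp only [e1]
  calc ∑ z ∈ range L ×ˢ (univ : Finset (Fin L)), (∑ j ∈ range (Nat.log 2 L + 1), ∑ k ∈ range L,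
        ∑ y : Fin L, Kj L T b s U a c q lo' hi' lo hi G' G e j k z.1 z.2 y * w y) ^ 2
      ≤ ∑ z ∈ range L ×ˢ (univ : Finset (Fin L)), ((Nat.log 2 L + 1 : ℕ) : ℝ) *
          ∑ j ∈ range (Nat.log 2 L + 1), (∑ k ∈ range L, ∑ y : Fin L,
            Kj L T b s U a c q lo' hi' lo hi G' G e j k z.1 z.2 y * w y) ^ 2 := by
        refine sum_le_sum fun z _ => ?_
        have := sq_sum_le_card_mul_sum_sq (s := range (Nat.log 2 L + 1)) (f := fun j =>
          ∑ k ∈ range L, ∑ y : Fin L, Kj L T b s U a c q lo' hi' lo hi G' G e j k z.1 z.2 y * w y)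
        rwa [card_range] at this
    _ = ((Nat.log 2 L + 1 : ℕ) : ℝ) * ∑ j ∈ range (Nat.log 2 L + 1),
          ∑ z ∈ range L ×ˢ (univ : Finset (Fin L)), (∑ k ∈ range L, ∑ y : Fin L,
            Kj L T b s U a c q lo' hi' lo hi G' G e j k z.1 z.2 y * w y) ^ 2 := by
        rw [← mul_sum, sum_comm]
    _ ≤ ((Nat.log 2 L + 1 : ℕ) : ℝ) * ∑ j ∈ range (Nat.log 2 L + 1), K :=
        mul_le_mul_of_nonneg_left (sum_le_sum fun j _ => hlev j) (Nat.cast_nonneg _)
    _ = ((Nat.log 2 L : ℝ) + 1) ^ 2 * K := by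
        rw [sum_const, card_range, nsmul_eq_mul]
        push_cast
        ring

/-- length of a piece, `q'` side -/
noncomputable def ln' (lo hi : Fin (m + 1) → ℕ) (e : Fin (m + 1)) (j k : ℕ) : ℝ :=
  ((min (hi e) ((2 * k + 2) * 2 ^ j) - max (lo e) ((2 * k + 1) * 2 ^ j) : ℕ) : ℝ)

/-- length of a piece, `p` side -/
noncomputable def ln (lo hi : Fin (m + 1) → ℕ) (e : Fin (m + 1)) (j k : ℕ) : ℝ :=
  ((min (hi e) ((2 * k + 1) * 2 ^ j) - max (lo e) ((2 * k) * 2 ^ j) : ℕ) : ℝ)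

theorem ln'_sum (lo hi : Fin (m + 1) → ℕ) (e : Fin (m + 1)) (j n : ℕ) :
    ∑ k ∈ range n, ln' lo hi e j k ≤ ((hi e - lo e : ℕ) : ℝ) :=
  len_sum (lo e) (hi e) n j (fun k => (2 * k + 1) * 2 ^ j) (fun k => (2 * k + 2) * 2 ^ j)
    fun k t h1 h2 => ((up_iff j k t).1 ⟨h1, h2⟩).1

theorem ln_sum (lo hi : Fin (m + 1) → ℕ) (e : Fin (m + 1)) (j n : ℕ) :
    ∑ k ∈ range n, ln lo hi e j k ≤ ((hi e - lo e : ℕ) : ℝ) :=
  len_sum (lo e) (hi e) n j (fun k => (2 * k) * 2 ^ j) (fun k => (2 * k + 1) * 2 ^ j)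
    fun k t h1 h2 => ((dn_iff j k t).1 ⟨h1, h2⟩).1

theorem ln'_nonneg (lo hi : Fin (m + 1) → ℕ) (e : Fin (m + 1)) (j k : ℕ) :
    0 ≤ ln' lo hi e j k := Nat.cast_nonneg _

theorem ln_nonneg (lo hi : Fin (m + 1) → ℕ) (e : Fin (m + 1)) (j k : ℕ) :
    0 ≤ ln lo hi e j k := Nat.cast_nonneg _

/-- nonzero entries of a piece -/
theorem Kj_ne {T : Finset (Fin (m + 1))} {lo' hi' lo hi : Fin (m + 1) → ℕ} {e : Fin (m + 1)}
    {j k u x y : ℕ} (hK : Kj L T b s U a c q lo' hi' lo hi G' G e j k u x y ≠ 0) :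
    ∃ r, ∃ q' ∈ fr L ((univ.erase b).erase s) (qb b s r u),
      ∃ p ∈ fr L (U.erase b) (pb q a c b x y r), q' e / 2 ^ (j + 1) = k ∧
        p e / 2 ^ (j + 1) = k ∧ (p e / 2 ^ j) % 2 = 0 := by
  unfold Kj at hK
  obtain ⟨r, q', hq', p, hp, h1, h2⟩ := Kf_ne hK
  refine ⟨r, q', hq', p, hp, ?_, ?_⟩
  · have h3 := cutf_ne h1 e
    unfold lU' hU' at h3
    rw [Function.update_self, Function.update_self] at h3
    exact ((up_iff j k _).1 ⟨(le_max_right _ _).trans h3.1, h3.2.trans_le (min_le_right _ _)⟩).1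
  · have h3 := cutf_ne h2 e
    unfold lU hU at h3
    rw [Function.update_self, Function.update_self] at h3
    exact (dn_iff j k _).1 ⟨(le_max_right _ _).trans h3.1, h3.2.trans_le (min_le_right _ _)⟩

/-- the vector restricted to a piece -/
noncomputable def wk {L : ℕ} (w : Fin L → ℝ) (j k : ℕ) (y : Fin L) : ℝ :=
  if (y : ℕ) / 2 ^ (j + 1) = k ∧ ((y : ℕ) / 2 ^ j) % 2 = 0 then w y else 0

theorem wk_sum (w : Fin L → ℝ) (j n : ℕ) :
    ∑ k ∈ range n, ∑ y, wk w j k y ^ 2 ≤ ∑ y, w y ^ 2 := by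
  rw [sum_comm]
  refine sum_le_sum fun y _ => ?_
  calc ∑ k ∈ range n, wk w j k y ^ 2
      ≤ ∑ k ∈ range n, if (y : ℕ) / 2 ^ (j + 1) = k then w y ^ 2 else 0 := by
        refine sum_le_sum fun k _ => ?_
        unfold wk
        split_ifs with h1 h2 h3
        · exact le_rfl
        · exact absurd h1.1 h2
        · simpa using sq_nonneg (w y)
        · simp
    _ ≤ w y ^ 2 := by
        rw [sum_ite_eq]
        split_ifs
        · exact le_rfl
        · exact sq_nonneg _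

theorem exists_y {F : ℕ → ℝ} {w : Fin L → ℝ} (h : ∑ y : Fin L, F y * w y ≠ 0) :
    ∃ y : Fin L, F y ≠ 0 := by
  by_contra hcon
  push Not at hcon
  apply h
  exact sum_eq_zero fun y _ => by rw [hcon y, zero_mul]

/-- the dyadic step -/
theorem dy (h : Hyp L β1 β2 b s U a c Hi' Hi G' G) {T : Finset (Fin (m + 1))} {g : ℝ} (hg : 0 ≤ g)
    {e : Fin (m + 1)} (heb : e ≠ b) (hcase : e ∈ U ∨ e = c ∨ (e = a ∧ e ≠ s))
    (ih : Bd L β1 β2 g b s U a c q Hi' Hi G' G T) :
    Bd L β1 β2 (g * ((Nat.log 2 L : ℝ) + 1) ^ 2) b s U a c q Hi' Hi G' G (insert e T) := by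
  intro lo' hi' lo hi hh' hh w
  have hab : a ≠ b := fun e => h.aU (e ▸ h.bU)
  have hcb : c ≠ b := fun e => h.cU (e ▸ h.bU)
  have hW : 0 ≤ ∑ y, w y ^ 2 := sum_nonneg fun x _ => sq_nonneg _
  obtain ⟨S, hS⟩ : ∃ S : Finset (Fin (m + 1)), S = (univ.erase b).erase s := ⟨_, rfl⟩
  have hb1 := h.b1
  have hb2 := h.b2
  have hSe := bl_nonneg (S.erase e) lo' hi'
  have hS0 := bl_nonneg S lo' hi'
  have hUe := bl_nonneg (U.erase e) lo hi
  have hU0 := bl_nonneg U lo hi
  have fin : ∑ z ∈ range L ×ˢ (univ : Finset (Fin L)), (∑ y : Fin L,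
      Kf L (insert e T) b s U a c q (cutf lo' hi' G') (cutf lo hi G) z.1 z.2 y * w y) ^ 2 ≤
      ((Nat.log 2 L : ℝ) + 1) ^ 2 * (g * (β2 * bl S lo' hi') * (β1 * bl U lo hi) *
        ∑ y, w y ^ 2) := by
    refine dy_step T lo' hi' lo hi (fun f => (hh' f).trans (h.hi' f)) e w _ fun j => ?_
    have ihk : ∀ (k : ℕ) (w' : Fin L → ℝ), ∑ z ∈ range L ×ˢ (univ : Finset (Fin L)),
        (∑ y : Fin L, Kj L T b s U a c q lo' hi' lo hi G' G e j k z.1 z.2 y * w' y) ^ 2 ≤
        g * (β2 * bl S (lU' lo' e j k) (hU' hi' e j k)) *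
          (β1 * bl U (lU lo e j k) (hU hi e j k)) * ∑ y, w' y ^ 2 := by
      intro k w'
      rw [hS]
      exact ih (lU' lo' e j k) (hU' hi' e j k) (lU lo e j k) (hU hi e j k)
        (hU'_le hi' Hi' hh' e j k) (hU_le hi Hi hh e j k) w'
    have bS : e ∈ S → ∀ k, bl S (lU' lo' e j k) (hU' hi' e j k) =
        ln' lo' hi' e j k * bl (S.erase e) lo' hi' := fun he k => bl_upd_mem he _ _ _ _
    have bS' : e ∉ S → ∀ k, bl S (lU' lo' e j k) (hU' hi' e j k) = bl S lo' hi' :=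
      fun he k => bl_upd he _ _ _ _
    have bU : e ∈ U → ∀ k, bl U (lU lo e j k) (hU hi e j k) =
        ln lo hi e j k * bl (U.erase e) lo hi := fun he k => bl_upd_mem he _ _ _ _
    have bU' : e ∉ U → ∀ k, bl U (lU lo e j k) (hU hi e j k) = bl U lo hi :=
      fun he k => bl_upd he _ _ _ _
    by_cases hes : e = s
    · -- `e = s`: disjoint in `u`
      have heS : e ∉ S := by
        rw [hS, hes]
        exact notMem_erase s _
      have hdis : ∀ z ∈ range L ×ˢ (univ : Finset (Fin L)), ∀ k < L, ∑ y : Fin L,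
          Kj L T b s U a c q lo' hi' lo hi G' G e j k z.1 z.2 y * w y ≠ 0 →
          z.1 / 2 ^ (j + 1) = k := by
        intro z _ k _ hne
        obtain ⟨y, hy⟩ := exists_y hne
        obtain ⟨r, q', hq', p, hp, h1, _⟩ := Kj_ne hy
        rw [hes, q_s hq'] at h1
        exact h1
      by_cases heU : e ∈ U
      · refine (disj _ L _ (g * (β2 * bl S lo' hi') * (β1 * bl (U.erase e) lo hi) *
          ∑ y, w y ^ 2) ((hi e - lo e : ℕ) : ℝ) (fun k => ln lo hi e j k) (by positivity)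
          (fun z => z.1 / 2 ^ (j + 1)) hdis (fun k _ => ?_) (ln_sum lo hi e j L)).trans (le_of_eq ?_)
        · refine (ihk k w).trans (le_of_eq ?_)
          rw [bS' heS, bU heU]
          ring
        · rw [bl_mem heU]
          ring
      · have hec : e = c := by
          rcases hcase with h1 | h1 | h1
          · exact absurd h1 heU
          · exact h1
          · exact absurd hes h1.2
        refine (disj _ L _ (g * (β2 * bl S lo' hi') * (β1 * bl U lo hi)) (∑ y, w y ^ 2)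
          (fun k => ∑ y, wk w j k y ^ 2) (by positivity)
          (fun z => z.1 / 2 ^ (j + 1)) hdis (fun k _ => ?_) (wk_sum w j L)).trans (le_of_eq ?_)
        · have e1 : ∀ z : ℕ × Fin L, ∑ y : Fin L,
              Kj L T b s U a c q lo' hi' lo hi G' G e j k z.1 z.2 y * w y =
              ∑ y : Fin L, Kj L T b s U a c q lo' hi' lo hi G' G e j k z.1 z.2 y * wk w j k y := by
            intro z
            refine sum_congr rfl fun y _ => ?_
            by_cases hK : Kj L T b s U a c q lo' hi' lo hi G' G e j k z.1 z.2 y = 0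
            · rw [hK, zero_mul, zero_mul]
            · obtain ⟨r, q', hq', p, hp, _, h2⟩ := Kj_ne hK
              rw [hec, p_c h.cU hcb hp] at h2
              unfold wk
              rw [if_pos h2]
          simp only [e1]
          refine (ihk k (wk w j k)).trans (le_of_eq ?_)
          rw [bS' heS, bU' heU]
        · ring
    · have heS : e ∈ S := by
        rw [hS]
        exact mem_erase.2 ⟨hes, mem_erase.2 ⟨heb, mem_univ _⟩⟩
      by_cases heU : e ∈ U
      · refine (csum _ L _ (g * (β2 * bl (S.erase e) lo' hi') * (β1 * bl (U.erase e) lo hi) *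
          ∑ y, w y ^ 2) ((hi' e - lo' e : ℕ) : ℝ) ((hi e - lo e : ℕ) : ℝ)
          (fun k => ln' lo' hi' e j k) (fun k => ln lo hi e j k) (by positivity)
          (fun k => ln'_nonneg _ _ _ _ _) (fun k => ln_nonneg _ _ _ _ _) (fun k _ => ?_)
          (ln'_sum lo' hi' e j L) (ln_sum lo hi e j L)).trans (le_of_eq ?_)
        · refine (ihk k w).trans (le_of_eq ?_)
          rw [bS heS, bU heU]
          ring
        · rw [bl_mem heU, bl_mem heS]
          ring
      · by_cases hec : e = c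
        · refine (csum _ L _ (g * (β2 * bl (S.erase e) lo' hi') * (β1 * bl U lo hi))
            ((hi' e - lo' e : ℕ) : ℝ) (∑ y, w y ^ 2)
            (fun k => ln' lo' hi' e j k) (fun k => ∑ y, wk w j k y ^ 2) (by positivity)
            (fun k => ln'_nonneg _ _ _ _ _) (fun k => sum_nonneg fun y _ => sq_nonneg _)
            (fun k _ => ?_) (ln'_sum lo' hi' e j L) (wk_sum w j L)).trans (le_of_eq ?_)
          · have e1 : ∀ z : ℕ × Fin L, ∑ y : Fin L,
                Kj L T b s U a c q lo' hi' lo hi G' G e j k z.1 z.2 y * w y =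
                ∑ y : Fin L, Kj L T b s U a c q lo' hi' lo hi G' G e j k z.1 z.2 y *
                  wk w j k y := by
              intro z
              refine sum_congr rfl fun y _ => ?_
              by_cases hK : Kj L T b s U a c q lo' hi' lo hi G' G e j k z.1 z.2 y = 0
              · rw [hK, zero_mul, zero_mul]
              · obtain ⟨r, q', hq', p, hp, _, h2⟩ := Kj_ne hK
                rw [hec, p_c h.cU hcb hp] at h2
                unfold wk
                rw [if_pos h2]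
            simp only [e1]
            refine (ihk k (wk w j k)).trans (le_of_eq ?_)
            rw [bS heS, bU' heU]
            ring
          · rw [bl_mem heS]
            ring
        · have hea : e = a := by
            rcases hcase with h1 | h1 | h1
            · exact absurd h1 heU
            · exact absurd h1 hec
            · exact h1.1
          have hdis : ∀ z ∈ range L ×ˢ (univ : Finset (Fin L)), ∀ k < L, ∑ y : Fin L,
              Kj L T b s U a c q lo' hi' lo hi G' G e j k z.1 z.2 y * w y ≠ 0 →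
              (z.2 : ℕ) / 2 ^ (j + 1) = k := by
            intro z _ k _ hne
            obtain ⟨y, hy⟩ := exists_y hne
            obtain ⟨r, q', hq', p, hp, _, h1, _⟩ := Kj_ne hy
            rw [hea, p_a h.ac h.aU hab hp] at h1
            exact h1
          refine (disj _ L _ (g * (β2 * bl (S.erase e) lo' hi') * (β1 * bl U lo hi) *
            ∑ y, w y ^ 2) ((hi' e - lo' e : ℕ) : ℝ) (fun k => ln' lo' hi' e j k) (by positivity)
            (fun z => (z.2 : ℕ) / 2 ^ (j + 1)) hdis (fun k _ => ?_)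
            (ln'_sum lo' hi' e j L)).trans (le_of_eq ?_)
          · refine (ihk k w).trans (le_of_eq ?_)
            rw [bS heS, bU' heU]
            ring
          · rw [bl_mem heS]
            ring
  rw [hS] at fin
  refine fin.trans (le_of_eq ?_)
  ring

/-- the induction -/
theorem all (h : Hyp L β1 β2 b s U a c Hi' Hi G' G) : ∀ T : Finset (Fin (m + 1)), b ∉ T →
    Bd L β1 β2 (((Nat.log 2 L : ℝ) + 1) ^ (2 * T.card)) b s U a c q Hi' Hi G' G T := by
  intro T
  have hg1 : (1 : ℝ) ≤ (Nat.log 2 L : ℝ) + 1 := by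
    have : (0 : ℝ) ≤ (Nat.log 2 L : ℝ) := Nat.cast_nonneg _
    linarith
  induction T using Finset.induction_on with
  | empty =>
    intro _
    rw [card_empty, mul_zero, pow_zero]
    exact base h
  | insert e T he ih =>
    intro hbT
    have heb : e ≠ b := fun h' => hbT (h' ▸ mem_insert_self e T)
    have ih' := ih (fun h' => hbT (mem_insert_of_mem h'))
    have hg0 : (0 : ℝ) ≤ ((Nat.log 2 L : ℝ) + 1) ^ (2 * T.card) := by positivity
    have hexp : ((Nat.log 2 L : ℝ) + 1) ^ (2 * (insert e T).card) =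
        ((Nat.log 2 L : ℝ) + 1) ^ (2 * T.card) * ((Nat.log 2 L : ℝ) + 1) ^ 2 := by
      rw [card_insert_of_notMem he, ← pow_add, mul_add]
    have weak : Bd L β1 β2 (((Nat.log 2 L : ℝ) + 1) ^ (2 * T.card)) b s U a c q Hi' Hi G' G
        (insert e T) → Bd L β1 β2 (((Nat.log 2 L : ℝ) + 1) ^ (2 * (insert e T).card)) b s U a c q
        Hi' Hi G' G (insert e T) := by
      intro h1 lo' hi' lo hi hh' hh w
      refine (h1 lo' hi' lo hi hh' hh w).trans ?_
      have hW : 0 ≤ ∑ y, w y ^ 2 := sum_nonneg fun x _ => sq_nonneg _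
      have hS0 := bl_nonneg ((univ.erase b).erase s) lo' hi'
      have hU0 := bl_nonneg U lo hi
      have hb1 := h.b1
      have hb2 := h.b2
      have h2 : ((Nat.log 2 L : ℝ) + 1) ^ (2 * T.card) ≤
          ((Nat.log 2 L : ℝ) + 1) ^ (2 * (insert e T).card) :=
        pow_le_pow_right₀ hg1 (by rw [card_insert_of_notMem he]; omega)
      exact mul_le_mul_of_nonneg_right (mul_le_mul_of_nonneg_right
        (mul_le_mul_of_nonneg_right h2 (by positivity)) (by positivity)) hW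
    by_cases heU : e ∈ U
    · rw [hexp]
      exact dy h hg0 heb (Or.inl heU) ih'
    · by_cases hec : e = c
      · rw [hexp]
        exact dy h hg0 heb (Or.inr (Or.inl hec)) ih'
      · by_cases hes : e = s
        · apply weak
          subst hes
          exact mask h heU hec ih'
        · by_cases hea : e = a
          · rw [hexp]
            exact dy h hg0 heb (Or.inr (Or.inr ⟨hea, hes⟩)) ih'
          · apply weak
            exact boxc h hg0 heU hea hec heb ih'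

end main

/-- the cut array -/
theorem cutf_eq {L : ℕ} (S : Finset (Fin (m + 1))) (lo hi : Fin (m + 1) → ℕ)
    (v : (Fin (m + 1) → ℕ) → Pt m L → ℝ) (ω : Pt m L) (p : Fin (m + 1) → ℕ) :
    cutf lo hi (fun p => ps S p ω * v p ω) p = ps S p ω * cut lo hi v p ω := by
  unfold cutf cut
  split_ifs
  · rfl
  · rw [mul_zero]

end KB33

open KB33 in
/-- **KB** -/
theorem kb_33 : StKb := by
  intro m L β1 β2 T b s U a c q v lo' hi' lo hi ω h1 h2 hbU hsb hac haU hcU hbT hhi' hhi hn1 hn2 w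
  have hyp : Hyp L β1 β2 b s U a c hi' hi
      (fun p => ps ((univ.erase b).erase s) p ω * v p ω) (fun p => ps (U.erase b) p ω * v p ω) := by
    refine ⟨h1, h2, hbU, hsb, hac, haU, hcU, hhi', hhi, ?_, ?_⟩
    · intro lo2 hi2 q2 hle w'
      have h3 := hn1 lo2 hi2 q2 hle w'
      unfold Mgf
      simp only [cutf_eq]
      exact h3
    · intro lo2 hi2 hle w'
      have h3 := hn2 lo2 hi2 hle w'
      unfold Mgf
      simp only [cutf_eq]
      exact h3
  have h3 := all (q := q) hyp T hbT lo' hi' lo hi (fun _ => le_rfl) (fun _ => le_rfl) w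
  rw [sum_product] at h3
  unfold Kf at h3
  simp only [cutf_eq] at h3
  exact h3

end Pool.Agent.SHD
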