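import Pool.Agent.Lib.MP_a7b2aa_an.SHD.Stmts3_23

/-! SHD3, modules KMS, HQU, GTN (helper30). -/

set_option autoImplicit false

namespace Pool.Agent.SHD

open Finset Pool.Agent.SB3 Pool.Agent.SBT Pool.Agent.SBD

namespace K30

variable {m L : ℕ}

theorem Ms_cut {lo hi : Fin (m + 1) → ℕ} {v : (Fin (m + 1) → ℕ) → Pt m L → ℝ}
    (hv : ∀ q, Ms q (v q)) (q : Fin (m + 1) → ℕ) : Ms q (cut lo hi v q) := by
  intro ω ω' hω
  unfold cut
  rw [hv q ω ω' hω]

/-- products of signs below `u` in the string `s` -/
theorem Ms_ps_lt {U : Finset (Fin (m + 1))} {s : Fin (m + 1)} {p : Fin (m + 1) → ℕ} {u : ℕ}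
    (h : s ∈ U → p s < u) : Ms (one L s u) (ps (L := L) U p) := by
  unfold ps
  refine Ms.prod U fun c hc => ?_
  by_cases hcs : c = s
  · subst hcs
    refine Ms_sb ?_
    simpa [one] using h hc
  · exact Ms_sb_one hcs _ _

theorem Ms_matrix {κ κ' : Type} {q : Fin (m + 1) → ℕ} {A : Pt m L → Matrix κ κ' ℝ}
    (h : ∀ x y, Ms q (fun ω => A ω x y)) : Ms q A := by
  intro ω ω' hω
  ext x y
  exact h x y ω ω' hω

theorem Ms_term {b s : Fin (m + 1)} {T U : Finset (Fin (m + 1))}
    {v : (Fin (m + 1) → ℕ) → Pt m L → ℝ} (hv : ∀ q, Ms q (v q)) (hsT : s ∈ T) {u : ℕ}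
    {lo' hi' lo hi q' p : Fin (m + 1) → ℕ} (hq : q' s = u) :
    Ms (one L s u) (fun ω => if ∀ e ∈ T, p e < q' e then
        (ps ((univ.erase b).erase s) q' ω * cut lo' hi' v q' ω) *
          (ps U p ω * cut lo hi v p ω) else 0) := by
  by_cases h : ∀ e ∈ T, p e < q' e
  · simp only [if_pos h]
    have hps : p s < u := hq ▸ h s hsT
    refine Ms.comp2 (Ms.comp2 (Ms_ps_one (by simp) q' u) ((Ms_cut hv q').one s u hq.le)
      (fun x y => x * y)) (Ms.comp2 (Ms_ps_lt fun _ => hps) ((Ms_cut hv p).one s u hps.le)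
      (fun x y => x * y)) (fun x y => x * y)
  · simp only [if_neg h]
    exact Ms.cst _ 0

end K30

open K30 in
/-- KMS -/
theorem kms_30 : StKms := by
  intro m L N R T b s U a c q v lo' hi' lo hi i u hv hsT hsb
  have hq : ∀ r : ℕ, ∀ q' ∈ fr L ((univ.erase b).erase s)
      (Function.update (Function.update (fun _ => 0) b r) s u), q' s = u := by
    intro r q' hq'
    have := (mem_fr.1 hq').2 s (by simp)
    simpa using this
  constructor
  · refine Ms_matrix fun x y => ?_
    unfold KK
    simp only [Matrix.of_apply]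
    exact Ms.sum _ fun r _ => Ms.sum _ fun q' hq' => Ms.sum _ fun p _ =>
      Ms_term hv.dep hsT (hq r q' hq')
  · unfold k1
    exact Ms.sum _ fun r _ => Ms.sum _ fun q' hq' => Ms.sum _ fun p _ =>
      Ms_term hv.dep hsT (hq r q' hq')

/-- HQU -/
theorem hqu_30 : StHqu := by
  intro m L j v ω r hj hr
  constructor
  · intro b hb
    have hU : insert 0 ((Inn m).erase b) = (univ : Finset (Fin (m + 1))).erase b := by
      ext a
      simp only [Inn, mem_insert, mem_erase, mem_univ, and_true]
      by_cases h0 : a = 0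
      · subst h0
        simp [Ne.symm hb]
      · simp [h0]
    unfold hq uu
    rw [← hU, sum_fr_insert (by simp [Inn])]
    have h1 : ∀ t ∈ range L, ∑ q ∈ fr L ((Inn m).erase b) (Function.update (fun _ => r) 0 t),
        ps (insert 0 ((Inn m).erase b)) q ω * cut (fun _ => 0) (jb L j) v q ω =
        if t < j then sb 0 t ω * Bm b v t r ω else 0 := by
      intro t ht
      rw [mem_range] at ht
      have hfr : fr L ((Inn m).erase b) (Function.update (fun _ => r) 0 t) =
          fr L ((Inn m).erase b) (Function.update (fun _ => t) b r) := by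
        refine fr_congr fun a ha => ?_
        by_cases h0 : a = 0
        · subst h0
          simp [Function.update_of_ne (Ne.symm hb)]
        · have hab : a = b := by
            by_contra hne
            exact ha (by simp [Inn, hne, h0])
          subst hab
          simp [h0]
      have hpt : ∀ q ∈ fr L ((Inn m).erase b) (Function.update (fun _ => r) 0 t),
          (ps (insert 0 ((Inn m).erase b)) q ω * cut (fun _ => 0) (jb L j) v q ω =
          if t < j then sb 0 t ω * (ps ((Inn m).erase b) q ω * v q ω) else 0) := by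
        intro q hq
        have hq0 : q 0 = t := by
          have := (mem_fr.1 hq).2 0 (by simp [Inn])
          simpa using this
        have hqL : ∀ a, q a < L := by
          intro a
          by_cases ha : a ∈ (Inn m).erase b
          · exact (mem_fr.1 hq).1 a ha
          · have := (mem_fr.1 hq).2 a ha
            rw [this]
            by_cases h0 : a = 0
            · subst h0
              simpa using ht
            · rw [Function.update_of_ne h0]
              exact hr
        rw [ps_insert (by simp [Inn]), hq0]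
        unfold cut
        have : (∀ a, (fun _ => 0 : Fin (m + 1) → ℕ) a ≤ q a ∧ q a < jb L j a) ↔ t < j := by
          constructor
          · intro h
            have := (h 0).2
            rw [hq0] at this
            simpa [jb] using this
          · intro h a
            refine ⟨Nat.zero_le _, ?_⟩
            by_cases h0 : a = 0
            · subst h0
              rw [hq0]
              simpa [jb] using h
            · unfold jb
              rw [Function.update_of_ne h0]
              exact hqL a
        by_cases htj : t < j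
        · rw [if_pos (this.2 htj), if_pos htj]
          ring
        · rw [if_neg (fun h => htj (this.1 h)), if_neg htj, mul_zero]
      rw [sum_congr rfl hpt]
      by_cases htj : t < j
      · simp only [htj, if_true]
        unfold Bm
        rw [← mul_sum, hfr]
      · simp [htj]
    rw [sum_congr rfl h1, ← sum_filter]
    refine sum_congr ?_ fun _ _ => rfl
    ext t
    simp only [mem_filter, mem_range]
    omega
  · unfold hq XX
    have hpt : ∀ q ∈ fr L (univ.erase (0 : Fin (m + 1))) (fun _ => r),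
        (ps (univ.erase 0) q ω * cut (fun _ => 0) (jb L j) v q ω =
        if r < j then ps (Inn m) q ω * v q ω else 0) := by
      intro q hq
      have hq0 : q 0 = r := (mem_fr.1 hq).2 0 (by simp)
      unfold cut Inn
      have : (∀ a, (fun _ => 0 : Fin (m + 1) → ℕ) a ≤ q a ∧ q a < jb L j a) ↔ r < j := by
        constructor
        · intro h
          have := (h 0).2
          rw [hq0] at this
          simpa [jb] using this
        · intro h a
          refine ⟨Nat.zero_le _, ?_⟩
          by_cases h0 : a = 0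
          · subst h0
            rw [hq0]
            simpa [jb] using h
          · unfold jb
            rw [Function.update_of_ne h0]
            exact (mem_fr.1 hq).1 a (by simp [h0])
      by_cases hrj : r < j
      · rw [if_pos (this.2 hrj), if_pos hrj]
      · rw [if_neg (fun h => hrj (this.1 h)), if_neg hrj, mul_zero]
    rw [sum_congr rfl hpt]
    by_cases hrj : r < j
    · simp only [hrj, if_true]
      rfl
    · simp [hrj]

namespace K30

variable {m L : ℕ}

theorem cut_lt {lo hi : Fin (m + 1) → ℕ} {v : (Fin (m + 1) → ℕ) → Pt m L → ℝ}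
    {q : Fin (m + 1) → ℕ} (a : Fin (m + 1)) (h : ¬ q a < hi a) (ω : Pt m L) :
    cut lo hi v q ω = 0 := by
  unfold cut
  rw [if_neg]
  intro h'
  exact h (h' a).2

theorem Ms_Mg {v : (Fin (m + 1) → ℕ) → Pt m L → ℝ} (hv : ∀ q, Ms q (v q))
    (U : Finset (Fin (m + 1))) (a c : Fin (m + 1)) (q lo hi : Fin (m + 1) → ℕ) (j : ℕ)
    (h : Ad L j U hi) : Ms (one L 0 j) (Mg U a c q (cut lo hi v)) := by
  refine Ms_matrix fun x y => ?_
  unfold Mg
  simp only [Matrix.of_apply]
  refine Ms.sum _ fun r hr => ?_
  by_cases hr0 : r 0 < hi 0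
  · refine Ms.comp2 (Ms_ps_lt fun h0 => lt_of_lt_of_le hr0 (h.2.1 h0)) ?_ (fun x y => x * y)
    refine (Ms_cut hv r).one 0 j ?_
    by_cases h0 : 0 ∈ U
    · have := h.2.1 h0
      omega
    · have := h.2.2 h0
      omega
  · have : (fun ω => ps U r ω * cut lo hi v r ω) = fun _ => (0 : ℝ) := by
      funext ω
      rw [cut_lt 0 hr0, mul_zero]
    rw [this]
    exact Ms.cst _ 0

theorem Ms_XX {v : (Fin (m + 1) → ℕ) → Pt m L → ℝ} (hv : ∀ q, Ms q (v q))
    (lo hi : Fin (m + 1) → ℕ) (i j : ℕ) (h : hi 0 ≤ j + 1) :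
    Ms (one L 0 j) (XX (cut lo hi v) i) := by
  unfold XX
  refine Ms.sum _ fun r hr => ?_
  by_cases hr0 : r 0 < hi 0
  · exact Ms.comp2 (Ms_ps_one (by simp [Inn]) r j) ((Ms_cut hv r).one 0 j (by omega))
      (fun x y => x * y)
  · have : (fun ω => ps (Inn m) r ω * cut lo hi v r ω) = fun _ => (0 : ℝ) := by
      funext ω
      rw [cut_lt 0 hr0, mul_zero]
    rw [this]
    exact Ms.cst _ 0

theorem Ms_XX' {v : (Fin (m + 1) → ℕ) → Pt m L → ℝ} (hv : ∀ q, Ms q (v q))
    (l j : ℕ) (h : l ≤ j) : Ms (one L 0 j) (XX v l) := by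
  unfold XX
  refine Ms.sum _ fun r hr => ?_
  have hr0 : r 0 = l := (mem_fr.1 hr).2 0 (by simp [Inn])
  exact Ms.comp2 (Ms_ps_one (by simp [Inn]) r j) ((hv r).one 0 j (by omega)) (fun x y => x * y)

theorem Ms_prop {q : Fin (m + 1) → ℕ} {P : Pt m L → Prop} (h : ∀ ω ω', cl q ω' ω → P ω → P ω') :
    Ms q P := by
  intro ω ω' hω
  exact propext ⟨fun hP => h ω' ω (cl_symm hω) hP, fun hP => h ω ω' hω hP⟩

theorem Ad_mono {L i j : ℕ} (hij : i ≤ j) {U : Finset (Fin (m + 1))} {hi : Fin (m + 1) → ℕ}
    (h : Ad L i U hi) : Ad L j U hi :=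
  ⟨h.1, fun h0 => (h.2.1 h0).trans hij, fun h0 => (h.2.2 h0).trans (by omega)⟩

end K30

open K30 in
/-- GTN -/
theorem gtn_30 : StGtN := by
  classical
  intro m L N R β B D lam bb v hv hβ hbb hB
  -- the condition
  have hgn : ∀ j ω, gn β B D lam v j ω = 1 → (j < L ∧ Nt β v j m ω ∧ Ns B v j ω ∧
      ∀ i ≤ j, lam * ∑ l ∈ range i, sb 0 l ω * XX v l ω ≤ D) := by
    intro j ω h
    unfold gn at h
    by_contra hn
    rw [if_neg hn] at h
    exact zero_ne_one h
  have hgn1 : ∀ j ω, (j < L ∧ Nt β v j m ω ∧ Ns B v j ω ∧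
      ∀ i ≤ j, lam * ∑ l ∈ range i, sb 0 l ω * XX v l ω ≤ D) → gn β B D lam v j ω = 1 := by
    intro j ω h
    unfold gn
    rw [if_pos h]
  have hzo : ∀ j ω, gn β B D lam v j ω = 0 ∨ gn β B D lam v j ω = 1 := by
    intro j ω
    unfold gn
    split_ifs
    · right; rfl
    · left; rfl
  refine ⟨⟨hzo, ?_, ?_⟩, ⟨?_, ?_⟩⟩
  · intro j ω ω' hω
    have key : ∀ ω ω', cl (one L 0 j) ω' ω → gn β B D lam v j ω = 1 →
        gn β B D lam v j ω' = 1 := by
      intro ω ω' hω h
      obtain ⟨h1, h2, h3, h4⟩ := hgn j ω h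
      refine hgn1 j ω' ⟨h1, ?_, ?_, ?_⟩
      · intro lo hi U a c q hAd hac haU hcU hcard
        have := h2 lo hi U a c q hAd hac haU hcU hcard
        rwa [Ms_Mg hv.dep U a c q lo hi j hAd ω ω' hω]
      · intro lo hi hhi h0 i
        have := h3 lo hi hhi h0 i
        rwa [Ms_XX hv.dep lo hi i j h0 ω ω' hω]
      · intro i hi
        have := h4 i hi
        have e : ∀ l ∈ range i, sb 0 l ω' * XX v l ω' = sb 0 l ω * XX v l ω := by
          intro l hl
          rw [mem_range] at hl
          rw [Ms_XX' hv.dep l j (by omega) ω ω' hω,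
            Ms_sb (q := one L 0 j) (a := 0) (t := l) (by
              simp [one]
              omega) ω ω' hω]
        rwa [sum_congr rfl e]
    rcases hzo j ω with h | h
    · rcases hzo j ω' with h' | h'
      · rw [h, h']
      · rw [key ω' ω (cl_symm hω) h', h']
    · rw [h, key ω ω' hω h]
  · intro i j ω hij h
    obtain ⟨h1, h2, h3, h4⟩ := hgn j ω h
    refine hgn1 i ω ⟨by omega, ?_, ?_, fun i' hi' => h4 i' (hi'.trans hij)⟩
    · intro lo hi U a c q hAd hac haU hcU hcard
      exact h2 lo hi U a c q (Ad_mono hij hAd) hac haU hcU hcard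
    · intro lo hi hhi h0 i'
      exact h3 lo hi hhi (h0.trans (by omega)) i'
  · intro j ω hj h lo hi h0 hhi U t q h0U htU ht0
    obtain ⟨h1, h2, h3, h4⟩ := hgn j ω h
    have hcard : U.card ≤ m := by
      have : U ⊆ univ.erase 0 := by
        intro a ha
        rw [mem_erase]
        exact ⟨fun h => h0U (h ▸ ha), mem_univ _⟩
      have := card_le_card this
      rw [card_erase_of_mem (mem_univ _), card_univ, Fintype.card_fin] at this
      simpa using this
    have h5 := h2 lo hi U 0 t q ⟨hhi, fun h => absurd h h0U, fun _ => h0⟩ (Ne.symm ht0) h0U htU hcard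
    intro w
    refine (h5 w).trans ?_
    refine mul_le_mul_of_nonneg_right ?_ (sum_nonneg fun _ _ => sq_nonneg _)
    refine le_trans ?_ (hbb U.card hcard)
    refine mul_le_mul_of_nonneg_left ?_ (hβ _)
    unfold bl
    refine (prod_le_prod (fun _ _ => Nat.cast_nonneg _) (g := fun _ => (L : ℝ)) fun e _ => ?_).trans
      (by rw [prod_const])
    have := hhi e
    exact_mod_cast (by omega : hi e - lo e ≤ L)
  · intro j ω hj h lo hi h0 hhi i
    obtain ⟨h1, h2, h3, h4⟩ := hgn j ω h
    exact (h3 lo hi hhi h0 i).trans hB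

end Pool.Agent.SHD
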