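import Pool.Agent.Lib.MP_a7b2aa_an.SHD.Stmts3_23
import Pool.Agent.Lib.MP_a7b2aa_an.SHD.NbtExalg21
import Pool.Agent.Lib.MP_a7b2aa_an.SHD.Tri38
import Pool.Agent.Lib.MP_a7b2aa_an.SBD.OP60
import Pool.Agent.Lib.MP_a7b2aa_an.SBD.Alf74
import Pool.Agent.Lib.MP_a7b2aa_an.SBD.EEB36

/-!
SHD3, modules TRI and MF4 (helper38).

MF4 from FRV: with `τ = B / √L` every matrix `K` is `τ Y + K Yᵀ K`, where
`Y = K (τ + Kᵀ K)⁻¹` has norm at most `1 / (2 √τ)`. The matrices `τ Y` have squared norm at most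
`τ / 4`, so FRV gives `L ^ ε L τ / 4`; the second part is bounded at every point by
Cauchy-Schwarz and the two square functions.
-/

set_option autoImplicit false

namespace Pool.Agent.SHD

open Finset Pool.Agent.SB3 Pool.Agent.SBT Pool.Agent.SBD

theorem triS_38 : StTri := fun L G B _ h u => tri_38 G L B h u

section soft

variable {κ : Type} [Fintype κ] [DecidableEq κ]

/-- the soft truncation of a matrix -/
theorem soft38 (τ : ℝ) (hτ : 0 < τ) (A : Matrix κ κ ℝ) :
    ∃ Y : Matrix κ κ ℝ, NB Y (1 / (4 * τ)) ∧ A = τ • Y + A * Y.transpose * A := by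
  set M : Matrix κ κ ℝ := τ • (1 : Matrix κ κ ℝ) + A.transpose * A with hM
  have key : ∀ y : κ → ℝ, 4 * τ * ∑ x, (A.mulVec y) x ^ 2 ≤ ∑ x, (M.mulVec y) x ^ 2 ∧
      τ ^ 2 * ∑ x, y x ^ 2 ≤ ∑ x, (M.mulVec y) x ^ 2 := by
    intro y
    set z : κ → ℝ := A.transpose.mulVec (A.mulVec y) with hz
    have e1 : ∀ x, (M.mulVec y) x = τ * y x + z x := by
      intro x
      rw [hM, Matrix.add_mulVec, Matrix.smul_mulVec, Matrix.one_mulVec, hz,
        Matrix.mulVec_mulVec]
      rfl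
    have e2 : ∑ x, y x * z x = ∑ x, (A.mulVec y) x ^ 2 := by
      have h1 : y ⬝ᵥ A.transpose.mulVec (A.mulVec y) = (A.mulVec y) ⬝ᵥ (A.mulVec y) := by
        rw [Matrix.dotProduct_mulVec, Matrix.vecMul_transpose]
      have h2 : ∑ x, y x * z x = y ⬝ᵥ A.transpose.mulVec (A.mulVec y) := rfl
      rw [h2, h1]
      unfold dotProduct
      exact sum_congr rfl fun x _ => by ring
    have e3 : ∑ x, (M.mulVec y) x ^ 2 =
        τ ^ 2 * ∑ x, y x ^ 2 + 2 * τ * ∑ x, (A.mulVec y) x ^ 2 + ∑ x, z x ^ 2 := by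
      rw [← e2, mul_sum, mul_sum, ← sum_add_distrib, ← sum_add_distrib]
      exact sum_congr rfl fun x _ => by rw [e1 x]; ring
    have h0 : 0 ≤ ∑ x, (A.mulVec y) x ^ 2 := sum_nonneg fun _ _ => sq_nonneg _
    have h1 : 0 ≤ ∑ x, z x ^ 2 := sum_nonneg fun _ _ => sq_nonneg _
    have h2 : 0 ≤ ∑ x, (τ * y x - z x) ^ 2 := sum_nonneg fun _ _ => sq_nonneg _
    have h3 : ∑ x, (τ * y x - z x) ^ 2 =
        τ ^ 2 * ∑ x, y x ^ 2 - 2 * τ * ∑ x, (A.mulVec y) x ^ 2 + ∑ x, z x ^ 2 := by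
      rw [← e2, mul_sum, mul_sum, ← sum_sub_distrib, ← sum_add_distrib]
      exact sum_congr rfl fun x _ => by ring
    rw [e3]
    constructor
    · nlinarith
    · have : 0 ≤ τ * ∑ x, (A.mulVec y) x ^ 2 := mul_nonneg hτ.le h0
      linarith
  have hinj : Function.Injective M.mulVec := by
    intro y y' hyy
    have h1 : M.mulVec (y - y') = 0 := by
      rw [Matrix.mulVec_sub, sub_eq_zero]
      exact hyy
    have h2 := (key (y - y')).2
    rw [h1] at h2
    have h3 : ∑ x, (y - y') x ^ 2 ≤ 0 := by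
      have h4 : τ ^ 2 * ∑ x, (y - y') x ^ 2 ≤ 0 := by simpa using h2
      by_contra hcon
      rw [not_le] at hcon
      have : 0 < τ ^ 2 * ∑ x, (y - y') x ^ 2 := by positivity
      linarith
    have h4 : ∀ x ∈ (univ : Finset κ), (y - y') x ^ 2 = 0 :=
      (sum_eq_zero_iff_of_nonneg fun x _ => sq_nonneg _).1
        (le_antisymm h3 (sum_nonneg fun _ _ => sq_nonneg _))
    funext x
    have h5 := pow_eq_zero_iff (two_ne_zero) |>.1 (h4 x (mem_univ x))
    rw [Pi.sub_apply, sub_eq_zero] at h5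
    exact h5
  have hU : IsUnit M := Matrix.mulVec_injective_iff_isUnit.1 hinj
  have hU' : IsUnit M.det := (Matrix.isUnit_iff_isUnit_det M).1 hU
  have hMs : M.transpose = M := by
    rw [hM, Matrix.transpose_add, Matrix.transpose_smul, Matrix.transpose_one,
      Matrix.transpose_mul, Matrix.transpose_transpose]
  set Y : Matrix κ κ ℝ := A * M⁻¹ with hY
  have hYM : Y * M = A := by
    rw [hY, Matrix.mul_assoc, Matrix.nonsing_inv_mul M hU', Matrix.mul_one]
  have hYA : A * Y.transpose = Y * A.transpose := by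
    rw [hY, Matrix.transpose_mul, Matrix.transpose_nonsing_inv, hMs, Matrix.mul_assoc]
  refine ⟨Y, ?_, ?_⟩
  · intro u
    have h1 := (key (M⁻¹.mulVec u)).1
    rw [Matrix.mulVec_mulVec, Matrix.mulVec_mulVec, Matrix.mul_nonsing_inv M hU',
      Matrix.one_mulVec] at h1
    have h2 : ∑ x, (∑ y, Y x y * u y) ^ 2 = ∑ x, (Y.mulVec u) x ^ 2 := rfl
    rw [h2, div_mul_eq_mul_div, one_mul, le_div_iff₀ (by positivity)]
    rw [hY]
    linarith
  · rw [hYA, Matrix.mul_assoc]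
    conv_lhs => rw [← hYM, hM, Matrix.mul_add, Matrix.mul_smul, Matrix.mul_one]

omit [DecidableEq κ] in
/-- Cauchy-Schwarz for the second part -/
theorem large38 (L : ℕ) (D : ℕ → ℝ) (A Y : ℕ → Matrix κ κ ℝ) (B τ : ℝ) (hτ : 0 < τ)
    (hB : 0 ≤ B) (hD : ∀ t, |D t| ≤ 2) (hY : ∀ t, NB (Y t).transpose (1 / (4 * τ)))
    (h1 : ∀ w : κ → ℝ, ∑ t ∈ range L, ∑ x, (∑ y, A t x y * w y) ^ 2 ≤ B * ∑ y, w y ^ 2)
    (h2 : ∀ w : κ → ℝ, ∑ t ∈ range L, ∑ y, (∑ x, A t x y * w x) ^ 2 ≤ B * ∑ x, w x ^ 2) :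
    NB (∑ t ∈ range L, D t • (A t * (Y t).transpose * A t)) (B ^ 2 / τ) := by
  intro w
  set v : κ → ℝ := fun x => ∑ y, (∑ t ∈ range L, D t • (A t * (Y t).transpose * A t)) x y * w y
    with hv
  set p : ℕ → κ → ℝ := fun t => (A t).transpose.mulVec v with hp
  set r : ℕ → κ → ℝ := fun t => (Y t).transpose.mulVec ((A t).mulVec w) with hr
  have hvv : ∀ x, v x = ∑ t ∈ range L, D t * (A t).mulVec (r t) x := by
    intro x
    have e1 : v = (∑ t ∈ range L, D t • (A t * (Y t).transpose * A t)).mulVec w := rfl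
    rw [e1, Matrix.sum_mulVec, Finset.sum_apply]
    refine sum_congr rfl fun t _ => ?_
    rw [Matrix.smul_mulVec, Pi.smul_apply, smul_eq_mul, hr, Matrix.mulVec_mulVec,
      Matrix.mulVec_mulVec, Matrix.mul_assoc]
  have hS : ∑ x, v x ^ 2 = ∑ t ∈ range L, ∑ x, (D t * p t x) * r t x := by
    have e1 : ∀ t, v ⬝ᵥ (A t).mulVec (r t) = (p t) ⬝ᵥ (r t) := by
      intro t
      rw [Matrix.dotProduct_mulVec]
      show Matrix.vecMul v (A t) ⬝ᵥ r t = (A t).transpose.mulVec v ⬝ᵥ r t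
      rw [Matrix.mulVec_transpose]
    have e2 : ∑ x, v x ^ 2 = ∑ x, ∑ t ∈ range L, D t * (v x * (A t).mulVec (r t) x) := by
      refine sum_congr rfl fun x _ => ?_
      rw [pow_two]
      nth_rewrite 2 [hvv x]
      rw [mul_sum]
      exact sum_congr rfl fun t _ => by ring
    rw [e2, sum_comm]
    refine sum_congr rfl fun t _ => ?_
    rw [← mul_sum]
    have e3 : ∑ x, v x * (A t).mulVec (r t) x = v ⬝ᵥ (A t).mulVec (r t) := rfl
    rw [e3, e1 t]
    unfold dotProduct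
    rw [mul_sum]
    exact sum_congr rfl fun x _ => by ring
  have hCS : (∑ t ∈ range L, ∑ x, (D t * p t x) * r t x) ^ 2 ≤
      (∑ t ∈ range L, ∑ x, (D t * p t x) ^ 2) * ∑ t ∈ range L, ∑ x, r t x ^ 2 := by
    rw [← sum_product', ← sum_product', ← sum_product']
    exact sum_mul_sq_le_sq_mul_sq _ _ _
  have hP : ∑ t ∈ range L, ∑ x, (D t * p t x) ^ 2 ≤ 4 * (B * ∑ x, v x ^ 2) := by
    refine le_trans ?_ (mul_le_mul_of_nonneg_left (h2 v) (by norm_num : (0 : ℝ) ≤ 4))
    rw [mul_sum]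
    refine sum_le_sum fun t _ => ?_
    rw [mul_sum]
    refine sum_le_sum fun x _ => ?_
    have e1 : p t x = ∑ y, A t y x * v y := rfl
    rw [← e1, mul_pow]
    have e2 : D t ^ 2 ≤ 4 := by
      have := abs_le.1 (hD t)
      nlinarith [this.1, this.2]
    exact mul_le_mul_of_nonneg_right e2 (sq_nonneg _)
  have hR : ∑ t ∈ range L, ∑ x, r t x ^ 2 ≤ 1 / (4 * τ) * (B * ∑ x, w x ^ 2) := by
    refine le_trans ?_ (mul_le_mul_of_nonneg_left (h1 w) (by positivity))
    rw [mul_sum]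
    exact sum_le_sum fun t _ => hY t ((A t).mulVec w)
  have hv0 : 0 ≤ ∑ x, v x ^ 2 := sum_nonneg fun _ _ => sq_nonneg _
  have hw0 : 0 ≤ ∑ x, w x ^ 2 := sum_nonneg fun _ _ => sq_nonneg _
  have hR0 : 0 ≤ ∑ t ∈ range L, ∑ x, r t x ^ 2 :=
    sum_nonneg fun _ _ => sum_nonneg fun _ _ => sq_nonneg _
  have hfin : (∑ x, v x ^ 2) ^ 2 ≤ (B ^ 2 / τ * ∑ x, w x ^ 2) * ∑ x, v x ^ 2 := by
    have e1 : (∑ x, v x ^ 2) ^ 2 ≤ (4 * (B * ∑ x, v x ^ 2)) *
        (1 / (4 * τ) * (B * ∑ x, w x ^ 2)) := by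
      calc (∑ x, v x ^ 2) ^ 2 = (∑ t ∈ range L, ∑ x, (D t * p t x) * r t x) ^ 2 := by rw [hS]
        _ ≤ (∑ t ∈ range L, ∑ x, (D t * p t x) ^ 2) * ∑ t ∈ range L, ∑ x, r t x ^ 2 := hCS
        _ ≤ _ := mul_le_mul hP hR hR0 (by positivity)
    refine e1.trans (le_of_eq ?_)
    field_simp
  show ∑ x, v x ^ 2 ≤ B ^ 2 / τ * ∑ y, w y ^ 2
  rcases hv0.lt_or_eq with h | h
  · rw [pow_two] at hfin
    exact le_of_mul_le_mul_right hfin h
  · rw [← h]
    positivity

end soft

theorem mf4_38 (hF : StFrv) : StMf4 := by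
  classical
  intro n ε hε
  obtain ⟨C1, hC1, hF⟩ := hF n ε hε
  refine ⟨C1 + 2, by linarith, ?_⟩
  intro m L c K k B ρ G hL hρ hB hK h1 h2
  have hL1 : (1 : ℝ) ≤ L := by exact_mod_cast hL
  have hL0 : (0 : ℝ) < L := by linarith
  have hLε : (1 : ℝ) ≤ (L : ℝ) ^ ε := Real.one_le_rpow hL1 hε.le
  have hAl : Alf ρ := alf_74 eeb_36 m L k ρ hρ
  have hs1 : 1 ≤ Real.sqrt L := by rw [Real.one_le_sqrt]; exact hL1
  have hs0 : 0 < Real.sqrt L := by linarith
  have hss : Real.sqrt L * Real.sqrt L = L := Real.mul_self_sqrt hL0.le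
  have hD : ∀ t ω, |sb c t ω - al ρ c t ω| ≤ 2 := by
    intro t ω
    have g1 := sb_abs c t ω
    have g2 := hAl.abs c t ω
    have g3 := abs_sub (sb c t ω) (al ρ c t ω)
    linarith
  rcases hB.lt_or_eq with hB0 | hB0
  · set τ : ℝ := B / Real.sqrt L with hτ
    have hτ0 : 0 < τ := by positivity
    choose Y hYb hYe using fun A : Matrix (Fin L) (Fin L) ℝ => soft38 τ hτ0 A
    have hYt : ∀ A, NB (Y A).transpose (1 / (4 * τ)) := fun A =>
      nbt_21 _ _ (Y A) _ (by positivity) (hYb A)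
    have hf := hF m L 0 L c (fun t ω => if t < L then τ • Y (K t ω) else 0) k (τ / 4) ρ G hL hρ
      (by positivity) le_rfl
      (fun t ω ω' hω => by
        show (if t < L then τ • Y (K t ω') else 0) = if t < L then τ • Y (K t ω) else 0
        rw [hK t ω ω' hω])
      (fun t ω ht => by
        rw [if_neg]
        rcases ht with ht | ht
        · exact absurd ht (Nat.not_lt_zero t)
        · exact not_lt.2 ht)
      (fun ω _ t => by
        split_ifs
        · intro u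
          have g1 : ∀ x, ∑ y, (τ • Y (K t ω)) x y * u y = τ * ∑ y, Y (K t ω) x y * u y := by
            intro x
            rw [mul_sum]
            exact sum_congr rfl fun y _ => by rw [Matrix.smul_apply, smul_eq_mul]; ring
          have g2 := hYb (K t ω) u
          rw [sum_congr rfl fun x _ => by rw [g1 x, mul_pow], ← mul_sum]
          refine (mul_le_mul_of_nonneg_left g2 (by positivity)).trans (le_of_eq ?_)
          field_simp
        · exact OP60.NB_zero (by positivity))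
    refine (Pr_mono hρ fun ω hω => ?_).trans (hf.trans (by gcongr; linarith))
    refine ⟨hω.1, fun hcon => hω.2 ?_⟩
    have hlarge := large38 L (fun t => sb c t ω - al ρ c t ω) (fun t => K t ω)
      (fun t => Y (K t ω)) B τ hτ0 hB (fun t => hD t ω) (fun t => hYt (K t ω)) (h1 ω hω.1)
      (h2 ω hω.1)
    have hsum := OP60.NB_add hcon hlarge
    have e1 : ∑ t ∈ range L, (sb c t ω - al ρ c t ω) • K t ω =
        (∑ t ∈ range L, (sb c t ω - al ρ c t ω) • (if t < L then τ • Y (K t ω) else 0)) +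
          ∑ t ∈ range L, (sb c t ω - al ρ c t ω) •
            (K t ω * (Y (K t ω)).transpose * K t ω) := by
      rw [← sum_add_distrib]
      refine sum_congr rfl fun t ht => ?_
      rw [if_pos (mem_range.1 ht), ← smul_add, ← hYe (K t ω)]
    rw [e1]
    refine OP60.NB_mono hsum ?_
    have e2 : B ^ 2 / τ = Real.sqrt L * B := by
      rw [hτ]
      field_simp
    have e3 : (L : ℝ) * τ = Real.sqrt L * B := by
      rw [hτ, mul_div_assoc', div_eq_iff hs0.ne']
      calc (L : ℝ) * B = (Real.sqrt L * Real.sqrt L) * B := by rw [hss]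
        _ = Real.sqrt L * B * Real.sqrt L := by ring
    rw [e2, Nat.sub_zero]
    have e4 : C1 * (L : ℝ) ^ ε * L * (τ / 4) = C1 * (L : ℝ) ^ ε * (Real.sqrt L * B) / 4 := by
      rw [← e3]
      ring
    rw [e4]
    have hsB : 0 ≤ Real.sqrt L * B := by positivity
    have e5 : Real.sqrt L * B ≤ (L : ℝ) ^ ε * (Real.sqrt L * B) := by nlinarith
    have e6 : 0 ≤ C1 * (L : ℝ) ^ ε * (Real.sqrt L * B) := by positivity
    calc 2 * (C1 * (L : ℝ) ^ ε * (Real.sqrt L * B) / 4 + Real.sqrt L * B)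
        ≤ C1 * (L : ℝ) ^ ε * (Real.sqrt L * B) + 2 * ((L : ℝ) ^ ε * (Real.sqrt L * B)) := by
          linarith
      _ = (C1 + 2) * (L : ℝ) ^ ε * Real.sqrt L * B := by ring
  · have g1 : Pr ρ (fun ω => G ω ∧ ¬ NB (∑ t ∈ range L, (sb c t ω - al ρ c t ω) • K t ω)
        ((C1 + 2) * (L : ℝ) ^ ε * Real.sqrt L * B)) ≤ Pr ρ (fun _ => False) := by
      refine Pr_mono hρ fun ω hω => hω.2 ?_
      have g2 : ∀ t ∈ range L, K t ω = 0 := by
        intro t ht
        ext x y
        have g3 := h1 ω hω.1 (Pi.single y 1)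
        rw [← hB0, zero_mul] at g3
        have g4 := (sum_eq_zero_iff_of_nonneg (fun t _ => sum_nonneg fun x _ =>
          sq_nonneg _)).1 (le_antisymm g3 (sum_nonneg fun t _ => sum_nonneg fun x _ =>
            sq_nonneg _)) t ht
        have g5 := (sum_eq_zero_iff_of_nonneg (fun x _ => sq_nonneg _)).1 g4 x (mem_univ x)
        have g6 := pow_eq_zero_iff (two_ne_zero) |>.1 g5
        simpa [Pi.single_apply] using g6
      rw [sum_congr rfl fun t ht => by rw [g2 t ht, smul_zero], sum_const_zero]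
      exact OP60.NB_zero (by positivity)
    refine g1.trans ?_
    have g2 : Pr ρ (fun _ => False) = 0 := by
      unfold Pr
      simp only [if_false]
      exact Ex_const hρ 0
    rw [g2]
    positivity

end Pool.Agent.SHD
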