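import Pool.Agent.Lib.MP_a7b2aa_an.SHD.Stmts3_23
import Pool.Agent.Lib.MP_a7b2aa_an.SBD.Base30
import Pool.Agent.Lib.MP_a7b2aa_an.SBD.EEB36
import Pool.Agent.Lib.MP_a7b2aa_an.SBD.Alf74

/-!
# SC (seat 74): scalar martingales, in event form
-/

set_option autoImplicit false

namespace Pool.Agent.SHD

open Finset Pool.Agent.SB3 Pool.Agent.SBT Pool.Agent.SBD

namespace C74

theorem exp_le_add (x : ℝ) : Real.exp x ≤ x + Real.exp (x ^ 2) := by
  by_cases h1 : |x| ≤ 1
  · have h2 := Real.abs_exp_sub_one_sub_id_le h1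
    have h3 := Real.add_one_le_exp (x ^ 2)
    have h4 := (abs_le.1 h2).2
    linarith
  · by_cases hx : 0 ≤ x
    · rw [abs_of_nonneg hx] at h1
      push Not at h1
      have : Real.exp x ≤ Real.exp (x ^ 2) := by
        rw [Real.exp_le_exp]
        nlinarith
      linarith
    · push Not at hx
      rw [abs_of_neg hx] at h1
      push Not at h1
      have h2 : Real.exp x ≤ 1 := by
        rw [← Real.exp_zero, Real.exp_le_exp]
        exact hx.le
      have h3 := Real.add_one_le_exp (x ^ 2)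
      nlinarith

/-- Hoeffding for a two point law -/
theorem two_pt {α : ℝ} (hα : |α| ≤ 1) (u : ℝ) :
    Real.exp (-(α * u) - 4 * u ^ 2) * (Real.cosh u + α * Real.sinh u) ≤ 1 := by
  obtain ⟨h1, h2⟩ := abs_le.1 hα
  have e1 : Real.exp (-(α * u) - 4 * u ^ 2) * (Real.cosh u + α * Real.sinh u) =
      Real.exp (-(4 * u ^ 2)) * ((1 + α) / 2 * Real.exp ((1 - α) * u) +
        (1 - α) / 2 * Real.exp (-((1 + α) * u))) := by
    rw [Real.cosh_eq, Real.sinh_eq]
    have a1 : Real.exp ((1 - α) * u) = Real.exp (-(α * u)) * Real.exp u := by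
      rw [← Real.exp_add]; ring_nf
    have a2 : Real.exp (-((1 + α) * u)) = Real.exp (-(α * u)) * Real.exp (-u) := by
      rw [← Real.exp_add]; ring_nf
    have a3 : Real.exp (-(α * u) - 4 * u ^ 2) = Real.exp (-(α * u)) * Real.exp (-(4 * u ^ 2)) := by
      rw [← Real.exp_add]; ring_nf
    rw [a1, a2, a3]
    ring
  rw [e1]
  have b1 : Real.exp ((1 - α) * u) ≤ (1 - α) * u + Real.exp (4 * u ^ 2) := by
    refine (exp_le_add _).trans (add_le_add_right ?_ _)
    rw [Real.exp_le_exp]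
    have : (1 - α) ^ 2 ≤ 4 := by nlinarith
    nlinarith [sq_nonneg u, mul_nonneg (sub_nonneg.2 this) (sq_nonneg u)]
  have b2 : Real.exp (-((1 + α) * u)) ≤ -((1 + α) * u) + Real.exp (4 * u ^ 2) := by
    refine (exp_le_add _).trans (add_le_add_right ?_ _)
    rw [Real.exp_le_exp]
    have : (1 + α) ^ 2 ≤ 4 := by nlinarith
    nlinarith [sq_nonneg u, mul_nonneg (sub_nonneg.2 this) (sq_nonneg u)]
  have c1 : (1 + α) / 2 * Real.exp ((1 - α) * u) ≤
      (1 + α) / 2 * ((1 - α) * u + Real.exp (4 * u ^ 2)) :=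
    mul_le_mul_of_nonneg_left b1 (by linarith)
  have c2 : (1 - α) / 2 * Real.exp (-((1 + α) * u)) ≤
      (1 - α) / 2 * (-((1 + α) * u) + Real.exp (4 * u ^ 2)) :=
    mul_le_mul_of_nonneg_left b2 (by linarith)
  have c3 : (1 + α) / 2 * Real.exp ((1 - α) * u) + (1 - α) / 2 * Real.exp (-((1 + α) * u)) ≤
      Real.exp (4 * u ^ 2) := by
    refine (add_le_add c1 c2).trans (le_of_eq ?_)
    ring
  calc Real.exp (-(4 * u ^ 2)) * ((1 + α) / 2 * Real.exp ((1 - α) * u) +
        (1 - α) / 2 * Real.exp (-((1 + α) * u)))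
      ≤ Real.exp (-(4 * u ^ 2)) * Real.exp (4 * u ^ 2) :=
        mul_le_mul_of_nonneg_left c3 (Real.exp_pos _).le
    _ = 1 := by rw [← Real.exp_add]; simp

/-- the exponential supermartingale -/
theorem super {m L : ℕ} {k : ℝ} {ρ : Pt m L → ℝ} (hρ : Law k ρ) (c : Fin (m + 1))
    (u : ℕ → Pt m L → ℝ) (hu : ∀ t, Ms (one L c t) (u t)) (n : ℕ) :
    Ex ρ (fun ω => Real.exp (∑ t ∈ range n,
      ((sb c t ω - al ρ c t ω) * u t ω - 4 * u t ω ^ 2))) ≤ 1 := by
  have hA := alf_74 eeb_36 m L k ρ hρ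
  induction n with
  | zero =>
    simp only [range_zero, sum_empty, Real.exp_zero]
    rw [Ex_const hρ]
  | succ n ih =>
    refine le_trans ?_ ih
    set M : Pt m L → ℝ := fun ω => Real.exp (∑ t ∈ range n,
      ((sb c t ω - al ρ c t ω) * u t ω - 4 * u t ω ^ 2)) with hM
    have hMm : Ms (one L c n) M := by
      have h1 : ∀ t ∈ range n, Ms (one L c n)
          (fun ω => (sb c t ω - al ρ c t ω) * u t ω - 4 * u t ω ^ 2) := by
        intro t ht
        have ht' := mem_range.1 ht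
        intro ω ω' hc
        beta_reduce
        rw [A74.sb_ms c ht' ω ω' hc, A74.Ms_mono (A74.one_le c ht'.le) (hA.ms c t) ω ω' hc,
          A74.Ms_mono (A74.one_le c ht'.le) (hu t) ω ω' hc]
      intro ω ω' hc
      simp only [hM]
      rw [sum_congr rfl fun t ht => h1 t ht ω ω' hc]
    -- split the last factor
    set N1 : Pt m L → ℝ := fun ω => M ω * Real.exp (-(al ρ c n ω * u n ω) - 4 * u n ω ^ 2) *
      Real.cosh (u n ω) with hN1
    set N2 : Pt m L → ℝ := fun ω => M ω * Real.exp (-(al ρ c n ω * u n ω) - 4 * u n ω ^ 2) *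
      Real.sinh (u n ω) with hN2
    have hN2m : Ms (one L c n) N2 := by
      intro ω ω' hc
      simp only [hN2]
      rw [hMm ω ω' hc, hA.ms c n ω ω' hc, hu n ω ω' hc]
    have e1 : Ex ρ (fun ω => Real.exp (∑ t ∈ range (n + 1),
        ((sb c t ω - al ρ c t ω) * u t ω - 4 * u t ω ^ 2))) =
        Ex ρ (fun ω => N1 ω + sb c n ω * N2 ω) := by
      refine A74.Ex_congr fun ω => ?_
      rw [sum_range_succ, Real.exp_add]
      have e2 : (sb c n ω - al ρ c n ω) * u n ω - 4 * u n ω ^ 2 =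
          (-(al ρ c n ω * u n ω) - 4 * u n ω ^ 2) + sb c n ω * u n ω := by ring
      have e3 : Real.exp (sb c n ω * u n ω) = Real.cosh (u n ω) + sb c n ω * Real.sinh (u n ω) := by
        have hs := A74.sb_sq c n ω
        have hs2 : (sb c n ω - 1) * (sb c n ω + 1) = 0 := by linarith
        rcases mul_eq_zero.1 hs2 with h | h
        · have : sb c n ω = 1 := by linarith
          rw [this, one_mul, one_mul, Real.cosh_add_sinh]
        · have : sb c n ω = -1 := by linarith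
          rw [this, neg_one_mul, neg_one_mul, ← sub_eq_add_neg, Real.cosh_sub_sinh]
      rw [e2, Real.exp_add, e3]
      simp only [hN1, hN2, hM]
      ring
    rw [e1, Ex_add, hA.ex c n N2 hN2m, ← Ex_add]
    refine Ex_mono hρ fun ω => ?_
    have hMp : 0 ≤ M ω := (Real.exp_pos _).le
    have := mul_le_mul_of_nonneg_left (two_pt (hA.abs c n ω) (u n ω)) hMp
    simp only [hN1, hN2]
    calc M ω * Real.exp (-(al ρ c n ω * u n ω) - 4 * u n ω ^ 2) * Real.cosh (u n ω) +
          al ρ c n ω * (M ω * Real.exp (-(al ρ c n ω * u n ω) - 4 * u n ω ^ 2) *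
            Real.sinh (u n ω))
        = M ω * (Real.exp (-(al ρ c n ω * u n ω) - 4 * u n ω ^ 2) *
            (Real.cosh (u n ω) + al ρ c n ω * Real.sinh (u n ω))) := by ring
      _ ≤ M ω * 1 := this
      _ = M ω := mul_one _

/-- numerics -/
theorem num {n : ℕ} {ε : ℝ} (hε : 0 < ε) {L : ℕ} (hL : 1 ≤ L) {C : ℝ} (hC : 1 ≤ C) :
    Real.exp (-(C * (L : ℝ) ^ ε / 16)) ≤
      ((⌈(n : ℝ) / ε⌉₊).factorial : ℝ) * 16 ^ ⌈(n : ℝ) / ε⌉₊ * 2 ^ n / ((L : ℝ) + 1) ^ n := by
  set K := ⌈(n : ℝ) / ε⌉₊ with hK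
  have hL1 : (1 : ℝ) ≤ L := by exact_mod_cast hL
  have hL0 : (0 : ℝ) < L := by linarith
  have hle : (0 : ℝ) < (L : ℝ) ^ ε := Real.rpow_pos_of_pos hL0 _
  set x : ℝ := (L : ℝ) ^ ε / 16 with hx
  have hx0 : 0 < x := by positivity
  have h1 : x ^ K / (K.factorial : ℝ) ≤ Real.exp x := Real.pow_div_factorial_le_exp x hx0.le K
  have hf : (0 : ℝ) < (K.factorial : ℝ) := by exact_mod_cast K.factorial_pos
  have h2 : (L : ℝ) ^ n ≤ ((L : ℝ) ^ ε) ^ K := by
    rw [← Real.rpow_natCast, ← Real.rpow_natCast, ← Real.rpow_mul hL0.le]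
    refine Real.rpow_le_rpow_of_exponent_le hL1 ?_
    have := Nat.le_ceil ((n : ℝ) / ε)
    rw [div_le_iff₀ hε] at this
    rw [mul_comm]
    exact this
  have h3 : ((L : ℝ) + 1) ^ n ≤ 2 ^ n * (L : ℝ) ^ n := by
    rw [← mul_pow]
    exact pow_le_pow_left₀ (by linarith) (by linarith) n
  have h4 : ((L : ℝ) + 1) ^ n ≤ 2 ^ n * 16 ^ K * x ^ K := by
    refine h3.trans ?_
    rw [hx, div_pow, mul_assoc, mul_div_cancel₀ _ (by positivity)]
    exact mul_le_mul_of_nonneg_left h2 (by positivity)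
  have h5 : Real.exp (-(C * (L : ℝ) ^ ε / 16)) ≤ Real.exp (-x) := by
    rw [Real.exp_le_exp, neg_le_neg_iff, hx]
    have : (L : ℝ) ^ ε ≤ C * (L : ℝ) ^ ε := le_mul_of_one_le_left hle.le hC
    linarith
  refine h5.trans ?_
  rw [le_div_iff₀ (by positivity), Real.exp_neg, ← div_eq_inv_mul, div_le_iff₀ (Real.exp_pos _)]
  refine h4.trans ?_
  rw [div_le_iff₀ hf] at h1
  calc 2 ^ n * 16 ^ K * x ^ K ≤ 2 ^ n * 16 ^ K * (Real.exp x * (K.factorial : ℝ)) :=
        mul_le_mul_of_nonneg_left h1 (by positivity)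
    _ = (K.factorial : ℝ) * 16 ^ K * 2 ^ n * Real.exp x := by ring

end C74

open C74 in
theorem sc_74 : StSc := by
  intro n ε hε
  set K := ⌈(n : ℝ) / ε⌉₊ with hK
  set C0 : ℝ := (K.factorial : ℝ) * 16 ^ K * 2 ^ n with hC0
  have hf : (1 : ℝ) ≤ (K.factorial : ℝ) := by exact_mod_cast K.factorial_pos
  have hC0p : 1 ≤ C0 := by
    rw [hC0]
    exact one_le_mul_of_one_le_of_one_le (one_le_mul_of_one_le_of_one_le hf
      (one_le_pow₀ (by norm_num))) (one_le_pow₀ (by norm_num))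
  refine ⟨2 * C0, by linarith, ?_⟩
  intro m L c z k Z ρ hL hρ hZ hz
  have hL1 : (1 : ℝ) ≤ L := by exact_mod_cast hL
  have hL0 : (0 : ℝ) < L := by linarith
  have hle : (0 : ℝ) < (L : ℝ) ^ ε := Real.rpow_pos_of_pos hL0 _
  set T : ℝ := 2 * C0 * (L : ℝ) ^ ε with hT
  have hTp : 0 < T := by positivity
  rcases hZ.eq_or_lt with hZ0 | hZp
  · -- `Z = 0`
    subst hZ0
    have h0 : ∀ ω, (∑ t ∈ range L, z t ω ^ 2 ≤ 0 ∧
        2 * C0 * (L : ℝ) ^ ε * 0 < (∑ t ∈ range L, (sb c t ω - al ρ c t ω) * z t ω) ^ 2) →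
        False := by
      rintro ω ⟨h1, h2⟩
      have h3 : ∀ t ∈ range L, z t ω ^ 2 = 0 := by
        refine (sum_eq_zero_iff_of_nonneg fun t _ => sq_nonneg _).1 ?_
        exact le_antisymm h1 (sum_nonneg fun t _ => sq_nonneg _)
      have h4 : ∑ t ∈ range L, (sb c t ω - al ρ c t ω) * z t ω = 0 := by
        refine sum_eq_zero fun t ht => ?_
        have := h3 t ht
        rw [sq_eq_zero_iff] at this
        rw [this, mul_zero]
      rw [h4] at h2
      norm_num at h2
    have h1 : Pr ρ (fun ω => ∑ t ∈ range L, z t ω ^ 2 ≤ 0 ∧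
        2 * C0 * (L : ℝ) ^ ε * 0 < (∑ t ∈ range L, (sb c t ω - al ρ c t ω) * z t ω) ^ 2) = 0 := by
      unfold Pr
      refine (A74.Ex_congr (ψ := fun _ => 0) fun ω => if_neg (h0 ω)).trans ?_
      rw [Ex_const hρ]
    rw [h1]
    positivity
  -- the main case
  set lam : ℝ := Real.sqrt (T / Z) / 8 with hlam
  have hlam2 : lam ^ 2 = T / (64 * Z) := by
    rw [hlam, div_pow, Real.sq_sqrt (by positivity)]
    field_simp
    ring
  have hlam0 : 0 ≤ lam := by positivity
  have hs1 := super hρ c (fun t ω => lam * z t ω)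
    (fun t => (hz t).comp (fun x => lam * x)) L
  have hs2 := super hρ c (fun t ω => -lam * z t ω)
    (fun t => (hz t).comp (fun x => -lam * x)) L
  have key : Pr ρ (fun ω => ∑ t ∈ range L, z t ω ^ 2 ≤ Z ∧
      2 * C0 * (L : ℝ) ^ ε * Z < (∑ t ∈ range L, (sb c t ω - al ρ c t ω) * z t ω) ^ 2) ≤
      Real.exp (-(T / 16)) * 2 := by
    unfold Pr
    have h2 : Ex ρ (fun ω => Real.exp (-(T / 16)) *
        (Real.exp (∑ t ∈ range L, ((sb c t ω - al ρ c t ω) * (lam * z t ω) -
          4 * (lam * z t ω) ^ 2)) +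
        Real.exp (∑ t ∈ range L, ((sb c t ω - al ρ c t ω) * (-lam * z t ω) -
          4 * (-lam * z t ω) ^ 2)))) ≤ Real.exp (-(T / 16)) * 2 := by
      rw [Ex_smul, Ex_add]
      refine mul_le_mul_of_nonneg_left ?_ (Real.exp_pos _).le
      linarith
    refine le_trans (Ex_mono hρ fun ω => ?_) h2
    split_ifs with h
    · obtain ⟨h3, h4⟩ := h
      set S := ∑ t ∈ range L, (sb c t ω - al ρ c t ω) * z t ω with hS
      set Q := ∑ t ∈ range L, z t ω ^ 2 with hQ
      have e1 : ∑ t ∈ range L, ((sb c t ω - al ρ c t ω) * (lam * z t ω) -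
          4 * (lam * z t ω) ^ 2) = lam * S - 4 * lam ^ 2 * Q := by
        rw [sum_sub_distrib, hS, hQ, mul_sum, mul_sum]
        congr 1
        · exact sum_congr rfl fun t _ => by ring
        · exact sum_congr rfl fun t _ => by ring
      have e2 : ∑ t ∈ range L, ((sb c t ω - al ρ c t ω) * (-lam * z t ω) -
          4 * (-lam * z t ω) ^ 2) = -(lam * S) - 4 * lam ^ 2 * Q := by
        rw [sum_sub_distrib, hS, hQ, mul_sum, mul_sum, ← sum_neg_distrib]
        congr 1
        · exact sum_congr rfl fun t _ => by ring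
        · exact sum_congr rfl fun t _ => by ring
      rw [e1, e2]
      have hQ1 : 4 * lam ^ 2 * Q ≤ T / 16 := by
        rw [hlam2]
        have : 4 * (T / (64 * Z)) * Q ≤ 4 * (T / (64 * Z)) * Z :=
          mul_le_mul_of_nonneg_left h3 (by positivity)
        refine this.trans (le_of_eq ?_)
        field_simp
        ring
      have hlS : T / 8 ≤ |lam * S| := by
        have h5 : (T / 8) ^ 2 ≤ (lam * S) ^ 2 := by
          rw [mul_pow, hlam2]
          have : T / (64 * Z) * (T * Z) ≤ T / (64 * Z) * S ^ 2 :=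
            mul_le_mul_of_nonneg_left h4.le (by positivity)
          refine le_trans (le_of_eq ?_) this
          field_simp
          ring
        have := sq_le_sq.1 h5
        rwa [abs_of_nonneg (by positivity : (0 : ℝ) ≤ T / 8)] at this
      have h6 : 1 ≤ Real.exp (-(T / 16)) * Real.exp (|lam * S| - 4 * lam ^ 2 * Q) := by
        rw [← Real.exp_add]
        refine Real.one_le_exp ?_
        linarith
      refine h6.trans (mul_le_mul_of_nonneg_left ?_ (Real.exp_pos _).le)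
      rcases abs_cases (lam * S) with ⟨h7, _⟩ | ⟨h7, _⟩
      · rw [h7]
        have := (Real.exp_pos (-(lam * S) - 4 * lam ^ 2 * Q)).le
        linarith
      · rw [h7]
        have := (Real.exp_pos (lam * S - 4 * lam ^ 2 * Q)).le
        linarith
    · positivity
  refine key.trans ?_
  have h8 := num (n := n) hε hL (C := 2 * C0) (by linarith)
  rw [← hT, ← hK, ← hC0] at h8
  calc Real.exp (-(T / 16)) * 2 ≤ C0 / ((L : ℝ) + 1) ^ n * 2 :=
        mul_le_mul_of_nonneg_right h8 (by norm_num)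
    _ = 2 * C0 / ((L : ℝ) + 1) ^ n := by ring

end Pool.Agent.SHD
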