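import Pool.Agent.Lib.MP_a7b2aa_an.SHD.Stmts3_23

/-!
SHD3, helper26: the module SPLIT (inclusion and exclusion for the coupled sums).
-/

set_option autoImplicit false

namespace Pool.Agent.SHD

open Finset Pool.Agent.SB3 Pool.Agent.SBT Pool.Agent.SBD

/-- inclusion and exclusion for comparisons -/
theorem one26 {n : ℕ} (S : Finset (Fin n)) (x y : Fin n → ℕ) :
    (1 : ℝ) = (if ∀ e ∈ S, y e ≤ x e then 1 else 0) +
      ∑ T ∈ S.powerset.erase ∅, (-1 : ℝ) ^ (T.card + 1) * (if ∀ e ∈ T, x e < y e then 1 else 0) := by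
  have h1 : ∏ e ∈ S, (1 + (-(if x e < y e then (1 : ℝ) else 0))) =
      (if ∀ e ∈ S, y e ≤ x e then 1 else 0) := by
    by_cases h : ∀ e ∈ S, y e ≤ x e
    · rw [if_pos h]
      refine prod_eq_one fun e he => ?_
      rw [if_neg (not_lt.2 (h e he))]
      ring
    · rw [if_neg h]
      push Not at h
      obtain ⟨e, he, hl⟩ := h
      refine prod_eq_zero he ?_
      rw [if_pos hl]
      ring
  have h2 : ∀ T : Finset (Fin n), ∏ e ∈ T, (-(if x e < y e then (1 : ℝ) else 0)) =
      (-1 : ℝ) ^ T.card * (if ∀ e ∈ T, x e < y e then 1 else 0) := by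
    intro T
    rw [prod_neg]
    congr 1
    by_cases h : ∀ e ∈ T, x e < y e
    · rw [if_pos h]
      exact prod_eq_one fun e he => if_pos (h e he)
    · rw [if_neg h]
      push Not at h
      obtain ⟨e, he, hl⟩ := h
      exact prod_eq_zero he (if_neg (not_lt.2 hl))
  rw [← h1, prod_one_add, ← add_sum_erase _ _ (empty_mem_powerset S)]
  simp only [prod_empty]
  rw [add_assoc, ← sum_add_distrib, sum_eq_zero, add_zero]
  intro T _
  rw [h2 T, pow_succ]
  ring

section split

variable {m L : ℕ}

/-- the term `T` -/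
theorem term26 (b s : Fin (m + 1)) (hs : s ≠ b) (F : (Fin (m + 1) → ℕ) → ℝ) (ω : Pt m L)
    (P : ℕ → Finset (Fin (m + 1) → ℕ)) (G : (Fin (m + 1) → ℕ) → ℝ)
    (I : (Fin (m + 1) → ℕ) → (Fin (m + 1) → ℕ) → Prop) [∀ p q, Decidable (I p q)] :
    ∑ r ∈ range L, ∑ q' ∈ fr L (univ.erase b) (fun _ => r), ∑ p ∈ P r,
      (if I p q' then (ps (univ.erase b) q' ω * F q') * G p else 0) =
    ∑ u ∈ range L, sb s u ω * ∑ r ∈ range L,
      ∑ q' ∈ fr L ((univ.erase b).erase s)
        (Function.update (Function.update (fun _ => 0) b r) s u), ∑ p ∈ P r,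
        (if I p q' then (ps ((univ.erase b).erase s) q' ω * F q') * G p else 0) := by
  simp_rw [mul_sum]
  rw [sum_comm (s := range L) (t := range L)]
  refine sum_congr rfl fun r _ => ?_
  have h1 : insert s ((univ.erase b).erase s) = (univ.erase b : Finset (Fin (m + 1))) :=
    insert_erase (mem_erase.2 ⟨hs, mem_univ _⟩)
  have h2 : s ∉ (univ.erase b).erase s := notMem_erase _ _
  conv_lhs => rw [← h1]
  rw [sum_fr_insert h2]
  refine sum_congr rfl fun u _ => ?_
  have h3 : fr L ((univ.erase b).erase s) (Function.update (fun _ => r) s u) =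
      fr L ((univ.erase b).erase s)
        (Function.update (Function.update (fun _ => 0) b r) s u) := by
    refine fr_congr fun a ha => ?_
    by_cases has : a = s
    · subst has
      simp
    · have hab : a = b := by
        by_contra hab
        exact ha (mem_erase.2 ⟨has, mem_erase.2 ⟨hab, mem_univ _⟩⟩)
      subst hab
      rw [Function.update_of_ne has, Function.update_of_ne has, Function.update_self]
  rw [h3]
  refine sum_congr rfl fun q' hq' => sum_congr rfl fun p _ => ?_
  have h4 : q' s = u := by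
    have := (mem_fr.1 hq').2 s h2
    rwa [Function.update_self] at this
  split_ifs
  · unfold ps
    rw [prod_insert h2, h4]
    ring
  · ring

/-- the split of a product of sums -/
theorem split26 (b : Fin (m + 1)) (s : Finset (Fin (m + 1)) → Fin (m + 1))
    (hs : ∀ T : Finset (Fin (m + 1)), T.Nonempty → s T ∈ T) (F : (Fin (m + 1) → ℕ) → ℝ)
    (ω : Pt m L) (P : ℕ → Finset (Fin (m + 1) → ℕ)) (G : (Fin (m + 1) → ℕ) → ℝ) :
    ∑ r ∈ range L, (∑ q' ∈ fr L (univ.erase b) (fun _ => r), ps (univ.erase b) q' ω * F q') *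
        ∑ p ∈ P r, G p =
      ∑ T ∈ ((univ.erase b).powerset.erase ∅ : Finset (Finset (Fin (m + 1)))),
        (-1 : ℝ) ^ (T.card + 1) * ∑ u ∈ range L, sb (s T) u ω *
          ∑ r ∈ range L, ∑ q' ∈ fr L ((univ.erase b).erase (s T))
            (Function.update (Function.update (fun _ => 0) b r) (s T) u), ∑ p ∈ P r,
            (if ∀ e ∈ T, p e < q' e then
              (ps ((univ.erase b).erase (s T)) q' ω * F q') * G p else 0) +
      ∑ r ∈ range L, ∑ q' ∈ fr L (univ.erase b) (fun _ => r), ∑ p ∈ P r,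
        (if ∀ e, e ≠ b → q' e ≤ p e then (ps (univ.erase b) q' ω * F q') * G p else 0) := by
  have h1 : ∀ T ∈ ((univ.erase b).powerset.erase ∅ : Finset (Finset (Fin (m + 1)))),
      (-1 : ℝ) ^ (T.card + 1) * ∑ u ∈ range L, sb (s T) u ω *
          ∑ r ∈ range L, ∑ q' ∈ fr L ((univ.erase b).erase (s T))
            (Function.update (Function.update (fun _ => 0) b r) (s T) u), ∑ p ∈ P r,
            (if ∀ e ∈ T, p e < q' e then
              (ps ((univ.erase b).erase (s T)) q' ω * F q') * G p else 0) =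
      ∑ r ∈ range L, ∑ q' ∈ fr L (univ.erase b) (fun _ => r), ∑ p ∈ P r,
        (-1 : ℝ) ^ (T.card + 1) *
          (if ∀ e ∈ T, p e < q' e then (ps (univ.erase b) q' ω * F q') * G p else 0) := by
    intro T hT
    rw [mem_erase, mem_powerset] at hT
    have hsT : s T ∈ T := hs T (nonempty_iff_ne_empty.2 hT.1)
    have hsb : s T ≠ b := (mem_erase.1 (hT.2 hsT)).1
    rw [← term26 b (s T) hsb F ω P G (fun p q' => ∀ e ∈ T, p e < q' e)]
    simp_rw [mul_sum]
  rw [sum_congr rfl h1, sum_comm, ← sum_add_distrib]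
  refine sum_congr rfl fun r _ => ?_
  rw [sum_mul_sum, sum_comm (s := (univ.erase b).powerset.erase ∅), ← sum_add_distrib]
  refine sum_congr rfl fun q' _ => ?_
  rw [sum_comm (s := (univ.erase b).powerset.erase ∅), ← sum_add_distrib]
  refine sum_congr rfl fun p _ => ?_
  have h2 := one26 (univ.erase b) p q'
  have h3 : (∀ e ∈ (univ.erase b : Finset (Fin (m + 1))), q' e ≤ p e) ↔
      ∀ e, e ≠ b → q' e ≤ p e := by
    simp
  simp only [h3] at h2
  have h5 : ∀ X : ℝ, X = ∑ T ∈ (univ.erase b).powerset.erase ∅,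
      (-1 : ℝ) ^ (T.card + 1) * (if ∀ e ∈ T, p e < q' e then X else 0) +
      (if ∀ e, e ≠ b → q' e ≤ p e then X else 0) := by
    intro X
    have e1 : 1 * X = ((if ∀ e, e ≠ b → q' e ≤ p e then 1 else 0) +
      ∑ T ∈ (univ.erase b).powerset.erase ∅, (-1 : ℝ) ^ (T.card + 1) *
        (if ∀ e ∈ T, p e < q' e then 1 else 0)) * X := congrArg (fun z : ℝ => z * X) h2
    rw [one_mul, add_mul, sum_mul, add_comm] at e1
    refine e1.trans ?_
    congr 1
    · refine sum_congr rfl fun T _ => ?_
      by_cases h : ∀ e ∈ T, p e < q' e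
      · simp only [if_pos h, mul_one]
      · simp only [if_neg h, mul_zero, zero_mul]
    · by_cases h : ∀ e, e ≠ b → q' e ≤ p e
      · simp only [if_pos h, one_mul]
      · simp only [if_neg h, zero_mul]
  exact h5 _

end split

/-- SPLIT -/
theorem split_26 : StSplit := by
  intro m L b v lo' hi' lo hi s ω hs
  refine ⟨?_, ?_⟩
  · intro U a c q hbU hac haU hcU
    have hba : a ≠ b := fun h => haU (h ▸ hbU)
    have hbc : c ≠ b := fun h => hcU (h ▸ hbU)
    ext x y
    have h0 : ∀ r : ℕ, Function.update (Function.update (Function.update q b r) a (x : ℕ)) c (y : ℕ) =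
        Function.update (Function.update (Function.update q a (x : ℕ)) c (y : ℕ)) b r := by
      intro r
      rw [Function.update_comm hba.symm, Function.update_comm hbc.symm]
    have h1 := split26 b s hs (cut lo' hi' v · ω) ω
      (fun r => fr L (U.erase b)
        (Function.update (Function.update (Function.update q a (x : ℕ)) c (y : ℕ)) b r))
      (fun p => ps (U.erase b) p ω * cut lo hi v p ω)
    simp only [Matrix.add_apply, Matrix.sum_apply, Matrix.smul_apply, smul_eq_mul, hq, Mg, KK, K0,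
      Matrix.of_apply, h0]
    exact h1
  · intro i hb
    exact split26 b s hs (cut lo' hi' v · ω) ω
      (fun r => fr L ((Inn m).erase b) (Function.update (fun _ => i) b r))
      (fun p => ps ((Inn m).erase b) p ω * cut lo hi v p ω)

end Pool.Agent.SHD
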