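import Pool.Agent.Lib.MP_a7b2aa_an.SHD.StageD23

/-!
SHD3, modules STAGE and OPENN (helper23).
-/

set_option autoImplicit false

namespace Pool.Agent.SHD

open Finset Pool.Agent.SB3 Pool.Agent.SBT Pool.Agent.SBD

namespace S23

variable {m L : ℕ}

/-- lower corners may be moved into `[0, L]` -/
theorem cut_lo {v : (Fin (m + 1) → ℕ) → Pt m L → ℝ} {lo hi : Fin (m + 1) → ℕ}
    (h : ∀ a, hi a ≤ L) : cut (fun a => min (lo a) L) hi v = cut lo hi v := by
  funext r ω
  unfold cut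
  have : (∀ a, min (lo a) L ≤ r a ∧ r a < hi a) ↔ (∀ a, lo a ≤ r a ∧ r a < hi a) := by
    refine forall_congr' fun a => ?_
    have := h a
    omega
  simp only [this]

theorem bl_lo {U : Finset (Fin (m + 1))} {lo hi : Fin (m + 1) → ℕ} (h : ∀ a, hi a ≤ L) :
    bl U (fun a => min (lo a) L) hi = bl U lo hi := by
  unfold bl
  refine prod_congr rfl fun e _ => ?_
  have := h e
  have h1 : hi e - min (lo e) L = hi e - lo e := by omega
  show ((hi e - min (lo e) L : ℕ) : ℝ) = ((hi e - lo e : ℕ) : ℝ)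
  rw [h1]

/-- the base point may be moved into `[0, L]` -/
theorem Mg_q {v : (Fin (m + 1) → ℕ) → Pt m L → ℝ} {lo hi : Fin (m + 1) → ℕ}
    (h : ∀ a, hi a ≤ L) (U : Finset (Fin (m + 1))) (a c : Fin (m + 1))
    (q : Fin (m + 1) → ℕ) (ω : Pt m L) :
    Mg U a c (fun e => min (q e) L) (cut lo hi v) ω = Mg U a c q (cut lo hi v) ω := by
  unfold Mg
  congr 1
  funext x y
  by_cases hq : ∀ e, e ∉ U → e ≠ a → e ≠ c → q e < L
  · have : fr L U (Function.update (Function.update (fun e => min (q e) L) a (x : ℕ)) c (y : ℕ)) =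
        fr L U (Function.update (Function.update q a (x : ℕ)) c (y : ℕ)) := by
      refine fr_congr fun e he => ?_
      by_cases hec : e = c
      · subst hec
        simp
      · rw [Function.update_of_ne hec, Function.update_of_ne hec]
        by_cases hea : e = a
        · subst hea
          simp
        · rw [Function.update_of_ne hea, Function.update_of_ne hea]
          have := hq e he hea hec
          exact min_eq_left this.le
    rw [this]
  · push Not at hq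
    obtain ⟨e, he, hea, hec, hqe⟩ := hq
    have hz : ∀ q' : Fin (m + 1) → ℕ, L ≤ q' e →
        ∑ r ∈ fr L U (Function.update (Function.update q' a (x : ℕ)) c (y : ℕ)),
          ps U r ω * cut lo hi v r ω = 0 := by
      intro q' hq'
      refine sum_eq_zero fun r hr => ?_
      rw [mem_fr] at hr
      have h1 : r e = q' e := by
        rw [hr.2 e he, Function.update_of_ne hec, Function.update_of_ne hea]
      unfold cut
      rw [if_neg, mul_zero]
      intro h2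
      have := (h2 e).2
      have := h e
      omega
    rw [hz _ (by simp [hqe]), hz q hqe]

/-- the finite set of positions -/
def FF (m L : ℕ) : Finset (Fin (m + 1) → ℕ) := Fintype.piFinset (fun _ => range (L + 1))

theorem mem_FF {q : Fin (m + 1) → ℕ} : q ∈ FF m L ↔ ∀ e, q e ≤ L := by
  unfold FF
  simp [Fintype.mem_piFinset]

theorem card_FF : (FF m L).card = (L + 1) ^ (m + 1) := by
  unfold FF
  simp [Fintype.card_piFinset]

/-- the index type of the matrix conditions -/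
abbrev Ix (m : ℕ) : Type := (Fin (m + 1) → ℕ) × (Fin (m + 1) → ℕ) × (Fin (m + 1) → ℕ) ×
  Finset (Fin (m + 1)) × Fin (m + 1) × Fin (m + 1)

/-- the index set of the matrix conditions -/
def IX (m L : ℕ) : Finset (Ix m) := FF m L ×ˢ FF m L ×ˢ FF m L ×ˢ univ ×ˢ univ ×ˢ univ

theorem card_IX : (IX m L).card = (L + 1) ^ (3 * m + 3) * (2 ^ (m + 1) * (m + 1) ^ 2) := by
  unfold IX
  simp only [card_product, card_FF, card_univ, Fintype.card_finset, Fintype.card_fin]
  ring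

/-- the matrix conditions with `u + 1` summed strings -/
def PX (ε lam : ℝ) (v : (Fin (m + 1) → ℕ) → Pt m L → ℝ) (j u : ℕ) (x : Ix m) (ω : Pt m L) :
    Prop :=
  (Ad L j x.2.2.2.1 x.2.1 ∧ x.2.2.2.2.1 ≠ x.2.2.2.2.2 ∧ x.2.2.2.2.1 ∉ x.2.2.2.1 ∧
    x.2.2.2.2.2 ∉ x.2.2.2.1 ∧ x.2.2.2.1.card = u + 1) ∧ Gu ε lam v j u ω ∧
    ¬ NB (Mg x.2.2.2.1 x.2.2.2.2.1 x.2.2.2.2.2 x.2.2.1 (cut x.1 x.2.1 v) ω)
      (bN L ε (u + 1) * bl x.2.2.2.1 x.1 x.2.1)

theorem not_Nt {ε lam : ℝ} {v : (Fin (m + 1) → ℕ) → Pt m L → ℝ} {j u : ℕ} {ω : Pt m L}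
    (h : Gu ε lam v j u ω) (hn : ¬ Nt (bN L ε) v j (u + 1) ω) :
    ∃ x ∈ IX m L, PX ε lam v j u x ω := by
  unfold Nt at hn
  push Not at hn
  obtain ⟨lo, hi, U, a, c, q, hA, hac, haU, hcU, hcard, hnb⟩ := hn
  have hcard' : U.card = u + 1 := by
    by_contra hne
    exact hnb (h.2 lo hi U a c q hA hac haU hcU (by omega))
  refine ⟨(fun e => min (lo e) L, hi, fun e => min (q e) L, U, a, c), ?_, ?_⟩
  · unfold IX
    simp only [mem_product, mem_univ, and_true, mem_FF]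
    exact ⟨fun e => min_le_right _ _, hA.1, fun e => min_le_right _ _⟩
  · refine ⟨⟨hA, hac, haU, hcU, hcard'⟩, h, ?_⟩
    show ¬ NB (Mg U a c (fun e => min (q e) L) (cut (fun e => min (lo e) L) hi v) ω)
      (bN L ε (u + 1) * bl U (fun e => min (lo e) L) hi)
    rw [cut_lo hA.1, bl_lo hA.1, Mg_q hA.1, ← hcard']
    exact hnb

/-- the scalar conditions -/
def PS (ε lam : ℝ) (v : (Fin (m + 1) → ℕ) → Pt m L → ℝ) (j : ℕ)
    (x : (Fin (m + 1) → ℕ) × (Fin (m + 1) → ℕ) × ℕ) (ω : Pt m L) : Prop :=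
  ((∀ e, x.2.1 e ≤ L) ∧ x.2.1 0 ≤ j + 1) ∧ Gu ε lam v j m ω ∧
    BN m L ε < XX (cut x.1 x.2.1 v) x.2.2 ω ^ 2

theorem not_Ns {ε lam : ℝ} {v : (Fin (m + 1) → ℕ) → Pt m L → ℝ} {j : ℕ} {ω : Pt m L}
    (h : Gu ε lam v j m ω) (hn : ¬ Ns (BN m L ε) v j ω) :
    ∃ x ∈ FF m L ×ˢ FF m L ×ˢ range L, PS ε lam v j x ω := by
  unfold Ns at hn
  push Not at hn
  obtain ⟨lo, hi, hA, hj, i, hi'⟩ := hn
  have hiL : i < L := by
    by_contra hge
    have : XX (cut lo hi v) i ω = 0 := by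
      unfold XX
      refine sum_eq_zero fun r hr => ?_
      rw [mem_fr] at hr
      unfold cut
      rw [if_neg, mul_zero]
      intro h2
      have h3 := (h2 0).2
      rw [hr.2 0 (by simp [Inn])] at h3
      have := hA 0
      omega
    rw [this] at hi'
    have := BN_nonneg (m := m) (L := L) (ε := ε)
    linarith
  refine ⟨(fun e => min (lo e) L, hi, i), ?_, ⟨hA, hj⟩, h, ?_⟩
  · simp only [mem_product, mem_FF, mem_range]
    exact ⟨fun e => min_le_right _ _, hA, hiL⟩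
  · show BN m L ε < XX (cut (fun e => min (lo e) L) hi v) i ω ^ 2
    rw [cut_lo hA]
    exact hi'

/-- no summed string -/
theorem Nt_zero (hBs : StBase) {N R j : ℕ} {ε lam CE cg Λ C : ℝ}
    {v : (Fin (m + 1) → ℕ) → Pt m L → ℝ} (h : Nm m L R ε lam CE cg Λ C)
    (hc : Ctx N R j ε lam v) (ω : Pt m L) : Nt (bN L ε) v j 0 ω := by
  intro lo hi U a c q _ hac _ _ hcard
  have hU : U = ∅ := card_eq_zero.1 (Nat.le_zero.1 hcard)
  subst hU
  refine NB_mono33 (hBs m L N R v a c q lo hi ω hc.hv hac) ?_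
  have hX := h.hR
  have hX1 : (1 : ℝ) ≤ (L : ℝ) ^ ε := Real.one_le_rpow (by exact_mod_cast hc.hL) hc.hε.le
  have h1 : ((R : ℝ) + 1) ^ 2 ≤ ((R : ℝ) + 1) ^ (2 * m + 2) := by
    refine pow_le_pow_right₀ ?_ (by omega)
    have : (0 : ℝ) ≤ R := Nat.cast_nonneg R
    linarith
  have h2 : (2 * (R : ℝ) + 1) ^ 2 ≤ 4 * ((R : ℝ) + 1) ^ 2 := by
    have : (0 : ℝ) ≤ R := Nat.cast_nonneg R
    nlinarith
  have h3 : bl (∅ : Finset (Fin (m + 1))) lo hi = 1 := by simp [bl]
  rw [card_empty, h3, mul_one, bN_eq]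
  rw [pow_one]
  nlinarith

end S23

open S23

/-- STAGE -/
theorem stage_23 (hEx : StExch) (hRl : StRlaw) (hTM : StTopm) (hTS : StTops) (hQ : StHqu)
    (hB : StBext) (hBs : StBase) (hG : StGtN) (hLw : StLawN) (hTl : StTiltK) (hA : StAlx)
    (hTr : StTri) (hN : StNbt) (hS : StSc) : StStage := by
  intro m n ε hm hε
  set n' : ℕ := n + (3 * m + 3) with hn'
  obtain ⟨CE, hCE, hE⟩ := exch_event (m := m) (n := n') (ε1 := ε / 4) hEx hRl hG hLw
    (by omega) (by linarith)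
  obtain ⟨CT, hCT, hT⟩ := mat_inner hRl hTM hQ hB hTr hN m n' ε CE hm hε hCE hE
  obtain ⟨CZ, hCZ, hZ⟩ := mat_zero hTl hA hG hLw hTM hQ hB m n' ε CE hm hε
  obtain ⟨CS, hCS, hSs⟩ := scal hRl hTS hQ hB hTr hN m n' ε CE hm hε hCE hE
  obtain ⟨CA, hCA, hD⟩ := dens hTl hA hG hLw hS m n' ε CE hε
  set e1 : ℝ := Real.exp 1 with he1
  have he0 : 0 < e1 := Real.exp_pos 1
  set cg : ℝ := 2 / (ε / 4) + 1 with hcg
  set Λ : ℝ := 5 * CT + 5 * CZ + 5 * CS + CA with hΛ
  set A1 : ℝ := CE + e1 * CT + CZ with hA1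
  set A2 : ℝ := CE + e1 * CS with hA2
  set C : ℝ := 40000 * CE + 2401 * cg ^ 2 + Λ ^ (1 / (ε / 4)) +
    (m * (2 ^ (m + 1) * (m + 1) ^ 2) * A1 + A2 + CA) with hC
  have hΛ1 : 1 ≤ Λ := by
    rw [hΛ]
    linarith
  have hΛp : 0 ≤ Λ ^ (1 / (ε / 4)) := Real.rpow_nonneg (by linarith) _
  have hA10 : 0 ≤ A1 := by positivity
  have hA20 : 0 ≤ A2 := by positivity
  have hcnt : 0 ≤ (m : ℝ) * (2 ^ (m + 1) * (m + 1) ^ 2) * A1 := by positivity
  have hcg2 : 0 ≤ 2401 * cg ^ 2 := by positivity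
  refine ⟨C, by rw [hC]; linarith, ?_⟩
  intro L N R j lam v hL hj hlam hv hR hmain
  have hNm : Nm m L R ε lam CE cg Λ C := by
    refine ⟨hCE, ?_, ?_, ?_, hΛ1, le_rfl, hR, hmain⟩
    · rw [hC]; linarith
    · rw [hC]; linarith
    · rw [hC]; linarith
  have hc : Ctx N R j ε lam v := mkCtx hNm hm hL hj hε hlam hv
  have hlaw0 := hc.law hG hLw
  have hlaw := hc.lawj hG hLw
  have hgate := hc.gate hG
  -- pass to the law of the stage
  have hMs : Ms (one L 0 j) (fun ω : Pt m L => (∀ i < j, gN ε lam v i ω = 1) ∧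
      gN ε lam v j ω = 0) := by
    intro ω ω' h
    have e0 : gN ε lam v j ω' = gN ε lam v j ω := hgate.dep j ω ω' h
    have ei : ∀ i < j, gN ε lam v i ω' = gN ε lam v i ω := fun i hi =>
      (hgate.dep i).mono (fun e => one_mono hi.le e) ω ω' h
    show ((∀ i < j, gN ε lam v i ω' = 1) ∧ gN ε lam v j ω' = 0) =
      ((∀ i < j, gN ε lam v i ω = 1) ∧ gN ε lam v j ω = 0)
    rw [e0]
    congr 1
    refine propext ⟨fun h1 i hi => (ei i hi) ▸ h1 i hi, fun h1 i hi => (ei i hi).trans (h1 i hi)⟩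
  rw [Pr_cut hTl hlaw0.1 hlaw.1 hj.le (fun i hi ω => by rw [tg_gj, if_pos hi]) hMs]
  set ρ : Pt m L → ℝ := qq (tg lam (gj ε lam v j) v) with hρ
  -- the union
  have hsub : ∀ ω, ((∀ i < j, gN ε lam v i ω = 1) ∧ gN ε lam v j ω = 0) →
      ((∃ u < m, ∃ x ∈ IX m L, PX ε lam v j u x ω) ∨
        (∃ x ∈ FF m L ×ˢ FF m L ×ˢ range L, PS ε lam v j x ω)) ∨
      ((∀ i < j, gN ε lam v i ω = 1) ∧
        DN m L ε lam < lam * ∑ l ∈ range j, sb 0 l ω * XX v l ω) := by
    rintro ω ⟨hop, hcl⟩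
    have hcl' := gn_zero hcl
    by_cases hNt : ∃ u < m, Nt (bN L ε) v j u ω ∧ ¬ Nt (bN L ε) v j (u + 1) ω
    · obtain ⟨u, hu, h1, h2⟩ := hNt
      obtain ⟨x, hx, hP⟩ := not_Nt (lam := lam) ⟨hop, h1⟩ h2
      exact Or.inl (Or.inl ⟨u, hu, x, hx, hP⟩)
    · push Not at hNt
      have hall : ∀ u ≤ m, Nt (bN L ε) v j u ω := by
        intro u
        induction u with
        | zero => exact fun _ => Nt_zero hBs hNm hc ω
        | succ u ih => exact fun hu => hNt u (by omega) (ih (by omega))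
      by_cases hNs : Ns (BN m L ε) v j ω
      · right
        refine ⟨hop, ?_⟩
        by_contra hle
        rw [not_lt] at hle
        apply hcl'
        refine ⟨hj, hall m le_rfl, hNs, fun i hi => ?_⟩
        rcases Nat.lt_or_ge i j with h3 | h3
        · exact (gn_one.1 (hop i h3)).2.2.2 i le_rfl
        · have : i = j := by omega
          rw [this]
          exact hle
      · obtain ⟨x, hx, hP⟩ := not_Ns (lam := lam) ⟨hop, hall m le_rfl⟩ hNs
        exact Or.inl (Or.inr ⟨x, hx, hP⟩)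
  refine (Pr_mono hlaw.2 hsub).trans ?_
  refine (Pr_or_le hlaw.2 _ _).trans ?_
  refine (add_le_add_left (Pr_or_le hlaw.2 _ _) _).trans ?_
  have hL0 : (0 : ℝ) < L + 1 := by positivity
  have hp0 : (0 : ℝ) < (L + 1) ^ n' := by positivity
  -- matrices
  have hmat : Pr ρ (fun ω => ∃ u < m, ∃ x ∈ IX m L, PX ε lam v j u x ω) ≤
      (m : ℝ) * (2 ^ (m + 1) * (m + 1) ^ 2) * A1 / (L + 1) ^ n := by
    refine (Pr_exists_le hlaw.2 m _).trans ?_
    have hone : ∀ u ∈ range m, Pr ρ (fun ω => ∃ x ∈ IX m L, PX ε lam v j u x ω) ≤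
        ((IX m L).card : ℝ) * (A1 / (L + 1) ^ n') := by
      intro u hu
      have hu' := mem_range.1 hu
      refine (Pr_union33 hlaw.2 _ _).trans ?_
      rw [← nsmul_eq_mul, ← sum_const]
      refine sum_le_sum fun x _ => ?_
      by_cases hx : Ad L j x.2.2.2.1 x.2.1 ∧ x.2.2.2.2.1 ≠ x.2.2.2.2.2 ∧
          x.2.2.2.2.1 ∉ x.2.2.2.1 ∧ x.2.2.2.2.2 ∉ x.2.2.2.1 ∧ x.2.2.2.1.card = u + 1
      · obtain ⟨h1, h2, h3, h4, h5⟩ := hx
        by_cases hb : ∃ b ∈ x.2.2.2.1, b ≠ 0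
        · obtain ⟨b, hb1, hb2⟩ := hb
          have := hT L N R j u lam cg Λ C v x.2.2.2.1 x.2.2.2.2.1 x.2.2.2.2.2 b x.2.2.1 x.1 x.2.1
            hNm hc (by rw [hΛ]; linarith) hb1 hb2 h2 h3 h4 h5 h1
          refine (Pr_mono hlaw.2 fun ω hω => hω.2).trans (this.trans ?_)
          have : A1 / ((L : ℝ) + 1) ^ n' = CE / (L + 1) ^ n' + e1 * (CT / (L + 1) ^ n') +
              CZ / (L + 1) ^ n' := by
            rw [hA1]
            ring
          rw [this]
          have : 0 ≤ CZ / ((L : ℝ) + 1) ^ n' := by positivity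
          linarith
        · push Not at hb
          have hU0 : x.2.2.2.1 = {0} := by
            have hne : x.2.2.2.1.Nonempty := card_pos.1 (by omega)
            refine (eq_singleton_iff_nonempty_unique_mem).2 ⟨hne, fun b hb' => hb b hb'⟩
          have hu0 : u = 0 := by
            rw [hU0, card_singleton] at h5
            omega
          subst hu0
          have := hZ L N R j lam cg Λ C v x.2.2.2.1 x.2.2.2.2.1 x.2.2.2.2.2 x.2.2.1 x.1 x.2.1
            hNm hc (by rw [hΛ]; linarith) (by rw [hU0]; simp) h2 h3 h4 h5 h1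
          refine (Pr_mono hlaw.2 fun ω hω => hω.2).trans (this.trans ?_)
          have : A1 / ((L : ℝ) + 1) ^ n' = CE / (L + 1) ^ n' + e1 * (CT / (L + 1) ^ n') +
              CZ / (L + 1) ^ n' := by
            rw [hA1]
            ring
          rw [this]
          have : 0 ≤ CE / ((L : ℝ) + 1) ^ n' + e1 * (CT / (L + 1) ^ n') := by positivity
          linarith
      · rw [Pr_false33 fun ω hω => hx hω.1]
        positivity
    refine (sum_le_sum hone).trans ?_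
    rw [sum_const, card_range, nsmul_eq_mul, card_IX]
    have : ((L : ℝ) + 1) ^ n' = (L + 1) ^ n * (L + 1) ^ (3 * m + 3) := by
      rw [hn', pow_add]
    rw [this]
    push_cast
    refine le_of_eq ?_
    field_simp
  -- scalars
  have hscal : Pr ρ (fun ω => ∃ x ∈ FF m L ×ˢ FF m L ×ˢ range L, PS ε lam v j x ω) ≤
      A2 / (L + 1) ^ n := by
    refine (Pr_union33 hlaw.2 _ _).trans ?_
    have hone : ∀ x ∈ FF m L ×ˢ FF m L ×ˢ range L, Pr ρ (PS ε lam v j x) ≤
        A2 / (L + 1) ^ n' := by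
      intro x hx
      simp only [mem_product, mem_range] at hx
      by_cases hx2 : (∀ e, x.2.1 e ≤ L) ∧ x.2.1 0 ≤ j + 1
      · have := hSs L N R j x.2.2 lam cg Λ C v x.1 x.2.1 hNm hc (by rw [hΛ]; linarith) hx.2.2
          hx2.1 hx2.2
        refine (Pr_mono hlaw.2 fun ω hω => hω.2).trans (this.trans (le_of_eq ?_))
        rw [hA2]
        ring
      · rw [Pr_false33 fun ω hω => hx2 hω.1]
        positivity
    refine (sum_le_sum hone).trans ?_
    rw [sum_const, nsmul_eq_mul, card_product, card_product, card_FF, card_range]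
    have : ((L : ℝ) + 1) ^ n' = (L + 1) ^ n * ((L + 1) ^ (m + 1) * (L + 1) ^ (m + 1) *
        (L + 1)) * (L + 1) ^ m := by
      rw [hn']
      ring
    rw [this]
    push_cast
    have hLm : (1 : ℝ) ≤ (L + 1) ^ m := one_le_pow₀ (by linarith [Nat.cast_nonneg (α := ℝ) L])
    rw [mul_div_assoc', div_le_div_iff₀ (by positivity) (by positivity)]
    have h1 : ((L : ℝ) + 1) ^ (m + 1) * ((L + 1) ^ (m + 1) * L) * A2 ≤
        ((L : ℝ) + 1) ^ (m + 1) * ((L + 1) ^ (m + 1) * (L + 1)) * A2 := by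
      gcongr
      linarith
    calc ((L : ℝ) + 1) ^ (m + 1) * ((L + 1) ^ (m + 1) * L) * A2 * (L + 1) ^ n ≤
        ((L : ℝ) + 1) ^ (m + 1) * ((L + 1) ^ (m + 1) * (L + 1)) * A2 * (L + 1) ^ n := by gcongr
      _ = A2 * ((L + 1) ^ n * ((L + 1) ^ (m + 1) * (L + 1) ^ (m + 1) * (L + 1))) * 1 := by ring
      _ ≤ A2 * ((L + 1) ^ n * ((L + 1) ^ (m + 1) * (L + 1) ^ (m + 1) * (L + 1))) *
          (L + 1) ^ m := by gcongr
      _ = _ := by ring
  -- density
  have hdens : Pr ρ (fun ω => (∀ i < j, gN ε lam v i ω = 1) ∧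
      DN m L ε lam < lam * ∑ l ∈ range j, sb 0 l ω * XX v l ω) ≤ CA / (L + 1) ^ n := by
    refine (hD L N R j lam cg Λ C v hNm hc (by rw [hΛ]; linarith)).trans ?_
    have h1 : ((L : ℝ) + 1) ^ n ≤ (L + 1) ^ n' :=
      pow_le_pow_right₀ (by linarith [Nat.cast_nonneg (α := ℝ) L]) (by omega)
    gcongr
  refine (add_le_add (add_le_add hmat hscal) hdens).trans ?_
  rw [← add_div, ← add_div]
  refine div_le_div_of_nonneg_right ?_ (by positivity)
  rw [hC]
  linarith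

/-- OPENN -/
theorem openN_23 (hSt : StStage) (hG : StGtN) (hLw : StLawN) : StOpenN := by
  intro m n ε hm hε
  obtain ⟨C, hC, hS⟩ := hSt m (n + 1) ε hm hε
  refine ⟨C + 49, by linarith, ?_⟩
  intro L N R lam v hL hlam hv hR hmain
  have hL1 : (1 : ℝ) ≤ L := by exact_mod_cast hL
  have hX : (1 : ℝ) ≤ (L : ℝ) ^ ε := Real.one_le_rpow hL1 hε.le
  have hmain1 : C * (1 + lam ^ 2 * (L : ℝ) ^ m) ^ 2 * (L : ℝ) ^ ((4 * (m : ℝ) + 8) * ε) ≤ L := by
    refine le_trans ?_ hmain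
    gcongr
    linarith
  have e : ((L : ℝ) ^ ε) ^ (4 * m + 8) = (L : ℝ) ^ ((4 * (m : ℝ) + 8) * ε) := by
    rw [← Real.rpow_natCast, ← Real.rpow_mul (Nat.cast_nonneg L)]
    congr 1
    push_cast
    ring
  have hsmall : 49 * (lam ^ 2 * (L : ℝ) ^ m) * ((L : ℝ) ^ ε) ^ (m + 1) ≤ L := by
    refine SN23.first (m := m) (C := C + 49) (by linarith) hX (by positivity) ?_ (by norm_num)
      (by linarith) (by omega)
    rw [e]
    exact hmain
  have hc : ∀ j < L, Ctx N R j ε lam v := fun j hj => ⟨hm, hL, hj, hε, hlam, hv, hsmall⟩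
  have hc0 := hc 0 (by omega)
  have hgate := hc0.gate hG
  have hlaw := hc0.law hG hLw
  have hL0 : (0 : ℝ) < L := by linarith
  refine ⟨hgate, ?_, hlaw.1, hlaw.2, ?_⟩
  · refine (hG m L N R (bN L ε) (BN m L ε) (DN m L ε lam) lam
      (fun u => BN m L ε / (L : ℝ) ^ (m - 1) * (L : ℝ) ^ u) v hv bN_nonneg ?_ ?_).2
    · intro u hu
      have e2 : BN m L ε / (L : ℝ) ^ (m - 1) = 49 * ((L : ℝ) ^ ε) ^ (m + 1) := by
        rw [BN_eq]
        field_simp
      rw [e2, bN_eq]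
      have := pow_le_pow_right₀ hX (by omega : u + 1 ≤ m + 1)
      gcongr
    · have : (0 : ℝ) < (L : ℝ) ^ (m - 1) := by positivity
      rw [div_mul_cancel₀ _ this.ne']
  · have hsub : ∀ ω : Pt m L, (∃ j < L, gN ε lam v j ω = 0) →
        ∃ j < L, (∀ i < j, gN ε lam v i ω = 1) ∧ gN ε lam v j ω = 0 := by
      rintro ω ⟨j, hj, h0⟩
      classical
      have hex : ∃ j, gN ε lam v j ω = 0 := ⟨j, h0⟩
      refine ⟨Nat.find hex, lt_of_le_of_lt (Nat.find_min' hex h0) hj, fun i hi => ?_,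
        Nat.find_spec hex⟩
      exact (hgate.zo i ω).resolve_left (Nat.find_min hex hi)
    refine (Pr_mono hlaw.2 hsub).trans ((Pr_exists_le hlaw.2 L _).trans ?_)
    have hone : ∀ j ∈ range L, Pr (qq (tg lam (gN ε lam v) v))
        (fun ω => (∀ i < j, gN ε lam v i ω = 1) ∧ gN ε lam v j ω = 0) ≤
        C / (L + 1) ^ (n + 1) := fun j hj =>
      hS L N R j lam v hL (mem_range.1 hj) hlam hv hR hmain1
    refine (sum_le_sum hone).trans ?_
    rw [sum_const, card_range, nsmul_eq_mul, pow_succ, mul_div_assoc',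
      div_le_div_iff₀ (by positivity) (by positivity)]
    have h1 : (L : ℝ) * C * (L + 1) ^ n ≤ (L + 1) * (C + 49) * (L + 1) ^ n := by
      gcongr <;> linarith
    calc (L : ℝ) * C * (L + 1) ^ n ≤ (L + 1) * (C + 49) * (L + 1) ^ n := h1
      _ = (C + 49) * ((L + 1) ^ n * (L + 1)) := by ring

end Pool.Agent.SHD
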