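import Pool.Agent.Lib.MP_a7b2aa_an.SHD.Stmts3_23

/-! SHD3, module TOPS (helper30): one more summed string, scalar sums. -/

set_option autoImplicit false

namespace Pool.Agent.SHD

open Finset Pool.Agent.SB3 Pool.Agent.SBT Pool.Agent.SBD

namespace T30

variable {m L : ℕ}

open Classical in
theorem Pr_mono_ne {k : ℝ} {ρ : Pt m L → ℝ} (h : Law k ρ) {P Q : Pt m L → Prop}
    (hPQ : ∀ ω, ρ ω ≠ 0 → P ω → Q ω) : Pr ρ P ≤ Pr ρ Q := by
  unfold Pr Ex
  refine Av_mono fun ω => ?_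
  by_cases h0 : ρ ω = 0
  · simp [h0]
  · refine mul_le_mul_of_nonneg_left ?_ (h.nonneg ω)
    by_cases hP : P ω
    · simp [hP, hPQ ω h0 hP]
    · by_cases hQ : Q ω <;> simp [hP, hQ]

open Classical in
theorem Pr_fin_le {ι : Type} {k : ℝ} {ρ : Pt m L → ℝ} (h : Law k ρ) (S : Finset ι)
    (P : ι → Pt m L → Prop) :
    Pr ρ (fun ω => ∃ T ∈ S, P T ω) ≤ ∑ T ∈ S, Pr ρ (P T) := by
  unfold Pr
  rw [← Ex_sum]
  refine Ex_mono h fun ω => ?_
  have h0 : ∀ T, 0 ≤ (if P T ω then (1 : ℝ) else 0) := by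
    intro T
    by_cases hP : P T ω <;> simp [hP]
  by_cases hP : ∃ T ∈ S, P T ω
  · obtain ⟨T, hT, hP'⟩ := hP
    have h2 := Finset.single_le_sum (f := fun T => if P T ω then (1 : ℝ) else 0)
      (fun T _ => h0 T) hT
    rw [if_pos hP'] at h2
    refine le_trans ?_ h2
    by_cases hh : ∃ T ∈ S, P T ω <;> simp [hh]
  · simp only [hP, if_false]
    exact sum_nonneg fun T _ => h0 T

theorem Ms_cut {lo hi : Fin (m + 1) → ℕ} {v : (Fin (m + 1) → ℕ) → Pt m L → ℝ}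
    (hv : ∀ q, Ms q (v q)) (q : Fin (m + 1) → ℕ) : Ms q (cut lo hi v q) := by
  intro ω ω' hω
  unfold cut
  rw [hv q ω ω' hω]

theorem Ms_Bm {lo hi : Fin (m + 1) → ℕ} {v : (Fin (m + 1) → ℕ) → Pt m L → ℝ}
    (hv : ∀ q, Ms q (v q)) (b : Fin (m + 1)) (i t : ℕ) :
    Ms (one L b t) (Bm b (cut lo hi v) i t) := by
  unfold Bm
  refine Ms.sum _ fun r hr => ?_
  have hrb : r b = t := by
    have := (mem_fr.1 hr).2 b (by simp)
    simpa using this
  refine Ms.comp2 (Ms_ps_one (by simp) r t) ?_ (fun x y => x * y)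
  exact (Ms_cut hv r).one b t hrb.le

theorem XX_eq (w : (Fin (m + 1) → ℕ) → Pt m L → ℝ) {b : Fin (m + 1)} (hb : b ≠ 0) (i : ℕ)
    (ω : Pt m L) : XX w i ω = ∑ r ∈ range L, sb b r ω * Bm b w i r ω := by
  have hU : insert b ((Inn m).erase b) = Inn m := by
    rw [insert_erase]
    simp [Inn, hb]
  unfold XX Bm
  conv_lhs => rw [← hU]
  rw [sum_fr_insert (by simp)]
  refine sum_congr rfl fun r _ => ?_
  rw [mul_sum]
  refine sum_congr rfl fun q hq => ?_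
  have hqb : q b = r := by
    have := (mem_fr.1 hq).2 b (by simp)
    simpa using this
  rw [ps_insert (by simp), hqb]
  ring

theorem bl_nonneg (U : Finset (Fin (m + 1))) (lo hi : Fin (m + 1) → ℕ) : 0 ≤ bl U lo hi :=
  prod_nonneg fun _ _ => Nat.cast_nonneg _

theorem bl_le (U : Finset (Fin (m + 1))) {lo hi : Fin (m + 1) → ℕ} (h : ∀ e, hi e ≤ L) :
    bl U lo hi ≤ (L : ℝ) ^ U.card := by
  unfold bl
  refine (prod_le_prod (fun _ _ => Nat.cast_nonneg _) (g := fun _ => (L : ℝ)) fun e _ => ?_).trans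
    (by rw [prod_const])
  have := h e
  exact_mod_cast (by omega : hi e - lo e ≤ L)

/-- the column `i` -/
theorem sum_Bm_sq {v : (Fin (m + 1) → ℕ) → Pt m L → ℝ} {b : Fin (m + 1)} {i : ℕ} (hi : i < L)
    {B : ℝ} {ω : Pt m L} (q : Fin (m + 1) → ℕ) (hb : b ≠ 0)
    (h : NB (Mg ((Inn m).erase b) b 0 q v ω) B) :
    ∑ r ∈ range L, Bm b v i r ω ^ 2 ≤ B := by
  have h1 := h (fun y => if y = ⟨i, hi⟩ then 1 else 0)
  have h2 : ∑ y : Fin L, (if y = ⟨i, hi⟩ then (1 : ℝ) else 0) ^ 2 = 1 := by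
    simp
  rw [h2, mul_one] at h1
  refine le_trans (le_of_eq ?_) h1
  rw [← Fin.sum_univ_eq_sum_range (fun r => Bm b v i r ω ^ 2) L]
  refine sum_congr rfl fun x _ => ?_
  congr 1
  simp only [mul_ite, mul_one, mul_zero, sum_ite_eq', mem_univ, if_true]
  unfold Mg Bm
  rw [Matrix.of_apply]
  rw [fr_congr (q' := Function.update (Function.update q b (x : ℕ)) 0 i)]
  intro a ha
  by_cases h0 : a = 0
  · subst h0
    simp [Function.update_of_ne (Ne.symm hb)]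
  · have hab : a = b := by
      by_contra hne
      exact ha (by simp [Inn, hne, h0])
    subst hab
    simp [h0]

theorem card_inn {b : Fin (m + 1)} (hb : b ≠ 0) : ((Inn m).erase b).card = m - 1 := by
  rw [card_erase_of_mem (by simp [Inn, hb])]
  unfold Inn
  rw [card_erase_of_mem (mem_univ _), card_univ, Fintype.card_fin]
  omega

theorem card_ub {b s : Fin (m + 1)} (h : s ≠ b) :
    (((univ : Finset (Fin (m + 1))).erase b).erase s).card = m - 1 := by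
  rw [card_erase_of_mem (by simp [h]), card_erase_of_mem (mem_univ _), card_univ, Fintype.card_fin]
  omega

/-- logarithms against powers -/
theorem log_num (m : ℕ) (ε : ℝ) (hε : 0 < ε) : ∃ K : ℝ, 1 ≤ K ∧ ∀ L : ℕ, 1 ≤ L →
    ((Nat.log 2 L : ℝ) + 1) ^ (2 * m) ≤ K * (L : ℝ) ^ ε ∧
    Real.log ((L : ℝ) + 1) ≤ K * (L : ℝ) ^ ε := by
  set δ : ℝ := ε / (2 * m + 1) with hδ
  have hδ0 : 0 < δ := by positivity
  set A : ℝ := 2 / δ + 1 with hA
  have hA1 : 1 ≤ A := by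
    have : 0 < 2 / δ := by positivity
    linarith
  refine ⟨A ^ (2 * m + 1), one_le_pow₀ hA1, fun L hL => ?_⟩
  have hL1 : (1 : ℝ) ≤ L := by exact_mod_cast hL
  have hL0 : (0 : ℝ) ≤ L := by linarith
  have hp1 : 1 ≤ (L : ℝ) ^ δ := Real.one_le_rpow hL1 hδ0.le
  have hlog : Real.log L ≤ (L : ℝ) ^ δ / δ := Real.log_le_rpow_div hL0 hδ0
  have hl2 : (1 : ℝ) / 2 < Real.log 2 := by
    have := Real.log_two_gt_d9
    linarith
  have hpow : ((L : ℝ) ^ δ) ^ (2 * m + 1) = (L : ℝ) ^ ε := by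
    rw [← Real.rpow_natCast, ← Real.rpow_mul hL0]
    congr 1
    rw [hδ]
    push_cast
    field_simp
  have key : A * (L : ℝ) ^ δ ≤ A ^ (2 * m + 1) * (L : ℝ) ^ ε := by
    rw [← hpow, ← mul_pow]
    exact le_self_pow₀ (by nlinarith) (by omega)
  constructor
  · have h1 : (Nat.log 2 L : ℝ) ≤ 2 * Real.log L := by
      have h2 : (2 : ℝ) ^ (Nat.log 2 L) ≤ L := by
        exact_mod_cast Nat.pow_log_le_self 2 (by omega)
      have h3 := Real.log_le_log (by positivity) h2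
      rw [Real.log_pow] at h3
      have h4 : (0 : ℝ) ≤ (Nat.log 2 L : ℝ) := Nat.cast_nonneg _
      nlinarith
    have h5 : (Nat.log 2 L : ℝ) + 1 ≤ A * (L : ℝ) ^ δ := by
      have : 2 * Real.log L ≤ 2 / δ * (L : ℝ) ^ δ := by
        calc 2 * Real.log L ≤ 2 * ((L : ℝ) ^ δ / δ) := by linarith
          _ = 2 / δ * (L : ℝ) ^ δ := by ring
      rw [hA, add_mul, one_mul]
      linarith
    calc ((Nat.log 2 L : ℝ) + 1) ^ (2 * m) ≤ (A * (L : ℝ) ^ δ) ^ (2 * m) :=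
          pow_le_pow_left₀ (by positivity) h5 _
      _ ≤ (A * (L : ℝ) ^ δ) ^ (2 * m + 1) :=
          pow_le_pow_right₀ (by nlinarith) (by omega)
      _ = A ^ (2 * m + 1) * (L : ℝ) ^ ε := by rw [mul_pow, hpow]
  · refine le_trans ?_ key
    have h1 : Real.log ((L : ℝ) + 1) ≤ Real.log 2 + Real.log L := by
      rw [← Real.log_mul (by norm_num) (by positivity)]
      exact Real.log_le_log (by positivity) (by linarith)
    have h2 : Real.log 2 ≤ 1 := by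
      have := Real.log_two_lt_d9
      linarith
    have h3 : 1 / δ * (L : ℝ) ^ δ ≤ 2 / δ * (L : ℝ) ^ δ := by
      gcongr
      norm_num
    rw [hA, add_mul, one_mul]
    have h4 : (L : ℝ) ^ δ / δ = 1 / δ * (L : ℝ) ^ δ := by ring
    linarith

/-- the square of the sum of the main terms -/
theorem sq_num {ι : Type} (S : Finset ι) (M A B lam k : ℝ) (e P Q : ι → ℝ)
    (a b p q κ : ℝ) (hM : (S.card : ℝ) ≤ M) (he : ∀ T ∈ S, |e T| ≤ 1)
    (hA : A ^ 2 ≤ a) (hB : B ^ 2 ≤ b) (hP : ∀ T ∈ S, P T ^ 2 ≤ p)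
    (hQ : ∀ T ∈ S, Q T ^ 2 ≤ q) (hk : k ^ 2 ≤ κ) (hp : 0 ≤ p) (hq : 0 ≤ q) :
    (A + B + lam * (∑ T ∈ S, e T * (P T + Q T) + k)) ^ 2 ≤
      3 * a + 3 * b + lam ^ 2 * (12 * M ^ 2 * (p + q) + 6 * κ) := by
  set W := ∑ T ∈ S, e T * (P T + Q T) with hW
  have hM0 : 0 ≤ M := le_trans (Nat.cast_nonneg _) hM
  have h1 : W ^ 2 ≤ M ^ 2 * (2 * (p + q)) := by
    have h2 : W ^ 2 ≤ (∑ T ∈ S, (e T) ^ 2) * ∑ T ∈ S, (P T + Q T) ^ 2 :=
      sum_mul_sq_le_sq_mul_sq _ _ _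
    have h3 : ∑ T ∈ S, (e T) ^ 2 ≤ M := by
      calc ∑ T ∈ S, (e T) ^ 2 ≤ ∑ T ∈ S, (1 : ℝ) := sum_le_sum fun T hT => by
            have := he T hT
            rw [← sq_abs]
            nlinarith [abs_nonneg (e T)]
        _ = S.card := by simp
        _ ≤ M := hM
    have h4 : ∑ T ∈ S, (P T + Q T) ^ 2 ≤ M * (2 * (p + q)) := by
      calc ∑ T ∈ S, (P T + Q T) ^ 2 ≤ ∑ T ∈ S, 2 * (p + q) := sum_le_sum fun T hT => by
            have h5 := hP T hT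
            have h6 := hQ T hT
            nlinarith [sq_nonneg (P T - Q T)]
        _ = S.card * (2 * (p + q)) := by rw [sum_const, nsmul_eq_mul]
        _ ≤ M * (2 * (p + q)) := mul_le_mul_of_nonneg_right hM (by linarith)
    calc W ^ 2 ≤ (∑ T ∈ S, (e T) ^ 2) * ∑ T ∈ S, (P T + Q T) ^ 2 := h2
      _ ≤ M * (M * (2 * (p + q))) :=
          mul_le_mul h3 h4 (sum_nonneg fun _ _ => sq_nonneg _) hM0
      _ = M ^ 2 * (2 * (p + q)) := by ring
  have h5 : (W + k) ^ 2 ≤ 4 * M ^ 2 * (p + q) + 2 * κ := by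
    nlinarith [sq_nonneg (W - k)]
  have h6 : (A + B + lam * (W + k)) ^ 2 ≤ 3 * A ^ 2 + 3 * B ^ 2 + 3 * (lam * (W + k)) ^ 2 := by
    nlinarith [sq_nonneg (A - B), sq_nonneg (A - lam * (W + k)), sq_nonneg (B - lam * (W + k))]
  have h7 : (lam * (W + k)) ^ 2 ≤ lam ^ 2 * (4 * M ^ 2 * (p + q) + 2 * κ) := by
    rw [mul_pow]
    exact mul_le_mul_of_nonneg_left h5 (sq_nonneg _)
  nlinarith

end T30

open T30 in
/-- TOPS -/
theorem tops_30 (hSc : StSc) (hTail : StTail) (hKms : StKms) (hKbs : StKbs) (hCrud : StCrud)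
    (hSplit : StSplit) : StTops := by
  classical
  intro m n ε hm hε
  obtain ⟨c1, hc1, hsc⟩ := hSc n (ε / 2) (by positivity)
  obtain ⟨K, hK, hlog⟩ := log_num m (ε / 4) (by positivity)
  set M : ℝ := 2 ^ m with hM
  have hM1 : 1 ≤ M := one_le_pow₀ (by norm_num)
  set Q0 : ℝ := (4 + 8 * n * K) * K with hQ0
  have hQ00 : 0 ≤ Q0 := by positivity
  set C : ℝ := 3 * c1 + 3 + 12 * M ^ 2 * (c1 * K + Q0) + 6 * 2 ^ (2 * m + 2) +
    (c1 + M * (c1 + 1)) with hC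
  have hC1 : 1 ≤ C := by
    have h1 : 0 ≤ 12 * M ^ 2 * (c1 * K + Q0) := by positivity
    have h2 : 0 ≤ (6 : ℝ) * 2 ^ (2 * m + 2) := by positivity
    have h3 : 0 ≤ M * (c1 + 1) := by positivity
    linarith
  refine ⟨C, hC1, ?_⟩
  intro L N R j i κ lam β1 β2 η ρ v G b lo hi hL hj hi0 hκ hlam hβ1 hβ2 hη hρ hv hb hhi hG1 hG2 hG3
  have hL1 : (1 : ℝ) ≤ L := by exact_mod_cast hL
  have hL0 : (0 : ℝ) ≤ L := by linarith
  set lo' : Fin (m + 1) → ℕ := fun _ => 0 with hlo'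
  set hi' : Fin (m + 1) → ℕ := jb L j with hhi'
  have hi'L : ∀ e, hi' e ≤ L := by
    intro e
    rw [hhi']
    unfold jb
    by_cases he : e = 0
    · subst he
      simpa using hj
    · rw [Function.update_of_ne he]
  set S : Finset (Finset (Fin (m + 1))) := (univ.erase b).powerset.erase ∅ with hS
  have hSne : ∀ T ∈ S, T.Nonempty := by
    intro T hT
    rw [hS, mem_erase] at hT
    exact nonempty_iff_ne_empty.2 hT.1
  have hSb : ∀ T ∈ S, b ∉ T := by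
    intro T hT hbT
    rw [hS, mem_erase, mem_powerset] at hT
    have := hT.2 hbT
    simp at this
  have hScard : (S.card : ℝ) ≤ M := by
    have h1 : S.card ≤ 2 ^ m := by
      refine (card_le_card (erase_subset _ _)).trans ?_
      rw [card_powerset, card_erase_of_mem (mem_univ _), card_univ, Fintype.card_fin]
      simp
    rw [hM]
    exact_mod_cast h1
  set s : Finset (Fin (m + 1)) → Fin (m + 1) := fun T => if h : T.Nonempty then h.choose else 0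
    with hs
  have hsT : ∀ T : Finset (Fin (m + 1)), T.Nonempty → s T ∈ T := by
    intro T hT
    rw [hs]
    simp only [hT, dif_pos]
    exact hT.choose_spec
  have hsb : ∀ T ∈ S, s T ≠ b := by
    intro T hT h
    exact hSb T hT (h ▸ hsT T (hSne T hT))
  -- the pieces
  set V : ℕ → Pt m L → ℝ := fun r => Bm b (cut lo hi v) i r with hV
  set k : Finset (Fin (m + 1)) → ℕ → Pt m L → ℝ := fun T u => k1 T b (s T) i v lo' hi' lo hi u
    with hk
  set Z : ℝ := β1 * (L : ℝ) ^ (m - 1) with hZ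
  have hZ0 : 0 ≤ Z := by positivity
  set Z2 : ℝ := K * (L : ℝ) ^ (ε / 4) * (β2 * (L : ℝ) ^ (m - 1)) * Z with hZ2
  have hZ20 : 0 ≤ Z2 := by positivity
  have hVs : ∀ ω, G ω → ∑ r ∈ range L, V r ω ^ 2 ≤ Z := by
    intro ω hω
    refine (sum_Bm_sq hi0 (fun _ => 0) hb (hG1 ω hω lo hi (fun _ => 0) fun e => le_rfl)).trans ?_
    rw [hZ]
    refine mul_le_mul_of_nonneg_left ?_ (by linarith)
    have := bl_le ((Inn m).erase b) (lo := lo) hhi
    rwa [card_inn hb] at this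
  have hks : ∀ T ∈ S, ∀ ω, G ω → ∑ u ∈ range L, k T u ω ^ 2 ≤ Z2 := by
    intro T hT ω hω
    have h1 := hKbs m L i β1 β2 T b (s T) v lo' hi' lo hi ω (by linarith) (by linarith) hb
      (hsb T hT) (hSb T hT) hi0 hi'L hhi (fun lo2 hi2 q2 h => hG1 ω hω lo2 hi2 q2 h)
      (fun lo2 hi2 h => hG2 ω hω (s T) lo2 hi2 (hsb T hT) h)
    refine h1.trans ?_
    have hcard : T.card ≤ m := by
      rw [hS, mem_erase, mem_powerset] at hT
      have := card_le_card hT.2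
      rw [card_erase_of_mem (mem_univ _), card_univ, Fintype.card_fin] at this
      simpa using this
    have h2 : ((Nat.log 2 L : ℝ) + 1) ^ (2 * T.card) ≤ K * (L : ℝ) ^ (ε / 4) := by
      refine le_trans ?_ (hlog L hL).1
      refine pow_le_pow_right₀ ?_ (by omega)
      have : (0 : ℝ) ≤ (Nat.log 2 L : ℝ) := Nat.cast_nonneg _
      linarith
    have h3 := bl_le ((univ.erase b).erase (s T)) (lo := lo') hi'L
    rw [card_ub (hsb T hT)] at h3
    have h4 := bl_le ((Inn m).erase b) (lo := lo) hhi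
    rw [card_inn hb] at h4
    rw [hZ2, hZ]
    have b1 := bl_nonneg ((univ.erase b).erase (s T)) lo' hi'
    have b2 := bl_nonneg ((Inn m).erase b) lo hi
    gcongr
  -- the events
  set A : Pt m L → ℝ := fun ω => ∑ r ∈ range L, (sb b r ω - al ρ b r ω) * V r ω with hA
  set P : Finset (Fin (m + 1)) → Pt m L → ℝ := fun T ω =>
    ∑ u ∈ range L, (sb (s T) u ω - al ρ (s T) u ω) * k T u ω with hP
  set E1 : Pt m L → Prop := fun ω => ∑ r ∈ range L, V r ω ^ 2 ≤ Z ∧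
    c1 * (L : ℝ) ^ (ε / 2) * Z < A ω ^ 2 with hE1
  set E2 : Finset (Fin (m + 1)) → Pt m L → Prop := fun T ω => (∑ u ∈ range L, k T u ω ^ 2 ≤ Z2 ∧
    c1 * (L : ℝ) ^ (ε / 2) * Z2 < P T ω ^ 2) ∨
      4 * κ + 8 * n * Real.log (L + 1) < A2 ρ (s T) ω with hE2
  have hp1 : Pr ρ E1 ≤ c1 / (L + 1) ^ n :=
    hsc m L b V κ Z ρ hL hρ hZ0 fun t => Ms_Bm hv.dep b i t
  have hp2 : ∀ T ∈ S, Pr ρ (E2 T) ≤ (c1 + 1) / (L + 1) ^ n := by
    intro T hT
    refine (Pr_or_le hρ _ _).trans ?_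
    rw [add_div]
    refine add_le_add ?_ ((hTail m L κ ρ hρ).2 (s T) n)
    refine hsc m L (s T) (k T) κ Z2 ρ hL hρ hZ20 fun t => ?_
    exact (hKms m L N R T b (s T) ∅ 0 0 (fun _ => 0) v lo' hi' lo hi i t hv
      (hsT T (hSne T hT)) (hsb T hT)).2
  have hbad : Pr ρ (fun ω => E1 ω ∨ ∃ T ∈ S, E2 T ω) ≤ C / (L + 1) ^ n := by
    refine (Pr_or_le hρ _ _).trans ?_
    have h1 : Pr ρ (fun ω => ∃ T ∈ S, E2 T ω) ≤ M * ((c1 + 1) / (L + 1) ^ n) := by
      refine (Pr_fin_le hρ S E2).trans ?_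
      refine (sum_le_sum hp2).trans ?_
      rw [sum_const, nsmul_eq_mul]
      exact mul_le_mul_of_nonneg_right hScard (by positivity)
    refine (add_le_add hp1 h1).trans ?_
    rw [← mul_div_assoc, ← add_div]
    gcongr
    rw [hC]
    have h1 : 0 ≤ 12 * M ^ 2 * (c1 * K + Q0) := by positivity
    have h2 : 0 ≤ (6 : ℝ) * 2 ^ (2 * m + 2) := by positivity
    linarith
  refine (Pr_mono_ne hρ ?_).trans hbad
  rintro ω hρω ⟨hω, hlt⟩
  by_contra hno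
  rw [not_or] at hno
  obtain ⟨hn1, hn2⟩ := hno
  push Not at hn2
  refine absurd hlt (not_lt.2 ?_)
  -- the bounds off the events
  have hA2 : A ω ^ 2 ≤ c1 * (L : ℝ) ^ (ε / 2) * Z := by
    by_contra h
    exact hn1 ⟨hVs ω hω, not_le.1 h⟩
  set B : ℝ := ∑ r ∈ range L, (al ρ b r ω - lam * hq b v lo' hi' r ω) * V r ω with hB
  have hB2 : B ^ 2 ≤ η * Z := by
    refine (sum_mul_sq_le_sq_mul_sq _ _ _).trans ?_
    exact mul_le_mul (hG3 ω hω hρω) (hVs ω hω) (sum_nonneg fun _ _ => sq_nonneg _) hη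
  have hP2 : ∀ T ∈ S, P T ω ^ 2 ≤ c1 * (L : ℝ) ^ (ε / 2) * Z2 := by
    intro T hT
    by_contra h
    exact hn2 T hT (Or.inl ⟨hks T hT ω hω, not_le.1 h⟩)
  set Q : Finset (Fin (m + 1)) → ℝ := fun T =>
    ∑ u ∈ range L, al ρ (s T) u ω * k T u ω with hQ
  have hQ2 : ∀ T ∈ S, Q T ^ 2 ≤ (4 * κ + 8 * n * Real.log (L + 1)) * Z2 := by
    intro T hT
    refine (sum_mul_sq_le_sq_mul_sq _ _ _).trans ?_
    have h1 : A2 ρ (s T) ω ≤ 4 * κ + 8 * n * Real.log (L + 1) := by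
      by_contra h
      exact hn2 T hT (Or.inr (not_le.1 h))
    refine mul_le_mul h1 (hks T hT ω hω) (sum_nonneg fun _ _ => sq_nonneg _) ?_
    have := Real.log_nonneg (by linarith : (1 : ℝ) ≤ (L : ℝ) + 1)
    positivity
  have hk0 := (hCrud m L N R b v lo' hi' lo hi ω hv hhi).2 i hb
  have hX : XX (cut lo hi v) i ω = A ω + B + lam * (∑ T ∈ S, (-1 : ℝ) ^ (T.card + 1) *
      (P T ω + Q T) + k0 b i v lo' hi' lo hi ω) := by
    have h1 := (hSplit m L b v lo' hi' lo hi s ω hsT).2 i hb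
    have h2 : ∀ T : Finset (Fin (m + 1)), P T ω + Q T = ∑ u ∈ range L, sb (s T) u ω *
        k1 T b (s T) i v lo' hi' lo hi u ω := by
      intro T
      rw [hP, hQ]
      simp only
      rw [← sum_add_distrib]
      refine sum_congr rfl fun u _ => ?_
      rw [hk]
      ring
    simp_rw [h2]
    rw [← h1, XX_eq _ hb, hA, hB]
    simp only
    rw [mul_sum, ← sum_add_distrib, ← sum_add_distrib]
    refine sum_congr rfl fun r _ => ?_
    rw [hV]
    ring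
  rw [hX]
  refine (sq_num S M (A ω) B lam _ _ (fun T => P T ω) Q _ _ _ _ _ hScard (fun T _ => ?_) hA2 hB2
    hP2 hQ2 hk0 (by positivity) ?_).trans ?_
  · rw [abs_pow]
    simp
  · have := Real.log_nonneg (by linarith : (1 : ℝ) ≤ (L : ℝ) + 1)
    positivity
  -- numbers
  have e1 : (L : ℝ) ^ (ε / 2) ≤ (L : ℝ) ^ ε := Real.rpow_le_rpow_of_exponent_le hL1 (by linarith)
  have e2 : (L : ℝ) ^ (ε / 2) * (L : ℝ) ^ (ε / 4) ≤ (L : ℝ) ^ ε := by
    rw [← Real.rpow_add (by linarith)]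
    exact Real.rpow_le_rpow_of_exponent_le hL1 (by linarith)
  have e3 : (1 : ℝ) ≤ (L : ℝ) ^ (ε / 4) := Real.one_le_rpow hL1 (by positivity)
  have e4 : (L : ℝ) ^ (ε / 4) * (L : ℝ) ^ (ε / 4) ≤ (L : ℝ) ^ ε := by
    rw [← Real.rpow_add (by linarith)]
    exact Real.rpow_le_rpow_of_exponent_le hL1 (by linarith)
  have hLe : (1 : ℝ) ≤ (L : ℝ) ^ ε := Real.one_le_rpow hL1 hε.le
  set Λ : ℝ := (L : ℝ) ^ (m - 1) with hΛ
  have hΛ1 : 1 ≤ Λ := one_le_pow₀ hL1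
  -- first
  have f1 : 3 * (c1 * (L : ℝ) ^ (ε / 2) * Z) ≤ 3 * c1 * ((L : ℝ) ^ ε * Z) := by
    calc 3 * (c1 * (L : ℝ) ^ (ε / 2) * Z) = 3 * c1 * ((L : ℝ) ^ (ε / 2) * Z) := by ring
      _ ≤ 3 * c1 * ((L : ℝ) ^ ε * Z) := by gcongr
  have f2 : c1 * (L : ℝ) ^ (ε / 2) * Z2 ≤ c1 * K * (Λ * (β2 * (1 + κ) * (L : ℝ) ^ ε) * Z) := by
    calc c1 * (L : ℝ) ^ (ε / 2) * Z2 =
        c1 * K * (Λ * (β2 * ((L : ℝ) ^ (ε / 2) * (L : ℝ) ^ (ε / 4))) * Z) := by
          rw [hZ2]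
          ring
      _ ≤ c1 * K * (Λ * (β2 * (L : ℝ) ^ ε) * Z) := by gcongr
      _ ≤ c1 * K * (Λ * (β2 * (1 + κ) * (L : ℝ) ^ ε) * Z) := by
          gcongr
          nlinarith
  have f3 : (4 * κ + 8 * n * Real.log (L + 1)) * Z2 ≤
      Q0 * (Λ * (β2 * (1 + κ) * (L : ℝ) ^ ε) * Z) := by
    have g1 : 4 * κ + 8 * n * Real.log (L + 1) ≤
        (4 + 8 * n * K) * (1 + κ) * (L : ℝ) ^ (ε / 4) := by
      have g2 : 4 * κ ≤ 4 * (1 + κ) * (L : ℝ) ^ (ε / 4) := by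
        nlinarith
      have g3 : 8 * n * Real.log (L + 1) ≤ 8 * n * K * (1 + κ) * (L : ℝ) ^ (ε / 4) := by
        calc 8 * n * Real.log ((L : ℝ) + 1) ≤ 8 * n * (K * (L : ℝ) ^ (ε / 4)) := by
              gcongr
              exact (hlog L hL).2
          _ ≤ 8 * n * (K * (L : ℝ) ^ (ε / 4)) * (1 + κ) :=
              le_mul_of_one_le_right (by positivity) (by linarith)
          _ = 8 * n * K * (1 + κ) * (L : ℝ) ^ (ε / 4) := by ring
      linarith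
    calc (4 * κ + 8 * n * Real.log (L + 1)) * Z2 ≤
        ((4 + 8 * n * K) * (1 + κ) * (L : ℝ) ^ (ε / 4)) * Z2 := by gcongr
      _ = Q0 * (Λ * (β2 * (1 + κ) * ((L : ℝ) ^ (ε / 4) * (L : ℝ) ^ (ε / 4))) * Z) := by
          rw [hZ2, hQ0]
          ring
      _ ≤ Q0 * (Λ * (β2 * (1 + κ) * (L : ℝ) ^ ε) * Z) := by gcongr
  have f4 : (2 * (R : ℝ) + 1) ^ (2 * m + 2) * bl ((Inn m).erase b) lo hi ^ 2 ≤
      2 ^ (2 * m + 2) * (Λ * ((R : ℝ) + 1) ^ (2 * m + 2) * Z) := by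
    have g1 : bl ((Inn m).erase b) lo hi ≤ Λ := by
      have := bl_le ((Inn m).erase b) (lo := lo) hhi
      rwa [card_inn hb] at this
    have g0 := bl_nonneg ((Inn m).erase b) lo hi
    have g2 : bl ((Inn m).erase b) lo hi ^ 2 ≤ Λ * Z := by
      calc bl ((Inn m).erase b) lo hi ^ 2 ≤ Λ ^ 2 := pow_le_pow_left₀ g0 g1 2
        _ = Λ * Λ := by ring
        _ ≤ Λ * Z := by
          rw [hZ]
          gcongr
          exact le_mul_of_one_le_left (by positivity) hβ1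
    have g3 : (2 * (R : ℝ) + 1) ^ (2 * m + 2) ≤ (2 * ((R : ℝ) + 1)) ^ (2 * m + 2) :=
      pow_le_pow_left₀ (by positivity) (by linarith) _
    calc (2 * (R : ℝ) + 1) ^ (2 * m + 2) * bl ((Inn m).erase b) lo hi ^ 2 ≤
        (2 * ((R : ℝ) + 1)) ^ (2 * m + 2) * (Λ * Z) := by gcongr
      _ = 2 ^ (2 * m + 2) * (Λ * ((R : ℝ) + 1) ^ (2 * m + 2) * Z) := by
        rw [mul_pow]
        ring
  set a1 : ℝ := (L : ℝ) ^ ε * Z with ha1
  set a2 : ℝ := η * Z with ha2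
  set a3 : ℝ := Λ * (β2 * (1 + κ) * (L : ℝ) ^ ε) * Z with ha3
  set a4 : ℝ := Λ * ((R : ℝ) + 1) ^ (2 * m + 2) * Z with ha4
  have ha10 : 0 ≤ a1 := by positivity
  have ha20 : 0 ≤ a2 := by positivity
  have ha30 : 0 ≤ a3 := by positivity
  have ha40 : 0 ≤ a4 := by positivity
  have hgoal : C * β1 * ((L : ℝ) ^ ε + η + lam ^ 2 * Λ *
      (β2 * (1 + κ) * (L : ℝ) ^ ε + ((R : ℝ) + 1) ^ (2 * m + 2))) * Λ =
      C * (a1 + a2 + lam ^ 2 * (a3 + a4)) := by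
    rw [ha1, ha2, ha3, ha4, hZ]
    ring
  rw [hgoal]
  have hl2 : 0 ≤ lam ^ 2 := sq_nonneg _
  calc 3 * (c1 * (L : ℝ) ^ (ε / 2) * Z) + 3 * a2 +
        lam ^ 2 * (12 * M ^ 2 * (c1 * (L : ℝ) ^ (ε / 2) * Z2 +
          (4 * κ + 8 * n * Real.log (L + 1)) * Z2) +
        6 * ((2 * (R : ℝ) + 1) ^ (2 * m + 2) * bl ((Inn m).erase b) lo hi ^ 2))
      ≤ 3 * c1 * a1 + 3 * a2 + lam ^ 2 * (12 * M ^ 2 * (c1 * K * a3 + Q0 * a3) +
        6 * (2 ^ (2 * m + 2) * a4)) := by gcongr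
    _ ≤ C * a1 + C * a2 + lam ^ 2 * (C * a3 + C * a4) := by
        have r0 : 0 ≤ 12 * M ^ 2 * (c1 * K + Q0) := by positivity
        have r1 : 0 ≤ (6 : ℝ) * 2 ^ (2 * m + 2) := by positivity
        have r2 : 0 ≤ M * (c1 + 1) := by positivity
        have s1 : 3 * c1 ≤ C := by rw [hC]; linarith
        have s2 : 3 ≤ C := by rw [hC]; linarith
        have s3 : 12 * M ^ 2 * (c1 * K + Q0) ≤ C := by rw [hC]; linarith
        have s4 : 6 * 2 ^ (2 * m + 2) ≤ C := by rw [hC]; linarith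
        have t3 : 12 * M ^ 2 * (c1 * K * a3 + Q0 * a3) ≤ C * a3 := by
          calc 12 * M ^ 2 * (c1 * K * a3 + Q0 * a3) = 12 * M ^ 2 * (c1 * K + Q0) * a3 := by ring
            _ ≤ C * a3 := mul_le_mul_of_nonneg_right s3 ha30
        have t4 : 6 * (2 ^ (2 * m + 2) * a4) ≤ C * a4 := by
          calc 6 * (2 ^ (2 * m + 2) * a4) = 6 * 2 ^ (2 * m + 2) * a4 := by ring
            _ ≤ C * a4 := mul_le_mul_of_nonneg_right s4 ha40
        gcongr
    _ = C * (a1 + a2 + lam ^ 2 * (a3 + a4)) := by ring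

end Pool.Agent.SHD
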