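import Pool.Agent.Lib.MP_a7b2aa_an.SBD.EEB36
import Pool.Agent.Lib.MP_a7b2aa_an.SBD.Alf74
import Pool.Agent.Lib.MP_a7b2aa_an.SBD.ENT3
import Pool.Agent.Lib.MP_a7b2aa_an.SBD.TAIL3
import Pool.Agent.Lib.MP_a7b2aa_an.SHD.Stage23
import Pool.Agent.Lib.MP_a7b2aa_an.SHD.Base23
import Pool.Agent.Lib.MP_a7b2aa_an.SHD.Bext23
import Pool.Agent.Lib.MP_a7b2aa_an.SHD.Kms30
import Pool.Agent.Lib.MP_a7b2aa_an.SHD.Kb33
import Pool.Agent.Lib.MP_a7b2aa_an.SHD.Kbs69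
import Pool.Agent.Lib.MP_a7b2aa_an.SHD.Crud70
import Pool.Agent.Lib.MP_a7b2aa_an.SHD.Split26
import Pool.Agent.Lib.MP_a7b2aa_an.SHD.Sc74
import Pool.Agent.Lib.MP_a7b2aa_an.SHD.Frv38
import Pool.Agent.Lib.MP_a7b2aa_an.SHD.Mf438
import Pool.Agent.Lib.MP_a7b2aa_an.SHD.TopM32
import Pool.Agent.Lib.MP_a7b2aa_an.SHD.Tops30
import Pool.Agent.Lib.MP_a7b2aa_an.SHD.NbtExalg21
import Pool.Agent.Lib.MP_a7b2aa_an.SHD.TiltK65
import Pool.Agent.Lib.MP_a7b2aa_an.SHD.Alx30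
import Pool.Agent.Lib.MP_a7b2aa_an.SHD.Exch18

/-!
SHD3, helper23: assembly of the natural norms (OPENN).
-/

set_option autoImplicit false

namespace Pool.Agent.SHD

open Pool.Agent.SBD

theorem openN_of (hFrv : StFrv) (hSc : StSc) (hSplit : StSplit) (hKbs : StKbs) (hAlx : StAlx)
    (hExch : StExch) : StOpenN :=
  openN_23 (stage_23 hExch (rlaw_65 eeb_36 hAlx)
    (topm_32 hFrv (mf4_38 hFrv) (tail_3 ent_3) kms_30 kb_33 crud_70 hSplit)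
    (tops_30 hSc (tail_3 ent_3) kms_30 hKbs crud_70 hSplit) hqu_30 bext_23 base_23 gtn_30
    (lawn_65 eeb_36) (tiltk_65 eeb_36) hAlx triS_38 nbt_21 hSc) gtn_30 (lawn_65 eeb_36)

/-- EXCH -/
theorem exch_all : StExch :=
  exch_18 exalg_21 sc_74 triS_38 (tail_3 ent_3) (alf_74 eeb_36) (alx_30 eeb_36) (tiltk_65 eeb_36)

/-- OPENN: Lemma A of SHD3 -/
theorem openN_all : StOpenN := openN_of frv_38 sc_74 split_26 kbs_69 (alx_30 eeb_36) exch_all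

end Pool.Agent.SHD
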