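import Pool.Agent.Lib.MP_a7b2aa_an.SHD.Stmts3_23

/-! SHD3, module ALX (helper30): the bias of a law is determined by its correlations. -/

set_option autoImplicit false

namespace Pool.Agent.SHD

open Finset Pool.Agent.SB3 Pool.Agent.SBT Pool.Agent.SBD

namespace A30

variable {m L : ℕ}

theorem eq_zero_of_Av_sq {X : Pt m L → ℝ} (h : Av (fun ω => X ω * X ω) = 0) (ω : Pt m L) :
    X ω = 0 := by
  unfold Av at h
  rw [div_eq_zero_iff] at h
  rcases h with h | h
  · rw [sum_eq_zero_iff_of_nonneg (fun ω _ => mul_self_nonneg _)] at h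
    exact mul_self_eq_zero.1 (h ω (mem_univ ω))
  · exact absurd h (by positivity)

theorem EE_pos {ρ : Pt m L → ℝ} (h : ∀ ω, 0 ≤ ρ ω) (q : Fin (m + 1) → ℕ) {ω : Pt m L}
    (hω : ρ ω ≠ 0) : 0 < EE q ρ ω := by
  unfold EE
  refine div_pos ?_ (by positivity)
  have h1 : ρ ω ≤ ∑ ω' : Pt m L, if cl q ω' ω then ρ ω' else 0 := by
    have h2 := Finset.single_le_sum (f := fun ω' : Pt m L => if cl q ω' ω then ρ ω' else 0)
      (fun ω' _ => by
        split_ifs
        · exact h ω'
        · exact le_rfl) (mem_univ ω)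
    rwa [if_pos (cl_refl q ω)] at h2
  exact lt_of_lt_of_le (lt_of_le_of_ne (h ω) (Ne.symm hω)) h1

end A30

open A30 in
/-- ALX -/
theorem alx_30 (hEB : StEeb) : StAlx := by
  intro m L k ρ f a t hρ ht hf hX ω hω
  have hE := hEB m L
  set q := one L a t with hq
  set X : Pt m L → ℝ := fun ω => EE q (fun ω' => ρ ω' * sb a t ω') ω - f ω * EE q ρ ω with hXd
  have hXm : Ms q X := Ms.comp2 (hE.ms q _) (Ms.comp2 hf (hE.ms q _) (fun x y => x * y))
    (fun x y => x - y)
  have h1 := hX X hXm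
  have e1 : Ex ρ (fun ω => sb a t ω * X ω) =
      Av (fun ω => X ω * EE q (fun ω' => ρ ω' * sb a t ω') ω) := by
    unfold Ex
    rw [← hE.mean q]
    congr 1
    funext ω
    rw [← hE.pull q X _ hXm ω]
    congr 1
    funext ω'
    ring
  have e2 : Ex ρ (fun ω => f ω * X ω) = Av (fun ω => X ω * (f ω * EE q ρ ω)) := by
    unfold Ex
    rw [← hE.mean q]
    congr 1
    funext ω
    have h2 : Ms q (fun ω => X ω * f ω) := Ms.comp2 hXm hf (fun x y => x * y)
    rw [← mul_assoc, ← hE.pull q (fun ω => X ω * f ω) _ h2 ω]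
    congr 1
    funext ω'
    ring
  rw [e1, e2] at h1
  have h3 : Av (fun ω => X ω * X ω) = 0 := by
    have : (fun ω => X ω * X ω) = fun ω => X ω * EE q (fun ω' => ρ ω' * sb a t ω') ω -
        X ω * (f ω * EE q ρ ω) := by
      funext ω
      rw [hXd]
      ring
    rw [this, Av_sub, h1, sub_self]
  have h4 := eq_zero_of_Av_sq h3 ω
  have h5 := EE_pos hρ.nonneg q hω
  unfold al
  rw [← hq, div_eq_iff h5.ne']
  rw [hXd] at h4
  simp only at h4
  linarith

end Pool.Agent.SHD
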