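import Pool.Agent.Lib.MP_a7b2aa_an.SHD.Stmts4_25
import Pool.Agent.Lib.MP_a7b2aa_an.SHD.TiltK65
import Pool.Agent.Lib.MP_a7b2aa_an.SBD.EEB36
import Pool.Agent.Lib.MP_a7b2aa_an.SBD.Alf74

/-!
SHD4, module HELL (helper21): comparison of the biases with the explicit biases of a dominating
law, by the Hellinger affinity.
-/

set_option autoImplicit false

namespace Pool.Agent.SHD

open Finset Pool.Agent.SB3 Pool.Agent.SBT Pool.Agent.SBD

/-- the affinity of two signs -/
theorem aff_le_21 {x y : ℝ} (hx : |x| ≤ 1) (hy : |y| ≤ 1) :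
    (Real.sqrt ((1 + x) * (1 + y)) + Real.sqrt ((1 - x) * (1 - y))) / 2 ≤
      Real.exp (-((x - y) ^ 2 / 8)) := by
  obtain ⟨hx1, hx2⟩ := abs_le.1 hx
  obtain ⟨hy1, hy2⟩ := abs_le.1 hy
  have p1 : 0 ≤ (1 + x) * (1 + y) := mul_nonneg (by linarith) (by linarith)
  have p2 : 0 ≤ (1 - x) * (1 - y) := mul_nonneg (by linarith) (by linarith)
  set s := Real.sqrt ((1 + x) * (1 + y)) with hs
  set t := Real.sqrt ((1 - x) * (1 - y)) with ht
  have s0 : 0 ≤ s := Real.sqrt_nonneg _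
  have t0 : 0 ≤ t := Real.sqrt_nonneg _
  have s2 : s ^ 2 = (1 + x) * (1 + y) := Real.sq_sqrt p1
  have t2 : t ^ 2 = (1 - x) * (1 - y) := Real.sq_sqrt p2
  have hst : s * t ≤ ((1 - x ^ 2) + (1 - y ^ 2)) / 2 := by
    have h1 : (s * t) ^ 2 = (1 - x ^ 2) * (1 - y ^ 2) := by
      rw [mul_pow, s2, t2]
      ring
    have h2 : (s * t) ^ 2 ≤ (((1 - x ^ 2) + (1 - y ^ 2)) / 2) ^ 2 := by
      rw [h1]
      nlinarith [sq_nonneg (x ^ 2 - y ^ 2)]
    have h3 : 0 ≤ ((1 - x ^ 2) + (1 - y ^ 2)) / 2 := by nlinarith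
    exact le_of_sq_le_sq h2 h3
  have h4 : (s + t) ^ 2 ≤ 4 - (x - y) ^ 2 := by nlinarith
  have hd : (x - y) ^ 2 ≤ 4 := by nlinarith
  have h5 : (s + t) / 2 ≤ 1 - (x - y) ^ 2 / 8 := by
    have h6 : ((s + t) / 2) ^ 2 ≤ (1 - (x - y) ^ 2 / 8) ^ 2 := by
      nlinarith [sq_nonneg ((x - y) ^ 2)]
    exact le_of_sq_le_sq h6 (by linarith)
  have h7 := Real.add_one_le_exp (-((x - y) ^ 2 / 8))
  linarith

variable {m L : ℕ}

theorem EE_two_21 (hE : Eeb m L) {a : Fin (m + 1)} {t : ℕ} (ht : t < L) {F G : Pt m L → ℝ}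
    (hF : Ms (one L a t) F) (hG : Ms (one L a t) G) (ω : Pt m L) :
    EE (one L a t) (fun ω' => F ω' + sb a t ω' * G ω') ω = F ω := by
  rw [hE.add (one L a t) F (fun ω' => sb a t ω' * G ω') ω, hE.idem _ _ hF]
  have h1 : (fun ω' => sb a t ω' * G ω') = fun ω' => G ω' * sb a t ω' := by
    funext ω'
    ring
  rw [h1, hE.pull _ _ _ hG, ee_sb_21 hE a t ht, mul_zero, add_zero]

theorem EE_nonneg_21 (hE : Eeb m L) (q : Fin (m + 1) → ℕ) {φ : Pt m L → ℝ} (h : ∀ ω, 0 ≤ φ ω)
    (ω : Pt m L) : 0 ≤ EE q φ ω := by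
  have h1 := hE.mono q (fun _ => 0) φ h ω
  rwa [hE.const] at h1

theorem rho_step_21 (hE : Eeb m L) {ρ : Pt m L → ℝ} (hρ : ∀ ω, 0 ≤ ρ ω) (a : Fin (m + 1)) {t : ℕ}
    (ht : t < L) (ω : Pt m L) :
    EE (one L a (t + 1)) ρ ω = EE (one L a t) ρ ω * (1 + sb a t ω * al ρ a t ω) := by
  have h1 := hE.step (one L a t) a ρ ω (by rw [one_self65]; exact ht)
  have e1 : Function.update (one L a t) a (one L a t a + 1) = one L a (t + 1) := by
    rw [one_self65]
    unfold one
    rw [Function.update_idem]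
  have e2 : (fun ω' => sb a (one L a t a) ω' * ρ ω') = fun ω' => ρ ω' * sb a t ω' := by
    funext ω'
    rw [one_self65, mul_comm]
  rw [e1, e2, one_self65] at h1
  have h2 : EE (one L a t) (fun ω' => ρ ω' * sb a t ω') ω =
      EE (one L a t) ρ ω * al ρ a t ω := by
    unfold al
    by_cases h0 : EE (one L a t) ρ ω = 0
    · rw [h0, zero_mul]
      have h3 := hE.abs (one L a t) (fun ω' => ρ ω' * sb a t ω') ω
      have h4 : (fun ω' => |ρ ω' * sb a t ω'|) = ρ := by
        funext ω'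
        rw [abs_mul, sb_abs, mul_one, abs_of_nonneg (hρ ω')]
      rw [h4, h0] at h3
      exact abs_eq_zero.1 (le_antisymm h3 (abs_nonneg _))
    · rw [mul_div_cancel₀ _ h0]
  rw [h2] at h1
  linear_combination h1

/-- the weighted affinity -/
noncomputable def WW21 (ρ : Pt m L → ℝ) (a : Fin (m + 1)) (β : ℕ → Pt m L → ℝ) (t : ℕ)
    (ω : Pt m L) : ℝ :=
  Real.sqrt (ρ ω * ∏ r ∈ Ico t L, (1 + sb a r ω * β r ω)) *
    Real.exp (∑ r ∈ Ico t L, (al ρ a r ω - β r ω) ^ 2 / 8)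

theorem WW_step_21 {ρ : Pt m L → ℝ} {a : Fin (m + 1)} {β : ℕ → Pt m L → ℝ}
    (hβ : ∀ t ω, |β t ω| ≤ 1) {t : ℕ} (ht : t < L) (ω : Pt m L) :
    WW21 ρ a β t ω = (Real.sqrt (1 + sb a t ω * β t ω) *
      Real.exp ((al ρ a t ω - β t ω) ^ 2 / 8)) * WW21 ρ a β (t + 1) ω := by
  unfold WW21
  rw [prod_eq_prod_Ico_succ_bot ht, sum_eq_sum_Ico_succ_bot ht, Real.exp_add]
  have h1 : ρ ω * ((1 + sb a t ω * β t ω) * ∏ r ∈ Ico (t + 1) L, (1 + sb a r ω * β r ω)) =
      (1 + sb a t ω * β t ω) * (ρ ω * ∏ r ∈ Ico (t + 1) L, (1 + sb a r ω * β r ω)) := by ring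
  rw [h1, Real.sqrt_mul (fac_nonneg65 hβ t ω)]
  ring

theorem WW_le_21 {k : ℝ} {ρ : Pt m L → ℝ} {a : Fin (m + 1)} {β : ℕ → Pt m L → ℝ}
    (hL : Law k ρ) (hM : ∀ t, Ms (one L a t) (β t)) (hβ : ∀ t ω, |β t ω| ≤ 1) :
    ∀ t ≤ L, ∀ ω, EE (one L a t) (WW21 ρ a β t) ω ≤ Real.sqrt (EE (one L a t) ρ ω) := by
  have hE := eeb_36 m L
  have hA := alf_74 eeb_36 m L k ρ hL
  intro t ht
  induction ht using Nat.decreasingInduction with
  | self =>
    intro ω
    rw [ee_full_21 hE, ee_full_21 hE]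
    unfold WW21
    rw [Ico_self, prod_empty, sum_empty, mul_one, Real.exp_zero, mul_one]
  | of_succ t ht ih =>
    intro ω
    have hms := hE.ms (one L a t) ρ
    have hcomp : ∀ φ : Pt m L → ℝ, EE (one L a t) (EE (one L a (t + 1)) φ) ω =
        EE (one L a t) φ ω := by
      intro φ
      rw [hE.comp]
      congr 1
      funext b
      by_cases hb : b = a
      · subst hb
        rw [one_self65, one_self65]
        omega
      · unfold one
        rw [Function.update_of_ne hb, Function.update_of_ne hb]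
        simp
    set c : Pt m L → ℝ := fun ω => Real.sqrt (1 + sb a t ω * β t ω) *
      Real.exp ((al ρ a t ω - β t ω) ^ 2 / 8) with hc
    have hcm : Ms (one L a (t + 1)) c := by
      have h1 := sb_ms65 (L := L) a (Nat.lt_succ_self t)
      have h2 := ms_one_mono65 (Nat.le_succ t) (hM t)
      have h3 := ms_one_mono65 (Nat.le_succ t) (hA.ms a t)
      exact (h1.comp2 h2 (fun x y => Real.sqrt (1 + x * y))).comp2
        (h3.comp2 h2 (fun x y => Real.exp ((x - y) ^ 2 / 8))) (fun x y => x * y)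
    have hW : WW21 ρ a β t = fun ω => c ω * WW21 ρ a β (t + 1) ω := by
      funext ω
      exact WW_step_21 hβ ht ω
    set F : Pt m L → ℝ := fun ω => Real.sqrt (EE (one L a t) ρ ω) *
      Real.exp ((al ρ a t ω - β t ω) ^ 2 / 8) *
      ((Real.sqrt ((1 + al ρ a t ω) * (1 + β t ω)) +
        Real.sqrt ((1 - al ρ a t ω) * (1 - β t ω))) / 2) with hF
    set G : Pt m L → ℝ := fun ω => Real.sqrt (EE (one L a t) ρ ω) *
      Real.exp ((al ρ a t ω - β t ω) ^ 2 / 8) *
      ((Real.sqrt ((1 + al ρ a t ω) * (1 + β t ω)) -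
        Real.sqrt ((1 - al ρ a t ω) * (1 - β t ω))) / 2) with hG
    have hab : Ms (one L a t) (fun ω => (al ρ a t ω, β t ω)) :=
      (hA.ms a t).comp2 (hM t) (fun x y => (x, y))
    have hFm : Ms (one L a t) F :=
      hms.comp2 hab (fun z w => Real.sqrt z * Real.exp ((w.1 - w.2) ^ 2 / 8) *
        ((Real.sqrt ((1 + w.1) * (1 + w.2)) + Real.sqrt ((1 - w.1) * (1 - w.2))) / 2))
    have hGm : Ms (one L a t) G :=
      hms.comp2 hab (fun z w => Real.sqrt z * Real.exp ((w.1 - w.2) ^ 2 / 8) *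
        ((Real.sqrt ((1 + w.1) * (1 + w.2)) - Real.sqrt ((1 - w.1) * (1 - w.2))) / 2))
    have hpt : ∀ ω, c ω * Real.sqrt (EE (one L a (t + 1)) ρ ω) = F ω + sb a t ω * G ω := by
      intro ω
      have h0 := EE_nonneg_21 hE (one L a t) hL.nonneg ω
      rw [rho_step_21 hE hL.nonneg a ht ω, Real.sqrt_mul h0]
      have e : Real.sqrt (1 + sb a t ω * β t ω) * Real.sqrt (1 + sb a t ω * al ρ a t ω) =
          Real.sqrt ((1 + sb a t ω * al ρ a t ω) * (1 + sb a t ω * β t ω)) := by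
        rw [mul_comm, Real.sqrt_mul (fac_nonneg65 (fun i ω => hA.abs a i ω) t ω)]
      have e' : c ω * (Real.sqrt (EE (one L a t) ρ ω) *
          Real.sqrt (1 + sb a t ω * al ρ a t ω)) = Real.sqrt (EE (one L a t) ρ ω) *
          Real.exp ((al ρ a t ω - β t ω) ^ 2 / 8) *
          Real.sqrt ((1 + sb a t ω * al ρ a t ω) * (1 + sb a t ω * β t ω)) := by
        rw [← e, hc]
        ring
      rw [e', hF, hG]
      rcases sb_cases65 a t ω with h | h
      · rw [h]
        simp only [one_mul]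
        ring
      · rw [h]
        simp only [neg_mul, one_mul, ← sub_eq_add_neg]
        ring
    calc EE (one L a t) (WW21 ρ a β t) ω
        = EE (one L a t) (EE (one L a (t + 1)) (fun ω => c ω * WW21 ρ a β (t + 1) ω)) ω := by
          rw [hcomp, hW]
      _ = EE (one L a t) (fun ω => c ω * EE (one L a (t + 1)) (WW21 ρ a β (t + 1)) ω) ω := by
          congr 1
          funext ω'
          exact hE.pull _ _ _ hcm ω'
      _ ≤ EE (one L a t) (fun ω => F ω + sb a t ω * G ω) ω := by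
          refine hE.mono _ _ _ (fun ω' => ?_) ω
          rw [← hpt ω']
          exact mul_le_mul_of_nonneg_left (ih ω')
            (mul_nonneg (Real.sqrt_nonneg _) (Real.exp_pos _).le)
      _ = F ω := EE_two_21 hE ht hFm hGm ω
      _ ≤ Real.sqrt (EE (one L a t) ρ ω) := by
          have h1 := aff_le_21 (hA.abs a t ω) (hβ t ω)
          rw [hF]
          have h2 : Real.exp ((al ρ a t ω - β t ω) ^ 2 / 8) *
              ((Real.sqrt ((1 + al ρ a t ω) * (1 + β t ω)) +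
                Real.sqrt ((1 - al ρ a t ω) * (1 - β t ω))) / 2) ≤ 1 := by
            refine (mul_le_mul_of_nonneg_left h1 (Real.exp_pos _).le).trans (le_of_eq ?_)
            rw [← Real.exp_add, add_neg_cancel, Real.exp_zero]
          have h3 := mul_le_mul_of_nonneg_left h2 (Real.sqrt_nonneg (EE (one L a t) ρ ω))
          simpa [mul_assoc] using h3

theorem hell_21 : StHell := by
  classical
  intro m L n k ρ a β hL hM hβ
  have hE := eeb_36 m L
  set ρ0 : Pt m L → ℝ := EE (one L a 0) ρ with hρ0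
  have hρ0n : ∀ ω, 0 ≤ ρ0 ω := fun ω => EE_nonneg_21 hE _ hL.nonneg ω
  set X : ℝ := (L : ℝ) + 1 with hX
  have hX0 : 0 < X := by positivity
  have hXn : 0 < X ^ n := pow_pos hX0 n
  -- the total affinity
  have hmean : Av (fun ω => Real.sqrt (ρ0 ω) * WW21 ρ a β 0 ω) ≤ 1 := by
    have h1 : Av (fun ω => Real.sqrt (ρ0 ω) * WW21 ρ a β 0 ω) =
        Av (fun ω => Real.sqrt (ρ0 ω) * EE (one L a 0) (WW21 ρ a β 0) ω) := by
      rw [← hE.mean (one L a 0) (fun ω => Real.sqrt (ρ0 ω) * WW21 ρ a β 0 ω)]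
      congr 1
      funext ω
      exact hE.pull _ _ _ ((hE.ms (one L a 0) ρ).comp (fun x => Real.sqrt x)) ω
    rw [h1, ← hL.mean, ← hE.mean (one L a 0) ρ]
    refine Av_mono fun ω => ?_
    have h2 := mul_le_mul_of_nonneg_left (WW_le_21 hL hM hβ 0 (Nat.zero_le _) ω)
      (Real.sqrt_nonneg (ρ0 ω))
    rwa [← hρ0, Real.mul_self_sqrt (hρ0n ω)] at h2
  -- the set where the conditional density is small
  have hsmall : Av (fun ω => ρ ω * if ρ0 ω < 1 / X ^ n then (1 : ℝ) else 0) ≤ 1 / X ^ n := by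
    have h1 : Av (fun ω => ρ ω * if ρ0 ω < 1 / X ^ n then (1 : ℝ) else 0) =
        Av (fun ω => (if ρ0 ω < 1 / X ^ n then (1 : ℝ) else 0) * ρ0 ω) := by
      rw [← hE.mean (one L a 0) (fun ω => ρ ω * if ρ0 ω < 1 / X ^ n then (1 : ℝ) else 0)]
      congr 1
      funext ω
      have e : (fun ω => ρ ω * if ρ0 ω < 1 / X ^ n then (1 : ℝ) else 0) =
          fun ω => (if ρ0 ω < 1 / X ^ n then (1 : ℝ) else 0) * ρ ω := by
        funext ω
        ring
      rw [e]
      exact hE.pull _ _ _ ((hE.ms (one L a 0) ρ).comp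
        (fun x => if x < 1 / X ^ n then (1 : ℝ) else 0)) ω
    rw [h1]
    refine (Av_mono (ψ := fun _ => 1 / X ^ n) fun ω => ?_).trans (Av_const _).le
    split_ifs with h
    · rw [one_mul]
      exact h.le
    · rw [zero_mul]
      positivity
  have h3 : 2 / X ^ n = 1 / X ^ n + 1 / X ^ n * 1 := by ring
  have h2 : 1 / X ^ n * Av (fun ω => Real.sqrt (ρ0 ω) * WW21 ρ a β 0 ω) ≤ 1 / X ^ n * 1 :=
    mul_le_mul_of_nonneg_left hmean (by positivity)
  rw [h3]
  refine le_trans ?_ (add_le_add hsmall h2)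
  rw [← Av_smul, ← Av_add]
  unfold Pr Ex
  refine Av_mono fun ω => ?_
  · beta_reduce
    have hρω := hL.nonneg ω
    have hWn : 0 ≤ Real.sqrt (ρ0 ω) * WW21 ρ a β 0 ω :=
      mul_nonneg (Real.sqrt_nonneg _) (mul_nonneg (Real.sqrt_nonneg _) (Real.exp_pos _).le)
    have hWn' : 0 ≤ 1 / X ^ n * (Real.sqrt (ρ0 ω) * WW21 ρ a β 0 ω) :=
      mul_nonneg (by positivity) hWn
    by_cases hev : ρ ω ≤ Real.exp 1 * ∏ t ∈ range L, (1 + sb a t ω * β t ω) ∧
      8 + 12 * n * Real.log X < ∑ t ∈ range L, (al ρ a t ω - β t ω) ^ 2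
    · rw [if_pos hev, mul_one]
      by_cases h0 : ρ0 ω < 1 / X ^ n
      · rw [if_pos h0, mul_one]
        linarith
      · rw [if_neg h0, mul_zero, zero_add]
        push Not at h0
        obtain ⟨hd, hs⟩ := hev
        set P : ℝ := ∏ t ∈ range L, (1 + sb a t ω * β t ω) with hP
        set S : ℝ := ∑ t ∈ range L, (al ρ a t ω - β t ω) ^ 2 with hS
        have hW : WW21 ρ a β 0 ω = Real.sqrt (ρ ω * P) * Real.exp (S / 8) := by
          unfold WW21
          rw [hP, hS, sum_div, range_eq_Ico]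
        have hlog : Real.exp (Real.log X) = X := Real.exp_log hX0
        have hA : Real.exp 1 * X ^ n * Real.sqrt (X ^ n) ≤ Real.exp (S / 8) := by
          have e2 : X ^ n = Real.exp (n * Real.log X) := by
            rw [Real.exp_nat_mul, hlog]
          have e1 : Real.sqrt (X ^ n) = Real.exp (n * Real.log X / 2) := by
            rw [e2, Real.sqrt_eq_rpow, ← Real.exp_mul]
            congr 1
            ring
          rw [e1, e2, ← Real.exp_add, ← Real.exp_add]
          refine Real.exp_le_exp.2 ?_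
          linarith
        have hB : ρ ω / (Real.exp 1 * Real.sqrt (X ^ n)) ≤
            Real.sqrt (ρ0 ω) * Real.sqrt (ρ ω * P) := by
          rw [← Real.sqrt_mul (hρ0n ω)]
          refine Real.le_sqrt_of_sq_le ?_
          rw [div_pow, mul_pow, Real.sq_sqrt hXn.le, div_le_iff₀ (by positivity)]
          have h1 : 1 ≤ ρ0 ω * X ^ n := by
            rw [div_le_iff₀ hXn] at h0
            exact h0
          have h2 : 1 ≤ Real.exp 1 := Real.one_le_exp (by norm_num)
          have h3 : ρ ω * ρ ω ≤ ρ ω * (Real.exp 1 * P) := mul_le_mul_of_nonneg_left hd hρω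
          have h4 : 0 ≤ ρ ω * (Real.exp 1 * P) := (mul_nonneg hρω hρω).trans h3
          calc ρ ω ^ 2 = ρ ω * ρ ω := sq _
            _ ≤ ρ ω * (Real.exp 1 * P) := h3
            _ ≤ (ρ ω * (Real.exp 1 * P)) * (ρ0 ω * X ^ n) := le_mul_of_one_le_right h4 h1
            _ ≤ (ρ ω * (Real.exp 1 * P)) * (ρ0 ω * X ^ n) * Real.exp 1 :=
                le_mul_of_one_le_right (mul_nonneg h4 (by linarith)) h2
            _ = ρ0 ω * (ρ ω * P) * (Real.exp 1 ^ 2 * X ^ n) := by ring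
        rw [hW]
        have hsq : 0 < Real.sqrt (X ^ n) := Real.sqrt_pos.2 hXn
        calc ρ ω = 1 / X ^ n * (ρ ω / (Real.exp 1 * Real.sqrt (X ^ n)) *
              (Real.exp 1 * X ^ n * Real.sqrt (X ^ n))) := by
              have he := (Real.exp_pos 1).ne'
              field_simp
          _ ≤ 1 / X ^ n * ((Real.sqrt (ρ0 ω) * Real.sqrt (ρ ω * P)) * Real.exp (S / 8)) := by
              refine mul_le_mul_of_nonneg_left ?_ (by positivity)
              exact mul_le_mul hB hA (by positivity) (by positivity)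
          _ = 1 / X ^ n * (Real.sqrt (ρ0 ω) * (Real.sqrt (ρ ω * P) * Real.exp (S / 8))) := by
              ring
    · rw [if_neg hev, mul_zero]
      refine add_nonneg (mul_nonneg hρω ?_) hWn'
      split_ifs <;> norm_num

end Pool.Agent.SHD
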