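import Pool.Agent.Lib.MP_a7b2aa_an.SHD.Stmts3_23
import Pool.Agent.Lib.MP_a7b2aa_an.SHD.Tri38

/-!
SHD3, helper69: KBS, the square function of the scalar kernels.
-/

set_option autoImplicit false

namespace Pool.Agent.SHD

open Finset Pool.Agent.SB3 Pool.Agent.SBT Pool.Agent.SBD

namespace Kbs69

/-! ### numbers -/

theorem dig {j x c : ℕ} : x / 2 ^ j = c ↔ c * 2 ^ j ≤ x ∧ x < (c + 1) * 2 ^ j := by
  have h2 : 0 < 2 ^ j := by positivity
  constructor
  · rintro rfl
    exact ⟨Nat.div_mul_le_self _ _, by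
      rw [← Nat.div_lt_iff_lt_mul h2]
      exact Nat.lt_succ_self _⟩
  · rintro ⟨h1, h3⟩
    exact Nat.div_eq_of_lt_le h1 h3

/-- the sides of the dyadic pieces -/
theorem sides (L j o lo hi : ℕ) :
    ∑ k ∈ range L, ((min hi ((2 * k + o + 1) * 2 ^ j) - max lo ((2 * k + o) * 2 ^ j) : ℕ) : ℝ) ≤
      ((hi - lo : ℕ) : ℝ) := by
  have h1 : ∀ k, min hi ((2 * k + o + 1) * 2 ^ j) - max lo ((2 * k + o) * 2 ^ j) =
      ∑ x ∈ Finset.Ico lo hi, if x / 2 ^ j = 2 * k + o then 1 else 0 := by
    intro k
    rw [← card_filter]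
    have : (Finset.Ico lo hi).filter (fun x => x / 2 ^ j = 2 * k + o) =
        Finset.Ico (max lo ((2 * k + o) * 2 ^ j)) (min hi ((2 * k + o + 1) * 2 ^ j)) := by
      ext x
      rw [mem_filter, mem_Ico, mem_Ico, dig]
      omega
    rw [this, Nat.card_Ico]
  have h2 : ∑ k ∈ range L, (min hi ((2 * k + o + 1) * 2 ^ j) - max lo ((2 * k + o) * 2 ^ j)) ≤
      hi - lo := by
    simp_rw [h1]
    rw [sum_comm]
    calc ∑ x ∈ Finset.Ico lo hi, ∑ k ∈ range L, (if x / 2 ^ j = 2 * k + o then 1 else 0)
        ≤ ∑ x ∈ Finset.Ico lo hi, 1 := by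
          refine sum_le_sum fun x _ => ?_
          rw [← card_filter]
          refine card_le_one.2 fun a ha c hc => ?_
          rw [mem_filter] at ha hc
          omega
      _ = hi - lo := by simp
  exact_mod_cast h2

theorem mink {ι κ : Type} (s : Finset ι) (t : Finset κ) (F : κ → ι → ℝ) (a c : κ → ℝ)
    (ha : ∀ k ∈ t, 0 ≤ a k) (hc : ∀ k ∈ t, 0 ≤ c k)
    (h : ∀ k ∈ t, ∑ u ∈ s, F k u ^ 2 ≤ a k * c k) :
    ∑ u ∈ s, (∑ k ∈ t, F k u) ^ 2 ≤ (∑ k ∈ t, a k) * ∑ k ∈ t, c k := by
  have h1 : ∀ k ∈ t, ∀ l ∈ t, ∑ u ∈ s, F k u * F l u ≤ (a k * c l + a l * c k) / 2 := by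
    intro k hk l hl
    have h2 := sum_mul_sq_le_sq_mul_sq s (F k) (F l)
    have h3 : (∑ u ∈ s, F k u ^ 2) * ∑ u ∈ s, F l u ^ 2 ≤ (a k * c k) * (a l * c l) :=
      mul_le_mul (h k hk) (h l hl) (sum_nonneg fun _ _ => sq_nonneg _)
        (mul_nonneg (ha k hk) (hc k hk))
    have h4 : (∑ u ∈ s, F k u * F l u) ^ 2 ≤ ((a k * c l + a l * c k) / 2) ^ 2 := by
      nlinarith [sq_nonneg (a k * c l - a l * c k)]
    have h5 : 0 ≤ (a k * c l + a l * c k) / 2 := by
      have := mul_nonneg (ha k hk) (hc l hl)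
      have := mul_nonneg (ha l hl) (hc k hk)
      linarith
    exact (le_abs_self _).trans (abs_le_of_sq_le_sq h4 h5)
  calc ∑ u ∈ s, (∑ k ∈ t, F k u) ^ 2 = ∑ u ∈ s, ∑ k ∈ t, ∑ l ∈ t, F k u * F l u := by
        refine sum_congr rfl fun u _ => ?_
        rw [sq, sum_mul_sum]
    _ = ∑ k ∈ t, ∑ l ∈ t, ∑ u ∈ s, F k u * F l u := by
        rw [sum_comm]
        refine sum_congr rfl fun k _ => ?_
        rw [sum_comm]
    _ ≤ ∑ k ∈ t, ∑ l ∈ t, (a k * c l + a l * c k) / 2 :=
        sum_le_sum fun k hk => sum_le_sum fun l hl => h1 k hk l hl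
    _ = (∑ k ∈ t, a k) * ∑ k ∈ t, c k := by
        have e1 : ∑ k ∈ t, ∑ l ∈ t, a k * c l = (∑ k ∈ t, a k) * ∑ k ∈ t, c k := by
          rw [sum_mul_sum]
        have e2 : ∑ k ∈ t, ∑ l ∈ t, a l * c k = (∑ k ∈ t, a k) * ∑ k ∈ t, c k := by
          rw [sum_comm, sum_mul_sum]
        have e3 : ∑ k ∈ t, ∑ l ∈ t, (a k * c l + a l * c k) / 2 =
            (∑ k ∈ t, ∑ l ∈ t, a k * c l + ∑ k ∈ t, ∑ l ∈ t, a l * c k) / 2 := by
          rw [← sum_add_distrib, sum_div]
          refine sum_congr rfl fun k _ => ?_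
          rw [← sum_add_distrib, sum_div]
        rw [e3, e1, e2]
        ring

/-! ### boxes -/

theorem cut_restr {m L : ℕ} (lo hi : Fin (m + 1) → ℕ) (e : Fin (m + 1)) (A B : ℕ)
    (v : (Fin (m + 1) → ℕ) → Pt m L → ℝ) (q : Fin (m + 1) → ℕ) (ω : Pt m L) :
    cut (Function.update lo e (max (lo e) A)) (Function.update hi e (min (hi e) B)) v q ω =
      if A ≤ q e ∧ q e < B then cut lo hi v q ω else 0 := by
  have h1 : (∀ a, Function.update lo e (max (lo e) A) a ≤ q a ∧
      q a < Function.update hi e (min (hi e) B) a) ↔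
      (∀ a, lo a ≤ q a ∧ q a < hi a) ∧ (A ≤ q e ∧ q e < B) := by
    constructor
    · intro h
      have he := h e
      rw [Function.update_self, Function.update_self] at he
      refine ⟨fun a => ?_, by omega⟩
      by_cases ha : a = e
      · subst ha
        omega
      · have := h a
        rwa [Function.update_of_ne ha, Function.update_of_ne ha] at this
    · rintro ⟨h, h'⟩ a
      by_cases ha : a = e
      · subst ha
        rw [Function.update_self, Function.update_self]
        have := h a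
        omega
      · rw [Function.update_of_ne ha, Function.update_of_ne ha]
        exact h a
  unfold cut
  by_cases h2 : A ≤ q e ∧ q e < B
  · rw [if_pos h2]
    by_cases h3 : ∀ a, lo a ≤ q a ∧ q a < hi a
    · rw [if_pos (h1.2 ⟨h3, h2⟩), if_pos h3]
    · rw [if_neg (fun h => h3 (h1.1 h).1), if_neg h3]
  · rw [if_neg h2, if_neg (fun h => h2 (h1.1 h).2)]

theorem bl_nonneg {m : ℕ} (U : Finset (Fin (m + 1))) (lo hi : Fin (m + 1) → ℕ) :
    0 ≤ bl U lo hi := by
  unfold bl
  exact prod_nonneg fun _ _ => Nat.cast_nonneg _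

theorem bl_update {m : ℕ} {U : Finset (Fin (m + 1))} {e : Fin (m + 1)} (he : e ∈ U)
    (lo hi : Fin (m + 1) → ℕ) (x y : ℕ) :
    bl U (Function.update lo e x) (Function.update hi e y) =
      ((y - x : ℕ) : ℝ) * ∏ a ∈ U.erase e, ((hi a - lo a : ℕ) : ℝ) := by
  unfold bl
  rw [← mul_prod_erase U _ he, Function.update_self, Function.update_self]
  congr 1
  refine prod_congr rfl fun a ha => ?_
  rw [Function.update_of_ne (ne_of_mem_erase ha), Function.update_of_ne (ne_of_mem_erase ha)]

theorem bl_eq {m : ℕ} {U : Finset (Fin (m + 1))} {e : Fin (m + 1)} (he : e ∈ U)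
    (lo hi : Fin (m + 1) → ℕ) :
    bl U lo hi = ((hi e - lo e : ℕ) : ℝ) * ∏ a ∈ U.erase e, ((hi a - lo a : ℕ) : ℝ) := by
  unfold bl
  rw [← mul_prod_erase U _ he]

/-- the lower corner of the piece `k` with digit `o` -/
def lk {m : ℕ} (lo : Fin (m + 1) → ℕ) (e : Fin (m + 1)) (j o k : ℕ) : Fin (m + 1) → ℕ :=
  Function.update lo e (max (lo e) ((2 * k + o) * 2 ^ j))

/-- the upper corner of the piece `k` with digit `o` -/
def hk {m : ℕ} (hi : Fin (m + 1) → ℕ) (e : Fin (m + 1)) (j o k : ℕ) : Fin (m + 1) → ℕ :=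
  Function.update hi e (min (hi e) ((2 * k + o + 1) * 2 ^ j))

theorem cut_k {m L : ℕ} (lo hi : Fin (m + 1) → ℕ) (e : Fin (m + 1)) (j o k : ℕ)
    (v : (Fin (m + 1) → ℕ) → Pt m L → ℝ) (q : Fin (m + 1) → ℕ) (ω : Pt m L) :
    cut (lk lo e j o k) (hk hi e j o k) v q ω =
      if q e / 2 ^ j = 2 * k + o then cut lo hi v q ω else 0 := by
  unfold lk hk
  rw [cut_restr]
  simp only [dig]

theorem sum_bl {m : ℕ} {U : Finset (Fin (m + 1))} {e : Fin (m + 1)} (he : e ∈ U)
    (lo hi : Fin (m + 1) → ℕ) (L j o : ℕ) :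
    ∑ k ∈ range L, bl U (lk lo e j o k) (hk hi e j o k) ≤ bl U lo hi := by
  unfold lk hk
  simp_rw [bl_update he]
  rw [← sum_mul, bl_eq he]
  exact mul_le_mul_of_nonneg_right (sides L j o _ _) (prod_nonneg fun _ _ => Nat.cast_nonneg _)

theorem hk_le {m : ℕ} {hi H : Fin (m + 1) → ℕ} (h : ∀ e, hi e ≤ H e) (e : Fin (m + 1))
    (j o k : ℕ) : ∀ a, hk hi e j o k a ≤ H a := by
  intro a
  unfold hk
  by_cases ha : a = e
  · subst ha
    rw [Function.update_self]
    exact (min_le_left _ _).trans (h a)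
  · rw [Function.update_of_ne ha]
    exact h a

/-! ### the kernels -/

section

variable {m L : ℕ} (i : ℕ) (b s : Fin (m + 1)) (v : (Fin (m + 1) → ℕ) → Pt m L → ℝ) (ω : Pt m L)

/-- the kernel with a weight -/
noncomputable def kw (w : (Fin (m + 1) → ℕ) → (Fin (m + 1) → ℕ) → ℝ)
    (lo' hi' lo hi : Fin (m + 1) → ℕ) (u : ℕ) : ℝ :=
  ∑ r ∈ range L,
    ∑ q' ∈ fr L ((univ.erase b).erase s) (Function.update (Function.update (fun _ => 0) b r) s u),
    ∑ p ∈ fr L ((Inn m).erase b) (Function.update (fun _ => i) b r),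
      w q' p * ((ps ((univ.erase b).erase s) q' ω * cut lo' hi' v q' ω) *
          (ps ((Inn m).erase b) p ω * cut lo hi v p ω))

/-- the weight of `T` -/
noncomputable def wT (T : Finset (Fin (m + 1))) (q' p : Fin (m + 1) → ℕ) : ℝ :=
  if ∀ e ∈ T, p e < q' e then 1 else 0

theorem k1_eq (T : Finset (Fin (m + 1))) (lo' hi' lo hi : Fin (m + 1) → ℕ) (u : ℕ) :
    k1 T b s i v lo' hi' lo hi u ω = kw i b s v ω (wT T) lo' hi' lo hi u := by
  unfold k1 kw wT
  refine sum_congr rfl fun r _ => sum_congr rfl fun q' _ => sum_congr rfl fun p _ => ?_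
  split_ifs <;> simp

theorem kw_congr {w w2 : (Fin (m + 1) → ℕ) → (Fin (m + 1) → ℕ) → ℝ}
    {lo' hi' lo hi lo2' hi2' lo2 hi2 : Fin (m + 1) → ℕ} {u : ℕ} (hb : b ≠ 0)
    (h : ∀ q' p : Fin (m + 1) → ℕ, q' s = u → p 0 = i → (∀ e, e ≠ b → e ≠ s → q' e < L) →
      w q' p * (cut lo' hi' v q' ω * cut lo hi v p ω) =
        w2 q' p * (cut lo2' hi2' v q' ω * cut lo2 hi2 v p ω)) :
    kw i b s v ω w lo' hi' lo hi u = kw i b s v ω w2 lo2' hi2' lo2 hi2 u := by
  unfold kw
  refine sum_congr rfl fun r _ => sum_congr rfl fun q' hq => sum_congr rfl fun p hp => ?_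
  rw [mem_fr] at hq hp
  have h1 : q' s = u := by
    have := hq.2 s (by simp)
    rwa [Function.update_self] at this
  have h2 : p 0 = i := by
    have := hp.2 0 (by simp [Inn])
    rwa [Function.update_of_ne (Ne.symm hb)] at this
  have h3 := h q' p h1 h2 (fun e he he' => hq.1 e (by simp [he, he']))
  calc w q' p * ((ps ((univ.erase b).erase s) q' ω * cut lo' hi' v q' ω) *
          (ps ((Inn m).erase b) p ω * cut lo hi v p ω))
      = (ps ((univ.erase b).erase s) q' ω * ps ((Inn m).erase b) p ω) *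
          (w q' p * (cut lo' hi' v q' ω * cut lo hi v p ω)) := by ring
    _ = w2 q' p * ((ps ((univ.erase b).erase s) q' ω * cut lo2' hi2' v q' ω) *
          (ps ((Inn m).erase b) p ω * cut lo2 hi2 v p ω)) := by
        rw [h3]
        ring

theorem kw_sum {ι : Type} (t : Finset ι) (w : ι → (Fin (m + 1) → ℕ) → (Fin (m + 1) → ℕ) → ℝ)
    (lo' hi' lo hi : Fin (m + 1) → ℕ) (u : ℕ) :
    kw i b s v ω (fun q' p => ∑ k ∈ t, w k q' p) lo' hi' lo hi u =
      ∑ k ∈ t, kw i b s v ω (w k) lo' hi' lo hi u := by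
  unfold kw
  symm
  rw [sum_comm]
  refine sum_congr rfl fun r _ => ?_
  rw [sum_comm]
  refine sum_congr rfl fun q' _ => ?_
  rw [sum_comm]
  refine sum_congr rfl fun p _ => ?_
  rw [sum_mul]

theorem kw_smul (c : ℝ) (w : (Fin (m + 1) → ℕ) → (Fin (m + 1) → ℕ) → ℝ)
    (lo' hi' lo hi : Fin (m + 1) → ℕ) (u : ℕ) :
    kw i b s v ω (fun q' p => c * w q' p) lo' hi' lo hi u =
      c * kw i b s v ω w lo' hi' lo hi u := by
  unfold kw
  rw [mul_sum]
  refine sum_congr rfl fun r _ => ?_
  rw [mul_sum]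
  refine sum_congr rfl fun q' _ => ?_
  rw [mul_sum]
  refine sum_congr rfl fun p _ => ?_
  ring

theorem wT_insert {T : Finset (Fin (m + 1))} (e : Fin (m + 1)) (q' p : Fin (m + 1) → ℕ) :
    wT (insert e T) q' p = (if p e < q' e then 1 else 0) * wT T q' p := by
  unfold wT
  simp only [forall_mem_insert]
  by_cases h1 : p e < q' e <;> by_cases h2 : ∀ a ∈ T, p a < q' a <;> simp [h1, h2]

/-- one level, as a sum over the pieces -/
theorem lev_sum {j x y : ℕ} {L : ℕ} (hx : x < L) :
    (if lev38 j x y then (1 : ℝ) else 0) =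
      ∑ k ∈ range L, (if x / 2 ^ j = 2 * k + 1 then (1 : ℝ) else 0) *
        (if y / 2 ^ j = 2 * k + 0 then (1 : ℝ) else 0) := by
  have hdiv : ∀ z : ℕ, z / 2 ^ (j + 1) = z / 2 ^ j / 2 := by
    intro z
    rw [pow_succ, Nat.div_div_eq_div_mul]
  have hxj : x / 2 ^ j ≤ x := Nat.div_le_self _ _
  by_cases h : lev38 j x y
  · have h' := h
    unfold lev38 at h'
    rw [hdiv, hdiv] at h'
    rw [if_pos h, sum_eq_single (x / 2 ^ j / 2)]
    · rw [if_pos (by omega), if_pos (by omega), mul_one]
    · intro k _ hk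
      by_cases h1 : x / 2 ^ j = 2 * k + 1
      · exact absurd (by omega) hk
      · rw [if_neg h1, zero_mul]
    · intro h1
      exact absurd (mem_range.2 (by omega)) h1
  · have h' := h
    unfold lev38 at h'
    rw [hdiv, hdiv] at h'
    rw [if_neg h]
    symm
    refine sum_eq_zero fun k _ => ?_
    by_cases h1 : x / 2 ^ j = 2 * k + 1
    · rw [if_pos h1, if_neg (by omega), mul_zero]
    · rw [if_neg h1, zero_mul]

/-! ### the induction -/

theorem base (hb : b ≠ 0) (hsb : s ≠ b) (hi0 : i < L) {β1 β2 : ℝ} (h2 : 0 ≤ β2)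
    (lo' hi' lo hi : Fin (m + 1) → ℕ)
    (H1 : NB (Mg ((Inn m).erase b) b 0 (fun _ => i) (cut lo hi v) ω)
        (β1 * bl ((Inn m).erase b) lo hi))
    (H2 : NB (Mg ((univ.erase b).erase s) b s (fun _ => 0) (cut lo' hi' v) ω)
        (β2 * bl ((univ.erase b).erase s) lo' hi')) :
    ∑ u ∈ range L, kw i b s v ω (wT ∅) lo' hi' lo hi u ^ 2 ≤
      (β2 * bl ((univ.erase b).erase s) lo' hi') * (β1 * bl ((Inn m).erase b) lo hi) := by
  set B := Mg ((univ.erase b).erase s) b s (fun _ => 0) (cut lo' hi' v) ω with hB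
  set A := Mg ((Inn m).erase b) b 0 (fun _ => i) (cut lo hi v) ω with hA
  have hBb : 0 ≤ β2 * bl ((univ.erase b).erase s) lo' hi' := mul_nonneg h2 (bl_nonneg _ _ _)
  have hcol : ∑ r : Fin L, A r ⟨i, hi0⟩ ^ 2 ≤ β1 * bl ((Inn m).erase b) lo hi := by
    have h3 := H1 (fun y => if y = ⟨i, hi0⟩ then 1 else 0)
    simpa using h3
  -- the transposed matrix
  have hT : ∀ z : Fin L → ℝ, ∑ u : Fin L, (∑ r : Fin L, B r u * z r) ^ 2 ≤
      (β2 * bl ((univ.erase b).erase s) lo' hi') * ∑ r, z r ^ 2 := by
    intro z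
    set Y : Fin L → ℝ := fun u => ∑ r : Fin L, B r u * z r with hY
    have h4 := H2 Y
    have h5 : ∑ u, Y u ^ 2 = ∑ r, z r * ∑ u, B r u * Y u := by
      calc ∑ u, Y u ^ 2 = ∑ u, ∑ r, z r * (B r u * Y u) := by
            refine sum_congr rfl fun u _ => ?_
            rw [sq]
            conv_lhs => rw [hY]
            simp only
            rw [sum_mul]
            refine sum_congr rfl fun r _ => ?_
            ring
        _ = ∑ r, z r * ∑ u, B r u * Y u := by
            rw [sum_comm]
            refine sum_congr rfl fun r _ => ?_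
            rw [mul_sum]
    have h6 : (∑ u, Y u ^ 2) ^ 2 ≤ (∑ r, z r ^ 2) *
        ((β2 * bl ((univ.erase b).erase s) lo' hi') * ∑ u, Y u ^ 2) := by
      calc (∑ u, Y u ^ 2) ^ 2 = (∑ r, z r * ∑ u, B r u * Y u) ^ 2 := by rw [h5]
        _ ≤ (∑ r, z r ^ 2) * ∑ r, (∑ u, B r u * Y u) ^ 2 := sum_mul_sq_le_sq_mul_sq _ _ _
        _ ≤ _ := mul_le_mul_of_nonneg_left h4 (sum_nonneg fun _ _ => sq_nonneg _)
    have h7 : 0 ≤ ∑ u, Y u ^ 2 := sum_nonneg fun _ _ => sq_nonneg _
    rcases h7.eq_or_lt with h8 | h8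
    · rw [← h8]
      exact mul_nonneg hBb (sum_nonneg fun _ _ => sq_nonneg _)
    · by_contra h9
      push Not at h9
      have h10 := mul_lt_mul_of_pos_right h9 h8
      nlinarith
  have hkw : ∀ u : Fin L, kw i b s v ω (wT ∅) lo' hi' lo hi u =
      ∑ r : Fin L, B r u * A r ⟨i, hi0⟩ := by
    intro u
    unfold kw
    rw [← Fin.sum_univ_eq_sum_range (fun r => ∑ q' ∈ fr L ((univ.erase b).erase s)
      (Function.update (Function.update (fun _ => 0) b r) s u),
      ∑ p ∈ fr L ((Inn m).erase b) (Function.update (fun _ => i) b r),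
      wT ∅ q' p * ((ps ((univ.erase b).erase s) q' ω * cut lo' hi' v q' ω) *
          (ps ((Inn m).erase b) p ω * cut lo hi v p ω))) L]
    refine sum_congr rfl fun r _ => ?_
    have e1 : B r u = ∑ q' ∈ fr L ((univ.erase b).erase s)
        (Function.update (Function.update (fun _ => 0) b (r : ℕ)) s (u : ℕ)),
        ps ((univ.erase b).erase s) q' ω * cut lo' hi' v q' ω := rfl
    have e2 : A r ⟨i, hi0⟩ = ∑ p ∈ fr L ((Inn m).erase b) (Function.update (fun _ => i) b (r : ℕ)),
        ps ((Inn m).erase b) p ω * cut lo hi v p ω := by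
      have e3 : A r ⟨i, hi0⟩ = ∑ p ∈ fr L ((Inn m).erase b)
          (Function.update (Function.update (fun _ => i) b (r : ℕ)) 0 i),
          ps ((Inn m).erase b) p ω * cut lo hi v p ω := rfl
      rw [e3]
      congr 2
      funext a
      by_cases ha : a = 0
      · subst ha
        rw [Function.update_self, Function.update_of_ne (Ne.symm hb)]
      · rw [Function.update_of_ne ha]
    rw [e1, e2, sum_mul_sum]
    refine sum_congr rfl fun q' _ => sum_congr rfl fun p _ => ?_
    simp [wT]
  rw [← Fin.sum_univ_eq_sum_range (fun u => kw i b s v ω (wT ∅) lo' hi' lo hi u ^ 2) L]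
  simp_rw [hkw]
  exact (hT _).trans (mul_le_mul_of_nonneg_left hcol hBb)

theorem main (hb : b ≠ 0) (hsb : s ≠ b) (hi0 : i < L) {β1 β2 : ℝ} (h1 : 0 ≤ β1) (h2 : 0 ≤ β2)
    (Hc' Hc : Fin (m + 1) → ℕ)
    (H1 : ∀ lo2 hi2 : Fin (m + 1) → ℕ, (∀ e, hi2 e ≤ Hc e) →
      NB (Mg ((Inn m).erase b) b 0 (fun _ => i) (cut lo2 hi2 v) ω)
        (β1 * bl ((Inn m).erase b) lo2 hi2))
    (H2 : ∀ lo2 hi2 : Fin (m + 1) → ℕ, (∀ e, hi2 e ≤ Hc' e) →
      NB (Mg ((univ.erase b).erase s) b s (fun _ => 0) (cut lo2 hi2 v) ω)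
        (β2 * bl ((univ.erase b).erase s) lo2 hi2)) (T : Finset (Fin (m + 1))) (hbT : b ∉ T) :
    ∀ lo' hi' lo hi : Fin (m + 1) → ℕ, (∀ e, hi' e ≤ Hc' e) → (∀ e, hi e ≤ Hc e) →
    ∑ u ∈ range L, kw i b s v ω (wT T) lo' hi' lo hi u ^ 2 ≤
      ((Nat.log 2 L : ℝ) + 1) ^ (2 * T.card) * (β2 * bl ((univ.erase b).erase s) lo' hi') *
        (β1 * bl ((Inn m).erase b) lo hi) := by
  induction T using Finset.induction_on with
  | empty =>
    intro lo' hi' lo hi hh' hh
    have := base i b s v ω hb hsb hi0 h2 lo' hi' lo hi (H1 lo hi hh) (H2 lo' hi' hh')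
    simpa using this
  | insert e T he ih =>
    intro lo' hi' lo hi hh' hh
    rw [mem_insert, not_or] at hbT
    have heb : e ≠ b := fun h => hbT.1 h.symm
    have ih := ih hbT.2
    set J : ℝ := (Nat.log 2 L : ℝ) + 1 with hJ
    have hJ1 : 1 ≤ J := by
      rw [hJ]
      have : (0 : ℝ) ≤ (Nat.log 2 L : ℝ) := Nat.cast_nonneg _
      linarith
    have hJ0 : 0 ≤ J := by linarith
    have hX' := fun lo2 hi2 : Fin (m + 1) → ℕ =>
      mul_nonneg h2 (bl_nonneg ((univ.erase b).erase s) lo2 hi2)
    have hX := fun lo2 hi2 : Fin (m + 1) → ℕ => mul_nonneg h1 (bl_nonneg ((Inn m).erase b) lo2 hi2)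
    have hstep : J ^ (2 * T.card) * (β2 * bl ((univ.erase b).erase s) lo' hi') *
        (β1 * bl ((Inn m).erase b) lo hi) ≤
        J ^ (2 * (insert e T).card) * (β2 * bl ((univ.erase b).erase s) lo' hi') *
        (β1 * bl ((Inn m).erase b) lo hi) := by
      rw [card_insert_of_notMem he]
      refine mul_le_mul_of_nonneg_right (mul_le_mul_of_nonneg_right ?_ (hX' _ _)) (hX _ _)
      exact pow_le_pow_right₀ hJ1 (by omega)
    by_cases he0 : e = 0
    · subst he0
      by_cases hs0 : s = 0
      · -- the digit `u` itself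
        subst hs0
        refine le_trans (sum_le_sum fun u _ => ?_) ((ih lo' hi' lo hi hh' hh).trans hstep)
        have h3 : kw i b 0 v ω (wT (insert 0 T)) lo' hi' lo hi u =
            kw i b 0 v ω (fun q' p => (if i < u then 1 else 0) * wT T q' p) lo' hi' lo hi u := by
          refine kw_congr i b 0 v ω hb fun q' p hq hp _ => ?_
          rw [wT_insert, hq, hp]
        rw [h3, kw_smul]
        split_ifs
        · rw [one_mul]
        · rw [zero_mul]
          simpa using sq_nonneg (kw i b 0 v ω (wT T) lo' hi' lo hi u)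
      · -- a smaller box
        have h0s : (0 : Fin (m + 1)) ≠ s := fun h => hs0 h.symm
        have h0m : (0 : Fin (m + 1)) ∈ (univ.erase b).erase s := by
          simp [h0s, Ne.symm hb]
        have h3 : ∀ u, kw i b s v ω (wT (insert 0 T)) lo' hi' lo hi u =
            kw i b s v ω (wT T) (Function.update lo' 0 (max (lo' 0) (i + 1)))
              (Function.update hi' 0 (min (hi' 0) (hi' 0))) lo hi u := by
          intro u
          refine kw_congr i b s v ω hb fun q' p hq hp _ => ?_
          rw [wT_insert, hp, cut_restr]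
          by_cases h4 : i < q' 0
          · rw [if_pos h4]
            by_cases h5 : q' 0 < hi' 0
            · rw [if_pos ⟨h4, h5⟩, one_mul]
            · have h6 : cut lo' hi' v q' ω = 0 := by
                unfold cut
                rw [if_neg]
                intro h7
                exact h5 (h7 0).2
              rw [if_neg (fun h7 => h5 h7.2), h6]
              ring
          · rw [if_neg h4, if_neg (fun h7 => h4 h7.1)]
            ring
        have h4 : bl ((univ.erase b).erase s) (Function.update lo' 0 (max (lo' 0) (i + 1)))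
              (Function.update hi' 0 (min (hi' 0) (hi' 0))) ≤
            bl ((univ.erase b).erase s) lo' hi' := by
          rw [bl_update h0m, bl_eq h0m]
          refine mul_le_mul_of_nonneg_right ?_ (prod_nonneg fun _ _ => Nat.cast_nonneg _)
          have : min (hi' 0) (hi' 0) - max (lo' 0) (i + 1) ≤ hi' 0 - lo' 0 := by omega
          exact_mod_cast this
        simp_rw [h3]
        refine le_trans (ih _ _ lo hi ?_ hh) (le_trans ?_ hstep)
        · intro a
          by_cases ha : a = 0
          · subst ha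
            rw [Function.update_self, min_self]
            exact hh' 0
          · rw [Function.update_of_ne ha]
            exact hh' a
        · refine mul_le_mul_of_nonneg_right (mul_le_mul_of_nonneg_left ?_ (pow_nonneg hJ0 _)) (hX _ _)
          exact mul_le_mul_of_nonneg_left h4 h2
    · -- dyadic pieces
      have hem : e ∈ (Inn m).erase b := by simp [Inn, heb, he0]
      set J0 := Nat.log 2 L + 1 with hJ0d
      have hLJ : L < 2 ^ J0 := Nat.lt_pow_succ_log_self (by norm_num) L
      have hJJ : ((J0 : ℕ) : ℝ) = J := by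
        rw [hJ0d, hJ]
        push_cast
        ring
      have hdec : ∀ u < L, kw i b s v ω (wT (insert e T)) lo' hi' lo hi u =
          ∑ j ∈ range J0, kw i b s v ω
            (fun q' p => (if lev38 j (q' e) (p e) then 1 else 0) * wT T q' p) lo' hi' lo hi u := by
        intro u hu
        rw [← kw_sum]
        refine kw_congr i b s v ω hb fun q' p hq hp hqL => ?_
        congr 1
        rw [wT_insert, ← sum_mul]
        have h3 : q' e < L := by
          by_cases hes : e = s
          · rw [hes, hq]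
            exact hu
          · exact hqL e heb hes
        rw [sum_lev38 J0 (q' e) (p e) (h3.trans hLJ)]
      have hlev : ∀ j ∈ range J0, ∑ u ∈ range L, kw i b s v ω
            (fun q' p => (if lev38 j (q' e) (p e) then 1 else 0) * wT T q' p) lo' hi' lo hi u ^ 2 ≤
          J ^ (2 * T.card) * (β2 * bl ((univ.erase b).erase s) lo' hi') *
            (β1 * bl ((Inn m).erase b) lo hi) := by
        intro j _
        by_cases hes : e = s
        · subst hes
          have h3 : ∀ u ∈ range L, kw i b e v ω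
              (fun q' p => (if lev38 j (q' e) (p e) then 1 else 0) * wT T q' p) lo' hi' lo hi u ^ 2 ≤
              ∑ k ∈ range L, kw i b e v ω (wT T) lo' hi' (lk lo e j 0 k) (hk hi e j 0 k) u ^ 2 := by
            intro u hu
            have hu' := mem_range.1 hu
            have h4 : kw i b e v ω
              (fun q' p => (if lev38 j (q' e) (p e) then 1 else 0) * wT T q' p) lo' hi' lo hi u =
              ∑ k ∈ range L, (if u / 2 ^ j = 2 * k + 1 then (1 : ℝ) else 0) *
                kw i b e v ω (wT T) lo' hi' (lk lo e j 0 k) (hk hi e j 0 k) u := by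
              have h5 : ∀ k, kw i b e v ω (wT T) lo' hi' (lk lo e j 0 k) (hk hi e j 0 k) u =
                  kw i b e v ω (fun q' p => (if p e / 2 ^ j = 2 * k + 0 then (1 : ℝ) else 0) *
                    wT T q' p) lo' hi' lo hi u := by
                intro k
                refine kw_congr i b e v ω hb fun q' p _ _ _ => ?_
                rw [cut_k]
                split_ifs <;> simp
              simp_rw [h5]
              simp_rw [← kw_smul]
              rw [← kw_sum]
              refine kw_congr i b e v ω hb fun q' p hq _ _ => ?_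
              congr 1
              rw [hq, lev_sum hu', sum_mul]
              refine sum_congr rfl fun k _ => ?_
              ring
            rw [h4]
            by_cases h6 : ∃ k ∈ range L, u / 2 ^ j = 2 * k + 1
            · obtain ⟨k, hk1, hk2⟩ := h6
              rw [sum_eq_single k]
              · rw [if_pos hk2, one_mul]
                exact single_le_sum (f := fun k => kw i b e v ω (wT T) lo' hi' (lk lo e j 0 k)
                  (hk hi e j 0 k) u ^ 2) (fun _ _ => sq_nonneg _) hk1
              · intro k' _ hk'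
                rw [if_neg (by omega), zero_mul]
              · intro h7
                exact absurd hk1 h7
            · push Not at h6
              rw [sum_eq_zero (fun k hk' => by rw [if_neg (h6 k hk'), zero_mul])]
              rw [zero_pow two_ne_zero]
              exact sum_nonneg fun _ _ => sq_nonneg _
          refine (sum_le_sum h3).trans ?_
          rw [sum_comm]
          calc ∑ k ∈ range L, ∑ u ∈ range L,
                kw i b e v ω (wT T) lo' hi' (lk lo e j 0 k) (hk hi e j 0 k) u ^ 2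
              ≤ ∑ k ∈ range L, J ^ (2 * T.card) * (β2 * bl ((univ.erase b).erase e) lo' hi') *
                  (β1 * bl ((Inn m).erase b) (lk lo e j 0 k) (hk hi e j 0 k)) :=
                sum_le_sum fun k _ => ih lo' hi' _ _ hh' (hk_le hh e j 0 k)
            _ = J ^ (2 * T.card) * (β2 * bl ((univ.erase b).erase e) lo' hi') *
                  (β1 * ∑ k ∈ range L, bl ((Inn m).erase b) (lk lo e j 0 k) (hk hi e j 0 k)) := by
                rw [← mul_sum, ← mul_sum]
            _ ≤ _ := by
                refine mul_le_mul_of_nonneg_left ?_ (mul_nonneg (pow_nonneg hJ0 _) (hX' _ _))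
                exact mul_le_mul_of_nonneg_left (sum_bl hem lo hi L j 0) h1
        · have hem' : e ∈ (univ.erase b).erase s := by simp [heb, hes]
          have h4 : ∀ u ∈ range L, kw i b s v ω
              (fun q' p => (if lev38 j (q' e) (p e) then 1 else 0) * wT T q' p) lo' hi' lo hi u =
              ∑ k ∈ range L, kw i b s v ω (wT T) (lk lo' e j 1 k) (hk hi' e j 1 k)
                (lk lo e j 0 k) (hk hi e j 0 k) u := by
            intro u _
            have h5 : ∀ k, kw i b s v ω (wT T) (lk lo' e j 1 k) (hk hi' e j 1 k)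
                (lk lo e j 0 k) (hk hi e j 0 k) u =
                kw i b s v ω (fun q' p => (if q' e / 2 ^ j = 2 * k + 1 then (1 : ℝ) else 0) *
                  (if p e / 2 ^ j = 2 * k + 0 then (1 : ℝ) else 0) *
                  wT T q' p) lo' hi' lo hi u := by
              intro k
              refine kw_congr i b s v ω hb fun q' p _ _ _ => ?_
              rw [cut_k, cut_k]
              split_ifs <;> simp
            simp_rw [h5]
            rw [← kw_sum]
            refine kw_congr i b s v ω hb fun q' p _ _ hqL => ?_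
            congr 1
            rw [lev_sum (hqL e heb hes), sum_mul]
          rw [sum_congr rfl fun u hu => by rw [h4 u hu]]
          have h6 := mink (range L) (range L) (fun k u => kw i b s v ω (wT T) (lk lo' e j 1 k)
            (hk hi' e j 1 k) (lk lo e j 0 k) (hk hi e j 0 k) u)
            (fun k => J ^ (2 * T.card) *
              (β2 * bl ((univ.erase b).erase s) (lk lo' e j 1 k) (hk hi' e j 1 k)))
            (fun k => β1 * bl ((Inn m).erase b) (lk lo e j 0 k) (hk hi e j 0 k))
            (fun k _ => mul_nonneg (pow_nonneg hJ0 _) (hX' _ _)) (fun k _ => hX _ _)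
            (fun k _ => ih _ _ _ _ (hk_le hh' e j 1 k) (hk_le hh e j 0 k))
          refine h6.trans ?_
          rw [← mul_sum, ← mul_sum, ← mul_sum]
          refine mul_le_mul ?_ ?_ (mul_nonneg h1 (sum_nonneg fun _ _ => bl_nonneg _ _ _))
            (mul_nonneg (pow_nonneg hJ0 _) (hX' _ _))
          · refine mul_le_mul_of_nonneg_left ?_ (pow_nonneg hJ0 _)
            exact mul_le_mul_of_nonneg_left (sum_bl hem' lo' hi' L j 1) h2
          · exact mul_le_mul_of_nonneg_left (sum_bl hem lo hi L j 0) h1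
      calc ∑ u ∈ range L, kw i b s v ω (wT (insert e T)) lo' hi' lo hi u ^ 2
          = ∑ u ∈ range L, (∑ j ∈ range J0, kw i b s v ω
            (fun q' p => (if lev38 j (q' e) (p e) then 1 else 0) * wT T q' p)
              lo' hi' lo hi u) ^ 2 :=
            sum_congr rfl fun u hu => by rw [hdec u (mem_range.1 hu)]
        _ ≤ ∑ u ∈ range L, (J0 : ℝ) * ∑ j ∈ range J0, kw i b s v ω
            (fun q' p => (if lev38 j (q' e) (p e) then 1 else 0) * wT T q' p)
              lo' hi' lo hi u ^ 2 := by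
            refine sum_le_sum fun u _ => ?_
            have := sq_sum_le_card_mul_sum_sq (s := range J0) (f := fun j => kw i b s v ω
              (fun q' p => (if lev38 j (q' e) (p e) then 1 else 0) * wT T q' p)
              lo' hi' lo hi u)
            rwa [card_range] at this
        _ = (J0 : ℝ) * ∑ j ∈ range J0, ∑ u ∈ range L, kw i b s v ω
            (fun q' p => (if lev38 j (q' e) (p e) then 1 else 0) * wT T q' p)
              lo' hi' lo hi u ^ 2 := by
            rw [← mul_sum, sum_comm]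
        _ ≤ (J0 : ℝ) * ∑ j ∈ range J0, J ^ (2 * T.card) *
              (β2 * bl ((univ.erase b).erase s) lo' hi') * (β1 * bl ((Inn m).erase b) lo hi) :=
            mul_le_mul_of_nonneg_left (sum_le_sum hlev) (Nat.cast_nonneg _)
        _ = J ^ (2 * (insert e T).card) * (β2 * bl ((univ.erase b).erase s) lo' hi') *
              (β1 * bl ((Inn m).erase b) lo hi) := by
            rw [sum_const, card_range, nsmul_eq_mul, hJJ, card_insert_of_notMem he, mul_add,
              pow_add]
            ring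

end

end Kbs69

/-- KBS -/
theorem kbs_69 : StKbs := by
  intro m L i β1 β2 T b s v lo' hi' lo hi ω h1 h2 hb hsb hbT hi0 _ _ H1 H2
  simp_rw [Kbs69.k1_eq]
  exact Kbs69.main i b s v ω hb hsb hi0 h1 h2 hi' hi (fun lo2 hi2 h => H1 lo2 hi2 _ h) H2 T hbT
    lo' hi' lo hi (fun _ => le_rfl) (fun _ => le_rfl)

end Pool.Agent.SHD
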