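import Pool.Agent.Lib.MP_a7b2aa_an.SHD.Stmts4_25
import Pool.Agent.Lib.MP_a7b2aa_an.SHD.TiltK65
import Pool.Agent.Lib.MP_a7b2aa_an.SBD.EEB36

/-!
SHD4, module QCU (helper21): the tilt up to the row `j`.
-/

set_option autoImplicit false

namespace Pool.Agent.SHD

open Finset Pool.Agent.SB3 Pool.Agent.SBT Pool.Agent.SBD

variable {m L : ℕ}

theorem qq_cu_21 (j : ℕ) (θ : ℕ → Pt m L → ℝ) :
    qq (cu j θ) = PG65 0 θ (min j L) := by
  funext ω
  unfold qq PG65
  have h1 : ∏ i ∈ range L, (1 + sb 0 i ω * cu j θ i ω) =
      ∏ i ∈ range L, if i < j then (1 + sb 0 i ω * θ i ω) else 1 := by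
    refine prod_congr rfl fun i _ => ?_
    unfold cu
    by_cases h : i < j
    · rw [if_pos h, if_pos h]
    · rw [if_neg h, if_neg h, mul_zero, add_zero]
  rw [h1, prod_ite, prod_const_one, mul_one]
  refine prod_congr ?_ fun _ _ => rfl
  ext i
  rw [mem_filter, mem_range, mem_range, lt_min_iff]
  tauto

theorem qcu_21 : StQcu := by
  intro m L j k θ hP hL
  have hE := eeb_36 m L
  have hP' : Prd (cu j θ) := by
    refine ⟨fun i => ?_, fun i ω => ?_⟩
    · by_cases h : i < j
      · have e : cu j θ i = θ i := by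
          funext ω
          exact if_pos h
        rw [e]
        exact hP.dep i
      · have e : cu j θ i = fun _ => 0 := by
          funext ω
          exact if_neg h
        rw [e]
        exact Ms.cst _ _
    · unfold cu
      split_ifs
      · exact hP.abs i ω
      · simp
  have hEq : ∀ ω, EE (one L 0 (min j L)) (qq θ) ω = qq (cu j θ) ω := by
    intro ω
    rw [qq_cu_21, qq_eq65]
    exact EE_PG65 hE hP.dep (min_le_right j L) le_rfl ω
  refine ⟨hP', ⟨?_, ?_, ?_⟩, ?_⟩
  · exact (tiltk_65 eeb_36 m L _ hP').1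
  · exact (tiltk_65 eeb_36 m L _ hP').2.1
  · intro ω
    rw [← hEq ω, ← hE.const (one L 0 (min j L)) (Real.exp k) ω]
    exact hE.mono _ _ _ (fun ω' => hL.le ω') ω
  · intro X hX
    have hX' : Ms (one L 0 (min j L)) X := by
      refine hX.mono fun b => ?_
      by_cases hb : b = 0
      · subst hb
        rw [one_self65, one_self65]
        rcases le_total j L with h | h
        · left
          rw [min_eq_left h]
        · right
          rw [min_eq_right h]
      · left
        unfold one
        rw [Function.update_of_ne hb, Function.update_of_ne hb]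
    rw [qq_eq65 θ, Ex_PG65 hE hP.dep (min_le_right j L) X hX', qq_cu_21]
    rfl

end Pool.Agent.SHD
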