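import Pool.Agent.Lib.MP_a7b2aa_an.SHD.AllN23
import Pool.Agent.Lib.MP_a7b2aa_an.SHD.Frv38
import Pool.Agent.Lib.MP_a7b2aa_an.SHD.Sc74
import Pool.Agent.Lib.MP_a7b2aa_an.SHD.Split26
import Pool.Agent.Lib.MP_a7b2aa_an.SHD.Kbs69
import Pool.Agent.Lib.MP_a7b2aa_an.SHD.Alx30
import Pool.Agent.Lib.MP_a7b2aa_an.SHD.Exch18
import Pool.Agent.Lib.MP_a7b2aa_an.SHD.Hell21
import Pool.Agent.Lib.MP_a7b2aa_an.SHD.Qcu21
import Pool.Agent.Lib.MP_a7b2aa_an.SHD.Tame65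
import Pool.Agent.Lib.MP_a7b2aa_an.SBD.Alf74

/-!
SHD3, SHD4 (helper65): assembly, the gated tilt is tame.
-/

set_option autoImplicit false

namespace Pool.Agent.SHD

open Pool.Agent.SBD

theorem exch_all65 : StExch :=
  exch_18 exalg_21 sc_74 triS_38 (tail_3 ent_3) (alf_74 eeb_36) (alx_30 eeb_36)
    (tiltk_65 eeb_36)

theorem openN_all65 : StOpenN :=
  openN_of frv_38 sc_74 split_26 kbs_69 (alx_30 eeb_36) exch_all65

theorem tame_all65 : StTame := tame_65 openN_all65 exch_all65 hell_21 qcu_21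

end Pool.Agent.SHD
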