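import Pool.Agent.Lib.MP_a7b2aa_an.SHD.Stmts65

/-!
SHD, modules BGB and CARDB (helper69): basic facts on the blocks, number of boundary positions.
-/

set_option autoImplicit false

namespace Pool.Agent.SHD

open Finset Pool.Agent.SB3 Pool.Agent.SBT Pool.Agent.SBD

theorem gpt_fl69 {L : ℕ} {v : ℕ} (hv : v < L) (y : Y L) :
    gpt (fl33 v y) = gpt y + (if bit y v then -1 else 1) * (2 * Real.pi / 2 ^ (v + 1)) := by
  unfold gpt
  rw [← Finset.add_sum_erase _ _ (mem_range.2 hv), ← Finset.add_sum_erase (range L)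
    (fun r => if bit y r then 2 * Real.pi / 2 ^ (r + 1) else 0) (mem_range.2 hv)]
  have h1 : ∑ x ∈ (range L).erase v, (if bit (fl33 v y) x then 2 * Real.pi / 2 ^ (x + 1) else 0) =
      ∑ x ∈ (range L).erase v, (if bit y x then 2 * Real.pi / 2 ^ (x + 1) else 0) := by
    refine sum_congr rfl fun x hx => ?_
    have hxv : x ≠ v := (mem_erase.1 hx).1
    have h2 : bit (fl33 v y) x = bit y x := by
      unfold fl33
      exact bit_upb_ne33 hxv _ _
    rw [h2]
  rw [h1, bit_fl33 hv]
  cases bit y v <;> simp <;> ring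

theorem exp_odd69 (u : ℤ) (hu : Odd u) :
    Complex.exp (Complex.I * (((u : ℝ) * Real.pi : ℝ) : ℂ)) = -1 := by
  obtain ⟨w, rfl⟩ := hu
  have h1 : Complex.I * ((((2 * w + 1 : ℤ) : ℝ) * Real.pi : ℝ) : ℂ) =
      (w : ℂ) * (2 * Real.pi * Complex.I) + Real.pi * Complex.I := by
    push_cast
    ring
  rw [h1, Complex.exp_add, Complex.exp_int_mul_two_pi_mul_I, one_mul, Complex.exp_pi_mul_I]

theorem exp_fl69 {L : ℕ} {v : ℕ} (hv : v < L) (κ u : ℤ) (hκ : κ = 2 ^ v * u) (hu : Odd u)
    (y : Y L) : Complex.exp (Complex.I * (((κ : ℝ) * gpt (fl33 v y) : ℝ) : ℂ)) =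
      -Complex.exp (Complex.I * (((κ : ℝ) * gpt y : ℝ) : ℂ)) := by
  rw [gpt_fl69 hv]
  have h0 : (κ : ℝ) * (2 * Real.pi / 2 ^ (v + 1)) = (u : ℝ) * Real.pi := by
    rw [hκ, pow_succ]
    push_cast
    field_simp
  by_cases hb : bit y v = true
  · rw [if_pos hb]
    have h1 : Complex.I * (((κ : ℝ) * (gpt y + -1 * (2 * Real.pi / 2 ^ (v + 1))) : ℝ) : ℂ) =
        Complex.I * (((κ : ℝ) * gpt y : ℝ) : ℂ) +
          Complex.I * ((((-u : ℤ) : ℝ) * Real.pi : ℝ) : ℂ) := by
      have h2 : (κ : ℝ) * (gpt y + -1 * (2 * Real.pi / 2 ^ (v + 1))) =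
          (κ : ℝ) * gpt y + ((-u : ℤ) : ℝ) * Real.pi := by
        push_cast
        linarith
      rw [h2, Complex.ofReal_add]
      ring
    rw [h1, Complex.exp_add, exp_odd69 (-u) (by simpa using hu)]
    ring
  · rw [if_neg hb]
    have h1 : Complex.I * (((κ : ℝ) * (gpt y + 1 * (2 * Real.pi / 2 ^ (v + 1))) : ℝ) : ℂ) =
        Complex.I * (((κ : ℝ) * gpt y : ℝ) : ℂ) +
          Complex.I * (((u : ℝ) * Real.pi : ℝ) : ℂ) := by
      have h2 : (κ : ℝ) * (gpt y + 1 * (2 * Real.pi / 2 ^ (v + 1))) =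
          (κ : ℝ) * gpt y + (u : ℝ) * Real.pi := by
        linarith
      rw [h2, Complex.ofReal_add]
      ring
    rw [h1, Complex.exp_add, exp_odd69 u hu]
    ring

theorem two_adic69 (κ : ℤ) (hκ : κ ≠ 0) : ∃ (v : ℕ) (u : ℤ), κ = 2 ^ v * u ∧ Odd u ∧
    (2 : ℤ) ^ v ≤ |κ| := by
  obtain ⟨v, m, hm, h⟩ := Nat.exists_eq_two_pow_mul_odd (n := κ.natAbs) (by omega)
  have habs : |κ| = (2 : ℤ) ^ v * m := by
    rw [Int.abs_eq_natAbs, h]
    push_cast
    ring
  have hm1 : (1 : ℤ) ≤ m := by
    have := hm.pos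
    omega
  have hle : (2 : ℤ) ^ v ≤ |κ| := by
    rw [habs]
    have : (0 : ℤ) < 2 ^ v := by positivity
    nlinarith
  rcases abs_cases κ with ⟨h1, _⟩ | ⟨h1, _⟩
  · refine ⟨v, m, ?_, by exact_mod_cast hm, hle⟩
    rw [← h1, habs]
  · refine ⟨v, -m, ?_, ?_, hle⟩
    · have : κ = -|κ| := by omega
      rw [this, habs]
      ring
    · have : Odd (m : ℤ) := by exact_mod_cast hm
      simpa using this

/-- the flip of the coordinate `v` of string `a` -/
def flP69 {m L : ℕ} (a : Fin (m + 1)) (v : ℕ) (hv : v < L) : Pt m L ≃ Pt m L where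
  toFun ω := Function.update ω a (fl33 v (ω a))
  invFun ω := Function.update ω a (fl33 v (ω a))
  left_inv ω := by
    simp [fl_fl33 hv]
  right_inv ω := by
    simp [fl_fl33 hv]

theorem mem_Bl69 {s : ℕ} {κ : ℤ} (h : κ ∈ Bl s) : |κ| < 2 ^ s ∧ (2 : ℤ) ^ s / 2 ≤ |κ| := by
  unfold Bl at h
  rw [mem_filter, Finset.mem_Ioo] at h
  exact ⟨abs_lt.2 h.1, h.2⟩

/-- the mean over string `a` of a block with `1 ≤ l a` is zero -/
theorem EE_bg69 {m L : ℕ} (c : (Fin (m + 1) → ℤ) → ℂ) (l : Fin (m + 1) → ℕ) (a : Fin (m + 1))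
    (hla : 1 ≤ l a) (hL : 2 * l a ≤ L) (ω : Pt m L) : EE (one L a 0) (bg c l) ω = 0 := by
  have key : ∀ k ∈ blk l, ∑ ω' : Pt m L, (if cl (one L a 0) ω' ω then
      Complex.exp (Complex.I * ∑ j, (((k j : ℝ) * gpt (ω' j) : ℝ) : ℂ)) else 0) = 0 := by
    intro k hk
    unfold blk at hk
    rw [Fintype.mem_piFinset] at hk
    obtain ⟨h1, h2⟩ := mem_Bl69 (hk a)
    have h0 : k a ≠ 0 := by
      intro h0
      rw [h0, abs_zero] at h2
      have h3 : (2 : ℤ) ^ (2 * l a) = 2 * 2 ^ (2 * l a - 1) := by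
        rw [← pow_succ']
        congr 1
        omega
      rw [h3, Int.mul_ediv_cancel_left _ (by norm_num)] at h2
      have : (0 : ℤ) < 2 ^ (2 * l a - 1) := by positivity
      omega
    obtain ⟨v, u, huv, hu, hle⟩ := two_adic69 (k a) h0
    have hvL : v < L := by
      have h3 : (2 : ℤ) ^ v < 2 ^ (2 * l a) := lt_of_le_of_lt hle h1
      have h4 : v < 2 * l a := by
        by_contra h4
        push Not at h4
        exact absurd h3 (not_lt.2 (pow_le_pow_right₀ (by norm_num) h4))
      omega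
    have hS : ∀ F : Pt m L → ℂ, (∀ ω', F (flP69 a v hvL ω') = -F ω') → ∑ ω', F ω' = 0 := by
      intro F hF
      have h5 : ∑ ω', F (flP69 a v hvL ω') = ∑ ω', F ω' := (flP69 a v hvL).sum_comp F
      rw [sum_congr rfl fun ω' _ => hF ω', sum_neg_distrib] at h5
      have h6 : (2 : ℂ) * ∑ ω', F ω' = 0 := by
        linear_combination -h5
      simpa using h6
    apply hS
    intro ω'
    have hcl : cl (one L a 0) (flP69 a v hvL ω') ω ↔ cl (one L a 0) ω' ω := by
      rw [cl_one_iff, cl_one_iff]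
      have h7 : ∀ y z : Y L, pre 0 y = pre 0 z := by
        intro y z
        funext i
        simp [pre]
      simp only [h7 _ (ω a), true_and]
      constructor
      · intro h b hb
        have := h b hb
        simpa [flP69, Function.update_of_ne hb] using this
      · intro h b hb
        have := h b hb
        simpa [flP69, Function.update_of_ne hb] using this
    by_cases hc : cl (one L a 0) ω' ω
    · rw [if_pos (hcl.2 hc), if_pos hc]
      have h8 : ∀ ω'' : Pt m L, Complex.exp (Complex.I * ∑ j, (((k j : ℝ) * gpt (ω'' j) : ℝ) : ℂ)) =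
          Complex.exp (Complex.I * (((k a : ℝ) * gpt (ω'' a) : ℝ) : ℂ)) *
            Complex.exp (Complex.I * ∑ j ∈ univ.erase a, (((k j : ℝ) * gpt (ω'' j) : ℝ) : ℂ)) := by
        intro ω''
        rw [← Complex.exp_add, ← mul_add, ← Finset.add_sum_erase univ
          (fun j => (((k j : ℝ) * gpt (ω'' j) : ℝ) : ℂ)) (mem_univ a)]
      rw [h8, h8 ω']
      have h9 : (flP69 a v hvL ω') a = fl33 v (ω' a) := by
        simp [flP69]
      have h10 : ∑ x ∈ univ.erase a, (((k x : ℝ) * gpt ((flP69 a v hvL ω') x) : ℝ) : ℂ) =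
          ∑ x ∈ univ.erase a, (((k x : ℝ) * gpt (ω' x) : ℝ) : ℂ) := by
        refine sum_congr rfl fun x hx => ?_
        have : (flP69 a v hvL ω') x = ω' x := by
          simp [flP69, Function.update_of_ne (mem_erase.1 hx).1]
        rw [this]
      rw [h9, h10, exp_fl69 hvL (k a) u huv hu]
      ring
    · rw [if_neg (fun h => hc (hcl.1 h)), if_neg hc, neg_zero]
  have h1 : ∑ ω' : Pt m L, (if cl (one L a 0) ω' ω then bg c l ω' else 0) =
      (∑ k ∈ blk l, c k * ∑ ω' : Pt m L, (if cl (one L a 0) ω' ω then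
      Complex.exp (Complex.I * ∑ j, (((k j : ℝ) * gpt (ω' j) : ℝ) : ℂ)) else 0)).re := by
    have h2 : ∀ k ∈ blk l, c k * ∑ ω' : Pt m L, (if cl (one L a 0) ω' ω then
        Complex.exp (Complex.I * ∑ j, (((k j : ℝ) * gpt (ω' j) : ℝ) : ℂ)) else 0) =
        ∑ ω' : Pt m L, c k * (if cl (one L a 0) ω' ω then
        Complex.exp (Complex.I * ∑ j, (((k j : ℝ) * gpt (ω' j) : ℝ) : ℂ)) else 0) :=
      fun k _ => Finset.mul_sum _ _ _
    rw [sum_congr rfl h2, Finset.sum_comm, Complex.re_sum]
    refine sum_congr rfl fun ω' _ => ?_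
    by_cases hc : cl (one L a 0) ω' ω
    · simp only [if_pos hc]
      rfl
    · simp only [if_neg hc, mul_zero, Finset.sum_const_zero, Complex.zero_re]
  unfold EE
  rw [h1, sum_eq_zero fun k hk => by rw [key k hk, mul_zero]]
  simp

theorem bgb_69 : StBgb := by
  intro m n L c l hl hL
  unfold inl at hl
  rw [mem_filter, Finset.Nat.mem_antidiagonalTuple] at hl
  obtain ⟨hsum, hpos⟩ := hl
  refine ⟨fun a ω => ?_, fun a ω => ?_⟩
  · refine ⟨fun κ => ∑ k ∈ (blk l).filter (fun k => k a = κ), c k *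
      Complex.exp (Complex.I * ∑ j ∈ univ.erase a, (((k j : ℝ) * gpt (ω j) : ℝ) : ℂ)), ?_⟩
    intro y
    show (∑ k ∈ blk l, c k * Complex.exp (Complex.I * ∑ j, (((k j : ℝ) *
        gpt (Function.update ω a y j) : ℝ) : ℂ))).re = (∑ κ ∈ Bl (2 * l a),
        (∑ k ∈ (blk l).filter (fun k => k a = κ), c k *
          Complex.exp (Complex.I * ∑ j ∈ univ.erase a, (((k j : ℝ) * gpt (ω j) : ℝ) : ℂ))) *
        Complex.exp (Complex.I * (((κ : ℝ) * gpt y : ℝ) : ℂ))).re
    congr 1
    rw [← Finset.sum_fiberwise_of_maps_to (s := blk l) (t := Bl (2 * l a)) (g := fun k => k a)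
      (fun k hk => by
        unfold blk at hk
        rw [Fintype.mem_piFinset] at hk
        exact hk a)]
    refine sum_congr rfl fun κ _ => ?_
    rw [Finset.sum_mul]
    refine sum_congr rfl fun k hk => ?_
    have hka : k a = κ := (mem_filter.1 hk).2
    rw [mul_assoc, ← Complex.exp_add]
    congr 2
    rw [← Finset.add_sum_erase _ _ (mem_univ a), Function.update_self, hka]
    have h1 : ∑ x ∈ univ.erase a, (((k x : ℝ) * gpt (Function.update ω a y x) : ℝ) : ℂ) =
        ∑ x ∈ univ.erase a, (((k x : ℝ) * gpt (ω x) : ℝ) : ℂ) := by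
      refine sum_congr rfl fun x hx => ?_
      rw [Function.update_of_ne (mem_erase.1 hx).1]
    rw [h1]
    ring
  · have hlan : l a ≤ n := by
      rw [← hsum]
      exact Finset.single_le_sum (f := l) (fun i _ => Nat.zero_le _) (mem_univ a)
    exact EE_bg69 c l a (hpos a) (by omega) ω

theorem cardb_69 : StCardb := by
  intro d hd
  refine ⟨d * 2 ^ (d - 2), ?_, ?_⟩
  · have h1 : (1 : ℝ) ≤ d := by
      exact_mod_cast (by omega : 1 ≤ d)
    have h2 : (1 : ℝ) ≤ 2 ^ (d - 2) := one_le_pow₀ (by norm_num)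
    nlinarith
  intro n hn
  have hsub : Finset.Nat.antidiagonalTuple d n \ inl d n ⊆
      (univ : Finset (Fin d)).biUnion (fun j => (Finset.Nat.antidiagonalTuple d n).filter
        (fun l => l j = 0)) := by
    intro l hl
    rw [mem_sdiff] at hl
    obtain ⟨h1, h2⟩ := hl
    unfold inl at h2
    rw [mem_filter, not_and] at h2
    have h3 := h2 h1
    push Not at h3
    obtain ⟨j, hj⟩ := h3
    rw [mem_biUnion]
    exact ⟨j, mem_univ _, mem_filter.2 ⟨h1, by omega⟩⟩
  have hj : ∀ j : Fin d, ((Finset.Nat.antidiagonalTuple d n).filter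
      (fun l => l j = 0)).card ≤ (n + 1) ^ (d - 2) := by
    intro j
    obtain ⟨j', hj'⟩ : ∃ j' : Fin d, j' ≠ j := by
      by_contra hne
      push Not at hne
      have h1 := hne ⟨0, by omega⟩
      have h2 := hne ⟨1, by omega⟩
      rw [← h2, Fin.mk.injEq] at h1
      omega
    have hcard : (Fintype.piFinset (fun i : Fin d => if i = j ∨ i = j' then ({0} : Finset ℕ)
        else range (n + 1))).card = (n + 1) ^ (d - 2) := by
      rw [Fintype.card_piFinset]
      have h1 : ∀ i : Fin d, (if i = j ∨ i = j' then ({0} : Finset ℕ) else range (n + 1)).card =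
          if i = j ∨ i = j' then 1 else n + 1 := by
        intro i
        by_cases hi : i = j ∨ i = j'
        · simp [hi]
        · simp [hi]
      simp_rw [h1]
      rw [Finset.prod_ite, Finset.prod_const_one, one_mul, Finset.prod_const]
      congr 1
      have h2 : (univ.filter (fun i : Fin d => ¬ (i = j ∨ i = j'))) = (univ.erase j).erase j' := by
        ext i
        simp only [mem_filter, mem_univ, true_and, mem_erase, and_true]
        tauto
      rw [h2, card_erase_of_mem (by simp [hj']), card_erase_of_mem (mem_univ _)]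
      simp
      omega
    rw [← hcard]
    refine card_le_card_of_injOn (fun l i => if i = j ∨ i = j' then 0 else l i) ?_ ?_
    · intro l hl
      rw [mem_coe, mem_filter, Finset.Nat.mem_antidiagonalTuple] at hl
      rw [mem_coe, Fintype.mem_piFinset]
      intro i
      by_cases hi : i = j ∨ i = j'
      · simp [hi]
      · simp only [hi, if_false, mem_range]
        have := Finset.single_le_sum (f := l) (fun i _ => Nat.zero_le _) (mem_univ i)
        omega
    · intro l hl l' hl' h
      rw [mem_coe, mem_filter, Finset.Nat.mem_antidiagonalTuple] at hl hl'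
      have h1 : ∀ i, i ≠ j → i ≠ j' → l i = l' i := by
        intro i h1 h2
        have := congrFun h i
        simpa [h1, h2] using this
      have h2 : l j = l' j := by
        rw [hl.2, hl'.2]
      have h3 : l j' = l' j' := by
        have e1 := Finset.add_sum_erase univ l (mem_univ j')
        have e2 := Finset.add_sum_erase univ l' (mem_univ j')
        have e3 : ∑ x ∈ univ.erase j', l x = ∑ x ∈ univ.erase j', l' x := by
          refine sum_congr rfl fun x hx => ?_
          by_cases hxj : x = j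
          · rw [hxj, h2]
          · exact h1 x hxj (mem_erase.1 hx).1
        omega
      funext i
      by_cases hi : i = j
      · rw [hi, h2]
      · by_cases hi' : i = j'
        · rw [hi', h3]
        · exact h1 i hi hi'
  have hle : (Finset.Nat.antidiagonalTuple d n \ inl d n).card ≤ d * (n + 1) ^ (d - 2) := by
    calc (Finset.Nat.antidiagonalTuple d n \ inl d n).card ≤ _ := card_le_card hsub
      _ ≤ ∑ j : Fin d, ((Finset.Nat.antidiagonalTuple d n).filter (fun l => l j = 0)).card :=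
        card_biUnion_le
      _ ≤ ∑ j : Fin d, (n + 1) ^ (d - 2) := sum_le_sum fun j _ => hj j
      _ = d * (n + 1) ^ (d - 2) := by simp
  calc (((Finset.Nat.antidiagonalTuple d n \ inl d n).card : ℕ) : ℝ)
      ≤ ((d * (n + 1) ^ (d - 2) : ℕ) : ℝ) := by exact_mod_cast hle
    _ = (d : ℝ) * ((n : ℝ) + 1) ^ (d - 2) := by push_cast; ring
    _ ≤ (d : ℝ) * (2 * (n : ℝ)) ^ (d - 2) := by
        refine mul_le_mul_of_nonneg_left ?_ (by positivity)
        refine pow_le_pow_left₀ (by positivity) ?_ _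
        have : (1 : ℝ) ≤ n := by exact_mod_cast hn
        linarith
    _ = d * 2 ^ (d - 2) * (n : ℝ) ^ (d - 2) := by
        rw [mul_pow]
        ring

end Pool.Agent.SHD
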