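import Pool.Agent.Lib.MP_a7b2aa_an.SHD.Stmts65
import Pool.Agent.Lib.MP_a7b2aa_an.SBD.EEB36

/-!
SHD, module BLKB: decay of the Haar coefficients in several variables.
-/

set_option autoImplicit false

namespace Pool.Agent.SHD

open Finset Pool.Agent.SB3 Pool.Agent.SBT Pool.Agent.SBD

/-- real linear combinations of functions of the class `IsB` -/
theorem isB_lin3 {L : ℕ} {s : ℕ} {ι : Type} [Fintype ι] (w : ι → ℝ) (ψ : ι → Y L → ℝ)
    (h : ∀ i, IsB s (ψ i)) : IsB s (fun y => ∑ i, w i * ψ i y) := by
  unfold IsB at h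
  choose c hc using h
  refine ⟨fun k => ∑ i, (w i : ℂ) * c i k, fun y => ?_⟩
  have h1 : ∑ k ∈ Bl s, (∑ i, (w i : ℂ) * c i k) *
      Complex.exp (Complex.I * (((k : ℝ) * gpt y : ℝ) : ℂ)) =
      ∑ i, (w i : ℂ) * ∑ k ∈ Bl s, c i k *
        Complex.exp (Complex.I * (((k : ℝ) * gpt y : ℝ) : ℂ)) := by
    simp_rw [Finset.sum_mul, Finset.mul_sum]
    rw [Finset.sum_comm]
    refine sum_congr rfl fun i _ => sum_congr rfl fun k _ => ?_
    ring
  rw [h1, Complex.re_sum]
  refine sum_congr rfl fun i _ => ?_
  rw [Complex.re_ofReal_mul, ← hc i y]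

/-- the average over one string -/
theorem EE_one3 {m L : ℕ} (a : Fin (m + 1)) {t : ℕ} (X : Pt m L → ℝ) (ω : Pt m L) :
    EE (one L a t) X ω = (∑ y' : Y L, if pre t y' = pre t (ω a) then
      X (Function.update ω a y') else 0) / 2 ^ (L - t) := by
  unfold EE
  have h1 : ∑ b, (L - one L a t b) = L - t := by
    rw [Finset.sum_eq_single a]
    · simp [one]
    · intro b _ hb
      simp [one, Function.update_of_ne hb]
    · intro h
      exact absurd (mem_univ a) h
  rw [h1]
  congr 1
  rw [← Finset.sum_filter, ← Finset.sum_filter]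
  refine Finset.sum_bij' (fun (ω' : Pt m L) _ => ω' a) (fun (y' : Y L) _ => Function.update ω a y')
    ?_ ?_ ?_ ?_ ?_
  · intro ω' h
    rw [mem_filter] at h ⊢
    refine ⟨mem_univ _, ?_⟩
    have := h.2 a
    simpa [one] using this
  · intro y' h
    rw [mem_filter] at h ⊢
    refine ⟨mem_univ _, fun b => ?_⟩
    by_cases hb : b = a
    · subst hb
      simpa [one] using h.2
    · rw [Function.update_of_ne hb]
  · intro ω' h
    rw [mem_filter] at h
    funext b
    by_cases hb : b = a
    · subst hb
      rw [Function.update_self]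
    · rw [Function.update_of_ne hb]
      have := h.2 b
      unfold one at this
      rw [Function.update_of_ne hb] at this
      exact (pre_top33 le_rfl this).symm
  · intro y' h
    simp
  · intro ω' h
    rw [mem_filter] at h
    congr 1
    funext b
    by_cases hb : b = a
    · subst hb
      rw [Function.update_self]
    · rw [Function.update_of_ne hb]
      have := h.2 b
      unfold one at this
      rw [Function.update_of_ne hb] at this
      exact pre_top33 le_rfl this

theorem Dl_one3 {m L : ℕ} (a : Fin (m + 1)) (t : ℕ) (X : Pt m L → ℝ) (ω : Pt m L) :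
    EE (one L a t) (fun ω' => sb a t ω' * X ω') ω =
      Dl t (fun y => X (Function.update ω a y)) (ω a) := by
  rw [EE_one3]
  unfold Dl
  congr 1
  refine sum_congr rfl fun y' _ => ?_
  unfold sb
  rw [Function.update_self]

/-- the coefficient in the strings of `S` -/
noncomputable def T3 {m L : ℕ} (φ : Pt m L → ℝ) (q : Fin (m + 1) → ℕ) (S : Finset (Fin (m + 1)))
    (ω : Pt m L) : ℝ := EE (msk L S q) (fun ω' => ps S q ω' * φ ω') ω

theorem T3_empty {m L : ℕ} (φ : Pt m L → ℝ) (q : Fin (m + 1) → ℕ) (ω : Pt m L) :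
    T3 φ q ∅ ω = φ ω := by
  unfold T3
  have h1 : (fun ω' : Pt m L => ps ∅ q ω' * φ ω') = φ := by
    funext ω'
    simp [ps]
  rw [h1]
  refine (eeb_36 m L).idem _ _ ?_ ω
  intro ω₁ ω₂ h
  congr 1
  funext b
  have := h b
  simp only [msk, notMem_empty, if_false] at this
  exact pre_top33 le_rfl this

theorem T3_insert {m L : ℕ} (φ : Pt m L → ℝ) (q : Fin (m + 1) → ℕ) (hq : ∀ a, q a < L)
    {a : Fin (m + 1)} {S : Finset (Fin (m + 1))} (ha : a ∉ S) (ω : Pt m L) :
    T3 φ q (insert a S) ω = Dl (q a) (fun y => T3 φ q S (Function.update ω a y)) (ω a) := by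
  rw [← Dl_one3 a (q a) (T3 φ q S) ω]
  unfold T3
  have h1 : msk L (insert a S) q = fun b => min (one L a (q a) b) (msk L S q b) := by
    funext b
    unfold msk one
    by_cases hb : b = a
    · subst hb
      rw [if_pos (mem_insert_self _ _), if_neg ha, Function.update_self, min_eq_left (hq b).le]
    · rw [Function.update_of_ne hb]
      by_cases hbS : b ∈ S
      · rw [if_pos (mem_insert_of_mem hbS), if_pos hbS, min_eq_right (hq b).le]
      · rw [if_neg (by simp [hb, hbS]), if_neg hbS, min_self]
  rw [h1, ← (eeb_36 m L).comp]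
  congr 1
  funext ω'
  have h2 : (fun ω' : Pt m L => ps (insert a S) q ω' * φ ω') =
      fun ω' => sb a (q a) ω' * (ps S q ω' * φ ω') := by
    funext ω'
    unfold ps
    rw [prod_insert ha]
    ring
  rw [h2]
  refine (eeb_36 m L).pull _ _ _ ?_ ω'
  intro ω₁ ω₂ h
  unfold sb
  have := h a
  unfold msk at this
  rw [if_neg ha] at this
  rw [pre_top33 le_rfl this]

theorem blkb_3 (h : StK1D) : StBlkb := by
  obtain ⟨C, hC, hK⟩ := h
  intro m
  refine ⟨C ^ (m + 1), one_le_pow₀ hC, ?_⟩
  intro L s q φ D hs hsL hq hφ hD ω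
  have hD0 : 0 ≤ D := le_trans (abs_nonneg _) (hD ω)
  have key : ∀ S : Finset (Fin (m + 1)),
      (∀ b, b ∉ S → ∀ ω : Pt m L, IsB (s b) (fun y => T3 φ q S (Function.update ω b y))) ∧
      ∀ ω, |T3 φ q S ω| ≤ C ^ S.card * (∏ a ∈ S, (1 / 2 : ℝ) ^ dst (q a) (s a)) * D := by
    intro S
    induction S using Finset.induction_on with
    | empty =>
      refine ⟨fun b _ ω => ?_, fun ω => ?_⟩
      · simp only [T3_empty]
        exact hφ b ω
      · rw [T3_empty]
        simpa using hD ω
    | insert a S ha ih =>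
      obtain ⟨ih1, ih2⟩ := ih
      refine ⟨fun b hb ω => ?_, fun ω => ?_⟩
      · have hba : b ≠ a := fun h => hb (by rw [h]; exact mem_insert_self _ _)
        have hbS : b ∉ S := fun h => hb (mem_insert_of_mem h)
        have h1 : (fun y => T3 φ q (insert a S) (Function.update ω b y)) =
            fun y => ∑ y' : Y L, (if pre (q a) y' = pre (q a) (ω a) then
              sgr (bit y' (q a)) / 2 ^ (L - q a) else 0) *
                T3 φ q S (Function.update (Function.update ω a y') b y) := by
          funext y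
          rw [T3_insert φ q hq ha]
          unfold Dl
          rw [Function.update_of_ne hba.symm, Finset.sum_div]
          refine sum_congr rfl fun y' _ => ?_
          rw [← Function.update_comm hba y y' ω]
          split_ifs
          · ring
          · ring
        rw [h1]
        exact isB_lin3 _ _ fun y' => ih1 b hbS _
      · rw [T3_insert φ q hq ha, card_insert_of_notMem ha, prod_insert ha]
        have h2 := hK L (s a) (q a) (fun y => T3 φ q S (Function.update ω a y))
          (C ^ S.card * (∏ a ∈ S, (1 / 2 : ℝ) ^ dst (q a) (s a)) * D) (hs a) (hsL a) (hq a)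
          (ih1 a ha ω) (fun y => ih2 _) (ω a)
        refine h2.trans (le_of_eq ?_)
        rw [pow_succ]
        ring
  have h3 := (key univ).2 ω
  rw [card_univ, Fintype.card_fin] at h3
  have h4 : T3 φ q univ ω = SBD.cf φ q ω := by
    unfold T3 SBD.cf
    congr 1
    funext b
    simp [msk]
  rw [h4] at h3
  exact h3

end Pool.Agent.SHD
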