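import Pool.Agent.Lib.MP_a7b2aa_an.SHD.KerE74
import Pool.Agent.Lib.MP_a7b2aa_an.SHD.Blkb3

/-!
SHD4, torus part (helper74): decay of the Haar coefficients in several variables, enlarged blocks.
-/

set_option autoImplicit false

namespace Pool.Agent.SHD

open Finset Pool.Agent.SB3 Pool.Agent.SBT Pool.Agent.SBD K75

namespace E74

theorem blke {m L : ℕ} (s q : Fin (m + 1) → ℕ) (w : Fin (m + 1) → ZMod (2 ^ L) → ℝ)
    (φ : Pt m L → ℝ) (D : ℝ) (hs : ∀ a, 2 ≤ s a) (hsL : ∀ a, s a + 3 ≤ L) (hq : ∀ a, q a < L)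
    (hw : ∀ a, Ker L (s a) (w a))
    (hφ : ∀ (a : Fin (m + 1)) (ω : Pt m L), IsE (w a) (fun y => φ (Function.update ω a y)))
    (hD : ∀ ω, |φ ω| ≤ D) (ω : Pt m L) :
    |SBD.cf φ q ω| ≤ 262144 ^ (m + 1) * (∏ a, (1 / 2 : ℝ) ^ dst (q a) (s a)) * D := by
  have hD0 : 0 ≤ D := le_trans (abs_nonneg _) (hD ω)
  have key : ∀ S : Finset (Fin (m + 1)),
      (∀ b, b ∉ S → ∀ ω : Pt m L, IsE (w b) (fun y => T3 φ q S (Function.update ω b y))) ∧
      ∀ ω, |T3 φ q S ω| ≤ 262144 ^ S.card * (∏ a ∈ S, (1 / 2 : ℝ) ^ dst (q a) (s a)) * D := by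
    intro S
    induction S using Finset.induction_on with
    | empty =>
      refine ⟨fun b _ ω => ?_, fun ω => ?_⟩
      · simp only [T3_empty]
        exact hφ b ω
      · rw [T3_empty]
        simpa using hD ω
    | insert a S ha ih =>
      obtain ⟨ih1, ih2⟩ := ih
      refine ⟨fun b hb ω => ?_, fun ω => ?_⟩
      · have hba : b ≠ a := fun h => hb (by rw [h]; exact mem_insert_self _ _)
        have hbS : b ∉ S := fun h => hb (mem_insert_of_mem h)
        have h1 : (fun y => T3 φ q (insert a S) (Function.update ω b y)) =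
            fun y => ∑ y' : Y L, (if pre (q a) y' = pre (q a) (ω a) then
              sgr (bit y' (q a)) / 2 ^ (L - q a) else 0) *
                T3 φ q S (Function.update (Function.update ω a y') b y) := by
          funext y
          rw [T3_insert φ q hq ha]
          unfold Dl
          rw [Function.update_of_ne hba.symm, Finset.sum_div]
          refine sum_congr rfl fun y' _ => ?_
          rw [← Function.update_comm hba y y' ω]
          split_ifs
          · ring
          · ring
        rw [h1]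
        exact isE_lin _ _ _ fun y' => ih1 b hbS _
      · rw [T3_insert φ q hq ha, card_insert_of_notMem ha, prod_insert ha]
        have h2 := k1e (fun y => T3 φ q S (Function.update ω a y))
          (262144 ^ S.card * (∏ a ∈ S, (1 / 2 : ℝ) ^ dst (q a) (s a)) * D) (hs a) (hsL a) (hq a)
          (hw a) (ih1 a ha ω) (fun y => ih2 _) (ω a)
        refine h2.trans (le_of_eq ?_)
        rw [pow_succ]
        ring
  have h3 := (key univ).2 ω
  rw [card_univ, Fintype.card_fin] at h3
  have h4 : T3 φ q univ ω = SBD.cf φ q ω := by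
    unfold T3 SBD.cf
    congr 1
    funext b
    simp [msk]
  rw [h4] at h3
  exact h3

end E74

end Pool.Agent.SHD
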