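import Pool.Agent.Lib.MP_a7b2aa_an.SHD.Stmts65
import Pool.Agent.Lib.MP_a7b2aa_an.SBD.STR21
import Pool.Agent.Lib.MP_a7b2aa_an.SBD.Pars21

/-!
SHD, module CFEK (helper21): expansion and Parseval for functions with mean zero in every string.
-/

set_option autoImplicit false

namespace Pool.Agent.SHD

open Finset Pool.Agent.SB3 Pool.Agent.SBT Pool.Agent.SBD

/-- the component of the cell `q` in the strings of `U` -/
noncomputable def cpU21 {m L : ℕ} (H : Pt m L → ℝ) (U : Finset (Fin (m + 1)))
    (q : Fin (m + 1) → ℕ) (ω : Pt m L) : ℝ :=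
  ps U q ω * EE (msk L U q) (fun ω' => ps U q ω' * H ω') ω

theorem upd_sum21 {m L : ℕ} {U : Finset (Fin (m + 1))} {a : Fin (m + 1)} (ha : a ∉ U)
    (q0 : Fin (m + 1) → ℕ) (s : ℕ) (f : (Fin (m + 1) → ℕ) → ℝ) :
    ∑ q ∈ fr L U q0, f (Function.update q a s) =
      ∑ r ∈ fr L U (Function.update q0 a s), f r := by
  refine Finset.sum_bij' (fun q _ => Function.update q a s)
    (fun r _ => Function.update r a (q0 a)) ?_ ?_ ?_ ?_ ?_
  · intro q hq
    rw [mem_fr] at hq ⊢
    refine ⟨fun b hb => ?_, fun b hb => ?_⟩
    · rw [Function.update_of_ne (by rintro rfl; exact ha hb)]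
      exact hq.1 b hb
    · by_cases hba : b = a
      · subst hba
        rw [Function.update_self, Function.update_self]
      · rw [Function.update_of_ne hba, Function.update_of_ne hba]
        exact hq.2 b hb
  · intro r hr
    rw [mem_fr] at hr ⊢
    refine ⟨fun b hb => ?_, fun b hb => ?_⟩
    · rw [Function.update_of_ne (by rintro rfl; exact ha hb)]
      exact hr.1 b hb
    · by_cases hba : b = a
      · subst hba
        rw [Function.update_self]
      · rw [Function.update_of_ne hba]
        have h1 := hr.2 b hb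
        rwa [Function.update_of_ne hba] at h1
  · intro q hq
    rw [mem_fr] at hq
    show Function.update (Function.update q a s) a (q0 a) = q
    rw [Function.update_idem, ← hq.2 a ha, Function.update_eq_self]
  · intro r hr
    rw [mem_fr] at hr
    show Function.update (Function.update r a (q0 a)) a s = r
    have h1 := hr.2 a ha
    rw [Function.update_self] at h1
    rw [Function.update_idem, ← h1, Function.update_eq_self]
  · intro q _
    rfl

theorem exp21 {m L : ℕ} (hE : Eeb m L) (H : Pt m L → ℝ) (h0 : ∀ a ω, EE (one L a 0) H ω = 0)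
    (U : Finset (Fin (m + 1))) : ∀ ω, H ω = ∑ q ∈ fr L U (fun _ => 0), cpU21 H U q ω := by
  induction U using Finset.induction_on with
  | empty =>
    intro ω
    rw [fr_empty, sum_singleton]
    unfold cpU21
    have h1 : (fun ω' : Pt m L => ps ∅ (fun _ => 0) ω' * H ω') = H := by
      funext ω'
      simp [ps]
    have h2 : EE (msk L ∅ (fun _ => 0)) H ω = H ω := by
      refine hE.idem _ _ ?_ ω
      intro ω1 ω2 hc
      rw [cl_msk_iff] at hc
      have h3 : ω2 = ω1 := funext fun b => hc.2 b (by simp)
      rw [h3]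
    rw [h1, h2]
    simp [ps]
  | insert a U ha ih =>
    intro ω
    rw [sum_fr_insert ha]
    have h1 : ∀ q ∈ fr L U (fun _ => 0), cpU21 H U q ω =
        ∑ s ∈ range L, cpU21 H (insert a U) (Function.update q a s) ω := by
      intro q hq
      rw [mem_fr] at hq
      unfold cpU21
      have h2 : (fun ω' => ps U q ω' * H ω') =
          fun ω' => ps U q ω' * (H ω' - EE (one L a 0) H ω') := by
        funext ω'
        rw [h0, sub_zero]
      rw [h2, keyF_21 hE U a ha q hq.1 0 (Nat.zero_le _) H ω, Finset.mul_sum,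
        ← Finset.range_eq_Ico]
      refine sum_congr rfl fun s _ => ?_
      rw [ps_insert_21 U a ha q s ω]
      ring
    rw [ih ω, sum_congr rfl h1, sum_comm]
    exact sum_congr rfl fun s _ =>
      upd_sum21 ha (fun _ => 0) s (fun r => cpU21 H (insert a U) r ω)

/-- CFEK -/
theorem cfek_21 (hEB : StEeb) : StCfeK := by
  intro m L H h0
  have hE := hEB m L
  have h1 : ∀ ω, H ω = ∑ q ∈ All m L, ps Finset.univ q ω * cf H q ω := by
    intro ω
    have h2 := exp21 hE H h0 Finset.univ ω
    rw [h2]
    unfold All
    refine sum_congr rfl fun q _ => ?_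
    unfold cpU21 SBD.cf
    have h3 : msk L Finset.univ q = q := by
      funext b
      unfold msk
      rw [if_pos (mem_univ b)]
    rw [h3]
  refine ⟨h1, ?_⟩
  have h2 : (fun ω => H ω ^ 2) = fun ω => ∑ q ∈ All m L, H ω * cmp21 H q ω := by
    funext ω
    rw [← mul_sum, pow_two]
    congr 1
    exact h1 ω
  rw [h2, av_sum_21]
  refine sum_congr rfl fun q _ => ?_
  rw [av_cmp_21 hE]
  congr 1
  funext ω
  ring

end Pool.Agent.SHD
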