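import Pool.Agent.Lib.MP_a7b2aa_an.SHD.Stmts65
import Pool.Agent.Lib.MP_a7b2aa_an.SBD.EEB36

/-!
SHD: sums of characters over the grid (helper3).
-/

set_option autoImplicit false

namespace Pool.Agent.SHD

open Finset Pool.Agent.SB3 Pool.Agent.SBT Pool.Agent.SBD

/-- the character -/
noncomputable def ch3 {L : ℕ} (k : ℤ) (y : Y L) : ℂ :=
  Complex.exp (Complex.I * (((k : ℝ) * gpt y : ℝ) : ℂ))

theorem gpt_fl3 {L : ℕ} {r : ℕ} (hr : r < L) (y : Y L) :
    gpt (fl33 r y) = gpt y + (if bit y r then -1 else 1) * (2 * Real.pi / 2 ^ (r + 1)) := by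
  unfold gpt
  rw [← Finset.add_sum_erase _ _ (mem_range.2 hr),
    ← Finset.add_sum_erase (range L) (fun i => if bit y i = true then 2 * Real.pi / 2 ^ (i + 1)
      else 0) (mem_range.2 hr)]
  have h1 : ∀ i ∈ (range L).erase r, (if bit (fl33 r y) i = true then
      2 * Real.pi / 2 ^ (i + 1) else 0) = if bit y i = true then 2 * Real.pi / 2 ^ (i + 1)
      else 0 := by
    intro i hi
    have h2 : bit (fl33 r y) i = bit y i := bit_upb_ne33 (ne_of_mem_erase hi) y _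
    rw [h2]
  rw [sum_congr rfl h1, bit_fl33 hr]
  cases bit y r <;> simp <;> ring

theorem exp_odd3 (e : ℤ) : Complex.exp (Complex.I * ((2 * (e : ℂ) + 1) * Real.pi)) = -1 := by
  have h1 : Complex.I * ((2 * (e : ℂ) + 1) * Real.pi) =
      (e : ℂ) * (2 * Real.pi * Complex.I) + Real.pi * Complex.I := by ring
  rw [h1, Complex.exp_add, Complex.exp_int_mul_two_pi_mul_I, Complex.exp_pi_mul_I]
  ring

theorem exists_two_pow3 {L : ℕ} (k : ℤ) (hk : k ≠ 0) (hkL : |k| < 2 ^ L) :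
    ∃ r : ℕ, r < L ∧ ∃ e : ℤ, k = 2 ^ r * (2 * e + 1) := by
  obtain ⟨r, j, hj, hrj⟩ := Nat.exists_eq_two_pow_mul_odd (n := k.natAbs)
    (by simpa using hk)
  obtain ⟨i, hi⟩ := hj
  have hjpos : 1 ≤ j := by omega
  have h1 : (k.natAbs : ℤ) = 2 ^ r * (2 * (i : ℤ) + 1) := by
    rw [hrj, hi]
    push_cast
    ring
  refine ⟨r, ?_, ?_⟩
  · by_contra h
    have h2 : (2 : ℤ) ^ L ≤ 2 ^ r := pow_le_pow_right₀ (by norm_num) (by omega)
    have h3 : (2 : ℤ) ^ r ≤ (k.natAbs : ℤ) := by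
      rw [h1]
      have : (0 : ℤ) ≤ i := by positivity
      nlinarith [pow_pos (show (0 : ℤ) < 2 by norm_num) r]
    rw [Int.natCast_natAbs] at h3
    omega
  · rcases le_total 0 k with h | h
    · refine ⟨i, ?_⟩
      rw [← h1, Int.natCast_natAbs, abs_of_nonneg h]
    · refine ⟨-i - 1, ?_⟩
      have h2 : k = -(k.natAbs : ℤ) := by
        rw [Int.natCast_natAbs, abs_of_nonpos h]
        ring
      rw [h2, h1]
      ring

theorem ch_fl3 {L : ℕ} {r : ℕ} (hr : r < L) (e : ℤ) (y : Y L) :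
    ch3 (2 ^ r * (2 * e + 1)) (fl33 r y) = -ch3 (2 ^ r * (2 * e + 1)) y := by
  unfold ch3
  rw [gpt_fl3 hr]
  have h1 : Complex.I * ((((2 ^ r * (2 * e + 1) : ℤ) : ℝ) * (gpt y +
      (if bit y r then -1 else 1) * (2 * Real.pi / 2 ^ (r + 1))) : ℝ) : ℂ) =
      Complex.I * ((((2 ^ r * (2 * e + 1) : ℤ) : ℝ) * gpt y : ℝ) : ℂ) +
        (if bit y r then -1 else 1) * (Complex.I * ((2 * (e : ℂ) + 1) * Real.pi)) := by
    push_cast
    have h2 : ((2 : ℂ) ^ r) ≠ 0 := pow_ne_zero _ (by norm_num)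
    cases bit y r
    · simp only [Bool.false_eq_true, if_false]
      push_cast
      rw [pow_succ]
      field_simp
    · simp only [if_true]
      push_cast
      rw [pow_succ]
      field_simp
  rw [h1, Complex.exp_add]
  cases bit y r
  · simp only [Bool.false_eq_true, if_false, one_mul]
    rw [exp_odd3]
    ring
  · simp only [if_true]
    rw [neg_one_mul, Complex.exp_neg, exp_odd3]
    norm_num

theorem ch_sum3 {L : ℕ} (k : ℤ) (hk : k ≠ 0) (hkL : |k| < 2 ^ L) : ∑ y : Y L, ch3 k y = 0 := by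
  obtain ⟨r, hr, e, rfl⟩ := exists_two_pow3 k hk hkL
  have h1 : ∑ y : Y L, ch3 (2 ^ r * (2 * e + 1)) y =
      ∑ y : Y L, ch3 (2 ^ r * (2 * e + 1)) (fl33 r y) := ((flE33 r hr).sum_comp _).symm
  simp_rw [ch_fl3 hr] at h1
  rw [Finset.sum_neg_distrib] at h1
  have h2 := self_eq_neg.1 h1
  exact h2

end Pool.Agent.SHD
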