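import Pool.Agent.Lib.MP_a7b2aa_an.SHD.Stmts4_25

/-!
SHD4 (helper25): lemmas on the dyadic couplings, shared by TOPQ and TOPX.
-/

set_option autoImplicit false

namespace Pool.Agent.SHD

open Finset Pool.Agent.SB3 Pool.Agent.SBT Pool.Agent.SBD

/-! ### Cauchy-Schwarz over the blocks -/

/-- `st` and `fi` are the first index and the end of the block of `α` -/
theorem coup25 {ι : Type} (A : Finset ι) (st fi : ι → ℕ) (w E : ι → ℝ) (X : ι → ℕ → ℝ)
    (L y0 : ℕ) (hy0 : y0 < L) (β1 Wt : ℝ) (hβ : 0 ≤ β1) (hWt : 0 ≤ Wt) (hw : ∀ α ∈ A, 0 ≤ w α)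
    (hE : ∀ α ∈ A, 0 ≤ E α) (hX : ∀ α ∈ A, ∀ y, ¬ (st α ≤ y ∧ y < fi α) → X α y = 0)
    (h2 : ∀ y < L, ∑ α ∈ A.filter (fun α => st α ≤ y ∧ y < fi α), w α ≤ Wt)
    (h4 : ∀ α ∈ A, ∑ y ∈ range L, X α y ^ 2 ≤ β1 * w α * E α) :
    ∑ y ∈ range (y0 + 1), (∑ α ∈ A, X α y) ^ 2 ≤
      ∑ y ∈ range (y0 + 1), β1 * Wt * ∑ α ∈ A.filter (fun α => st α = y), E α := by
  classical
  have h5 : ∀ y ∈ range (y0 + 1), (∑ α ∈ A, X α y) ^ 2 ≤
      Wt * ∑ α ∈ A.filter (fun α => st α ≤ y0), (w α)⁻¹ * X α y ^ 2 := by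
    intro y hy
    have hyL : y < L := by have := mem_range.1 hy; omega
    have hyy : y ≤ y0 := by have := mem_range.1 hy; omega
    have e1 : ∑ α ∈ A, X α y = ∑ α ∈ A.filter (fun α => st α ≤ y ∧ y < fi α), X α y := by
      rw [sum_filter]
      refine sum_congr rfl fun α hα => ?_
      split_ifs with h
      · rfl
      · exact hX α hα y h
    rw [e1]
    have e2 : ∀ α ∈ A.filter (fun α => st α ≤ y ∧ y < fi α),
        X α y = Real.sqrt (w α) * (Real.sqrt (w α)⁻¹ * X α y) := by
      intro α hα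
      have hα' := (mem_filter.1 hα).1
      by_cases h0 : w α = 0
      · have h6 : X α y = 0 := by
          have h7 := h4 α hα'
          rw [h0, mul_zero, zero_mul] at h7
          have h8 : X α y ^ 2 ≤ ∑ y ∈ range L, X α y ^ 2 :=
            single_le_sum (f := fun y => X α y ^ 2) (fun i _ => sq_nonneg _) (mem_range.2 hyL)
          have h9 : X α y ^ 2 ≤ 0 := h8.trans h7
          exact pow_eq_zero_iff (two_ne_zero) |>.1 (le_antisymm h9 (sq_nonneg _))
        rw [h6, mul_zero, mul_zero]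
      · have h6 : 0 < w α := lt_of_le_of_ne (hw α hα') (Ne.symm h0)
        rw [← mul_assoc, ← Real.sqrt_mul (hw α hα'), mul_inv_cancel₀ h0, Real.sqrt_one, one_mul]
    rw [sum_congr rfl e2]
    refine (sum_mul_sq_le_sq_mul_sq _ _ _).trans ?_
    have e3 : ∑ α ∈ A.filter (fun α => st α ≤ y ∧ y < fi α), Real.sqrt (w α) ^ 2 ≤ Wt := by
      refine le_trans (le_of_eq (sum_congr rfl fun α hα => ?_)) (h2 y hyL)
      exact Real.sq_sqrt (hw α (mem_filter.1 hα).1)
    have e4 : ∑ α ∈ A.filter (fun α => st α ≤ y ∧ y < fi α),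
        (Real.sqrt (w α)⁻¹ * X α y) ^ 2 ≤
        ∑ α ∈ A.filter (fun α => st α ≤ y0), (w α)⁻¹ * X α y ^ 2 := by
      have e5 : ∀ α ∈ A.filter (fun α => st α ≤ y ∧ y < fi α),
          (Real.sqrt (w α)⁻¹ * X α y) ^ 2 = (w α)⁻¹ * X α y ^ 2 := by
        intro α hα
        rw [mul_pow, Real.sq_sqrt (inv_nonneg.2 (hw α (mem_filter.1 hα).1))]
      rw [sum_congr rfl e5]
      refine sum_le_sum_of_subset_of_nonneg ?_ fun α hα _ => ?_
      · intro α hα
        rw [mem_filter] at hα ⊢
        exact ⟨hα.1, hα.2.1.trans hyy⟩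
      · exact mul_nonneg (inv_nonneg.2 (hw α (mem_filter.1 hα).1)) (sq_nonneg _)
    exact mul_le_mul e3 e4 (sum_nonneg fun α _ => sq_nonneg _) hWt
  refine (sum_le_sum h5).trans ?_
  rw [← mul_sum, sum_comm]
  have h6 : ∀ α ∈ A.filter (fun α => st α ≤ y0),
      ∑ y ∈ range (y0 + 1), (w α)⁻¹ * X α y ^ 2 ≤ β1 * E α := by
    intro α hα
    have hα' := (mem_filter.1 hα).1
    rw [← mul_sum]
    have h7 : ∑ y ∈ range (y0 + 1), X α y ^ 2 ≤ β1 * w α * E α := by
      refine le_trans ?_ (h4 α hα')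
      refine sum_le_sum_of_subset_of_nonneg ?_ fun _ _ _ => sq_nonneg _
      intro y hy
      have := mem_range.1 hy
      exact mem_range.2 (by omega)
    refine (mul_le_mul_of_nonneg_left h7 (inv_nonneg.2 (hw α hα'))).trans ?_
    by_cases h0 : w α = 0
    · rw [h0]
      simp only [inv_zero, zero_mul]
      exact mul_nonneg hβ (hE α hα')
    · refine le_of_eq ?_
      field_simp
  refine (mul_le_mul_of_nonneg_left (sum_le_sum h6) hWt).trans (le_of_eq ?_)
  rw [← mul_sum, ← mul_sum]
  have h8 : ∑ y ∈ range (y0 + 1), ∑ α ∈ A.filter (fun α => st α = y), E α =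
      ∑ α ∈ A.filter (fun α => st α ≤ y0), E α := by
    rw [← sum_fiberwise_of_maps_to (s := A.filter (fun α => st α ≤ y0)) (t := range (y0 + 1))
      (g := st) (f := E)]
    · refine sum_congr rfl fun y hy => sum_congr ?_ fun _ _ => rfl
      ext α
      simp only [mem_filter]
      have := mem_range.1 hy
      constructor
      · rintro ⟨h1, h2⟩
        exact ⟨⟨h1, by omega⟩, h2⟩
      · rintro ⟨⟨h1, _⟩, h2⟩
        exact ⟨h1, h2⟩
    · intro α hα
      exact mem_range.2 (by have := (mem_filter.1 hα).2; omega)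
  rw [h8]
  ring

/-! ### the weights -/

/-- the weight of a label: the side lengths of the right block without the direction `c` -/
noncomputable def wt25 {m : ℕ} (L : ℕ) (T : Finset (Fin (m + 1))) (c : Fin (m + 1))
    (κ α : Fin (m + 1) → ℕ) : ℝ := ∏ e ∈ T.erase c, ((hiR L T κ α e - loR T κ α e : ℕ) : ℝ)

theorem wt_nonneg25 {m : ℕ} (L : ℕ) (T : Finset (Fin (m + 1))) (c : Fin (m + 1))
    (κ α : Fin (m + 1) → ℕ) : 0 ≤ wt25 L T c κ α := prod_nonneg fun _ _ => Nat.cast_nonneg _

/-- disjoint intervals `[(a + 1) h, (a + 2) h)`, `a` even, cut at `L` -/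
theorem len_sum25 (L h : ℕ) :
    ∑ a ∈ (range L).filter (fun t => t % 2 = 0), (min L ((a + 2) * h) - (a + 1) * h) ≤ L := by
  classical
  have h1 : ∀ a ∈ (range L).filter (fun t => t % 2 = 0),
      min L ((a + 2) * h) - (a + 1) * h = (Finset.Ico ((a + 1) * h) (min L ((a + 2) * h))).card :=
    fun a _ => by rw [Nat.card_Ico]
  rw [sum_congr rfl h1, ← card_biUnion]
  · refine (card_le_card (t := range L) ?_).trans (card_range L).le
    intro y hy
    rw [mem_biUnion] at hy
    obtain ⟨a, _, hy⟩ := hy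
    rw [Finset.mem_Ico] at hy
    exact mem_range.2 (lt_of_lt_of_le hy.2 (min_le_left _ _))
  · intro a _ b _ hab
    rw [Function.onFun, Finset.disjoint_left]
    intro y hy1 hy2
    rw [Finset.mem_Ico] at hy1 hy2
    have h2 : y < (a + 2) * h := lt_of_lt_of_le hy1.2 (min_le_right _ _)
    have h3 : y < (b + 2) * h := lt_of_lt_of_le hy2.2 (min_le_right _ _)
    have h4 : y / h = a + 1 := Nat.div_eq_of_lt_le hy1.1 h2
    have h5 : y / h = b + 1 := Nat.div_eq_of_lt_le hy2.1 h3
    exact hab (by omega)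

theorem one_sum25 (L h y : ℕ) :
    ∑ a ∈ (range L).filter (fun t => t % 2 = 0),
      (if (a + 1) * h ≤ y ∧ y < min L ((a + 2) * h) then (1 : ℝ) else 0) ≤ 1 := by
  classical
  rw [← sum_filter, sum_const, nsmul_eq_mul, mul_one]
  have : (((range L).filter (fun t => t % 2 = 0)).filter
      (fun a => (a + 1) * h ≤ y ∧ y < min L ((a + 2) * h))).card ≤ 1 := by
    rw [card_le_one]
    intro a ha b hb
    rw [mem_filter] at ha hb
    have h2 : y < (a + 2) * h := lt_of_lt_of_le ha.2.2 (min_le_right _ _)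
    have h3 : y < (b + 2) * h := lt_of_lt_of_le hb.2.2 (min_le_right _ _)
    have h4 : y / h = a + 1 := Nat.div_eq_of_lt_le ha.2.1 h2
    have h5 : y / h = b + 1 := Nat.div_eq_of_lt_le hb.2.1 h3
    omega
  exact_mod_cast this

/-- the weights of the labels whose right block contains `y` in the direction `c` -/
theorem wsum25 {m L : ℕ} (T : Finset (Fin (m + 1))) (c : Fin (m + 1)) (hc : c ∈ T)
    (κ : Fin (m + 1) → ℕ) (y : ℕ) :
    ∑ α ∈ (Lb L T).filter (fun α => loR T κ α c ≤ y ∧ y < hiR L T κ α c), wt25 L T c κ α ≤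
      (L : ℝ) ^ (T.erase c).card := by
  classical
  set f : Fin (m + 1) → ℕ → ℝ := fun e a =>
    if e = c then (if (a + 1) * 2 ^ κ c ≤ y ∧ y < min L ((a + 2) * 2 ^ κ c) then (1 : ℝ) else 0)
    else if e ∈ T then ((min L ((a + 2) * 2 ^ κ e) - (a + 1) * 2 ^ κ e : ℕ) : ℝ) else 1 with hf
  have h1 : ∑ α ∈ (Lb L T).filter (fun α => loR T κ α c ≤ y ∧ y < hiR L T κ α c),
      wt25 L T c κ α = ∑ α ∈ Lb L T, ∏ e, f e (α e) := by
    rw [sum_filter]
    refine sum_congr rfl fun α _ => ?_
    have h2 : ∏ e, f e (α e) = f c (α c) * ∏ e ∈ univ.erase c, f e (α e) :=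
      (mul_prod_erase _ _ (mem_univ c)).symm
    have h3 : ∏ e ∈ univ.erase c, f e (α e) = wt25 L T c κ α := by
      unfold wt25
      symm
      refine prod_subset_one_on_sdiff (erase_subset_erase _ (subset_univ T)) ?_ ?_
      · intro e he
        rw [mem_sdiff, mem_erase, mem_erase] at he
        simp only [hf]
        rw [if_neg he.1.1, if_neg]
        intro heT
        exact he.2 ⟨he.1.1, heT⟩
      · intro e he
        rw [mem_erase] at he
        simp only [hf]
        rw [if_neg he.1, if_pos he.2]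
        unfold hiR loR
        rw [if_pos he.2, if_pos he.2]
    rw [h2, h3]
    have h4 : f c (α c) = if loR T κ α c ≤ y ∧ y < hiR L T κ α c then (1 : ℝ) else 0 := by
      simp only [hf, if_true]
      unfold hiR loR
      rw [if_pos hc, if_pos hc]
    rw [h4]
    split_ifs <;> simp
  rw [h1]
  unfold Lb
  rw [← Finset.prod_univ_sum]
  have h5 : ∀ e, (∑ a ∈ (if e ∈ T then (range L).filter (fun t => t % 2 = 0) else {0}), f e a) ≤
      if e ∈ T.erase c then (L : ℝ) else 1 := by
    intro e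
    by_cases hec : e = c
    · subst hec
      have hn : e ∉ T.erase e := by simp
      rw [if_pos hc, if_neg hn]
      simp only [hf, if_true]
      exact one_sum25 L _ y
    · by_cases heT : e ∈ T
      · rw [if_pos heT, if_pos (mem_erase.2 ⟨hec, heT⟩)]
        simp only [hf, if_neg hec, if_pos heT]
        rw [← Nat.cast_sum]
        exact_mod_cast len_sum25 L _
      · have hn : e ∉ T.erase c := by simp [heT]
        rw [if_neg heT, if_neg hn, sum_singleton]
        simp only [hf, if_neg hec, if_neg heT]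
        exact le_rfl
  have h6 : ∀ e, 0 ≤ ∑ a ∈ (if e ∈ T then (range L).filter (fun t => t % 2 = 0) else {0}),
      f e a := by
    intro e
    refine sum_nonneg fun a _ => ?_
    simp only [hf]
    split_ifs <;> positivity
  refine (prod_le_prod (fun e _ => h6 e) (fun e _ => h5 e)).trans (le_of_eq ?_)
  rw [prod_ite, prod_const, prod_const_one, mul_one]
  congr 2
  ext e
  simp

/-- the product of the side lengths -/
theorem blw25 {m L : ℕ} (T S : Finset (Fin (m + 1))) (c : Fin (m + 1)) (κ α : Fin (m + 1) → ℕ)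
    (hi' : Fin (m + 1) → ℕ) (hS : T.erase c ⊆ S) (hh : ∀ e, hi' e ≤ hiR L T κ α e) :
    bl S (loR T κ α) hi' ≤ (L : ℝ) ^ (S.card - (T.erase c).card) * wt25 L T c κ α := by
  unfold bl wt25
  rw [← prod_sdiff hS]
  refine mul_le_mul ?_ ?_ (prod_nonneg fun _ _ => Nat.cast_nonneg _) (by positivity)
  · refine (prod_le_prod (fun _ _ => Nat.cast_nonneg _) (g := fun _ => (L : ℝ)) fun e _ => ?_).trans
      (le_of_eq ?_)
    · have h1 : hiR L T κ α e ≤ L := by
        unfold hiR
        split_ifs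
        · exact min_le_left _ _
        · exact le_rfl
      have h2 := hh e
      have h3 : hi' e - loR T κ α e ≤ L := by omega
      exact_mod_cast h3
    · rw [prod_const, card_sdiff_of_subset hS]
  · refine prod_le_prod (fun _ _ => Nat.cast_nonneg _) fun e _ => ?_
    have h2 := hh e
    have h3 : hi' e - loR T κ α e ≤ hiR L T κ α e - loR T κ α e := by omega
    exact_mod_cast h3

/-! ### measurability -/

theorem Ms_cut25 {m L : ℕ} {lo hi : Fin (m + 1) → ℕ} {v : (Fin (m + 1) → ℕ) → Pt m L → ℝ}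
    {r : Fin (m + 1) → ℕ} {q : Fin (m + 1) → ℕ} (h : Ms q (v r)) : Ms q (cut lo hi v r) := by
  unfold cut
  by_cases hc : ∀ a, lo a ≤ r a ∧ r a < hi a
  · simpa only [if_pos hc] using h
  · simpa only [if_neg hc] using Ms.cst q (0 : ℝ)

theorem cut_zero25 {m L : ℕ} {lo hi : Fin (m + 1) → ℕ} {v : (Fin (m + 1) → ℕ) → Pt m L → ℝ}
    {r : Fin (m + 1) → ℕ} (a : Fin (m + 1)) (h : ¬ (lo a ≤ r a ∧ r a < hi a)) (ω : Pt m L) :
    cut lo hi v r ω = 0 := by
  unfold cut
  rw [if_neg]
  intro h'
  exact h (h' a)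

/-- sums over cells below `y` in the direction `c` -/
theorem Ms_Fh25 {m L : ℕ} {c : Fin (m + 1)} {y : ℕ} {ψ : (Fin (m + 1) → ℕ) → Pt m L → ℝ}
    (h1 : ∀ r, Ms r (ψ r)) (h2 : ∀ r ω, y ≤ r c → ψ r ω = 0) (U : Finset (Fin (m + 1)))
    (q : Fin (m + 1) → ℕ) : Ms (one L c y) (Fh U ψ q) := by
  unfold Fh
  refine Ms.sum _ fun r _ => ?_
  by_cases hr : r c < y
  · refine Ms.comp2 (F := fun x y => x * y) ?_ ((h1 r).one c y hr.le)
    unfold ps
    refine Ms.prod U fun e he => ?_
    by_cases hec : e = c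
    · subst hec
      exact Ms_sb (by simpa [one] using hr)
    · exact Ms_sb_one hec _ _
  · have h3 : (fun ω => ps U r ω * ψ r ω) = fun _ => (0 : ℝ) := by
      funext ω
      rw [h2 r ω (by omega), mul_zero]
    rw [h3]
    exact Ms.cst _ _

theorem Fh_abs25 {m L : ℕ} {ψ : (Fin (m + 1) → ℕ) → Pt m L → ℝ} {B : ℝ}
    (h : ∀ r ω, |ψ r ω| ≤ B) (U : Finset (Fin (m + 1))) (q : Fin (m + 1) → ℕ) (ω : Pt m L) :
    |Fh U ψ q ω| ≤ (L : ℝ) ^ U.card * B := by
  unfold Fh
  refine (abs_sum_le_sum_abs _ _).trans ?_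
  have h1 : ∀ r ∈ fr L U q, |ps U r ω * ψ r ω| ≤ B := by
    intro r _
    rw [abs_mul, ps_abs, one_mul]
    exact h r ω
  refine (sum_le_sum h1).trans (le_of_eq ?_)
  rw [sum_const, card_fr, nsmul_eq_mul]
  push_cast
  ring

theorem cut_abs25 {m L : ℕ} {lo hi : Fin (m + 1) → ℕ} {v : (Fin (m + 1) → ℕ) → Pt m L → ℝ} {B : ℝ}
    (hB : 0 ≤ B) (h : ∀ r ω, |v r ω| ≤ B) (r : Fin (m + 1) → ℕ) (ω : Pt m L) :
    |cut lo hi v r ω| ≤ B := by
  unfold cut
  split_ifs
  · exact h r ω
  · rw [abs_zero]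
    exact hB

/-- the energy, one string first -/
theorem en_eq25 {m L : ℕ} {U : Finset (Fin (m + 1))} {b : Fin (m + 1)} (hb : b ∈ Inn m)
    (hbU : b ∉ U) (j : ℕ) (ψ : (Fin (m + 1) → ℕ) → Pt m L → ℝ) (ω : Pt m L) :
    en U j ψ ω = ∑ q ∈ fr L (Inn m \ insert b U) (fun _ => j),
      ∑ t ∈ range L, Fh U ψ (Function.update q b t) ω ^ 2 := by
  unfold en
  have h1 : Inn m \ U = (Inn m \ insert b U) ∪ {b} := by
    ext e
    simp only [mem_sdiff, mem_insert, mem_union, mem_singleton, not_or]
    constructor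
    · rintro ⟨h1, h2⟩
      by_cases h : e = b
      · right
        exact h
      · left
        exact ⟨h1, h, h2⟩
    · rintro (⟨h1, _, h3⟩ | rfl)
      · exact ⟨h1, h3⟩
      · exact ⟨hb, hbU⟩
  rw [h1, sum_fr_union (by
    rw [Finset.disjoint_singleton_right]
    simp)]
  refine sum_congr rfl fun q _ => ?_
  have h2 : ({b} : Finset (Fin (m + 1))) = insert b ∅ := by simp
  rw [h2, sum_fr_insert (by simp)]
  refine sum_congr rfl fun t _ => ?_
  rw [fr_empty, sum_singleton]

/-- the sum over all cells of the row sum, one string separated -/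
theorem uu_eq25 {m L : ℕ} {b c : Fin (m + 1)} (hb0 : b ≠ 0) (hbc : b ≠ c)
    (v : (Fin (m + 1) → ℕ) → Pt m L → ℝ) {j : ℕ} (hj : j ≤ L) (t : ℕ) (ω : Pt m L) :
    uu b v j t ω = ∑ y ∈ range L, sb c y ω *
      ∑ r ∈ fr L ((univ.erase b).erase c)
          (Function.update (Function.update (fun _ => 0) c y) b t),
        ps ((univ.erase b).erase c) r ω * (if r 0 < j then v r ω else 0) := by
  have h1 : ∑ r ∈ fr L (univ.erase b) (fun _ => t),
      ps (univ.erase b) r ω * (if r 0 < j then v r ω else 0) = uu b v j t ω := by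
    have e1 : (univ.erase b : Finset (Fin (m + 1))) = insert 0 ((Inn m).erase b) := by
      ext e
      simp only [Inn, mem_erase, mem_univ, mem_insert, and_true]
      constructor
      · intro h
        by_cases h0 : e = 0
        · exact Or.inl h0
        · exact Or.inr ⟨h, h0⟩
      · rintro (rfl | ⟨h, _⟩)
        · exact Ne.symm hb0
        · exact h
    have e0 : (0 : Fin (m + 1)) ∉ (Inn m).erase b := by simp [Inn]
    rw [e1, sum_fr_insert e0]
    unfold uu
    have e2 : ∀ i ∈ range L, ∑ r ∈ fr L ((Inn m).erase b) (Function.update (fun _ => t) 0 i),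
        ps (insert 0 ((Inn m).erase b)) r ω * (if r 0 < j then v r ω else 0) =
        if i < j then sb 0 i ω * Bm b v i t ω else 0 := by
      intro i _
      have e3 : ∀ r ∈ fr L ((Inn m).erase b) (Function.update (fun _ => t) 0 i), r 0 = i := by
        intro r hr
        rw [mem_fr] at hr
        rw [hr.2 0 e0]
        simp
      by_cases hij : i < j
      · rw [if_pos hij]
        unfold Bm
        rw [mul_sum]
        have e4 : fr L ((Inn m).erase b) (Function.update (fun _ => t) 0 i) =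
            fr L ((Inn m).erase b) (Function.update (fun _ => i) b t) := by
          refine fr_congr fun a ha => ?_
          by_cases ha0 : a = 0
          · subst ha0
            simp [Function.update_of_ne (Ne.symm hb0)]
          · have hab : a = b := by
              by_contra hab
              exact ha (by simp [Inn, ha0, hab])
            subst hab
            simp [Function.update_of_ne ha0]
        rw [e4]
        refine sum_congr rfl fun r hr => ?_
        rw [← e4] at hr
        rw [ps_insert e0, e3 r hr, if_pos hij]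
        ring
      · rw [if_neg hij]
        refine sum_eq_zero fun r hr => ?_
        rw [e3 r hr, if_neg hij, mul_zero]
    rw [sum_congr rfl e2, ← sum_filter]
    refine sum_congr ?_ fun _ _ => rfl
    ext i
    simp only [mem_filter, mem_range]
    omega
  rw [← h1]
  have hcb : c ∈ univ.erase b := mem_erase.2 ⟨Ne.symm hbc, mem_univ _⟩
  have h2 : (univ.erase b : Finset (Fin (m + 1))) = insert c ((univ.erase b).erase c) :=
    (insert_erase hcb).symm
  conv_lhs => rw [h2]
  rw [sum_fr_insert (by simp)]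
  refine sum_congr rfl fun y _ => ?_
  rw [mul_sum]
  have h3 : fr L ((univ.erase b).erase c) (Function.update (fun _ => t) c y) =
      fr L ((univ.erase b).erase c) (Function.update (Function.update (fun _ => 0) c y) b t) := by
    refine fr_congr fun a ha => ?_
    by_cases hab : a = b
    · subst hab
      simp [Function.update_of_ne hbc]
    · have hac : a = c := by
        by_contra hac
        exact ha (by simp [hac, hab])
      subst hac
      simp [Function.update_of_ne hab]
  rw [h3]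
  refine sum_congr rfl fun r hr => ?_
  rw [mem_fr] at hr
  have h4 : r c = y := by
    rw [hr.2 c (by simp), Function.update_of_ne (Ne.symm hbc), Function.update_self]
  rw [ps_insert (by simp), h4]
  ring

end Pool.Agent.SHD
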