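import Pool.Agent.Lib.MP_a7b2aa_an.SHD.KerE74

/-!
SHD4, torus part (helper74): duality on the discrete torus.
-/

set_option autoImplicit false

namespace Pool.Agent.SHD

open Finset Pool.Agent.SB3 Pool.Agent.SBT Pool.Agent.SBD

namespace E74

lemma mem_blkD74 {d : ℕ} {l : Fin d → ℕ} {k : Fin d → ℤ} (h : k ∈ blkD l) (j : Fin d) :
    |k j| < (2 : ℤ) ^ (2 * l j) ∧ (2 : ℤ) ^ (2 * l j) / 2 ≤ |k j| := by
  unfold blkD at h
  rw [Fintype.mem_piFinset] at h
  have h1 := h j
  rw [mem_filter, mem_Ioo] at h1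
  exact ⟨abs_lt.2 h1.1, h1.2⟩

/-- the multiplier on the blocks -/
lemma mu_blk {m L : ℕ} {l l' : Fin (m + 1) → ℕ} (a : Fin (m + 1)) {w : ZMod (2 ^ L) → ℝ}
    (hw : Ker L (2 * l a) w) (hl : 1 ≤ l a) (hl' : 1 ≤ l' a) (hL : 2 * l' a + 3 ≤ L)
    (c : (Fin (m + 1) → ℤ) → ℂ) :
    Ko38 a w (PT (N := 2 ^ L) (blkD l') c) =
      if l' a = l a then PT (N := 2 ^ L) (blkD l') c else fun _ => 0 := by
  rw [Ko_PT_38]
  have e1 : (2 : ℤ) ^ (2 * l' a) / 2 = 2 ^ (2 * l' a - 1) := by
    have : (2 : ℤ) ^ (2 * l' a) = 2 * 2 ^ (2 * l' a - 1) := by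
      rw [← pw]
      congr 1
      omega
    rw [this]
    exact Int.mul_ediv_cancel_left _ (by norm_num)
  split_ifs with h
  · funext u
    unfold PT
    congr 1
    refine sum_congr rfl fun k hk => ?_
    have hb := mem_blkD74 hk a
    rw [e1] at hb
    beta_reduce
    rw [hw.one (k a) (by rw [← h]; exact hb.2) (by rw [← h]; exact hb.1), mul_one]
  · funext u
    unfold PT
    rw [sum_eq_zero]
    · simp
    · intro k hk
      have hb := mem_blkD74 hk a
      rw [e1] at hb
      have h0 : mu38 w (k a) = 0 := by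
        refine hw.zero (k a) ?_ ?_
        · rcases lt_or_gt_of_ne h with h1 | h1
          · left
            exact hb.1.trans_le (pow_le_pow_right₀ (by norm_num) (by omega))
          · right
            exact le_trans (pow_le_pow_right₀ (by norm_num) (by omega)) hb.2
        · exact hb.1.le.trans (pow_le_pow_right₀ (by norm_num) (by omega))
      beta_reduce
      rw [h0]
      simp

lemma sv_inv74 {m N : ℕ} (a : Fin (m + 1)) (g : ZMod N) (u : Tor (Fin (m + 1)) N) :
    sv a (-g) (sv a g u) = u := by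
  unfold sv
  funext i
  by_cases hi : i = a
  · subst hi
    simp
  · simp [Function.update_of_ne hi]

theorem dual {m L : ℕ} (l : Fin (m + 1) → ℕ) (w : Fin (m + 1) → ZMod (2 ^ L) → ℝ)
    (hl : ∀ a, 1 ≤ l a) (hw : ∀ a, Ker L (2 * l a) (w a))
    (σ : Tor (Fin (m + 1)) (2 ^ L) → ℝ) (hσ : ∀ u, |σ u| ≤ 1) (S : Finset (Fin (m + 1))) :
    ∃ T : Tor (Fin (m + 1)) (2 ^ L) → ℝ, (∀ u, |T u| ≤ 6 ^ S.card) ∧
      (∀ a ∈ S, ∀ u, IsZ (w a) (fun x => T (Function.update u a x))) ∧
      ∀ (A : Finset (Fin (m + 1) → ℕ)) (c : (Fin (m + 1) → ℤ) → ℂ),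
        (∀ l' ∈ A, ∀ a, 1 ≤ l' a ∧ 2 * l' a + 3 ≤ L) →
        ∑ u, T u * ∑ l' ∈ A, PT (N := 2 ^ L) (blkD l') c u =
          ∑ u, σ u * ∑ l' ∈ A.filter (fun l' => ∀ a ∈ S, l' a = l a),
            PT (N := 2 ^ L) (blkD l') c u := by
  classical
  induction S using Finset.induction_on with
  | empty =>
    refine ⟨σ, ?_, ?_, ?_⟩
    · simpa using hσ
    · simp
    · intro A c _
      simp
  | insert a S ha ih =>
    obtain ⟨T, h1, h2, h3⟩ := ih
    refine ⟨fun u => ∑ g, w a g * T (sv a (-g) u), ?_, ?_, ?_⟩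
    · intro u
      rw [card_insert_of_notMem ha, pow_succ]
      refine (abs_sum_le_sum_abs _ _).trans ?_
      calc ∑ g, |w a g * T (sv a (-g) u)| ≤ ∑ g, |w a g| * 6 ^ S.card := by
            refine sum_le_sum fun g _ => ?_
            rw [abs_mul]
            exact mul_le_mul_of_nonneg_left (h1 _) (abs_nonneg _)
        _ ≤ 6 ^ S.card * 6 := by
            rw [← sum_mul, mul_comm]
            exact mul_le_mul_of_nonneg_left (hw a).norm (by positivity)
    · intro b hb u
      by_cases hba : b = a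
      · subst hba
        refine ⟨fun z => T (Function.update u b z), fun x => ?_⟩
        refine sum_congr rfl fun g _ => ?_
        congr 2
        unfold sv
        rw [Function.update_self, Function.update_idem]
        congr 1
        ring
      · have hbS : b ∈ S := (mem_insert.1 hb).resolve_left hba
        have e : ∀ (g x : ZMod (2 ^ L)), sv a (-g) (Function.update u b x) =
            Function.update (sv a (-g) u) b x := by
          intro g x
          unfold sv
          rw [Function.update_of_ne (Ne.symm hba), Function.update_comm (Ne.symm hba)]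
        simp_rw [e]
        exact isZ_lin (w b) (w a) (fun g x => T (Function.update (sv a (-g) u) b x))
          fun g => h2 b hbS _
    · intro A c hA
      have e1 : ∑ u, (∑ g, w a g * T (sv a (-g) u)) * ∑ l' ∈ A, PT (N := 2 ^ L) (blkD l') c u =
          ∑ u, T u * Ko38 a (w a) (fun u => ∑ l' ∈ A, PT (N := 2 ^ L) (blkD l') c u) u := by
        simp_rw [sum_mul]
        unfold Ko38
        simp_rw [mul_sum]
        rw [sum_comm]
        conv_rhs => rw [sum_comm]
        refine sum_congr rfl fun g _ => ?_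
        rw [← sum_sv_38 a g (fun u => ∑ i ∈ A, w a g * T (sv a (-g) u) *
          PT (N := 2 ^ L) (blkD i) c u)]
        refine sum_congr rfl fun u _ => sum_congr rfl fun i _ => ?_
        rw [sv_inv74]
        ring
      have e2 : ∀ u, Ko38 a (w a) (fun u => ∑ l' ∈ A, PT (N := 2 ^ L) (blkD l') c u) u =
          ∑ l' ∈ A.filter (fun l' => l' a = l a), PT (N := 2 ^ L) (blkD l') c u := by
        intro u
        rw [Ko_sum_38, sum_filter]
        refine sum_congr rfl fun l' hl' => ?_
        rw [mu_blk a (hw a) (hl a) (hA l' hl' a).1 (hA l' hl' a).2]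
        split_ifs
        · rfl
        · rfl
      rw [e1]
      simp_rw [e2]
      rw [h3 (A.filter (fun l' => l' a = l a)) c
        (fun l' hl' => hA l' (mem_filter.1 hl').1), filter_filter]
      refine sum_congr rfl fun u _ => ?_
      congr 2
      ext l'
      simp only [mem_filter, mem_insert, forall_eq_or_imp]

end E74

end Pool.Agent.SHD
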