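import Pool.Agent.Lib.MP_a7b2aa_an.SHD.Stmts3_23

/-!
SHD3, module EXCH (helper18), part A: deterministic estimates for the exchange.
-/

set_option autoImplicit false

namespace Pool.Agent.SHD.Exch18

open Finset

/-! ### sequences -/

noncomputable def dG (j : ℕ) (Cm : ℕ → ℕ → ℝ) (r s : ℕ) : ℝ := ∑ i ∈ range j, Cm i r * Cm i s

noncomputable def dH (L : ℕ) (Cm : ℕ → ℕ → ℝ) (i i' : ℕ) : ℝ := ∑ r ∈ range L, Cm i r * Cm i' r

noncomputable def dGa (L : ℕ) (Cm : ℕ → ℕ → ℝ) (b : ℕ → ℝ) (i : ℕ) : ℝ :=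
  ∑ r ∈ range L, b r * Cm i r

noncomputable def dU (j : ℕ) (Cm : ℕ → ℕ → ℝ) (x : ℕ → ℝ) (r : ℕ) : ℝ :=
  ∑ i ∈ range j, x i * Cm i r

noncomputable def dBe (j : ℕ) (Cm : ℕ → ℕ → ℝ) (x b : ℕ → ℝ) (lam : ℝ) (r : ℕ) : ℝ :=
  lam * (dU j Cm x r - lam * ∑ s ∈ range r, dG j Cm r s * b s)

noncomputable def dTg (L j : ℕ) (Cm : ℕ → ℕ → ℝ) (b : ℕ → ℝ) (r : ℕ) : ℝ :=
  ∑ s ∈ Ico r L, dG j Cm r s * b s

noncomputable def dFr (j : ℕ) (Cm : ℕ → ℕ → ℝ) (x : ℕ → ℝ) (r : ℕ) : ℝ :=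
  ∑ s ∈ range (r + 1), dG j Cm r s * dU j Cm x s

noncomputable def dY (L : ℕ) (Cm : ℕ → ℕ → ℝ) (x b : ℕ → ℝ) (lam : ℝ) (i : ℕ) : ℝ :=
  x i - lam * dGa L Cm b i

section op

variable {L j : ℕ} {Cm : ℕ → ℕ → ℝ} {β : ℝ}

theorem transp (hβ : 0 ≤ β)
    (hN : ∀ w : ℕ → ℝ, ∑ i ∈ range j, (∑ t ∈ range L, Cm i t * w t) ^ 2 ≤
      β * ∑ t ∈ range L, w t ^ 2) (z : ℕ → ℝ) :
    ∑ t ∈ range L, (∑ i ∈ range j, Cm i t * z i) ^ 2 ≤ β * ∑ i ∈ range j, z i ^ 2 := by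
  obtain ⟨w, hw⟩ : ∃ w : ℕ → ℝ, ∀ t, w t = ∑ i ∈ range j, Cm i t * z i := ⟨_, fun _ => rfl⟩
  simp_rw [← hw]
  set W : ℝ := ∑ t ∈ range L, w t ^ 2 with hW
  have hW0 : 0 ≤ W := sum_nonneg fun t _ => sq_nonneg _
  set Z : ℝ := ∑ i ∈ range j, z i ^ 2 with hZ
  have hZ0 : 0 ≤ Z := sum_nonneg fun t _ => sq_nonneg _
  have e1 : W = ∑ i ∈ range j, z i * ∑ t ∈ range L, Cm i t * w t := by
    rw [hW]
    have h1 : ∀ t ∈ range L, w t ^ 2 = ∑ i ∈ range j, z i * (Cm i t * w t) := by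
      intro t _
      have h2 : w t ^ 2 = (∑ i ∈ range j, Cm i t * z i) * w t := by
        rw [← hw, sq]
      rw [h2, sum_mul]
      refine sum_congr rfl fun i _ => by ring
    rw [sum_congr rfl h1, sum_comm]
    refine sum_congr rfl fun i _ => by rw [mul_sum]
  have e2 : W ^ 2 ≤ Z * (β * W) := by
    calc W ^ 2 = (∑ i ∈ range j, z i * ∑ t ∈ range L, Cm i t * w t) ^ 2 := by rw [← e1]
      _ ≤ (∑ i ∈ range j, z i ^ 2) * ∑ i ∈ range j, (∑ t ∈ range L, Cm i t * w t) ^ 2 :=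
          sum_mul_sq_le_sq_mul_sq _ _ _
      _ ≤ Z * (β * W) := mul_le_mul_of_nonneg_left (hN w) hZ0
  rcases hW0.eq_or_lt with h | h
  · rw [← h]
    positivity
  · nlinarith

theorem opG (hβ : 0 ≤ β)
    (hN : ∀ w : ℕ → ℝ, ∑ i ∈ range j, (∑ t ∈ range L, Cm i t * w t) ^ 2 ≤
      β * ∑ t ∈ range L, w t ^ 2) (w : ℕ → ℝ) :
    ∑ r ∈ range L, (∑ s ∈ range L, dG j Cm r s * w s) ^ 2 ≤
      β ^ 2 * ∑ s ∈ range L, w s ^ 2 := by
  have e : ∀ r, (∑ s ∈ range L, dG j Cm r s * w s) =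
      ∑ i ∈ range j, Cm i r * ∑ s ∈ range L, Cm i s * w s := by
    intro r
    unfold dG
    have h1 : ∀ s ∈ range L, (∑ i ∈ range j, Cm i r * Cm i s) * w s =
        ∑ i ∈ range j, Cm i r * (Cm i s * w s) := fun s _ => by
      rw [sum_mul]
      exact sum_congr rfl fun i _ => by ring
    rw [sum_congr rfl h1, sum_comm]
    exact sum_congr rfl fun i _ => by rw [mul_sum]
  simp_rw [e]
  calc ∑ r ∈ range L, (∑ i ∈ range j, Cm i r * ∑ s ∈ range L, Cm i s * w s) ^ 2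
      ≤ β * ∑ i ∈ range j, (∑ s ∈ range L, Cm i s * w s) ^ 2 :=
        transp hβ hN (fun i => ∑ s ∈ range L, Cm i s * w s)
    _ ≤ β * (β * ∑ s ∈ range L, w s ^ 2) := mul_le_mul_of_nonneg_left (hN w) hβ
    _ = β ^ 2 * ∑ s ∈ range L, w s ^ 2 := by ring

theorem opH (hβ : 0 ≤ β)
    (hN : ∀ w : ℕ → ℝ, ∑ i ∈ range j, (∑ t ∈ range L, Cm i t * w t) ^ 2 ≤
      β * ∑ t ∈ range L, w t ^ 2) (z : ℕ → ℝ) :
    ∑ i ∈ range j, (∑ i' ∈ range j, dH L Cm i i' * z i') ^ 2 ≤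
      β ^ 2 * ∑ i ∈ range j, z i ^ 2 := by
  have e : ∀ i, (∑ i' ∈ range j, dH L Cm i i' * z i') =
      ∑ r ∈ range L, Cm i r * ∑ i' ∈ range j, Cm i' r * z i' := by
    intro i
    unfold dH
    have h1 : ∀ i' ∈ range j, (∑ r ∈ range L, Cm i r * Cm i' r) * z i' =
        ∑ r ∈ range L, Cm i r * (Cm i' r * z i') := fun i' _ => by
      rw [sum_mul]
      exact sum_congr rfl fun r _ => by ring
    rw [sum_congr rfl h1, sum_comm]
    exact sum_congr rfl fun r _ => by rw [mul_sum]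
  simp_rw [e]
  calc ∑ i ∈ range j, (∑ r ∈ range L, Cm i r * ∑ i' ∈ range j, Cm i' r * z i') ^ 2
      ≤ β * ∑ r ∈ range L, (∑ i' ∈ range j, Cm i' r * z i') ^ 2 :=
        hN (fun r => ∑ i' ∈ range j, Cm i' r * z i')
    _ ≤ β * (β * ∑ i ∈ range j, z i ^ 2) := mul_le_mul_of_nonneg_left (transp hβ hN z) hβ
    _ = β ^ 2 * ∑ i ∈ range j, z i ^ 2 := by ring

theorem diagG (hN : ∀ w : ℕ → ℝ, ∑ i ∈ range j, (∑ t ∈ range L, Cm i t * w t) ^ 2 ≤
      β * ∑ t ∈ range L, w t ^ 2) {r : ℕ} (hr : r < L) :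
    ∑ i ∈ range j, Cm i r ^ 2 ≤ β := by
  have h := hN (fun t => if t = r then 1 else 0)
  have hr' : r ∈ range L := mem_range.2 hr
  simpa [Finset.sum_ite_eq', hr'] using h

theorem diagH (hβ : 0 ≤ β) (hN : ∀ w : ℕ → ℝ, ∑ i ∈ range j, (∑ t ∈ range L, Cm i t * w t) ^ 2 ≤
      β * ∑ t ∈ range L, w t ^ 2) {i : ℕ} (hi : i < j) :
    ∑ r ∈ range L, Cm i r ^ 2 ≤ β := by
  have h := transp hβ hN (fun t => if t = i then 1 else 0)
  have hi' : i ∈ range j := mem_range.2 hi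
  simpa [Finset.sum_ite_eq', hi'] using h

end op

/-- the data at a point -/
structure Dt (L j : ℕ) (Cm : ℕ → ℕ → ℝ) (x b : ℕ → ℝ) (lam β κ t Λ lg : ℝ) : Prop where
  hL : (1 : ℝ) ≤ L
  hj : j ≤ L
  x2 : ∀ i, x i ^ 2 = 1
  b2 : ∀ r, b r ^ 2 = 1
  lam0 : 0 ≤ lam
  β0 : 0 ≤ β
  κ1 : 1 ≤ κ
  t0 : 0 ≤ t
  tL : t * L = κ
  μt : lam ^ 2 * β ≤ t
  Λ1 : 1 ≤ Λ
  lgd : lg = (Nat.log 2 L : ℝ) + 1
  lgΛ : lg ^ 2 ≤ Λ
  e : Λ ^ 2 * κ * t ≤ 1 / 10 ^ 4
  nb : ∀ w : ℕ → ℝ, ∑ i ∈ range j, (∑ t ∈ range L, Cm i t * w t) ^ 2 ≤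
      β * ∑ t ∈ range L, w t ^ 2
  gam : ∀ i < j, dGa L Cm b i ^ 2 ≤ β

namespace Dt

variable {L j : ℕ} {Cm : ℕ → ℕ → ℝ} {x b : ℕ → ℝ} {lam β κ t Λ lg : ℝ}

theorem lg1 (D : Dt L j Cm x b lam β κ t Λ lg) : 1 ≤ lg := by
  rw [D.lgd]
  have : (0 : ℝ) ≤ (Nat.log 2 L : ℝ) := by positivity
  linarith

theorem t1 (D : Dt L j Cm x b lam β κ t Λ lg) : t ≤ 1 / 10 ^ 4 := by
  have h1 : 1 ≤ Λ ^ 2 * κ := by
    have := D.Λ1
    have := D.κ1
    nlinarith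
  have h2 := D.e
  have h3 := D.t0
  nlinarith

theorem μ0 (D : Dt L j Cm x b lam β κ t Λ lg) : 0 ≤ lam ^ 2 * β :=
  mul_nonneg (sq_nonneg _) D.β0

theorem th2 (D : Dt L j Cm x b lam β κ t Λ lg) {i : ℕ} (hi : i < j) :
    (lam * dGa L Cm b i) ^ 2 ≤ t := by
  rw [mul_pow]
  exact (mul_le_mul_of_nonneg_left (D.gam i hi) (sq_nonneg _)).trans D.μt

theorem jt (D : Dt L j Cm x b lam β κ t Λ lg) : (j : ℝ) * t ≤ κ := by
  rw [← D.tL, mul_comm]
  have : (j : ℝ) ≤ L := by exact_mod_cast D.hj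
  exact mul_le_mul_of_nonneg_left this D.t0

theorem sth (D : Dt L j Cm x b lam β κ t Λ lg) :
    ∑ i ∈ range j, (lam * dGa L Cm b i) ^ 2 ≤ κ := by
  calc ∑ i ∈ range j, (lam * dGa L Cm b i) ^ 2 ≤ ∑ _i ∈ range j, t :=
        sum_le_sum fun i hi => D.th2 (mem_range.1 hi)
    _ = (j : ℝ) * t := by rw [sum_const, card_range, nsmul_eq_mul]
    _ ≤ κ := D.jt

theorem y2 (D : Dt L j Cm x b lam β κ t Λ lg) {i : ℕ} (hi : i < j) :
    dY L Cm x b lam i ^ 2 ≤ 4 := by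
  unfold dY
  have h1 := D.th2 hi
  have h2 := D.x2 i
  have h3 := D.t1
  nlinarith [sq_nonneg (x i + lam * dGa L Cm b i)]

theorem sy (D : Dt L j Cm x b lam β κ t Λ lg) :
    ∑ i ∈ range j, dY L Cm x b lam i ^ 2 ≤ 4 * L := by
  calc ∑ i ∈ range j, dY L Cm x b lam i ^ 2 ≤ ∑ _i ∈ range j, (4 : ℝ) :=
        sum_le_sum fun i hi => D.y2 (mem_range.1 hi)
    _ = (j : ℝ) * 4 := by rw [sum_const, card_range, nsmul_eq_mul]
    _ ≤ 4 * L := by
        have : (j : ℝ) ≤ L := by exact_mod_cast D.hj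
        linarith

theorem Hii (D : Dt L j Cm x b lam β κ t Λ lg) {i : ℕ} (hi : i < j) :
    0 ≤ dH L Cm i i ∧ dH L Cm i i ≤ β := by
  have e1 : dH L Cm i i = ∑ r ∈ range L, Cm i r ^ 2 :=
    sum_congr rfl fun r _ => by ring
  rw [e1]
  exact ⟨sum_nonneg fun r _ => sq_nonneg _, diagH D.β0 D.nb hi⟩

theorem zE1 (D : Dt L j Cm x b lam β κ t Λ lg) :
    ∑ i ∈ range j, (lam * dGa L Cm b i * dH L Cm i i) ^ 2 ≤ β ^ 2 * κ := by
  calc ∑ i ∈ range j, (lam * dGa L Cm b i * dH L Cm i i) ^ 2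
      ≤ ∑ i ∈ range j, β ^ 2 * (lam * dGa L Cm b i) ^ 2 := by
        refine sum_le_sum fun i hi => ?_
        obtain ⟨h1, h2⟩ := D.Hii (mem_range.1 hi)
        rw [mul_pow, mul_comm]
        exact mul_le_mul_of_nonneg_right (pow_le_pow_left₀ h1 h2 2) (sq_nonneg _)
    _ = β ^ 2 * ∑ i ∈ range j, (lam * dGa L Cm b i) ^ 2 := by rw [mul_sum]
    _ ≤ β ^ 2 * κ := mul_le_mul_of_nonneg_left D.sth (sq_nonneg _)

theorem zE3 (D : Dt L j Cm x b lam β κ t Λ lg) :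
    ∑ i ∈ range j, ((lam * dGa L Cm b i) ^ 3) ^ 2 ≤ t ^ 2 * κ := by
  calc ∑ i ∈ range j, ((lam * dGa L Cm b i) ^ 3) ^ 2
      ≤ ∑ i ∈ range j, t ^ 2 * (lam * dGa L Cm b i) ^ 2 := by
        refine sum_le_sum fun i hi => ?_
        have h1 := D.th2 (mem_range.1 hi)
        have e1 : ((lam * dGa L Cm b i) ^ 3) ^ 2 =
            ((lam * dGa L Cm b i) ^ 2) ^ 2 * (lam * dGa L Cm b i) ^ 2 := by ring
        rw [e1]
        exact mul_le_mul_of_nonneg_right (pow_le_pow_left₀ (sq_nonneg _) h1 2) (sq_nonneg _)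
    _ = t ^ 2 * ∑ i ∈ range j, (lam * dGa L Cm b i) ^ 2 := by rw [mul_sum]
    _ ≤ t ^ 2 * κ := mul_le_mul_of_nonneg_left D.sth (sq_nonneg _)

theorem lgj (D : Dt L j Cm x b lam β κ t Λ lg) : ((Nat.log 2 j : ℝ) + 1) ^ 2 ≤ lg ^ 2 := by
  rw [D.lgd]
  have h1 : (Nat.log 2 j : ℝ) ≤ Nat.log 2 L := by exact_mod_cast Nat.log_mono_right D.hj
  have h2 : (0 : ℝ) ≤ (Nat.log 2 j : ℝ) := by positivity
  exact pow_le_pow_left₀ (by linarith) (by linarith) 2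

theorem zE2 (D : Dt L j Cm x b lam β κ t Λ lg) (hT : StTri) :
    ∑ i ∈ range j, (∑ i' ∈ range i, dH L Cm i i' * dY L Cm x b lam i') ^ 2 ≤
      4 * lg ^ 2 * β ^ 2 * L := by
  have h1 := hT j (dH L Cm) (β ^ 2) (sq_nonneg _) (fun u => opH D.β0 D.nb u) (dY L Cm x b lam)
  refine h1.trans ?_
  calc ((Nat.log 2 j : ℝ) + 1) ^ 2 * β ^ 2 * ∑ y ∈ range j, dY L Cm x b lam y ^ 2
      ≤ lg ^ 2 * β ^ 2 * (4 * L) :=
        mul_le_mul (mul_le_mul_of_nonneg_right D.lgj (sq_nonneg _)) D.sy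
          (sum_nonneg fun i _ => sq_nonneg _) (by positivity)
    _ = 4 * lg ^ 2 * β ^ 2 * L := by ring

theorem sU (D : Dt L j Cm x b lam β κ t Λ lg) :
    ∑ r ∈ range L, dU j Cm x r ^ 2 ≤ β * L := by
  have h1 := transp D.β0 D.nb x
  have e1 : ∀ r, ∑ i ∈ range j, Cm i r * x i = dU j Cm x r := fun r =>
    sum_congr rfl fun i _ => by ring
  simp_rw [e1, D.x2] at h1
  refine h1.trans (mul_le_mul_of_nonneg_left ?_ D.β0)
  rw [sum_const, card_range, nsmul_eq_mul, mul_one]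
  exact_mod_cast D.hj

theorem triG (D : Dt L j Cm x b lam β κ t Λ lg) (hT : StTri) (w : ℕ → ℝ) :
    ∑ r ∈ range L, (∑ s ∈ range r, dG j Cm r s * w s) ^ 2 ≤
      lg ^ 2 * β ^ 2 * ∑ s ∈ range L, w s ^ 2 := by
  rw [D.lgd]
  exact hT L (dG j Cm) (β ^ 2) (sq_nonneg _) (fun u => opG D.β0 D.nb u) w

theorem Grr (D : Dt L j Cm x b lam β κ t Λ lg) {r : ℕ} (hr : r < L) :
    0 ≤ dG j Cm r r ∧ dG j Cm r r ≤ β := by
  have e1 : dG j Cm r r = ∑ i ∈ range j, Cm i r ^ 2 :=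
    sum_congr rfl fun r _ => by ring
  rw [e1]
  exact ⟨sum_nonneg fun r _ => sq_nonneg _, diagG D.nb hr⟩

theorem zF1 (D : Dt L j Cm x b lam β κ t Λ lg) (hT : StTri) :
    ∑ r ∈ range L, dFr j Cm x r ^ 2 ≤ 4 * lg ^ 2 * β ^ 3 * L := by
  have h0 := D.lg1
  have hβ := D.β0
  have h1 := D.triG hT (dU j Cm x)
  have h2 : ∑ r ∈ range L, (dG j Cm r r * dU j Cm x r) ^ 2 ≤
      β ^ 2 * ∑ r ∈ range L, dU j Cm x r ^ 2 := by
    rw [mul_sum]
    refine sum_le_sum fun r hr => ?_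
    obtain ⟨h3, h4⟩ := D.Grr (mem_range.1 hr)
    rw [mul_pow]
    exact mul_le_mul_of_nonneg_right (pow_le_pow_left₀ h3 h4 2) (sq_nonneg _)
  have h3 : ∑ r ∈ range L, dFr j Cm x r ^ 2 ≤
      2 * ∑ r ∈ range L, (∑ s ∈ range r, dG j Cm r s * dU j Cm x s) ^ 2 +
      2 * ∑ r ∈ range L, (dG j Cm r r * dU j Cm x r) ^ 2 := by
    rw [mul_sum, mul_sum, ← sum_add_distrib]
    refine sum_le_sum fun r _ => ?_
    unfold dFr
    rw [sum_range_succ]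
    nlinarith [sq_nonneg ((∑ s ∈ range r, dG j Cm r s * dU j Cm x s) -
      dG j Cm r r * dU j Cm x r)]
  have h4 := D.sU
  have hU0 : 0 ≤ ∑ r ∈ range L, dU j Cm x r ^ 2 := sum_nonneg fun i _ => sq_nonneg _
  have h5 : β ^ 2 * ∑ r ∈ range L, dU j Cm x r ^ 2 ≤ β ^ 2 * (β * L) :=
    mul_le_mul_of_nonneg_left h4 (sq_nonneg _)
  have h6 : lg ^ 2 * β ^ 2 * ∑ r ∈ range L, dU j Cm x r ^ 2 ≤ lg ^ 2 * β ^ 2 * (β * L) :=
    mul_le_mul_of_nonneg_left h4 (by positivity)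
  have h7 : β ^ 2 * (β * L) ≤ lg ^ 2 * (β ^ 2 * (β * L)) :=
    le_mul_of_one_le_left (by positivity) (one_le_pow₀ h0)
  nlinarith

theorem tgeq (D : Dt L j Cm x b lam β κ t Λ lg) {r : ℕ} (hr : r < L) :
    dTg L j Cm b r = ∑ s ∈ range L, dG j Cm r s * b s - ∑ s ∈ range r, dG j Cm r s * b s := by
  unfold dTg
  rw [Finset.sum_Ico_eq_sub _ hr.le]

theorem sb2 (D : Dt L j Cm x b lam β κ t Λ lg) : ∑ s ∈ range L, b s ^ 2 = L := by
  simp_rw [D.b2]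
  rw [sum_const, card_range, nsmul_eq_mul, mul_one]

theorem sGb (D : Dt L j Cm x b lam β κ t Λ lg) :
    ∑ r ∈ range L, (∑ s ∈ range L, dG j Cm r s * b s) ^ 2 ≤ β ^ 2 * L := by
  have h := opG D.β0 D.nb b
  rwa [D.sb2] at h

theorem sTg (D : Dt L j Cm x b lam β κ t Λ lg) (hT : StTri) :
    ∑ r ∈ range L, dTg L j Cm b r ^ 2 ≤ 4 * lg ^ 2 * β ^ 2 * L := by
  have h0 := D.lg1
  have h1 := D.triG hT b
  rw [D.sb2] at h1
  have h2 := D.sGb
  have h3 : ∑ r ∈ range L, dTg L j Cm b r ^ 2 ≤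
      2 * ∑ r ∈ range L, (∑ s ∈ range L, dG j Cm r s * b s) ^ 2 +
      2 * ∑ r ∈ range L, (∑ s ∈ range r, dG j Cm r s * b s) ^ 2 := by
    rw [mul_sum, mul_sum, ← sum_add_distrib]
    refine sum_le_sum fun r hr => ?_
    rw [D.tgeq (mem_range.1 hr)]
    nlinarith [sq_nonneg ((∑ s ∈ range L, dG j Cm r s * b s) +
      ∑ s ∈ range r, dG j Cm r s * b s)]
  have h7 : β ^ 2 * L ≤ lg ^ 2 * (β ^ 2 * L) :=
    le_mul_of_one_le_left (by positivity) (one_le_pow₀ h0)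
  nlinarith


/-- the two parts of `be` -/
noncomputable def b1 (L j : ℕ) (Cm : ℕ → ℕ → ℝ) (x b : ℕ → ℝ) (lam : ℝ) (r : ℕ) : ℝ :=
  lam * ∑ i ∈ range j, Cm i r * dY L Cm x b lam i

noncomputable def dl (L j : ℕ) (Cm : ℕ → ℕ → ℝ) (b : ℕ → ℝ) (lam : ℝ) (r : ℕ) : ℝ :=
  lam ^ 2 * dTg L j Cm b r

theorem ex1 (D : Dt L j Cm x b lam β κ t Λ lg) (hE : StExalg) :
    ∑ i ∈ range j, (x i * (lam * dGa L Cm b i) - (lam * dGa L Cm b i) ^ 2 / 2) =
      ∑ r ∈ range L, b r * dBe j Cm x b lam r - lam ^ 2 / 2 * ∑ r ∈ range L, dG j Cm r r :=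
  (hE L j Cm x b lam (dGa L Cm b) (dU j Cm x) (dBe j Cm x b lam) (dY L Cm x b lam) (dG j Cm)
    (dH L Cm) D.x2 D.b2 (fun _ => rfl) (fun _ => rfl) (fun _ _ => rfl) (fun _ _ => rfl)
    (fun _ => rfl) (fun _ => rfl)).1

theorem ex2 (D : Dt L j Cm x b lam β κ t Λ lg) (hE : StExalg) {r : ℕ} (hr : r < L) :
    dBe j Cm x b lam r = lam * ∑ i ∈ range j, Cm i r * dY L Cm x b lam i +
      lam ^ 2 * ∑ s ∈ Finset.Ico r L, dG j Cm r s * b s :=
  (hE L j Cm x b lam (dGa L Cm b) (dU j Cm x) (dBe j Cm x b lam) (dY L Cm x b lam) (dG j Cm)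
    (dH L Cm) D.x2 D.b2 (fun _ => rfl) (fun _ => rfl) (fun _ _ => rfl) (fun _ _ => rfl)
    (fun _ => rfl) (fun _ => rfl)).2.1 r hr

theorem ex3 (D : Dt L j Cm x b lam β κ t Λ lg) (hE : StExalg) :
    ∑ r ∈ range L, dBe j Cm x b lam r ^ 2 - lam ^ 2 * ∑ r ∈ range L, dG j Cm r r =
      lam ^ 2 * (∑ i ∈ range j, (dY L Cm x b lam i ^ 2 - 1) * dH L Cm i i +
        2 * ∑ i ∈ range j, dY L Cm x b lam i * ∑ i' ∈ range i, dH L Cm i i' *
          dY L Cm x b lam i') +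
      2 * lam ^ 3 * (∑ r ∈ range L, b r * dFr j Cm x r -
        lam * ∑ r ∈ range L, (∑ s ∈ range L, dG j Cm r s * b s) * dTg L j Cm b r) +
      lam ^ 4 * ∑ r ∈ range L, dTg L j Cm b r ^ 2 :=
  (hE L j Cm x b lam (dGa L Cm b) (dU j Cm x) (dBe j Cm x b lam) (dY L Cm x b lam) (dG j Cm)
    (dH L Cm) D.x2 D.b2 (fun _ => rfl) (fun _ => rfl) (fun _ _ => rfl) (fun _ _ => rfl)
    (fun _ => rfl) (fun _ => rfl)).2.2

theorem split (D : Dt L j Cm x b lam β κ t Λ lg) (hE : StExalg) {r : ℕ} (hr : r < L) :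
    dBe j Cm x b lam r = b1 L j Cm x b lam r + dl L j Cm b lam r :=
  D.ex2 hE hr

theorem s1 (D : Dt L j Cm x b lam β κ t Λ lg) :
    ∑ r ∈ range L, b1 L j Cm x b lam r ^ 2 ≤ 4 * κ := by
  unfold b1
  simp_rw [mul_pow]
  rw [← mul_sum]
  have h1 := transp D.β0 D.nb (dY L Cm x b lam)
  have h2 := D.sy
  have h3 := D.μt
  have hβ := D.β0
  have hL := D.hL
  calc lam ^ 2 * ∑ r ∈ range L, (∑ i ∈ range j, Cm i r * dY L Cm x b lam i) ^ 2
      ≤ lam ^ 2 * (β * (4 * L)) :=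
        mul_le_mul_of_nonneg_left (h1.trans (mul_le_mul_of_nonneg_left h2 hβ)) (sq_nonneg _)
    _ = 4 * ((lam ^ 2 * β) * L) := by ring
    _ ≤ 4 * (t * L) := by
        have := mul_le_mul_of_nonneg_right h3 (zero_le_one.trans hL)
        linarith
    _ = 4 * κ := by rw [D.tL]

theorem sd (D : Dt L j Cm x b lam β κ t Λ lg) (hT : StTri) :
    ∑ r ∈ range L, dl L j Cm b lam r ^ 2 ≤ 4 * Λ * κ * t := by
  unfold dl
  simp_rw [mul_pow]
  rw [← mul_sum]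
  have h1 := D.sTg hT
  have hβ := D.β0
  have hL := D.hL
  have h0 := D.t0
  have h3 := D.μt
  have h4 := D.lgΛ
  have h5 := D.μ0
  calc (lam ^ 2) ^ 2 * ∑ r ∈ range L, dTg L j Cm b r ^ 2
      ≤ (lam ^ 2) ^ 2 * (4 * lg ^ 2 * β ^ 2 * L) :=
        mul_le_mul_of_nonneg_left h1 (by positivity)
    _ = 4 * (lg ^ 2 * ((lam ^ 2 * β) ^ 2 * L)) := by ring
    _ ≤ 4 * (Λ * (t ^ 2 * L)) := by
        have h6 : (lam ^ 2 * β) ^ 2 * L ≤ t ^ 2 * L :=
          mul_le_mul_of_nonneg_right (pow_le_pow_left₀ h5 h3 2) (zero_le_one.trans hL)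
        have h7 := mul_le_mul h4 h6 (by positivity) (zero_le_one.trans D.Λ1)
        linarith
    _ = 4 * Λ * (t * L) * t := by ring
    _ = 4 * Λ * κ * t := by rw [D.tL]

theorem small (D : Dt L j Cm x b lam β κ t Λ lg) :
    Λ * κ * t ≤ 1 / 10 ^ 4 ∧ Λ * t ≤ 1 / 10 ^ 4 ∧ κ * t ≤ 1 / 10 ^ 4 ∧
      0 ≤ Λ * κ * t ∧ 0 ≤ Λ * t ∧ 0 ≤ κ * t := by
  have hΛ := D.Λ1
  have hκ := D.κ1
  have ht := D.t0
  have he := D.e
  have h1 : 0 ≤ Λ * κ * t := by positivity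
  have h2 : 0 ≤ Λ * t := by positivity
  have h3 : 0 ≤ κ * t := by positivity
  have h4 : Λ * κ * t ≤ Λ ^ 2 * κ * t := by nlinarith
  have h5 : Λ * t ≤ Λ * κ * t := by nlinarith
  have h6 : κ * t ≤ Λ * κ * t := by nlinarith
  exact ⟨by linarith, by linarith, by linarith, h1, h2, h3⟩

theorem sbe (D : Dt L j Cm x b lam β κ t Λ lg) (hE : StExalg) (hT : StTri) :
    ∑ r ∈ range L, dBe j Cm x b lam r ^ 2 ≤ 16 * κ := by
  have h1 := D.s1
  have h2 := D.sd hT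
  have h3 : ∑ r ∈ range L, dBe j Cm x b lam r ^ 2 ≤
      2 * ∑ r ∈ range L, b1 L j Cm x b lam r ^ 2 + 2 * ∑ r ∈ range L, dl L j Cm b lam r ^ 2 := by
    rw [mul_sum, mul_sum, ← sum_add_distrib]
    refine sum_le_sum fun r hr => ?_
    rw [D.split hE (mem_range.1 hr)]
    nlinarith [sq_nonneg (b1 L j Cm x b lam r - dl L j Cm b lam r)]
  have h4 := D.small
  have h5 := D.κ1
  nlinarith [h4.1]

theorem dl2 (D : Dt L j Cm x b lam β κ t Λ lg) (hT : StTri) {r : ℕ} (hr : r < L) :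
    dl L j Cm b lam r ^ 2 ≤ 4 * Λ * κ * t :=
  (single_le_sum (f := fun r => dl L j Cm b lam r ^ 2) (fun i _ => sq_nonneg _)
    (mem_range.2 hr)).trans (D.sd hT)

/-- the fourth event -/
def E4 (L j : ℕ) (Cm : ℕ → ℕ → ℝ) (x b : ℕ → ℝ) (lam β Λ : ℝ) : Prop :=
  ∀ r < L, (∑ i ∈ range j, dY L Cm x b lam i * Cm i r) ^ 2 ≤ Λ * β

theorem b12 (D : Dt L j Cm x b lam β κ t Λ lg) (h4 : E4 L j Cm x b lam β Λ) {r : ℕ}
    (hr : r < L) : b1 L j Cm x b lam r ^ 2 ≤ Λ * t := by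
  unfold b1
  have e1 : ∑ i ∈ range j, Cm i r * dY L Cm x b lam i =
      ∑ i ∈ range j, dY L Cm x b lam i * Cm i r := sum_congr rfl fun i _ => by ring
  rw [mul_pow, e1]
  calc lam ^ 2 * (∑ i ∈ range j, dY L Cm x b lam i * Cm i r) ^ 2 ≤ lam ^ 2 * (Λ * β) :=
        mul_le_mul_of_nonneg_left (h4 r hr) (sq_nonneg _)
    _ = Λ * (lam ^ 2 * β) := by ring
    _ ≤ Λ * t := mul_le_mul_of_nonneg_left D.μt (zero_le_one.trans D.Λ1)

theorem half (D : Dt L j Cm x b lam β κ t Λ lg) (hE : StExalg) (hT : StTri)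
    (h4 : E4 L j Cm x b lam β Λ) {r : ℕ} (hr : r < L) : |dBe j Cm x b lam r| ≤ 1 / 2 := by
  have h1 := D.b12 h4 hr
  have h2 := D.dl2 hT hr
  have h3 := D.small
  rw [D.split hE hr]
  refine abs_le_of_sq_le_sq ?_ (by norm_num)
  nlinarith [sq_nonneg (b1 L j Cm x b lam r - dl L j Cm b lam r)]

theorem six (p q : ℝ) : (p + q) ^ 6 ≤ 32 * (p ^ 6 + q ^ 6) := by
  have h1 : (p + q) ^ 2 ≤ 2 * (p ^ 2 + q ^ 2) := by nlinarith [sq_nonneg (p - q)]
  have h2 : ((p + q) ^ 2) ^ 3 ≤ (2 * (p ^ 2 + q ^ 2)) ^ 3 :=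
    pow_le_pow_left₀ (sq_nonneg _) h1 3
  have h3 : ∀ u v : ℝ, 0 ≤ u → 0 ≤ v → (u + v) ^ 3 ≤ 4 * (u ^ 3 + v ^ 3) := by
    intro u v hu hv
    nlinarith [mul_nonneg (add_nonneg hu hv) (sq_nonneg (u - v))]
  have h4 := h3 (p ^ 2) (q ^ 2) (sq_nonneg _) (sq_nonneg _)
  calc (p + q) ^ 6 = ((p + q) ^ 2) ^ 3 := by ring
    _ ≤ (2 * (p ^ 2 + q ^ 2)) ^ 3 := h2
    _ = 8 * (p ^ 2 + q ^ 2) ^ 3 := by ring
    _ ≤ 8 * (4 * ((p ^ 2) ^ 3 + (q ^ 2) ^ 3)) := by linarith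
    _ = 32 * (p ^ 6 + q ^ 6) := by ring

theorem s16 (D : Dt L j Cm x b lam β κ t Λ lg) (h4 : E4 L j Cm x b lam β Λ) :
    ∑ r ∈ range L, b1 L j Cm x b lam r ^ 6 ≤ 4 * (Λ * t) ^ 2 * κ := by
  have h0 : 0 ≤ Λ * t := D.small.2.2.2.2.1
  calc ∑ r ∈ range L, b1 L j Cm x b lam r ^ 6
      ≤ ∑ r ∈ range L, (Λ * t) ^ 2 * b1 L j Cm x b lam r ^ 2 := by
        refine sum_le_sum fun r hr => ?_
        have h1 := D.b12 h4 (mem_range.1 hr)
        have e1 : b1 L j Cm x b lam r ^ 6 =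
            (b1 L j Cm x b lam r ^ 2) ^ 2 * b1 L j Cm x b lam r ^ 2 := by ring
        rw [e1]
        exact mul_le_mul_of_nonneg_right (pow_le_pow_left₀ (sq_nonneg _) h1 2) (sq_nonneg _)
    _ = (Λ * t) ^ 2 * ∑ r ∈ range L, b1 L j Cm x b lam r ^ 2 := by rw [mul_sum]
    _ ≤ (Λ * t) ^ 2 * (4 * κ) := mul_le_mul_of_nonneg_left D.s1 (by positivity)
    _ = 4 * (Λ * t) ^ 2 * κ := by ring

theorem zF2 (D : Dt L j Cm x b lam β κ t Λ lg) (hE : StExalg) (hT : StTri)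
    (h4 : E4 L j Cm x b lam β Λ) :
    ∑ r ∈ range L, (dBe j Cm x b lam r ^ 3) ^ 2 ≤
      32 * (4 * (Λ * t) ^ 2 * κ + (4 * Λ * κ * t) ^ 3) := by
  have h0 : 0 ≤ 4 * Λ * κ * t := by
    have := D.small.2.2.2.1
    linarith
  have h1 : ∑ r ∈ range L, dl L j Cm b lam r ^ 6 ≤ (4 * Λ * κ * t) ^ 3 := by
    calc ∑ r ∈ range L, dl L j Cm b lam r ^ 6
        ≤ ∑ r ∈ range L, (4 * Λ * κ * t) ^ 2 * dl L j Cm b lam r ^ 2 := by
          refine sum_le_sum fun r hr => ?_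
          have h1 := D.dl2 hT (mem_range.1 hr)
          have e1 : dl L j Cm b lam r ^ 6 =
              (dl L j Cm b lam r ^ 2) ^ 2 * dl L j Cm b lam r ^ 2 := by ring
          rw [e1]
          exact mul_le_mul_of_nonneg_right (pow_le_pow_left₀ (sq_nonneg _) h1 2) (sq_nonneg _)
      _ = (4 * Λ * κ * t) ^ 2 * ∑ r ∈ range L, dl L j Cm b lam r ^ 2 := by rw [mul_sum]
      _ ≤ (4 * Λ * κ * t) ^ 2 * (4 * Λ * κ * t) :=
          mul_le_mul_of_nonneg_left (D.sd hT) (by positivity)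
      _ = (4 * Λ * κ * t) ^ 3 := by ring
  calc ∑ r ∈ range L, (dBe j Cm x b lam r ^ 3) ^ 2
      ≤ ∑ r ∈ range L, 32 * (b1 L j Cm x b lam r ^ 6 + dl L j Cm b lam r ^ 6) := by
        refine sum_le_sum fun r hr => ?_
        rw [D.split hE (mem_range.1 hr)]
        have := six (b1 L j Cm x b lam r) (dl L j Cm b lam r)
        have e1 : ((b1 L j Cm x b lam r + dl L j Cm b lam r) ^ 3) ^ 2 =
            (b1 L j Cm x b lam r + dl L j Cm b lam r) ^ 6 := by ring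
        rw [e1]
        exact this
    _ = 32 * (∑ r ∈ range L, b1 L j Cm x b lam r ^ 6 + ∑ r ∈ range L, dl L j Cm b lam r ^ 6) := by
        rw [← mul_sum, sum_add_distrib]
    _ ≤ 32 * (4 * (Λ * t) ^ 2 * κ + (4 * Λ * κ * t) ^ 3) := by
        have := D.s16 h4
        linarith

/-- the events -/
structure Ev (L j : ℕ) (Cm : ℕ → ℕ → ℝ) (x b al : ℕ → ℝ) (lam β κ t Λ lg : ℝ) : Prop where
  a1 : ∀ r, |al r| ≤ 1
  a2 : ∑ r ∈ range L, al r ^ 2 ≤ 4 * κ + Λ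
  e1 : (∑ i ∈ range j, dY L Cm x b lam i * (lam * dGa L Cm b i * dH L Cm i i)) ^ 2 ≤
    Λ * (β ^ 2 * κ)
  e2 : (∑ i ∈ range j, dY L Cm x b lam i *
    ∑ i' ∈ range i, dH L Cm i i' * dY L Cm x b lam i') ^ 2 ≤ Λ * (4 * lg ^ 2 * β ^ 2 * L)
  e3 : (∑ i ∈ range j, dY L Cm x b lam i * (lam * dGa L Cm b i) ^ 3) ^ 2 ≤ Λ * (t ^ 2 * κ)
  e4 : E4 L j Cm x b lam β Λ
  f1 : (∑ r ∈ range L, (b r - al r) * dFr j Cm x r) ^ 2 ≤ Λ * (4 * lg ^ 2 * β ^ 3 * L)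
  f2 : (∑ r ∈ range L, (b r - al r) * dBe j Cm x b lam r ^ 3) ^ 2 ≤
    Λ * (32 * (4 * (Λ * t) ^ 2 * κ + (4 * Λ * κ * t) ^ 3))
  f3 : ∀ s ≤ L, (∑ r ∈ range s, (b r - al r) * dBe j Cm x b lam r) ^ 2 ≤ Λ * (16 * κ)

variable {al : ℕ → ℝ}

theorem run (D : Dt L j Cm x b lam β κ t Λ lg) (hE : StExalg) (hT : StTri)
    (V : Ev L j Cm x b al lam β κ t Λ lg) {s : ℕ} (hs : s ≤ L) :
    ∑ l ∈ range s, b l * dBe j Cm x b lam l ≤ 12 * κ + 3 * Λ := by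
  have hΛ := D.Λ1
  have hκ := D.κ1
  have h1 := V.f3 s hs
  have h2 : (∑ r ∈ range s, al r * dBe j Cm x b lam r) ^ 2 ≤ (4 * κ + Λ) * (16 * κ) := by
    calc (∑ r ∈ range s, al r * dBe j Cm x b lam r) ^ 2
        ≤ (∑ r ∈ range s, al r ^ 2) * ∑ r ∈ range s, dBe j Cm x b lam r ^ 2 :=
          sum_mul_sq_le_sq_mul_sq _ _ _
      _ ≤ (4 * κ + Λ) * (16 * κ) := by
          refine mul_le_mul ?_ ?_ (sum_nonneg fun _ _ => sq_nonneg _) (by positivity)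
          · exact (sum_le_sum_of_subset_of_nonneg (range_mono hs) fun _ _ _ => sq_nonneg _).trans
              V.a2
          · exact (sum_le_sum_of_subset_of_nonneg (range_mono hs) fun _ _ _ => sq_nonneg _).trans
              (D.sbe hE hT)
  have h3 : |∑ r ∈ range s, (b r - al r) * dBe j Cm x b lam r| ≤ 4 * κ + Λ := by
    refine abs_le_of_sq_le_sq (h1.trans ?_) (by linarith)
    nlinarith [sq_nonneg (4 * κ - Λ)]
  have h4 : |∑ r ∈ range s, al r * dBe j Cm x b lam r| ≤ 2 * (4 * κ + Λ) := by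
    refine abs_le_of_sq_le_sq (h2.trans ?_) (by linarith)
    nlinarith
  have e1 : ∑ l ∈ range s, b l * dBe j Cm x b lam l =
      ∑ r ∈ range s, (b r - al r) * dBe j Cm x b lam r +
      ∑ r ∈ range s, al r * dBe j Cm x b lam r := by
    rw [← sum_add_distrib]
    exact sum_congr rfl fun _ _ => by ring
  rw [e1]
  have := (abs_le.1 h3).2
  have := (abs_le.1 h4).2
  linarith


theorem lgu {u : ℝ} (hu : |u| ≤ 1 / 2) :
    |Real.log (1 + u) - (u - u ^ 2 / 2 + u ^ 3 / 3)| ≤ 2 * u ^ 4 := by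
  have h1 : |(-u)| < 1 := by
    rw [abs_neg]
    linarith
  have h2 := Real.abs_log_sub_add_sum_range_le h1 3
  rw [abs_neg] at h2
  have e1 : (∑ i ∈ range 3, (-u) ^ (i + 1) / ((i : ℝ) + 1)) + Real.log (1 - -u) =
      Real.log (1 + u) - (u - u ^ 2 / 2 + u ^ 3 / 3) := by
    rw [sum_range_succ, sum_range_succ, sum_range_succ, sum_range_zero]
    push_cast
    rw [sub_neg_eq_add]
    ring
  rw [e1] at h2
  refine h2.trans ?_
  have h3 : 0 < 1 - |u| := by linarith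
  rw [div_le_iff₀ h3]
  have e2 : |u| ^ (3 + 1) = u ^ 4 := by
    rw [← abs_pow]
    exact abs_of_nonneg (Even.pow_nonneg (by decide) u)
  rw [e2]
  have : 0 ≤ u ^ 4 := by positivity
  nlinarith

/-- the sum of the logarithms -/
theorem lgs (n : ℕ) (s z : ℕ → ℝ) (hs : ∀ i, s i ^ 2 = 1) (hz : ∀ i < n, |z i| ≤ 1 / 2) :
    |∑ i ∈ range n, Real.log (1 + s i * z i) -
      (∑ i ∈ range n, (s i * z i - z i ^ 2 / 2) + (1 / 3) * ∑ i ∈ range n, s i * z i ^ 3)| ≤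
      2 * ∑ i ∈ range n, z i ^ 4 := by
  have habs : ∀ i, |s i| = 1 := fun i => by
    have h := hs i
    have h2 : |s i| ^ 2 = 1 := by rw [sq_abs]; exact h
    have h3 := abs_nonneg (s i)
    nlinarith
  have e1 : ∑ i ∈ range n, Real.log (1 + s i * z i) -
      (∑ i ∈ range n, (s i * z i - z i ^ 2 / 2) + (1 / 3) * ∑ i ∈ range n, s i * z i ^ 3) =
      ∑ i ∈ range n, (Real.log (1 + s i * z i) -
        (s i * z i - (s i * z i) ^ 2 / 2 + (s i * z i) ^ 3 / 3)) := by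
    rw [mul_sum, ← sum_add_distrib, ← sum_sub_distrib]
    refine sum_congr rfl fun i _ => ?_
    have h := hs i
    have h3 : s i ^ 3 = s i := by
      calc s i ^ 3 = s i ^ 2 * s i := by ring
        _ = s i := by rw [h, one_mul]
    rw [mul_pow, mul_pow, h, h3]
    ring
  rw [e1, mul_sum]
  refine (abs_sum_le_sum_abs _ _).trans (sum_le_sum fun i hi => ?_)
  have h := hs i
  have h1 : |s i * z i| ≤ 1 / 2 := by
    rw [abs_mul, habs i, one_mul]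
    exact hz i (mem_range.1 hi)
  have h4 : (s i * z i) ^ 4 = z i ^ 4 := by
    calc (s i * z i) ^ 4 = (s i ^ 2) ^ 2 * z i ^ 4 := by ring
      _ = z i ^ 4 := by rw [h]; ring
  rw [← h4]
  exact lgu h1

theorem half_th (D : Dt L j Cm x b lam β κ t Λ lg) {i : ℕ} (hi : i < j) :
    |lam * dGa L Cm b i| ≤ 1 / 2 := by
  refine abs_le_of_sq_le_sq ?_ (by norm_num)
  have := D.th2 hi
  have := D.t1
  nlinarith

theorem s4th (D : Dt L j Cm x b lam β κ t Λ lg) :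
    ∑ i ∈ range j, (lam * dGa L Cm b i) ^ 4 ≤ κ * t := by
  calc ∑ i ∈ range j, (lam * dGa L Cm b i) ^ 4
      ≤ ∑ i ∈ range j, t * (lam * dGa L Cm b i) ^ 2 := by
        refine sum_le_sum fun i hi => ?_
        have h1 := D.th2 (mem_range.1 hi)
        have e1 : (lam * dGa L Cm b i) ^ 4 =
            (lam * dGa L Cm b i) ^ 2 * (lam * dGa L Cm b i) ^ 2 := by ring
        rw [e1]
        exact mul_le_mul_of_nonneg_right h1 (sq_nonneg _)
    _ = t * ∑ i ∈ range j, (lam * dGa L Cm b i) ^ 2 := by rw [mul_sum]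
    _ ≤ t * κ := mul_le_mul_of_nonneg_left D.sth D.t0
    _ = κ * t := mul_comm _ _

theorem s4be (D : Dt L j Cm x b lam β κ t Λ lg) (hE : StExalg) (hT : StTri)
    (h4 : E4 L j Cm x b lam β Λ) :
    ∑ r ∈ range L, dBe j Cm x b lam r ^ 4 ≤ 64 * (Λ * κ * t) := by
  have hs := D.small
  have h0 : 0 ≤ Λ * t := hs.2.2.2.2.1
  have four : ∀ p q : ℝ, (p + q) ^ 4 ≤ 8 * (p ^ 4 + q ^ 4) := by
    intro p q
    have h1 : (p + q) ^ 2 ≤ 2 * (p ^ 2 + q ^ 2) := by nlinarith [sq_nonneg (p - q)]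
    have h2 : ((p + q) ^ 2) ^ 2 ≤ (2 * (p ^ 2 + q ^ 2)) ^ 2 :=
      pow_le_pow_left₀ (sq_nonneg _) h1 2
    nlinarith [sq_nonneg (p ^ 2 - q ^ 2)]
  have h1 : ∑ r ∈ range L, b1 L j Cm x b lam r ^ 4 ≤ 4 * (Λ * κ * t) := by
    calc ∑ r ∈ range L, b1 L j Cm x b lam r ^ 4
        ≤ ∑ r ∈ range L, (Λ * t) * b1 L j Cm x b lam r ^ 2 := by
          refine sum_le_sum fun r hr => ?_
          have h1 := D.b12 h4 (mem_range.1 hr)
          have e1 : b1 L j Cm x b lam r ^ 4 =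
              b1 L j Cm x b lam r ^ 2 * b1 L j Cm x b lam r ^ 2 := by ring
          rw [e1]
          exact mul_le_mul_of_nonneg_right h1 (sq_nonneg _)
      _ = (Λ * t) * ∑ r ∈ range L, b1 L j Cm x b lam r ^ 2 := by rw [mul_sum]
      _ ≤ (Λ * t) * (4 * κ) := mul_le_mul_of_nonneg_left D.s1 h0
      _ = 4 * (Λ * κ * t) := by ring
  have h2 : ∑ r ∈ range L, dl L j Cm b lam r ^ 4 ≤ 4 * (Λ * κ * t) := by
    calc ∑ r ∈ range L, dl L j Cm b lam r ^ 4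
        ≤ ∑ r ∈ range L, dl L j Cm b lam r ^ 2 := by
          refine sum_le_sum fun r hr => ?_
          have h1 := D.dl2 hT (mem_range.1 hr)
          have e1 : dl L j Cm b lam r ^ 4 =
              dl L j Cm b lam r ^ 2 * dl L j Cm b lam r ^ 2 := by ring
          rw [e1]
          have h3 : dl L j Cm b lam r ^ 2 ≤ 1 := by linarith [hs.1]
          nlinarith [sq_nonneg (dl L j Cm b lam r)]
      _ ≤ 4 * Λ * κ * t := D.sd hT
      _ = 4 * (Λ * κ * t) := by ring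
  calc ∑ r ∈ range L, dBe j Cm x b lam r ^ 4
      ≤ ∑ r ∈ range L, 8 * (b1 L j Cm x b lam r ^ 4 + dl L j Cm b lam r ^ 4) := by
        refine sum_le_sum fun r hr => ?_
        rw [D.split hE (mem_range.1 hr)]
        exact four _ _
    _ = 8 * (∑ r ∈ range L, b1 L j Cm x b lam r ^ 4 + ∑ r ∈ range L, dl L j Cm b lam r ^ 4) := by
        rw [← mul_sum, sum_add_distrib]
    _ ≤ 64 * (Λ * κ * t) := by linarith

/-- `|X| ≤ c` from a bound of the square -/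
theorem sqb {X c : ℝ} (h : X ^ 2 ≤ c ^ 2) (hc : 0 ≤ c) : |X| ≤ c := abs_le_of_sq_le_sq h hc

theorem cubx (D : Dt L j Cm x b lam β κ t Λ lg) (V : Ev L j Cm x b al lam β κ t Λ lg) :
    |∑ i ∈ range j, x i * (lam * dGa L Cm b i) ^ 3| ≤ 1 / 10 ^ 3 := by
  have hs := D.small
  have hΛ := D.Λ1
  have hκ := D.κ1
  have ht := D.t0
  have h1 : |∑ i ∈ range j, dY L Cm x b lam i * (lam * dGa L Cm b i) ^ 3| ≤ Λ * κ * t := by
    refine sqb (V.e3.trans ?_) hs.2.2.2.1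
    have e1 : (Λ * κ * t) ^ 2 = (Λ * κ) * (Λ * (t ^ 2 * κ)) := by ring
    rw [e1]
    exact le_mul_of_one_le_left (by positivity) (by nlinarith)
  have h2 := D.s4th
  have h3 : 0 ≤ ∑ i ∈ range j, (lam * dGa L Cm b i) ^ 4 := sum_nonneg fun i _ => by positivity
  have e2 : ∑ i ∈ range j, x i * (lam * dGa L Cm b i) ^ 3 =
      ∑ i ∈ range j, dY L Cm x b lam i * (lam * dGa L Cm b i) ^ 3 +
      ∑ i ∈ range j, (lam * dGa L Cm b i) ^ 4 := by
    rw [← sum_add_distrib]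
    refine sum_congr rfl fun i _ => ?_
    unfold dY
    ring
  rw [e2]
  refine (abs_add_le _ _).trans ?_
  rw [abs_of_nonneg h3]
  norm_num at hs ⊢
  linarith

theorem cubb (D : Dt L j Cm x b lam β κ t Λ lg) (hE : StExalg) (hT : StTri)
    (V : Ev L j Cm x b al lam β κ t Λ lg) :
    |∑ r ∈ range L, b r * dBe j Cm x b lam r ^ 3| ≤ 1 / 10 ^ 2 := by
  have hs := D.small
  have he := D.e
  have hΛ := D.Λ1
  have hκ := D.κ1
  have ht := D.t0
  set e : ℝ := Λ ^ 2 * κ * t with hee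
  have he0 : 0 ≤ e := by positivity
  have h1 : |∑ r ∈ range L, (b r - al r) * dBe j Cm x b lam r ^ 3| ≤ 12 * e := by
    refine sqb (V.f2.trans ?_) (by positivity)
    have e1 : Λ * (32 * (4 * (Λ * t) ^ 2 * κ + (4 * Λ * κ * t) ^ 3)) =
        128 * (Λ ^ 3 * κ * t ^ 2) + 2048 * (Λ ^ 4 * κ ^ 3 * t ^ 3) := by ring
    have e2 : e ^ 2 = (Λ * κ) * (Λ ^ 3 * κ * t ^ 2) := by rw [hee]; ring
    have e3 : e ^ 3 = Λ ^ 2 * (Λ ^ 4 * κ ^ 3 * t ^ 3) := by rw [hee]; ring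
    have h2 : Λ ^ 3 * κ * t ^ 2 ≤ e ^ 2 := by
      rw [e2]
      exact le_mul_of_one_le_left (by positivity) (by nlinarith)
    have h3 : Λ ^ 4 * κ ^ 3 * t ^ 3 ≤ e ^ 3 := by
      rw [e3]
      exact le_mul_of_one_le_left (by positivity) (one_le_pow₀ hΛ)
    have h4 : e ^ 3 ≤ (1 / 10 ^ 4) * e ^ 2 := by
      have : e ^ 3 = e * e ^ 2 := by ring
      rw [this]
      exact mul_le_mul_of_nonneg_right he (sq_nonneg _)
    have h5 : 0 ≤ e ^ 2 := sq_nonneg _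
    rw [e1]
    nlinarith
  have h2 : |∑ r ∈ range L, al r * dBe j Cm x b lam r ^ 3| ≤ 36 * e := by
    have h3 : ∀ r ∈ range L, |al r * dBe j Cm x b lam r ^ 3| ≤
        4 * (|al r| * |b1 L j Cm x b lam r| ^ 3) + 4 * dl L j Cm b lam r ^ 2 := by
      intro r hr
      have hr' := mem_range.1 hr
      rw [D.split hE hr', abs_mul, abs_pow]
      have h4 : |b1 L j Cm x b lam r + dl L j Cm b lam r| ^ 3 ≤
          4 * (|b1 L j Cm x b lam r| ^ 3 + |dl L j Cm b lam r| ^ 3) := by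
        have h5 := abs_add_le (b1 L j Cm x b lam r) (dl L j Cm b lam r)
        have h6 : |b1 L j Cm x b lam r + dl L j Cm b lam r| ^ 3 ≤
            (|b1 L j Cm x b lam r| + |dl L j Cm b lam r|) ^ 3 :=
          pow_le_pow_left₀ (abs_nonneg _) h5 3
        refine h6.trans ?_
        have hu := abs_nonneg (b1 L j Cm x b lam r)
        have hv := abs_nonneg (dl L j Cm b lam r)
        nlinarith [mul_nonneg (add_nonneg hu hv)
          (sq_nonneg (|b1 L j Cm x b lam r| - |dl L j Cm b lam r|))]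
      have h7 : |dl L j Cm b lam r| ^ 3 ≤ dl L j Cm b lam r ^ 2 := by
        have h8 := D.dl2 hT hr'
        have h9 : |dl L j Cm b lam r| ≤ 1 := by
          refine abs_le_of_sq_le_sq ?_ (by norm_num)
          have h10 := hs.1
          calc dl L j Cm b lam r ^ 2 ≤ 4 * Λ * κ * t := h8
            _ = 4 * (Λ * κ * t) := by ring
            _ ≤ 1 ^ 2 := by linarith
        have e1 : |dl L j Cm b lam r| ^ 3 = |dl L j Cm b lam r| * dl L j Cm b lam r ^ 2 := by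
          rw [← sq_abs (dl L j Cm b lam r)]
          ring
        rw [e1]
        have := sq_nonneg (dl L j Cm b lam r)
        nlinarith
      have ha := V.a1 r
      have ha0 := abs_nonneg (al r)
      have hb0 : 0 ≤ |b1 L j Cm x b lam r| ^ 3 := by positivity
      have hd0 := sq_nonneg (dl L j Cm b lam r)
      calc |al r| * |b1 L j Cm x b lam r + dl L j Cm b lam r| ^ 3
          ≤ |al r| * (4 * (|b1 L j Cm x b lam r| ^ 3 + |dl L j Cm b lam r| ^ 3)) :=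
            mul_le_mul_of_nonneg_left h4 ha0
        _ ≤ |al r| * (4 * (|b1 L j Cm x b lam r| ^ 3 + dl L j Cm b lam r ^ 2)) := by
            refine mul_le_mul_of_nonneg_left ?_ ha0
            linarith
        _ ≤ 4 * (|al r| * |b1 L j Cm x b lam r| ^ 3) + 4 * dl L j Cm b lam r ^ 2 := by
            nlinarith
    have h4 := (abs_sum_le_sum_abs _ _).trans (sum_le_sum h3)
    rw [sum_add_distrib, ← mul_sum, ← mul_sum] at h4
    have h5 := D.sd hT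
    have h6 : |∑ r ∈ range L, |al r| * |b1 L j Cm x b lam r| ^ 3| ≤ 5 * e := by
      refine sqb ?_ (by positivity)
      calc (∑ r ∈ range L, |al r| * |b1 L j Cm x b lam r| ^ 3) ^ 2
          ≤ (∑ r ∈ range L, |al r| ^ 2) * ∑ r ∈ range L, (|b1 L j Cm x b lam r| ^ 3) ^ 2 :=
            sum_mul_sq_le_sq_mul_sq _ _ _
        _ = (∑ r ∈ range L, al r ^ 2) * ∑ r ∈ range L, b1 L j Cm x b lam r ^ 6 := by
            congr 1
            · exact sum_congr rfl fun r _ => sq_abs _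
            · refine sum_congr rfl fun r _ => ?_
              rw [← pow_mul]
              exact (Even.pow_abs (by decide) _)
        _ ≤ (4 * κ + Λ) * (4 * (Λ * t) ^ 2 * κ) :=
            mul_le_mul V.a2 (D.s16 V.e4) (sum_nonneg fun r _ => by positivity) (by positivity)
        _ ≤ (5 * Λ * κ) * (4 * (Λ * t) ^ 2 * κ) := by
            refine mul_le_mul_of_nonneg_right ?_ (by positivity)
            nlinarith
        _ = 20 * (Λ ^ 3 * κ ^ 2 * t ^ 2) := by ring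
        _ ≤ 20 * (Λ * (Λ ^ 3 * κ ^ 2 * t ^ 2)) := by
            have : Λ ^ 3 * κ ^ 2 * t ^ 2 ≤ Λ * (Λ ^ 3 * κ ^ 2 * t ^ 2) :=
              le_mul_of_one_le_left (by positivity) hΛ
            linarith
        _ ≤ (5 * e) ^ 2 := by
            rw [hee]
            have : 0 ≤ Λ ^ 4 * κ ^ 2 * t ^ 2 := by positivity
            nlinarith
    have h7 : 4 * Λ * κ * t ≤ 4 * e := by
      rw [hee]
      have h8 : Λ * κ * t ≤ Λ * (Λ * κ * t) := le_mul_of_one_le_left hs.2.2.2.1 hΛ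
      nlinarith
    have h8 := (abs_le.1 h6).2
    linarith
  have e1 : ∑ r ∈ range L, b r * dBe j Cm x b lam r ^ 3 =
      ∑ r ∈ range L, (b r - al r) * dBe j Cm x b lam r ^ 3 +
      ∑ r ∈ range L, al r * dBe j Cm x b lam r ^ 3 := by
    rw [← sum_add_distrib]
    exact sum_congr rfl fun _ _ => by ring
  rw [e1]
  refine (abs_add_le _ _).trans ?_
  norm_num at he ⊢
  linarith


/-- the quadratic part -/
theorem quad (D : Dt L j Cm x b lam β κ t Λ lg) (hE : StExalg) (hT : StTri)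
    (V : Ev L j Cm x b al lam β κ t Λ lg) :
    |∑ r ∈ range L, dBe j Cm x b lam r ^ 2 - lam ^ 2 * ∑ r ∈ range L, dG j Cm r r| ≤ 1 / 10 := by
  have hs := D.small
  have he := D.e
  have hΛ := D.Λ1
  have hκ := D.κ1
  have ht := D.t0
  have hL := D.hL
  have hL0 : (0 : ℝ) ≤ L := zero_le_one.trans hL
  have hβ := D.β0
  have hlam := D.lam0
  have hμ := D.μt
  have hμ0 := D.μ0
  have htL := D.tL
  have hlg := D.lgΛ
  have hlg0 : 0 ≤ lg ^ 2 := sq_nonneg _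
  obtain ⟨μ, hμd⟩ : ∃ μ, μ = lam ^ 2 * β := ⟨_, rfl⟩
  rw [← hμd] at hμ hμ0
  set e : ℝ := Λ ^ 2 * κ * t with hee
  have he0 : 0 ≤ e := by positivity
  have hμ2 : μ ^ 2 ≤ t ^ 2 := pow_le_pow_left₀ hμ0 hμ 2
  have hμ3 : μ ^ 3 ≤ t ^ 3 := pow_le_pow_left₀ hμ0 hμ 3
  have hμ4 : μ ^ 4 ≤ t ^ 4 := pow_le_pow_left₀ hμ0 hμ 4
  -- T1
  have T1a : |lam ^ 2 * ∑ i ∈ range j,
      dY L Cm x b lam i * (lam * dGa L Cm b i * dH L Cm i i)| ≤ e := by
    refine sqb ?_ he0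
    rw [mul_pow]
    calc (lam ^ 2) ^ 2 * (∑ i ∈ range j,
          dY L Cm x b lam i * (lam * dGa L Cm b i * dH L Cm i i)) ^ 2
        ≤ (lam ^ 2) ^ 2 * (Λ * (β ^ 2 * κ)) := mul_le_mul_of_nonneg_left V.e1 (by positivity)
      _ = Λ * κ * μ ^ 2 := by rw [hμd]; ring
      _ ≤ Λ * κ * t ^ 2 := mul_le_mul_of_nonneg_left hμ2 (by positivity)
      _ ≤ (Λ ^ 3 * κ) * (Λ * κ * t ^ 2) :=
          le_mul_of_one_le_left (by positivity)
            (one_le_mul_of_one_le_of_one_le (one_le_pow₀ hΛ) hκ)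
      _ = e ^ 2 := by rw [hee]; ring
  have T1b : |lam ^ 2 * ∑ i ∈ range j, (lam * dGa L Cm b i) ^ 2 * dH L Cm i i| ≤ e := by
    have h1 : 0 ≤ ∑ i ∈ range j, (lam * dGa L Cm b i) ^ 2 * dH L Cm i i :=
      sum_nonneg fun i hi => mul_nonneg (sq_nonneg _) (D.Hii (mem_range.1 hi)).1
    have h2 : ∑ i ∈ range j, (lam * dGa L Cm b i) ^ 2 * dH L Cm i i ≤ κ * β := by
      calc ∑ i ∈ range j, (lam * dGa L Cm b i) ^ 2 * dH L Cm i i
          ≤ ∑ i ∈ range j, (lam * dGa L Cm b i) ^ 2 * β :=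
            sum_le_sum fun i hi =>
              mul_le_mul_of_nonneg_left (D.Hii (mem_range.1 hi)).2 (sq_nonneg _)
        _ = (∑ i ∈ range j, (lam * dGa L Cm b i) ^ 2) * β := by rw [sum_mul]
        _ ≤ κ * β := mul_le_mul_of_nonneg_right D.sth hβ
    rw [abs_of_nonneg (by positivity)]
    calc lam ^ 2 * ∑ i ∈ range j, (lam * dGa L Cm b i) ^ 2 * dH L Cm i i
        ≤ lam ^ 2 * (κ * β) := mul_le_mul_of_nonneg_left h2 (sq_nonneg _)
      _ = κ * μ := by rw [hμd]; ring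
      _ ≤ κ * t := mul_le_mul_of_nonneg_left hμ (by positivity)
      _ ≤ Λ ^ 2 * (κ * t) := le_mul_of_one_le_left (by positivity) (one_le_pow₀ hΛ)
      _ = e := by rw [hee]; ring
  have T1 : |lam ^ 2 * ∑ i ∈ range j, (dY L Cm x b lam i ^ 2 - 1) * dH L Cm i i| ≤ 3 * e := by
    have e1 : lam ^ 2 * ∑ i ∈ range j, (dY L Cm x b lam i ^ 2 - 1) * dH L Cm i i =
        (-2) * (lam ^ 2 * ∑ i ∈ range j,
          dY L Cm x b lam i * (lam * dGa L Cm b i * dH L Cm i i)) -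
        lam ^ 2 * ∑ i ∈ range j, (lam * dGa L Cm b i) ^ 2 * dH L Cm i i := by
      have e0 : ∑ i ∈ range j, (dY L Cm x b lam i ^ 2 - 1) * dH L Cm i i =
          (-2) * (∑ i ∈ range j, dY L Cm x b lam i * (lam * dGa L Cm b i * dH L Cm i i)) -
          ∑ i ∈ range j, (lam * dGa L Cm b i) ^ 2 * dH L Cm i i := by
        rw [mul_sum, ← sum_sub_distrib]
        refine sum_congr rfl fun i _ => ?_
        have h := D.x2 i
        unfold dY
        linear_combination (dH L Cm i i) * h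
      rw [e0]
      ring
    rw [e1]
    refine (abs_sub _ _).trans ?_
    rw [abs_mul, show |(-2 : ℝ)| = 2 by norm_num]
    linarith
  -- T2
  have T2 : |lam ^ 2 * (2 * ∑ i ∈ range j, dY L Cm x b lam i *
      ∑ i' ∈ range i, dH L Cm i i' * dY L Cm x b lam i')| ≤ 4 / 100 := by
    refine sqb ?_ (by norm_num)
    rw [mul_pow, mul_pow]
    calc (lam ^ 2) ^ 2 * (2 ^ 2 * (∑ i ∈ range j, dY L Cm x b lam i *
          ∑ i' ∈ range i, dH L Cm i i' * dY L Cm x b lam i') ^ 2)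
        ≤ (lam ^ 2) ^ 2 * (2 ^ 2 * (Λ * (4 * lg ^ 2 * β ^ 2 * L))) :=
          mul_le_mul_of_nonneg_left (mul_le_mul_of_nonneg_left V.e2 (by norm_num))
            (by positivity)
      _ = 16 * (lg ^ 2 * (Λ * μ ^ 2 * L)) := by rw [hμd]; ring
      _ ≤ 16 * (Λ * (Λ * t ^ 2 * L)) := by
          refine mul_le_mul_of_nonneg_left (mul_le_mul hlg ?_ (by positivity) (by positivity))
            (by norm_num)
          exact mul_le_mul_of_nonneg_right (mul_le_mul_of_nonneg_left hμ2 (by positivity)) hL0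
      _ = 16 * (Λ ^ 2 * (t * L) * t) := by ring
      _ = 16 * e := by rw [htL]
      _ ≤ (4 / 100) ^ 2 := by norm_num at he ⊢; linarith
  -- T3
  have F1 := D.zF1 hT
  have T3a : |2 * lam ^ 3 * ∑ r ∈ range L, (b r - al r) * dFr j Cm x r| ≤ 4 * e := by
    refine sqb ?_ (by positivity)
    rw [mul_pow]
    calc (2 * lam ^ 3) ^ 2 * (∑ r ∈ range L, (b r - al r) * dFr j Cm x r) ^ 2
        ≤ (2 * lam ^ 3) ^ 2 * (Λ * (4 * lg ^ 2 * β ^ 3 * L)) :=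
          mul_le_mul_of_nonneg_left V.f1 (by positivity)
      _ = 16 * (lg ^ 2 * (Λ * μ ^ 3 * L)) := by rw [hμd]; ring
      _ ≤ 16 * (Λ * (Λ * t ^ 3 * L)) := by
          refine mul_le_mul_of_nonneg_left (mul_le_mul hlg ?_ (by positivity) (by positivity))
            (by norm_num)
          exact mul_le_mul_of_nonneg_right (mul_le_mul_of_nonneg_left hμ3 (by positivity)) hL0
      _ = 16 * (Λ ^ 2 * (t * L) * t ^ 2) := by ring
      _ = 16 * (Λ ^ 2 * κ * t ^ 2) := by rw [htL]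
      _ ≤ 16 * ((Λ ^ 2 * κ) * (Λ ^ 2 * κ * t ^ 2)) := by
          refine mul_le_mul_of_nonneg_left (le_mul_of_one_le_left (by positivity)
            (one_le_mul_of_one_le_of_one_le (one_le_pow₀ hΛ) hκ)) (by norm_num)
      _ = (4 * e) ^ 2 := by rw [hee]; ring
  have T3b : |2 * lam ^ 3 * ∑ r ∈ range L, al r * dFr j Cm x r| ≤ 9 * e := by
    refine sqb ?_ (by positivity)
    have h1 : (∑ r ∈ range L, al r * dFr j Cm x r) ^ 2 ≤
        (5 * Λ * κ) * (4 * lg ^ 2 * β ^ 3 * L) := by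
      calc (∑ r ∈ range L, al r * dFr j Cm x r) ^ 2
          ≤ (∑ r ∈ range L, al r ^ 2) * ∑ r ∈ range L, dFr j Cm x r ^ 2 :=
            sum_mul_sq_le_sq_mul_sq _ _ _
        _ ≤ (5 * Λ * κ) * (4 * lg ^ 2 * β ^ 3 * L) := by
            refine mul_le_mul (V.a2.trans ?_) F1 (sum_nonneg fun _ _ => sq_nonneg _)
              (by positivity)
            nlinarith
    rw [mul_pow]
    calc (2 * lam ^ 3) ^ 2 * (∑ r ∈ range L, al r * dFr j Cm x r) ^ 2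
        ≤ (2 * lam ^ 3) ^ 2 * ((5 * Λ * κ) * (4 * lg ^ 2 * β ^ 3 * L)) :=
          mul_le_mul_of_nonneg_left h1 (by positivity)
      _ = 80 * (lg ^ 2 * (Λ * κ * μ ^ 3 * L)) := by rw [hμd]; ring
      _ ≤ 80 * (Λ * (Λ * κ * t ^ 3 * L)) := by
          refine mul_le_mul_of_nonneg_left (mul_le_mul hlg ?_ (by positivity) (by positivity))
            (by norm_num)
          exact mul_le_mul_of_nonneg_right (mul_le_mul_of_nonneg_left hμ3 (by positivity)) hL0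
      _ = 80 * (Λ ^ 2 * κ * (t * L) * t ^ 2) := by ring
      _ = 80 * (Λ ^ 2 * κ ^ 2 * t ^ 2) := by rw [htL]; ring
      _ ≤ 80 * (Λ ^ 2 * (Λ ^ 2 * κ ^ 2 * t ^ 2)) := by
          refine mul_le_mul_of_nonneg_left (le_mul_of_one_le_left (by positivity)
            (one_le_pow₀ hΛ)) (by norm_num)
      _ = 80 * e ^ 2 := by rw [hee]; ring
      _ ≤ (9 * e) ^ 2 := by nlinarith [sq_nonneg e]
  have T3 : |2 * lam ^ 3 * ∑ r ∈ range L, b r * dFr j Cm x r| ≤ 13 * e := by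
    have e1 : 2 * lam ^ 3 * ∑ r ∈ range L, b r * dFr j Cm x r =
        2 * lam ^ 3 * ∑ r ∈ range L, (b r - al r) * dFr j Cm x r +
        2 * lam ^ 3 * ∑ r ∈ range L, al r * dFr j Cm x r := by
      rw [← mul_add, ← sum_add_distrib]
      congr 1
      exact sum_congr rfl fun _ _ => by ring
    rw [e1]
    refine (abs_add_le _ _).trans ?_
    linarith
  -- T4
  have hTg := D.sTg hT
  have T4 : |2 * lam ^ 4 * ∑ r ∈ range L, (∑ s ∈ range L, dG j Cm r s * b s) *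
      dTg L j Cm b r| ≤ 4 * e := by
    refine sqb ?_ (by positivity)
    have h1 : (∑ r ∈ range L, (∑ s ∈ range L, dG j Cm r s * b s) * dTg L j Cm b r) ^ 2 ≤
        (β ^ 2 * L) * (4 * lg ^ 2 * β ^ 2 * L) :=
      (sum_mul_sq_le_sq_mul_sq _ _ _).trans
        (mul_le_mul D.sGb hTg (sum_nonneg fun _ _ => sq_nonneg _) (by positivity))
    rw [mul_pow]
    calc (2 * lam ^ 4) ^ 2 * (∑ r ∈ range L, (∑ s ∈ range L, dG j Cm r s * b s) *
          dTg L j Cm b r) ^ 2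
        ≤ (2 * lam ^ 4) ^ 2 * ((β ^ 2 * L) * (4 * lg ^ 2 * β ^ 2 * L)) :=
          mul_le_mul_of_nonneg_left h1 (by positivity)
      _ = 16 * (lg ^ 2 * (μ ^ 4 * L ^ 2)) := by rw [hμd]; ring
      _ ≤ 16 * (Λ * (t ^ 4 * L ^ 2)) := by
          refine mul_le_mul_of_nonneg_left (mul_le_mul hlg ?_ (by positivity) (by positivity))
            (by norm_num)
          exact mul_le_mul_of_nonneg_right hμ4 (by positivity)
      _ = 16 * (Λ * ((t * L) ^ 2 * t ^ 2)) := by ring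
      _ = 16 * (Λ * (κ ^ 2 * t ^ 2)) := by rw [htL]
      _ ≤ 16 * (Λ ^ 3 * (Λ * (κ ^ 2 * t ^ 2))) := by
          refine mul_le_mul_of_nonneg_left (le_mul_of_one_le_left (by positivity)
            (one_le_pow₀ hΛ)) (by norm_num)
      _ = (4 * e) ^ 2 := by rw [hee]; ring
  -- T5
  have T5 : |lam ^ 4 * ∑ r ∈ range L, dTg L j Cm b r ^ 2| ≤ 4 * e := by
    rw [abs_of_nonneg (mul_nonneg (by positivity) (sum_nonneg fun _ _ => sq_nonneg _))]
    calc lam ^ 4 * ∑ r ∈ range L, dTg L j Cm b r ^ 2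
        ≤ lam ^ 4 * (4 * lg ^ 2 * β ^ 2 * L) := mul_le_mul_of_nonneg_left hTg (by positivity)
      _ = 4 * (lg ^ 2 * (μ ^ 2 * L)) := by rw [hμd]; ring
      _ ≤ 4 * (Λ * (t ^ 2 * L)) := by
          refine mul_le_mul_of_nonneg_left (mul_le_mul hlg ?_ (by positivity) (by positivity))
            (by norm_num)
          exact mul_le_mul_of_nonneg_right hμ2 (by positivity)
      _ = 4 * (Λ * ((t * L) * t)) := by ring
      _ = 4 * (Λ * (κ * t)) := by rw [htL]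
      _ ≤ 4 * (Λ * (Λ * (κ * t))) := by
          refine mul_le_mul_of_nonneg_left (le_mul_of_one_le_left (by positivity) hΛ)
            (by norm_num)
      _ = 4 * e := by rw [hee]; ring
  rw [D.ex3 hE]
  have e1 : lam ^ 2 * (∑ i ∈ range j, (dY L Cm x b lam i ^ 2 - 1) * dH L Cm i i +
        2 * ∑ i ∈ range j, dY L Cm x b lam i * ∑ i' ∈ range i, dH L Cm i i' *
          dY L Cm x b lam i') +
      2 * lam ^ 3 * (∑ r ∈ range L, b r * dFr j Cm x r -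
        lam * ∑ r ∈ range L, (∑ s ∈ range L, dG j Cm r s * b s) * dTg L j Cm b r) +
      lam ^ 4 * ∑ r ∈ range L, dTg L j Cm b r ^ 2 =
      lam ^ 2 * ∑ i ∈ range j, (dY L Cm x b lam i ^ 2 - 1) * dH L Cm i i +
      lam ^ 2 * (2 * ∑ i ∈ range j, dY L Cm x b lam i * ∑ i' ∈ range i, dH L Cm i i' *
          dY L Cm x b lam i') +
      2 * lam ^ 3 * ∑ r ∈ range L, b r * dFr j Cm x r -
      2 * lam ^ 4 * ∑ r ∈ range L, (∑ s ∈ range L, dG j Cm r s * b s) * dTg L j Cm b r +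
      lam ^ 4 * ∑ r ∈ range L, dTg L j Cm b r ^ 2 := by ring
  rw [e1]
  have he' : e ≤ 1 / 10000 := by norm_num at he ⊢; linarith
  have a1 := abs_le.1 T1
  have a2 := abs_le.1 T2
  have a3 := abs_le.1 T3
  have a4 := abs_le.1 T4
  have a5 := abs_le.1 T5
  refine abs_le.2 ⟨?_, ?_⟩
  · linarith [a1.1, a2.1, a3.1, a4.2, a5.1]
  · linarith [a1.2, a2.2, a3.2, a4.1, a5.2]

/-- the final estimate -/
theorem final (D : Dt L j Cm x b lam β κ t Λ lg) (hE : StExalg) (hT : StTri)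
    (V : Ev L j Cm x b al lam β κ t Λ lg) :
    |∑ i ∈ range j, Real.log (1 + x i * (lam * dGa L Cm b i)) -
      ∑ r ∈ range L, Real.log (1 + b r * dBe j Cm x b lam r)| ≤ 1 := by
  have h1 := lgs j x (fun i => lam * dGa L Cm b i) D.x2 (fun i hi => D.half_th hi)
  have h2 := lgs L b (fun r => dBe j Cm x b lam r) D.b2 (fun r hr => D.half hE hT V.e4 hr)
  have h3 := D.quad hE hT V
  have h4 := D.cubx V
  have h5 := D.cubb hE hT V
  have h6 := D.s4th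
  have h7 := D.s4be hE hT V.e4
  have h8 := D.ex1 hE
  have hs := D.small
  have e2 : ∑ r ∈ range L, (b r * dBe j Cm x b lam r - dBe j Cm x b lam r ^ 2 / 2) =
      ∑ r ∈ range L, b r * dBe j Cm x b lam r -
        (1 / 2) * ∑ r ∈ range L, dBe j Cm x b lam r ^ 2 := by
    rw [sum_sub_distrib, mul_sum]
    congr 1
    exact sum_congr rfl fun _ _ => by ring
  rw [e2] at h2
  rw [h8] at h1
  have a1 := abs_le.1 h1
  have a2 := abs_le.1 h2
  have a3 := abs_le.1 h3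
  have a4 := abs_le.1 h4
  have a5 := abs_le.1 h5
  have hs1 : Λ * κ * t ≤ 1 / 10000 := by
    have := hs.1
    norm_num at this ⊢
    linarith
  have hs2 : κ * t ≤ 1 / 10000 := by
    have := hs.2.2.1
    norm_num at this ⊢
    linarith
  have b4 : |∑ i ∈ range j, x i * (lam * dGa L Cm b i) ^ 3| ≤ 1 / 1000 := by
    norm_num at h4 ⊢
    linarith
  have b5 : |∑ r ∈ range L, b r * dBe j Cm x b lam r ^ 3| ≤ 1 / 100 := by
    norm_num at h5 ⊢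
    linarith
  have c4 := abs_le.1 b4
  have c5 := abs_le.1 b5
  refine abs_le.2 ⟨?_, ?_⟩
  · linarith [a1.1, a2.2, a3.1, c4.1, c5.2]
  · linarith [a1.2, a2.1, a3.2, c4.2, c5.1]

end Dt

end Pool.Agent.SHD.Exch18
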