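import Pool.Agent.Lib.MP_a7b2aa_an.SHD.Stmts3_23
import Pool.Agent.Lib.MP_a7b2aa_an.SBD.OP60

/-!
SHD3, helper26: the module FRV (matrix martingales with uniformly bounded terms, event form).
-/

set_option autoImplicit false

namespace Pool.Agent.SHD

open Finset Pool.Agent.SB3 Pool.Agent.SBT Pool.Agent.SBD Pool.Agent.SBD.OP60

/-- `OP60.mart` with the terms `lo ≤ t < hi` -/
theorem mart26 (hA : StAlf) (n : ℕ) (ε : ℝ) (hε : 0 < ε) : ∃ C : ℝ, 1 ≤ C ∧
    ∀ (m L lo hi : ℕ) (c : Fin (m + 1)) (κ : Type) [Fintype κ] [DecidableEq κ]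
    (M : ℕ → Pt m L → Matrix κ κ ℝ) (k b : ℝ) (ρ : Pt m L → ℝ), 1 ≤ L → Law k ρ →
    Fintype.card κ ≤ 2 * L → 0 < b → lo < hi → hi ≤ L → (∀ t ω, (M t ω).IsSymm) →
    (∀ t ω, NB (M t ω) b) → (∀ t, Ms (one L c t) (M t)) →
    (∀ t ω, t < lo ∨ hi ≤ t → M t ω = 0) →
    Pr ρ (fun ω => ¬ NB (∑ t ∈ range L, (sb c t ω - al ρ c t ω) • M t ω)
      ((L : ℝ) ^ ε * (((hi - lo : ℕ) : ℝ) * b))) ≤ C / (L + 1) ^ n := by
  classical
  obtain ⟨R, hR⟩ := exists_nat_ge ((n + 2 : ℝ) / ε)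
  have hRε : (n + 2 : ℝ) ≤ R * ε := by
    rwa [div_le_iff₀ hε] at hR
  have hR1 : 1 ≤ R := by
    rcases Nat.eq_zero_or_pos R with h | h
    · rw [h] at hRε
      have : (0 : ℝ) ≤ n := Nat.cast_nonneg n
      simp at hRε
      linarith
    · exact h
  obtain ⟨A, hA0, hmom⟩ := SB30.mom SB30.lk33 R
  refine ⟨1 + 2 * A * 2 ^ n, by
    have : 0 ≤ 2 * A * 2 ^ n := by positivity
    linarith, ?_⟩
  intro m L lo hi c κ _ _ M k b ρ hL hρ hcard hb hlh hhi hsym hNB hMs hz
  have hL1 : (1 : ℝ) ≤ L := by exact_mod_cast hL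
  have hL0 : (0 : ℝ) < L := by linarith
  have hAl := hA m L k ρ hρ
  set D : ℕ → Pt m L → ℝ := fun t ω => sb c t ω - al ρ c t ω with hD
  have hone : ∀ t a, one (m := m) L c t a ≤ one L c (t + 1) a ∨ L ≤ one L c (t + 1) a := by
    intro t a
    by_cases ha : a = c
    · subst ha
      left
      simp [one]
    · right
      simp [one, Function.update_of_ne ha]
  have hone' : ∀ s t a, s ≤ t → (one (m := m) L c s a ≤ one L c t a ∨ L ≤ one L c t a) := by
    intro s t a hst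
    by_cases ha : a = c
    · subst ha
      left
      simpa [one] using hst
    · right
      simp [one, Function.update_of_ne ha]
  have hsbMs : ∀ t, Ms (one L c (t + 1)) (sb (L := L) c t) := by
    intro t
    exact Ms_sb (by simp [one])
  have halMs : ∀ t, Ms (one L c (t + 1)) (al ρ c t) := fun t =>
    (hAl.ms c t).mono fun a => hone' t (t + 1) a (Nat.le_succ t)
  have hsub : Finset.Ico lo hi ⊆ range L := by
    intro t ht
    rw [Finset.mem_Ico] at ht
    exact mem_range.2 (lt_of_lt_of_le ht.2 hhi)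
  have hmom' := hmom (Pt m L) κ (fun ω => ρ ω / 2 ^ ((m + 1) * L))
    (fun t x y => cl (one L c t) x y) D M b L
    (fun ω => div_nonneg (hρ.nonneg ω) (by positivity))
    (by
      have := hρ.mean
      unfold Av at this
      rwa [sum_div] at this)
    (fun t x y h => cl_mono (hone t) h)
    (fun t x y h => by
      show sb c t x - al ρ c t x = sb c t y - al ρ c t y
      rw [hsbMs t y x h, halMs t y x h])
    (fun t ω => by
      have h1 := sb_abs c t ω
      have h2 := hAl.abs c t ω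
      have h3 := abs_sub (sb c t ω) (al ρ c t ω)
      show |sb c t ω - al ρ c t ω| ≤ 2
      linarith)
    (fun t x y h => hMs t y x h)
    (fun t ht X hX => by
      rw [ex_conv]
      have h1 := hAl.ex c t X (fun ω ω' h => hX ω' ω h)
      have h2 : Ex ρ (fun ω => D t ω * X ω) =
          Ex ρ (fun ω => sb c t ω * X ω) - Ex ρ (fun ω => al ρ c t ω * X ω) := by
        rw [← Ex_sub]
        congr 1
        funext ω
        simp only [hD]
        ring
      rw [h2, h1, sub_self])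
    (fun t ω => hsym t ω) hb.le
    (fun t _ ω w => hNB t ω w) (Finset.Ico lo hi) hsub
  rw [ex_conv, Nat.card_Ico] at hmom'
  set S : Pt m L → Matrix κ κ ℝ := fun ω => ∑ t ∈ Finset.Ico lo hi, D t ω • M t ω with hS
  have hSS : ∀ ω, ∑ t ∈ range L, (sb c t ω - al ρ c t ω) • M t ω = S ω := by
    intro ω
    simp only [hS]
    refine (sum_subset hsub fun t _ ht => ?_).symm
    rw [Finset.mem_Ico, not_and_or, not_le, not_lt] at ht
    rw [hz t ω ht, smul_zero]
  simp_rw [hSS]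
  have hSsym : ∀ ω, (S ω).IsSymm := by
    intro ω
    simp only [hS]
    unfold Matrix.IsSymm
    rw [Matrix.transpose_sum]
    apply Finset.sum_congr rfl
    intro q _
    rw [Matrix.transpose_smul, (hsym q ω).eq]
  have hlam := fun ω => SB30.tv18 κ (S ω) R (hSsym ω) hR1
  choose lam hlam0 hlamt hlamv using hlam
  set w : ℝ := ((hi - lo : ℕ) : ℝ) with hw
  have hw0 : 0 < w := by
    rw [hw]
    exact_mod_cast Nat.sub_pos_of_lt hlh
  set T : ℝ := (L : ℝ) ^ ε * (w * b) with hT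
  have hLε : 0 < (L : ℝ) ^ ε := Real.rpow_pos_of_pos hL0 ε
  have hT0 : 0 < T := by positivity
  have h1 : Pr ρ (fun ω => ¬ NB (S ω) T) ≤ Pr ρ (fun ω => T ^ R < (S ω ^ (2 * R)).trace) := by
    refine Pr_mono hρ fun ω hω => ?_
    by_contra hcon
    rw [not_lt] at hcon
    apply hω
    have h2 : lam ω ^ R ≤ T ^ R := (hlamt ω).trans hcon
    have h3 : lam ω ≤ T := le_of_pow_le_pow_left₀ (by omega) hT0.le h2
    intro u
    refine (hlamv ω u).trans ?_
    exact mul_le_mul_of_nonneg_right h3 (sum_nonneg fun _ _ => sq_nonneg _)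
  have h2 : Pr ρ (fun ω => T ^ R < (S ω ^ (2 * R)).trace) ≤
      Ex ρ (fun ω => (S ω ^ (2 * R)).trace) / T ^ R := by
    refine Pr_markov hρ (fun ω => (S ω ^ (2 * R)).trace) (fun ω => ?_) (by positivity)
    rw [SB30.TV18.trace_eq (hSsym ω)]
    exact sum_nonneg fun _ _ => sum_nonneg fun _ _ => sq_nonneg _
  have h3 : Ex ρ (fun ω => (S ω ^ (2 * R)).trace) ≤ A * (2 * L) * (b * w) ^ R := by
    refine hmom'.trans ?_
    have : (Fintype.card κ : ℝ) ≤ 2 * L := by exact_mod_cast hcard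
    gcongr
  have hTR : T ^ R = ((L : ℝ) ^ ε) ^ R * (b * w) ^ R := by
    rw [hT, mul_pow, mul_comm w b]
  have h4 : (L : ℝ) ^ (n + 2) ≤ ((L : ℝ) ^ ε) ^ R := by
    rw [← Real.rpow_natCast ((L : ℝ) ^ ε) R, ← Real.rpow_mul hL0.le, ← Real.rpow_natCast]
    refine Real.rpow_le_rpow_of_exponent_le hL1 ?_
    push_cast
    linarith
  have h5 : Ex ρ (fun ω => (S ω ^ (2 * R)).trace) / T ^ R ≤ 2 * A * 2 ^ n / (L + 1) ^ n := by
    rw [div_le_div_iff₀ (by positivity) (by positivity)]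
    have h6 : ((L : ℝ) + 1) ^ n ≤ 2 ^ n * L ^ n := by
      rw [← mul_pow]
      gcongr
      linarith
    have h7 : (L : ℝ) * L ^ n ≤ ((L : ℝ) ^ ε) ^ R := by
      refine le_trans ?_ h4
      rw [← pow_succ']
      exact pow_le_pow_right₀ hL1 (by omega)
    calc Ex ρ (fun ω => (S ω ^ (2 * R)).trace) * ((L : ℝ) + 1) ^ n
        ≤ (A * (2 * L) * (b * w) ^ R) * (2 ^ n * L ^ n) := by
          refine mul_le_mul h3 h6 (by positivity) (by positivity)
      _ = 2 * A * 2 ^ n * ((L * L ^ n) * (b * w) ^ R) := by ring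
      _ ≤ 2 * A * 2 ^ n * (((L : ℝ) ^ ε) ^ R * (b * w) ^ R) := by gcongr
      _ = 2 * A * 2 ^ n * T ^ R := by rw [hTR]
  refine (h1.trans (h2.trans h5)).trans ?_
  gcongr
  linarith

/-- the symmetric dilation -/
def dil26 {L : ℕ} (K : Matrix (Fin L) (Fin L) ℝ) : Matrix (Fin L ⊕ Fin L) (Fin L ⊕ Fin L) ℝ :=
  Matrix.fromBlocks 0 K K.transpose 0

theorem dil26_symm {L : ℕ} (K : Matrix (Fin L) (Fin L) ℝ) : (dil26 K).IsSymm := by
  unfold dil26 Matrix.IsSymm
  rw [Matrix.fromBlocks_transpose]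
  simp

theorem dil26_nb {L : ℕ} {K : Matrix (Fin L) (Fin L) ℝ} {b : ℝ} (h1 : NB K b)
    (h2 : NB K.transpose b) : NB (dil26 K) b := by
  intro u
  rw [Fintype.sum_sum_type, Fintype.sum_sum_type]
  have e1 : ∀ x : Fin L, ∑ y, dil26 K (Sum.inl x) y * u y = ∑ y, K x y * u (Sum.inr y) := by
    intro x
    rw [Fintype.sum_sum_type]
    simp [dil26]
  have e2 : ∀ x : Fin L, ∑ y, dil26 K (Sum.inr x) y * u y =
      ∑ y, K.transpose x y * u (Sum.inl y) := by
    intro x
    rw [Fintype.sum_sum_type]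
    simp [dil26]
  simp_rw [e1, e2]
  have h3 := h1 (fun y => u (Sum.inr y))
  have h4 := h2 (fun y => u (Sum.inl y))
  rw [mul_add]
  linarith

theorem nb_of_dil26 {L : ℕ} {P : Finset ℕ} {a : ℕ → ℝ} {K : ℕ → Matrix (Fin L) (Fin L) ℝ}
    {b : ℝ} (h : NB (∑ t ∈ P, a t • dil26 (K t)) b) : NB (∑ t ∈ P, a t • K t) b := by
  intro u
  have h1 := h (Sum.elim (fun _ => 0) u)
  rw [Fintype.sum_sum_type, Fintype.sum_sum_type] at h1
  have e1 : ∀ x : Fin L, ∑ y, (∑ t ∈ P, a t • dil26 (K t)) (Sum.inl x) y *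
      Sum.elim (fun _ => 0) u y = ∑ y, (∑ t ∈ P, a t • K t) x y * u y := by
    intro x
    rw [Fintype.sum_sum_type]
    simp only [Sum.elim_inl, mul_zero, sum_const_zero, zero_add, Sum.elim_inr]
    refine sum_congr rfl fun y _ => ?_
    congr 1
    rw [Matrix.sum_apply, Matrix.sum_apply]
    refine sum_congr rfl fun t _ => ?_
    simp [dil26]
  simp_rw [e1] at h1
  have h2 : 0 ≤ ∑ x : Fin L, (∑ y, (∑ t ∈ P, a t • dil26 (K t)) (Sum.inr x) y *
      Sum.elim (fun _ => 0) u y) ^ 2 := sum_nonneg fun _ _ => sq_nonneg _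
  simp only [Sum.elim_inl, Sum.elim_inr] at h1
  have h3 : ∑ _x : Fin L, (0 : ℝ) ^ 2 = 0 := by simp
  rw [h3, zero_add] at h1
  linarith

/-- FRV -/
theorem frv_26 (hA : StAlf) (hN : StNbt) : StFrv := by
  classical
  intro n ε hε
  obtain ⟨C, hC1, hC⟩ := mart26 hA n ε hε
  refine ⟨C, hC1, ?_⟩
  intro m L lo hi c K k b ρ G hL hρ hb hhi hMs hz hNB
  have hL1 : (1 : ℝ) ≤ L := by exact_mod_cast hL
  have hLε : 1 ≤ (L : ℝ) ^ ε := Real.one_le_rpow hL1 hε.le
  have hC0 : 0 ≤ C / (L + 1) ^ n := by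
    have : 0 ≤ C := by linarith
    positivity
  -- the trivial cases
  have htriv : ∀ P : Pt m L → Prop, (∀ ω, ¬ P ω) → Pr ρ P ≤ C / (L + 1) ^ n := by
    intro P hP
    have : Pr ρ P = 0 := by
      unfold Pr Ex Av
      simp [hP]
    rw [this]
    exact hC0
  by_cases hlh : lo < hi
  swap
  · refine htriv _ fun ω hω => hω.2 ?_
    have h0 : ∑ t ∈ range L, (sb c t ω - al ρ c t ω) • K t ω = 0 := by
      refine sum_eq_zero fun t _ => ?_
      rw [hz t ω (by omega), smul_zero]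
    rw [h0]
    exact NB_zero (by positivity)
  rcases hb.eq_or_lt with hb0 | hb0
  · refine htriv _ fun ω hω => hω.2 ?_
    have h0 := NB_drift (L := L) (fun t => sb c t ω - al ρ c t ω) (fun t => K t ω) hb
      (fun t => hNB ω hω.1 t) le_rfl
    rw [← hb0] at h0 ⊢
    simpa using h0
  -- clipping
  set K' : ℕ → Pt m L → Matrix (Fin L) (Fin L) ℝ := fun t ω => if NB (K t ω) b then K t ω else 0
    with hK'
  have hK'nb : ∀ t ω, NB (K' t ω) b := by
    intro t ω
    simp only [hK']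
    split_ifs with h
    · exact h
    · exact NB_zero hb
  have h1 := hC m L lo hi c (Fin L ⊕ Fin L) (fun t ω => dil26 (K' t ω)) k b ρ hL hρ
    (by rw [Fintype.card_sum, Fintype.card_fin]; omega) hb0 hlh hhi
    (fun t ω => dil26_symm _)
    (fun t ω => dil26_nb (hK'nb t ω) (hN _ _ _ b hb (hK'nb t ω)))
    (fun t ω ω' h => by
      have := hMs t ω ω' h
      simp only [hK', this])
    (fun t ω ht => by
      have := hz t ω ht
      simp only [hK', this]
      simp [dil26])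
  refine (Pr_mono hρ fun ω hω => ?_).trans h1
  intro hcon
  apply hω.2
  have h2 := nb_of_dil26 hcon
  have h3 : ∑ t ∈ range L, (sb c t ω - al ρ c t ω) • K' t ω =
      ∑ t ∈ range L, (sb c t ω - al ρ c t ω) • K t ω := by
    refine sum_congr rfl fun t _ => ?_
    simp only [hK', if_pos (hNB ω hω.1 t)]
  rw [h3] at h2
  refine NB_mono h2 ?_
  have : 0 ≤ (L : ℝ) ^ ε * (((hi - lo : ℕ) : ℝ) * b) := by positivity
  calc (L : ℝ) ^ ε * (((hi - lo : ℕ) : ℝ) * b) ≤ C * ((L : ℝ) ^ ε * (((hi - lo : ℕ) : ℝ) * b)) :=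
        le_mul_of_one_le_left this hC1
    _ = C * (L : ℝ) ^ ε * ((hi - lo : ℕ) : ℝ) * b := by ring

end Pool.Agent.SHD
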