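import Pool.Agent.Lib.MP_a7b2aa_an.SHD.Bgb69
import Pool.Agent.Lib.MP_a7b2aa_an.SBD.EEB36

/-!
SHD, module INTK (helper69): removal of the boundary blocks.
-/

set_option autoImplicit false

namespace Pool.Agent.SHD

open Finset Pool.Agent.SB3 Pool.Agent.SBT Pool.Agent.SBD

/-- a block with `l a = 0` does not depend on string `a` -/
theorem Ms_bg_zero69 {m L : ℕ} (c : (Fin (m + 1) → ℤ) → ℂ) (l : Fin (m + 1) → ℕ)
    (a : Fin (m + 1)) (hla : l a = 0) : Ms (one L a 0) (bg (L := L) c l) := by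
  intro ω ω' h
  rw [cl_one_iff] at h
  show (∑ k ∈ blk l, c k * Complex.exp (Complex.I * ∑ j, (((k j : ℝ) *
        gpt (ω' j) : ℝ) : ℂ))).re = (∑ k ∈ blk l, c k * Complex.exp (Complex.I * ∑ j,
        (((k j : ℝ) * gpt (ω j) : ℝ) : ℂ))).re
  congr 1
  refine sum_congr rfl fun k hk => ?_
  unfold blk at hk
  rw [Fintype.mem_piFinset] at hk
  have h0 : k a = 0 := by
    have h1 := (mem_Bl69 (hk a)).1
    rw [hla] at h1
    simp only [mul_zero, pow_zero] at h1
    exact Int.abs_lt_one_iff.1 h1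
  have h2 : ∑ j, (((k j : ℝ) * gpt (ω' j) : ℝ) : ℂ) = ∑ j, (((k j : ℝ) * gpt (ω j) : ℝ) : ℂ) := by
    refine sum_congr rfl fun j _ => ?_
    by_cases hj : j = a
    · subst hj
      rw [h0]
      simp
    · rw [h.2 j hj]
  rw [h2]

theorem intk_aux69 {m L : ℕ} (n : ℕ) (c : (Fin (m + 1) → ℤ) → ℂ) (M : ℝ) (hL : 2 * n + 2 ≤ L)
    (hM : ∀ ω : Pt m L, |∑ l ∈ Finset.Nat.antidiagonalTuple (m + 1) n, bg c l ω| ≤ M)
    (A : Finset (Fin (m + 1))) : ∀ ω : Pt m L,
    |∑ l ∈ (Finset.Nat.antidiagonalTuple (m + 1) n).filter (fun l => ∀ j ∈ A, 1 ≤ l j),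
      bg c l ω| ≤ 2 ^ A.card * M := by
  have hE : Eeb m L := eeb_36 m L
  induction A using Finset.induction_on with
  | empty =>
    intro ω
    simpa using hM ω
  | insert a A ha ih =>
    intro ω
    set F := (Finset.Nat.antidiagonalTuple (m + 1) n).filter (fun l => ∀ j ∈ A, 1 ≤ l j) with hF
    set B : ℝ := 2 ^ A.card * M with hB
    have h1 : ∑ l ∈ (Finset.Nat.antidiagonalTuple (m + 1) n).filter
        (fun l => ∀ j ∈ insert a A, 1 ≤ l j), bg c l ω =
        ∑ l ∈ F, bg c l ω - EE (one L a 0) (fun ω' => ∑ l ∈ F, bg c l ω') ω := by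
      rw [hE.sum, ← sum_sub_distrib]
      have h2 : (Finset.Nat.antidiagonalTuple (m + 1) n).filter
          (fun l => ∀ j ∈ insert a A, 1 ≤ l j) = F.filter (fun l => 1 ≤ l a) := by
        ext l
        simp only [hF, mem_filter, mem_insert, forall_eq_or_imp]
        tauto
      rw [h2, sum_filter]
      refine sum_congr rfl fun l hl => ?_
      have hl' := (mem_filter.1 hl).1
      rw [Finset.Nat.mem_antidiagonalTuple] at hl'
      have hle : l a ≤ n := by
        rw [← hl']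
        exact Finset.single_le_sum (f := l) (fun i _ => Nat.zero_le _) (mem_univ a)
      by_cases hla : 1 ≤ l a
      · rw [if_pos hla]
        have := EE_bg69 (L := L) c l a hla (by omega) ω
        rw [this, sub_zero]
      · rw [if_neg hla]
        have := hE.idem _ _ (Ms_bg_zero69 (L := L) c l a (by omega)) ω
        rw [this, sub_self]
    have h3 : |EE (one L a 0) (fun ω' => ∑ l ∈ F, bg c l ω') ω| ≤ B := by
      refine (hE.abs _ _ _).trans ?_
      refine (hE.mono _ _ (fun _ => B) (fun ω' => ih ω') ω).trans ?_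
      rw [hE.const]
    rw [h1, card_insert_of_notMem ha, pow_succ]
    have h4 := ih ω
    have h5 := abs_sub (∑ l ∈ F, bg c l ω) (EE (one L a 0) (fun ω' => ∑ l ∈ F, bg c l ω') ω)
    calc |∑ l ∈ F, bg c l ω - EE (one L a 0) (fun ω' => ∑ l ∈ F, bg c l ω') ω|
        ≤ |∑ l ∈ F, bg c l ω| + |EE (one L a 0) (fun ω' => ∑ l ∈ F, bg c l ω') ω| := h5
      _ ≤ B + B := add_le_add h4 h3
      _ = 2 ^ A.card * 2 * M := by
          rw [hB]
          ring

theorem intk_69 : StIntK := by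
  intro m n L c M hL hM ω
  have h := intk_aux69 n c M hL hM univ ω
  have h1 : (Finset.Nat.antidiagonalTuple (m + 1) n).filter
      (fun l => ∀ j ∈ (univ : Finset (Fin (m + 1))), 1 ≤ l j) = inl (m + 1) n := by
    ext l
    simp [inl]
  rw [h1] at h
  simpa using h

end Pool.Agent.SHD
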