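import Pool.Agent.Lib.MP_a7b2aa_an.SHD.BlkE74
import Pool.Agent.Lib.MP_a7b2aa_an.SHD.Dual74
import Pool.Agent.Lib.MP_a7b2aa_an.SHD.GridK33
import Pool.Agent.Lib.MP_a7b2aa_an.SHD.Bgb69
import Pool.Agent.Lib.MP_a7b2aa_an.SHD.Int69
import Pool.Agent.Lib.MP_a7b2aa_an.SHD.Char3
import Pool.Agent.Lib.MP_a7b2aa_an.SHD.Cfek21
import Pool.Agent.Lib.MP_a7b2aa_an.SBD.DiscD30
import Pool.Agent.Lib.MP_a7b2aa_an.SBD.LowD38
import Pool.Agent.Lib.MP_a7b2aa_an.SBD.ParD71

/-!
SHD4, torus part (helper74): GRIDL, from the digits theorem to the discrete torus.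
-/

set_option autoImplicit false

namespace Pool.Agent.SHD

open Finset Pool.Agent.SB3 Pool.Agent.SBT Pool.Agent.SBD K75

namespace E74

/-- the point of the discrete torus -/
noncomputable def tor {m L : ℕ} (ω : Pt m L) : Tor (Fin (m + 1)) (2 ^ L) :=
  fun j => ((vl (ω j) : ℕ) : ZMod (2 ^ L))

lemma vl_bij (L : ℕ) : Function.Bijective (fun y : Y L => ((vl y : ℕ) : ZMod (2 ^ L))) := by
  rw [Fintype.bijective_iff_surjective_and_card]
  constructor
  · intro x
    obtain ⟨y, hy⟩ := vl_surj (L := L) x.val (ZMod.val_lt x)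
    refine ⟨y, ?_⟩
    simp only [hy]
    exact ZMod.natCast_zmod_val x
  · rw [ZMod.card]
    simp [Y]

lemma tor_bij (m L : ℕ) : Function.Bijective (tor : Pt m L → Tor (Fin (m + 1)) (2 ^ L)) := by
  constructor
  · intro ω ω' h
    funext j
    exact (vl_bij L).1 (congrFun h j)
  · intro u
    choose y hy using fun j => (vl_bij L).2 (u j)
    exact ⟨y, funext hy⟩

lemma sum_tor {m L : ℕ} (φ : Tor (Fin (m + 1)) (2 ^ L) → ℝ) :
    ∑ ω : Pt m L, φ (tor ω) = ∑ u, φ u :=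
  Fintype.sum_bijective tor (tor_bij m L) _ _ fun _ => rfl

lemma Av_tor {m L : ℕ} (φ : Tor (Fin (m + 1)) (2 ^ L) → ℝ) :
    Av (fun ω : Pt m L => φ (tor ω)) = (∑ u, φ u) / 2 ^ ((m + 1) * L) := by
  unfold Av
  rw [sum_tor]

lemma PT_tor {m L : ℕ} (c : (Fin (m + 1) → ℤ) → ℂ) (l : Fin (m + 1) → ℕ) (ω : Pt m L) :
    PT (N := 2 ^ L) (blkD l) c (tor ω) = bg c l ω := by
  unfold PT bg bp
  congr 1
  have hb : (blkD l : Finset (Fin (m + 1) → ℤ)) = blk l := rfl
  rw [hb]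
  refine sum_congr rfl fun k _ => ?_
  congr 1
  unfold ch tor
  rw [mul_sum, Complex.exp_sum]
  refine prod_congr rfl fun j _ => ?_
  beta_reduce
  rw [char_nat, gpt_eq]
  congr 3
  push_cast
  ring

lemma tor_update {m L : ℕ} (ω : Pt m L) (a : Fin (m + 1)) (y : Y L) :
    tor (Function.update ω a y) = Function.update (tor ω) a ((vl y : ℕ) : ZMod (2 ^ L)) := by
  funext j
  unfold tor
  by_cases hj : j = a
  · subst hj
    simp
  · simp [Function.update_of_ne hj]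

lemma isE_tor {m L : ℕ} {w : ZMod (2 ^ L) → ℝ} {T : Tor (Fin (m + 1)) (2 ^ L) → ℝ}
    (a : Fin (m + 1)) (hT : ∀ u, IsZ w (fun x => T (Function.update u a x))) (ω : Pt m L) :
    IsE w (fun y => T (tor (Function.update ω a y))) := by
  refine ⟨fun x => T (Function.update (tor ω) a x), hT _, fun y => ?_⟩
  beta_reduce
  rw [tor_update]

lemma mean_tor {m L s : ℕ} {w : ZMod (2 ^ L) → ℝ} (hw : Ker L s w)
    {T : Tor (Fin (m + 1)) (2 ^ L) → ℝ} (a : Fin (m + 1))
    (hT : ∀ u, IsZ w (fun x => T (Function.update u a x))) (ω : Pt m L) :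
    EE (one L a 0) (fun ω => T (tor ω)) ω = 0 := by
  rw [EE_one3]
  have h1 : ∑ y' : Y L, (if pre 0 y' = pre 0 (ω a) then T (tor (Function.update ω a y')) else 0) =
      0 := by
    have h2 : ∀ y' : Y L, (if pre 0 y' = pre 0 (ω a) then T (tor (Function.update ω a y'))
        else 0) = T (Function.update (tor ω) a ((vl y' : ℕ) : ZMod (2 ^ L))) := by
      intro y'
      rw [if_pos (by funext i; simp [pre]), tor_update]
    simp_rw [h2]
    rw [Fintype.sum_bijective _ (vl_bij L) _ (fun x => T (Function.update (tor ω) a x))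
      fun _ => rfl]
    obtain ⟨φ, hφ⟩ := hT (tor ω)
    simp_rw [hφ]
    rw [sum_comm]
    have h3 : ∀ g : ZMod (2 ^ L), ∑ x, w g * φ (x - g) = w g * ∑ x, φ x := by
      intro g
      rw [← mul_sum]
      congr 1
      exact Fintype.sum_equiv (Equiv.subRight g) _ _ fun _ => rfl
    simp_rw [h3]
    rw [← sum_mul]
    have h4 : ∑ g, w g = 0 := by
      have h5 := hw.zero 0 (Or.inl (by simp)) (by simp)
      unfold mu38 at h5
      simp only [Int.cast_zero, zero_mul, AddChar.map_zero_eq_one, mul_one] at h5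
      exact_mod_cast h5
    rw [h4, zero_mul]
  rw [h1, zero_div]

lemma cf_add74 {m L : ℕ} (H1 H2 : Pt m L → ℝ) (q : Fin (m + 1) → ℕ) (ω : Pt m L) :
    SBD.cf (fun ω => H1 ω + H2 ω) q ω = SBD.cf H1 q ω + SBD.cf H2 q ω := by
  unfold SBD.cf
  rw [← (eeb_36 m L).add]
  congr 1
  funext ω'
  ring

lemma cf_neg74 {m L : ℕ} (H : Pt m L → ℝ) (q : Fin (m + 1) → ℕ) (ω : Pt m L) :
    SBD.cf (fun ω => - H ω) q ω = - SBD.cf H q ω := by
  unfold SBD.cf
  have h := (eeb_36 m L).smul q (-1) (fun ω' => ps Finset.univ q ω' * H ω') ω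
  rw [neg_one_mul] at h
  rw [← h]
  congr 1
  funext ω'
  ring

lemma Av_sum74 {m L : ℕ} {ι : Type} (s : Finset ι) (φ : ι → Pt m L → ℝ) :
    Av (fun ω => ∑ i ∈ s, φ i ω) = ∑ i ∈ s, Av (φ i) := by
  unfold Av
  rw [sum_comm, sum_div]

lemma Av_add74 {m L : ℕ} (φ ψ : Pt m L → ℝ) : Av (fun ω => φ ω + ψ ω) = Av φ + Av ψ := by
  unfold Av
  rw [sum_add_distrib, add_div]

lemma Av_pol74 {m L : ℕ} (φ ψ χ : Pt m L → ℝ) (h : ∀ ω, φ ω = (ψ ω - χ ω) / 4) :
    Av φ = (Av ψ - Av χ) / 4 := by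
  have h1 : ∑ ω, φ ω = (∑ ω, ψ ω - ∑ ω, χ ω) / 4 := by
    rw [← sum_sub_distrib, sum_div]
    exact sum_congr rfl fun ω _ => h ω
  unfold Av
  rw [h1]
  ring

/-- Parseval, two functions -/
lemma pars2 (hC : StCfeK) {m L : ℕ} (H1 H2 : Pt m L → ℝ)
    (h1 : ∀ a ω, EE (one L a 0) H1 ω = 0) (h2 : ∀ a ω, EE (one L a 0) H2 ω = 0) :
    Av (fun ω => H1 ω * H2 ω) =
      ∑ q ∈ All m L, Av (fun ω => SBD.cf H1 q ω * SBD.cf H2 q ω) := by
  have h3 : ∀ a ω, EE (one L a 0) (fun ω => - H2 ω) ω = 0 := by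
    intro a ω
    have h := (eeb_36 m L).smul (one L a 0) (-1) H2 ω
    rw [h2, mul_zero] at h
    rw [← h]
    congr 1
    funext ω'
    ring
  have hp := (hC m L (fun ω => H1 ω + H2 ω) (fun a ω => by
    rw [(eeb_36 m L).add, h1, h2, add_zero])).2
  have hn := (hC m L (fun ω => H1 ω + - H2 ω) (fun a ω => by
    rw [(eeb_36 m L).add, h1, h3, add_zero])).2
  have e1 : Av (fun ω => H1 ω * H2 ω) = (Av (fun ω => (H1 ω + H2 ω) ^ 2) -
      Av (fun ω => (H1 ω + - H2 ω) ^ 2)) / 4 :=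
    Av_pol74 _ _ _ fun ω => by ring
  have e2 : ∀ q, Av (fun ω => SBD.cf H1 q ω * SBD.cf H2 q ω) =
      (Av (fun ω => (SBD.cf (fun ω => H1 ω + H2 ω) q ω) ^ 2) -
      Av (fun ω => (SBD.cf (fun ω => H1 ω + - H2 ω) q ω) ^ 2)) / 4 := by
    intro q
    refine Av_pol74 _ _ _ fun ω => ?_
    rw [cf_add74, cf_add74 H1 (fun ω => - H2 ω), cf_neg74]
    ring
  rw [e1, hp, hn, ← sum_sub_distrib, sum_div]
  exact sum_congr rfl fun q _ => (e2 q).symm

/-- duality for one block -/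
lemma block74 (hC : StCfeK) {m L : ℕ} (A : Finset (Fin (m + 1) → ℕ))
    (hA : ∀ l' ∈ A, ∀ a, 1 ≤ l' a ∧ 2 * l' a + 3 ≤ L) (l : Fin (m + 1) → ℕ) (hl : l ∈ A)
    (c : (Fin (m + 1) → ℤ) → ℂ)
    (hF : ∀ a ω, EE (one L a 0) (fun ω : Pt m L => ∑ l' ∈ A, bg c l' ω) ω = 0) :
    Av (fun ω : Pt m L => |bg c l ω|) ≤ 6 ^ (m + 1) * 262144 ^ (m + 1) *
      ∑ q ∈ All m L, (∏ a, (1 / 2 : ℝ) ^ dst (q a) (2 * l a)) *
        Av (fun ω : Pt m L => |SBD.cf (fun ω : Pt m L => ∑ l' ∈ A, bg c l' ω) q ω|) := by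
  classical
  have hl1 : ∀ a, 1 ≤ l a := fun a => (hA l hl a).1
  have hker : ∀ a, ∃ w : ZMod (2 ^ L) → ℝ, Ker L (2 * l a) w := fun a =>
    ker_ex (by have := hl1 a; omega) (by have := (hA l hl a).2; omega)
  choose w hw using hker
  set F : Pt m L → ℝ := fun ω => ∑ l' ∈ A, bg c l' ω with hFdef
  set σ : Tor (Fin (m + 1)) (2 ^ L) → ℝ := fun u => if 0 ≤ PT (N := 2 ^ L) (blkD l) c u then 1
    else -1 with hσdef
  have hσ1 : ∀ u, |σ u| ≤ 1 := by
    intro u
    rw [hσdef]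
    dsimp only
    split_ifs <;> simp
  have hσ2 : ∀ u, σ u * PT (N := 2 ^ L) (blkD l) c u = |PT (N := 2 ^ L) (blkD l) c u| := by
    intro u
    rw [hσdef]
    dsimp only
    split_ifs with h
    · rw [one_mul, abs_of_nonneg h]
    · rw [abs_of_neg (not_le.1 h)]
      ring
  obtain ⟨T, hT1, hT2, hT3⟩ := dual l w hl1 hw σ hσ1 univ
  have hT3' := hT3 A c hA
  have hfil : A.filter (fun l' => ∀ a ∈ (univ : Finset (Fin (m + 1))), l' a = l a) = {l} := by
    ext l'
    simp only [mem_filter, mem_univ, forall_true_left, mem_singleton]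
    constructor
    · rintro ⟨_, h⟩
      exact funext h
    · rintro rfl
      exact ⟨hl, fun _ => rfl⟩
  rw [hfil] at hT3'
  simp only [sum_singleton, hσ2] at hT3'
  have hTz : ∀ a u, IsZ (w a) (fun x => T (Function.update u a x)) := fun a u =>
    hT2 a (mem_univ a) u
  have hTb : ∀ ω : Pt m L, |T (tor ω)| ≤ 6 ^ (m + 1) := by
    intro ω
    have := hT1 (tor ω)
    rwa [card_univ, Fintype.card_fin] at this
  have e1 : Av (fun ω : Pt m L => |bg c l ω|) = Av (fun ω : Pt m L => T (tor ω) * F ω) := by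
    have h1 : Av (fun ω : Pt m L => |bg c l ω|) =
        Av (fun ω : Pt m L => |PT (N := 2 ^ L) (blkD l) c (tor ω)|) := by
      congr 1
      funext ω
      rw [PT_tor]
    have h2 : Av (fun ω : Pt m L => T (tor ω) * F ω) =
        Av (fun ω : Pt m L => T (tor ω) * ∑ l' ∈ A, PT (N := 2 ^ L) (blkD l') c (tor ω)) := by
      congr 1
      funext ω
      rw [hFdef]
      dsimp only
      congr 1
      exact sum_congr rfl fun l' _ => (PT_tor c l' ω).symm
    rw [h1, h2, Av_tor (fun u => |PT (N := 2 ^ L) (blkD l) c u|),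
      Av_tor (fun u => T u * ∑ l' ∈ A, PT (N := 2 ^ L) (blkD l') c u), hT3']
  rw [e1, pars2 hC (fun ω => T (tor ω)) F (fun a ω => mean_tor (hw a) a (hTz a) ω) hF, mul_sum]
  refine sum_le_sum fun q hq => ?_
  have hqL : ∀ a, q a < L := by
    intro a
    unfold All at hq
    rw [mem_fr] at hq
    exact hq.1 a (mem_univ a)
  have hb : ∀ ω : Pt m L, |SBD.cf (fun ω => T (tor ω)) q ω| ≤
      262144 ^ (m + 1) * (∏ a, (1 / 2 : ℝ) ^ dst (q a) (2 * l a)) * 6 ^ (m + 1) := fun ω =>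
    blke (fun a => 2 * l a) q w (fun ω => T (tor ω)) (6 ^ (m + 1))
      (fun a => by have := hl1 a; omega) (fun a => (hA l hl a).2) hqL hw
      (fun a ω => isE_tor a (hTz a) ω) hTb ω
  calc Av (fun ω => SBD.cf (fun ω => T (tor ω)) q ω * SBD.cf F q ω)
      ≤ Av (fun ω => (262144 ^ (m + 1) * (∏ a, (1 / 2 : ℝ) ^ dst (q a) (2 * l a)) *
          6 ^ (m + 1)) * |SBD.cf F q ω|) := by
        refine Av_mono fun ω => ?_
        refine (le_abs_self _).trans ?_
        rw [abs_mul]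
        exact mul_le_mul_of_nonneg_right (hb ω) (abs_nonneg _)
    _ = 6 ^ (m + 1) * 262144 ^ (m + 1) * ((∏ a, (1 / 2 : ℝ) ^ dst (q a) (2 * l a)) *
          Av (fun ω : Pt m L => |SBD.cf F q ω|)) := by
        rw [Av_smul]
        ring

end E74

open E74 in
/-- GRIDL -/
theorem gridl_74 (m : ℕ) (hm : 1 ≤ m) (p : ℝ) (hp : ((m : ℝ) - 1) / 2 ≤ p) (hE : StEndL m p)
    (hC : StCfeK) (hB : StBlkb) (hN : StNumK) (hG : StBgb) (hI : StIntK) (hS : StSupbD)
    (hP : StParD) : StGridL m p := by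
  obtain ⟨C1, hC1, hE⟩ := hE
  obtain ⟨C2, hC2, hB⟩ := hB m
  obtain ⟨C3, hC3, hN⟩ := hN (m + 1)
  have hm' : (1 : ℝ) ≤ m := by exact_mod_cast hm
  have hp0 : 0 ≤ p := le_trans (by linarith) hp
  refine ⟨6 ^ (m + 1) * 262144 ^ (m + 1) * C3 * (C2 * C3 * 6 ^ (m + 1)) * C1 * 3 ^ p + (m + 1),
    by positivity, ?_⟩
  intro M0 c M hM0 hM
  have hMn : 0 ≤ M := (abs_nonneg _).trans (hM 0)
  have hM0' : (1 : ℝ) ≤ M0 := by exact_mod_cast hM0
  obtain ⟨L, hLdef⟩ : ∃ L, L = 2 * M0 + 3 := ⟨_, rfl⟩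
  have hEeb : Eeb m L := eeb_36 m L
  -- positions
  have hpos : ∀ l ∈ inl (m + 1) M0, ∀ a, 1 ≤ l a ∧ 2 * l a + 3 ≤ L := by
    intro l hl a
    unfold inl at hl
    rw [mem_filter, Finset.Nat.mem_antidiagonalTuple] at hl
    refine ⟨hl.2 a, ?_⟩
    have := Finset.single_le_sum (f := l) (fun i _ => Nat.zero_le _) (Finset.mem_univ a)
    omega
  have hsub : ∀ l ∈ inl (m + 1) M0, l ∈ Finset.Nat.antidiagonalTuple (m + 1) M0 := fun l hl => by
    unfold inl at hl
    exact (mem_filter.1 hl).1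
  -- bounds
  have hbl : ∀ l ∈ inl (m + 1) M0, ∀ ω : Pt m L, |bg c l ω| ≤ 6 ^ (m + 1) * M := by
    intro l hl ω
    subst hLdef
    rw [← PT_tor]
    exact hS (m + 1) M0 l c M (hsub l hl) hM (tor ω)
  have hFm : ∀ ω : Pt m L, |∑ l ∈ Finset.Nat.antidiagonalTuple (m + 1) M0, bg c l ω| ≤ M := by
    intro ω
    subst hLdef
    have h1 := hM (tor ω)
    unfold FmD at h1
    have h2 : ∑ l ∈ Finset.Nat.antidiagonalTuple (m + 1) M0, PT (blkD l) c (tor ω) =
        ∑ l ∈ Finset.Nat.antidiagonalTuple (m + 1) M0, bg c l ω :=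
      sum_congr rfl fun l _ => PT_tor c l ω
    rwa [h2] at h1
  set F : Pt m L → ℝ := fun ω => ∑ l ∈ inl (m + 1) M0, bg c l ω with hFdef
  have hF2 : ∀ ω, |F ω| ≤ 2 ^ (m + 1) * M := hI m M0 L c M (by omega) hFm
  have hFE : ∀ a ω, EE (one L a 0) F ω = 0 := by
    intro a ω
    have h1 : EE (one L a 0) F ω = ∑ l ∈ inl (m + 1) M0, EE (one L a 0) (bg c l) ω := by
      rw [hFdef]
      unfold EE
      rw [← Finset.sum_div]
      congr 1
      rw [Finset.sum_comm]
      refine Finset.sum_congr rfl fun ω' _ => ?_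
      split_ifs
      · rfl
      · simp
    rw [h1]
    exact Finset.sum_eq_zero fun l hl => (hG m M0 L c l hl (by omega)).2 a ω
  have hcf : ∀ q : Fin (m + 1) → ℕ, (∀ a, q a < L) → ∀ ω,
      |SBD.cf F q ω| ≤ C2 * C3 * (6 ^ (m + 1) * M) * kap (2 * M0) q := by
    intro q hq ω
    rw [hFdef, cf_sum33]
    refine (Finset.abs_sum_le_sum_abs _ _).trans ?_
    have h1 : ∀ l ∈ inl (m + 1) M0, |SBD.cf (bg c l) q ω| ≤
        C2 * (∏ a, (1 / 2 : ℝ) ^ dst (q a) (2 * l a)) * (6 ^ (m + 1) * M) := by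
      intro l hl
      exact hB L (fun a => 2 * l a) q (bg c l) (6 ^ (m + 1) * M)
        (fun a => by have := (hpos l hl a).1; omega) (fun a => by have := (hpos l hl a).2; omega) hq
        (hG m M0 L c l hl (by omega)).1 (hbl l hl) ω
    refine (Finset.sum_le_sum h1).trans ?_
    have h2 : ∑ l ∈ inl (m + 1) M0,
        C2 * (∏ a, (1 / 2 : ℝ) ^ dst (q a) (2 * l a)) * (6 ^ (m + 1) * M) =
        C2 * (6 ^ (m + 1) * M) *
          ∑ l ∈ inl (m + 1) M0, ∏ a, (1 / 2 : ℝ) ^ dst (q a) (2 * l a) := by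
      rw [Finset.mul_sum]
      refine Finset.sum_congr rfl fun l _ => ?_
      ring
    rw [h2]
    have h3 : ∑ l ∈ inl (m + 1) M0, ∏ a, (1 / 2 : ℝ) ^ dst (q a) (2 * l a) ≤
        C3 * kap (2 * M0) q := by
      refine le_trans ?_ (hN M0 q)
      unfold inl
      exact Finset.sum_le_sum_of_subset_of_nonneg (Finset.filter_subset _ _)
        fun l _ _ => by positivity
    calc C2 * (6 ^ (m + 1) * M) * ∑ l ∈ inl (m + 1) M0, ∏ a, (1 / 2 : ℝ) ^ dst (q a) (2 * l a)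
        ≤ C2 * (6 ^ (m + 1) * M) * (C3 * kap (2 * M0) q) := by gcongr
      _ = C2 * C3 * (6 ^ (m + 1) * M) * kap (2 * M0) q := by ring
  -- the interior blocks
  set K : ℝ := 6 ^ (m + 1) * 262144 ^ (m + 1) with hK
  set B : ℝ := C2 * C3 * (6 ^ (m + 1) * M) with hBdef
  have hint : ∑ l ∈ inl (m + 1) M0, Av (fun ω : Pt m L => |bg c l ω|) ≤
      K * C3 * B * C1 * (L : ℝ) ^ p := by
    rcases hMn.eq_or_lt with hM00 | hMpos
    · have h1 : ∀ l ∈ inl (m + 1) M0, Av (fun ω : Pt m L => |bg c l ω|) = 0 := by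
        intro l hl
        have h2 : (fun ω : Pt m L => |bg c l ω|) = fun _ => 0 := by
          funext ω
          have h3 := hbl l hl ω
          rw [← hM00, mul_zero] at h3
          exact le_antisymm h3 (abs_nonneg _)
        rw [h2, Av_const]
      rw [sum_eq_zero h1]
      positivity
    have hB0 : 0 < B := by positivity
    classical
    set v : (Fin (m + 1) → ℕ) → Pt m L → ℝ := fun q ω =>
      if ∀ a, q a < L then SBD.cf F q ω / B else 0 with hv
    have hArK : ArK (2 * M0) v := by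
      constructor
      · intro q ω
        rw [hv]
        dsimp only
        split_ifs with h
        · rw [abs_div, abs_of_pos hB0, div_le_iff₀ hB0, mul_comm (kap _ _)]
          exact hcf q h ω
        · rw [abs_zero]
          exact (kap_pos33 _ _).le
      · intro q
        rw [hv]
        dsimp only
        by_cases h : ∀ a, q a < L
        · simp only [h, implies_true, if_true]
          exact Ms.comp (hEeb.ms q _) (fun x => x / B)
        · simp only [h, if_false]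
          exact Ms.cst q 0
    have hmem : ∀ q ∈ All m L, ∀ a, q a < L := by
      intro q hq a
      unfold All at hq
      rw [mem_fr] at hq
      exact hq.1 a (Finset.mem_univ a)
    have hexp := (hC m L F hFE).1
    have hHH : ∀ ω, HH v ω = F ω / B := by
      intro ω
      rw [HH_eq33, hexp ω, Finset.sum_div]
      refine Finset.sum_congr rfl fun q hq => ?_
      rw [hv]
      dsimp only
      rw [if_pos (hmem q hq), mul_div_assoc]
    have hFB : ∀ ω, |HH v ω| ≤ 1 := by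
      intro ω
      rw [hHH, abs_div, abs_of_pos hB0, div_le_one hB0]
      refine (hF2 ω).trans ?_
      have h1 : (2 : ℝ) ^ (m + 1) ≤ 6 ^ (m + 1) := pow_le_pow_left₀ (by norm_num) (by norm_num) _
      have h2 : (1 : ℝ) ≤ C2 * C3 := one_le_mul_of_one_le_of_one_le hC2 hC3
      calc 2 ^ (m + 1) * M ≤ 6 ^ (m + 1) * M := by gcongr
        _ ≤ C2 * C3 * (6 ^ (m + 1) * M) := le_mul_of_one_le_left (by positivity) h2
    have hend := hE L (2 * M0) v (by omega) hArK hFB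
    have hcfS : ∑ q ∈ All m L, Av (fun ω => |SBD.cf F q ω|) ≤ B * (C1 * (L : ℝ) ^ p) := by
      have h1 : ∀ q ∈ All m L, Av (fun ω => |SBD.cf F q ω|) = B * Av (fun ω => |v q ω|) := by
        intro q hq
        rw [← Av_smul]
        congr 1
        funext ω
        rw [hv]
        dsimp only
        rw [if_pos (hmem q hq), abs_div, abs_of_pos hB0]
        field_simp
      rw [sum_congr rfl h1, ← mul_sum]
      exact mul_le_mul_of_nonneg_left hend hB0.le
    calc ∑ l ∈ inl (m + 1) M0, Av (fun ω : Pt m L => |bg c l ω|)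
        ≤ ∑ l ∈ inl (m + 1) M0, K * ∑ q ∈ All m L,
            (∏ a, (1 / 2 : ℝ) ^ dst (q a) (2 * l a)) * Av (fun ω => |SBD.cf F q ω|) :=
          sum_le_sum fun l hl => block74 hC (inl (m + 1) M0) hpos l hl c hFE
      _ = K * ∑ q ∈ All m L, (∑ l ∈ inl (m + 1) M0, ∏ a, (1 / 2 : ℝ) ^ dst (q a) (2 * l a)) *
            Av (fun ω => |SBD.cf F q ω|) := by
          rw [← mul_sum, sum_comm]
          congr 1
          exact sum_congr rfl fun q _ => by rw [sum_mul]
      _ ≤ K * ∑ q ∈ All m L, C3 * Av (fun ω => |SBD.cf F q ω|) := by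
          refine mul_le_mul_of_nonneg_left (sum_le_sum fun q _ => ?_) (by positivity)
          refine mul_le_mul_of_nonneg_right ?_ ?_
          · refine le_trans ?_ ((hN M0 q).trans ?_)
            · unfold inl
              exact Finset.sum_le_sum_of_subset_of_nonneg (Finset.filter_subset _ _)
                fun l _ _ => by positivity
            · refine mul_le_of_le_one_right (by positivity) ?_
              unfold kap
              exact pow_le_one₀ (by norm_num) (by norm_num)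
          · have := Av_mono (φ := fun _ : Pt m L => (0 : ℝ)) (ψ := fun ω => |SBD.cf F q ω|)
              fun ω => abs_nonneg _
            rwa [Av_const] at this
      _ ≤ K * (C3 * (B * (C1 * (L : ℝ) ^ p))) := by
          rw [← mul_sum]
          gcongr
      _ = K * C3 * B * C1 * (L : ℝ) ^ p := by ring
  -- back to the torus
  have hS1 : ∀ l, S1 (PT (N := 2 ^ L) (blkD l) c) =
      (2 ^ L) ^ (m + 1) * Av (fun ω : Pt m L => |bg c l ω|) := by
    intro l
    have h1 : Av (fun ω : Pt m L => |bg c l ω|) = S1 (PT (N := 2 ^ L) (blkD l) c) /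
        2 ^ ((m + 1) * L) := by
      have h2 : Av (fun ω : Pt m L => |bg c l ω|) =
          Av (fun ω : Pt m L => |PT (N := 2 ^ L) (blkD l) c (tor ω)|) := by
        congr 1
        funext ω
        rw [PT_tor]
      rw [h2, Av_tor (fun u => |PT (N := 2 ^ L) (blkD l) c u|)]
      rfl
    rw [h1, mul_comm (m + 1) L, pow_mul]
    field_simp
  have hbd := D30.boundary hP m M0 hm c M hM hMn
  have hsplit : ∑ l ∈ Finset.Nat.antidiagonalTuple (m + 1) M0,
      S1 (PT (N := 2 ^ (2 * M0 + 3)) (blkD l) c) =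
      ∑ l ∈ inl (m + 1) M0, S1 (PT (N := 2 ^ (2 * M0 + 3)) (blkD l) c) +
      ∑ l ∈ (Finset.Nat.antidiagonalTuple (m + 1) M0).filter (fun l => ¬ ∀ j, 1 ≤ l j),
        S1 (PT (N := 2 ^ (2 * M0 + 3)) (blkD l) c) := by
    unfold inl
    rw [sum_filter_add_sum_filter_not]
  have hLp : ((L : ℕ) : ℝ) ^ p ≤ 3 ^ p * (((2 * M0 : ℕ) : ℝ)) ^ p := by
    rw [← Real.mul_rpow (by norm_num) (by positivity)]
    refine Real.rpow_le_rpow (by positivity) ?_ hp0
    rw [hLdef]
    push_cast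
    linarith
  have hsq : Real.sqrt ((m + 1) * ((M0 : ℝ) + 1) ^ (m - 1)) ≤
      (m + 1) * (((2 * M0 : ℕ) : ℝ)) ^ p := by
    have h2M : (1 : ℝ) ≤ ((2 * M0 : ℕ) : ℝ) := by
      push_cast
      linarith
    have h1 : ((M0 : ℝ) + 1) ^ (m - 1) ≤ ((((2 * M0 : ℕ) : ℝ)) ^ p) ^ 2 := by
      calc ((M0 : ℝ) + 1) ^ (m - 1) ≤ (((2 * M0 : ℕ) : ℝ)) ^ (m - 1) := by
            refine pow_le_pow_left₀ (by positivity) ?_ _
            push_cast
            linarith
        _ = (((2 * M0 : ℕ) : ℝ)) ^ ((m : ℝ) - 1) := by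
            rw [← Real.rpow_natCast, Nat.cast_sub hm, Nat.cast_one]
        _ ≤ (((2 * M0 : ℕ) : ℝ)) ^ (p * 2) := Real.rpow_le_rpow_of_exponent_le h2M (by linarith)
        _ = ((((2 * M0 : ℕ) : ℝ)) ^ p) ^ 2 := by
            rw [Real.rpow_mul (by positivity)]
            norm_num
    rw [Real.sqrt_le_left (by positivity), mul_pow]
    have h3 : ((m : ℝ) + 1) ≤ ((m : ℝ) + 1) ^ 2 := by nlinarith
    calc ((m : ℝ) + 1) * ((M0 : ℝ) + 1) ^ (m - 1)
        ≤ ((m : ℝ) + 1) ^ 2 * ((((2 * M0 : ℕ) : ℝ)) ^ p) ^ 2 :=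
          mul_le_mul h3 h1 (by positivity) (by positivity)
      _ = _ := rfl
  have hNpos : (0 : ℝ) ≤ (2 ^ L) ^ (m + 1) := by positivity
  have hint2 : ∑ l ∈ inl (m + 1) M0, S1 (PT (N := 2 ^ (2 * M0 + 3)) (blkD l) c) ≤
      K * C3 * B * C1 * (3 ^ p * (((2 * M0 : ℕ) : ℝ)) ^ p) * (2 ^ (2 * M0 + 3)) ^ (m + 1) := by
    have h1 : ∑ l ∈ inl (m + 1) M0, S1 (PT (N := 2 ^ L) (blkD l) c) =
        (2 ^ L) ^ (m + 1) * ∑ l ∈ inl (m + 1) M0, Av (fun ω : Pt m L => |bg c l ω|) := by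
      rw [mul_sum]
      exact sum_congr rfl fun l _ => hS1 l
    have h2 : ∑ l ∈ inl (m + 1) M0, S1 (PT (N := 2 ^ L) (blkD l) c) ≤
        K * C3 * B * C1 * (3 ^ p * (((2 * M0 : ℕ) : ℝ)) ^ p) * (2 ^ L) ^ (m + 1) := by
      rw [h1, mul_comm]
      refine mul_le_mul_of_nonneg_right (hint.trans ?_) hNpos
      refine mul_le_mul_of_nonneg_left hLp (by positivity)
    subst hLdef
    exact h2
  rw [hsplit]
  calc _ ≤ K * C3 * B * C1 * (3 ^ p * (((2 * M0 : ℕ) : ℝ)) ^ p) * (2 ^ (2 * M0 + 3)) ^ (m + 1) +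
        (m + 1) * (((2 * M0 : ℕ) : ℝ)) ^ p * (M * (2 ^ (2 * M0 + 3)) ^ (m + 1)) := by
        refine add_le_add hint2 (hbd.trans ?_)
        exact mul_le_mul_of_nonneg_right hsq (by positivity)
    _ = (K * C3 * (C2 * C3 * 6 ^ (m + 1)) * C1 * 3 ^ p + (m + 1)) *
        (((2 * M0 : ℕ) : ℝ)) ^ p * M * (2 ^ (2 * M0 + 3)) ^ (m + 1) := by
        rw [hBdef]
        ring

end Pool.Agent.SHD
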