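import Pool.Agent.Lib.MP_a7b2aa_an.SHD.Stmts65
import Pool.Agent.Lib.MP_a7b2aa_an.SBT.Fej30
import Pool.Agent.Lib.MP_a7b2aa_an.SBT.Vp30
import Pool.Agent.Lib.MP_a7b2aa_an.SBT.Inv76

/-!
SHD (helper75): K1D, decay of the Haar coefficients of a trigonometric polynomial in both
directions, one variable.
-/

set_option autoImplicit false
set_option linter.unusedSectionVars false

namespace Pool.Agent.SHD

open Finset Pool.Agent.SB3 Pool.Agent.SBT Pool.Agent.SBD

namespace K75

/-- the integer with the binary digits `y` -/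
def vl {L : ℕ} (y : Y L) : ℕ := ∑ r ∈ range L, if bit y r then 2 ^ (L - 1 - r) else 0

lemma bit_pre {L : ℕ} (t r : ℕ) (y : Y L) : bit (pre t y) r = if r < t then bit y r else false := by
  unfold bit pre
  by_cases h : r < L
  · simp [h]
  · simp [h]

/-- the point with the first `t` digits of `y`, digit `t` equal to `b`, and then zeros -/
def ex {L : ℕ} (t : ℕ) (b : Bool) (y : Y L) : Y L := fun i =>
  if (i : ℕ) < t then y i else if (i : ℕ) = t then b else false

lemma bit_ex {L : ℕ} (t : ℕ) (ht : t < L) (b : Bool) (y : Y L) (r : ℕ) :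
    bit (ex t b y) r = if r < t then bit y r else if r = t then b else false := by
  unfold bit ex
  by_cases h : r < L
  · simp [h]
  · have h1 : ¬ r < t := by omega
    have h2 : r ≠ t := by omega
    simp [h, h1, h2]

lemma pre_succ_ex {L : ℕ} (t : ℕ) (b : Bool) (y : Y L) : pre (t + 1) (ex t b y) = ex t b y := by
  unfold pre ex
  funext i
  by_cases h : (i : ℕ) < t
  · simp [h, Nat.lt_succ_of_lt h]
  · by_cases h2 : (i : ℕ) = t
    · simp [h2]
    · have h3 : ¬ (i : ℕ) < t + 1 := by omega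
      simp [h, h2, h3]

lemma cls_iff {L : ℕ} (t : ℕ) (ht : t < L) (b : Bool) (y y' : Y L) :
    pre (t + 1) y' = pre (t + 1) (ex t b y) ↔ pre t y' = pre t y ∧ bit y' t = b := by
  constructor
  · intro h
    have h1 : ∀ i : Fin L, (pre (t + 1) y') i = (pre (t + 1) (ex t b y)) i := fun i => congrFun h i
    constructor
    · funext i
      by_cases hi : (i : ℕ) < t
      · have := h1 i
        simp only [pre, ex, hi, Nat.lt_succ_of_lt hi, if_true] at this ⊢
        exact this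
      · simp [pre, hi]
    · have := h1 ⟨t, ht⟩
      simp only [pre, ex, Nat.lt_succ_self, if_true, lt_irrefl, if_false] at this
      simp [bit, ht, this]
  · rintro ⟨h1, h2⟩
    funext i
    by_cases hi : (i : ℕ) < t
    · have := congrFun h1 i
      simp only [pre, ex, hi, Nat.lt_succ_of_lt hi, if_true] at this ⊢
      exact this
    · by_cases hi2 : (i : ℕ) = t
      · have h3 : y' i = b := by
          rw [← h2]
          unfold bit
          rw [dif_pos ht]
          congr 1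
          exact Fin.ext hi2
        simp [pre, ex, hi2, h3]
      · have h3 : ¬ (i : ℕ) < t + 1 := by omega
        simp [pre, h3]

lemma vl_pre {L : ℕ} (t : ℕ) (ht : t < L) (b : Bool) (y : Y L) :
    vl (ex t b y) = vl (pre t y) + if b then 2 ^ (L - 1 - t) else 0 := by
  unfold vl
  have h : ∀ r ∈ range L, (if bit (ex t b y) r then 2 ^ (L - 1 - r) else 0) =
      (if bit (pre t y) r then 2 ^ (L - 1 - r) else 0) +
        (if r = t then (if b then 2 ^ (L - 1 - t) else 0) else 0) := by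
    intro r _
    rw [bit_ex t ht, bit_pre]
    by_cases h1 : r < t
    · have h2 : r ≠ t := by omega
      simp [h1, h2]
    · by_cases h2 : r = t
      · subst h2
        simp
      · simp [h1, h2]
  rw [sum_congr rfl h, sum_add_distrib, sum_ite_eq' (range L) t, if_pos (mem_range.2 ht)]

/-- the sum over a class is a sum over an interval -/
lemma cls_sum {L : ℕ} (F : ℕ → ℝ) : ∀ (w t : ℕ), t + w = L → ∀ y : Y L,
    ∑ y' : Y L, (if pre t y' = pre t y then F (vl y') else 0) =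
      ∑ i ∈ range (2 ^ w), F (vl (pre t y) + i) := by
  intro w
  induction w with
  | zero =>
    intro t ht y
    have h1 : ∀ y' : Y L, pre t y' = y' := by
      intro y'
      funext i
      have : (i : ℕ) < t := by have := i.2; omega
      simp [pre, this]
    simp [h1]
  | succ w ih =>
    intro t ht y
    have htL : t < L := by omega
    have h1 : ∀ y' : Y L, (if pre t y' = pre t y then F (vl y') else 0) =
        (if pre (t + 1) y' = pre (t + 1) (ex t false y) then F (vl y') else 0) +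
        (if pre (t + 1) y' = pre (t + 1) (ex t true y) then F (vl y') else 0) := by
      intro y'
      simp only [cls_iff t htL]
      by_cases h : pre t y' = pre t y
      · cases hb : bit y' t <;> simp [h]
      · simp [h]
    rw [sum_congr rfl (fun y' _ => h1 y'), sum_add_distrib, ih (t + 1) (by omega),
      ih (t + 1) (by omega), pre_succ_ex, pre_succ_ex, vl_pre t htL, vl_pre t htL]
    have h2 : L - 1 - t = w := by omega
    rw [h2, pow_succ, mul_two, sum_range_add]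
    simp [add_assoc]

lemma cls_sgn {L : ℕ} (F : ℕ → ℝ) (w t : ℕ) (ht : t + (w + 1) = L) (y : Y L) :
    ∑ y' : Y L, (if pre t y' = pre t y then sgr (bit y' t) * F (vl y') else 0) =
      ∑ i ∈ range (2 ^ w), F (vl (pre t y) + 2 ^ w + i) -
        ∑ i ∈ range (2 ^ w), F (vl (pre t y) + i) := by
  have htL : t < L := by omega
  have h1 : ∀ y' : Y L, (if pre t y' = pre t y then sgr (bit y' t) * F (vl y') else 0) =
      (if pre (t + 1) y' = pre (t + 1) (ex t true y) then F (vl y') else 0) -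
      (if pre (t + 1) y' = pre (t + 1) (ex t false y) then F (vl y') else 0) := by
    intro y'
    simp only [cls_iff t htL]
    by_cases h : pre t y' = pre t y
    · cases hb : bit y' t <;> simp [h, sgr]
    · simp [h]
  rw [sum_congr rfl (fun y' _ => h1 y'), sum_sub_distrib, cls_sum F w (t + 1) (by omega),
    cls_sum F w (t + 1) (by omega), pre_succ_ex, pre_succ_ex, vl_pre t htL, vl_pre t htL]
  have h2 : L - 1 - t = w := by omega
  rw [h2]
  simp

lemma vl_surj {L : ℕ} (u : ℕ) (hu : u < 2 ^ L) : ∃ y : Y L, vl y = u := by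
  by_contra hcon
  push Not at hcon
  have h := cls_sum (L := L) (fun i => if i = u then 1 else 0) L 0 (by omega) (fun _ => false)
  have h1 : ∑ y' : Y L, (if pre 0 y' = pre 0 (fun _ => false) then
      (if vl y' = u then (1 : ℝ) else 0) else 0) = 0 := by
    apply sum_eq_zero
    intro y' _
    simp [hcon y']
  have h2 : vl (pre 0 (fun _ => false) : Y L) = 0 := by
    unfold vl
    apply sum_eq_zero
    intro r _
    rw [bit_pre]
    simp
  rw [h1, h2] at h
  simp only [zero_add, sum_ite_eq', mem_range, hu, if_true] at h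
  exact zero_ne_one h

lemma gpt_eq {L : ℕ} (y : Y L) : gpt y = 2 * Real.pi * (vl y : ℝ) / 2 ^ L := by
  unfold gpt vl
  push_cast
  rw [mul_sum, sum_div]
  apply sum_congr rfl
  intro r hr
  rw [mem_range] at hr
  split_ifs
  · have h1 : (2 : ℝ) ^ L = 2 ^ (r + 1) * 2 ^ (L - 1 - r) := by
      rw [← pow_add]
      congr 1
      omega
    rw [h1]
    field_simp
  · simp

/-- the polynomial on the cyclic group -/
noncomputable def PZ (N s : ℕ) [NeZero N] (c : ℤ → ℂ) (x : ZMod N) : ℝ :=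
  (∑ k ∈ Bl s, c k * (ZMod.stdAddChar ((k : ZMod N) * x) : ℂ)).re

lemma char_nat (N : ℕ) [NeZero N] (k : ℤ) (u : ℕ) :
    (ZMod.stdAddChar ((k : ZMod N) * ((u : ℕ) : ZMod N)) : ℂ) =
      Complex.exp (Complex.I * ((2 * Real.pi * k * u / N : ℝ) : ℂ)) := by
  have e : ((k : ZMod N) * ((u : ℕ) : ZMod N)) = (((k * u : ℤ)) : ZMod N) := by
    push_cast
    ring
  rw [e, ZMod.stdAddChar_coe]
  congr 1
  push_cast
  ring

lemma PZ_vl {L s : ℕ} (c : ℤ → ℂ) (y : Y L) :
    (∑ k ∈ Bl s, c k * Complex.exp (Complex.I * (((k : ℝ) * gpt y : ℝ) : ℂ))).re =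
      PZ (2 ^ L) s c ((vl y : ℕ) : ZMod (2 ^ L)) := by
  unfold PZ
  congr 1
  apply sum_congr rfl
  intro k _
  rw [char_nat, gpt_eq]
  congr 3
  push_cast
  ring

lemma mul_PZ (N s : ℕ) [NeZero N] (c : ℤ → ℂ) {σ : Type} (S : Finset σ) (v : σ → ℝ) (g : σ → ZMod N)
    (x : ZMod N) (z : ℂ)
    (h : ∀ k ∈ Bl s, ∑ i ∈ S, (v i : ℂ) * (ZMod.stdAddChar ((k : ZMod N) * g i) : ℂ) = z) :
    ((∑ i ∈ S, v i * PZ N s c (x + g i) : ℝ)) =
      (z * ∑ k ∈ Bl s, c k * (ZMod.stdAddChar ((k : ZMod N) * x) : ℂ)).re := by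
  have h1 : ∀ i, v i * PZ N s c (x + g i) =
      (∑ k ∈ Bl s, c k * (ZMod.stdAddChar ((k : ZMod N) * x) : ℂ) *
        ((v i : ℂ) * (ZMod.stdAddChar ((k : ZMod N) * g i) : ℂ))).re := by
    intro i
    unfold PZ
    rw [← Complex.re_ofReal_mul, mul_sum]
    congr 1
    apply sum_congr rfl
    intro k _
    rw [mul_add, AddChar.map_add_eq_mul]
    ring
  rw [sum_congr rfl (fun i _ => h1 i), ← Complex.re_sum, sum_comm, mul_sum]
  congr 1
  apply sum_congr rfl
  intro k hk
  rw [← mul_sum, h k hk]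
  ring

lemma mem_Bl {s : ℕ} {k : ℤ} (h : k ∈ Bl s) : |k| < (2 : ℤ) ^ s ∧ (2 : ℤ) ^ s / 2 ≤ |k| := by
  unfold Bl at h
  rw [mem_filter, mem_Ioo] at h
  exact ⟨abs_lt.2 h.1, h.2⟩

/-- Bernstein's inequality for differences -/
lemma fine {L s : ℕ} (hsL : s + 2 ≤ L) (c : ℤ → ℂ) (D : ℝ)
    (hD : ∀ x, |PZ (2 ^ L) s c x| ≤ D) (J : ℕ) (x : ZMod (2 ^ L)) :
    |PZ (2 ^ L) s c (x + (J : ℕ)) - PZ (2 ^ L) s c x| ≤
      20 * Real.pi * 2 ^ s * J / 2 ^ L * D := by
  obtain ⟨v, _, hv2, _, hv4⟩ := vp_30 fej_30 (2 ^ L) (2 ^ s) Nat.one_le_two_pow (by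
    calc 4 * 2 ^ s = 2 ^ (s + 2) := by rw [pow_add]; ring
      _ ≤ 2 ^ L := Nat.pow_le_pow_right (by norm_num) hsL)
  have h1 : ∀ x : ZMod (2 ^ L), ∑ g, v g * PZ (2 ^ L) s c (x + g) = PZ (2 ^ L) s c x := by
    intro x
    have := mul_PZ (2 ^ L) s c univ v (fun g => g) x 1 (by
      intro k hk
      exact hv2 k (by push_cast; exact (mem_Bl hk).1.le))
    rw [this, one_mul]
    rfl
  have h2 : PZ (2 ^ L) s c (x + (J : ℕ)) - PZ (2 ^ L) s c x =
      ∑ g, (v g - v (g + (J : ZMod (2 ^ L)))) * PZ (2 ^ L) s c (x + (J : ℕ) + g) := by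
    have h3 : ∑ g, v (g + (J : ZMod (2 ^ L))) * PZ (2 ^ L) s c (x + (J : ℕ) + g) =
        PZ (2 ^ L) s c x := by
      rw [← h1 x, ← sum_add_30 (fun g => v g * PZ (2 ^ L) s c (x + g)) (J : ZMod (2 ^ L))]
      apply sum_congr rfl
      intro g _
      congr 2
      ring
    simp_rw [sub_mul]
    rw [sum_sub_distrib, h1, h3]
  have hD0 : 0 ≤ D := (abs_nonneg _).trans (hD 0)
  rw [h2]
  calc |∑ g, (v g - v (g + (J : ZMod (2 ^ L)))) * PZ (2 ^ L) s c (x + (J : ℕ) + g)|
      ≤ ∑ g, |(v g - v (g + (J : ZMod (2 ^ L)))) * PZ (2 ^ L) s c (x + (J : ℕ) + g)| :=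
        abs_sum_le_sum_abs _ _
    _ ≤ ∑ g, |v (g + (J : ZMod (2 ^ L))) - v g| * D := by
        apply sum_le_sum
        intro g _
        rw [abs_mul, abs_sub_comm]
        exact mul_le_mul_of_nonneg_left (hD _) (abs_nonneg _)
    _ ≤ 20 * Real.pi * 2 ^ s * J / 2 ^ L * D := by
        rw [← sum_mul]
        have := hv4 J
        push_cast at this
        exact mul_le_mul_of_nonneg_right this hD0

/-- the sum over `J` consecutive points -/
noncomputable def AJ (N s : ℕ) [NeZero N] (c : ℤ → ℂ) (J : ℕ) (x : ZMod N) : ℝ :=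
  ∑ i ∈ range J, PZ N s c (x + (i : ℕ))

lemma AJ_one (N s : ℕ) [NeZero N] (c : ℤ → ℂ) (D : ℝ) (hD : ∀ x, |PZ N s c x| ≤ D) (J : ℕ)
    (x : ZMod N) : |AJ N s c J (x + 1) - AJ N s c J x| ≤ 2 * D := by
  have h1 : ∀ n : ℕ, AJ N s c n (x + 1) - AJ N s c n x =
      PZ N s c (x + (n : ℕ)) - PZ N s c x := by
    intro n
    induction n with
    | zero => simp [AJ]
    | succ n ih =>
      have e1 : AJ N s c (n + 1) (x + 1) = AJ N s c n (x + 1) + PZ N s c (x + 1 + (n : ℕ)) := by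
        unfold AJ
        rw [sum_range_succ]
      have e2 : AJ N s c (n + 1) x = AJ N s c n x + PZ N s c (x + (n : ℕ)) := by
        unfold AJ
        rw [sum_range_succ]
      have e3 : x + 1 + ((n : ℕ) : ZMod N) = x + ((n + 1 : ℕ) : ZMod N) := by
        push_cast
        ring
      rw [e1, e2, e3]
      linarith
  rw [h1 J]
  have h2 := abs_sub (PZ N s c (x + (J : ℕ))) (PZ N s c x)
  linarith [hD (x + (J : ℕ)), hD x]

lemma AJ_add (N s : ℕ) [NeZero N] (c : ℤ → ℂ) (D : ℝ) (hD : ∀ x, |PZ N s c x| ≤ D) (J m : ℕ)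
    (x : ZMod N) : |AJ N s c J (x + (m : ℕ)) - AJ N s c J x| ≤ 2 * m * D := by
  induction m with
  | zero => simp
  | succ m ih =>
    have h1 := AJ_one N s c D hD J (x + (m : ℕ))
    have e : x + ((m + 1 : ℕ) : ZMod N) = x + (m : ℕ) + 1 := by
      push_cast
      ring
    rw [e]
    have h2 := abs_sub_le (AJ N s c J (x + (m : ℕ) + 1)) (AJ N s c J (x + (m : ℕ)))
      (AJ N s c J x)
    push_cast
    linarith

/-- the average over long intervals is small (Jackson kernel) -/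
lemma coarse {L s : ℕ} (hs : 2 ≤ s) (hsL : s + 2 ≤ L) (c : ℤ → ℂ) (D : ℝ)
    (hD : ∀ x, |PZ (2 ^ L) s c x| ≤ D) (J : ℕ) (x : ZMod (2 ^ L)) :
    |AJ (2 ^ L) s c J x| ≤ 2048 * 2 ^ (L - s - 1) * D := by
  have hD0 : 0 ≤ D := (abs_nonneg _).trans (hD 0)
  obtain ⟨K, hKdef⟩ : ∃ K : ℕ, K = 2 ^ (s - 2) := ⟨_, rfl⟩
  obtain ⟨h, hhdef⟩ : ∃ h : ℕ, h = 2 ^ (L - s - 1) := ⟨_, rfl⟩
  have hK : 0 < K := by rw [hKdef]; positivity
  have h4K : 4 * K = 2 ^ s := by
    rw [hKdef]
    calc 4 * 2 ^ (s - 2) = 2 ^ (s - 2 + 2) := by rw [pow_add]; ring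
      _ = 2 ^ s := by congr 1; omega
  have hN : 8 * K * h = 2 ^ L := by
    calc 8 * K * h = 2 * (4 * K) * h := by ring
      _ = 2 * 2 ^ s * 2 ^ (L - s - 1) := by rw [h4K, hhdef]
      _ = 2 ^ (1 + s + (L - s - 1)) := by rw [pow_add, pow_add]; ring
      _ = 2 ^ L := by congr 1; omega
  have hh0 : 0 < h := by rw [hhdef]; positivity
  have hchar : ∀ (k : ℤ) (j : ℕ), (ZMod.stdAddChar ((k : ZMod (2 ^ L)) *
      ((j * h : ℕ) : ZMod (2 ^ L))) : ℂ) = (I76.zt (8 * K) ^ k) ^ j := by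
    intro k j
    rw [char_nat, ← zpow_natCast, ← zpow_mul, I76.zt_zpow]
    congr 1
    have e : ((2 ^ L : ℕ) : ℂ) = 8 * K * h := by
      rw [← hN]
      push_cast
      ring
    have hK' : (K : ℂ) ≠ 0 := by exact_mod_cast hK.ne'
    have hh' : (h : ℂ) ≠ 0 := by exact_mod_cast hh0.ne'
    push_cast
    push_cast at e
    rw [e]
    field_simp
  have hz : ∀ x : ZMod (2 ^ L), ∑ j ∈ range (8 * K), I76.gw (8 * K) K j *
      PZ (2 ^ L) s c (x + ((j * h : ℕ) : ZMod (2 ^ L))) = 0 := by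
    intro x
    have := mul_PZ (2 ^ L) s c (range (8 * K)) (fun j => I76.gw (8 * K) K j)
      (fun j => ((j * h : ℕ) : ZMod (2 ^ L))) x 0 (by
        intro k hk
        have hb := mem_Bl hk
        have h4K' : (4 : ℤ) * K = 2 ^ s := by exact_mod_cast h4K
        have hv := I76.vanish K hK k (by
          have := hb.2
          rw [← h4K'] at this
          omega) (by rw [h4K']; exact hb.1)
        rw [← hv]
        apply sum_congr rfl
        intro j _
        rw [hchar]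
        ring)
    rw [this]
    simp
  have hA : ∑ j ∈ range (8 * K), I76.gw (8 * K) K j *
      AJ (2 ^ L) s c J (x + ((j * h : ℕ) : ZMod (2 ^ L))) = 0 := by
    unfold AJ
    simp_rw [mul_sum]
    rw [sum_comm]
    apply sum_eq_zero
    intro i _
    rw [← hz (x + (i : ℕ))]
    apply sum_congr rfl
    intro j _
    congr 2
    ring
  have hdiff : ∀ j ∈ range (8 * K), |AJ (2 ^ L) s c J x -
      AJ (2 ^ L) s c J (x + ((j * h : ℕ) : ZMod (2 ^ L)))| ≤
      2 * (I76.dst (8 * K) j * h) * D := by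
    intro j hj
    rw [mem_range] at hj
    rcases le_total j (8 * K - j) with hle | hle
    · have e : I76.dst (8 * K) j = j := by unfold I76.dst; omega
      rw [e, abs_sub_comm]
      have := AJ_add (2 ^ L) s c D hD J (j * h) x
      push_cast at this ⊢
      exact this
    · have e : I76.dst (8 * K) j = 8 * K - j := by unfold I76.dst; omega
      rw [e]
      have h1 := AJ_add (2 ^ L) s c D hD J ((8 * K - j) * h)
        (x + ((j * h : ℕ) : ZMod (2 ^ L)))
      have h2 : x + ((j * h : ℕ) : ZMod (2 ^ L)) + (((8 * K - j) * h : ℕ) : ZMod (2 ^ L)) = x := by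
        have h3 : j * h + (8 * K - j) * h = 2 ^ L := by
          rw [← add_mul, ← hN]
          congr 1
          omega
        rw [add_assoc, ← Nat.cast_add, h3, ZMod.natCast_self, add_zero]
      rw [h2] at h1
      push_cast at h1 ⊢
      exact h1
  have hW : (K : ℝ) ^ 4 ≤ ∑ j ∈ range (8 * K), I76.gw (8 * K) K j := by
    rw [← I76.gw_zero (8 * K) K]
    exact single_le_sum (f := fun j => I76.gw (8 * K) K j)
      (fun j _ => I76.gw_nonneg _ _ _) (mem_range.2 (by omega))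
  have hmom := I76.mom (8 * K) K (by omega)
  have hfin : (∑ j ∈ range (8 * K), I76.gw (8 * K) K j) * |AJ (2 ^ L) s c J x| ≤
      2048 * h * D * (K : ℝ) ^ 4 := by
    have hW0 : 0 ≤ ∑ j ∈ range (8 * K), I76.gw (8 * K) K j :=
      sum_nonneg fun j _ => I76.gw_nonneg _ _ _
    calc (∑ j ∈ range (8 * K), I76.gw (8 * K) K j) * |AJ (2 ^ L) s c J x|
        = |(∑ j ∈ range (8 * K), I76.gw (8 * K) K j) * AJ (2 ^ L) s c J x| := by
          rw [abs_mul, abs_of_nonneg hW0]
      _ = |∑ j ∈ range (8 * K), I76.gw (8 * K) K j * (AJ (2 ^ L) s c J x -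
            AJ (2 ^ L) s c J (x + ((j * h : ℕ) : ZMod (2 ^ L))))| := by
          congr 1
          simp_rw [mul_sub]
          rw [sum_sub_distrib, hA, sub_zero, sum_mul]
      _ ≤ ∑ j ∈ range (8 * K), |I76.gw (8 * K) K j * (AJ (2 ^ L) s c J x -
            AJ (2 ^ L) s c J (x + ((j * h : ℕ) : ZMod (2 ^ L))))| := abs_sum_le_sum_abs _ _
      _ ≤ ∑ j ∈ range (8 * K), 2 * h * D * (I76.gw (8 * K) K j * I76.dst (8 * K) j) := by
          apply sum_le_sum
          intro j hj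
          rw [abs_mul, abs_of_nonneg (I76.gw_nonneg _ _ _)]
          calc I76.gw (8 * K) K j * _ ≤ I76.gw (8 * K) K j * (2 * (I76.dst (8 * K) j * h) * D) :=
                mul_le_mul_of_nonneg_left (hdiff j hj) (I76.gw_nonneg _ _ _)
            _ = _ := by ring
      _ ≤ 2048 * h * D * (K : ℝ) ^ 4 := by
          rw [← mul_sum]
          have h5 : 0 ≤ 2 * (h : ℝ) * D := by positivity
          refine (mul_le_mul_of_nonneg_left hmom h5).trans (le_of_eq ?_)
          push_cast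
          ring
  have hK4 : (0 : ℝ) < (K : ℝ) ^ 4 := by
    have : (0 : ℝ) < K := by exact_mod_cast hK
    positivity
  have h6 : (K : ℝ) ^ 4 * |AJ (2 ^ L) s c J x| ≤ (K : ℝ) ^ 4 * (2048 * h * D) := by
    calc (K : ℝ) ^ 4 * |AJ (2 ^ L) s c J x| ≤ _ := mul_le_mul_of_nonneg_right hW (abs_nonneg _)
      _ ≤ _ := hfin
      _ = _ := by ring
  have h7 := le_of_mul_le_mul_left h6 hK4
  rw [hhdef] at h7
  push_cast at h7
  exact h7

end K75

open K75 in
theorem k1d_75 : StK1D := by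
  refine ⟨2048, by norm_num, ?_⟩
  intro L s t ψ D hs hsL ht hB hψ y
  obtain ⟨c, hc⟩ := hB
  have hψ2 : ∀ y : Y L, ψ y = PZ (2 ^ L) s c ((vl y : ℕ) : ZMod (2 ^ L)) := by
    intro y
    rw [hc y, PZ_vl]
  have hD : ∀ x, |PZ (2 ^ L) s c x| ≤ D := by
    intro x
    obtain ⟨y, hy⟩ := vl_surj (L := L) x.val (ZMod.val_lt x)
    have h1 := hψ y
    rw [hψ2, hy, ZMod.natCast_zmod_val] at h1
    exact h1
  have hD0 : 0 ≤ D := (abs_nonneg _).trans (hD 0)
  obtain ⟨w, hw⟩ : ∃ w, t + (w + 1) = L := ⟨L - t - 1, by omega⟩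
  have hLt : L - t = w + 1 := by omega
  have hDl : Dl t ψ y = (∑ i ∈ range (2 ^ w), (PZ (2 ^ L) s c (((vl (pre t y) + 2 ^ w + i : ℕ)) :
      ZMod (2 ^ L)) - PZ (2 ^ L) s c (((vl (pre t y) + i : ℕ)) : ZMod (2 ^ L)))) / 2 ^ (w + 1) := by
    unfold Dl
    rw [hLt, sum_sub_distrib, ← cls_sgn (fun u => PZ (2 ^ L) s c ((u : ℕ) : ZMod (2 ^ L))) w t hw y]
    simp_rw [hψ2]
  have hpw : (0 : ℝ) < 2 ^ (w + 1) := by positivity
  rw [hDl, abs_div, abs_of_pos hpw, div_le_iff₀ hpw]
  rcases le_or_gt s t with hst | hst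
  · have hd : dst t s = t - s := by unfold dst; omega
    rw [hd]
    have h1 : ∀ i ∈ range (2 ^ w), |PZ (2 ^ L) s c (((vl (pre t y) + 2 ^ w + i : ℕ)) :
        ZMod (2 ^ L)) - PZ (2 ^ L) s c (((vl (pre t y) + i : ℕ)) : ZMod (2 ^ L))| ≤
        20 * Real.pi * 2 ^ s * ((2 ^ w : ℕ) : ℝ) / 2 ^ L * D := by
      intro i _
      have e : (((vl (pre t y) + 2 ^ w + i : ℕ)) : ZMod (2 ^ L)) =
          (((vl (pre t y) + i : ℕ)) : ZMod (2 ^ L)) + ((2 ^ w : ℕ) : ZMod (2 ^ L)) := by
        push_cast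
        ring
      rw [e]
      exact fine hsL c D hD _ _
    have h2 : |∑ i ∈ range (2 ^ w), (PZ (2 ^ L) s c (((vl (pre t y) + 2 ^ w + i : ℕ)) :
      ZMod (2 ^ L)) - PZ (2 ^ L) s c (((vl (pre t y) + i : ℕ)) : ZMod (2 ^ L)))| ≤
        2 ^ w * (20 * Real.pi * 2 ^ s * ((2 ^ w : ℕ) : ℝ) / 2 ^ L * D) := by
      refine (abs_sum_le_sum_abs _ _).trans ((sum_le_sum h1).trans (le_of_eq ?_))
      rw [sum_const, card_range, nsmul_eq_mul]
      push_cast
      ring
    refine h2.trans ?_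
    have e1 : (2 : ℝ) ^ L = 2 ^ t * 2 ^ (w + 1) := by rw [← pow_add, hw]
    have e2 : (2 : ℝ) ^ t = 2 ^ s * 2 ^ (t - s) := by rw [← pow_add]; congr 1; omega
    have e3 : (1 / 2 : ℝ) ^ (t - s) = 1 / 2 ^ (t - s) := by rw [div_pow, one_pow]
    rw [e1, e2, e3]
    have hpi := Real.pi_le_four
    have h3 : (2 : ℝ) ^ w * (20 * Real.pi * 2 ^ s * ((2 ^ w : ℕ) : ℝ) /
        (2 ^ s * 2 ^ (t - s) * 2 ^ (w + 1)) * D) =
        5 * Real.pi * ((1 / 2 ^ (t - s)) * D * 2 ^ (w + 1)) := by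
      push_cast
      rw [pow_succ]
      field_simp
      ring
    have h4 : (0 : ℝ) ≤ (1 / 2 ^ (t - s)) * D * 2 ^ (w + 1) := by positivity
    rw [h3]
    nlinarith
  · have hd : dst t s = s - t := by unfold dst; omega
    rw [hd]
    have e3 : (1 / 2 : ℝ) ^ (s - t) = 1 / 2 ^ (s - t) := by rw [div_pow, one_pow]
    rw [e3]
    have hA : ∀ u : ℕ, ∑ i ∈ range (2 ^ w), PZ (2 ^ L) s c (((u + i : ℕ)) : ZMod (2 ^ L)) =
        AJ (2 ^ L) s c (2 ^ w) ((u : ℕ) : ZMod (2 ^ L)) := by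
      intro u
      unfold AJ
      apply sum_congr rfl
      intro i _
      push_cast
      rfl
    rw [sum_sub_distrib, hA (vl (pre t y) + 2 ^ w), hA (vl (pre t y))]
    refine (abs_sub _ _).trans ?_
    rcases le_or_gt 2 s with hs2 | hs2
    · have h1 := coarse hs2 hsL c D hD (2 ^ w) ((vl (pre t y) + 2 ^ w : ℕ) : ZMod (2 ^ L))
      have h2 := coarse hs2 hsL c D hD (2 ^ w) ((vl (pre t y) : ℕ) : ZMod (2 ^ L))
      have e4 : 2048 * (1 / 2 ^ (s - t)) * D * (2 : ℝ) ^ (w + 1) =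
          2 * (2048 * 2 ^ (L - s - 1) * D) := by
        have e5 : (2 : ℝ) ^ (w + 1) = 2 * 2 ^ (L - s - 1) * 2 ^ (s - t) := by
          calc (2 : ℝ) ^ (w + 1) = 2 ^ (1 + (L - s - 1) + (s - t)) := by congr 1; omega
            _ = _ := by rw [pow_add, pow_add]; ring
        rw [e5]
        field_simp
      rw [e4]
      linarith
    · have hs1 : s = 1 := by omega
      have ht0 : t = 0 := by omega
      have h1 : ∀ u : ℕ, |AJ (2 ^ L) s c (2 ^ w) ((u : ℕ) : ZMod (2 ^ L))| ≤ 2 ^ w * D := by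
        intro u
        unfold AJ
        refine (abs_sum_le_sum_abs _ _).trans
          ((sum_le_sum (fun i _ => hD _)).trans (le_of_eq ?_))
        rw [sum_const, card_range, nsmul_eq_mul]
        push_cast
        ring
      have h2 := h1 (vl (pre t y) + 2 ^ w)
      have h3 := h1 (vl (pre t y))
      have h4 : (0 : ℝ) ≤ 2 ^ w * D := by positivity
      have e5 : s - t = 1 := by omega
      have e6 : 2048 * (1 / 2 ^ 1) * D * (2 : ℝ) ^ (w + 1) = 2048 * (2 ^ w * D) := by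
        rw [pow_succ]
        ring
      rw [e5, e6]
      linarith

end Pool.Agent.SHD
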