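import Pool.Agent.Lib.MP_a7b2aa_an.SHD.Stmts65

/-!
SHD, module KAPK (helper38): sums of the weights.
-/

set_option autoImplicit false

namespace Pool.Agent.SHD

open Finset Pool.Agent.SB3 Pool.Agent.SBT Pool.Agent.SBD

namespace K38

/-- the two sided geometric sum, by a potential -/
theorem geom (x : ℝ) (h0 : 0 ≤ x) (h1 : x < 1) (N s L : ℕ) :
    ∑ t ∈ range L, x ^ dst (s + t) N ≤ (1 + x) / (1 - x) := by
  have hx : 0 < 1 - x := by linarith
  have key : ∀ L : ℕ, (1 - x) * ∑ t ∈ range L, x ^ dst (s + t) N =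
      (x * x ^ (N - (s + L)) - x ^ (s + L - N)) - (x * x ^ (N - s) - x ^ (s - N)) := by
    intro L
    induction L with
    | zero => simp
    | succ L ih =>
      rw [sum_range_succ, mul_add, ih]
      unfold dst
      rcases lt_or_ge (s + L) N with h | h
      · have e1 : s + L - N = 0 := by omega
        have e2 : s + (L + 1) - N = 0 := by omega
        obtain ⟨k, hk⟩ : ∃ k, N - (s + L) = k + 1 := ⟨N - (s + L) - 1, by omega⟩
        have e3 : N - (s + (L + 1)) = k := by omega
        rw [e1, e2, hk, e3, zero_add]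
        ring
      · have e1 : N - (s + L) = 0 := by omega
        have e2 : N - (s + (L + 1)) = 0 := by omega
        obtain ⟨k, hk⟩ : ∃ k, s + L - N = k := ⟨_, rfl⟩
        have e3 : s + (L + 1) - N = k + 1 := by omega
        rw [e1, e2, hk, e3, add_zero]
        ring
  rw [le_div_iff₀ hx, mul_comm, key L]
  have g1 : x * x ^ (N - (s + L)) ≤ x := by
    have := pow_le_one₀ h0 h1.le (n := N - (s + L))
    nlinarith
  have g2 : 0 ≤ x ^ (s + L - N) := pow_nonneg h0 _
  have g3 : 0 ≤ x * x ^ (N - s) := mul_nonneg h0 (pow_nonneg h0 _)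
  have g4 : x ^ (s - N) ≤ 1 := pow_le_one₀ h0 h1.le
  linarith

theorem geom1 (q : ℕ) : ∑ j ∈ range q, (7 / 8 : ℝ) ^ (q - j) ≤ 7 := by
  have key : ∑ j ∈ range q, (7 / 8 : ℝ) ^ (q - j) = 7 - 7 * (7 / 8 : ℝ) ^ q := by
    induction q with
    | zero => simp
    | succ q ih =>
      rw [sum_range_succ]
      have e1 : ∑ j ∈ range q, (7 / 8 : ℝ) ^ (q + 1 - j) =
          7 / 8 * ∑ j ∈ range q, (7 / 8 : ℝ) ^ (q - j) := by
        rw [mul_sum]
        refine sum_congr rfl fun j hj => ?_
        rw [mem_range] at hj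
        have e : q + 1 - j = (q - j) + 1 := by omega
        rw [e, pow_succ]
        ring
      rw [e1, ih]
      have e2 : q + 1 - q = 1 := by omega
      rw [e2, pow_succ]
      ring
  rw [key]
  have : 0 ≤ (7 / 8 : ℝ) ^ q := by positivity
  linarith

theorem sum_upd {m : ℕ} (q : Fin (m + 1) → ℕ) (a : Fin (m + 1)) (t : ℕ) :
    ∑ b, Function.update q a t b = ∑ b ∈ univ.erase a, q b + t := by
  rw [← sum_erase_add univ _ (mem_univ a), Function.update_self]
  congr 1
  refine sum_congr rfl fun b hb => ?_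
  rw [Function.update_of_ne (ne_of_mem_erase hb)]

/-- one coordinate at a time, all cells -/
theorem all_le {m L N : ℕ} (x : ℝ) (h0 : 0 ≤ x) (h1 : x < 1) :
    ∑ q ∈ All m L, x ^ dst (∑ a, q a) N ≤ (1 + x) / (1 - x) * (L : ℝ) ^ m := by
  unfold All
  have hu : (univ : Finset (Fin (m + 1))) = univ.erase 0 ∪ {0} := by
    ext b
    simp
  rw [hu, sum_fr_union (by simp)]
  have h2 : ∀ s ∈ fr L (univ.erase (0 : Fin (m + 1))) (fun _ => 0),
      ∑ r ∈ fr L {0} s, x ^ dst (∑ a, r a) N ≤ (1 + x) / (1 - x) := by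
    intro s _
    have e1 : ({0} : Finset (Fin (m + 1))) = insert 0 ∅ := by simp
    rw [e1, sum_fr_insert (by simp)]
    have e2 : ∀ t ∈ range L, ∑ r ∈ fr L ∅ (Function.update s 0 t), x ^ dst (∑ a, r a) N =
        x ^ dst (∑ b ∈ univ.erase 0, s b + t) N := by
      intro t _
      rw [fr_empty, sum_singleton, sum_upd]
    rw [sum_congr rfl e2]
    exact geom x h0 h1 N _ L
  rw [← hu] at *
  refine (sum_le_sum h2).trans ?_
  rw [sum_const, card_fr, nsmul_eq_mul, card_erase_of_mem (mem_univ _), card_univ,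
    Fintype.card_fin]
  push_cast
  rw [mul_comm]

end K38

open K38

theorem kapk_38 : StKapK := by
  classical
  intro m
  refine ⟨7 * 49 ^ m * 8, ?_, ?_⟩
  · have : (1 : ℝ) ≤ 49 ^ m := one_le_pow₀ (by norm_num)
    linarith
  intro L N
  refine ⟨?_, ?_, ?_⟩
  · intro q a
    unfold kap
    have e1 : ∀ t ∈ range L, (3 / 4 : ℝ) ^ dst (∑ b, Function.update q a t b) N =
        (3 / 4 : ℝ) ^ dst (∑ b ∈ univ.erase a, q b + t) N := by
      intro t _
      rw [sum_upd]
    rw [sum_congr rfl e1]
    refine (geom (3 / 4) (by norm_num) (by norm_num) N _ L).trans ?_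
    norm_num
  · have h := all_le (m := m) (L := L) (N := N) (3 / 4) (by norm_num) (by norm_num)
    unfold kap
    refine h.trans ?_
    norm_num
  · have hq : ∀ q ∈ All m L, kap N q ^ 2 * ∑ j ∈ range (q 0),
        (∑ r ∈ Fintype.piFinset (fun a => if a = 0 then {j} else range (q a)), kap N r) ^ 2 ≤
          7 * 49 ^ m * (49 / 64 : ℝ) ^ dst (∑ a, q a) N := by
      intro q _
      have h1 : ∀ j ∈ range (q 0), kap N q *
          ∑ r ∈ Fintype.piFinset (fun a => if a = 0 then {j} else range (q a)), kap N r ≤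
            (7 / 8 : ℝ) ^ dst (∑ a, q a) N * ((7 / 8 : ℝ) ^ (q 0 - j) * 7 ^ m) := by
        intro j hj
        rw [mem_range] at hj
        rw [mul_sum]
        have h2 : ∀ r ∈ Fintype.piFinset (fun a => if a = 0 then {j} else range (q a)),
            kap N q * kap N r ≤ (7 / 8 : ℝ) ^ dst (∑ a, q a) N *
              ∏ a, (7 / 8 : ℝ) ^ (q a - r a) := by
          intro r hr
          rw [Fintype.mem_piFinset] at hr
          have hle : ∀ a, r a ≤ q a := by
            intro a
            have := hr a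
            by_cases ha : a = 0
            · subst ha
              rw [if_pos rfl, mem_singleton] at this
              omega
            · rw [if_neg ha, mem_range] at this
              omega
          unfold kap
          rw [prod_pow_eq_pow_sum, ← pow_add, ← pow_add]
          have e1 : ∑ a, (q a - r a) + ∑ a, r a = ∑ a, q a := by
            rw [← sum_add_distrib]
            exact sum_congr rfl fun a _ => by have := hle a; omega
          have e2 : dst (∑ a, q a) N + ∑ a, (q a - r a) ≤
              2 * (dst (∑ a, q a) N + dst (∑ a, r a) N) := by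
            unfold dst
            omega
          calc (3 / 4 : ℝ) ^ (dst (∑ a, q a) N + dst (∑ a, r a) N) ≤
              ((7 / 8 : ℝ) ^ 2) ^ (dst (∑ a, q a) N + dst (∑ a, r a) N) :=
                pow_le_pow_left₀ (by norm_num) (by norm_num) _
            _ = (7 / 8 : ℝ) ^ (2 * (dst (∑ a, q a) N + dst (∑ a, r a) N)) := by rw [pow_mul]
            _ ≤ _ := pow_le_pow_of_le_one (by norm_num) (by norm_num) e2
        refine (sum_le_sum h2).trans ?_
        rw [← mul_sum]
        refine mul_le_mul_of_nonneg_left ?_ (by positivity)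
        have e3 : ∑ r ∈ Fintype.piFinset (fun a : Fin (m + 1) => if a = 0 then {j} else range (q a)),
            ∏ a, (7 / 8 : ℝ) ^ (q a - r a) =
            ∏ a, ∑ x ∈ (if a = 0 then {j} else range (q a)), (7 / 8 : ℝ) ^ (q a - x) :=
          (prod_univ_sum (fun a : Fin (m + 1) => if a = 0 then {j} else range (q a))
            (fun a x => (7 / 8 : ℝ) ^ (q a - x))).symm
        rw [e3, Fin.prod_univ_succ]
        have e4 : ∑ x ∈ (if (0 : Fin (m + 1)) = 0 then {j} else range (q 0)),
            (7 / 8 : ℝ) ^ (q 0 - x) = (7 / 8 : ℝ) ^ (q 0 - j) := by simp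
        rw [e4]
        refine mul_le_mul_of_nonneg_left ?_ (by positivity)
        calc ∏ i : Fin m, ∑ x ∈ (if (i.succ : Fin (m + 1)) = 0 then {j} else range (q i.succ)),
              (7 / 8 : ℝ) ^ (q i.succ - x) ≤ ∏ _i : Fin m, (7 : ℝ) := by
              refine prod_le_prod (fun i _ => sum_nonneg fun _ _ => by positivity) fun i _ => ?_
              rw [if_neg (Fin.succ_ne_zero i)]
              exact geom1 _
          _ = 7 ^ m := by rw [prod_const, card_univ, Fintype.card_fin]
      have hk0 : 0 ≤ kap N q := by unfold kap; positivity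
      calc kap N q ^ 2 * ∑ j ∈ range (q 0),
            (∑ r ∈ Fintype.piFinset (fun a => if a = 0 then {j} else range (q a)), kap N r) ^ 2
          = ∑ j ∈ range (q 0), (kap N q *
            ∑ r ∈ Fintype.piFinset (fun a => if a = 0 then {j} else range (q a)), kap N r) ^ 2 := by
            rw [mul_sum]
            exact sum_congr rfl fun j _ => by ring
        _ ≤ ∑ j ∈ range (q 0), (49 / 64 : ℝ) ^ dst (∑ a, q a) N *
              (49 ^ m * (7 / 8 : ℝ) ^ (q 0 - j)) := by
            refine sum_le_sum fun j hj => ?_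
            have h3 : 0 ≤ kap N q *
                ∑ r ∈ Fintype.piFinset (fun a => if a = 0 then {j} else range (q a)),
                  kap N r := mul_nonneg hk0 (sum_nonneg fun _ _ => by unfold kap; positivity)
            refine (pow_le_pow_left₀ h3 (h1 j hj) 2).trans ?_
            have e5 : ((7 / 8 : ℝ) ^ dst (∑ a, q a) N * ((7 / 8 : ℝ) ^ (q 0 - j) * 7 ^ m)) ^ 2 =
                (49 / 64 : ℝ) ^ dst (∑ a, q a) N * (49 ^ m * ((7 / 8 : ℝ) ^ (q 0 - j)) ^ 2) := by
              have e6 : (49 / 64 : ℝ) ^ dst (∑ a, q a) N = ((7 / 8) ^ dst (∑ a, q a) N) ^ 2 := by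
                rw [← pow_mul, mul_comm, pow_mul]
                norm_num
              have e7 : (49 : ℝ) ^ m = (7 ^ m) ^ 2 := by
                rw [← pow_mul, mul_comm, pow_mul]
                norm_num
              rw [e6, e7]
              ring
            rw [e5]
            have h4 : ((7 / 8 : ℝ) ^ (q 0 - j)) ^ 2 ≤ (7 / 8 : ℝ) ^ (q 0 - j) := by
              have h5 : (7 / 8 : ℝ) ^ (q 0 - j) ≤ 1 := pow_le_one₀ (by norm_num) (by norm_num)
              have h6 : 0 ≤ (7 / 8 : ℝ) ^ (q 0 - j) := by positivity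
              nlinarith
            gcongr
        _ = (49 / 64 : ℝ) ^ dst (∑ a, q a) N * 49 ^ m *
              ∑ j ∈ range (q 0), (7 / 8 : ℝ) ^ (q 0 - j) := by
            rw [mul_sum]
            exact sum_congr rfl fun j _ => by ring
        _ ≤ (49 / 64 : ℝ) ^ dst (∑ a, q a) N * 49 ^ m * 7 :=
            mul_le_mul_of_nonneg_left (geom1 _) (by positivity)
        _ = 7 * 49 ^ m * (49 / 64 : ℝ) ^ dst (∑ a, q a) N := by ring
    refine (sum_le_sum hq).trans ?_
    rw [← mul_sum, mul_assoc]
    have h := all_le (m := m) (L := L) (N := N) (49 / 64) (by norm_num) (by norm_num)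
    have h7 : (1 + 49 / 64 : ℝ) / (1 - 49 / 64) * (L : ℝ) ^ m ≤ 8 * (L : ℝ) ^ m := by
      refine mul_le_mul_of_nonneg_right ?_ (by positivity)
      norm_num
    have h8 := h.trans h7
    calc 7 * (49 ^ m * ∑ q ∈ All m L, (49 / 64 : ℝ) ^ dst (∑ a, q a) N) ≤
        7 * (49 ^ m * (8 * (L : ℝ) ^ m)) := by gcongr
      _ = 7 * 49 ^ m * 8 * (L : ℝ) ^ m := by ring

end Pool.Agent.SHD
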