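import Pool.Agent.Lib.MP_a7b2aa_an.SHD.Stmts5_74
import Pool.Agent.Lib.MP_a7b2aa_an.SHD.K1D75

/-!
SHD4, torus part (helper74): kernels of the smooth block multipliers; decay of the Haar
coefficients of functions with spectrum in the enlarged block.
-/

set_option autoImplicit false
set_option linter.unusedSectionVars false

namespace Pool.Agent.SHD

open Finset Pool.Agent.SB3 Pool.Agent.SBT Pool.Agent.SBD K75

namespace E74

section spec

variable {N : ℕ} [NeZero N]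

lemma orthZ (z : ZMod N) :
    ∑ k : ZMod N, (ZMod.stdAddChar (k * z) : ℂ) = if z = 0 then (N : ℂ) else 0 := by
  have h := orth_30 (N := N) ((z.val : ℕ) : ℤ)
  have e : (((z.val : ℕ) : ℤ) : ZMod N) = z := by
    rw [Int.cast_natCast, ZMod.natCast_zmod_val]
  rw [e] at h
  rw [← h]
  exact sum_congr rfl fun k _ => by rw [mul_comm]

/-- inversion: a linear combination of translates of the kernel `w` -/
lemma spec {σ : Type} (S : Finset σ) (v : σ → ℝ) (g : σ → ZMod N) (w : ZMod N → ℝ) (c : ℂ)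
    (h : ∀ k : ZMod N, (∑ y, (w y : ℂ) * (ZMod.stdAddChar (-(k * y)) : ℂ)) = 0 ∨
      ∑ i ∈ S, (v i : ℂ) * (ZMod.stdAddChar (k * g i) : ℂ) = c) (z : ZMod N) :
    ∑ i ∈ S, (v i : ℂ) * (w (z + g i) : ℂ) = c * w z := by
  have hN : (N : ℂ) ≠ 0 := by exact_mod_cast NeZero.ne N
  have h1 : ∀ z : ZMod N, (N : ℂ) * w z = ∑ k : ZMod N, (ZMod.stdAddChar (k * z) : ℂ) *
      ∑ y, (w y : ℂ) * (ZMod.stdAddChar (-(k * y)) : ℂ) := by
    intro z
    have h2 : ∀ k : ZMod N, (ZMod.stdAddChar (k * z) : ℂ) *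
        ∑ y, (w y : ℂ) * (ZMod.stdAddChar (-(k * y)) : ℂ) =
        ∑ y, (w y : ℂ) * (ZMod.stdAddChar (k * (z - y)) : ℂ) := by
      intro k
      rw [mul_sum]
      refine sum_congr rfl fun y _ => ?_
      have e : k * (z - y) = k * z + -(k * y) := by ring
      rw [e, AddChar.map_add_eq_mul]
      ring
    simp_rw [h2]
    rw [sum_comm]
    simp_rw [← mul_sum, orthZ]
    rw [Finset.sum_eq_single z]
    · rw [if_pos (sub_self z)]
      ring
    · intro y _ hy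
      rw [if_neg (fun h => hy (sub_eq_zero.1 h).symm), mul_zero]
    · intro h
      exact absurd (mem_univ z) h
  have h3 : (N : ℂ) * ∑ i ∈ S, (v i : ℂ) * (w (z + g i) : ℂ) = (N : ℂ) * (c * w z) := by
    calc (N : ℂ) * ∑ i ∈ S, (v i : ℂ) * (w (z + g i) : ℂ)
        = ∑ i ∈ S, (v i : ℂ) * ((N : ℂ) * (w (z + g i) : ℂ)) := by
          rw [mul_sum]
          exact sum_congr rfl fun i _ => by ring
      _ = ∑ i ∈ S, (v i : ℂ) * ∑ k : ZMod N, (ZMod.stdAddChar (k * (z + g i)) : ℂ) *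
            ∑ y, (w y : ℂ) * (ZMod.stdAddChar (-(k * y)) : ℂ) := by
          exact sum_congr rfl fun i _ => by rw [h1]
      _ = ∑ k : ZMod N, ((ZMod.stdAddChar (k * z) : ℂ) *
            ∑ y, (w y : ℂ) * (ZMod.stdAddChar (-(k * y)) : ℂ)) *
            ∑ i ∈ S, (v i : ℂ) * (ZMod.stdAddChar (k * g i) : ℂ) := by
          simp_rw [mul_sum]
          rw [sum_comm]
          refine sum_congr rfl fun k _ => sum_congr rfl fun i _ => ?_
          rw [sum_mul]
          refine sum_congr rfl fun y _ => ?_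
          rw [mul_add, AddChar.map_add_eq_mul]
          ring
      _ = ∑ k : ZMod N, ((ZMod.stdAddChar (k * z) : ℂ) *
            ∑ y, (w y : ℂ) * (ZMod.stdAddChar (-(k * y)) : ℂ)) * c := by
          refine sum_congr rfl fun k _ => ?_
          rcases h k with hk | hk
          · rw [hk]
            ring
          · rw [hk]
      _ = (N : ℂ) * (c * w z) := by
          rw [← sum_mul, ← h1]
          ring
  exact mul_left_cancel₀ hN h3

/-- functions with spectrum in that of `w` -/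
def IsZ (w : ZMod N → ℝ) (ψ : ZMod N → ℝ) : Prop :=
  ∃ φ : ZMod N → ℝ, ∀ x, ψ x = ∑ g, w g * φ (x - g)

lemma isZ_rep {σ : Type} (S : Finset σ) (v : σ → ℝ) (g : σ → ZMod N) (w : ZMod N → ℝ) (c : ℝ)
    (h : ∀ k : ZMod N, (∑ y, (w y : ℂ) * (ZMod.stdAddChar (-(k * y)) : ℂ)) = 0 ∨
      ∑ i ∈ S, (v i : ℂ) * (ZMod.stdAddChar (k * g i) : ℂ) = (c : ℂ)) {ψ : ZMod N → ℝ}
    (hψ : IsZ w ψ) (x : ZMod N) :
    ∑ i ∈ S, v i * ψ (x + g i) = c * ψ x := by
  obtain ⟨φ, hφ⟩ := hψ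
  have hsp : ∀ z, ∑ i ∈ S, v i * w (z + g i) = c * w z := by
    intro z
    have := spec S v g w (c : ℂ) h z
    exact_mod_cast this
  have h1 : ∀ x, ψ x = ∑ z, φ z * w (x - z) := by
    intro x
    rw [hφ x]
    refine Fintype.sum_equiv (Equiv.subLeft x) _ _ fun g => ?_
    simp only [Equiv.subLeft_apply]
    rw [sub_sub_cancel]
    ring
  calc ∑ i ∈ S, v i * ψ (x + g i) = ∑ z, φ z * ∑ i ∈ S, v i * w ((x - z) + g i) := by
        simp_rw [h1, mul_sum]
        rw [sum_comm]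
        refine sum_congr rfl fun z _ => sum_congr rfl fun i _ => ?_
        have e : x + g i - z = x - z + g i := by ring
        rw [e]
        ring
    _ = c * ψ x := by
        rw [h1 x, mul_sum]
        refine sum_congr rfl fun z _ => ?_
        rw [hsp]
        ring

lemma isZ_lin {ι : Type} [Fintype ι] (w : ZMod N → ℝ) (b : ι → ℝ) (ψ : ι → ZMod N → ℝ)
    (h : ∀ i, IsZ w (ψ i)) : IsZ w (fun x => ∑ i, b i * ψ i x) := by
  unfold IsZ at h
  choose φ hφ using h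
  refine ⟨fun x => ∑ i, b i * φ i x, fun x => ?_⟩
  simp_rw [hφ, mul_sum]
  rw [sum_comm]
  refine sum_congr rfl fun g _ => sum_congr rfl fun i _ => ?_
  ring

end spec

/-- the kernel of the smooth block multiplier -/
structure Ker (L s : ℕ) (w : ZMod (2 ^ L) → ℝ) : Prop where
  norm : ∑ g, |w g| ≤ 6
  one : ∀ k : ℤ, (2 : ℤ) ^ (s - 1) ≤ |k| → |k| < (2 : ℤ) ^ s → mu38 w k = 1
  zero : ∀ k : ℤ, (|k| < (2 : ℤ) ^ (s - 2) ∨ (2 : ℤ) ^ (s + 1) ≤ |k|) → |k| ≤ (2 : ℤ) ^ (L - 1) →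
    mu38 w k = 0

lemma pw (a : ℕ) : (2 : ℤ) ^ (a + 1) = 2 * 2 ^ a := by rw [pow_succ]; ring

theorem ker_ex {L s : ℕ} (hs : 2 ≤ s) (hsL : s + 3 ≤ L) : ∃ w : ZMod (2 ^ L) → ℝ, Ker L s w := by
  have hN1 : 4 * 2 ^ s ≤ 2 ^ L := by
    calc 4 * 2 ^ s = 2 ^ (s + 2) := by rw [pow_add]; ring
      _ ≤ 2 ^ L := Nat.pow_le_pow_right (by norm_num) (by omega)
  have hN2 : 4 * 2 ^ (s - 2) ≤ 2 ^ L := by
    refine le_trans ?_ hN1
    exact Nat.mul_le_mul_left 4 (Nat.pow_le_pow_right (by norm_num) (by omega))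
  obtain ⟨v, hv1, hv2, hv3, -⟩ := vp_30 fej_30 (2 ^ L) (2 ^ s) Nat.one_le_two_pow hN1
  obtain ⟨v', hv1', hv2', hv3', -⟩ := vp_30 fej_30 (2 ^ L) (2 ^ (s - 2)) Nat.one_le_two_pow hN2
  have hmul : ∀ k : ℤ, mu38 (fun g => v g - v' g) k =
      (∑ g, (v g : ℂ) * (ZMod.stdAddChar ((k : ZMod (2 ^ L)) * g) : ℂ)) -
        ∑ g, (v' g : ℂ) * (ZMod.stdAddChar ((k : ZMod (2 ^ L)) * g) : ℂ) := by
    intro k
    unfold mu38
    rw [← Finset.sum_sub_distrib]
    apply Finset.sum_congr rfl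
    intro g _
    push_cast
    ring
  have e1 : (2 : ℤ) ^ s = 2 * 2 ^ (s - 1) := by
    rw [← pw]
    congr 1
    omega
  have e2 : (2 : ℤ) ^ (s - 1) = 2 * 2 ^ (s - 2) := by
    rw [← pw]
    congr 1
    omega
  have e3 : (2 : ℤ) ^ (s + 1) = 2 * 2 ^ s := pw s
  have e4 : (8 : ℤ) * 2 ^ s ≤ 2 ^ L := by
    calc (8 : ℤ) * 2 ^ s = 2 ^ (s + 3) := by rw [pow_add]; ring
      _ ≤ 2 ^ L := pow_le_pow_right₀ (by norm_num) (by omega)
  have e5 : (2 : ℤ) ^ L = 2 * 2 ^ (L - 1) := by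
    rw [← pw]
    congr 1
    omega
  have p2 : (0 : ℤ) < 2 ^ (s - 2) := by positivity
  refine ⟨fun g => v g - v' g, ?_, ?_, ?_⟩
  · calc ∑ g, |v g - v' g| ≤ ∑ g, (|v g| + |v' g|) := Finset.sum_le_sum (fun g _ => abs_sub _ _)
      _ ≤ 6 := by
          rw [Finset.sum_add_distrib]
          linarith
  · intro k hk1 hk2
    rw [hmul k, hv2 k (by push_cast; omega), hv3' k (by push_cast; omega) (by push_cast; omega)]
    ring
  · intro k hk hk2
    rcases hk with hk | hk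
    · rw [hmul k, hv2 k (by push_cast; omega), hv2' k (by push_cast; omega)]
      ring
    · rw [hmul k, hv3 k (by push_cast; omega) (by push_cast; omega),
        hv3' k (by push_cast; omega) (by push_cast; omega)]
      ring

/-- the multiplier at `- k` -/
lemma mu_neg {N : ℕ} [NeZero N] (w : ZMod N → ℝ) (k : ZMod N) :
    ∑ y, (w y : ℂ) * (ZMod.stdAddChar (-(k * y)) : ℂ) = mu38 w (-k.valMinAbs) := by
  unfold mu38
  refine sum_congr rfl fun y _ => ?_
  have e : (((-k.valMinAbs : ℤ)) : ZMod N) * y = -(k * y) := by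
    push_cast
    ring
  rw [e]

lemma vma {L : ℕ} (hL : 1 ≤ L) (k : ZMod (2 ^ L)) : |k.valMinAbs| ≤ (2 : ℤ) ^ (L - 1) := by
  have h := ZMod.natAbs_valMinAbs_le k
  have e : 2 ^ L / 2 = 2 ^ (L - 1) := by
    obtain ⟨a, rfl⟩ : ∃ a, L = a + 1 := ⟨L - 1, by omega⟩
    rw [pow_succ, Nat.add_sub_cancel]
    exact Nat.mul_div_cancel _ (by norm_num)
  rw [e] at h
  rw [Int.abs_eq_natAbs]
  exact_mod_cast h

/-- identities for functions with spectrum in the enlarged block -/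
lemma ker_rep {L s : ℕ} {w : ZMod (2 ^ L) → ℝ} (hw : Ker L s w) (hL : 1 ≤ L) {σ : Type}
    (S : Finset σ) (v : σ → ℝ) (g : σ → ZMod (2 ^ L)) (c : ℝ)
    (h : ∀ k : ℤ, (2 : ℤ) ^ (s - 2) ≤ |k| → |k| < (2 : ℤ) ^ (s + 1) →
      ∑ i ∈ S, (v i : ℂ) * (ZMod.stdAddChar ((k : ZMod (2 ^ L)) * g i) : ℂ) = (c : ℂ))
    {ψ : ZMod (2 ^ L) → ℝ} (hψ : IsZ w ψ) (x : ZMod (2 ^ L)) :
    ∑ i ∈ S, v i * ψ (x + g i) = c * ψ x := by
  refine isZ_rep S v g w c ?_ hψ x
  intro k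
  by_cases h1 : |k.valMinAbs| < (2 : ℤ) ^ (s - 2) ∨ (2 : ℤ) ^ (s + 1) ≤ |k.valMinAbs|
  · left
    rw [mu_neg]
    exact hw.zero _ (by rw [abs_neg]; exact h1) (by rw [abs_neg]; exact vma hL k)
  · right
    push Not at h1
    have h2 := h k.valMinAbs h1.1 h1.2
    rw [ZMod.coe_valMinAbs] at h2
    exact h2

/-- Bernstein's inequality for differences -/
lemma fineE {L s : ℕ} (hsL : s + 3 ≤ L) {w : ZMod (2 ^ L) → ℝ} (hw : Ker L s w)
    {ψ : ZMod (2 ^ L) → ℝ} (hψ : IsZ w ψ) (D : ℝ)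
    (hD : ∀ x, |ψ x| ≤ D) (J : ℕ) (x : ZMod (2 ^ L)) :
    |ψ (x + (J : ℕ)) - ψ x| ≤ 40 * Real.pi * 2 ^ s * J / 2 ^ L * D := by
  obtain ⟨v, _, hv2, _, hv4⟩ := vp_30 fej_30 (2 ^ L) (2 ^ (s + 1)) Nat.one_le_two_pow (by
    calc 4 * 2 ^ (s + 1) = 2 ^ (s + 3) := by rw [pow_add, pow_add]; ring
      _ ≤ 2 ^ L := Nat.pow_le_pow_right (by norm_num) hsL)
  have h1 : ∀ x : ZMod (2 ^ L), ∑ g, v g * ψ (x + g) = ψ x := by
    intro x
    have := ker_rep hw (by omega) univ v (fun g => g) 1 (by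
      intro k _ hk
      rw [Complex.ofReal_one]
      exact hv2 k (by push_cast; exact hk.le)) hψ x
    rw [this, one_mul]
  have h2 : ψ (x + (J : ℕ)) - ψ x =
      ∑ g, (v g - v (g + (J : ZMod (2 ^ L)))) * ψ (x + (J : ℕ) + g) := by
    have h3 : ∑ g, v (g + (J : ZMod (2 ^ L))) * ψ (x + (J : ℕ) + g) = ψ x := by
      rw [← h1 x, ← sum_add_30 (fun g => v g * ψ (x + g)) (J : ZMod (2 ^ L))]
      apply sum_congr rfl
      intro g _
      congr 2
      ring
    simp_rw [sub_mul]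
    rw [sum_sub_distrib, h1, h3]
  have hD0 : 0 ≤ D := (abs_nonneg _).trans (hD 0)
  rw [h2]
  calc |∑ g, (v g - v (g + (J : ZMod (2 ^ L)))) * ψ (x + (J : ℕ) + g)|
      ≤ ∑ g, |(v g - v (g + (J : ZMod (2 ^ L)))) * ψ (x + (J : ℕ) + g)| :=
        abs_sum_le_sum_abs _ _
    _ ≤ ∑ g, |v (g + (J : ZMod (2 ^ L))) - v g| * D := by
        apply sum_le_sum
        intro g _
        rw [abs_mul, abs_sub_comm]
        exact mul_le_mul_of_nonneg_left (hD _) (abs_nonneg _)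
    _ ≤ 40 * Real.pi * 2 ^ s * J / 2 ^ L * D := by
        rw [← sum_mul]
        have := hv4 J
        refine mul_le_mul_of_nonneg_right (this.trans (le_of_eq ?_)) hD0
        push_cast
        rw [pow_succ]
        ring

/-- the sum over `J` consecutive points -/
noncomputable def AE {N : ℕ} (ψ : ZMod N → ℝ) (J : ℕ) (x : ZMod N) : ℝ :=
  ∑ i ∈ range J, ψ (x + (i : ℕ))

lemma AE_one {N : ℕ} (ψ : ZMod N → ℝ) (D : ℝ) (hD : ∀ x, |ψ x| ≤ D) (J : ℕ)
    (x : ZMod N) : |AE ψ J (x + 1) - AE ψ J x| ≤ 2 * D := by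
  have h1 : ∀ n : ℕ, AE ψ n (x + 1) - AE ψ n x = ψ (x + (n : ℕ)) - ψ x := by
    intro n
    induction n with
    | zero => simp [AE]
    | succ n ih =>
      have e1 : AE ψ (n + 1) (x + 1) = AE ψ n (x + 1) + ψ (x + 1 + (n : ℕ)) := by
        unfold AE
        rw [sum_range_succ]
      have e2 : AE ψ (n + 1) x = AE ψ n x + ψ (x + (n : ℕ)) := by
        unfold AE
        rw [sum_range_succ]
      have e3 : x + 1 + ((n : ℕ) : ZMod N) = x + ((n + 1 : ℕ) : ZMod N) := by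
        push_cast
        ring
      rw [e1, e2, e3]
      linarith
  rw [h1 J]
  have h2 := abs_sub (ψ (x + (J : ℕ))) (ψ x)
  linarith [hD (x + (J : ℕ)), hD x]

lemma AE_add {N : ℕ} (ψ : ZMod N → ℝ) (D : ℝ) (hD : ∀ x, |ψ x| ≤ D) (J m : ℕ)
    (x : ZMod N) : |AE ψ J (x + (m : ℕ)) - AE ψ J x| ≤ 2 * m * D := by
  induction m with
  | zero => simp
  | succ m ih =>
    have h1 := AE_one ψ D hD J (x + (m : ℕ))
    have e : x + ((m + 1 : ℕ) : ZMod N) = x + (m : ℕ) + 1 := by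
      push_cast
      ring
    rw [e]
    have h2 := abs_sub_le (AE ψ J (x + (m : ℕ) + 1)) (AE ψ J (x + (m : ℕ))) (AE ψ J x)
    push_cast
    linarith

lemma vanishE (n K : ℕ) (k : ℤ) (h1 : 2 * (K : ℤ) ≤ |k|) (h2 : |k| + 2 * K ≤ n) :
    ∑ j ∈ range n, (I76.zt n ^ k) ^ j * (I76.gw n K j : ℂ) = 0 := by
  simp_rw [I76.gw_cast]
  apply I76.stepA
  intro t1 ht1
  apply I76.stepA
  intro t2 ht2
  apply I76.stepB
  intro t3 ht3
  apply I76.stepB
  intro t4 ht4
  simp_rw [mul_one]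
  apply I76.geo _ (by omega)
  · intro h
    rcases abs_cases k with hk | hk <;> omega
  · rw [abs_lt]
    rcases abs_cases k with hk | hk <;> constructor <;> omega

/-- the average over long intervals is small (Jackson kernel) -/
lemma coarseE {L s : ℕ} (hs : 3 ≤ s) (hsL : s + 3 ≤ L) {w : ZMod (2 ^ L) → ℝ} (hw : Ker L s w)
    {ψ : ZMod (2 ^ L) → ℝ} (hψ : IsZ w ψ) (D : ℝ)
    (hD : ∀ x, |ψ x| ≤ D) (J : ℕ) (x : ZMod (2 ^ L)) :
    |AE ψ J x| ≤ 524288 * 2 ^ (L - s - 2) * D := by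
  have hD0 : 0 ≤ D := (abs_nonneg _).trans (hD 0)
  obtain ⟨K, hKdef⟩ : ∃ K : ℕ, K = 2 ^ (s - 3) := ⟨_, rfl⟩
  obtain ⟨h, hhdef⟩ : ∃ h : ℕ, h = 2 ^ (L - s - 2) := ⟨_, rfl⟩
  have hK : 0 < K := by rw [hKdef]; positivity
  have h8K : 8 * K = 2 ^ s := by
    rw [hKdef]
    calc 8 * 2 ^ (s - 3) = 2 ^ (s - 3 + 3) := by rw [pow_add]; ring
      _ = 2 ^ s := by congr 1; omega
  have h2K : 2 * K = 2 ^ (s - 2) := by
    rw [hKdef]
    calc 2 * 2 ^ (s - 3) = 2 ^ (s - 3 + 1) := by rw [pow_add]; ring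
      _ = 2 ^ (s - 2) := by congr 1; omega
  obtain ⟨n, hndef⟩ : ∃ n : ℕ, n = 32 * K := ⟨_, rfl⟩
  have hn0 : 0 < n := by omega
  have hN : n * h = 2 ^ L := by
    calc n * h = 4 * (8 * K) * h := by rw [hndef]; ring
      _ = 4 * 2 ^ s * 2 ^ (L - s - 2) := by rw [h8K, hhdef]
      _ = 2 ^ (2 + s + (L - s - 2)) := by rw [pow_add, pow_add]; ring
      _ = 2 ^ L := by congr 1; omega
  have hh0 : 0 < h := by rw [hhdef]; positivity
  have hchar : ∀ (k : ℤ) (j : ℕ), (ZMod.stdAddChar ((k : ZMod (2 ^ L)) *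
      ((j * h : ℕ) : ZMod (2 ^ L))) : ℂ) = (I76.zt n ^ k) ^ j := by
    intro k j
    rw [char_nat, ← zpow_natCast, ← zpow_mul, I76.zt_zpow]
    congr 1
    have e : ((2 ^ L : ℕ) : ℂ) = n * h := by
      rw [← hN]
      push_cast
      ring
    have hn' : (n : ℂ) ≠ 0 := by exact_mod_cast hn0.ne'
    have hh' : (h : ℂ) ≠ 0 := by exact_mod_cast hh0.ne'
    push_cast
    push_cast at e
    rw [e]
    field_simp
  have hz : ∀ x : ZMod (2 ^ L), ∑ j ∈ range n, I76.gw n K j *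
      ψ (x + ((j * h : ℕ) : ZMod (2 ^ L))) = 0 := by
    intro x
    have := ker_rep hw (by omega) (range n) (fun j => I76.gw n K j)
      (fun j => ((j * h : ℕ) : ZMod (2 ^ L))) 0 (by
        intro k hk1 hk2
        have h2K' : (2 : ℤ) * K = 2 ^ (s - 2) := by exact_mod_cast h2K
        have h16 : (16 : ℤ) * K = 2 ^ (s + 1) := by
          have h8K' : (8 : ℤ) * K = 2 ^ s := by exact_mod_cast h8K
          rw [pw, ← h8K']
          ring
        have hv := vanishE n K k (by rw [h2K']; exact hk1) (by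
          rw [← h16] at hk2
          rw [hndef]
          push_cast
          omega)
        rw [Complex.ofReal_zero, ← hv]
        apply sum_congr rfl
        intro j _
        rw [hchar]
        ring) hψ x
    rw [this]
    simp
  have hA : ∑ j ∈ range n, I76.gw n K j *
      AE ψ J (x + ((j * h : ℕ) : ZMod (2 ^ L))) = 0 := by
    unfold AE
    simp_rw [mul_sum]
    rw [sum_comm]
    apply sum_eq_zero
    intro i _
    rw [← hz (x + (i : ℕ))]
    apply sum_congr rfl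
    intro j _
    congr 2
    ring
  have hdiff : ∀ j ∈ range n, |AE ψ J x - AE ψ J (x + ((j * h : ℕ) : ZMod (2 ^ L)))| ≤
      2 * (I76.dst n j * h) * D := by
    intro j hj
    rw [mem_range] at hj
    rcases le_total j (n - j) with hle | hle
    · have e : I76.dst n j = j := by unfold I76.dst; omega
      rw [e, abs_sub_comm]
      have := AE_add ψ D hD J (j * h) x
      push_cast at this ⊢
      exact this
    · have e : I76.dst n j = n - j := by unfold I76.dst; omega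
      rw [e]
      have h1 := AE_add ψ D hD J ((n - j) * h) (x + ((j * h : ℕ) : ZMod (2 ^ L)))
      have h2 : x + ((j * h : ℕ) : ZMod (2 ^ L)) + (((n - j) * h : ℕ) : ZMod (2 ^ L)) = x := by
        have h3 : j * h + (n - j) * h = 2 ^ L := by
          rw [← add_mul, ← hN]
          congr 1
          omega
        rw [add_assoc, ← Nat.cast_add, h3, ZMod.natCast_self, add_zero]
      rw [h2] at h1
      push_cast at h1 ⊢
      exact h1
  have hW : (K : ℝ) ^ 4 ≤ ∑ j ∈ range n, I76.gw n K j := by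
    rw [← I76.gw_zero n K]
    exact single_le_sum (f := fun j => I76.gw n K j)
      (fun j _ => I76.gw_nonneg _ _ _) (mem_range.2 (by omega))
  have hmom := I76.mom n K (by omega)
  have hnK : (n : ℝ) = 32 * K := by
    rw [hndef]
    push_cast
    ring
  have hfin : (∑ j ∈ range n, I76.gw n K j) * |AE ψ J x| ≤ 524288 * h * D * (K : ℝ) ^ 4 := by
    have hW0 : 0 ≤ ∑ j ∈ range n, I76.gw n K j :=
      sum_nonneg fun j _ => I76.gw_nonneg _ _ _
    calc (∑ j ∈ range n, I76.gw n K j) * |AE ψ J x|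
        = |(∑ j ∈ range n, I76.gw n K j) * AE ψ J x| := by
          rw [abs_mul, abs_of_nonneg hW0]
      _ = |∑ j ∈ range n, I76.gw n K j * (AE ψ J x -
            AE ψ J (x + ((j * h : ℕ) : ZMod (2 ^ L))))| := by
          congr 1
          simp_rw [mul_sub]
          rw [sum_sub_distrib, hA, sub_zero, sum_mul]
      _ ≤ ∑ j ∈ range n, |I76.gw n K j * (AE ψ J x -
            AE ψ J (x + ((j * h : ℕ) : ZMod (2 ^ L))))| := abs_sum_le_sum_abs _ _
      _ ≤ ∑ j ∈ range n, 2 * h * D * (I76.gw n K j * I76.dst n j) := by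
          apply sum_le_sum
          intro j hj
          rw [abs_mul, abs_of_nonneg (I76.gw_nonneg _ _ _)]
          calc I76.gw n K j * _ ≤ I76.gw n K j * (2 * (I76.dst n j * h) * D) :=
                mul_le_mul_of_nonneg_left (hdiff j hj) (I76.gw_nonneg _ _ _)
            _ = _ := by ring
      _ ≤ 524288 * h * D * (K : ℝ) ^ 4 := by
          rw [← mul_sum]
          have h5 : 0 ≤ 2 * (h : ℝ) * D := by positivity
          refine (mul_le_mul_of_nonneg_left hmom h5).trans (le_of_eq ?_)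
          rw [hnK]
          ring
  have hK4 : (0 : ℝ) < (K : ℝ) ^ 4 := by
    have : (0 : ℝ) < K := by exact_mod_cast hK
    positivity
  have h6 : (K : ℝ) ^ 4 * |AE ψ J x| ≤ (K : ℝ) ^ 4 * (524288 * h * D) := by
    calc (K : ℝ) ^ 4 * |AE ψ J x| ≤ _ := mul_le_mul_of_nonneg_right hW (abs_nonneg _)
      _ ≤ _ := hfin
      _ = _ := by ring
  have h7 := le_of_mul_le_mul_left h6 hK4
  rw [hhdef] at h7
  push_cast at h7
  exact h7

/-- functions of the digits with spectrum in the enlarged block -/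
def IsE {L : ℕ} (w : ZMod (2 ^ L) → ℝ) (ψ : Y L → ℝ) : Prop :=
  ∃ χ : ZMod (2 ^ L) → ℝ, IsZ w χ ∧ ∀ y, ψ y = χ ((vl y : ℕ) : ZMod (2 ^ L))

lemma isE_lin {L : ℕ} {ι : Type} [Fintype ι] (w : ZMod (2 ^ L) → ℝ) (b : ι → ℝ)
    (ψ : ι → Y L → ℝ) (h : ∀ i, IsE w (ψ i)) : IsE w (fun y => ∑ i, b i * ψ i y) := by
  unfold IsE at h
  choose χ hχ1 hχ2 using h
  refine ⟨fun x => ∑ i, b i * χ i x, isZ_lin w b χ hχ1, fun y => ?_⟩
  exact sum_congr rfl fun i _ => by rw [hχ2]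

/-- decay of the Haar coefficients in both directions -/
theorem k1e {L s t : ℕ} (ψ : Y L → ℝ) (D : ℝ) (hs : 2 ≤ s) (hsL : s + 3 ≤ L) (ht : t < L)
    {w : ZMod (2 ^ L) → ℝ} (hw : Ker L s w) (hB : IsE w ψ) (hψ : ∀ y, |ψ y| ≤ D) (y : Y L) :
    |Dl t ψ y| ≤ 262144 * (1 / 2 : ℝ) ^ SHD.dst t s * D := by
  obtain ⟨χ, hχ, hψ2⟩ := hB
  have hD : ∀ x, |χ x| ≤ D := by
    intro x
    obtain ⟨y, hy⟩ := vl_surj (L := L) x.val (ZMod.val_lt x)
    have h1 := hψ y
    rw [hψ2, hy, ZMod.natCast_zmod_val] at h1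
    exact h1
  have hD0 : 0 ≤ D := (abs_nonneg _).trans (hD 0)
  obtain ⟨r, hr⟩ : ∃ r, t + (r + 1) = L := ⟨L - t - 1, by omega⟩
  have hLt : L - t = r + 1 := by omega
  have hDl : Dl t ψ y = (∑ i ∈ range (2 ^ r), (χ (((vl (pre t y) + 2 ^ r + i : ℕ)) :
      ZMod (2 ^ L)) - χ (((vl (pre t y) + i : ℕ)) : ZMod (2 ^ L)))) / 2 ^ (r + 1) := by
    unfold Dl
    rw [hLt, sum_sub_distrib, ← cls_sgn (fun u => χ ((u : ℕ) : ZMod (2 ^ L))) r t hr y]
    simp_rw [hψ2]
  have hpw : (0 : ℝ) < 2 ^ (r + 1) := by positivity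
  rw [hDl, abs_div, abs_of_pos hpw, div_le_iff₀ hpw]
  rcases le_or_gt s t with hst | hst
  · have hd : SHD.dst t s = t - s := by unfold SHD.dst; omega
    rw [hd]
    have h1 : ∀ i ∈ range (2 ^ r), |χ (((vl (pre t y) + 2 ^ r + i : ℕ)) :
        ZMod (2 ^ L)) - χ (((vl (pre t y) + i : ℕ)) : ZMod (2 ^ L))| ≤
        40 * Real.pi * 2 ^ s * ((2 ^ r : ℕ) : ℝ) / 2 ^ L * D := by
      intro i _
      have e : (((vl (pre t y) + 2 ^ r + i : ℕ)) : ZMod (2 ^ L)) =
          (((vl (pre t y) + i : ℕ)) : ZMod (2 ^ L)) + ((2 ^ r : ℕ) : ZMod (2 ^ L)) := by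
        push_cast
        ring
      rw [e]
      exact fineE hsL hw hχ D hD _ _
    have h2 : |∑ i ∈ range (2 ^ r), (χ (((vl (pre t y) + 2 ^ r + i : ℕ)) :
      ZMod (2 ^ L)) - χ (((vl (pre t y) + i : ℕ)) : ZMod (2 ^ L)))| ≤
        2 ^ r * (40 * Real.pi * 2 ^ s * ((2 ^ r : ℕ) : ℝ) / 2 ^ L * D) := by
      refine (abs_sum_le_sum_abs _ _).trans ((sum_le_sum h1).trans (le_of_eq ?_))
      rw [sum_const, card_range, nsmul_eq_mul]
      push_cast
      ring
    refine h2.trans ?_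
    have e1 : (2 : ℝ) ^ L = 2 ^ t * 2 ^ (r + 1) := by rw [← pow_add, hr]
    have e2 : (2 : ℝ) ^ t = 2 ^ s * 2 ^ (t - s) := by rw [← pow_add]; congr 1; omega
    have e3 : (1 / 2 : ℝ) ^ (t - s) = 1 / 2 ^ (t - s) := by rw [div_pow, one_pow]
    rw [e1, e2, e3]
    have hpi := Real.pi_le_four
    have h3 : (2 : ℝ) ^ r * (40 * Real.pi * 2 ^ s * ((2 ^ r : ℕ) : ℝ) /
        (2 ^ s * 2 ^ (t - s) * 2 ^ (r + 1)) * D) =
        10 * Real.pi * ((1 / 2 ^ (t - s)) * D * 2 ^ (r + 1)) := by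
      push_cast
      rw [pow_succ]
      field_simp
      ring
    have h4 : (0 : ℝ) ≤ (1 / 2 ^ (t - s)) * D * 2 ^ (r + 1) := by positivity
    rw [h3]
    nlinarith
  · have hd : SHD.dst t s = s - t := by unfold SHD.dst; omega
    rw [hd]
    have e3 : (1 / 2 : ℝ) ^ (s - t) = 1 / 2 ^ (s - t) := by rw [div_pow, one_pow]
    rw [e3]
    have hA : ∀ u : ℕ, ∑ i ∈ range (2 ^ r), χ (((u + i : ℕ)) : ZMod (2 ^ L)) =
        AE χ (2 ^ r) ((u : ℕ) : ZMod (2 ^ L)) := by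
      intro u
      unfold AE
      apply sum_congr rfl
      intro i _
      push_cast
      rfl
    rw [sum_sub_distrib, hA (vl (pre t y) + 2 ^ r), hA (vl (pre t y))]
    refine (abs_sub _ _).trans ?_
    rcases le_or_gt 3 s with hs2 | hs2
    · have h1 := coarseE hs2 hsL hw hχ D hD (2 ^ r) ((vl (pre t y) + 2 ^ r : ℕ) : ZMod (2 ^ L))
      have h2 := coarseE hs2 hsL hw hχ D hD (2 ^ r) ((vl (pre t y) : ℕ) : ZMod (2 ^ L))
      have e4 : 262144 * (1 / 2 ^ (s - t)) * D * (2 : ℝ) ^ (r + 1) =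
          2 * (524288 * 2 ^ (L - s - 2) * D) := by
        have e5 : (2 : ℝ) ^ (r + 1) = 4 * 2 ^ (L - s - 2) * 2 ^ (s - t) := by
          calc (2 : ℝ) ^ (r + 1) = 2 ^ (2 + (L - s - 2) + (s - t)) := by congr 1; omega
            _ = _ := by rw [pow_add, pow_add]; ring
        rw [e5]
        field_simp
        ring
      rw [e4]
      linarith
    · have h1 : ∀ u : ℕ, |AE χ (2 ^ r) ((u : ℕ) : ZMod (2 ^ L))| ≤ 2 ^ r * D := by
        intro u
        unfold AE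
        refine (abs_sum_le_sum_abs _ _).trans
          ((sum_le_sum (fun i _ => hD _)).trans (le_of_eq ?_))
        rw [sum_const, card_range, nsmul_eq_mul]
        push_cast
        ring
      have h2 := h1 (vl (pre t y) + 2 ^ r)
      have h3 := h1 (vl (pre t y))
      have h4 : (0 : ℝ) ≤ 2 ^ r * D := by positivity
      have h5 : (1 : ℝ) / 4 ≤ 1 / 2 ^ (s - t) := by
        rw [div_le_div_iff₀ (by norm_num) (by positivity), one_mul, one_mul]
        calc (2 : ℝ) ^ (s - t) ≤ 2 ^ 2 := pow_le_pow_right₀ (by norm_num) (by omega)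
          _ = 4 := by norm_num
      have h6 : 262144 * (1 / 2 ^ (s - t)) * D * (2 : ℝ) ^ (r + 1) =
          (1 / 2 ^ (s - t)) * (524288 * (2 ^ r * D)) := by
        rw [pow_succ]
        ring
      rw [h6]
      nlinarith

end E74

end Pool.Agent.SHD
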