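import Pool.Agent.Lib.MP_a7b2aa_an.SHD.Stmts4_25
import Pool.Agent.Lib.MP_a7b2aa_an.SHD.GridK33
import Pool.Agent.Lib.MP_a7b2aa_an.SBD.STR21

/-!
SHD4, module PARS (helper25): Parseval's identity for adapted arrays.
-/

set_option autoImplicit false

namespace Pool.Agent.SHD

open Finset Pool.Agent.SB3 Pool.Agent.SBT Pool.Agent.SBD

theorem Av_fresh25 {m L : ℕ} (hE : Eeb m L) {a : Fin (m + 1)} {t : ℕ} (ht : t < L)
    {X : Pt m L → ℝ} (hX : Ms (one L a t) X) : Av (fun ω => sb a t ω * X ω) = 0 := by
  rw [← hE.mean (one L a t)]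
  have h1 : (EE (one L a t) fun ω => sb a t ω * X ω) = fun _ => (0 : ℝ) := by
    funext ω
    have h2 : (fun ω' : Pt m L => sb a t ω' * X ω') = fun ω' => X ω' * sb a t ω' := by
      funext ω'
      ring
    rw [h2, hE.pull _ _ _ hX, ee_sb_21 hE a t ht, mul_zero]
  rw [h1, Av_const]

theorem pars_25 (hEB : StEeb) : StPars := by
  intro m L v hv
  have hE := hEB m L
  have h1 : (fun ω => HH v ω ^ 2) = fun ω => ∑ q ∈ All m L, ∑ r ∈ All m L,
      (ps Finset.univ q ω * v q ω) * (ps Finset.univ r ω * v r ω) := by
    funext ω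
    rw [HH_eq33, pow_two, sum_mul_sum]
  rw [h1, Av_sum]
  unfold mass
  refine sum_congr rfl fun q hq => ?_
  rw [Av_sum, sum_eq_single q]
  · congr 1
    funext ω
    have := ps_sq Finset.univ q ω
    calc ps Finset.univ q ω * v q ω * (ps Finset.univ q ω * v q ω) =
          (ps Finset.univ q ω * ps Finset.univ q ω) * v q ω ^ 2 := by ring
      _ = v q ω ^ 2 := by rw [this, one_mul]
  · intro r hr hrq
    have key : ∀ q r : Fin (m + 1) → ℕ, r ∈ All m L → (∃ a, q a < r a) →
        Av (fun ω => (ps Finset.univ q ω * v q ω) * (ps Finset.univ r ω * v r ω)) = 0 := by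
      rintro q r hr ⟨a, ha⟩
      have hrL : r a < L := by
        unfold All at hr
        rw [mem_fr] at hr
        exact hr.1 a (mem_univ a)
      have e1 : (fun ω => (ps Finset.univ q ω * v q ω) * (ps Finset.univ r ω * v r ω)) =
          fun ω => sb a (r a) ω * ((ps Finset.univ q ω * v q ω) *
            (ps (Finset.univ.erase a) r ω * v r ω)) := by
        funext ω
        have e2 : ps Finset.univ r ω = sb a (r a) ω * ps (Finset.univ.erase a) r ω := by
          rw [← ps_insert (by simp), insert_erase (mem_univ a)]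
        rw [e2]
        ring
      rw [e1]
      refine Av_fresh25 hE hrL ?_
      refine Ms.comp2 (F := fun x y => x * y) ?_ ?_
      · refine Ms.comp2 (F := fun x y => x * y) ?_ ((hv q).one a (r a) ha.le)
        unfold ps
        refine Ms.prod _ fun c _ => ?_
        by_cases hca : c = a
        · subst hca
          exact Ms_sb (by simpa [one] using ha)
        · exact Ms_sb_one hca _ _
      · exact Ms.comp2 (F := fun x y => x * y) (Ms_ps_one (by simp) _ _)
          ((hv r).one a (r a) le_rfl)
    by_cases hex : ∃ a, q a < r a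
    · exact key q r hr hex
    · have hex' : ∃ a, r a < q a := by
        by_contra hcon
        push Not at hex hcon
        exact hrq (funext fun a => le_antisymm (hex a) (hcon a))
      have h2 := key r q hq hex'
      rw [← h2]
      congr 1
      funext ω
      ring
  · intro hn
    exact absurd hq hn

end Pool.Agent.SHD
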