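import Mathlib

/-!
SHD3, module STAGE (helper23): numerical lemmas.
-/

set_option autoImplicit false

namespace Pool.Agent.SHD.SN23

/-- `49 X^{m+1} K` etc. under the main hypothesis -/
theorem basic {C L X K : ℝ} {m : ℕ} (hC : 1 ≤ C) (hX : 1 ≤ X) (hK : 0 ≤ K)
    (h : C * (1 + K) ^ 2 * X ^ (4 * m + 8) ≤ L) {a : ℝ} (ha0 : 0 ≤ a) {e : ℕ} (ha : a ≤ C)
    (he : e ≤ 4 * m + 8) :
    a * (1 + K) ^ 2 * X ^ e ≤ L := by
  have h1 : X ^ e ≤ X ^ (4 * m + 8) := pow_le_pow_right₀ hX he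
  have h2 : 0 ≤ (1 + K) ^ 2 := sq_nonneg _
  refine le_trans ?_ h
  gcongr

theorem first {C L X K : ℝ} {m : ℕ} (hC : 1 ≤ C) (hX : 1 ≤ X) (hK : 0 ≤ K)
    (h : C * (1 + K) ^ 2 * X ^ (4 * m + 8) ≤ L) {a : ℝ} (ha0 : 0 ≤ a) {e : ℕ} (ha : a ≤ C)
    (he : e ≤ 4 * m + 8) :
    a * K * X ^ e ≤ L := by
  refine le_trans ?_ (basic hC hX hK h ha0 ha he)
  have h1 : K ≤ (1 + K) ^ 2 := by nlinarith
  gcongr

/-- the exchange condition -/
theorem exch {CE C L X Y K k k' : ℝ} {m : ℕ} (hCE : 1 ≤ CE) (hC : 40000 * CE ≤ C) (hX : 1 ≤ X)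
    (hY : 1 ≤ Y) (hYX : Y ≤ X) (hK : 0 ≤ K) (hk' : k' = 49 * X ^ (m + 1) * K)
    (hk : k = 3 * k' + X + 1) (h : C * (1 + K) ^ 2 * X ^ (4 * m + 8) ≤ L) :
    CE * (k + k') ^ 2 * Y ≤ L := by
  have hXm : 1 ≤ X ^ (m + 1) := one_le_pow₀ hX
  have hXX : X ≤ X ^ (m + 1) := by
    calc X = X ^ 1 := (pow_one X).symm
      _ ≤ X ^ (m + 1) := pow_le_pow_right₀ hX (by omega)
  have h1 : k + k' ≤ 200 * X ^ (m + 1) * (1 + K) := by
    rw [hk, hk']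
    nlinarith [mul_nonneg (by linarith : (0 : ℝ) ≤ X ^ (m + 1)) hK]
  have h0 : 0 ≤ k + k' := by
    rw [hk, hk']
    have : 0 ≤ 49 * X ^ (m + 1) * K := by positivity
    linarith
  have h2 : (k + k') ^ 2 ≤ (200 * X ^ (m + 1) * (1 + K)) ^ 2 := pow_le_pow_left₀ h0 h1 2
  have h3 : CE * (k + k') ^ 2 * Y ≤ CE * (200 * X ^ (m + 1) * (1 + K)) ^ 2 * X := by
    gcongr
  refine h3.trans ?_
  have h4 : CE * (200 * X ^ (m + 1) * (1 + K)) ^ 2 * X =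
      (40000 * CE) * (1 + K) ^ 2 * X ^ (2 * m + 3) := by
    have : X ^ (2 * m + 3) = (X ^ (m + 1)) ^ 2 * X := by ring
    rw [this]
    ring
  rw [h4]
  exact basic (by linarith) hX hK h (by linarith) hC (by omega)

/-- the bracket of TOPM and TOPS -/
theorem bracket {CE C L S X Y K κ β2 η lg cg R2 : ℝ} {m : ℕ} (hCE : 1 ≤ CE)
    (hC1 : 196 * 196 ≤ C) (hC2 : 196 * 202 * CE ≤ C) (hC3 : 2401 * cg ^ 2 ≤ C) (hX : 1 ≤ X)
    (hY : 1 ≤ Y) (hYX : Y ^ 4 = X) (hK : 0 ≤ K) (hL : 0 < L) (hS : 0 < S) (hSL : S ^ 2 = L)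
    (hκ0 : 0 ≤ κ) (hκ : κ ≤ 202 * CE * X ^ (m + 1) * (1 + K)) (hβ2 : β2 = 196 * X ^ m)
    (hlg0 : 0 ≤ lg) (hlg : lg ≤ cg * Y)
    (hη : η ≤ lg ^ 2 * (2401 * X ^ (2 * m + 2) * K ^ 2 / L)) (hR : R2 ≤ X)
    (h : C * (1 + K) ^ 2 * X ^ (4 * m + 8) ≤ L) :
    Y + η + K / L * (β2 * (S + κ) * Y + R2) ≤ 5 * Y := by
  have hYX2 : Y ^ 2 ≤ X := by
    rw [← hYX]
    exact pow_le_pow_right₀ hY (by norm_num)
  have hYX1 : Y ≤ X := by
    rw [← hYX]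
    calc Y = Y ^ 1 := (pow_one Y).symm
      _ ≤ Y ^ 4 := pow_le_pow_right₀ hY (by norm_num)
  have hC0 : 1 ≤ C := by linarith
  have hX0 : 0 < X := by linarith
  -- η
  have e1 : η ≤ 1 := by
    refine hη.trans ?_
    rw [← mul_div_assoc, div_le_one hL]
    have h1 : lg ^ 2 ≤ (cg * Y) ^ 2 := pow_le_pow_left₀ hlg0 hlg 2
    calc lg ^ 2 * (2401 * X ^ (2 * m + 2) * K ^ 2) ≤
        (cg * Y) ^ 2 * (2401 * X ^ (2 * m + 2) * K ^ 2) := by gcongr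
      _ = (2401 * cg ^ 2) * K ^ 2 * (Y ^ 2 * X ^ (2 * m + 2)) := by ring
      _ ≤ (2401 * cg ^ 2) * (1 + K) ^ 2 * (X * X ^ (2 * m + 2)) := by
          have : K ^ 2 ≤ (1 + K) ^ 2 := pow_le_pow_left₀ hK (by linarith) 2
          gcongr
      _ = (2401 * cg ^ 2) * (1 + K) ^ 2 * X ^ (2 * m + 3) := by ring
      _ ≤ L := basic hC0 hX hK h (by positivity) hC3 (by omega)
  -- the square root term
  have e2 : K / L * (β2 * S * Y) ≤ 1 := by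
    have h1 : (K / L * (β2 * S * Y)) ^ 2 ≤ 1 := by
      have h2 : (K / L * (β2 * S * Y)) ^ 2 = (38416 * K ^ 2 * (Y ^ 2 * X ^ (2 * m))) / L := by
        rw [hβ2]
        have h3 : X ^ (2 * m) = (X ^ m) ^ 2 := by ring
        rw [h3, ← hSL]
        field_simp
        ring
      rw [h2, div_le_one hL]
      calc 38416 * K ^ 2 * (Y ^ 2 * X ^ (2 * m)) ≤ 38416 * (1 + K) ^ 2 * (X * X ^ (2 * m)) := by
            have : K ^ 2 ≤ (1 + K) ^ 2 := pow_le_pow_left₀ hK (by linarith) 2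
            gcongr
        _ = 38416 * (1 + K) ^ 2 * X ^ (2 * m + 1) := by ring
        _ ≤ L := basic hC0 hX hK h (by norm_num) (by linarith) (by omega)
    have h0 : 0 ≤ K / L * (β2 * S * Y) := by
      rw [hβ2]
      positivity
    exact (sq_le_one_iff₀ h0).1 h1
  -- the drift term
  have e3 : K / L * (β2 * κ * Y) ≤ 1 := by
    rw [div_mul_eq_mul_div, div_le_one hL]
    calc K * (β2 * κ * Y) ≤
        (1 + K) * (196 * X ^ m * (202 * CE * X ^ (m + 1) * (1 + K)) * X) := by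
          rw [hβ2]
          gcongr
          linarith
      _ = (196 * 202 * CE) * (1 + K) ^ 2 * X ^ (2 * m + 2) := by ring
      _ ≤ L := basic hC0 hX hK h (by positivity) hC2 (by omega)
  -- the crude term
  have e4 : K / L * R2 ≤ 1 := by
    rw [div_mul_eq_mul_div, div_le_one hL]
    calc K * R2 ≤ K * X := by gcongr
      _ = 1 * K * X ^ 1 := by ring
      _ ≤ L := first hC0 hX hK h zero_le_one hC0 (by omega)
  have e5 : K / L * (β2 * (S + κ) * Y + R2) =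
      K / L * (β2 * S * Y) + K / L * (β2 * κ * Y) + K / L * R2 := by ring
  rw [e5]
  linarith

/-- logarithm -/
theorem lg_le {L : ℕ} (hL : 1 ≤ L) {ε : ℝ} (hε : 0 < ε) :
    (Nat.log 2 L : ℝ) + 1 ≤ (2 / ε + 1) * (L : ℝ) ^ ε := by
  have hL1 : (1 : ℝ) ≤ L := by exact_mod_cast hL
  have hL0 : (0 : ℝ) < L := by linarith
  have h1 : (Nat.log 2 L : ℝ) ≤ Real.log L / Real.log 2 := by
    have := Real.natLog_le_logb L 2
    rw [Real.logb] at this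
    exact_mod_cast this
  have hlog2 : 1 / 2 ≤ Real.log 2 := by
    have := Real.log_two_gt_d9
    linarith
  have hlogL : 0 ≤ Real.log L := Real.log_nonneg hL1
  have h2 : Real.log L / Real.log 2 ≤ 2 * Real.log L := by
    rw [div_le_iff₀ (by linarith)]
    nlinarith
  have h3 : Real.log L ≤ (L : ℝ) ^ ε / ε := Real.log_le_rpow_div hL0.le hε
  have h4 : (1 : ℝ) ≤ (L : ℝ) ^ ε := Real.one_le_rpow hL1 hε.le
  have h5 : 2 * ((L : ℝ) ^ ε / ε) = 2 / ε * (L : ℝ) ^ ε := by ring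
  calc (Nat.log 2 L : ℝ) + 1 ≤ 2 * Real.log L + 1 := by linarith
    _ ≤ 2 * ((L : ℝ) ^ ε / ε) + (L : ℝ) ^ ε := by gcongr
    _ = (2 / ε + 1) * (L : ℝ) ^ ε := by rw [h5]; ring

/-- a power of `L` beats a constant -/
theorem big {L : ℕ} {ε Λ C : ℝ} (hε : 0 < ε) (hΛ : 0 ≤ Λ) (hC : Λ ^ (1 / ε) ≤ C)
    (hL : C ≤ (L : ℝ)) : Λ ≤ (L : ℝ) ^ ε := by
  have h1 : Λ = (Λ ^ (1 / ε)) ^ ε := by
    rw [← Real.rpow_mul hΛ, one_div_mul_cancel hε.ne', Real.rpow_one]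
  rw [h1]
  exact Real.rpow_le_rpow (Real.rpow_nonneg hΛ _) (hC.trans hL) hε.le

end Pool.Agent.SHD.SN23
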