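import Pool.Agent.Lib.MP_a7b2aa_an.SHD.StageA23
import Pool.Agent.Lib.MP_a7b2aa_an.SHD.StageN23

/-!
SHD3, module STAGE, part B (helper23): one stage, one condition.
-/

set_option autoImplicit false

namespace Pool.Agent.SHD

open Finset Pool.Agent.SB3 Pool.Agent.SBT Pool.Agent.SBD

namespace S23

variable {m L : ℕ}

open Classical in
theorem Pr_density {ρ ρ' : Pt m L → ℝ} {P Q : Pt m L → Prop} {c : ℝ}
    (hρ' : ∀ ω, 0 ≤ ρ' ω) (hc : 0 ≤ c) (h : ∀ ω, P ω → ρ ω ≤ c * ρ' ω) (hPQ : ∀ ω, P ω → Q ω) :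
    Pr ρ P ≤ c * Pr ρ' Q := by
  unfold Pr Ex
  rw [← Av_smul]
  refine Av_mono fun ω => ?_
  by_cases hP : P ω
  · simp only [hP, hPQ ω hP, if_true, mul_one]
    exact h ω hP
  · simp only [hP, if_false, mul_zero]
    have := hρ' ω
    split_ifs <;> positivity

theorem bN_eq {ε : ℝ} (u : ℕ) : bN L ε u = 49 * ((L : ℝ) ^ ε) ^ (u + 1) := by
  unfold bN
  congr 1
  rw [← Real.rpow_natCast, ← Real.rpow_mul (Nat.cast_nonneg L)]
  congr 1
  push_cast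
  ring

theorem BN_eq {ε : ℝ} : BN m L ε = 49 * ((L : ℝ) ^ ε) ^ (m + 1) * (L : ℝ) ^ (m - 1) := by
  unfold BN
  congr 2
  rw [← Real.rpow_natCast, ← Real.rpow_mul (Nat.cast_nonneg L)]
  congr 1
  push_cast
  ring

/-- the gate before `j` -/
noncomputable def gj (ε lam : ℝ) (v : (Fin (m + 1) → ℕ) → Pt m L → ℝ) (j i : ℕ)
    (ω : Pt m L) : ℝ := if i < j then gN ε lam v i ω else 0

/-- the good event at the stage `j` with `u` summed strings -/
def Gu (ε lam : ℝ) (v : (Fin (m + 1) → ℕ) → Pt m L → ℝ) (j u : ℕ) (ω : Pt m L) : Prop :=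
  (∀ i < j, gN ε lam v i ω = 1) ∧ Nt (bN L ε) v j u ω

theorem bl_le {U : Finset (Fin (m + 1))} {lo hi : Fin (m + 1) → ℕ} (h : ∀ e ∈ U, hi e ≤ L) :
    bl U lo hi ≤ (L : ℝ) ^ U.card := by
  unfold bl
  rw [← prod_const]
  refine prod_le_prod (fun e _ => Nat.cast_nonneg _) fun e he => ?_
  have := h e he
  exact_mod_cast (by omega : hi e - lo e ≤ L)

theorem bl_nonneg (U : Finset (Fin (m + 1))) (lo hi : Fin (m + 1) → ℕ) : 0 ≤ bl U lo hi :=
  prod_nonneg fun e _ => Nat.cast_nonneg _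

theorem jb_le {j : ℕ} (hj : j ≤ L) (e : Fin (m + 1)) : jb L j e ≤ L := by
  unfold jb
  by_cases he : e = 0
  · subst he
    simpa using hj
  · simp [Function.update_of_ne he]

theorem XX_of_open {ε lam : ℝ} {v : (Fin (m + 1) → ℕ) → Pt m L → ℝ} {i : ℕ} {ω : Pt m L}
    (h : gN ε lam v i ω = 1) : XX v i ω ^ 2 ≤ BN m L ε := by
  obtain ⟨h1, _, h3, _⟩ := gn_one.1 h
  have := h3 (fun _ => 0) (jb L (i + 1)) (fun a => jb_le (by omega) a) (by simp [jb]) i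
  rwa [XX_cut (Nat.lt_succ_self i)] at this

theorem C_of_open {ε lam : ℝ} (hε : 0 < ε) (hL : 1 ≤ L) {v : (Fin (m + 1) → ℕ) → Pt m L → ℝ}
    {b : Fin (m + 1)} (hb : b ≠ 0) {j : ℕ} (hj : j ≤ L) {ω : Pt m L}
    (h : ∀ i < j, gN ε lam v i ω = 1) (w : Fin L → ℝ) :
    ∑ i ∈ range j, (∑ t : Fin L, Bm b v i t ω * w t) ^ 2 ≤ BN m L ε * ∑ t, w t ^ 2 := by
  rcases Nat.eq_zero_or_pos j with hj0 | hj0
  · subst hj0
    rw [range_zero, sum_empty]
    have : 0 ≤ BN m L ε := by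
      rw [BN_eq]
      positivity
    exact mul_nonneg this (sum_nonneg fun _ _ => sq_nonneg _)
  · refine C_norm hb hj ?_ w
    obtain ⟨_, h2, _, _⟩ := gn_one.1 (h (j - 1) (by omega))
    have hcard : ((Inn m).erase b).card = m - 1 := by
      rw [card_erase_of_mem (by simp [Inn, hb])]
      simp [Inn]
    have h3 := h2 (fun _ => 0) (jb L j) ((Inn m).erase b) 0 b (fun _ => 0)
      ⟨fun a => jb_le hj a, fun h0 => absurd h0 (by simp [Inn]), fun _ => by simp [jb]; omega⟩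
      (Ne.symm hb) (by simp [Inn]) (by simp) (by rw [hcard]; omega)
    refine NB_mono33 h3 ?_
    rw [hcard, bN_eq, BN_eq]
    have hX : (1 : ℝ) ≤ (L : ℝ) ^ ε := Real.one_le_rpow (by exact_mod_cast hL) hε.le
    have h4 : bl ((Inn m).erase b) (fun _ => 0) (jb L j) ≤ (L : ℝ) ^ (m - 1) := by
      have := bl_le (m := m) (U := (Inn m).erase b) (lo := fun _ => 0) (hi := jb L j) (L := L)
        (fun e _ => jb_le hj e)
      rwa [hcard] at this
    have h5 : ((L : ℝ) ^ ε) ^ (m - 1 + 1) ≤ ((L : ℝ) ^ ε) ^ (m + 1) :=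
      pow_le_pow_right₀ hX (by omega)
    have h6 := bl_nonneg (m := m) ((Inn m).erase b) (fun _ => 0) (jb L j)
    gcongr

theorem monotone_bN {ε : ℝ} (hε : 0 < ε) (hL : 1 ≤ L) : Monotone (bN L ε) := by
  intro u u' h
  rw [bN_eq, bN_eq]
  have hX : (1 : ℝ) ≤ (L : ℝ) ^ ε := Real.one_le_rpow (by exact_mod_cast hL) hε.le
  have := pow_le_pow_right₀ hX (by omega : u + 1 ≤ u' + 1)
  linarith

theorem bN_nonneg {ε : ℝ} (u : ℕ) : 0 ≤ bN L ε u := by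
  rw [bN_eq]
  positivity

theorem one_le_bN {ε : ℝ} (hε : 0 < ε) (hL : 1 ≤ L) (u : ℕ) : 1 ≤ bN L ε u := by
  rw [bN_eq]
  have hX : (1 : ℝ) ≤ (L : ℝ) ^ ε := Real.one_le_rpow (by exact_mod_cast hL) hε.le
  have := one_le_pow₀ hX (n := u + 1)
  linarith

/-- everything about the law of the stage `j` -/
structure Ctx (N R j : ℕ) (ε lam : ℝ) (v : (Fin (m + 1) → ℕ) → Pt m L → ℝ) : Prop where
  hm : 2 ≤ m
  hL : 1 ≤ L
  hj : j < L
  hε : 0 < ε
  hlam : 0 ≤ lam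
  hv : ArF N R v
  small : 49 * (lam ^ 2 * (L : ℝ) ^ m) * ((L : ℝ) ^ ε) ^ (m + 1) ≤ L

section ctx

variable {N R j : ℕ} {ε lam : ℝ} {v : (Fin (m + 1) → ℕ) → Pt m L → ℝ}

theorem Ctx.lamBN (h : Ctx N R j ε lam v) : lam ^ 2 * BN m L ε ≤ 1 := by
  have hL0 : (0 : ℝ) < L := by exact_mod_cast h.hL
  have h1 : lam ^ 2 * BN m L ε * L = 49 * (lam ^ 2 * (L : ℝ) ^ m) * ((L : ℝ) ^ ε) ^ (m + 1) := by
    rw [BN_eq]
    have : (L : ℝ) ^ m = (L : ℝ) ^ (m - 1) * L := by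
      rw [← pow_succ, Nat.sub_add_cancel (by have := h.hm; omega)]
    rw [this]
    ring
  have h2 := h.small
  rw [← h1] at h2
  have h3 : lam ^ 2 * BN m L ε * L ≤ 1 * L := by linarith
  exact le_of_mul_le_mul_right h3 hL0

theorem Ctx.kp (h : Ctx N R j ε lam v) :
    lam ^ 2 * BN m L ε * L = 49 * ((L : ℝ) ^ ε) ^ (m + 1) * (lam ^ 2 * (L : ℝ) ^ m) := by
  rw [BN_eq]
  have : (L : ℝ) ^ m = (L : ℝ) ^ (m - 1) * L := by
    rw [← pow_succ, Nat.sub_add_cancel (by have := h.hm; omega)]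
  rw [this]
  ring

theorem BN_nonneg : 0 ≤ BN m L ε := by
  rw [BN_eq]
  positivity

theorem Ctx.DN_nonneg (h : Ctx N R j ε lam v) : 0 ≤ DN m L ε lam := by
  unfold DN
  have := BN_nonneg (m := m) (L := L) (ε := ε)
  have : 0 ≤ (L : ℝ) ^ ε := Real.rpow_nonneg (Nat.cast_nonneg _) _
  have := h.hlam
  positivity

theorem Ctx.gate (h : Ctx N R j ε lam v) (hG : StGtN) : Gate (gN ε lam v) := by
  have hX : (1 : ℝ) ≤ (L : ℝ) ^ ε := Real.one_le_rpow (by exact_mod_cast h.hL) h.hε.le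
  have := hG m L N R (bN L ε) (BN m L ε) (DN m L ε lam) lam
    (fun u => BN m L ε / (L : ℝ) ^ (m - 1) * (L : ℝ) ^ u) v h.hv bN_nonneg ?_ ?_
  · exact this.1
  · intro u hu
    have hL0 : (0 : ℝ) < L := by exact_mod_cast h.hL
    have e : BN m L ε / (L : ℝ) ^ (m - 1) = 49 * ((L : ℝ) ^ ε) ^ (m + 1) := by
      rw [BN_eq]
      field_simp
    rw [e, bN_eq]
    have := pow_le_pow_right₀ hX (by omega : u + 1 ≤ m + 1)
    gcongr
  · have hL0 : (0 : ℝ) < L := by exact_mod_cast h.hL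
    have : (0 : ℝ) < (L : ℝ) ^ (m - 1) := by positivity
    rw [div_mul_cancel₀ _ this.ne']

theorem Ctx.abs_le (h : Ctx N R j ε lam v) (i : ℕ) (ω : Pt m L) :
    |tg lam (gN ε lam v) v i ω| ≤ 1 := by
  unfold tg
  by_cases hg : gN ε lam v i ω = 1
  · rw [hg, mul_one]
    have h1 := XX_of_open hg
    have h2 := h.lamBN
    have h3 : (lam * XX v i ω) ^ 2 ≤ 1 := by
      rw [mul_pow]
      exact (mul_le_mul_of_nonneg_left h1 (sq_nonneg _)).trans h2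
    exact (sq_le_one_iff_abs_le_one _).1 h3
  · have h0 : gN ε lam v i ω = 0 := by
      unfold gN gn at hg ⊢
      split_ifs at hg ⊢ with h1
      · exact absurd rfl hg
      · rfl
    rw [h0, mul_zero, abs_zero]
    exact zero_le_one

theorem Ctx.law (h : Ctx N R j ε lam v) (hG : StGtN) (hLw : StLawN) :
    Prd (tg lam (gN ε lam v) v) ∧ Law (DN m L ε lam + 1) (qq (tg lam (gN ε lam v) v)) :=
  hLw m L N R (DN m L ε lam) lam (gN ε lam v) v h.DN_nonneg h.hv (h.gate hG) h.abs_le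
    fun i ω hg => (gn_one.1 hg).2.2.2 i le_rfl

theorem tg_gj (i : ℕ) (ω : Pt m L) : tg lam (gj ε lam v j) v i ω =
    if i < j then tg lam (gN ε lam v) v i ω else 0 := by
  unfold tg gj
  by_cases hi : i < j
  · simp [hi]
  · simp [hi]

theorem Ctx.lawj (h : Ctx N R j ε lam v) (hG : StGtN) (hLw : StLawN) :
    Prd (tg lam (gj ε lam v j) v) ∧ Law (DN m L ε lam + 1) (qq (tg lam (gj ε lam v j) v)) := by
  refine hLw m L N R (DN m L ε lam) lam (gj ε lam v j) v h.DN_nonneg h.hv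
    (gate_cut (h.gate hG) j) (fun i ω => ?_) fun i ω hg => ?_
  · rw [tg_gj]
    split_ifs
    · exact h.abs_le i ω
    · simp
  · unfold gj at hg
    split_ifs at hg with hi
    · exact (gn_one.1 hg).2.2.2 i le_rfl
    · exact absurd hg zero_ne_one

theorem Gu.fact1 {u : ℕ} {ω : Pt m L} (h : Gu ε lam v j u ω) :
    ∀ i < j, tg lam (gj ε lam v j) v i ω = lam * XX v i ω ∧ XX v i ω ^ 2 ≤ BN m L ε := by
  intro i hi
  have h1 := h.1 i hi
  refine ⟨?_, XX_of_open h1⟩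
  rw [tg_gj, if_pos hi]
  unfold tg
  rw [h1, mul_one]

/-- the exchange, for events: the statement -/
def ExP (m n : ℕ) (ε1 CE : ℝ) : Prop :=
    ∀ (L N R j : ℕ) (ε lam D : ℝ) (v : (Fin (m + 1) → ℕ) → Pt m L → ℝ) (b : Fin (m + 1))
      (u : ℕ) (P : Pt m L → Prop), Ctx N R j ε lam v → b ≠ 0 →
      CE * (DN m L ε lam + 1 + lam ^ 2 * BN m L ε * L) ^ 2 * (L : ℝ) ^ ε1 ≤ L →
      CE * (DN m L ε lam + 1 + lam ^ 2 * BN m L ε * L + (L : ℝ) ^ ε1) ≤ D →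
      Pr (qq (tg lam (gj ε lam v j) v)) (fun ω => Gu ε lam v j u ω ∧ P ω) ≤
        CE / (L + 1) ^ n + Real.exp 1 * Pr (rr lam D b v j) (fun ω =>
          (Gu ε lam v j u ω ∧ ∀ r < L, bh lam D b v j r ω = be lam b v j r ω) ∧ P ω)

/-- the exchange, for events -/
theorem exch_event (hEx : StExch) (hRl : StRlaw) (hG : StGtN) (hLw : StLawN)
    {m n : ℕ} {ε1 : ℝ} (hm : 1 ≤ m) (hε1 : 0 < ε1) : ∃ CE : ℝ, 1 ≤ CE ∧ ExP m n ε1 CE := by
  obtain ⟨CE, hCE, h⟩ := hEx m n ε1 hm hε1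
  refine ⟨CE, hCE, ?_⟩
  intro L N R j ε lam D v b u P hc hb h1 h2
  have hlaw := hc.lawj hG hLw
  have hD0 : 0 ≤ D := by
    refine le_trans ?_ h2
    have := hc.DN_nonneg
    have := BN_nonneg (m := m) (L := L) (ε := ε)
    have : 0 ≤ (L : ℝ) ^ ε1 := Real.rpow_nonneg (Nat.cast_nonneg _) _
    positivity
  have h3 := h L N R j (DN m L ε lam + 1) lam (BN m L ε) D b v (tg lam (gj ε lam v j) v)
    (Gu ε lam v j u) hc.hL hc.hj.le hb (by have := hc.DN_nonneg; linarith) hc.hlam BN_nonneg hc.hv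
    hlaw.1 hlaw.2 (fun i ω hi => by rw [tg_gj, if_neg (by omega)])
    (fun ω hω => ⟨hω.fact1, fun w => C_of_open hc.hε hc.hL hb hc.hj.le hω.1 w⟩) h1 h2
  have hrr : ∀ ω, 0 ≤ rr lam D b v j ω := (hRl m L N R j lam D b v hb hD0 hc.hv).1.nonneg
  set Good : Pt m L → Prop := fun ω => qq (tg lam (gj ε lam v j) v) ω ≤
    Real.exp 1 * rr lam D b v j ω ∧ rr lam D b v j ω ≤
      Real.exp 1 * qq (tg lam (gj ε lam v j) v) ω ∧
      ∀ r < L, bh lam D b v j r ω = be lam b v j r ω with hGood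
  calc Pr (qq (tg lam (gj ε lam v j) v)) (fun ω => Gu ε lam v j u ω ∧ P ω) ≤
      Pr (qq (tg lam (gj ε lam v j) v)) (fun ω => (Gu ε lam v j u ω ∧ ¬ Good ω) ∨
        (Gu ε lam v j u ω ∧ P ω ∧ Good ω)) := by
        refine Pr_mono hlaw.2 fun ω hω => ?_
        by_cases hg : Good ω
        · exact Or.inr ⟨hω.1, hω.2, hg⟩
        · exact Or.inl ⟨hω.1, hg⟩
    _ ≤ _ := Pr_or_le hlaw.2 _ _
    _ ≤ _ := add_le_add h3 (Pr_density hrr (Real.exp_pos 1).le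
        (fun ω hω => hω.2.2.1) fun ω hω => ⟨⟨hω.1, hω.2.2.2.2⟩, hω.2.1⟩)

end ctx

end S23

end Pool.Agent.SHD
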