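import Pool.Agent.Lib.MP_a7b2aa_an.SHD.StageB23

/-!
SHD3, module STAGE, part C (helper23): one condition.
-/

set_option autoImplicit false

namespace Pool.Agent.SHD

open Finset Pool.Agent.SB3 Pool.Agent.SBT Pool.Agent.SBD

namespace S23

variable {m L : ℕ}

/-- the numerical hypotheses of the stage -/
structure Nm (m L R : ℕ) (ε lam CE cg Λ C : ℝ) : Prop where
  hCE : 1 ≤ CE
  c1 : 40000 * CE ≤ C
  c2 : 2401 * cg ^ 2 ≤ C
  c3 : Λ ^ (1 / (ε / 4)) ≤ C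
  hΛ : 1 ≤ Λ
  cg : 2 / (ε / 4) + 1 ≤ cg
  hR : ((R : ℝ) + 1) ^ (2 * m + 2) ≤ (L : ℝ) ^ ε
  main : C * (1 + lam ^ 2 * (L : ℝ) ^ m) ^ 2 * (L : ℝ) ^ ((4 * (m : ℝ) + 8) * ε) ≤ L

section nm

variable {N R j : ℕ} {ε lam CE cg Λ C : ℝ} {v : (Fin (m + 1) → ℕ) → Pt m L → ℝ}

theorem Nm.main' (h : Nm m L R ε lam CE cg Λ C) :
    C * (1 + lam ^ 2 * (L : ℝ) ^ m) ^ 2 * ((L : ℝ) ^ ε) ^ (4 * m + 8) ≤ L := by
  have e : ((L : ℝ) ^ ε) ^ (4 * m + 8) = (L : ℝ) ^ ((4 * (m : ℝ) + 8) * ε) := by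
    rw [← Real.rpow_natCast, ← Real.rpow_mul (Nat.cast_nonneg L)]
    congr 1
    push_cast
    ring
  rw [e]
  exact h.main

theorem Nm.C_le (h : Nm m L R ε lam CE cg Λ C) (hL : 1 ≤ L) (hε : 0 < ε) : C ≤ (L : ℝ) := by
  refine le_trans ?_ h.main'
  have hX : (1 : ℝ) ≤ (L : ℝ) ^ ε := Real.one_le_rpow (by exact_mod_cast hL) hε.le
  have h1 : 1 ≤ ((L : ℝ) ^ ε) ^ (4 * m + 8) := one_le_pow₀ hX
  have hK : 0 ≤ lam ^ 2 * (L : ℝ) ^ m := by positivity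
  have h2 : 1 ≤ (1 + lam ^ 2 * (L : ℝ) ^ m) ^ 2 := by nlinarith
  have hC0 : 0 ≤ C := by
    have := h.c1
    have := h.hCE
    linarith
  calc C = C * 1 * 1 := by ring
    _ ≤ _ := by gcongr

theorem Nm.lam_le (h : Nm m L R ε lam CE cg Λ C) (hL : 1 ≤ L) (hε : 0 < ε) :
    Λ ≤ (L : ℝ) ^ (ε / 4) :=
  SN23.big (by linarith) (by linarith [h.hΛ]) h.c3 (h.C_le hL hε)

theorem Y4 {ε : ℝ} : ((L : ℝ) ^ (ε / 4)) ^ 4 = (L : ℝ) ^ ε := by
  rw [← Real.rpow_natCast, ← Real.rpow_mul (Nat.cast_nonneg L)]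
  congr 1
  push_cast
  ring

theorem mkCtx (h : Nm m L R ε lam CE cg Λ C) (hm : 2 ≤ m) (hL : 1 ≤ L) (hj : j < L)
    (hε : 0 < ε) (hlam : 0 ≤ lam) (hv : ArF N R v) : Ctx N R j ε lam v := by
  refine ⟨hm, hL, hj, hε, hlam, hv, ?_⟩
  have hX : (1 : ℝ) ≤ (L : ℝ) ^ ε := Real.one_le_rpow (by exact_mod_cast hL) hε.le
  have hC : 49 ≤ C := by
    have := h.c1
    have := h.hCE
    linarith
  exact SN23.first (m := m) (by linarith) hX (by positivity) h.main' (by norm_num) hC (by omega)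

/-- the exponent of the exchanged law -/
noncomputable def DD (m L : ℕ) (ε lam CE : ℝ) : ℝ :=
  CE * (DN m L ε lam + 1 + lam ^ 2 * BN m L ε * L + (L : ℝ) ^ (ε / 4))

theorem num_exch (h : Nm m L R ε lam CE cg Λ C) (hc : Ctx N R j ε lam v) :
    CE * (DN m L ε lam + 1 + lam ^ 2 * BN m L ε * L) ^ 2 * (L : ℝ) ^ (ε / 4) ≤ L := by
  have hL1 : (1 : ℝ) ≤ L := by exact_mod_cast hc.hL
  have hX : (1 : ℝ) ≤ (L : ℝ) ^ ε := Real.one_le_rpow hL1 hc.hε.le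
  have hY : (1 : ℝ) ≤ (L : ℝ) ^ (ε / 4) := Real.one_le_rpow hL1 (by linarith [hc.hε])
  have hYX : (L : ℝ) ^ (ε / 4) ≤ (L : ℝ) ^ ε :=
    Real.rpow_le_rpow_of_exponent_le hL1 (by linarith [hc.hε])
  have e : DN m L ε lam = 3 * (lam ^ 2 * BN m L ε * L) + (L : ℝ) ^ ε := by
    unfold DN
    ring
  refine SN23.exch (m := m) (k' := lam ^ 2 * BN m L ε * L) (C := C) h.hCE h.c1 hX hY hYX
    (by positivity : 0 ≤ lam ^ 2 * (L : ℝ) ^ m) hc.kp (by rw [e]) h.main'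

theorem DN_le (hc : Ctx N R j ε lam v) :
    DN m L ε lam + 1 + lam ^ 2 * BN m L ε * L + (L : ℝ) ^ (ε / 4) ≤
      199 * ((L : ℝ) ^ ε) ^ (m + 1) * (1 + lam ^ 2 * (L : ℝ) ^ m) := by
  have hL1 : (1 : ℝ) ≤ L := by exact_mod_cast hc.hL
  have hX : (1 : ℝ) ≤ (L : ℝ) ^ ε := Real.one_le_rpow hL1 hc.hε.le
  have hYX : (L : ℝ) ^ (ε / 4) ≤ (L : ℝ) ^ ε :=
    Real.rpow_le_rpow_of_exponent_le hL1 (by linarith [hc.hε])
  have hXX : (L : ℝ) ^ ε ≤ ((L : ℝ) ^ ε) ^ (m + 1) := by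
    calc (L : ℝ) ^ ε = ((L : ℝ) ^ ε) ^ 1 := (pow_one _).symm
      _ ≤ ((L : ℝ) ^ ε) ^ (m + 1) := pow_le_pow_right₀ hX (by omega)
  have hK : 0 ≤ lam ^ 2 * (L : ℝ) ^ m := by positivity
  have hX0 : 0 ≤ ((L : ℝ) ^ ε) ^ (m + 1) := by linarith
  have h1 := mul_nonneg hX0 hK
  unfold DN
  have e : 3 * lam ^ 2 * BN m L ε * L = 3 * (lam ^ 2 * BN m L ε * L) := by ring
  rw [e, hc.kp]
  nlinarith

theorem kappa_le (h : Nm m L R ε lam CE cg Λ C) (hc : Ctx N R j ε lam v) :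
    DD m L ε lam CE + 1 ≤ 202 * CE * ((L : ℝ) ^ ε) ^ (m + 1) * (1 + lam ^ 2 * (L : ℝ) ^ m) := by
  have h1 := DN_le hc
  have hCE := h.hCE
  have hL1 : (1 : ℝ) ≤ L := by exact_mod_cast hc.hL
  have hX : (1 : ℝ) ≤ (L : ℝ) ^ ε := Real.one_le_rpow hL1 hc.hε.le
  have hX1 : (1 : ℝ) ≤ ((L : ℝ) ^ ε) ^ (m + 1) := one_le_pow₀ hX
  have hK : 0 ≤ lam ^ 2 * (L : ℝ) ^ m := by positivity
  set A := ((L : ℝ) ^ ε) ^ (m + 1) * (1 + lam ^ 2 * (L : ℝ) ^ m) with hA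
  have hA1 : 1 ≤ A := by
    rw [hA]
    exact one_le_mul_of_one_le_of_one_le hX1 (by linarith)
  have h2 : DD m L ε lam CE ≤ CE * (199 * A) := by
    unfold DD
    refine mul_le_mul_of_nonneg_left ?_ (by linarith)
    rw [hA, ← mul_assoc]
    exact h1
  have h3 : 202 * CE * ((L : ℝ) ^ ε) ^ (m + 1) * (1 + lam ^ 2 * (L : ℝ) ^ m) = 202 * CE * A := by
    rw [hA]
    ring
  rw [h3]
  have h4 : 1 ≤ CE * A := one_le_mul_of_one_le_of_one_le hCE hA1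
  nlinarith

theorem DN1_le (h : Nm m L R ε lam CE cg Λ C) (hc : Ctx N R j ε lam v) :
    DN m L ε lam + 1 ≤ 202 * CE * ((L : ℝ) ^ ε) ^ (m + 1) * (1 + lam ^ 2 * (L : ℝ) ^ m) := by
  refine le_trans ?_ (kappa_le h hc)
  have hCE := h.hCE
  have h1 : 0 ≤ lam ^ 2 * BN m L ε * L := by
    rw [hc.kp]
    positivity
  have h2 : 0 ≤ (L : ℝ) ^ (ε / 4) := Real.rpow_nonneg (Nat.cast_nonneg _) _
  have h3 := hc.DN_nonneg
  unfold DD
  have h4 : 1 * (DN m L ε lam + 1 + lam ^ 2 * BN m L ε * L + (L : ℝ) ^ (ε / 4)) ≤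
      CE * (DN m L ε lam + 1 + lam ^ 2 * BN m L ε * L + (L : ℝ) ^ (ε / 4)) := by gcongr
  linarith

/-- the bracket -/
theorem brk (h : Nm m L R ε lam CE cg Λ C) (hc : Ctx N R j ε lam v) {κ η : ℝ} (hκ0 : 0 ≤ κ)
    (hκ : κ ≤ 202 * CE * ((L : ℝ) ^ ε) ^ (m + 1) * (1 + lam ^ 2 * (L : ℝ) ^ m))
    (hη : η ≤ lam ^ 4 * (((Nat.log 2 L : ℝ) + 1) ^ 2 * BN m L ε ^ 2 * L)) :
    (L : ℝ) ^ (ε / 4) + η + lam ^ 2 * (L : ℝ) ^ (m - 1) *
      (4 * bN L ε (m - 1) * (Real.sqrt L + κ) * (L : ℝ) ^ (ε / 4) + ((R : ℝ) + 1) ^ (2 * m + 2)) ≤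
      5 * (L : ℝ) ^ (ε / 4) := by
  have hL1 : (1 : ℝ) ≤ L := by exact_mod_cast hc.hL
  have hL0 : (0 : ℝ) < L := by linarith
  have hX : (1 : ℝ) ≤ (L : ℝ) ^ ε := Real.one_le_rpow hL1 hc.hε.le
  have hY : (1 : ℝ) ≤ (L : ℝ) ^ (ε / 4) := Real.one_le_rpow hL1 (by linarith [hc.hε])
  have hLm : (L : ℝ) ^ m = (L : ℝ) ^ (m - 1) * L := by
    rw [← pow_succ, Nat.sub_add_cancel (by have := hc.hm; omega)]
  have e1 : lam ^ 2 * (L : ℝ) ^ (m - 1) = lam ^ 2 * (L : ℝ) ^ m / L := by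
    rw [hLm]
    field_simp
  rw [e1]
  have hCE := h.hCE
  have hc1 := h.c1
  refine SN23.bracket (m := m) (CE := CE) (C := C) (S := Real.sqrt L) (X := (L : ℝ) ^ ε)
    (lg := (Nat.log 2 L : ℝ) + 1) (cg := cg) hCE (by linarith) (by linarith) h.c2 hX hY Y4
    (by positivity) hL0 (Real.sqrt_pos.2 hL0) (Real.sq_sqrt hL0.le) hκ0 hκ ?_ (by positivity) ?_
    ?_ h.hR h.main'
  · rw [bN_eq, Nat.sub_add_cancel (by have := hc.hm; omega)]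
    ring
  · refine (SN23.lg_le hc.hL (by linarith [hc.hε] : 0 < ε / 4)).trans ?_
    have := h.cg
    gcongr
  · refine hη.trans (le_of_eq ?_)
    rw [BN_eq, hLm]
    field_simp
    ring

/-- what the gate gives for the full matrices -/
theorem B_of_open (hB : StBext) (hc : Ctx N R j ε lam v) {ω : Pt m L}
    (h : ∀ i < j, gN ε lam v i ω = 1) (b s : Fin (m + 1)) (lo hi : Fin (m + 1) → ℕ) (hs : s ≠ b)
    (hhi : ∀ e, hi e ≤ jb L j e) :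
    NB (Mg ((univ.erase b).erase s) b s (fun _ => 0) (cut lo hi v) ω)
      (4 * bN L ε (m - 1) * bl ((univ.erase b).erase s) lo hi) :=
  hB m L N R j (bN L ε) (BN m L ε) (DN m L ε lam) lam v ω hc.hv hc.hj.le
    (by have := hc.hm; omega) bN_nonneg (monotone_bN hc.hε hc.hL) h b s lo hi hs hhi

/-- one matrix condition, exchanged string -/
theorem mat_inner (hRl : StRlaw) (hTM : StTopm)
    (hQ : StHqu) (hB : StBext) (hTr : StTri) (hN : StNbt) (m n : ℕ) (ε CE : ℝ) (hm : 2 ≤ m)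
    (hε : 0 < ε) (hCE : 1 ≤ CE) (hE : ExP m n (ε / 4) CE) : ∃ CT : ℝ, 1 ≤ CT ∧
    ∀ (L N R j u : ℕ) (lam cg Λ C : ℝ) (v : (Fin (m + 1) → ℕ) → Pt m L → ℝ)
      (U : Finset (Fin (m + 1))) (a c b : Fin (m + 1)) (q lo hi : Fin (m + 1) → ℕ),
      Nm m L R ε lam CE cg Λ C → Ctx N R j ε lam v → 5 * CT ≤ Λ → b ∈ U → b ≠ 0 → a ≠ c →
      a ∉ U → c ∉ U → U.card = u + 1 → Ad L j U hi →
      Pr (qq (tg lam (gj ε lam v j) v)) (fun ω => Gu ε lam v j u ω ∧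
        ¬ NB (Mg U a c q (cut lo hi v) ω) (bN L ε (u + 1) * bl U lo hi)) ≤
        CE / (L + 1) ^ n + Real.exp 1 * (CT / (L + 1) ^ n) := by
  obtain ⟨CT, hCT, hT⟩ := hTM m n (ε / 4) (by omega) (by linarith)
  refine ⟨CT, hCT, ?_⟩
  intro L N R j u lam cg Λ C v U a c b q lo hi hNm hc hΛ hbU hb0 hac haU hcU hcard hAd
  have hL1 : (1 : ℝ) ≤ L := by exact_mod_cast hc.hL
  have hY : (1 : ℝ) ≤ (L : ℝ) ^ (ε / 4) := Real.one_le_rpow hL1 (by linarith)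
  have hD0 : 0 ≤ DD m L ε lam CE := by
    unfold DD
    have := hc.DN_nonneg
    have := BN_nonneg (m := m) (L := L) (ε := ε)
    positivity
  refine (hE L N R j ε lam (DD m L ε lam CE) v b u _ hc hb0 (num_exch hNm hc) le_rfl).trans ?_
  refine add_le_add le_rfl (mul_le_mul_of_nonneg_left ?_ (Real.exp_pos 1).le)
  have hrl := hRl m L N R j lam (DD m L ε lam CE) b v hb0 hD0 hc.hv
  have hTop := hT L N R j (DD m L ε lam CE + 1) lam (bN L ε u) (4 * bN L ε (m - 1))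
    (lam ^ 4 * (((Nat.log 2 L : ℝ) + 1) ^ 2 * BN m L ε ^ 2 * L)) (rr lam (DD m L ε lam CE) b v j) v
    (fun ω => Gu ε lam v j u ω ∧
      ∀ r < L, bh lam (DD m L ε lam CE) b v j r ω = be lam b v j r ω) b U a c q lo hi
    hc.hL hc.hj.le (by linarith) hc.hlam (one_le_bN hε hc.hL u)
    (by have := one_le_bN hε hc.hL (m - 1); linarith) (by positivity) hrl.1 hc.hv hbU hac haU hcU
    hAd.1 ?_ ?_ ?_
  · refine le_trans (Pr_mono hrl.1 ?_) hTop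
    rintro ω ⟨hω, hnb⟩
    refine ⟨hω, fun hnb' => hnb (NB_mono33 hnb' ?_)⟩
    have hb := brk hNm hc (κ := DD m L ε lam CE + 1) (by linarith) (kappa_le hNm hc) le_rfl
    have h1 : CT * bN L ε u * ((L : ℝ) ^ (ε / 4) +
        lam ^ 4 * (((Nat.log 2 L : ℝ) + 1) ^ 2 * BN m L ε ^ 2 * L) +
        lam ^ 2 * (L : ℝ) ^ (m - 1) * (4 * bN L ε (m - 1) *
          (Real.sqrt L + (DD m L ε lam CE + 1)) * (L : ℝ) ^ (ε / 4) +
            ((R : ℝ) + 1) ^ (2 * m + 2))) ≤ bN L ε (u + 1) := by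
      calc CT * bN L ε u * _ ≤ CT * bN L ε u * (5 * (L : ℝ) ^ (ε / 4)) := by
            refine mul_le_mul_of_nonneg_left hb ?_
            exact mul_nonneg (by linarith) (bN_nonneg u)
        _ = bN L ε u * ((5 * CT) * (L : ℝ) ^ (ε / 4)) := by ring
        _ ≤ bN L ε u * (L : ℝ) ^ ε := by
            refine mul_le_mul_of_nonneg_left ?_ (bN_nonneg u)
            have h2 : 5 * CT ≤ (L : ℝ) ^ (ε / 4) := hΛ.trans (hNm.lam_le hc.hL hε)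
            have h3 : (L : ℝ) ^ ε = ((L : ℝ) ^ (ε / 4)) ^ 4 := Y4.symm
            rw [h3]
            calc (5 * CT) * (L : ℝ) ^ (ε / 4) ≤ (L : ℝ) ^ (ε / 4) * (L : ℝ) ^ (ε / 4) := by gcongr
              _ = ((L : ℝ) ^ (ε / 4)) ^ 2 := by ring
              _ ≤ ((L : ℝ) ^ (ε / 4)) ^ 4 := pow_le_pow_right₀ hY (by norm_num)
        _ = bN L ε (u + 1) := by
            rw [bN_eq, bN_eq]
            ring
    exact mul_le_mul_of_nonneg_right h1 (bl_nonneg U lo hi)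
  · intro ω hω lo2 hi2 q2 hhi
    have hcd : (U.erase b).card = u := by
      rw [card_erase_of_mem hbU, hcard]
      rfl
    have hA2 : Ad L j (U.erase b) hi2 := by
      refine ⟨fun e => (hhi e).trans (hAd.1 e), fun h0 => ?_, fun h0 => ?_⟩
      · exact (hhi 0).trans (hAd.2.1 (mem_of_mem_erase h0))
      · refine (hhi 0).trans (hAd.2.2 fun h1 => h0 (mem_erase.2 ⟨Ne.symm hb0, h1⟩))
    have h1 := hω.1.2 lo2 hi2 (U.erase b) a c q2 hA2 hac (fun h => haU (mem_of_mem_erase h))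
      (fun h => hcU (mem_of_mem_erase h)) hcd.le
    have h2 := hω.1.2 lo2 hi2 (U.erase b) c a q2 hA2 (Ne.symm hac)
      (fun h => hcU (mem_of_mem_erase h)) (fun h => haU (mem_of_mem_erase h)) hcd.le
    rw [hcd] at h1 h2
    exact ⟨h1, h2⟩
  · intro ω hω s lo2 hi2 hs hhi
    exact B_of_open hB hc hω.1.1 b s lo2 hi2 hs hhi
  · intro ω hω _
    refine le_trans (le_of_eq ?_) (second_order hN hTr (b := b) (lam := lam) BN_nonneg
      fun w => C_of_open hc.hε hc.hL hb0 hc.hj.le hω.1.1 w)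
    refine sum_congr rfl fun r hr => ?_
    have hr' := mem_range.1 hr
    rw [hrl.2.2.2.2 r hr' ω, hω.2 r hr', (hQ m L j v ω r hc.hj.le hr').1 b hb0]

end nm

end S23

end Pool.Agent.SHD
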