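import Pool.Agent.Lib.MP_a7b2aa_an.SHD.StageC23

/-!
SHD3, module STAGE, part D (helper23): the other conditions.
-/

set_option autoImplicit false

namespace Pool.Agent.SHD

open Finset Pool.Agent.SB3 Pool.Agent.SBT Pool.Agent.SBD

namespace S23

section nm

open Classical in
theorem Pr_mono' {m L : ℕ} {k : ℝ} {ρ : Pt m L → ℝ} (h : Law k ρ) {P Q : Pt m L → Prop}
    (hPQ : ∀ ω, ρ ω ≠ 0 → P ω → Q ω) : Pr ρ P ≤ Pr ρ Q := by
  unfold Pr Ex
  refine Av_mono fun ω => ?_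
  by_cases h0 : ρ ω = 0
  · simp [h0]
  · refine mul_le_mul_of_nonneg_left ?_ (h.nonneg ω)
    by_cases hP : P ω
    · simp [hP, hPQ ω h0 hP]
    · by_cases hQ : Q ω <;> simp [hP, hQ]

theorem al_tg {m L N R j : ℕ} {ε lam : ℝ} {v : (Fin (m + 1) → ℕ) → Pt m L → ℝ}
    (hTl : StTiltK) (hA : StAlx) (hG : StGtN) (hLw : StLawN) (hc : Ctx N R j ε lam v) {i : ℕ}
    (hi : i < L) {ω : Pt m L} (h0 : qq (tg lam (gj ε lam v j) v) ω ≠ 0) :
    al (qq (tg lam (gj ε lam v j) v)) 0 i ω = tg lam (gj ε lam v j) v i ω := by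
  have hlaw := hc.lawj hG hLw
  exact hA m L _ _ _ 0 i hlaw.2 hi (hlaw.1.dep i)
    (fun X hX => (hTl m L _ hlaw.1).2.2.1 i hi X hX) ω h0

/-- one matrix condition, string `0` -/
theorem mat_zero (hTl : StTiltK) (hA : StAlx) (hG : StGtN) (hLw : StLawN) (hTM : StTopm)
    (hQ : StHqu) (hB : StBext) (m n : ℕ) (ε CE : ℝ) (hm : 2 ≤ m)
    (hε : 0 < ε) : ∃ CT : ℝ, 1 ≤ CT ∧
    ∀ (L N R j : ℕ) (lam cg Λ C : ℝ) (v : (Fin (m + 1) → ℕ) → Pt m L → ℝ)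
      (U : Finset (Fin (m + 1))) (a c : Fin (m + 1)) (q lo hi : Fin (m + 1) → ℕ),
      Nm m L R ε lam CE cg Λ C → Ctx N R j ε lam v → 5 * CT ≤ Λ → 0 ∈ U → a ≠ c →
      a ∉ U → c ∉ U → U.card = 1 → Ad L j U hi →
      Pr (qq (tg lam (gj ε lam v j) v)) (fun ω => Gu ε lam v j 0 ω ∧
        ¬ NB (Mg U a c q (cut lo hi v) ω) (bN L ε 1 * bl U lo hi)) ≤ CT / (L + 1) ^ n := by
  obtain ⟨CT, hCT, hT⟩ := hTM m n (ε / 4) (by omega) (by linarith)
  refine ⟨CT, hCT, ?_⟩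
  intro L N R j lam cg Λ C v U a c q lo hi hNm hc hΛ hbU hac haU hcU hcard hAd
  have hL1 : (1 : ℝ) ≤ L := by exact_mod_cast hc.hL
  have hY : (1 : ℝ) ≤ (L : ℝ) ^ (ε / 4) := Real.one_le_rpow hL1 (by linarith)
  have hlaw := hc.lawj hG hLw
  have hDN := hc.DN_nonneg
  have hTop := hT L N R j (DN m L ε lam + 1) lam (bN L ε 0) (4 * bN L ε (m - 1))
    0 (qq (tg lam (gj ε lam v j) v)) v (Gu ε lam v j 0) 0 U a c q lo hi
    hc.hL hc.hj.le (by linarith) hc.hlam (one_le_bN hε hc.hL 0)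
    (by have := one_le_bN hε hc.hL (m - 1); linarith) le_rfl hlaw.2 hc.hv hbU hac haU hcU
    hAd.1 ?_ ?_ ?_
  · refine le_trans (Pr_mono hlaw.2 ?_) hTop
    rintro ω ⟨hω, hnb⟩
    refine ⟨hω, fun hnb' => hnb (NB_mono33 hnb' ?_)⟩
    have hb := brk hNm hc (κ := DN m L ε lam + 1) (η := 0) (by linarith) (DN1_le hNm hc)
      (by positivity)
    have h1 : CT * bN L ε 0 * ((L : ℝ) ^ (ε / 4) + 0 +
        lam ^ 2 * (L : ℝ) ^ (m - 1) * (4 * bN L ε (m - 1) *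
          (Real.sqrt L + (DN m L ε lam + 1)) * (L : ℝ) ^ (ε / 4) +
            ((R : ℝ) + 1) ^ (2 * m + 2))) ≤ bN L ε 1 := by
      calc CT * bN L ε 0 * _ ≤ CT * bN L ε 0 * (5 * (L : ℝ) ^ (ε / 4)) := by
            refine mul_le_mul_of_nonneg_left hb ?_
            exact mul_nonneg (by linarith) (bN_nonneg 0)
        _ = bN L ε 0 * ((5 * CT) * (L : ℝ) ^ (ε / 4)) := by ring
        _ ≤ bN L ε 0 * (L : ℝ) ^ ε := by
            refine mul_le_mul_of_nonneg_left ?_ (bN_nonneg 0)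
            have h2 : 5 * CT ≤ (L : ℝ) ^ (ε / 4) := hΛ.trans (hNm.lam_le hc.hL hε)
            have h3 : (L : ℝ) ^ ε = ((L : ℝ) ^ (ε / 4)) ^ 4 := Y4.symm
            rw [h3]
            calc (5 * CT) * (L : ℝ) ^ (ε / 4) ≤ (L : ℝ) ^ (ε / 4) * (L : ℝ) ^ (ε / 4) := by gcongr
              _ = ((L : ℝ) ^ (ε / 4)) ^ 2 := by ring
              _ ≤ ((L : ℝ) ^ (ε / 4)) ^ 4 := pow_le_pow_right₀ hY (by norm_num)
        _ = bN L ε 1 := by
            rw [bN_eq, bN_eq]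
            ring
    exact mul_le_mul_of_nonneg_right h1 (bl_nonneg U lo hi)
  · intro ω hω lo2 hi2 q2 hhi
    have hcd : (U.erase 0).card = 0 := by
      rw [card_erase_of_mem hbU, hcard]
    have hA2 : Ad L j (U.erase 0) hi2 := by
      refine ⟨fun e => (hhi e).trans (hAd.1 e), fun h0 => ?_, fun h0 => ?_⟩
      · exact absurd h0 (by simp)
      · exact (hhi 0).trans ((hAd.2.1 hbU).trans (Nat.le_succ j))
    have h1 := hω.2 lo2 hi2 (U.erase 0) a c q2 hA2 hac (fun h => haU (mem_of_mem_erase h))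
      (fun h => hcU (mem_of_mem_erase h)) hcd.le
    have h2 := hω.2 lo2 hi2 (U.erase 0) c a q2 hA2 (Ne.symm hac)
      (fun h => hcU (mem_of_mem_erase h)) (fun h => haU (mem_of_mem_erase h)) hcd.le
    rw [hcd] at h1 h2
    exact ⟨h1, h2⟩
  · intro ω hω s lo2 hi2 hs hhi
    exact B_of_open hB hc hω.1 0 s lo2 hi2 hs hhi
  · intro ω hω h0
    refine le_of_eq (sum_eq_zero fun r hr => ?_)
    have hr' := mem_range.1 hr
    rw [al_tg hTl hA hG hLw hc hr' h0, (hQ m L j v ω r hc.hj.le hr').2]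
    by_cases hrj : r < j
    · rw [if_pos hrj, (hω.fact1 r hrj).1]
      ring
    · rw [if_neg hrj, tg_gj, if_neg hrj]
      ring

/-- one scalar condition -/
theorem scal (hRl : StRlaw) (hTS : StTops)
    (hQ : StHqu) (hB : StBext) (hTr : StTri) (hN : StNbt) (m n : ℕ) (ε CE : ℝ) (hm : 2 ≤ m)
    (hε : 0 < ε) (hCE : 1 ≤ CE) (hE : ExP m n (ε / 4) CE) : ∃ CS : ℝ, 1 ≤ CS ∧
    ∀ (L N R j i : ℕ) (lam cg Λ C : ℝ) (v : (Fin (m + 1) → ℕ) → Pt m L → ℝ)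
      (lo hi : Fin (m + 1) → ℕ),
      Nm m L R ε lam CE cg Λ C → Ctx N R j ε lam v → 5 * CS ≤ Λ → i < L → (∀ e, hi e ≤ L) →
      hi 0 ≤ j + 1 →
      Pr (qq (tg lam (gj ε lam v j) v)) (fun ω => Gu ε lam v j m ω ∧
        BN m L ε < XX (cut lo hi v) i ω ^ 2) ≤
        CE / (L + 1) ^ n + Real.exp 1 * (CS / (L + 1) ^ n) := by
  obtain ⟨CS, hCS, hT⟩ := hTS m n (ε / 4) (by omega) (by linarith)
  refine ⟨CS, hCS, ?_⟩
  intro L N R j i lam cg Λ C v lo hi hNm hc hΛ hi0 hhiL hhi0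
  obtain ⟨b, hb0⟩ : ∃ b : Fin (m + 1), b ≠ 0 :=
    ⟨⟨1, by omega⟩, fun h => by simpa using congrArg Fin.val h⟩
  have hL1 : (1 : ℝ) ≤ L := by exact_mod_cast hc.hL
  have hY : (1 : ℝ) ≤ (L : ℝ) ^ (ε / 4) := Real.one_le_rpow hL1 (by linarith)
  have hD0 : 0 ≤ DD m L ε lam CE := by
    unfold DD
    have := hc.DN_nonneg
    have := BN_nonneg (m := m) (L := L) (ε := ε)
    positivity
  refine (hE L N R j ε lam (DD m L ε lam CE) v b m _ hc hb0 (num_exch hNm hc) le_rfl).trans ?_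
  refine add_le_add le_rfl (mul_le_mul_of_nonneg_left ?_ (Real.exp_pos 1).le)
  have hrl := hRl m L N R j lam (DD m L ε lam CE) b v hb0 hD0 hc.hv
  have hcardI : ((Inn m).erase b).card = m - 1 := by
    rw [card_erase_of_mem (by simp [Inn, hb0])]
    simp [Inn]
  have hTop := hT L N R j i (DD m L ε lam CE + 1) lam (bN L ε (m - 1)) (4 * bN L ε (m - 1))
    (lam ^ 4 * (((Nat.log 2 L : ℝ) + 1) ^ 2 * BN m L ε ^ 2 * L)) (rr lam (DD m L ε lam CE) b v j) v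
    (fun ω => Gu ε lam v j m ω ∧
      ∀ r < L, bh lam (DD m L ε lam CE) b v j r ω = be lam b v j r ω) b lo hi
    hc.hL hc.hj.le hi0 (by linarith) hc.hlam (one_le_bN hε hc.hL (m - 1))
    (by have := one_le_bN hε hc.hL (m - 1); linarith) (by positivity) hrl.1 hc.hv hb0
    hhiL ?_ ?_ ?_
  · refine le_trans (Pr_mono hrl.1 ?_) hTop
    rintro ω ⟨hω, hnb⟩
    refine ⟨hω, lt_of_le_of_lt ?_ hnb⟩
    have hb := brk hNm hc (κ := DD m L ε lam CE + 1) (by linarith) (kappa_le hNm hc) le_rfl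
    have hb2 : (L : ℝ) ^ (ε / 4) +
        lam ^ 4 * (((Nat.log 2 L : ℝ) + 1) ^ 2 * BN m L ε ^ 2 * L) +
        lam ^ 2 * (L : ℝ) ^ (m - 1) * (4 * bN L ε (m - 1) *
          (1 + (DD m L ε lam CE + 1)) * (L : ℝ) ^ (ε / 4) +
            ((R : ℝ) + 1) ^ (2 * m + 2)) ≤ 5 * (L : ℝ) ^ (ε / 4) := by
      refine le_trans ?_ hb
      have hs : (1 : ℝ) ≤ Real.sqrt L := Real.one_le_sqrt.2 hL1
      have h4 := bN_nonneg (L := L) (ε := ε) (m - 1)
      gcongr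
    calc CS * bN L ε (m - 1) * _ * (L : ℝ) ^ (m - 1) ≤
        CS * bN L ε (m - 1) * (5 * (L : ℝ) ^ (ε / 4)) * (L : ℝ) ^ (m - 1) := by
          refine mul_le_mul_of_nonneg_right (mul_le_mul_of_nonneg_left hb2 ?_) (by positivity)
          exact mul_nonneg (by linarith) (bN_nonneg _)
      _ = bN L ε (m - 1) * ((5 * CS) * (L : ℝ) ^ (ε / 4)) * (L : ℝ) ^ (m - 1) := by ring
      _ ≤ bN L ε (m - 1) * (L : ℝ) ^ ε * (L : ℝ) ^ (m - 1) := by
          refine mul_le_mul_of_nonneg_right (mul_le_mul_of_nonneg_left ?_ (bN_nonneg _))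
            (by positivity)
          have h2 : 5 * CS ≤ (L : ℝ) ^ (ε / 4) := hΛ.trans (hNm.lam_le hc.hL hε)
          have h3 : (L : ℝ) ^ ε = ((L : ℝ) ^ (ε / 4)) ^ 4 := Y4.symm
          rw [h3]
          calc (5 * CS) * (L : ℝ) ^ (ε / 4) ≤ (L : ℝ) ^ (ε / 4) * (L : ℝ) ^ (ε / 4) := by gcongr
            _ = ((L : ℝ) ^ (ε / 4)) ^ 2 := by ring
            _ ≤ ((L : ℝ) ^ (ε / 4)) ^ 4 := pow_le_pow_right₀ hY (by norm_num)
      _ ≤ BN m L ε := by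
          rw [bN_eq, BN_eq, Nat.sub_add_cancel (by omega)]
          exact le_of_eq (by ring)
  · intro ω hω lo2 hi2 q2 hhi
    have hA2 : Ad L j ((Inn m).erase b) hi2 := by
      refine ⟨fun e => (hhi e).trans (hhiL e), fun h0 => ?_, fun h0 => (hhi 0).trans hhi0⟩
      exact absurd h0 (by simp [Inn])
    have h1 := hω.1.2 lo2 hi2 ((Inn m).erase b) b 0 q2 hA2 hb0 (by simp) (by simp [Inn])
      (by rw [hcardI]; omega)
    rw [hcardI] at h1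
    exact h1
  · intro ω hω s lo2 hi2 hs hhi
    exact B_of_open hB hc hω.1.1 b s lo2 hi2 hs hhi
  · intro ω hω _
    refine le_trans (le_of_eq ?_) (second_order hN hTr (b := b) (lam := lam) BN_nonneg
      fun w => C_of_open hc.hε hc.hL hb0 hc.hj.le hω.1.1 w)
    refine sum_congr rfl fun r hr => ?_
    have hr' := mem_range.1 hr
    rw [hrl.2.2.2.2 r hr' ω, hω.2 r hr', (hQ m L j v ω r hc.hj.le hr').1 b hb0]

/-- the density condition -/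
theorem dens (hTl : StTiltK) (hA : StAlx) (hG : StGtN) (hLw : StLawN) (hS : StSc)
    (m n : ℕ) (ε CE : ℝ) (hε : 0 < ε) : ∃ CA : ℝ, 1 ≤ CA ∧
    ∀ (L N R j : ℕ) (lam cg Λ C : ℝ) (v : (Fin (m + 1) → ℕ) → Pt m L → ℝ),
      Nm m L R ε lam CE cg Λ C → Ctx N R j ε lam v → CA ≤ Λ →
      Pr (qq (tg lam (gj ε lam v j) v)) (fun ω => (∀ i < j, gN ε lam v i ω = 1) ∧
        DN m L ε lam < lam * ∑ l ∈ range j, sb 0 l ω * XX v l ω) ≤ CA / (L + 1) ^ n := by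
  obtain ⟨CA, hCA, hSc⟩ := hS n (ε / 4) (by linarith)
  refine ⟨CA, hCA, ?_⟩
  intro L N R j lam cg Λ C v hNm hc hΛ
  have hL1 : (1 : ℝ) ≤ L := by exact_mod_cast hc.hL
  have hY : (1 : ℝ) ≤ (L : ℝ) ^ (ε / 4) := Real.one_le_rpow hL1 (by linarith)
  have hlaw := hc.lawj hG hLw
  set Z : ℝ := lam ^ 2 * BN m L ε * L with hZ
  have hZ0 : 0 ≤ Z := by
    have := BN_nonneg (m := m) (L := L) (ε := ε)
    positivity
  set θ : ℕ → Pt m L → ℝ := tg lam (gj ε lam v j) v with hθ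
  refine le_trans (Pr_mono' hlaw.2 ?_) (hSc m L 0 θ _ Z _ hc.hL hlaw.2 hZ0 hlaw.1.dep)
  rintro ω h0 ⟨hω, hd⟩
  have hle : ∀ l ∈ range L, θ l ω ^ 2 ≤ lam ^ 2 * BN m L ε := by
    intro l _
    rw [hθ, tg_gj]
    by_cases hl : l < j
    · rw [if_pos hl]
      unfold tg
      rw [hω l hl, mul_one, mul_pow]
      exact mul_le_mul_of_nonneg_left (XX_of_open (hω l hl)) (sq_nonneg _)
    · rw [if_neg hl]
      have := BN_nonneg (m := m) (L := L) (ε := ε)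
      have h2 : 0 ≤ lam ^ 2 * BN m L ε := by positivity
      simpa using h2
  have hsq : ∑ t ∈ range L, θ t ω ^ 2 ≤ Z := by
    refine (sum_le_sum hle).trans (le_of_eq ?_)
    rw [sum_const, card_range, nsmul_eq_mul, hZ]
    ring
  refine ⟨hsq, ?_⟩
  -- the sum
  have e1 : lam * ∑ l ∈ range j, sb 0 l ω * XX v l ω = ∑ t ∈ range L, sb 0 t ω * θ t ω := by
    rw [← sum_subset (range_subset_range.2 hc.hj.le) (f := fun t => sb 0 t ω * θ t ω), mul_sum]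
    · refine sum_congr rfl fun l hl => ?_
      have hl' := mem_range.1 hl
      rw [hθ, tg_gj, if_pos hl']
      unfold tg
      rw [hω l hl']
      ring
    · intro t _ ht
      rw [mem_range, not_lt] at ht
      rw [hθ, tg_gj, if_neg (by omega), mul_zero]
  have e2 : ∑ t ∈ range L, (sb 0 t ω - al (qq θ) 0 t ω) * θ t ω =
      ∑ t ∈ range L, sb 0 t ω * θ t ω - ∑ t ∈ range L, θ t ω ^ 2 := by
    rw [← sum_sub_distrib]
    refine sum_congr rfl fun t ht => ?_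
    rw [al_tg hTl hA hG hLw hc (mem_range.1 ht) h0]
    ring
  rw [e2]
  have hDN : DN m L ε lam = 3 * Z + (L : ℝ) ^ ε := by
    unfold DN
    rw [hZ]
    ring
  rw [e1, hDN] at hd
  have hX0 : 0 < (L : ℝ) ^ ε := Real.rpow_pos_of_pos (by linarith) _
  have h3 : 2 * Z + (L : ℝ) ^ ε <
      ∑ t ∈ range L, sb 0 t ω * θ t ω - ∑ t ∈ range L, θ t ω ^ 2 := by linarith
  have h4 : CA * (L : ℝ) ^ (ε / 4) ≤ (L : ℝ) ^ ε := by
    have h2 : CA ≤ (L : ℝ) ^ (ε / 4) := hΛ.trans (hNm.lam_le hc.hL hε)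
    have h3 : (L : ℝ) ^ ε = ((L : ℝ) ^ (ε / 4)) ^ 4 := Y4.symm
    rw [h3]
    calc CA * (L : ℝ) ^ (ε / 4) ≤ (L : ℝ) ^ (ε / 4) * (L : ℝ) ^ (ε / 4) := by gcongr
      _ = ((L : ℝ) ^ (ε / 4)) ^ 2 := by ring
      _ ≤ ((L : ℝ) ^ (ε / 4)) ^ 4 := pow_le_pow_right₀ hY (by norm_num)
  calc CA * (L : ℝ) ^ (ε / 4) * Z ≤ (L : ℝ) ^ ε * Z := mul_le_mul_of_nonneg_right h4 hZ0
    _ < (2 * Z + (L : ℝ) ^ ε) ^ 2 := by nlinarith
    _ ≤ _ := pow_le_pow_left₀ (by positivity) h3.le 2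

end nm

end S23

end Pool.Agent.SHD
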