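import Pool.Agent.Lib.MP_a7b2aa_an.SHD.Stmts65

/-!
SHD2 (chair: helper65): MP_a7b2aa_an, every dimension `d = m + 1 ≥ 3`, all coefficients, energy form
with the gain `(d - 1) / (2 (3 d - 4)) - ε > 1 / 6`. Gated tilt. Blueprint: SHD2_65b.md.
-/

set_option autoImplicit false

namespace Pool.Agent.SHD

open Finset Pool.Agent.SB3 Pool.Agent.SBT Pool.Agent.SBD

/-! ### definitions -/

/-- arrays which vanish off the band of width `R` around the level `N` -/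
structure ArB {m L : ℕ} (N R : ℕ) (v : (Fin (m + 1) → ℕ) → Pt m L → ℝ) : Prop where
  ark : ArK N v
  bd : ∀ q ω, R < dst (∑ a, q a) N → v q ω = 0

/-- the array cut to the box `[lo, hi)` -/
noncomputable def cut {m L : ℕ} (lo hi : Fin (m + 1) → ℕ) (v : (Fin (m + 1) → ℕ) → Pt m L → ℝ)
    (q : Fin (m + 1) → ℕ) (ω : Pt m L) : ℝ :=
  if ∀ a, lo a ≤ q a ∧ q a < hi a then v q ω else 0

/-- rows: string `0`; columns: string `t`; the strings in `U` are summed -/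
noncomputable def Mx {m L : ℕ} (U : Finset (Fin (m + 1))) (t : Fin (m + 1)) (q : Fin (m + 1) → ℕ)
    (v : (Fin (m + 1) → ℕ) → Pt m L → ℝ) (ω : Pt m L) : Matrix (Fin L) (Fin L) ℝ :=
  Matrix.of (fun (x y : Fin L) =>
    ∑ r ∈ fr L U (Function.update (Function.update q 0 x) t y), ps U r ω * v r ω)

/-- all matrices and sums of the array `v` have the right size at the point `ω` -/
def OKb {m L : ℕ} (c β : ℝ) (v : (Fin (m + 1) → ℕ) → Pt m L → ℝ) (ω : Pt m L) : Prop :=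
  (∀ (U : Finset (Fin (m + 1))) (t : Fin (m + 1)) (q : Fin (m + 1) → ℕ), 0 ∉ U → t ∉ U → t ≠ 0 →
    NB (Mx U t q v ω) (c * β ^ U.card)) ∧
  (∀ i, XX v i ω ^ 2 ≤ c * β ^ (m - 1))

/-- a box with sides at most `s` inside `[0, L]` -/
def Bx {m : ℕ} (L s : ℕ) (lo hi : Fin (m + 1) → ℕ) : Prop :=
  ∀ a, lo a ≤ hi a ∧ hi a ≤ lo a + s ∧ hi a ≤ L

open Classical in
/-- the gate (closed for `j ≥ L`): all boxes with sides at most `s` are good, rows up to `j` -/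
noncomputable def gt {m L : ℕ} (s : ℕ) (c β : ℝ) (v : (Fin (m + 1) → ℕ) → Pt m L → ℝ) (j : ℕ)
    (ω : Pt m L) : ℝ :=
  if j < L ∧ ∀ lo hi, Bx L s lo hi → hi 0 ≤ j + 1 → OKb c β (cut lo hi v) ω then 1 else 0

/-- gates -/
structure Gate {m L : ℕ} (g : ℕ → Pt m L → ℝ) : Prop where
  zo : ∀ j ω, g j ω = 0 ∨ g j ω = 1
  dep : ∀ j, Ms (one L 0 j) (g j)
  anti : ∀ i j ω, i ≤ j → g j ω = 1 → g i ω = 1

/-- while the gate is open all rows up to `j` of all cut arrays are small -/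
structure Nrm {m L : ℕ} (bb : ℕ → ℝ) (g : ℕ → Pt m L → ℝ)
    (v : (Fin (m + 1) → ℕ) → Pt m L → ℝ) : Prop where
  mat : ∀ j ω, j < L → g j ω = 1 → ∀ lo hi : Fin (m + 1) → ℕ, hi 0 ≤ j + 1 → (∀ a, hi a ≤ L) →
    ∀ (U : Finset (Fin (m + 1))) (t : Fin (m + 1)) (q : Fin (m + 1) → ℕ), 0 ∉ U → t ∉ U → t ≠ 0 →
    NB (Mx U t q (cut lo hi v) ω) (bb U.card)
  ent : ∀ j ω, j < L → g j ω = 1 → ∀ lo hi : Fin (m + 1) → ℕ, hi 0 ≤ j + 1 → (∀ a, hi a ≤ L) →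
    ∀ i, XX (cut lo hi v) i ω ^ 2 ≤ bb (m - 1)

/-- the size of the norms after recombination -/
noncomputable def bt (L s : ℕ) (ε : ℝ) (u : ℕ) : ℝ :=
  ((L / s + 1 : ℕ) : ℝ) ^ (2 * u) * ((s : ℝ) * (L : ℝ) ^ ε) ^ u

/-- the gated tilt -/
noncomputable def tg {m L : ℕ} (lam : ℝ) (g : ℕ → Pt m L → ℝ)
    (v : (Fin (m + 1) → ℕ) → Pt m L → ℝ) (j : ℕ) (ω : Pt m L) : ℝ := lam * XX v j ω * g j ω

/-- entry `(i, t)` of the matrix with the string `a` as column -/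
noncomputable def Bm {m L : ℕ} (a : Fin (m + 1)) (v : (Fin (m + 1) → ℕ) → Pt m L → ℝ) (i t : ℕ)
    (ω : Pt m L) : ℝ :=
  ∑ r ∈ fr L ((Inn m).erase a) (Function.update (fun _ => i) a t),
    ps ((Inn m).erase a) r ω * v r ω

/-- conditional mean of `φ` under `ρ` on the class -/
noncomputable def cmn {m L : ℕ} (ρ φ : Pt m L → ℝ) (p : Fin (m + 1) → ℕ) (ω : Pt m L) : ℝ :=
  EE p (fun ω' => ρ ω' * φ ω') ω / EE p ρ ω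

/-- density of the class (first `j` signs of string `0`, first `h a` signs of the others) -/
noncomputable def fd {m L : ℕ} (θ : ℕ → Pt m L → ℝ) (h : Fin (m + 1) → ℕ) (j : ℕ)
    (ω : Pt m L) : ℝ := EE (Function.update h 0 j) (qq θ) ω

/-- conditional mean of `θ j` on the class -/
noncomputable def ad {m L : ℕ} (θ : ℕ → Pt m L → ℝ) (h : Fin (m + 1) → ℕ) (j : ℕ)
    (ω : Pt m L) : ℝ := cmn (qq θ) (θ j) (Function.update h 0 j) ω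

/-- the in part of the array: `r b < h b` for all inner strings -/
noncomputable def vin {m L : ℕ} (h : Fin (m + 1) → ℕ) (v : (Fin (m + 1) → ℕ) → Pt m L → ℝ)
    (q : Fin (m + 1) → ℕ) (ω : Pt m L) : ℝ :=
  if ∀ b, b ≠ 0 → q b < h b then v q ω else 0

/-- the part of the array which leaves `h` first in string `a` -/
noncomputable def va {m L : ℕ} (h : Fin (m + 1) → ℕ) (a : Fin (m + 1))
    (v : (Fin (m + 1) → ℕ) → Pt m L → ℝ) (q : Fin (m + 1) → ℕ) (ω : Pt m L) : ℝ :=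
  if (∀ b, b ≠ 0 → b < a → q b < h b) ∧ h a ≤ q a then v q ω else 0

/-- the part of `ad` which comes from outside of `h` -/
noncomputable def xo {m L : ℕ} (lam : ℝ) (g : ℕ → Pt m L → ℝ)
    (v : (Fin (m + 1) → ℕ) → Pt m L → ℝ) (h : Fin (m + 1) → ℕ) (j : ℕ) (ω : Pt m L) : ℝ :=
  ad (tg lam g v) h j ω -
    lam * XX (vin h v) j ω * cmn (qq (tg lam g v)) (g j) (Function.update h 0 j) ω

/-! ### modules: conditional drift -/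

/-- ENTC: conditional bound for the biases -/
def StEntC : Prop := ∀ (m L : ℕ) (k : ℝ) (ρ : Pt m L → ℝ) (a : Fin (m + 1))
    (p : Fin (m + 1) → ℕ) (ω : Pt m L), (∀ ω, 0 ≤ ρ ω) → (∀ ω, ρ ω ≤ Real.exp k) →
    0 < EE p ρ ω →
    EE p (fun ω' => ρ ω' * ∑ t ∈ Finset.Ico (p a) L, al ρ a t ω' ^ 2) ω ≤
      4 * (EE p ρ ω * (k - Real.log (EE p ρ ω)))

/-- VISG: drift of a gated sum, conditional on a class (from ENTC, EEB) -/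
def StVisG : Prop := ∀ (m L N t0 : ℕ) (k b : ℝ) (a : Fin (m + 1)) (p : Fin (m + 1) → ℕ)
    (v : (Fin (m + 1) → ℕ) → Pt m L → ℝ) (ρ : Pt m L → ℝ) (g X : ℕ → Pt m L → ℝ) (ω0 : Pt m L),
    a ≠ 0 → 0 ≤ b → (∀ ω, 0 ≤ ρ ω) → (∀ ω, ρ ω ≤ Real.exp k) → 0 < EE p ρ ω0 → p a ≤ t0 →
    ArK N v → Gate g → (∀ q ω, q a < t0 → v q ω = 0) →
    (∀ i t, t0 ≤ t → Ms (one L a t) (X i)) →
    (∀ j ω, j < L → g j ω = 1 → ∀ u : Fin L → ℝ,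
      ∑ i ∈ range (j + 1), (∑ t : Fin L, Bm a v i t ω * u t) ^ 2 ≤ b * ∑ t, u t ^ 2) →
    (∑ j ∈ range L, EE p (fun ω => ρ ω * (g j ω * XX v j ω * X j ω)) ω0) ^ 2 ≤
      4 * b * (EE p ρ ω0 * (k + Real.log (L + 1) - Real.log (EE p ρ ω0))) *
        EE p (fun ω => ρ ω * ∑ j ∈ range L, g j ω * X j ω ^ 2) ω0

/-! ### modules: gates, tilt -/

/-- STOPG: the gated tilt has bounded density (from TILTK, EEB) -/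
def StStopG : Prop := ∀ (m L N : ℕ) (k lam M : ℝ) (v : (Fin (m + 1) → ℕ) → Pt m L → ℝ)
    (g : ℕ → Pt m L → ℝ), 0 ≤ lam → lam * M ≤ k → ArK N v → (∀ ω, |HH v ω| ≤ M) → Gate g →
    (∀ j ω, |tg lam g v j ω| ≤ 1) → Prd (tg lam g v) ∧ Law k (qq (tg lam g v))

/-- GTG: `gt` is a gate -/
def StGtG : Prop := ∀ (m L N s : ℕ) (c β : ℝ) (v : (Fin (m + 1) → ℕ) → Pt m L → ℝ), ArK N v →
    Gate (gt s c β v)

/-- RECG: recombination of the boxes -/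
def StRecG : Prop := ∀ (m : ℕ) (c : ℝ), 1 ≤ m → 1 ≤ c → ∃ C : ℝ, 1 ≤ C ∧
  ∀ (L N R s : ℕ) (ε : ℝ) (v : (Fin (m + 1) → ℕ) → Pt m L → ℝ), 1 ≤ L → 1 ≤ s → R ≤ s → 0 ≤ ε →
    ArB N R v → Nrm (fun u => C * bt L s ε u) (gt s c (c * s * (L : ℝ) ^ ε) v) v

/-- INXG: the in part near the hull of a box -/
def StInxG : Prop := ∀ m : ℕ, 1 ≤ m → ∃ C : ℝ, 1 ≤ C ∧
  ∀ (L N R s j : ℕ) (c β : ℝ) (v : (Fin (m + 1) → ℕ) → Pt m L → ℝ) (h : Fin (m + 1) → ℕ)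
    (ω : Pt m L), 1 ≤ s → 2 * R ≤ s → 0 ≤ c → 0 ≤ β → ArB N R v → (∀ a, h a ≤ L) →
    ∑ a, h a ≤ N + R + (m + 1) * s → j < L → gt s c β v j ω = 1 →
    ∑ i ∈ range (min (j + 1) (h 0)), XX (vin h v) i ω ^ 2 ≤ C * s * c * β ^ (m - 1)

/-- OPG: operator norms of sums with few nonzero terms (generalises OP) -/
def StOpG : Prop := ∀ (v n : ℕ) (ε : ℝ), 0 < ε → ∃ C : ℝ, 1 ≤ C ∧
  ∀ (m L s : ℕ) (U : Finset (Fin (m + 1))) (S : Fin (m + 1) → Finset ℕ) (κ : Type) [Fintype κ]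
    [DecidableEq κ] (W : (Fin (m + 1) → ℕ) → Pt m L → Matrix κ κ ℝ) (k : ℝ) (ρ : Pt m L → ℝ)
    (q : Fin (m + 1) → ℕ), 1 ≤ L → 1 ≤ s → 0 ≤ k → Law k ρ → U.card = v →
    Fintype.card κ ≤ 2 * L → (∀ c ∈ U, (S c).card ≤ s) →
    (∀ r ω, ∀ c ∈ U, r c ∉ S c → W r ω = 0) →
    (∀ r ω, (W r ω).IsSymm) → (∀ r ω, NB (W r ω) 1) →
    (∀ r, ∀ c ∈ U, Ms (one L c (r c)) (W r)) →
    Pr ρ (fun ω => ¬ NB (∑ r ∈ fr L U q, ps U r ω • W r ω) ((C * s * ((L : ℝ) ^ ε + k)) ^ v)) ≤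
      C / (L + 1) ^ n

/-- OPBG: boxes are good under the uniform law (from OPG, KAPK) -/
def StOpbG : Prop := ∀ (m n : ℕ) (ε : ℝ), 1 ≤ m → 0 < ε → ∃ C : ℝ, 1 ≤ C ∧
  ∀ (L N s : ℕ) (v : (Fin (m + 1) → ℕ) → Pt m L → ℝ) (lo hi : Fin (m + 1) → ℕ), 1 ≤ L → 1 ≤ s →
    Bx L s lo hi → ArK N v →
    Pr (fun _ => 1) (fun ω => ¬ OKb C (C * s * (L : ℝ) ^ ε) (cut lo hi v) ω) ≤ C / (L + 1) ^ n

/-! ### modules: local uniformity -/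

/-- CMNG: basic facts on conditional means (from EEB) -/
def StCmnG : Prop := ∀ (m L : ℕ) (ρ φ : Pt m L → ℝ) (p : Fin (m + 1) → ℕ), (∀ ω, 0 ≤ ρ ω) →
    Ms p (cmn ρ φ p) ∧ (∀ B : ℝ, 0 ≤ B → (∀ ω, |φ ω| ≤ B) → ∀ ω, |cmn ρ φ p ω| ≤ B) ∧
    (∀ (p' : Fin (m + 1) → ℕ) (X : Pt m L → ℝ) (ω : Pt m L), (∀ a, p' a ≤ p a) → Ms p X →
      EE p' (fun ω' => ρ ω' * (φ ω' * X ω')) ω = EE p' (fun ω' => ρ ω' * (cmn ρ φ p ω' * X ω')) ω)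

/-- DENG: the density of the class is a product (from EEB, TILTK, CMNG) -/
def StDenG : Prop := ∀ (m L : ℕ) (θ : ℕ → Pt m L → ℝ) (h : Fin (m + 1) → ℕ), Prd θ → h 0 ≤ L →
    (∀ ω, fd θ h 0 ω = 1) ∧
    (∀ j ω, j < h 0 → fd θ h (j + 1) ω = fd θ h j ω * (1 + sb 0 j ω * ad θ h j ω))

/-- BADG: a local event (from DENG, CMNG, TILTK) -/
def StBadG : Prop := ∀ (m L : ℕ) (θ : ℕ → Pt m L → ℝ) (h : Fin (m + 1) → ℕ) (P : Pt m L → Prop),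
    Prd θ → h 0 ≤ L → Ms h P →
    Pr (qq θ) P ≤ Real.sqrt (Real.exp 1 * Pr (fun _ => 1) P) +
      Pr (qq θ) (fun ω => 1 < ∑ j ∈ range (h 0), ad θ h j ω ^ 2)

/-- REMG: the conditional remaining energy of `xo` (from VISG, CMNG) -/
def StRemG : Prop := ∀ (m L N : ℕ) (k lam b : ℝ) (bb : ℕ → ℝ)
    (v : (Fin (m + 1) → ℕ) → Pt m L → ℝ) (g : ℕ → Pt m L → ℝ) (h : Fin (m + 1) → ℕ),
    1 ≤ m → 0 ≤ k → 0 ≤ lam → ArK N v → Gate g → Nrm bb g v → 0 ≤ b → bb (m - 1) ≤ b →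
    Prd (tg lam g v) → Law k (qq (tg lam g v)) → h 0 ≤ L →
    ∀ (j0 : ℕ) (ω : Pt m L), j0 ≤ h 0 → 0 < fd (tg lam g v) h j0 ω →
    EE (Function.update h 0 j0) (fun ω' => qq (tg lam g v) ω' *
        ∑ j ∈ Finset.Ico j0 (h 0), xo lam g v h j ω' ^ 2) ω ≤
      4 * (m : ℝ) ^ 2 * lam ^ 2 * b * (fd (tg lam g v) h j0 ω *
        (k + Real.log (L + 1) - Real.log (fd (tg lam g v) h j0 ω)))

/-- MOME: moments of a sum with small conditional remaining sums (from EEB) -/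
def StMomE : Prop := ∀ (m L J R : ℕ) (η : ℝ) (h : Fin (m + 1) → ℕ) (ρ : Pt m L → ℝ)
    (Y : ℕ → Pt m L → ℝ), (∀ ω, 0 ≤ ρ ω) → Av ρ = 1 → 0 ≤ η → (∀ j ω, 0 ≤ Y j ω) →
    (∀ j, Ms (Function.update h 0 j) (Y j)) →
    (∀ j ω, j ≤ J → EE (Function.update h 0 j) (fun ω' => ρ ω' * ∑ i ∈ Finset.Ico j J, Y i ω') ω ≤
      η * EE (Function.update h 0 j) ρ ω) →
    Ex ρ (fun ω => (∑ j ∈ range J, Y j ω) ^ R) ≤ (R.factorial : ℝ) * η ^ R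

/-- TAILX: the tail of the energy of `xo` (from REMG, MOME, CMNG, DENG) -/
def StTailX : Prop := ∀ (m n : ℕ) (ε : ℝ), 1 ≤ m → 0 < ε → ∃ C : ℝ, 1 ≤ C ∧
  ∀ (L N : ℕ) (k lam b : ℝ) (bb : ℕ → ℝ) (v : (Fin (m + 1) → ℕ) → Pt m L → ℝ)
    (g : ℕ → Pt m L → ℝ) (h : Fin (m + 1) → ℕ), 1 ≤ L → 1 ≤ k → 0 ≤ lam → ArK N v → Gate g →
    Nrm bb g v → 0 ≤ b → bb (m - 1) ≤ b → Prd (tg lam g v) → Law k (qq (tg lam g v)) → h 0 ≤ L →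
    C * lam ^ 2 * b * (k + Real.log (L + 1)) ≤ ((L : ℝ) + 1) ^ (-ε) →
    Pr (qq (tg lam g v)) (fun ω => 1 / 4 < ∑ j ∈ range (h 0), xo lam g v h j ω ^ 2) ≤
      C / (L + 1) ^ n

/-- OPENG: the gate stays open (from STOPG, GTG, RECG, INXG, OPBG, BADG, TAILX, CMNG) -/
def StOpenG : Prop := ∀ (m n : ℕ) (ε : ℝ), 1 ≤ m → 0 < ε → ∃ c : ℝ, 1 ≤ c ∧ ∃ C : ℝ, 1 ≤ C ∧
  ∀ (L N R s : ℕ) (k lam M : ℝ) (v : (Fin (m + 1) → ℕ) → Pt m L → ℝ), 1 ≤ L → 1 ≤ s → s ≤ L →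
    2 * R ≤ s → 1 ≤ k → 0 ≤ lam → lam * M ≤ k → ArB N R v → (∀ ω, |HH v ω| ≤ M) →
    C * lam ^ 2 * ((s : ℝ) * (L : ℝ) ^ ε) ^ m ≤ 1 →
    C * lam ^ 2 * bt L s ε (m - 1) * (k + Real.log (L + 1)) ≤ ((L : ℝ) + 1) ^ (-ε) →
    Nrm (fun u => C * bt L s ε u) (gt s c (c * s * (L : ℝ) ^ ε) v) v ∧
    Prd (tg lam (gt s c (c * s * (L : ℝ) ^ ε) v) v) ∧
    Law k (qq (tg lam (gt s c (c * s * (L : ℝ) ^ ε) v) v)) ∧
    Pr (qq (tg lam (gt s c (c * s * (L : ℝ) ^ ε) v) v))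
      (fun ω => ∃ j < L, gt s c (c * s * (L : ℝ) ^ ε) v j ω = 0) ≤ C / (L + 1) ^ n

/-! ### modules: mass and energy -/

/-- DROPG: the loss of mass (from UNDK, VISG, KAPK, TILTK) -/
def StDropG : Prop := ∀ m : ℕ, 1 ≤ m → ∃ C : ℝ, 1 ≤ C ∧
  ∀ (L N : ℕ) (k lam b : ℝ) (bb : ℕ → ℝ) (v : (Fin (m + 1) → ℕ) → Pt m L → ℝ)
    (g : ℕ → Pt m L → ℝ), 1 ≤ L → 1 ≤ k → 0 ≤ lam → ArK N v → Gate g → Nrm bb g v → 0 ≤ b →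
    bb (m - 1) ≤ b → Prd (tg lam g v) → Law k (qq (tg lam g v)) →
    (1 / 2) * mass v - C * lam ^ 2 * (L : ℝ) ^ m * (1 + b * (k + Real.log (L + 1))) ≤
      ∑ q ∈ All m L, Ex (qq (tg lam g v)) (fun ω => v q ω ^ 2)

/-- ENEG: lower bound of the energy with pointwise norms (from ALF, TAIL, KAPK) -/
def StEneG : Prop := ∀ m : ℕ, 1 ≤ m → ∃ C : ℝ, 1 ≤ C ∧
  ∀ (L N : ℕ) (k : ℝ) (bb : ℕ → ℝ) (v : (Fin (m + 1) → ℕ) → Pt m L → ℝ) (ρ : Pt m L → ℝ),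
    1 ≤ L → 1 ≤ k → Law k ρ → ArK N v → (∀ u, 0 ≤ bb u) →
    (∀ ω, ρ ω ≠ 0 → ∀ (U : Finset (Fin (m + 1))) (t : Fin (m + 1)) (q : Fin (m + 1) → ℕ),
      0 ∉ U → t ∉ U → t ≠ 0 → (∀ a, q a < L) → NB (Mx U t q v ω) (bb U.card)) →
    (1 / 2) ^ m * ∑ q ∈ All m L, Ex ρ (fun ω => v q ω ^ 2) -
        C * k * ∑ u ∈ range m, (L : ℝ) ^ (m - 1 - u) * bb u ≤
      ∑ i ∈ range L, Ex ρ (fun ω => XX v i ω ^ 2)

/-- HAARB: band arrays (from OPENG, DROPG, ENEG, GTG, TILTK, KAPK) -/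
def StHaarB : Prop := ∀ (m : ℕ) (ε K : ℝ), 1 ≤ m → 0 < ε → 0 < K → ∃ C : ℝ, 0 < C ∧
  ∀ (L N R : ℕ) (M : ℝ) (v : (Fin (m + 1) → ℕ) → Pt m L → ℝ), 1 ≤ L →
    (R : ℝ) ≤ K * Real.log (L + 1) + 1 → ArB N R v → 0 ≤ M →
    (∀ ω, |HH v ω| ≤ M) → mass v ≤ M ^ 2 →
    mass v ≤ C * (L : ℝ) ^ ((m : ℝ) / 2 - (m : ℝ) / (2 * (3 * (m : ℝ) - 1)) + ε) * M

/-- HAARG: all arrays (from HAARB, KAPK) -/
def StHaarG : Prop := ∀ (m : ℕ) (ε : ℝ), 1 ≤ m → 0 < ε → ∃ C : ℝ, 0 < C ∧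
  ∀ (L N : ℕ) (M : ℝ) (v : (Fin (m + 1) → ℕ) → Pt m L → ℝ), 1 ≤ L → ArK N v → 0 ≤ M →
    (∀ ω, |HH v ω| ≤ M) → mass v ≤ M ^ 2 →
    mass v ≤ C * (L : ℝ) ^ ((m : ℝ) / 2 - (m : ℝ) / (2 * (3 * (m : ℝ) - 1)) + ε) * M

/-! ### the grid -/

/-- GRIDG (from HAARG, CFEK, BLKB, NUMK, BGB), as GRIDK -/
def StGridG : Prop := ∀ (m : ℕ) (ε : ℝ), 1 ≤ m → 0 < ε → ∃ C : ℝ, 0 < C ∧
  ∀ (n : ℕ) (c : (Fin (m + 1) → ℤ) → ℂ) (A M : ℝ), 1 ≤ n → 0 ≤ A → 0 ≤ M →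
    (∀ l ∈ inl (m + 1) n, ∀ ω : Pt m (2 * n + 2), |bg c l ω| ≤ A) →
    (∀ ω : Pt m (2 * n + 2), |∑ l ∈ inl (m + 1) n, bg c l ω| ≤ M) →
    Av (fun ω : Pt m (2 * n + 2) => (∑ l ∈ inl (m + 1) n, bg c l ω) ^ 2) ≤
      C * ((2 * n : ℕ) : ℝ) ^ ((m : ℝ) / 2 - (m : ℝ) / (2 * (3 * (m : ℝ) - 1)) + ε) * A * M

/-- FINALG: the theorem (from GRIDG, INTK, PARK, CARDB) -/
def StFinalG : Prop := ∀ (d : ℕ) (ε : ℝ), 3 ≤ d → 0 < ε → ∃ C : ℝ, 0 < C ∧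
  ∀ (n : ℕ) (c : (Fin d → ℤ) → ℂ) (A : ℝ), 1 ≤ n →
    (∀ l ∈ Finset.Nat.antidiagonalTuple d n, ∀ x : Fin d → ℝ, ‖bp c l x‖ ≤ A) →
    C * ∑ l ∈ Finset.Nat.antidiagonalTuple d n, ∑ k ∈ blk l, ‖c k‖ ^ 2 ≤
      ((2 * n : ℕ) : ℝ) ^
          (((d : ℝ) - 1) / 2 - ((d : ℝ) - 1) / (2 * (3 * (d : ℝ) - 4)) + ε) * A *
        ⨆ x : Fin d → ℝ, ‖∑ l ∈ Finset.Nat.antidiagonalTuple d n, bp c l x‖

end Pool.Agent.SHD
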