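import Pool.Agent.Lib.MP_a7b2aa_an.SHD.Stmts2_65

/-!
SHD3 (chairs: helper23, helper25, helper65): MP_a7b2aa_an, every dimension `d = m + 1 ≥ 3`, all
coefficients, with the gain `1 / 4 - ε`. This file: natural norms for the gated tilt of an
arbitrary flat adapted array. Blueprints: SHD3_23.md (proof), SHD3_23b.md (modules).
-/

set_option autoImplicit false

namespace Pool.Agent.SHD

open Finset Pool.Agent.SB3 Pool.Agent.SBT Pool.Agent.SBD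

/-! ### definitions -/

/-- flat adapted arrays on the band of width `R` around the level `N` -/
structure ArF {m L : ℕ} (N R : ℕ) (v : (Fin (m + 1) → ℕ) → Pt m L → ℝ) : Prop where
  abs : ∀ q ω, |v q ω| ≤ 1
  dep : ∀ q, Ms q (v q)
  bd : ∀ q ω, R < dst (∑ a, q a) N → v q ω = 0

/-- rows: string `a`; columns: string `c`; the strings in `U` are summed -/
noncomputable def Mg {m L : ℕ} (U : Finset (Fin (m + 1))) (a c : Fin (m + 1))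
    (q : Fin (m + 1) → ℕ) (v : (Fin (m + 1) → ℕ) → Pt m L → ℝ) (ω : Pt m L) :
    Matrix (Fin L) (Fin L) ℝ :=
  Matrix.of (fun (x y : Fin L) =>
    ∑ r ∈ fr L U (Function.update (Function.update q a x) c y), ps U r ω * v r ω)

/-- product of the side lengths in the directions of `U` -/
noncomputable def bl {m : ℕ} (U : Finset (Fin (m + 1))) (lo hi : Fin (m + 1) → ℕ) : ℝ :=
  ∏ e ∈ U, ((hi e - lo e : ℕ) : ℝ)

/-- admissible boxes at the stage `j`: the string `0` below `j`; the row `j` is allowed if the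
string `0` is not summed -/
def Ad {m : ℕ} (L j : ℕ) (U : Finset (Fin (m + 1))) (hi : Fin (m + 1) → ℕ) : Prop :=
  (∀ a, hi a ≤ L) ∧ (0 ∈ U → hi 0 ≤ j) ∧ (0 ∉ U → hi 0 ≤ j + 1)

/-- natural norms at the stage `j`, at most `u` summed strings -/
def Nt {m L : ℕ} (β : ℕ → ℝ) (v : (Fin (m + 1) → ℕ) → Pt m L → ℝ) (j u : ℕ)
    (ω : Pt m L) : Prop :=
  ∀ (lo hi : Fin (m + 1) → ℕ) (U : Finset (Fin (m + 1))) (a c : Fin (m + 1))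
    (q : Fin (m + 1) → ℕ), Ad L j U hi → a ≠ c → a ∉ U → c ∉ U → U.card ≤ u →
    NB (Mg U a c q (cut lo hi v) ω) (β U.card * bl U lo hi)

/-- the scalar sums at the stage `j` -/
def Ns {m L : ℕ} (B : ℝ) (v : (Fin (m + 1) → ℕ) → Pt m L → ℝ) (j : ℕ) (ω : Pt m L) : Prop :=
  ∀ lo hi : Fin (m + 1) → ℕ, (∀ a, hi a ≤ L) → hi 0 ≤ j + 1 → ∀ i, XX (cut lo hi v) i ω ^ 2 ≤ B

open Classical in
/-- the gate at full size: norms, scalars, density -/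
noncomputable def gn {m L : ℕ} (β : ℕ → ℝ) (B D lam : ℝ)
    (v : (Fin (m + 1) → ℕ) → Pt m L → ℝ) (j : ℕ) (ω : Pt m L) : ℝ :=
  if j < L ∧ Nt β v j m ω ∧ Ns B v j ω ∧
    ∀ i ≤ j, lam * ∑ l ∈ range i, sb 0 l ω * XX v l ω ≤ D then 1 else 0

/-- the sizes of the norms -/
noncomputable def bN (L : ℕ) (ε : ℝ) (u : ℕ) : ℝ := 49 * (L : ℝ) ^ (((u : ℝ) + 1) * ε)

/-- the size of the scalars -/
noncomputable def BN (m L : ℕ) (ε : ℝ) : ℝ :=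
  49 * (L : ℝ) ^ (((m : ℝ) + 1) * ε) * (L : ℝ) ^ (m - 1)

/-- the logarithm of the density -/
noncomputable def DN (m L : ℕ) (ε lam : ℝ) : ℝ := 3 * lam ^ 2 * BN m L ε * L + (L : ℝ) ^ ε

/-- the gate -/
noncomputable def gN {m L : ℕ} (ε lam : ℝ) (v : (Fin (m + 1) → ℕ) → Pt m L → ℝ) (j : ℕ)
    (ω : Pt m L) : ℝ := gn (bN L ε) (BN m L ε) (DN m L ε lam) lam v j ω

/-- `L` in all directions, `j` in direction `0` -/
def jb {m : ℕ} (L j : ℕ) : Fin (m + 1) → ℕ := Function.update (fun _ => L) 0 j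

/-- `u_r = ∑_{i < j} x_i C_{i r}`, `C_{i r} = Bm b v i r` -/
noncomputable def uu {m L : ℕ} (b : Fin (m + 1)) (v : (Fin (m + 1) → ℕ) → Pt m L → ℝ) (j r : ℕ)
    (ω : Pt m L) : ℝ := ∑ i ∈ range j, sb 0 i ω * Bm b v i r ω

/-- the Gram matrix of the columns of `C`, rows below `j` -/
noncomputable def gr {m L : ℕ} (b : Fin (m + 1)) (v : (Fin (m + 1) → ℕ) → Pt m L → ℝ)
    (j r s : ℕ) (ω : Pt m L) : ℝ := ∑ i ∈ range j, Bm b v i r ω * Bm b v i s ω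

/-- the bias of string `b` after the exchange -/
noncomputable def be {m L : ℕ} (lam : ℝ) (b : Fin (m + 1))
    (v : (Fin (m + 1) → ℕ) → Pt m L → ℝ) (j r : ℕ) (ω : Pt m L) : ℝ :=
  lam * (uu b v j r ω - lam * ∑ s ∈ range r, gr b v j r s ω * sb b s ω)

open Classical in
/-- the bias, stopped -/
noncomputable def bh {m L : ℕ} (lam D : ℝ) (b : Fin (m + 1))
    (v : (Fin (m + 1) → ℕ) → Pt m L → ℝ) (j r : ℕ) (ω : Pt m L) : ℝ :=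
  if ∀ s ≤ r, |be lam b v j s ω| ≤ 1 / 2 ∧
    ∑ l ∈ range s, sb b l ω * be lam b v j l ω ≤ D then be lam b v j r ω else 0

/-- the exchanged law: string `0` and all strings except `b` are uniform -/
noncomputable def rr {m L : ℕ} (lam D : ℝ) (b : Fin (m + 1))
    (v : (Fin (m + 1) → ℕ) → Pt m L → ℝ) (j : ℕ) (ω : Pt m L) : ℝ :=
  ∏ r ∈ range L, (1 + sb b r ω * bh lam D b v j r ω)

/-- the sum over all cells of the box with `q b = r` -/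
noncomputable def hq {m L : ℕ} (b : Fin (m + 1)) (v : (Fin (m + 1) → ℕ) → Pt m L → ℝ)
    (lo' hi' : Fin (m + 1) → ℕ) (r : ℕ) (ω : Pt m L) : ℝ :=
  ∑ q ∈ fr L (univ.erase b) (fun _ => r), ps (univ.erase b) q ω * cut lo' hi' v q ω

/-- coupled kernels: pairs of cells `q'`, `p` with `q' b = p b`, `q' s = u` and `p e < q' e` for
`e ∈ T` -/
noncomputable def KK {m L : ℕ} (T : Finset (Fin (m + 1))) (b s : Fin (m + 1))
    (U : Finset (Fin (m + 1))) (a c : Fin (m + 1)) (q : Fin (m + 1) → ℕ)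
    (v : (Fin (m + 1) → ℕ) → Pt m L → ℝ) (lo' hi' lo hi : Fin (m + 1) → ℕ) (u : ℕ)
    (ω : Pt m L) : Matrix (Fin L) (Fin L) ℝ :=
  Matrix.of (fun (x y : Fin L) => ∑ r ∈ range L,
    ∑ q' ∈ fr L ((univ.erase b).erase s) (Function.update (Function.update (fun _ => 0) b r) s u),
    ∑ p ∈ fr L (U.erase b)
      (Function.update (Function.update (Function.update q a x) c y) b r),
      if ∀ e ∈ T, p e < q' e then
        (ps ((univ.erase b).erase s) q' ω * cut lo' hi' v q' ω) *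
          (ps (U.erase b) p ω * cut lo hi v p ω) else 0)

/-- the remaining pairs: `q' ≤ p` -/
noncomputable def K0 {m L : ℕ} (b : Fin (m + 1))
    (U : Finset (Fin (m + 1))) (a c : Fin (m + 1)) (q : Fin (m + 1) → ℕ)
    (v : (Fin (m + 1) → ℕ) → Pt m L → ℝ) (lo' hi' lo hi : Fin (m + 1) → ℕ)
    (ω : Pt m L) : Matrix (Fin L) (Fin L) ℝ :=
  Matrix.of (fun (x y : Fin L) => ∑ r ∈ range L,
    ∑ q' ∈ fr L (univ.erase b) (fun _ => r),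
    ∑ p ∈ fr L (U.erase b)
      (Function.update (Function.update (Function.update q a x) c y) b r),
      if ∀ e, e ≠ b → q' e ≤ p e then
        (ps (univ.erase b) q' ω * cut lo' hi' v q' ω) *
          (ps (U.erase b) p ω * cut lo hi v p ω) else 0)

/-- scalar kernels: string `0` is fixed (`p 0 = i`), all other strings are summed -/
noncomputable def k1 {m L : ℕ} (T : Finset (Fin (m + 1))) (b s : Fin (m + 1)) (i : ℕ)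
    (v : (Fin (m + 1) → ℕ) → Pt m L → ℝ) (lo' hi' lo hi : Fin (m + 1) → ℕ) (u : ℕ)
    (ω : Pt m L) : ℝ :=
  ∑ r ∈ range L,
    ∑ q' ∈ fr L ((univ.erase b).erase s) (Function.update (Function.update (fun _ => 0) b r) s u),
    ∑ p ∈ fr L ((Inn m).erase b) (Function.update (fun _ => i) b r),
      if ∀ e ∈ T, p e < q' e then
        (ps ((univ.erase b).erase s) q' ω * cut lo' hi' v q' ω) *
          (ps ((Inn m).erase b) p ω * cut lo hi v p ω) else 0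

/-- the remaining pairs, scalar case -/
noncomputable def k0 {m L : ℕ} (b : Fin (m + 1)) (i : ℕ)
    (v : (Fin (m + 1) → ℕ) → Pt m L → ℝ) (lo' hi' lo hi : Fin (m + 1) → ℕ)
    (ω : Pt m L) : ℝ :=
  ∑ r ∈ range L,
    ∑ q' ∈ fr L (univ.erase b) (fun _ => r),
    ∑ p ∈ fr L ((Inn m).erase b) (Function.update (fun _ => i) b r),
      if ∀ e, e ≠ b → q' e ≤ p e then
        (ps (univ.erase b) q' ω * cut lo' hi' v q' ω) *
          (ps ((Inn m).erase b) p ω * cut lo hi v p ω) else 0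

/-! ### modules: linear algebra and martingales -/

/-- NBT: the transposed matrix -/
def StNbt : Prop := ∀ (κ κ' : Type) [Fintype κ] [Fintype κ'] (A : Matrix κ κ' ℝ) (b : ℝ),
  0 ≤ b → NB A b → NB A.transpose b

/-- TRI: triangular truncation -/
def StTri : Prop := ∀ (L : ℕ) (G : ℕ → ℕ → ℝ) (B : ℝ), 0 ≤ B →
  (∀ u : ℕ → ℝ, ∑ x ∈ range L, (∑ y ∈ range L, G x y * u y) ^ 2 ≤ B * ∑ y ∈ range L, u y ^ 2) →
  ∀ u : ℕ → ℝ, ∑ x ∈ range L, (∑ y ∈ range x, G x y * u y) ^ 2 ≤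
    ((Nat.log 2 L : ℝ) + 1) ^ 2 * B * ∑ y ∈ range L, u y ^ 2

/-- SC: scalar martingales, in event form -/
def StSc : Prop := ∀ (n : ℕ) (ε : ℝ), 0 < ε → ∃ C : ℝ, 1 ≤ C ∧
  ∀ (m L : ℕ) (c : Fin (m + 1)) (z : ℕ → Pt m L → ℝ) (k Z : ℝ) (ρ : Pt m L → ℝ), 1 ≤ L →
    Law k ρ → 0 ≤ Z → (∀ t, Ms (one L c t) (z t)) →
    Pr ρ (fun ω => ∑ t ∈ range L, z t ω ^ 2 ≤ Z ∧
      C * (L : ℝ) ^ ε * Z < (∑ t ∈ range L, (sb c t ω - al ρ c t ω) * z t ω) ^ 2) ≤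
      C / (L + 1) ^ n

/-- MF4: matrix martingales with a bounded square function (fourth moment and excursions) -/
def StMf4 : Prop := ∀ (n : ℕ) (ε : ℝ), 0 < ε → ∃ C : ℝ, 1 ≤ C ∧
  ∀ (m L : ℕ) (c : Fin (m + 1)) (K : ℕ → Pt m L → Matrix (Fin L) (Fin L) ℝ) (k B : ℝ)
    (ρ : Pt m L → ℝ) (G : Pt m L → Prop), 1 ≤ L → Law k ρ → 0 ≤ B →
    (∀ t, Ms (one L c t) (K t)) →
    (∀ ω, G ω → ∀ w : Fin L → ℝ,
      ∑ t ∈ range L, ∑ x, (∑ y, K t ω x y * w y) ^ 2 ≤ B * ∑ y, w y ^ 2) →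
    (∀ ω, G ω → ∀ w : Fin L → ℝ,
      ∑ t ∈ range L, ∑ y, (∑ x, K t ω x y * w x) ^ 2 ≤ B * ∑ x, w x ^ 2) →
    Pr ρ (fun ω => G ω ∧ ¬ NB (∑ t ∈ range L, (sb c t ω - al ρ c t ω) • K t ω)
      (C * (L : ℝ) ^ ε * Real.sqrt L * B)) ≤ C / (L + 1) ^ n

/-- FRV: matrix martingales with uniformly bounded terms, in event form (as OP60.mart; NBT) -/
def StFrv : Prop := ∀ (n : ℕ) (ε : ℝ), 0 < ε → ∃ C : ℝ, 1 ≤ C ∧
  ∀ (m L lo hi : ℕ) (c : Fin (m + 1)) (K : ℕ → Pt m L → Matrix (Fin L) (Fin L) ℝ) (k b : ℝ)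
    (ρ : Pt m L → ℝ) (G : Pt m L → Prop), 1 ≤ L → Law k ρ → 0 ≤ b → hi ≤ L →
    (∀ t, Ms (one L c t) (K t)) → (∀ t ω, t < lo ∨ hi ≤ t → K t ω = 0) →
    (∀ ω, G ω → ∀ t, NB (K t ω) b) →
    Pr ρ (fun ω => G ω ∧ ¬ NB (∑ t ∈ range L, (sb c t ω - al ρ c t ω) • K t ω)
      (C * (L : ℝ) ^ ε * ((hi - lo : ℕ) : ℝ) * b)) ≤ C / (L + 1) ^ n

/-- ALX: the bias of a law given by its correlations (from EEB) -/
def StAlx : Prop := ∀ (m L : ℕ) (k : ℝ) (ρ f : Pt m L → ℝ) (a : Fin (m + 1)) (t : ℕ), Law k ρ →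
  t < L → Ms (one L a t) f →
  (∀ X : Pt m L → ℝ, Ms (one L a t) X →
    Ex ρ (fun ω => sb a t ω * X ω) = Ex ρ (fun ω => f ω * X ω)) →
  ∀ ω, ρ ω ≠ 0 → al ρ a t ω = f ω

/-! ### modules: the exchange -/

/-- EXALG: identities of the exchange -/
def StExalg : Prop := ∀ (L j : ℕ) (C : ℕ → ℕ → ℝ) (x b : ℕ → ℝ) (lam : ℝ)
    (Γ u β y : ℕ → ℝ) (G H : ℕ → ℕ → ℝ), (∀ i, x i ^ 2 = 1) → (∀ r, b r ^ 2 = 1) →
    (∀ i, Γ i = ∑ r ∈ range L, b r * C i r) → (∀ r, u r = ∑ i ∈ range j, x i * C i r) →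
    (∀ r s, G r s = ∑ i ∈ range j, C i r * C i s) →
    (∀ i i', H i i' = ∑ r ∈ range L, C i r * C i' r) →
    (∀ r, β r = lam * (u r - lam * ∑ s ∈ range r, G r s * b s)) →
    (∀ i, y i = x i - lam * Γ i) →
    (∑ i ∈ range j, (x i * (lam * Γ i) - (lam * Γ i) ^ 2 / 2) =
      ∑ r ∈ range L, b r * β r - lam ^ 2 / 2 * ∑ r ∈ range L, G r r) ∧
    (∀ r < L, β r = lam * ∑ i ∈ range j, C i r * y i +
      lam ^ 2 * ∑ s ∈ Finset.Ico r L, G r s * b s) ∧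
    (∑ r ∈ range L, β r ^ 2 - lam ^ 2 * ∑ r ∈ range L, G r r =
      lam ^ 2 * (∑ i ∈ range j, (y i ^ 2 - 1) * H i i +
        2 * ∑ i ∈ range j, y i * ∑ i' ∈ range i, H i i' * y i') +
      2 * lam ^ 3 * (∑ r ∈ range L, b r * ∑ s ∈ range (r + 1), G r s * u s -
        lam * ∑ r ∈ range L, (∑ s ∈ range L, G r s * b s) *
          ∑ s ∈ Finset.Ico r L, G r s * b s) +
      lam ^ 4 * ∑ r ∈ range L, (∑ s ∈ Finset.Ico r L, G r s * b s) ^ 2)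

/-- RLAW: the exchanged law has bounded density and an explicit bias (from EEB, ALX) -/
def StRlaw : Prop := ∀ (m L N R j : ℕ) (lam D : ℝ) (b : Fin (m + 1))
    (v : (Fin (m + 1) → ℕ) → Pt m L → ℝ), b ≠ 0 → 0 ≤ D → ArF N R v →
    Law (D + 1) (rr lam D b v j) ∧
    (∀ r, Ms (one L b r) (bh lam D b v j r)) ∧
    (∀ r ω, |bh lam D b v j r ω| ≤ 1 / 2) ∧
    (∀ r < L, ∀ X : Pt m L → ℝ, Ms (one L b r) X →
      Ex (rr lam D b v j) (fun ω => sb b r ω * X ω) =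
        Ex (rr lam D b v j) (fun ω => bh lam D b v j r ω * X ω)) ∧
    (∀ r < L, ∀ ω, al (rr lam D b v j) b r ω = bh lam D b v j r ω)

/-- EXCH: the exchange lemma (from EXALG, SC, TRI, NBT, TAIL, ALX, TILTK) -/
def StExch : Prop := ∀ (m n : ℕ) (ε : ℝ), 1 ≤ m → 0 < ε → ∃ C : ℝ, 1 ≤ C ∧
  ∀ (L N R j : ℕ) (k lam β D : ℝ) (b : Fin (m + 1)) (v : (Fin (m + 1) → ℕ) → Pt m L → ℝ)
    (θ : ℕ → Pt m L → ℝ) (G : Pt m L → Prop), 1 ≤ L → j ≤ L → b ≠ 0 → 1 ≤ k → 0 ≤ lam →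
    0 ≤ β → ArF N R v → Prd θ → Law k (qq θ) → (∀ i ω, j ≤ i → θ i ω = 0) →
    (∀ ω, G ω → (∀ i < j, θ i ω = lam * XX v i ω ∧ XX v i ω ^ 2 ≤ β) ∧
      ∀ w : Fin L → ℝ,
        ∑ i ∈ range j, (∑ t : Fin L, Bm b v i t ω * w t) ^ 2 ≤ β * ∑ t, w t ^ 2) →
    C * (k + lam ^ 2 * β * L) ^ 2 * (L : ℝ) ^ ε ≤ L →
    C * (k + lam ^ 2 * β * L + (L : ℝ) ^ ε) ≤ D →
    Pr (qq θ) (fun ω => G ω ∧ ¬ (qq θ ω ≤ Real.exp 1 * rr lam D b v j ω ∧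
      rr lam D b v j ω ≤ Real.exp 1 * qq θ ω ∧
      ∀ r < L, bh lam D b v j r ω = be lam b v j r ω)) ≤ C / (L + 1) ^ n

/-! ### modules: the top digit -/

/-- KMS: the kernels do not depend on the top digit -/
def StKms : Prop := ∀ (m L N R : ℕ) (T : Finset (Fin (m + 1))) (b s : Fin (m + 1))
    (U : Finset (Fin (m + 1))) (a c : Fin (m + 1)) (q : Fin (m + 1) → ℕ)
    (v : (Fin (m + 1) → ℕ) → Pt m L → ℝ) (lo' hi' lo hi : Fin (m + 1) → ℕ) (i u : ℕ),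
    ArF N R v → s ∈ T → s ≠ b → Ms (one L s u) (KK T b s U a c q v lo' hi' lo hi u) ∧
      Ms (one L s u) (k1 T b s i v lo' hi' lo hi u)

/-- KB: the square function of the kernels (deterministic) -/
def StKb : Prop := ∀ (m L : ℕ) (β1 β2 : ℝ) (T : Finset (Fin (m + 1))) (b s : Fin (m + 1))
    (U : Finset (Fin (m + 1))) (a c : Fin (m + 1)) (q : Fin (m + 1) → ℕ)
    (v : (Fin (m + 1) → ℕ) → Pt m L → ℝ) (lo' hi' lo hi : Fin (m + 1) → ℕ) (ω : Pt m L),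
    0 ≤ β1 → 0 ≤ β2 → b ∈ U → s ≠ b → a ≠ c → a ∉ U → c ∉ U → b ∉ T →
    (∀ e, hi' e ≤ L) → (∀ e, hi e ≤ L) →
    (∀ lo2 hi2 q2 : Fin (m + 1) → ℕ, (∀ e, hi2 e ≤ hi e) →
      NB (Mg (U.erase b) a c q2 (cut lo2 hi2 v) ω) (β1 * bl (U.erase b) lo2 hi2)) →
    (∀ lo2 hi2 : Fin (m + 1) → ℕ, (∀ e, hi2 e ≤ hi' e) →
      NB (Mg ((univ.erase b).erase s) b s (fun _ => 0) (cut lo2 hi2 v) ω)
        (β2 * bl ((univ.erase b).erase s) lo2 hi2)) →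
    ∀ w : Fin L → ℝ,
      ∑ u ∈ range L, ∑ x, (∑ y, KK T b s U a c q v lo' hi' lo hi u ω x y * w y) ^ 2 ≤
        ((Nat.log 2 L : ℝ) + 1) ^ (2 * T.card) * (β2 * bl ((univ.erase b).erase s) lo' hi') *
          (β1 * bl U lo hi) * ∑ y, w y ^ 2

/-- KBS: the same for the scalar kernels -/
def StKbs : Prop := ∀ (m L i : ℕ) (β1 β2 : ℝ) (T : Finset (Fin (m + 1))) (b s : Fin (m + 1))
    (v : (Fin (m + 1) → ℕ) → Pt m L → ℝ) (lo' hi' lo hi : Fin (m + 1) → ℕ) (ω : Pt m L),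
    0 ≤ β1 → 0 ≤ β2 → b ≠ 0 → s ≠ b → b ∉ T → i < L →
    (∀ e, hi' e ≤ L) → (∀ e, hi e ≤ L) →
    (∀ lo2 hi2 q2 : Fin (m + 1) → ℕ, (∀ e, hi2 e ≤ hi e) →
      NB (Mg ((Inn m).erase b) b 0 q2 (cut lo2 hi2 v) ω)
        (β1 * bl ((Inn m).erase b) lo2 hi2)) →
    (∀ lo2 hi2 : Fin (m + 1) → ℕ, (∀ e, hi2 e ≤ hi' e) →
      NB (Mg ((univ.erase b).erase s) b s (fun _ => 0) (cut lo2 hi2 v) ω)
        (β2 * bl ((univ.erase b).erase s) lo2 hi2)) →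
    ∑ u ∈ range L, k1 T b s i v lo' hi' lo hi u ω ^ 2 ≤
      ((Nat.log 2 L : ℝ) + 1) ^ (2 * T.card) * (β2 * bl ((univ.erase b).erase s) lo' hi') *
        (β1 * bl ((Inn m).erase b) lo hi)

/-- CRUD: the remaining pairs (band) -/
def StCrud : Prop := ∀ (m L N R : ℕ) (b : Fin (m + 1))
    (v : (Fin (m + 1) → ℕ) → Pt m L → ℝ) (lo' hi' lo hi : Fin (m + 1) → ℕ) (ω : Pt m L),
    ArF N R v → (∀ e, hi e ≤ L) →
    (∀ (U : Finset (Fin (m + 1))) (a c : Fin (m + 1)) (q : Fin (m + 1) → ℕ), b ∈ U → a ≠ c →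
      a ∉ U → c ∉ U → NB (K0 b U a c q v lo' hi' lo hi ω)
        ((2 * (R : ℝ) + 1) ^ (2 * m + 2) * bl U lo hi ^ 2)) ∧
    (∀ i, b ≠ 0 → k0 b i v lo' hi' lo hi ω ^ 2 ≤
      (2 * (R : ℝ) + 1) ^ (2 * m + 2) * bl ((Inn m).erase b) lo hi ^ 2)

/-- SPLIT: inclusion and exclusion -/
def StSplit : Prop := ∀ (m L : ℕ) (b : Fin (m + 1))
    (v : (Fin (m + 1) → ℕ) → Pt m L → ℝ) (lo' hi' lo hi : Fin (m + 1) → ℕ)
    (s : Finset (Fin (m + 1)) → Fin (m + 1)) (ω : Pt m L),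
    (∀ T : Finset (Fin (m + 1)), T.Nonempty → s T ∈ T) →
    (∀ (U : Finset (Fin (m + 1))) (a c : Fin (m + 1)) (q : Fin (m + 1) → ℕ), b ∈ U → a ≠ c →
      a ∉ U → c ∉ U →
      ∑ r ∈ range L, hq b v lo' hi' r ω •
          Mg (U.erase b) a c (Function.update q b r) (cut lo hi v) ω =
        ∑ T ∈ ((univ.erase b).powerset.erase ∅ : Finset (Finset (Fin (m + 1)))),
          (-1 : ℝ) ^ (T.card + 1) • ∑ u ∈ range L, sb (s T) u ω •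
            KK T b (s T) U a c q v lo' hi' lo hi u ω +
        K0 b U a c q v lo' hi' lo hi ω) ∧
    (∀ i, b ≠ 0 →
      ∑ r ∈ range L, hq b v lo' hi' r ω * Bm b (cut lo hi v) i r ω =
        ∑ T ∈ ((univ.erase b).powerset.erase ∅ : Finset (Finset (Fin (m + 1)))),
          (-1 : ℝ) ^ (T.card + 1) * ∑ u ∈ range L, sb (s T) u ω *
            k1 T b (s T) i v lo' hi' lo hi u ω +
        k0 b i v lo' hi' lo hi ω)

/-- TOPM: one more summed string, matrices (from FRV, MF4, TAIL, KMS, KB, CRUD, SPLIT, NBT) -/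
def StTopm : Prop := ∀ (m n : ℕ) (ε : ℝ), 1 ≤ m → 0 < ε → ∃ C : ℝ, 1 ≤ C ∧
  ∀ (L N R j : ℕ) (κ lam β1 β2 η : ℝ) (ρ : Pt m L → ℝ)
    (v : (Fin (m + 1) → ℕ) → Pt m L → ℝ) (G : Pt m L → Prop) (b : Fin (m + 1))
    (U : Finset (Fin (m + 1))) (a c : Fin (m + 1)) (q lo hi : Fin (m + 1) → ℕ),
    1 ≤ L → j ≤ L → 0 ≤ κ → 0 ≤ lam → 1 ≤ β1 → 1 ≤ β2 → 0 ≤ η → Law κ ρ → ArF N R v →
    b ∈ U → a ≠ c → a ∉ U → c ∉ U → (∀ e, hi e ≤ L) →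
    (∀ ω, G ω → ∀ lo2 hi2 q2 : Fin (m + 1) → ℕ, (∀ e, hi2 e ≤ hi e) →
      NB (Mg (U.erase b) a c q2 (cut lo2 hi2 v) ω) (β1 * bl (U.erase b) lo2 hi2) ∧
      NB (Mg (U.erase b) c a q2 (cut lo2 hi2 v) ω) (β1 * bl (U.erase b) lo2 hi2)) →
    (∀ ω, G ω → ∀ (s : Fin (m + 1)) (lo2 hi2 : Fin (m + 1) → ℕ), s ≠ b →
      (∀ e, hi2 e ≤ jb L j e) →
      NB (Mg ((univ.erase b).erase s) b s (fun _ => 0) (cut lo2 hi2 v) ω)
        (β2 * bl ((univ.erase b).erase s) lo2 hi2)) →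
    (∀ ω, G ω → ρ ω ≠ 0 →
      ∑ r ∈ range L, (al ρ b r ω - lam * hq b v (fun _ => 0) (jb L j) r ω) ^ 2 ≤ η) →
    Pr ρ (fun ω => G ω ∧ ¬ NB (Mg U a c q (cut lo hi v) ω)
      (C * β1 * ((L : ℝ) ^ ε + η + lam ^ 2 * (L : ℝ) ^ (m - 1) *
        (β2 * (Real.sqrt L + κ) * (L : ℝ) ^ ε + ((R : ℝ) + 1) ^ (2 * m + 2))) * bl U lo hi)) ≤
      C / (L + 1) ^ n

/-- TOPS: the same for scalar sums (from SC, TAIL, KMS, KBS, CRUD, SPLIT) -/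
def StTops : Prop := ∀ (m n : ℕ) (ε : ℝ), 1 ≤ m → 0 < ε → ∃ C : ℝ, 1 ≤ C ∧
  ∀ (L N R j i : ℕ) (κ lam β1 β2 η : ℝ) (ρ : Pt m L → ℝ)
    (v : (Fin (m + 1) → ℕ) → Pt m L → ℝ) (G : Pt m L → Prop) (b : Fin (m + 1))
    (lo hi : Fin (m + 1) → ℕ),
    1 ≤ L → j ≤ L → i < L → 0 ≤ κ → 0 ≤ lam → 1 ≤ β1 → 1 ≤ β2 → 0 ≤ η → Law κ ρ → ArF N R v →
    b ≠ 0 → (∀ e, hi e ≤ L) →
    (∀ ω, G ω → ∀ lo2 hi2 q2 : Fin (m + 1) → ℕ, (∀ e, hi2 e ≤ hi e) →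
      NB (Mg ((Inn m).erase b) b 0 q2 (cut lo2 hi2 v) ω)
        (β1 * bl ((Inn m).erase b) lo2 hi2)) →
    (∀ ω, G ω → ∀ (s : Fin (m + 1)) (lo2 hi2 : Fin (m + 1) → ℕ), s ≠ b →
      (∀ e, hi2 e ≤ jb L j e) →
      NB (Mg ((univ.erase b).erase s) b s (fun _ => 0) (cut lo2 hi2 v) ω)
        (β2 * bl ((univ.erase b).erase s) lo2 hi2)) →
    (∀ ω, G ω → ρ ω ≠ 0 →
      ∑ r ∈ range L, (al ρ b r ω - lam * hq b v (fun _ => 0) (jb L j) r ω) ^ 2 ≤ η) →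
    Pr ρ (fun ω => G ω ∧ C * β1 * ((L : ℝ) ^ ε + η + lam ^ 2 * (L : ℝ) ^ (m - 1) *
        (β2 * (1 + κ) * (L : ℝ) ^ ε + ((R : ℝ) + 1) ^ (2 * m + 2))) * (L : ℝ) ^ (m - 1) <
      XX (cut lo hi v) i ω ^ 2) ≤ C / (L + 1) ^ n

/-! ### modules: the gate stays open -/

/-- GTN: `gn` is a gate, and it controls the norms -/
def StGtN : Prop := ∀ (m L N R : ℕ) (β : ℕ → ℝ) (B D lam : ℝ) (bb : ℕ → ℝ)
    (v : (Fin (m + 1) → ℕ) → Pt m L → ℝ), ArF N R v → (∀ u, 0 ≤ β u) →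
    (∀ u ≤ m, β u * (L : ℝ) ^ u ≤ bb u) → B ≤ bb (m - 1) →
    Gate (gn β B D lam v) ∧ Nrm bb (gn β B D lam v) v

/-- LAWN: the gated tilt has bounded density -/
def StLawN : Prop := ∀ (m L N R : ℕ) (D lam : ℝ) (g : ℕ → Pt m L → ℝ)
    (v : (Fin (m + 1) → ℕ) → Pt m L → ℝ), 0 ≤ D → ArF N R v → Gate g →
    (∀ j ω, |tg lam g v j ω| ≤ 1) →
    (∀ j ω, g j ω = 1 → lam * ∑ l ∈ range j, sb 0 l ω * XX v l ω ≤ D) →
    Prd (tg lam g v) ∧ Law (D + 1) (qq (tg lam g v))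

/-- HQU: the sums `hq` on the box `jb L j` -/
def StHqu : Prop := ∀ (m L j : ℕ) (v : (Fin (m + 1) → ℕ) → Pt m L → ℝ) (ω : Pt m L) (r : ℕ),
    j ≤ L → r < L →
    (∀ b : Fin (m + 1), b ≠ 0 → hq b v (fun _ => 0) (jb L j) r ω = uu b v j r ω) ∧
    hq 0 v (fun _ => 0) (jb L j) r ω = if r < j then XX v r ω else 0

/-- BEXT: the full matrices with rows below `j`, from the open gate -/
def StBext : Prop := ∀ (m L N R j : ℕ) (β : ℕ → ℝ) (B D lam : ℝ)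
    (v : (Fin (m + 1) → ℕ) → Pt m L → ℝ) (ω : Pt m L), ArF N R v → j ≤ L → 1 ≤ m →
    (∀ u, 0 ≤ β u) → Monotone β → (∀ i < j, gn β B D lam v i ω = 1) →
    ∀ (b s : Fin (m + 1)) (lo hi : Fin (m + 1) → ℕ), s ≠ b → (∀ e, hi e ≤ jb L j e) →
      NB (Mg ((univ.erase b).erase s) b s (fun _ => 0) (cut lo hi v) ω)
        (4 * β (m - 1) * bl ((univ.erase b).erase s) lo hi)

/-- BASE: no summed string -/
def StBase : Prop := ∀ (m L N R : ℕ) (v : (Fin (m + 1) → ℕ) → Pt m L → ℝ)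
    (a c : Fin (m + 1)) (q lo hi : Fin (m + 1) → ℕ) (ω : Pt m L), ArF N R v → a ≠ c →
    NB (Mg ∅ a c q (cut lo hi v) ω) ((2 * (R : ℝ) + 1) ^ 2)

/-- STAGE: the gate does not close at the stage `j` (from EXCH, RLAW, TOPM, TOPS, HQU, BEXT, BASE,
GTN, LAWN, TILTK, ALX, TRI, NBT, SC) -/
def StStage : Prop := ∀ (m n : ℕ) (ε : ℝ), 2 ≤ m → 0 < ε → ∃ C : ℝ, 1 ≤ C ∧
  ∀ (L N R j : ℕ) (lam : ℝ) (v : (Fin (m + 1) → ℕ) → Pt m L → ℝ), 1 ≤ L → j < L → 0 ≤ lam →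
    ArF N R v → ((R : ℝ) + 1) ^ (2 * m + 2) ≤ (L : ℝ) ^ ε →
    C * (1 + lam ^ 2 * (L : ℝ) ^ m) ^ 2 * (L : ℝ) ^ ((4 * (m : ℝ) + 8) * ε) ≤ L →
    Pr (qq (tg lam (gN ε lam v) v))
      (fun ω => (∀ i < j, gN ε lam v i ω = 1) ∧ gN ε lam v j ω = 0) ≤ C / (L + 1) ^ n

/-- OPENN: the gate stays open, and the gated tilt is a law of bounded density (from STAGE, GTN,
LAWN) -/
def StOpenN : Prop := ∀ (m n : ℕ) (ε : ℝ), 2 ≤ m → 0 < ε → ∃ C : ℝ, 1 ≤ C ∧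
  ∀ (L N R : ℕ) (lam : ℝ) (v : (Fin (m + 1) → ℕ) → Pt m L → ℝ), 1 ≤ L → 0 ≤ lam →
    ArF N R v → ((R : ℝ) + 1) ^ (2 * m + 2) ≤ (L : ℝ) ^ ε →
    C * (1 + lam ^ 2 * (L : ℝ) ^ m) ^ 2 * (L : ℝ) ^ ((4 * (m : ℝ) + 8) * ε) ≤ L →
    Gate (gN ε lam v) ∧ Nrm (fun u => BN m L ε / (L : ℝ) ^ (m - 1) * (L : ℝ) ^ u) (gN ε lam v) v ∧
    Prd (tg lam (gN ε lam v) v) ∧ Law (DN m L ε lam + 1) (qq (tg lam (gN ε lam v) v)) ∧
    Pr (qq (tg lam (gN ε lam v) v)) (fun ω => ∃ j < L, gN ε lam v j ω = 0) ≤ C / (L + 1) ^ n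

end Pool.Agent.SHD
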