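import Pool.Agent.Lib.MP_a7b2aa_an.SBD.Base30

/-!
SHD (chair: helper65): MP_a7b2aa_an, every dimension `d = m + 1 ≥ 3`, all coefficients, energy form:
`∑ ‖P_s‖_2 ^ 2 ≤ C n ^ ((d - 1) / 2 - 1 / (2 d) + ε) max ‖P_s‖_∞ ‖∑ P_s‖_∞`.
Statements (as `Prop`s) of the modules, in the language of SBD. Blueprint: SHD_65.md.
-/

set_option autoImplicit false

namespace Pool.Agent.SHD

open Finset Pool.Agent.SB3 Pool.Agent.SBT Pool.Agent.SBD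

/-! ### part I: arrays on all cells, laws of bounded density -/

/-- distance in `ℕ` -/
def dst (s t : ℕ) : ℕ := (s - t) + (t - s)

/-- the weight of the cell `q`; `N` is the critical level -/
noncomputable def kap {d : ℕ} (N : ℕ) (q : Fin d → ℕ) : ℝ := (3 / 4 : ℝ) ^ dst (∑ a, q a) N

/-- arrays on all cells which decay away from the level `N`; `v q` depends on the past of `q` -/
structure ArK {m L : ℕ} (N : ℕ) (v : (Fin (m + 1) → ℕ) → Pt m L → ℝ) : Prop where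
  abs : ∀ q ω, |v q ω| ≤ kap N q
  dep : ∀ q, Ms q (v q)

/-- all cells -/
def All (m L : ℕ) : Finset (Fin (m + 1) → ℕ) := fr L Finset.univ (fun _ => 0)

/-- the function of `v` -/
noncomputable def HH {m L : ℕ} (v : (Fin (m + 1) → ℕ) → Pt m L → ℝ) (ω : Pt m L) : ℝ :=
  ∑ i ∈ range L, sb 0 i ω * XX v i ω

/-- the mean energy -/
noncomputable def mass {m L : ℕ} (v : (Fin (m + 1) → ℕ) → Pt m L → ℝ) : ℝ :=
  ∑ q ∈ All m L, Av (fun ω => v q ω ^ 2)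

/-- KAPK: sums of the weights -/
def StKapK : Prop := ∀ m : ℕ, ∃ C : ℝ, 1 ≤ C ∧ ∀ L N : ℕ,
    (∀ (q : Fin (m + 1) → ℕ) (a : Fin (m + 1)),
      ∑ t ∈ range L, kap N (Function.update q a t) ≤ 7) ∧
    (∑ q ∈ All m L, kap N q ≤ 7 * (L : ℝ) ^ m) ∧
    (∑ q ∈ All m L, kap N q ^ 2 * ∑ j ∈ range (q 0),
      (∑ r ∈ Fintype.piFinset (fun a => if a = 0 then {j} else range (q a)), kap N r) ^ 2 ≤
        C * (L : ℝ) ^ m)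

/-- OPK: operator norms of the partial sums (from OP, KAPK) -/
def StOpK : Prop := ∀ (m n : ℕ) (ε : ℝ), 0 < ε → ∃ C : ℝ, 1 ≤ C ∧
  ∀ (L N : ℕ) (U : Finset (Fin (m + 1))) (t : Fin (m + 1)) (v : (Fin (m + 1) → ℕ) → Pt m L → ℝ)
    (k : ℝ) (ρ : Pt m L → ℝ) (q : Fin (m + 1) → ℕ), 1 ≤ L → 0 ≤ k → Law k ρ → ArK N v →
    0 ∉ U → t ∉ U → t ≠ 0 →
    Pr ρ (fun ω => ¬ NB (Matrix.of (fun (x y : Fin L) =>
      ∑ r ∈ fr L U (Function.update (Function.update q 0 x) t y), ps U r ω * v r ω))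
        (C * (C * L * ((L : ℝ) ^ ε + k)) ^ U.card)) ≤ C / (L + 1) ^ n

/-- OPKS: size of the entries (from OP, KAPK) -/
def StOpKS : Prop := ∀ (m n : ℕ) (ε : ℝ), 0 < ε → ∃ C : ℝ, 1 ≤ C ∧
  ∀ (L N : ℕ) (U : Finset (Fin (m + 1))) (v : (Fin (m + 1) → ℕ) → Pt m L → ℝ)
    (k : ℝ) (ρ : Pt m L → ℝ) (q : Fin (m + 1) → ℕ), 1 ≤ L → 0 ≤ k → Law k ρ → ArK N v →
    0 ∉ U → U.Nonempty →
    Pr ρ (fun ω => C * (C * L * ((L : ℝ) ^ ε + k)) ^ (U.card - 1) <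
      (∑ r ∈ fr L U q, ps U r ω * v r ω) ^ 2) ≤ C / (L + 1) ^ n

/-- ENEK: lower bound of the energy (from ALF, TAIL, OPK, KAPK) -/
def StEneK : Prop := ∀ (m : ℕ) (ε : ℝ), 1 ≤ m → 0 < ε → ∃ C : ℝ, 1 ≤ C ∧
  ∀ (L N : ℕ) (v : (Fin (m + 1) → ℕ) → Pt m L → ℝ) (k : ℝ) (ρ : Pt m L → ℝ), 1 ≤ L → 1 ≤ k →
    Law k ρ → ArK N v →
    (1 / 2) ^ m * ∑ q ∈ All m L, Ex ρ (fun ω => v q ω ^ 2) -
        C * (L : ℝ) ^ (m - 1) * ((L : ℝ) ^ ε + k) ^ m ≤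
      ∑ i ∈ range L, Ex ρ (fun ω => XX v i ω ^ 2)

/-- VISK: correlation with functions of the past (from ALF, TAIL, OPK, KAPK) -/
def StVisK : Prop := ∀ (m : ℕ) (ε : ℝ), 1 ≤ m → 0 < ε → ∃ C : ℝ, 1 ≤ C ∧
  ∀ (L N r : ℕ) (a : Fin (m + 1)) (v : (Fin (m + 1) → ℕ) → Pt m L → ℝ) (k : ℝ)
    (ρ : Pt m L → ℝ) (X : ℕ → Pt m L → ℝ), 1 ≤ L → 1 ≤ k → Law k ρ → ArK N v → a ≠ 0 →
    (∀ i t, r ≤ t → Ms (one L a t) (X i)) → (∀ q ω, q a < r → v q ω = 0) →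
    |∑ i ∈ range L, Ex ρ (fun ω => XX v i ω * X i ω)| ≤
      Real.sqrt (C * (L : ℝ) ^ (m - 1) * ((L : ℝ) ^ ε + k) ^ m) *
        Real.sqrt (∑ i ∈ range L, Ex ρ (fun ω => X i ω ^ 2))

/-! ### part II: the tilt -/

/-- truncation at `1` -/
noncomputable def clip (t : ℝ) : ℝ := max (-1) (min 1 t)

/-- the density `∏ (1 + x_i θ_i)` -/
noncomputable def qq {m L : ℕ} (θ : ℕ → Pt m L → ℝ) (ω : Pt m L) : ℝ :=
  ∏ i ∈ range L, (1 + sb 0 i ω * θ i ω)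

/-- the tilt -/
noncomputable def th {m L : ℕ} (lam : ℝ) (v : (Fin (m + 1) → ℕ) → Pt m L → ℝ) (i : ℕ)
    (ω : Pt m L) : ℝ := clip (lam * XX v i ω)

/-- `θ i` depends on the first `i` signs of string `0` and on the other strings -/
structure Prd {m L : ℕ} (θ : ℕ → Pt m L → ℝ) : Prop where
  dep : ∀ i, Ms (one L 0 i) (θ i)
  abs : ∀ i ω, |θ i ω| ≤ 1

/-- TILTK: basic facts (from EEB) -/
def StTiltK : Prop := ∀ (m L : ℕ) (θ : ℕ → Pt m L → ℝ), Prd θ →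
    (∀ ω, 0 ≤ qq θ ω) ∧ Av (qq θ) = 1 ∧
    (∀ i < L, ∀ X : Pt m L → ℝ, Ms (one L 0 i) X →
      Ex (qq θ) (fun ω => sb 0 i ω * X ω) = Ex (qq θ) (fun ω => θ i ω * X ω)) ∧
    (∀ X : Pt m L → ℝ, Ms (one L 0 0) X → Ex (qq θ) X = Av X)

/-- LAWK: the tilt has density at most `exp (lam H)` (from TILTK) -/
def StLawK : Prop := ∀ (m L N : ℕ) (k lam M : ℝ) (v : (Fin (m + 1) → ℕ) → Pt m L → ℝ), 0 ≤ lam →
    lam * M ≤ k → ArK N v → (∀ ω, |HH v ω| ≤ M) → Prd (th lam v) ∧ Law k (qq (th lam v))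

/-- UNDK: the tilt is undetectable on a past where the conditional means `θb` are small
(from EEB, TILTK) -/
def StUndK : Prop := ∀ (m L : ℕ) (θ : ℕ → Pt m L → ℝ) (q : Fin (m + 1) → ℕ)
    (g : Pt m L → ℝ), Prd θ → q 0 ≤ L → Ms q g → (∀ ω, 0 ≤ g ω) → (∀ ω, g ω ≤ 1) →
    ∃ θb : ℕ → Pt m L → ℝ, (∀ j, Ms (Function.update q 0 j) (θb j)) ∧ (∀ j ω, |θb j ω| ≤ 1) ∧
      (∀ j < q 0, ∀ X : Pt m L → ℝ, Ms (Function.update q 0 j) X →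
        Ex (qq θ) (fun ω => θ j ω * X ω) = Ex (qq θ) (fun ω => θb j ω * X ω)) ∧
      (1 - Real.exp (-1)) * Av g - ∑ j ∈ range (q 0), Ex (qq θ) (fun ω => θb j ω ^ 2) ≤
        Ex (qq θ) g

/-- SATK: the tilt is not saturated (from LAWK, TILTK, OPKS, KAPK) -/
def StSatK : Prop := ∀ (m : ℕ) (ε : ℝ), 1 ≤ m → 0 < ε → ∃ C : ℝ, 1 ≤ C ∧
  ∀ (L N : ℕ) (k lam M : ℝ) (v : (Fin (m + 1) → ℕ) → Pt m L → ℝ), 1 ≤ L → 1 ≤ k → 0 ≤ lam →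
    lam * M ≤ k → ArK N v → (∀ ω, |HH v ω| ≤ M) →
    C * lam ^ 2 * (L : ℝ) ^ (m - 1) * ((L : ℝ) ^ ε + k) ^ (m - 1) ≤ 1 →
    (∑ i ∈ range L, Ex (qq (th lam v)) (fun ω => (th lam v i ω - lam * XX v i ω) ^ 2) ≤
      C * lam ^ 2) ∧
    lam * ∑ i ∈ range L, Ex (qq (th lam v)) (fun ω => XX v i ω ^ 2) - C * lam ≤ M

/-- DROPK: the loss of mass under the tilt (from LAWK, UNDK, VISK, SATK, KAPK) -/
def StDropK : Prop := ∀ (m : ℕ) (ε : ℝ), 1 ≤ m → 0 < ε → ∃ C : ℝ, 1 ≤ C ∧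
  ∀ (L N : ℕ) (k lam M : ℝ) (v : (Fin (m + 1) → ℕ) → Pt m L → ℝ), 1 ≤ L → 1 ≤ k → 0 ≤ lam →
    lam * M ≤ k → ArK N v → (∀ ω, |HH v ω| ≤ M) →
    C * lam ^ 2 * (L : ℝ) ^ (m - 1) * ((L : ℝ) ^ ε + k) ^ (m - 1) ≤ 1 →
    (1 / 2) * mass v - C * lam ^ 2 * (L : ℝ) ^ (2 * m - 1) * ((L : ℝ) ^ ε + k) ^ m ≤
      ∑ q ∈ All m L, Ex (qq (th lam v)) (fun ω => v q ω ^ 2)

/-- HAARK: the theorem for functions of sign vectors (from LAWK, ENEK, SATK, DROPK, KAPK) -/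
def StHaarK : Prop := ∀ (m : ℕ) (ε : ℝ), 1 ≤ m → 0 < ε → ∃ C : ℝ, 0 < C ∧
  ∀ (L N : ℕ) (M : ℝ) (v : (Fin (m + 1) → ℕ) → Pt m L → ℝ), 1 ≤ L → ArK N v → 0 ≤ M →
    (∀ ω, |HH v ω| ≤ M) → mass v ≤ M ^ 2 →
    mass v ≤ C * (L : ℝ) ^ ((m : ℝ) / 2 - 1 / (2 * ((m : ℝ) + 1)) + ε) * M

/-! ### part III: the grid -/

/-- CFEK: expansion and Parseval for functions with mean zero in every string (from EEB, CFOD) -/
def StCfeK : Prop := ∀ (m L : ℕ) (H : Pt m L → ℝ), (∀ a ω, EE (one L a 0) H ω = 0) →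
    (∀ ω, H ω = ∑ q ∈ All m L, ps Finset.univ q ω * cf H q ω) ∧
    Av (fun ω => H ω ^ 2) = ∑ q ∈ All m L, Av (fun ω => cf H q ω ^ 2)

/-- one variable Haar coefficient -/
noncomputable def Dl {L : ℕ} (t : ℕ) (ψ : Y L → ℝ) (y : Y L) : ℝ :=
  (∑ y' : Y L, if pre t y' = pre t y then sgr (bit y' t) * ψ y' else 0) / 2 ^ (L - t)

/-- the grid point -/
noncomputable def gpt {L : ℕ} (y : Y L) : ℝ :=
  ∑ r ∈ range L, if bit y r then 2 * Real.pi / 2 ^ (r + 1) else 0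

/-- the frequencies of size `2 ^ s` -/
noncomputable def Bl (s : ℕ) : Finset ℤ :=
  (Finset.Ioo (-(2 : ℤ) ^ s) ((2 : ℤ) ^ s)).filter (fun t : ℤ => (2 : ℤ) ^ s / 2 ≤ |t|)

/-- real trigonometric polynomials on the grid with frequencies in `Bl s` -/
def IsB {L : ℕ} (s : ℕ) (ψ : Y L → ℝ) : Prop := ∃ c : ℤ → ℂ, ∀ y : Y L,
  ψ y = (∑ k ∈ Bl s, c k * Complex.exp (Complex.I * (((k : ℝ) * gpt y : ℝ) : ℂ))).re

/-- K1D: decay of the Haar coefficients in both directions, one variable -/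
def StK1D : Prop := ∃ C : ℝ, 1 ≤ C ∧ ∀ (L s t : ℕ) (ψ : Y L → ℝ) (D : ℝ), 1 ≤ s → s + 2 ≤ L →
    t < L → IsB s ψ → (∀ y, |ψ y| ≤ D) → ∀ y, |Dl t ψ y| ≤ C * (1 / 2 : ℝ) ^ dst t s * D

/-- BLKB: the same in several variables (from K1D) -/
def StBlkb : Prop := ∀ m : ℕ, ∃ C : ℝ, 1 ≤ C ∧ ∀ (L : ℕ) (s q : Fin (m + 1) → ℕ)
    (φ : Pt m L → ℝ) (D : ℝ), (∀ a, 1 ≤ s a) → (∀ a, s a + 2 ≤ L) → (∀ a, q a < L) →
    (∀ (a : Fin (m + 1)) (ω : Pt m L), IsB (s a) (fun y => φ (Function.update ω a y))) →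
    (∀ ω, |φ ω| ≤ D) → ∀ ω, |cf φ q ω| ≤ C * (∏ a, (1 / 2 : ℝ) ^ dst (q a) (s a)) * D

/-- NUMK: the sum over the blocks -/
def StNumK : Prop := ∀ d : ℕ, ∃ C : ℝ, 1 ≤ C ∧ ∀ (n : ℕ) (q : Fin d → ℕ),
    ∑ l ∈ Finset.Nat.antidiagonalTuple d n, ∏ a, (1 / 2 : ℝ) ^ dst (q a) (2 * l a) ≤
      C * kap (2 * n) q

/-- the block `ϱ(2 l)` -/
noncomputable def blk {d : ℕ} (l : Fin d → ℕ) : Finset (Fin d → ℤ) :=
  Fintype.piFinset (fun j => Bl (2 * l j))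

/-- the block polynomial -/
noncomputable def bp {d : ℕ} (c : (Fin d → ℤ) → ℂ) (l : Fin d → ℕ) (x : Fin d → ℝ) : ℂ :=
  ∑ k ∈ blk l, c k * Complex.exp (Complex.I * ∑ j, (((k j : ℝ) * x j : ℝ) : ℂ))

/-- its real part on the grid -/
noncomputable def bg {m L : ℕ} (c : (Fin (m + 1) → ℤ) → ℂ) (l : Fin (m + 1) → ℕ) (ω : Pt m L) : ℝ :=
  (bp c l (fun j => gpt (ω j))).re

/-- interior positions -/
def inl (d n : ℕ) : Finset (Fin d → ℕ) :=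
  (Finset.Nat.antidiagonalTuple d n).filter (fun l => ∀ j, 1 ≤ l j)

/-- BGB: basic facts on `bg` -/
def StBgb : Prop := ∀ (m n L : ℕ) (c : (Fin (m + 1) → ℤ) → ℂ) (l : Fin (m + 1) → ℕ),
    l ∈ inl (m + 1) n → 2 * n + 2 ≤ L →
    (∀ (a : Fin (m + 1)) (ω : Pt m L), IsB (2 * l a) (fun y => bg c l (Function.update ω a y))) ∧
    (∀ (a : Fin (m + 1)) (ω : Pt m L), EE (one L a 0) (bg c l) ω = 0)

/-- GRIDK: the theorem on the grid, real parts of the interior blocks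
(from HAARK, CFEK, BLKB, NUMK, BGB) -/
def StGridK : Prop := ∀ (m : ℕ) (ε : ℝ), 1 ≤ m → 0 < ε → ∃ C : ℝ, 0 < C ∧
  ∀ (n : ℕ) (c : (Fin (m + 1) → ℤ) → ℂ) (A M : ℝ), 1 ≤ n → 0 ≤ A → 0 ≤ M →
    (∀ l ∈ inl (m + 1) n, ∀ ω : Pt m (2 * n + 2), |bg c l ω| ≤ A) →
    (∀ ω : Pt m (2 * n + 2), |∑ l ∈ inl (m + 1) n, bg c l ω| ≤ M) →
    Av (fun ω : Pt m (2 * n + 2) => (∑ l ∈ inl (m + 1) n, bg c l ω) ^ 2) ≤
      C * ((2 * n : ℕ) : ℝ) ^ ((m : ℝ) / 2 - 1 / (2 * ((m : ℝ) + 1)) + ε) * A * M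

/-- INTK: removal of the boundary blocks costs a factor `2 ^ d` -/
def StIntK : Prop := ∀ (m n L : ℕ) (c : (Fin (m + 1) → ℤ) → ℂ) (M : ℝ), 2 * n + 2 ≤ L →
    (∀ ω : Pt m L, |∑ l ∈ Finset.Nat.antidiagonalTuple (m + 1) n, bg c l ω| ≤ M) →
    ∀ ω : Pt m L, |∑ l ∈ inl (m + 1) n, bg c l ω| ≤ 2 ^ (m + 1) * M

/-- PARK: Parseval on the grid (real and imaginary part), for a set of positions -/
def StParK : Prop := ∀ (m n L : ℕ) (c : (Fin (m + 1) → ℤ) → ℂ) (J : Finset (Fin (m + 1) → ℕ)),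
    J ⊆ Finset.Nat.antidiagonalTuple (m + 1) n → 2 * n + 2 ≤ L →
    Av (fun ω : Pt m L => (∑ l ∈ J, bg c l ω) ^ 2) +
      Av (fun ω : Pt m L => (∑ l ∈ J, bg (fun k => -Complex.I * c k) l ω) ^ 2) =
      ∑ l ∈ J, ∑ k ∈ blk l, ‖c k‖ ^ 2

/-- CARDB: the number of boundary positions -/
def StCardb : Prop := ∀ d : ℕ, 2 ≤ d → ∃ C : ℝ, 1 ≤ C ∧ ∀ n : ℕ, 1 ≤ n →
    (((Finset.Nat.antidiagonalTuple d n \ inl d n).card : ℕ) : ℝ) ≤ C * (n : ℝ) ^ (d - 2)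

/-- FINALK: the theorem (from GRIDK, INTK, PARK, CARDB) -/
def StFinalK : Prop := ∀ (d : ℕ) (ε : ℝ), 3 ≤ d → 0 < ε → ∃ C : ℝ, 0 < C ∧
  ∀ (n : ℕ) (c : (Fin d → ℤ) → ℂ) (A : ℝ), 1 ≤ n →
    (∀ l ∈ Finset.Nat.antidiagonalTuple d n, ∀ x : Fin d → ℝ, ‖bp c l x‖ ≤ A) →
    C * ∑ l ∈ Finset.Nat.antidiagonalTuple d n, ∑ k ∈ blk l, ‖c k‖ ^ 2 ≤
      ((2 * n : ℕ) : ℝ) ^ (((d : ℝ) - 1) / 2 - 1 / (2 * (d : ℝ)) + ε) * A *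
        ⨆ x : Fin d → ℝ, ‖∑ l ∈ Finset.Nat.antidiagonalTuple d n, bp c l x‖

end Pool.Agent.SHD
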