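import Pool.Agent.Lib.MP_a7b2aa_an.SHD.Stmts4_25
import Pool.Agent.Lib.MP_a7b2aa_an.SHD.VisG74

/-!
SHD4, module VISY (helper21): drift of a gated sum. Adapted from VISG (helper74).
-/

set_option autoImplicit false

namespace Pool.Agent.SHD

open Finset Pool.Agent.SB3 Pool.Agent.SBT Pool.Agent.SBD Pool.Agent.SBD.Bess46

theorem EE_all_21 {m L : ℕ} (φ : Pt m L → ℝ) (ω : Pt m L) : EE (fun _ => 0) φ ω = Av φ := by
  have h1 : EE (fun _ => 0) φ = fun _ => EE (fun _ => 0) φ ω := by
    funext ω'
    refine (eeb_36 m L).ms _ _ ω ω' fun a => ?_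
    funext i
    unfold pre
    simp
  rw [← (eeb_36 m L).mean (fun _ => 0) φ, h1, Av_const]

open G74 in
open Classical in
theorem visy_21 (hE : StEntC) : StVisy := by
  intro m L k ρ W c g Y hL hg hY hW hnb
  set ω0 : Pt m L := fun _ _ => false with hω0
  set p : Fin (m + 1) → ℕ := fun _ => 0 with hp
  have hρ0 := hL.nonneg
  have hρk := hL.le
  -- slices
  set ρn : ℕ → Pt m L → ℝ := fun n ω => if tau L g ω = n then ρ ω else 0 with hρn
  have hρn0 : ∀ n ω, 0 ≤ ρn n ω := by
    intro n ω
    rw [hρn]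
    dsimp only
    split_ifs
    · exact hρ0 ω
    · exact le_rfl
  have hρnk : ∀ n ω, ρn n ω ≤ Real.exp k := by
    intro n ω
    rw [hρn]
    dsimp only
    split_ifs
    · exact hρk ω
    · exact (Real.exp_pos k).le
  have hρnt : ∀ n ω, ρn n ω ≠ 0 → tau L g ω = n := by
    intro n ω h
    by_contra h1
    apply h
    rw [hρn]
    dsimp only
    rw [if_neg h1]
  have hsum : ∀ ω, ∑ n ∈ range (L + 1), ρn n ω = ρ ω := by
    intro ω
    rw [hρn]
    dsimp only
    rw [Finset.sum_ite_eq, if_pos]
    rw [mem_range]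
    have := tau_le g ω
    omega
  have hsumE : ∀ φ : Pt m L → ℝ, ∑ n ∈ range (L + 1), EE p (fun ω => ρn n ω * φ ω) ω0 =
      EE p (fun ω => ρ ω * φ ω) ω0 := by
    intro φ
    rw [← EE_sum74]
    congr 1
    funext ω
    rw [← Finset.sum_mul, hsum]
  set fn : ℕ → ℝ := fun n => EE p (ρn n) ω0 with hfn
  have hfn0 : ∀ n, 0 ≤ fn n := by
    intro n
    have h1 := (eeb_36 m L).mono p (fun _ => 0) (ρn n) (hρn0 n) ω0
    rwa [(eeb_36 m L).const] at h1
  have hfns : ∑ n ∈ range (L + 1), fn n = 1 := by
    rw [hfn]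
    dsimp only
    rw [← EE_sum74 p (range (L + 1)) ρn ω0, ← hL.mean, ← EE_all_21 ρ ω0]
    congr 1
    funext ω
    exact hsum ω
  -- the slices of the left hand side
  set A : ℕ → ℝ := fun n => EE p (fun ω => ρn n ω *
    ∑ j ∈ range L, ∑ t ∈ range L, g j ω * (sb c t ω * Y j t ω)) ω0 with hA
  have hLHS : ∑ j ∈ range L, ∑ t ∈ range L, Ex ρ (fun ω => g j ω * (sb c t ω * Y j t ω)) =
      ∑ n ∈ range (L + 1), 1 * A n := by
    simp only [one_mul]
    rw [hA]
    dsimp only
    rw [hsumE (fun ω => ∑ j ∈ range L, ∑ t ∈ range L, g j ω * (sb c t ω * Y j t ω)),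
      EE_all_21]
    have h1 : Av (fun ω => ρ ω * ∑ j ∈ range L, ∑ t ∈ range L,
        g j ω * (sb c t ω * Y j t ω)) = Ex ρ (fun ω => ∑ j ∈ range L, ∑ t ∈ range L,
        g j ω * (sb c t ω * Y j t ω)) := rfl
    rw [h1, Ex_sum]
    refine Finset.sum_congr rfl fun j _ => ?_
    rw [Ex_sum]
  -- the bias form
  have hbias : ∀ n, A n = EE p (fun ω => ρn n ω * ∑ t ∈ range L,
      al (ρn n) c t ω * ∑ j ∈ range (min n L), Y j t ω) ω0 := by
    intro n
    have h1 : A n = EE p (fun ω => ∑ t ∈ range L, ρn n ω * (sb c t ω *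
        ∑ j ∈ range (min n L), Y j t ω)) ω0 := by
      rw [hA]
      dsimp only
      congr 1
      funext ω
      by_cases hz : ρn n ω = 0
      · rw [hz]
        simp
      · have ht := hρnt n ω hz
        rw [← Finset.mul_sum]
        congr 1
        have h2 : ∑ j ∈ range L, ∑ t ∈ range L, g j ω * (sb c t ω * Y j t ω) =
            ∑ j ∈ range (min n L), ∑ t ∈ range L, sb c t ω * Y j t ω := by
          have hsub : range (min n L) ⊆ range L := by
            intro j hj
            rw [mem_range] at hj ⊢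
            omega
          rw [← Finset.sum_subset hsub]
          · refine Finset.sum_congr rfl fun j hj => ?_
            rw [mem_range] at hj
            have h3 := (tau_iff hg (j := j) (by omega) ω).2 (by omega)
            refine Finset.sum_congr rfl fun t _ => ?_
            rw [h3, one_mul]
          · intro j hj hj2
            rw [mem_range] at hj hj2
            rcases hg.zo j ω with h3 | h3
            · exact Finset.sum_eq_zero fun t _ => by rw [h3, zero_mul]
            · exfalso
              have := (tau_iff hg hj ω).1 h3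
              omega
        rw [h2, Finset.sum_comm]
        refine Finset.sum_congr rfl fun t _ => ?_
        rw [← Finset.mul_sum]
    rw [h1, EE_sum74]
    have h5 : ∀ t ∈ range L, EE p (fun ω => ρn n ω * (sb c t ω *
        ∑ j ∈ range (min n L), Y j t ω)) ω0 =
        EE p (fun ω => ρn n ω * (al (ρn n) c t ω *
        ∑ j ∈ range (min n L), Y j t ω)) ω0 := by
      intro t ht
      rw [mem_range] at ht
      refine EE_al p c t (Nat.zero_le _) ht (hρn0 n) ?_ ω0
      intro ω ω' h
      exact Finset.sum_congr rfl fun j _ => hY j t ω ω' h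
    rw [Finset.sum_congr rfl h5, ← EE_sum74]
    congr 1
    funext ω
    rw [Finset.mul_sum]
  -- Cauchy-Schwarz on each slice
  set an : ℕ → ℝ := fun n => 4 * (fn n * (k - Real.log (fn n))) with han
  set bn : ℕ → ℝ := fun n => EE p (fun ω => ρn n ω * W ω) ω0 with hbn
  have hlog : ∀ n, 0 ≤ fn n * (k - Real.log (fn n)) := by
    intro n
    rcases (hfn0 n).eq_or_lt with h | h
    · rw [← h, zero_mul]
    · refine mul_nonneg h.le ?_
      have h1 : fn n ≤ Real.exp k := by
        have h2 := (eeb_36 m L).mono p (ρn n) (fun _ => Real.exp k) (hρnk n) ω0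
        rwa [(eeb_36 m L).const] at h2
      have h2 := Real.log_le_log h h1
      rw [Real.log_exp] at h2
      linarith
  have hbn0 : ∀ n, 0 ≤ bn n := by
    intro n
    rw [hbn]
    have h4 := (eeb_36 m L).mono p (fun _ => 0) (fun ω => ρn n ω * W ω)
      (fun ω => mul_nonneg (hρn0 n ω) (hW ω)) ω0
    rwa [(eeb_36 m L).const] at h4
  have hslice : ∀ n, A n ^ 2 ≤ an n * bn n := by
    intro n
    have h1 : A n ^ 2 ≤
        EE p (fun ω => ρn n ω * ∑ t ∈ Finset.Ico (p c) L, al (ρn n) c t ω ^ 2) ω0 *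
        EE p (fun ω => ρn n ω * W ω) ω0 := by
      rw [hbias n]
      refine EE_cs p (hρn0 n) (fun ω _ => Finset.sum_nonneg fun t _ => sq_nonneg _)
        (fun ω _ => hW ω) ?_ ω0
      intro ω hz
      have ht := hρnt n ω hz
      have hnL : n ≤ L := ht ▸ tau_le g ω
      rw [min_eq_left hnL]
      have h2 := Finset.sum_mul_sq_le_sq_mul_sq (range L)
        (fun t => al (ρn n) c t ω) (fun t => ∑ j ∈ range n, Y j t ω)
      refine h2.trans ?_
      have h3 : ∑ t ∈ range L, al (ρn n) c t ω ^ 2 =
          ∑ t ∈ Finset.Ico (p c) L, al (ρn n) c t ω ^ 2 := by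
        rw [hp, range_eq_Ico]
      have h4 : ∑ t ∈ range L, (∑ j ∈ range n, Y j t ω) ^ 2 ≤ W ω := by
        rcases Nat.eq_zero_or_pos n with hn | hn
        · subst hn
          have e : ∑ t ∈ range L, (∑ j ∈ range 0, Y j t ω) ^ 2 = 0 := by
            simp
          rw [e]
          exact hW ω
        · have hgo : g (n - 1) ω = 1 := (tau_iff hg (j := n - 1) (by omega) ω).2 (by omega)
          have h5 := hnb (n - 1) ω (by omega) hgo
          have e1 : n - 1 + 1 = n := by omega
          rwa [e1] at h5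
      rw [h3]
      exact mul_le_mul_of_nonneg_left h4 (Finset.sum_nonneg fun t _ => sq_nonneg _)
    have h2 : EE p (fun ω => ρn n ω * ∑ t ∈ Finset.Ico (p c) L, al (ρn n) c t ω ^ 2) ω0 ≤
        an n := by
      rcases (hfn0 n).eq_or_lt with h | h
      · have h3 : EE p (fun ω => ρn n ω * ∑ t ∈ Finset.Ico (p c) L, al (ρn n) c t ω ^ 2) ω0 ≤
            EE p (fun ω => (L : ℝ) * ρn n ω) ω0 := by
          refine (eeb_36 m L).mono _ _ _ (fun ω => ?_) ω0
          rw [mul_comm]
          refine mul_le_mul_of_nonneg_right ?_ (hρn0 n ω)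
          have h4 : ∀ t ∈ Finset.Ico (p c) L, al (ρn n) c t ω ^ 2 ≤ 1 := by
            intro t _
            have h5 : |al (ρn n) c t ω| ≤ 1 := by
              unfold al
              by_cases h0 : EE (one L c t) (ρn n) ω = 0
              · rw [h0, div_zero, abs_zero]
                exact zero_le_one
              · have h6 : 0 ≤ EE (one L c t) (ρn n) ω := by
                  have h7 := (eeb_36 m L).mono (one L c t) (fun _ => 0) (ρn n) (hρn0 n) ω
                  rwa [(eeb_36 m L).const] at h7
                have h7 : 0 < EE (one L c t) (ρn n) ω := lt_of_le_of_ne h6 (Ne.symm h0)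
                rw [abs_div, abs_of_pos h7, div_le_one h7]
                refine ((eeb_36 m L).abs _ _ _).trans ((eeb_36 m L).mono _ _ _ (fun ω₁ => ?_) _)
                rw [abs_mul, abs_of_nonneg (hρn0 n ω₁), SBD.sb_abs, mul_one]
            rw [← sq_abs]
            exact pow_le_one₀ (abs_nonneg _) h5
          refine (Finset.sum_le_sum h4).trans ?_
          rw [Finset.sum_const, Nat.card_Ico, nsmul_eq_mul, mul_one]
          exact_mod_cast Nat.sub_le _ _
        have h5 : EE p (fun ω => (L : ℝ) * ρn n ω) ω0 = (L : ℝ) * fn n :=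
          (eeb_36 m L).smul p _ _ _
        rw [h5, ← h, mul_zero] at h3
        refine h3.trans ?_
        rw [han]
        exact mul_nonneg (by norm_num) (hlog n)
      · exact hE m L k (ρn n) c p ω0 (hρn0 n) (hρnk n) h
    exact h1.trans (mul_le_mul_of_nonneg_right h2 (hbn0 n))
  -- the sum over the slices
  have han0 : ∀ n, 0 ≤ an n := fun n => mul_nonneg (by norm_num) (hlog n)
  have hfin := wcs (range (L + 1)) (fun _ => 1) A an bn (fun _ _ => zero_le_one)
    (fun n _ _ => han0 n) (fun n _ _ => hbn0 n) (fun n _ _ => hslice n)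
  rw [hLHS]
  refine hfin.trans ?_
  simp only [one_mul]
  have hsb : ∑ n ∈ range (L + 1), bn n = Ex ρ W := by
    rw [hbn]
    dsimp only
    rw [hsumE, EE_all_21]
    rfl
  have hsa : ∑ n ∈ range (L + 1), an n ≤ 4 * (k + Real.log (L + 1)) := by
    rw [han]
    dsimp only
    rw [← Finset.mul_sum]
    refine mul_le_mul_of_nonneg_left ?_ (by norm_num)
    have h1 := entp (L + 1) (by omega) fn 1 (fun n _ => hfn0 n) hfns one_pos
    have h2 : ∑ n ∈ range (L + 1), fn n * (k - Real.log (fn n)) =
        1 * k + ∑ n ∈ range (L + 1), -(fn n * Real.log (fn n)) := by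
      rw [← hfns, Finset.sum_mul, ← Finset.sum_add_distrib]
      exact Finset.sum_congr rfl fun n _ => by ring
    rw [h2]
    rw [Real.log_one] at h1
    push_cast at h1
    linarith
  have hBnn : 0 ≤ ∑ n ∈ range (L + 1), bn n := Finset.sum_nonneg fun n _ => hbn0 n
  calc (∑ n ∈ range (L + 1), an n) * ∑ n ∈ range (L + 1), bn n
      ≤ 4 * (k + Real.log (L + 1)) * ∑ n ∈ range (L + 1), bn n :=
        mul_le_mul_of_nonneg_right hsa hBnn
    _ = _ := by rw [hsb]

end Pool.Agent.SHD
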